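import Pool.Agent.MVD.Hgt

/-!
# Module DetHgt (size 5)

Use the definition of `hgt` as a sum over the places. Let `N = card ι`, `ι = (I → Fin (D+1))`, `Δ` the determinant. For every place `v` (finite or
infinite) and every `b`: `|mon I (Q b) a|_v ≤ ∏_{j ∈ I} max(1, |Q b j|_v)^D =: M_v(b) ≥ 1`. Leibniz: at a finite place
`|Δ|_v ≤ ∏_b M_v(b)` (ultrametric), at an infinite place `w Δ ≤ N! ∏_b M_w(b)`. As the right sides are at least `1`:
`log max(1,|Δ|_v) ≤ ∑_b ∑_{j ∈ I} D log max(1, |Q b j|_v) (+ log N! at the infinite places)`. Multiply by `mult` at the infinite places, sum over all places: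
`∑ mult = finrank`; the finite places: `finsum` of a finite sum of functions with finite support (`finite_support_hgt`, for `Q b j ≠ 0`; for
`Q b j = 0` the function is `0`), `finsum_le_finsum`, `finsum_sum_comm`. If `Δ = 0` then `hgt Δ = 0`, trivial.
-/

namespace Pool.Agent.MVD

open NumberField IsDedekindDomain Pool.Agent.H7.Abc Pool.Agent.AbcE MvPolynomial

section general

variable {K : Type*} [Field K] {n : ℕ}

/-- The bound for the columns. -/
private noncomputable def dhM (V : K → ℝ) (I : Finset (Fin n)) (D : ℕ) (P : Fin n → K) : ℝ :=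
  ∏ j : I, (max 1 (V (P j))) ^ D

omit [Field K] in
private theorem dhM_one_le (V : K → ℝ) (I : Finset (Fin n)) (D : ℕ) (P : Fin n → K) :
    1 ≤ dhM V I D P := by
  unfold dhM
  exact Finset.one_le_prod (fun j _ => one_le_pow₀ (le_max_left _ _))

omit [Field K] in
private theorem dhM_log (V : K → ℝ) (I : Finset (Fin n)) (D : ℕ) (P : Fin n → K) :
    Real.log (dhM V I D P) = ∑ j : I, (D : ℝ) * Real.log (max 1 (V (P j))) := by
  unfold dhM
  rw [Real.log_prod (fun j _ => by positivity)]
  exact Finset.sum_congr rfl fun j _ => Real.log_pow _ _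

private theorem dh_mon (V : K →*₀ ℝ) (hV : ∀ x, 0 ≤ V x) (I : Finset (Fin n)) (D : ℕ)
    (P : Fin n → K) (a : I → Fin (D + 1)) : V (mon I P a) ≤ dhM V I D P := by
  unfold mon dhM
  rw [map_prod]
  refine Finset.prod_le_prod (fun j _ => hV _) fun j _ => ?_
  rw [map_pow]
  have h1 : V (P j) ^ (a j : ℕ) ≤ (max 1 (V (P j))) ^ (a j : ℕ) :=
    pow_le_pow_left₀ (hV _) (le_max_right _ _) _
  refine h1.trans (pow_le_pow_right₀ (le_max_left _ _) ?_)
  exact Nat.lt_succ_iff.1 (a j).2

end general

section absv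

variable {K : Type*} [Field K] {n : ℕ}

private theorem dh_term (V : K →*₀ ℝ) (hV : ∀ x, 0 ≤ V x) (I : Finset (Fin n)) (D : ℕ)
    (Q : (I → Fin (D + 1)) → Fin n → K) (σ : Equiv.Perm (I → Fin (D + 1))) :
    V (∏ b, (Matrix.of fun a b => mon I (Q b) a) (σ b) b) ≤ ∏ b, dhM V I D (Q b) := by
  rw [map_prod]
  refine Finset.prod_le_prod (fun j _ => hV _) fun j _ => ?_
  exact dh_mon V hV I D (Q j) (σ j)

end absv

variable {K : Type*} [Field K] [NumberField K] {n : ℕ}

private theorem dh_fin (v : HeightOneSpectrum (𝓞 K)) (I : Finset (Fin n)) (D : ℕ)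
    (Q : (I → Fin (D + 1)) → Fin n → K) :
    FinitePlace.mk v (Matrix.det (Matrix.of fun a b => mon I (Q b) a)) ≤
      ∏ b, dhM (fun x => FinitePlace.mk v x) I D (Q b) := by
  classical
  have hna := na_mk (K := K) v
  let V : K →*₀ ℝ :=
    { toFun := fun x => FinitePlace.mk v x
      map_zero' := hna.zero
      map_one' := hna.one
      map_mul' := hna.mul }
  have hC : 0 ≤ ∏ b, dhM (fun x => FinitePlace.mk v x) I D (Q b) :=
    Finset.prod_nonneg fun b _ => le_trans zero_le_one (dhM_one_le _ _ _ _)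
  have hsum : ∀ (s : Finset (Equiv.Perm (I → Fin (D + 1))))
      (x : Equiv.Perm (I → Fin (D + 1)) → K),
      (∀ i ∈ s, FinitePlace.mk v (x i) ≤ ∏ b, dhM (fun x => FinitePlace.mk v x) I D (Q b)) →
      FinitePlace.mk v (∑ i ∈ s, x i) ≤ ∏ b, dhM (fun x => FinitePlace.mk v x) I D (Q b) := by
    intro s x
    induction s using Finset.induction_on with
    | empty =>
      intro _
      rw [Finset.sum_empty]
      have h0 : FinitePlace.mk v (0 : K) = 0 := hna.zero
      rw [h0]; exact hC
    | insert i s hi ih =>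
      intro h
      rw [Finset.sum_insert hi]
      refine (hna.add _ _).trans (max_le (h i (Finset.mem_insert_self _ _)) ?_)
      exact ih fun j hj => h j (Finset.mem_insert_of_mem hj)
  rw [Matrix.det_apply]
  refine hsum _ _ fun σ _ => ?_
  have h1 := dh_term V hna.nonneg I D Q σ
  have h2 : FinitePlace.mk v (Equiv.Perm.sign σ • ∏ b, (Matrix.of fun a b => mon I (Q b) a) (σ b) b)
      = V (∏ b, (Matrix.of fun a b => mon I (Q b) a) (σ b) b) := by
    rcases Int.units_eq_one_or (Equiv.Perm.sign σ) with h | h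
    · rw [h, one_smul]; rfl
    · rw [h]
      have h3 : ((-1 : ℤˣ) • ∏ b, (Matrix.of fun a b => mon I (Q b) a) (σ b) b) =
          (-1 : K) * ∏ b, (Matrix.of fun a b => mon I (Q b) a) (σ b) b := by
        rw [Units.neg_smul, one_smul, neg_one_mul]
      rw [h3]
      have h4 : V (-1) = 1 := by
        have h5 : V (-1) * V (-1) = 1 := by
          rw [← map_mul, neg_mul_neg, one_mul, map_one]
        have h6 : 0 ≤ V (-1) := hna.nonneg _
        nlinarith
      show V ((-1 : K) * _) = _
      rw [map_mul, h4, one_mul]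
  rw [h2]
  exact h1

private theorem dh_inf (w : InfinitePlace K) (I : Finset (Fin n)) (D : ℕ)
    (Q : (I → Fin (D + 1)) → Fin n → K) :
    w (Matrix.det (Matrix.of fun a b => mon I (Q b) a)) ≤
      ((Fintype.card (I → Fin (D + 1))).factorial : ℝ) * ∏ b, dhM (fun x => w x) I D (Q b) := by
  classical
  let V : K →*₀ ℝ :=
    { toFun := fun x => w x
      map_zero' := map_zero w
      map_one' := map_one w
      map_mul' := map_mul w }
  rw [Matrix.det_apply]
  have h0 : ∀ (s : Finset (Equiv.Perm (I → Fin (D + 1))))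
      (x : Equiv.Perm (I → Fin (D + 1)) → K), w (∑ i ∈ s, x i) ≤ ∑ i ∈ s, w (x i) := by
    intro s x
    induction s using Finset.induction_on with
    | empty => rw [Finset.sum_empty, Finset.sum_empty, map_zero]
    | insert i s hi ih =>
      rw [Finset.sum_insert hi, Finset.sum_insert hi]
      exact (w.1.add_le _ _).trans (add_le_add le_rfl ih)
  refine (h0 _ _).trans ?_
  have h1 : ∀ σ ∈ (Finset.univ : Finset (Equiv.Perm (I → Fin (D + 1)))),
      w (Equiv.Perm.sign σ • ∏ b, (Matrix.of fun a b => mon I (Q b) a) (σ b) b) ≤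
        ∏ b, dhM (fun x => w x) I D (Q b) := by
    intro σ _
    have h1 := dh_term V (fun x => apply_nonneg w x) I D Q σ
    have h2 : w (Equiv.Perm.sign σ • ∏ b, (Matrix.of fun a b => mon I (Q b) a) (σ b) b)
        = V (∏ b, (Matrix.of fun a b => mon I (Q b) a) (σ b) b) := by
      rcases Int.units_eq_one_or (Equiv.Perm.sign σ) with h | h
      · rw [h, one_smul]; rfl
      · rw [h]
        have h3 : ((-1 : ℤˣ) • ∏ b, (Matrix.of fun a b => mon I (Q b) a) (σ b) b) =
            (-1 : K) * ∏ b, (Matrix.of fun a b => mon I (Q b) a) (σ b) b := by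
          rw [Units.neg_smul, one_smul, neg_one_mul]
        rw [h3]
        have h4 : V (-1) = 1 := by
          have h5 : V (-1) * V (-1) = 1 := by
            rw [← map_mul, neg_mul_neg, one_mul, map_one]
          have h6 : 0 ≤ V (-1) := apply_nonneg w _
          nlinarith
        show V ((-1 : K) * _) = _
        rw [map_mul, h4, one_mul]
    rw [h2]
    exact h1
  refine (Finset.sum_le_sum h1).trans ?_
  rw [Finset.sum_const, nsmul_eq_mul, Finset.card_univ, Fintype.card_perm]

private theorem dh_supp (x : K) :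
    (Function.support fun v : HeightOneSpectrum (𝓞 K) =>
      Real.log (max 1 (FinitePlace.mk v x))).Finite := by
  by_cases hx : x = 0
  · subst hx
    have : (fun v : HeightOneSpectrum (𝓞 K) => Real.log (max 1 (FinitePlace.mk v (0 : K)))) =
        fun _ => 0 := by
      funext v
      have h0 : FinitePlace.mk v (0 : K) = 0 := (na_mk (K := K) v).zero
      rw [h0, max_eq_left zero_le_one, Real.log_one]
    rw [this, Function.support_fun_zero]
    exact Set.finite_empty
  · exact finite_support_hgt hx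

/-- The height of a determinant of monomials. -/
theorem det_hgt {K : Type*} [Field K] [NumberField K] {n : ℕ} (I : Finset (Fin n)) (D : ℕ)
    (Q : (I → Fin (D + 1)) → Fin n → K) :
    hgt (Matrix.det (Matrix.of fun a b => mon I (Q b) a)) ≤
      ∑ b, ∑ j : I, (D : ℝ) * hgt (Q b j) +
        Module.finrank ℚ K * Real.log ((Fintype.card (I → Fin (D + 1))).factorial : ℝ) := by
  classical
  set Δ := Matrix.det (Matrix.of fun a b => mon I (Q b) a) with hΔ
  set NF : ℝ := ((Fintype.card (I → Fin (D + 1))).factorial : ℝ) with hNF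
  have hNF1 : 1 ≤ NF := by
    rw [hNF]; exact_mod_cast Nat.one_le_iff_ne_zero.2 (Nat.factorial_ne_zero _)
  have hinf : ∀ w : InfinitePlace K, Real.log (max 1 (w Δ)) ≤
      ∑ b, ∑ j : I, (D : ℝ) * Real.log (max 1 (w (Q b j))) + Real.log NF := by
    intro w
    have h1 := dh_inf w I D Q
    have h2 : 1 ≤ ∏ b, dhM (fun x => w x) I D (Q b) :=
      Finset.one_le_prod fun b _ => dhM_one_le _ _ _ _
    have h3 : max 1 (w Δ) ≤ NF * ∏ b, dhM (fun x => w x) I D (Q b) :=
      max_le (by nlinarith) h1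
    have h4 : Real.log (max 1 (w Δ)) ≤ Real.log (NF * ∏ b, dhM (fun x => w x) I D (Q b)) :=
      Real.log_le_log (lt_of_lt_of_le one_pos (le_max_left _ _)) h3
    have h5 : ∀ b, 0 < dhM (fun x => w x) I D (Q b) := fun b =>
      lt_of_lt_of_le one_pos (dhM_one_le _ _ _ _)
    rw [Real.log_mul (by positivity) (Finset.prod_ne_zero_iff.2 fun b _ => (h5 b).ne'),
      Real.log_prod (fun b _ => (h5 b).ne'), add_comm] at h4
    refine h4.trans (le_of_eq ?_)
    congr 1
    exact Finset.sum_congr rfl fun b _ => dhM_log _ _ _ _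
  have hfin : ∀ v : HeightOneSpectrum (𝓞 K), Real.log (max 1 (FinitePlace.mk v Δ)) ≤
      ∑ b, ∑ j : I, (D : ℝ) * Real.log (max 1 (FinitePlace.mk v (Q b j))) := by
    intro v
    have h1 := dh_fin v I D Q
    have h2 : 1 ≤ ∏ b, dhM (fun x => FinitePlace.mk v x) I D (Q b) :=
      Finset.one_le_prod fun b _ => dhM_one_le _ _ _ _
    have h3 : max 1 (FinitePlace.mk v Δ) ≤ ∏ b, dhM (fun x => FinitePlace.mk v x) I D (Q b) :=
      max_le h2 h1
    have h4 : Real.log (max 1 (FinitePlace.mk v Δ)) ≤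
        Real.log (∏ b, dhM (fun x => FinitePlace.mk v x) I D (Q b)) :=
      Real.log_le_log (lt_of_lt_of_le one_pos (le_max_left _ _)) h3
    have h5 : ∀ b, 0 < dhM (fun x => FinitePlace.mk v x) I D (Q b) := fun b =>
      lt_of_lt_of_le one_pos (dhM_one_le _ _ _ _)
    rw [Real.log_prod (fun b _ => (h5 b).ne')] at h4
    refine h4.trans (le_of_eq ?_)
    exact Finset.sum_congr rfl fun b _ => dhM_log _ _ _ _
  -- the finite places
  have hS : ∀ b : (I → Fin (D + 1)), ∀ j : I, (Function.support fun v : HeightOneSpectrum (𝓞 K) =>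
      (D : ℝ) * Real.log (max 1 (FinitePlace.mk v (Q b j)))).Finite := by
    intro b j
    refine (dh_supp (Q b j)).subset ?_
    intro v hv
    rw [Function.mem_support] at hv ⊢
    exact right_ne_zero_of_mul hv
  have hS2 : ∀ b : (I → Fin (D + 1)), (Function.support fun v : HeightOneSpectrum (𝓞 K) =>
      ∑ j : I, (D : ℝ) * Real.log (max 1 (FinitePlace.mk v (Q b j)))).Finite := by
    intro b
    refine (Set.finite_iUnion fun j : I => hS b j).subset ?_
    intro v hv
    rw [Function.mem_support] at hv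
    obtain ⟨j, -, hj⟩ := Finset.exists_ne_zero_of_sum_ne_zero hv
    exact Set.mem_iUnion.2 ⟨j, hj⟩
  have hS3 : (Function.support fun v : HeightOneSpectrum (𝓞 K) =>
      ∑ b, ∑ j : I, (D : ℝ) * Real.log (max 1 (FinitePlace.mk v (Q b j)))).Finite := by
    refine (Set.finite_iUnion fun b : (I → Fin (D + 1)) => hS2 b).subset ?_
    intro v hv
    rw [Function.mem_support] at hv
    obtain ⟨j, -, hj⟩ := Finset.exists_ne_zero_of_sum_ne_zero hv
    exact Set.mem_iUnion.2 ⟨j, hj⟩
  have hA : ∑ᶠ v : HeightOneSpectrum (𝓞 K), Real.log (max 1 (FinitePlace.mk v Δ)) ≤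
      ∑ b, ∑ j : I, (D : ℝ) * ∑ᶠ v : HeightOneSpectrum (𝓞 K),
        Real.log (max 1 (FinitePlace.mk v (Q b j))) := by
    have h1 : ∑ᶠ v : HeightOneSpectrum (𝓞 K), Real.log (max 1 (FinitePlace.mk v Δ)) ≤
        ∑ᶠ v : HeightOneSpectrum (𝓞 K),
          ∑ b, ∑ j : I, (D : ℝ) * Real.log (max 1 (FinitePlace.mk v (Q b j))) :=
      finsum_le_finsum' (dh_supp Δ) hS3 hfin
    refine h1.trans (le_of_eq ?_)
    rw [finsum_sum_comm _ _ fun b _ => hS2 b]
    refine Finset.sum_congr rfl fun b _ => ?_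
    rw [finsum_sum_comm _ _ fun j _ => hS b j]
    refine Finset.sum_congr rfl fun j _ => ?_
    rw [mul_finsum]
  -- the infinite places
  have hB : ∑ w : InfinitePlace K, (w.mult : ℝ) * Real.log (max 1 (w Δ)) ≤
      ∑ b, ∑ j : I, (D : ℝ) * (∑ w : InfinitePlace K,
        (w.mult : ℝ) * Real.log (max 1 (w (Q b j)))) +
        Module.finrank ℚ K * Real.log NF := by
    have h1 : ∑ w : InfinitePlace K, (w.mult : ℝ) * Real.log (max 1 (w Δ)) ≤
        ∑ w : InfinitePlace K, (w.mult : ℝ) *
          (∑ b, ∑ j : I, (D : ℝ) * Real.log (max 1 (w (Q b j))) + Real.log NF) :=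
      Finset.sum_le_sum fun w _ => mul_le_mul_of_nonneg_left (hinf w) (Nat.cast_nonneg _)
    refine h1.trans (le_of_eq ?_)
    simp_rw [mul_add]
    rw [Finset.sum_add_distrib, ← Finset.sum_mul]
    congr 1
    · simp_rw [Finset.mul_sum]
      rw [Finset.sum_comm]
      refine Finset.sum_congr rfl fun b _ => ?_
      rw [Finset.sum_comm]
      refine Finset.sum_congr rfl fun j _ => ?_
      refine Finset.sum_congr rfl fun w _ => ?_
      ring
    · congr 1
      rw [← Nat.cast_sum, InfinitePlace.sum_mult_eq]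
  have hC : ∀ b : (I → Fin (D + 1)), ∀ j : I, (D : ℝ) * hgt (Q b j) =
      (D : ℝ) * (∑ w : InfinitePlace K, (w.mult : ℝ) * Real.log (max 1 (w (Q b j)))) +
      (D : ℝ) * ∑ᶠ v : HeightOneSpectrum (𝓞 K),
        Real.log (max 1 (FinitePlace.mk v (Q b j))) := by
    intro b j
    rw [← mul_add]
    rfl
  have hD : ∑ b, ∑ j : I, (D : ℝ) * hgt (Q b j) =
      ∑ b, ∑ j : I, (D : ℝ) * (∑ w : InfinitePlace K,
        (w.mult : ℝ) * Real.log (max 1 (w (Q b j)))) +
      ∑ b, ∑ j : I, (D : ℝ) * ∑ᶠ v : HeightOneSpectrum (𝓞 K),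
        Real.log (max 1 (FinitePlace.mk v (Q b j))) := by
    rw [← Finset.sum_add_distrib]
    refine Finset.sum_congr rfl fun b _ => ?_
    rw [← Finset.sum_add_distrib]
    exact Finset.sum_congr rfl fun j _ => hC b j
  have hE : hgt Δ = (∑ w : InfinitePlace K, (w.mult : ℝ) * Real.log (max 1 (w Δ))) +
    ∑ᶠ v : HeightOneSpectrum (𝓞 K), Real.log (max 1 (FinitePlace.mk v Δ)) := rfl
  rw [hE, hD]
  linarith

end Pool.Agent.MVD
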