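import Mathlib

/-!
# Module Lin

(done) If all determinants of vectors of `T` vanish then `T` is orthogonal to a nonzero vector.
-/

namespace Pool.Agent.MVD


theorem lin {K ι : Type*} [Field K] [Fintype ι] [DecidableEq ι] (T : Set (ι → K))
    (h : ∀ g : ι → (ι → K), (∀ i, g i ∈ T) → Matrix.det (Matrix.of g) = 0) :
    ∃ c : ι → K, c ≠ 0 ∧ ∀ t ∈ T, ∑ i, c i * t i = 0 := by
  have hne : Submodule.span K T ≠ ⊤ := by
    intro htop
    obtain ⟨b, hbT, hspan, hli⟩ := exists_linearIndependent K T
    rw [htop] at hspan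
    have hB : ⊤ ≤ Submodule.span K (Set.range ((↑) : b → (ι → K))) := by
      rw [Subtype.range_coe, hspan]
    let Bs : Module.Basis b K (ι → K) := Module.Basis.mk hli hB
    let ε : ι ≃ b := (Pi.basisFun K ι).indexEquiv Bs
    have h1 := h (fun i => (ε i : ι → K)) (fun i => hbT (ε i).2)
    have h2 : LinearIndependent K (fun i => (ε i : ι → K)) := hli.comp ε ε.injective
    have h3 : IsUnit (Matrix.of fun i => (ε i : ι → K)) :=
      Matrix.linearIndependent_rows_iff_isUnit.1 h2
    rw [Matrix.isUnit_iff_isUnit_det, h1] at h3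
    exact not_isUnit_zero h3
  obtain ⟨φ, hφ, hle⟩ := Submodule.exists_le_ker_of_lt_top _ (lt_top_iff_ne_top.2 hne)
  have hφ2 : ∀ t : ι → K, φ t = ∑ i, φ (Pi.single i 1) * t i := by
    intro t
    conv_lhs => rw [pi_eq_sum_univ' t]
    rw [map_sum]
    refine Finset.sum_congr rfl fun i _ => ?_
    rw [map_smul, smul_eq_mul, mul_comm]
  refine ⟨fun i => φ (Pi.single i 1), ?_, fun t ht => ?_⟩
  · intro h0
    apply hφ
    ext t
    simp only [LinearMap.comp_apply, LinearMap.zero_apply]
    exact congrFun h0 t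
  · rw [← hφ2 t]
    exact hle (Submodule.subset_span ht)

end Pool.Agent.MVD
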