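import Pool.Agent.MVD.CongDet
import Pool.Agent.MVD.DetHgt
import Pool.Agent.MVD.Lin
import Pool.Agent.AbcF.Defs

/-!
# Module AuxPoly (size 4)

Let `e = B * ((D+1)^m - B^(m-1))`, `I = univ`, `ι = (I → Fin (D+1))`, `N = card ι = (D+1)^m`. Claim: for all `g : ι → Z` the determinant `Δ` of `mon I (g b) a` is 0. If not: for every
`v ∈ Q` by `cong_det` (`V = mk v`, `na_mk`; `θ = exp (-ln v) < 1`, `tc_ln_pos`) `mk v Δ ≤ exp (-ln v)^e`, so `∑_{v ∈ Q} -log (mk v Δ) ≥ e * LN Q`; on the other hand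
`∑_{v ∈ Q} -log (mk v Δ) ≤ ∑_{v ∈ Q} log (max 1 (mk v Δ⁻¹)) ≤ hgt Δ⁻¹ = hgt Δ` (`sum_finite_le` in `H7/Abc/Height.lean`, `hgt_inv`; see the proof of `neg_log_mk_le` in `Hgt.lean`)
`≤ ∑_b ∑_j D * H + d log N!` (`det_hgt`) `= N * (m * D * H) + d log N!`, contradicting `hnum`. `lin` (transpose the matrix) gives `c ≠ 0` with `∑_a c a * mon I z a = 0` for all `z ∈ Z`;
`F = ∑_a monomial (exponents a) (c a)` (compare the end of the proof in `ClassRel.lean`).
-/

namespace Pool.Agent.MVD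

open NumberField IsDedekindDomain Pool.Agent.H7.Abc Pool.Agent.AbcE MvPolynomial

/-- The exponent vector attached to `a`. -/
private noncomputable def AuxPoly_ex {n : ℕ} (I : Finset (Fin n)) {D : ℕ} (a : I → Fin (D + 1)) :
    Fin n →₀ ℕ :=
  Finsupp.equivFunOnFinite.symm (fun j => if h : j ∈ I then (a ⟨j, h⟩ : ℕ) else 0)

private theorem AuxPoly_ex_mem {n : ℕ} (I : Finset (Fin n)) {D : ℕ} (a : I → Fin (D + 1)) {j : Fin n}
    (h : j ∈ I) : AuxPoly_ex I a j = (a ⟨j, h⟩ : ℕ) := by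
  simp [AuxPoly_ex, h]

private theorem AuxPoly_ex_notMem {n : ℕ} (I : Finset (Fin n)) {D : ℕ} (a : I → Fin (D + 1))
    {j : Fin n} (h : j ∉ I) : AuxPoly_ex I a j = 0 := by
  simp [AuxPoly_ex, h]

private theorem AuxPoly_ex_inj {n : ℕ} (I : Finset (Fin n)) {D : ℕ} :
    Function.Injective (AuxPoly_ex I (D := D)) := by
  intro a b hab
  funext j
  apply Fin.ext
  have h := DFunLike.congr_fun hab (j : Fin n)
  rw [AuxPoly_ex_mem I a j.2, AuxPoly_ex_mem I b j.2] at h
  exact h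

private theorem AuxPoly_ex_le {n : ℕ} (I : Finset (Fin n)) {D : ℕ} (a : I → Fin (D + 1))
    (j : Fin n) : AuxPoly_ex I a j ≤ D := by
  by_cases h : j ∈ I
  · rw [AuxPoly_ex_mem I a h]
    exact Nat.lt_succ_iff.mp (a ⟨j, h⟩).2
  · rw [AuxPoly_ex_notMem I a h]
    exact Nat.zero_le _

private theorem AuxPoly_prod {K : Type*} [Field K] {n : ℕ} (I : Finset (Fin n)) {D : ℕ}
    (a : I → Fin (D + 1)) (P : Fin n → K) :
    (AuxPoly_ex I a).prod (fun j e => P j ^ e) = mon I P a := by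
  rw [Finsupp.prod_fintype _ _ (fun j => pow_zero _)]
  have h1 : mon I P a = ∏ j : I, (fun j : Fin n => P j ^ AuxPoly_ex I a j) j := by
    unfold mon
    refine Finset.prod_congr rfl (fun j _ => ?_)
    show P j ^ (a j : ℕ) = P j ^ AuxPoly_ex I a j
    rw [AuxPoly_ex_mem I a j.2]
  rw [h1, Finset.prod_coe_sort I (fun j : Fin n => P j ^ AuxPoly_ex I a j)]
  symm
  refine Finset.prod_subset (Finset.subset_univ I) (fun j _ hj => ?_)
  rw [AuxPoly_ex_notMem I a hj, pow_zero]

/-- The polynomial with the coefficients `c`. -/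
private theorem AuxPoly_poly {K : Type*} [Field K] {n : ℕ} (I : Finset (Fin n)) {D : ℕ}
    (c : (I → Fin (D + 1)) → K) (hc : c ≠ 0) :
    ∃ G : MvPolynomial (Fin n) K, G ≠ 0 ∧ G.vars ⊆ I ∧ (∀ j, G.degreeOf j ≤ D) ∧
      (∀ m, (∃ a, coeff m G = c a) ∨ coeff m G = 0) ∧
      ∀ P : Fin n → K, eval P G = ∑ a, c a * mon I P a := by
  classical
  have hco : ∀ m, coeff m (∑ a, monomial (AuxPoly_ex I a) (c a)) =
      ∑ a, if AuxPoly_ex I a = m then c a else 0 := by
    intro m
    rw [coeff_sum]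
    refine Finset.sum_congr rfl (fun a _ => ?_)
    rw [coeff_monomial]
  have hco1 : ∀ a, coeff (AuxPoly_ex I a) (∑ a, monomial (AuxPoly_ex I a) (c a)) = c a := by
    intro a
    rw [hco, Finset.sum_eq_single a]
    · rw [if_pos rfl]
    · intro b _ hb
      rw [if_neg]
      exact fun h => hb (AuxPoly_ex_inj I h)
    · intro h
      exact absurd (Finset.mem_univ a) h
  have hco2 : ∀ m, (∀ a : I → Fin (D + 1), AuxPoly_ex I a ≠ m) →
      coeff m (∑ a, monomial (AuxPoly_ex I a) (c a)) = 0 := by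
    intro m hm
    rw [hco]
    exact Finset.sum_eq_zero (fun a _ => if_neg (hm a))
  have hsup : ∀ m ∈ (∑ a, monomial (AuxPoly_ex I a) (c a)).support,
      ∃ a : I → Fin (D + 1), AuxPoly_ex I a = m := by
    intro m hm
    by_contra hcon
    push Not at hcon
    rw [mem_support_iff] at hm
    exact hm (hco2 m hcon)
  refine ⟨∑ a, monomial (AuxPoly_ex I a) (c a), ?_, ?_, ?_, ?_, ?_⟩
  · intro h0
    apply hc
    funext a
    have := hco1 a
    rw [h0, coeff_zero] at this
    exact this.symm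
  · intro j hj
    rw [mem_vars_iff_mem_support] at hj
    obtain ⟨m, hm, hjm⟩ := hj
    obtain ⟨a, rfl⟩ := hsup m hm
    by_contra hjI
    rw [Finsupp.mem_support_iff] at hjm
    exact hjm (AuxPoly_ex_notMem I a hjI)
  · intro j
    rw [degreeOf_le_iff]
    intro m hm
    obtain ⟨a, rfl⟩ := hsup m hm
    exact AuxPoly_ex_le I a j
  · intro m
    by_cases h : ∃ a : I → Fin (D + 1), AuxPoly_ex I a = m
    · obtain ⟨a, rfl⟩ := h
      exact Or.inl ⟨a, hco1 a⟩
    · push Not at h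
      exact Or.inr (hco2 m h)
  · intro P
    rw [map_sum]
    refine Finset.sum_congr rfl (fun a _ => ?_)
    rw [eval_monomial, AuxPoly_prod]

/-- The auxiliary polynomial. -/
theorem aux_poly {K : Type*} [Field K] [NumberField K] {m : ℕ} (D B J : ℕ)
    (hJ : B * ((D + 1) ^ m - B ^ (m - 1)) ≤ J) (Q : Finset (HeightOneSpectrum (𝓞 K))) {H : ℝ}
    (n : Fin m → ℤ) (k : Fin m) (hk : ∀ v ∈ Q, FinitePlace.mk v ((n k : ℤ) : K) = 1)
    (hnum : ((D + 1 : ℕ) ^ m : ℝ) * (m * D * H) +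
      Module.finrank ℚ K * Real.log (((D + 1) ^ m).factorial : ℝ) <
        (B * ((D + 1) ^ m - B ^ (m - 1)) : ℕ) * AbcF.LN Q)
    (Z : Set (Fin m → K))
    (hZ : ∀ z ∈ Z, (∀ j, hgt (z j) ≤ H) ∧ ∀ v ∈ Q,
      (∀ j, FinitePlace.mk v (z j - 1) ≤ Real.exp (-ln v)) ∧
        FinitePlace.mk v (∏ j, z j ^ n j - 1) ≤ Real.exp (-ln v) ^ J) :
    ∃ F : MvPolynomial (Fin m) K, F ≠ 0 ∧ (∀ j, F.degreeOf j ≤ D) ∧ ∀ z ∈ Z, eval z F = 0 := by
  classical
  have hcard : Fintype.card (↥(Finset.univ : Finset (Fin m)) → Fin (D + 1)) = (D + 1) ^ m := by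
    rw [Fintype.card_fun, Fintype.card_fin, Fintype.card_coe, Finset.card_univ, Fintype.card_fin]
  -- the determinants vanish
  have hdet : ∀ g : (↥(Finset.univ : Finset (Fin m)) → Fin (D + 1)) → Fin m → K, (∀ b, g b ∈ Z) →
      Matrix.det (Matrix.of fun a b => mon (Finset.univ : Finset (Fin m)) (g b) a) = 0 := by
    intro g hg
    by_contra hne
    have h1 : ∀ v ∈ Q, ((B * ((D + 1) ^ m - B ^ (m - 1)) : ℕ) : ℝ) * ln v ≤
        Real.log (max 1 (FinitePlace.mk v
          (Matrix.det (Matrix.of fun a b => mon (Finset.univ : Finset (Fin m)) (g b) a))⁻¹)) := by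
      intro v hv
      have hln := tc_ln_pos v
      have h2 := cong_det (na_mk v) (Real.exp_nonneg (-ln v))
        (Real.exp_lt_one_iff.mpr (by linarith)) n k (hk v hv) D B J hJ g
        (fun b => (hZ (g b) (hg b)).2 v hv)
      have hpos : 0 < FinitePlace.mk v
          (Matrix.det (Matrix.of fun a b => mon (Finset.univ : Finset (Fin m)) (g b) a)) :=
        FinitePlace.pos_iff.mpr hne
      have h3 := Real.log_le_log hpos h2
      rw [Real.log_pow, Real.log_exp] at h3
      rw [mk_inv]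
      have h4 : Real.log (FinitePlace.mk v
          (Matrix.det (Matrix.of fun a b => mon (Finset.univ : Finset (Fin m)) (g b) a)))⁻¹ ≤
          Real.log (max 1 (FinitePlace.mk v
          (Matrix.det (Matrix.of fun a b => mon (Finset.univ : Finset (Fin m)) (g b) a)))⁻¹) :=
        Real.log_le_log (inv_pos.2 hpos) (le_max_right _ _)
      rw [Real.log_inv] at h4
      linarith
    have h5 := Finset.sum_le_sum h1
    rw [← Finset.mul_sum] at h5
    have h6 := sum_finite_le (inv_ne_zero hne) Q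
    rw [hgt_inv] at h6
    have h7 := det_hgt (Finset.univ : Finset (Fin m)) D g
    rw [hcard] at h7
    have h8 : ∑ b, ∑ j : (Finset.univ : Finset (Fin m)), (D : ℝ) * hgt (g b j) ≤
        ((D + 1 : ℕ) ^ m : ℝ) * (m * D * H) := by
      calc ∑ b, ∑ j : (Finset.univ : Finset (Fin m)), (D : ℝ) * hgt (g b j)
          ≤ ∑ b : (↥(Finset.univ : Finset (Fin m)) → Fin (D + 1)),
              ∑ j : (Finset.univ : Finset (Fin m)), (D : ℝ) * H :=
            Finset.sum_le_sum fun b _ => Finset.sum_le_sum fun j _ =>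
              mul_le_mul_of_nonneg_left ((hZ (g b) (hg b)).1 j) (Nat.cast_nonneg _)
        _ = _ := by
            rw [Finset.sum_const, Finset.sum_const, Finset.card_univ, Finset.card_univ, hcard,
              Fintype.card_coe, Finset.card_univ, Fintype.card_fin]
            simp only [nsmul_eq_mul]
            push_cast
            ring
    have h9 : AbcF.LN Q = ∑ v ∈ Q, ln v := rfl
    rw [h9] at hnum
    linarith
  -- a nonzero vector
  obtain ⟨c, hc, hcT⟩ := lin {t : (↥(Finset.univ : Finset (Fin m)) → Fin (D + 1)) → K |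
      ∃ P ∈ Z, t = fun a => mon (Finset.univ : Finset (Fin m)) P a} (by
    intro g hg
    choose P hPZ hP using hg
    have h1 := hdet P hPZ
    rw [← Matrix.det_transpose] at h1
    rw [← h1]
    congr 1
    ext a b
    simp only [Matrix.of_apply, Matrix.transpose_apply]
    rw [hP a])
  obtain ⟨G, hG0, _, hGd, _, hGe⟩ := AuxPoly_poly (Finset.univ : Finset (Fin m)) c hc
  refine ⟨G, hG0, hGd, fun z hz => ?_⟩
  rw [hGe]
  exact hcT _ ⟨z, hz, rfl⟩

end Pool.Agent.MVD
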