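import Pool.Agent.MVD.TsDefs

/-!
# Module Bal (size 3)

As `balanced` at the end of `AbcF/Balanced.lean` (read it), with the ideals `∏_v v^(c v)` (`Finsupp.prod`) instead of products of distinct primes: `bcnt v (∏_u u^(c u)) = c v` (induction on the support, `bcnt_mul`,
`bcnt_prime`), `|∑ mult log (w z)| = |LD c - LD c'| ≤ 1` by `gap_prod`, `bal_unit`. The class `cl c` is the ideal class of the product. Height: `hgt_eq_arch_add` (AbcE/Roles):
`hgt ξ = arch ξ + sz ξ⁻¹ univ`; `arch ξ = ∑ mult * log (max 1 (w ξ)) ≤ (∑ mult) * C0`, and `sz ξ⁻¹ univ = ∑ᶠ_v (c' v - c v)^+ * ln v ≤ LD c'`. Take `C = C0 * (1 + ∑ mult)`.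
-/

namespace Pool.Agent.MVD

open NumberField IsDedekindDomain Pool.Agent.H7.Abc Pool.Agent.AbcE Pool.Agent.AbcF

open scoped nonZeroDivisors

section aux

variable {K : Type*} [Field K] [NumberField K]

omit [NumberField K] in
private theorem bal_prod_ne (c : HeightOneSpectrum (𝓞 K) → ℕ)
    (X : Finset (HeightOneSpectrum (𝓞 K))) : (∏ u ∈ X, u.asIdeal ^ c u) ≠ 0 :=
  Finset.prod_ne_zero_iff.2 fun u _ => pow_ne_zero _ u.ne_bot

private theorem bal_cnt_pow (v u : HeightOneSpectrum (𝓞 K)) (n : ℕ) :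
    bcnt v (u.asIdeal ^ n) = n * bcnt v u.asIdeal := by
  induction n with
  | zero => rw [pow_zero, bcnt_one, zero_mul]
  | succ n ih =>
    rw [pow_succ, bcnt_mul v (pow_ne_zero _ u.ne_bot) u.ne_bot, ih]
    ring

open Classical in
private theorem bal_cnt_prod (v : HeightOneSpectrum (𝓞 K)) (c : HeightOneSpectrum (𝓞 K) → ℕ)
    (X : Finset (HeightOneSpectrum (𝓞 K))) :
    bcnt v (∏ u ∈ X, u.asIdeal ^ c u) = if v ∈ X then c v else 0 := by
  induction X using Finset.induction_on with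
  | empty =>
    rw [Finset.prod_empty, bcnt_one]
    simp
  | insert u X hu ih =>
    rw [Finset.prod_insert hu, bcnt_mul v (pow_ne_zero _ u.ne_bot) (bal_prod_ne c X), ih,
      bal_cnt_pow, bcnt_prime]
    by_cases h1 : v = u
    · subst h1
      simp [hu]
    · simp [h1]

private theorem bal_cnt (v : HeightOneSpectrum (𝓞 K)) (c : HeightOneSpectrum (𝓞 K) →₀ ℕ) :
    bcnt v (∏ u ∈ c.support, u.asIdeal ^ c u) = c v := by
  classical
  rw [bal_cnt_prod]
  split_ifs with h
  · rfl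
  · exact (Finsupp.notMem_support_iff.1 h).symm

private theorem bal_LD (c : HeightOneSpectrum (𝓞 K) →₀ ℕ)
    (X : Finset (HeightOneSpectrum (𝓞 K))) (hX : c.support ⊆ X) :
    LD c = ∑ v ∈ X, (c v : ℝ) * ln v := by
  unfold LD Finsupp.sum
  refine Finset.sum_subset hX fun v _ hv => ?_
  rw [Finsupp.notMem_support_iff.1 hv]
  simp

end aux

/-- Generators of quotients of effective divisors. -/
theorem balanced_div (K : Type*) [Field K] [NumberField K] :
    ∃ (C : ℝ) (M : ℕ) (cl : (HeightOneSpectrum (𝓞 K) →₀ ℕ) → Fin M), 0 < C ∧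
      ∀ c c' : HeightOneSpectrum (𝓞 K) →₀ ℕ, cl c = cl c' → |LD c - LD c'| ≤ 1 →
        ∃ ξ : K, ξ ≠ 0 ∧ (∀ v, ord v ξ = (c v : ℤ) - (c' v : ℤ)) ∧
          (∀ w : InfinitePlace K, |Real.log (w ξ)| ≤ C) ∧ hgt ξ ≤ LD c' + C := by
  classical
  obtain ⟨C, hC, HU⟩ := bal_unit K
  let E := Fintype.equivFin (ClassGroup (𝓞 K))
  have hmem : ∀ c : HeightOneSpectrum (𝓞 K) →₀ ℕ,
      (∏ u ∈ c.support, u.asIdeal ^ c u) ∈ (Ideal (𝓞 K))⁰ := fun c =>
    mem_nonZeroDivisors_iff_ne_zero.2 (bal_prod_ne c c.support)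
  have hS : 0 ≤ ∑ w : InfinitePlace K, (w.mult : ℝ) :=
    Finset.sum_nonneg fun w _ => Nat.cast_nonneg _
  have hCle : C ≤ C * (1 + ∑ w : InfinitePlace K, (w.mult : ℝ)) := by nlinarith
  refine ⟨C * (1 + ∑ w : InfinitePlace K, (w.mult : ℝ)), _,
    fun c => E (ClassGroup.mk0 ⟨∏ u ∈ c.support, u.asIdeal ^ c u, hmem c⟩), by positivity,
    fun c c' hXY hL => ?_⟩
  obtain ⟨x, y, hx, hy, hxy⟩ := ClassGroup.mk0_eq_mk0_iff.1 (E.injective hXY)
  simp only at hxy
  have hxK : (algebraMap (𝓞 K) K x) ≠ 0 := by simpa using hx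
  have hyK : (algebraMap (𝓞 K) K y) ≠ 0 := by simpa using hy
  have hsx : (Ideal.span {x} : Ideal (𝓞 K)) ≠ 0 := by
    rw [Ideal.zero_eq_bot]
    exact fun h => hx (Ideal.span_singleton_eq_bot.1 h)
  have hsy : (Ideal.span {y} : Ideal (𝓞 K)) ≠ 0 := by
    rw [Ideal.zero_eq_bot]
    exact fun h => hy (Ideal.span_singleton_eq_bot.1 h)
  have hord : ∀ v, ord v (algebraMap (𝓞 K) K y / algebraMap (𝓞 K) K x) =
      (c v : ℤ) - (c' v : ℤ) := by
    intro v
    have h1 := congrArg (bcnt v) hxy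
    rw [bcnt_mul v hsx (bal_prod_ne c c.support), bcnt_mul v hsy (bal_prod_ne c' c'.support),
      bal_cnt, bal_cnt] at h1
    rw [ord_div v hyK hxK, SelmerAux.ord_int v hx, SelmerAux.ord_int v hy]
    unfold bcnt at h1
    have h2 := congrArg (fun n : ℕ => (n : ℤ)) h1
    push_cast at h2
    linarith
  set z : K := algebraMap (𝓞 K) K y / algebraMap (𝓞 K) K x with hz
  have hz0 : z ≠ 0 := div_ne_zero hyK hxK
  -- the archimedean size
  have hmk : ∀ v, FinitePlace.mk v z ≠ 1 → v ∈ c.support ∪ c'.support := by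
    intro v hv
    by_contra hn
    rw [Finset.mem_union, not_or] at hn
    apply hv
    rw [← ord_eq_zero_iff v hz0, hord v, Finsupp.notMem_support_iff.1 hn.1,
      Finsupp.notMem_support_iff.1 hn.2, sub_self]
  have h1 := gap_prod hz0 (c.support ∪ c'.support) hmk
  have h2 : ∑ v ∈ c.support ∪ c'.support, Real.log (FinitePlace.mk v z) = -(LD c - LD c') := by
    rw [bal_LD c _ Finset.subset_union_left, bal_LD c' _ Finset.subset_union_right,
      ← Finset.sum_sub_distrib, ← Finset.sum_neg_distrib]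
    refine Finset.sum_congr rfl fun v _ => ?_
    rw [log_mk v hz0, hord v]
    unfold ln
    push_cast
    ring
  rw [h2] at h1
  have h6 : |∑ w : InfinitePlace K, (w.mult : ℝ) * Real.log (w z)| ≤ 1 := by
    have : ∑ w : InfinitePlace K, (w.mult : ℝ) * Real.log (w z) = LD c - LD c' := by linarith
    rw [this]
    exact hL
  obtain ⟨u, hu⟩ := HU z hz0 h6
  have hu0 : (algebraMap (𝓞 K) K (u : 𝓞 K)) ≠ 0 := by
    simp
  have hξ0 : z * algebraMap (𝓞 K) K (u : 𝓞 K) ≠ 0 := mul_ne_zero hz0 hu0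
  have hordξ : ∀ v, ord v (z * algebraMap (𝓞 K) K (u : 𝓞 K)) = (c v : ℤ) - (c' v : ℤ) := by
    intro v
    have hou : ord v (algebraMap (𝓞 K) K (u : 𝓞 K)) = 0 := by
      rw [SelmerAux.ord_int v u.ne_zero]
      have h7 : (Ideal.span {(u : 𝓞 K)} : Ideal (𝓞 K)) = 1 := by
        rw [Ideal.one_eq_top]
        exact Ideal.span_singleton_eq_top.2 u.isUnit
      rw [h7]
      have h8 := bcnt_one v
      unfold bcnt at h8
      rw [h8]
      rfl
    rw [SelmerAux.ord_mul v hz0 hu0, hou, add_zero, hord v]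
  refine ⟨z * algebraMap (𝓞 K) K (u : 𝓞 K), hξ0, hordξ, fun w => (hu w).trans hCle, ?_⟩
  rw [hgt_eq_arch_add hξ0]
  have hA : arch (z * algebraMap (𝓞 K) K (u : 𝓞 K)) ≤
      C * ∑ w : InfinitePlace K, (w.mult : ℝ) := by
    unfold arch
    rw [Finset.mul_sum]
    refine Finset.sum_le_sum fun w _ => ?_
    rw [mul_comm C]
    refine mul_le_mul_of_nonneg_left ?_ (Nat.cast_nonneg _)
    rcases le_total 1 (w (z * algebraMap (𝓞 K) K (u : 𝓞 K))) with h | h
    · rw [max_eq_right h]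
      exact (le_abs_self _).trans (hu w)
    · rw [max_eq_left h, Real.log_one]
      exact hC.le
  have hinv : ∀ v, ord v (z * algebraMap (𝓞 K) K (u : 𝓞 K))⁻¹ = -((c v : ℤ) - (c' v : ℤ)) := by
    intro v
    have h := ord_div v (one_ne_zero (α := K)) hξ0
    rw [one_div] at h
    have h1 : ord v (1 : K) = 0 := by
      unfold ord
      rw [map_one, WithZero.log_one, neg_zero]
    rw [h, hordξ v, h1, zero_sub]
  have hZ : sz (z * algebraMap (𝓞 K) K (u : 𝓞 K))⁻¹ Set.univ ≤ LD c' := by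
    rw [bal_LD c' _ (Finset.subset_union_right (s₁ := c.support))]
    unfold sz
    rw [finsum_eq_sum_of_support_subset (s := c.support ∪ c'.support)]
    · refine Finset.sum_le_sum fun v _ => ?_
      rw [hinv v]
      have hl := tc_ln_pos v
      split_ifs with h
      · refine mul_le_mul_of_nonneg_right ?_ hl.le
        push_cast
        have : (0 : ℝ) ≤ c v := Nat.cast_nonneg _
        linarith
      · positivity
    · intro v hv
      rw [Function.mem_support] at hv
      by_contra hn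
      rw [Finset.mem_coe, Finset.mem_union, not_or] at hn
      apply hv
      rw [if_neg]
      rintro ⟨h, -⟩
      rw [hinv v, Finsupp.notMem_support_iff.1 hn.1,
        Finsupp.notMem_support_iff.1 hn.2] at h
      simp at h
  nlinarith

end Pool.Agent.MVD
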