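import Pool.Agent.MVD.Bal

/-!
# Module BalCls (size 3)

`C0, M, cl` from `balanced_div`. For `y` consider `κ y = (fun i => cl (dv y i), fun i => ⌊LD (dv y i)⌋₊)`: it takes at most `M ^ card ι * (C1 L + 1)^card ι` values (`LD ≥ 0`), which is at most
`Cp exp (ε L)` (`tc_poly_le_exp` in AbcE/ToolCount with the variable `C1 L`... e.g. `(2 (C1 L) + 2)^k`, or `tc_poly_le_exp k a` for `D = (C1 + 1) L / 2`; any polynomial bound). On a fibre `P'` choose `y1 ∈ P'` (the empty fibre is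
trivial); for `y ∈ P'` the divisors have the same class and `|LD - LD| ≤ 1`, so `balanced_div` gives `ξ y i` (`choose`), `hgt ≤ LD (dv y1 i) + C0 ≤ C1 L + C0`. Apply the hypothesis.
-/

namespace Pool.Agent.MVD

open NumberField IsDedekindDomain Pool.Agent.H7.Abc Pool.Agent.AbcE Pool.Agent.AbcF

/-- Partition into classes on which generators exist. -/
theorem bal_cls (K : Type*) [Field K] [NumberField K] (ι : Type) [Fintype ι] :
    ∃ C0 : ℝ, 0 < C0 ∧ ∀ C1 ε : ℝ, 0 ≤ C1 → 0 < ε → ∃ Cp : ℝ, 0 < Cp ∧ ∀ L : ℝ, 1 ≤ L →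
      ∀ (P : Finset K) (dv : K → ι → (HeightOneSpectrum (𝓞 K) →₀ ℕ)),
      (∀ y ∈ P, ∀ i, LD (dv y i) ≤ C1 * L) → ∀ A : ℝ, 0 ≤ A →
      (∀ P' ⊆ P, ∀ y1 ∈ P', ∀ ξ : K → ι → K,
        (∀ y ∈ P', ∀ i, ξ y i ≠ 0 ∧ (∀ v, ord v (ξ y i) = (dv y i v : ℤ) - (dv y1 i v : ℤ)) ∧
          (∀ w : InfinitePlace K, |Real.log (w (ξ y i))| ≤ C0) ∧ hgt (ξ y i) ≤ C1 * L + C0) →
        (P'.card : ℝ) ≤ A) →
      (P.card : ℝ) ≤ Cp * Real.exp (ε * L) * A := by
  classical
  obtain ⟨C0, M, cl, hC0, H⟩ := balanced_div K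
  refine ⟨C0, hC0, fun C1 ε hC1 hε => ?_⟩
  obtain ⟨Cq, hCq, hq⟩ := tc_poly_le_exp (Fintype.card ι) 2 (by norm_num)
    (show 0 < 2 * ε / (C1 + 1) by positivity)
  refine ⟨((M : ℝ) + 1) ^ Fintype.card ι * Cq, by positivity, ?_⟩
  intro L hL P dv hdv A hA hcls
  have hLD0 : ∀ c : HeightOneSpectrum (𝓞 K) →₀ ℕ, 0 ≤ LD c := fun c => by
    unfold LD
    exact Finset.sum_nonneg fun v _ => mul_nonneg (Nat.cast_nonneg _) (tc_ln_pos v).le
  obtain ⟨κ, hκ⟩ : ∃ κ : K → ι → Fin M × ℕ, ∀ y i, κ y i = (cl (dv y i), ⌊LD (dv y i)⌋₊) :=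
    ⟨_, fun _ _ => rfl⟩
  set T : Finset (ι → Fin M × ℕ) := Fintype.piFinset fun _ =>
    (Finset.univ : Finset (Fin M)) ×ˢ Finset.range (⌊C1 * L⌋₊ + 1) with hT
  have hmap : ∀ y ∈ P, κ y ∈ T := by
    intro y hy
    rw [hT, Fintype.mem_piFinset]
    intro i
    rw [Finset.mem_product, hκ]
    refine ⟨Finset.mem_univ _, Finset.mem_range.2 ?_⟩
    exact Nat.lt_succ_of_le (Nat.floor_le_floor (hdv y hy i))
  have hcardT : (T.card : ℝ) ≤ ((M : ℝ) + 1) ^ Fintype.card ι * (Cq * Real.exp (ε * L)) := by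
    rw [hT, Fintype.card_piFinset, Finset.prod_const, Finset.card_univ, Finset.card_product, Finset.card_univ, Fintype.card_fin,
      Finset.card_range]
    push_cast
    rw [mul_pow]
    have hCL : 0 ≤ C1 * L := by positivity
    have h1 : ((⌊C1 * L⌋₊ : ℝ) + 1) ≤ 2 * (C1 * L / 2) + 2 := by
      have := Nat.floor_le hCL
      linarith
    have h2 : ((⌊C1 * L⌋₊ : ℝ) + 1) ^ Fintype.card ι ≤ Cq * Real.exp (ε * L) := by
      refine (pow_le_pow_left₀ (by positivity) h1 _).trans ((hq (C1 * L / 2) (by positivity)).trans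
        ?_)
      refine mul_le_mul_of_nonneg_left (Real.exp_le_exp.2 ?_) hCq.le
      have e1 : 2 * ε / (C1 + 1) * (C1 * L / 2) = ε * L * (C1 / (C1 + 1)) := by
        field_simp
      rw [e1]
      have h3 : C1 / (C1 + 1) ≤ 1 := by
        rw [div_le_one (by positivity)]
        linarith
      have h4 : 0 ≤ ε * L := by positivity
      nlinarith
    have h5 : ((M : ℝ)) ^ Fintype.card ι ≤ ((M : ℝ) + 1) ^ Fintype.card ι :=
      pow_le_pow_left₀ (Nat.cast_nonneg _) (by linarith) _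
    exact mul_le_mul h5 h2 (by positivity) (by positivity)
  have hfib : ∀ b ∈ T, (((P.filter fun y => κ y = b).card : ℕ) : ℝ) ≤ A := by
    intro b _
    rcases (P.filter fun y => κ y = b).eq_empty_or_nonempty with he | ⟨y1, hy1⟩
    · rw [he, Finset.card_empty, Nat.cast_zero]
      exact hA
    · have hex : ∀ y i, ∃ z : K, y ∈ P.filter (fun y => κ y = b) → z ≠ 0 ∧
          (∀ v, ord v z = (dv y i v : ℤ) - (dv y1 i v : ℤ)) ∧
          (∀ w : InfinitePlace K, |Real.log (w z)| ≤ C0) ∧ hgt z ≤ C1 * L + C0 := by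
        intro y i
        by_cases hy : y ∈ P.filter (fun y => κ y = b)
        · have e1 : κ y i = κ y1 i := by
            rw [(Finset.mem_filter.1 hy).2, (Finset.mem_filter.1 hy1).2]
          rw [hκ, hκ, Prod.mk.injEq] at e1
          have h1 : |LD (dv y i) - LD (dv y1 i)| ≤ 1 := by
            have f1 := Nat.floor_le (hLD0 (dv y i))
            have f2 := Nat.lt_floor_add_one (LD (dv y i))
            have f3 := Nat.floor_le (hLD0 (dv y1 i))
            have f4 := Nat.lt_floor_add_one (LD (dv y1 i))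
            rw [e1.2] at f1 f2
            rw [abs_le]
            constructor <;> linarith
          obtain ⟨z, z1, z2, z3, z4⟩ := H (dv y i) (dv y1 i) e1.1 h1
          refine ⟨z, fun _ => ⟨z1, z2, z3, z4.trans ?_⟩⟩
          have := hdv y1 (Finset.mem_filter.1 hy1).1 i
          linarith
        · exact ⟨0, fun h => absurd h hy⟩
      choose ξ hξ using hex
      exact hcls _ (Finset.filter_subset _ _) y1 hy1 ξ fun y hy i => hξ y i hy
  have hsum := Finset.card_eq_sum_card_fiberwise (f := κ) (s := P) (t := T) (by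
    intro y hy
    exact hmap y hy)
  calc (P.card : ℝ) = ∑ b ∈ T, (((P.filter fun y => κ y = b).card : ℕ) : ℝ) := by
        rw [hsum]
        push_cast
        rfl
    _ ≤ ∑ b ∈ T, A := Finset.sum_le_sum hfib
    _ = T.card * A := by rw [Finset.sum_const, nsmul_eq_mul]
    _ ≤ (((M : ℝ) + 1) ^ Fintype.card ι * (Cq * Real.exp (ε * L))) * A :=
        mul_le_mul_of_nonneg_right hcardT hA
    _ = _ := by ring

end Pool.Agent.MVD
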