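import Pool.Agent.MVD.Hgt

/-!
# Module CH (size 5)

(Cramer with heights.) Let `W = span S ≠ ⊤` (it is in the kernel of the nonzero functional `c`). Choose a basis of `W` inside `S`: linearly
independent `z_1, …, z_r ∈ S`, `r < card ι` (`exists_linearIndependent`). The `r × ι` matrix has row rank `r`, so there are `r` columns
`J ⊂ ι` with `M = (z_a i)_(a, i ∈ J)` invertible (`Matrix.rank`, transposed `exists_linearIndependent`; or choose `J` maximal with linearly independent
columns). Pick `i0 ∉ J` (exists since `r < card ι`). Put `c i0 = 1`, `c i = 0` outside `J ∪ {i0}` and `(c i)_{i∈J} = - M⁻¹ (z_a i0)_a`; by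
Cramer's rule `c i` is a quotient of two `r × r` determinants with entries of height at most `B`; the height of such a determinant is at most
`N! * (N * B) + d log (N!)` (`hgt_sum`, `hgt_prod`, `hgt_neg'`, crude). So `hgt (c i) ≤ A B`. `c` is orthogonal to `z_1..z_r`, hence to `W`, hence to `S`.
`c ≠ 0` as `c i0 = 1`. The numbers `r ≤ N` take finitely many values; `A` depends on `N` and `K` only.
-/

namespace Pool.Agent.MVD

open NumberField IsDedekindDomain Pool.Agent.H7.Abc Pool.Agent.AbcE MvPolynomial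

private theorem CH_hgt_nonneg {K : Type*} [Field K] [NumberField K] (x : K) : 0 ≤ hgt x := by
  have h := hgt_add x (-x)
  have h1 := hgt_mul x 0
  have h2 := hgt_neg' x
  have h3 : hgt (0 : K) = 0 := hgt_zero
  simp only [mul_zero] at h1
  linarith

private theorem CH_det_hgt {K : Type*} [Field K] [NumberField K] {r : ℕ}
    (M : Matrix (Fin r) (Fin r) K) {B : ℝ} (hM : ∀ a b, hgt (M a b) ≤ B) :
    hgt M.det ≤ (r.factorial : ℝ) * (r * B) + Module.finrank ℚ K * Real.log (r.factorial) := by
  rw [Matrix.det_apply]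
  refine (hgt_sum _ _).trans ?_
  have hc : (Finset.univ : Finset (Equiv.Perm (Fin r))).card = r.factorial := by
    rw [Finset.card_univ, Fintype.card_perm, Fintype.card_fin]
  have h1 : ∀ σ : Equiv.Perm (Fin r),
      hgt (Equiv.Perm.sign σ • ∏ i, M (σ i) i) ≤ r * B := by
    intro σ
    have h2 : hgt (Equiv.Perm.sign σ • ∏ i, M (σ i) i) = hgt (∏ i, M (σ i) i) := by
      rcases Int.units_eq_one_or (Equiv.Perm.sign σ) with h | h
      · rw [h, one_smul]
      · rw [h, Units.neg_smul, one_smul, hgt_neg']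
    rw [h2]
    refine (hgt_prod _ _).trans ?_
    refine (Finset.sum_le_sum fun i _ => hM (σ i) i).trans ?_
    simp
  have h3 : ∑ σ : Equiv.Perm (Fin r), hgt (Equiv.Perm.sign σ • ∏ i, M (σ i) i)
      ≤ (r.factorial : ℝ) * (r * B) := by
    refine (Finset.sum_le_sum fun σ _ => h1 σ).trans ?_
    rw [Finset.sum_const, hc, nsmul_eq_mul]
  have h4 : ((max 1 (Finset.univ : Finset (Equiv.Perm (Fin r))).card : ℕ) : ℝ) = r.factorial := by
    rw [hc, max_eq_right (Nat.factorial_pos r)]
  have h5 : Real.log (max 1 ((Finset.univ : Finset (Equiv.Perm (Fin r))).card : ℝ))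
      = Real.log (r.factorial) := by
    rw [← h4]; push_cast; rfl
  rw [h5]
  linarith

/-- A system of homogeneous linear equations with a nonzero solution has one of bounded height. -/
theorem ch (K : Type*) [Field K] [NumberField K] (N : ℕ) : ∃ A : ℝ, 1 ≤ A ∧
    ∀ (ι : Type) [Fintype ι], Fintype.card ι ≤ N → ∀ (S : Finset (ι → K)) (B : ℝ), 1 ≤ B →
      (∀ z ∈ S, ∀ i, hgt (z i) ≤ B) → (∃ c : ι → K, c ≠ 0 ∧ ∀ z ∈ S, ∑ i, c i * z i = 0) →
      ∃ c : ι → K, c ≠ 0 ∧ (∀ i, hgt (c i) ≤ A * B) ∧ ∀ z ∈ S, ∑ i, c i * z i = 0 := by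
  classical
  set d : ℝ := (Module.finrank ℚ K : ℝ) with hd
  have hd0 : 0 ≤ d := by positivity
  have hlog0 : 0 ≤ Real.log (N.factorial : ℝ) :=
    Real.log_nonneg (by exact_mod_cast Nat.factorial_pos N)
  have hlog1 : 0 ≤ Real.log ((N : ℝ) + 1) := Real.log_nonneg (by
    have : (0 : ℝ) ≤ N := Nat.cast_nonneg N
    linarith)
  set H : ℝ := (N.factorial : ℝ) * N + d * Real.log (N.factorial) with hH
  have hH0 : 0 ≤ H := by positivity
  refine ⟨1 + ((N : ℝ) + 1) * H + d * Real.log ((N : ℝ) + 1), ?_, ?_⟩
  · have : 0 ≤ ((N : ℝ) + 1) * H := by positivity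
    have h2 : 0 ≤ d * Real.log ((N : ℝ) + 1) := by positivity
    linarith
  intro ι _ hι S B hB hS hc
  obtain ⟨c0, hc0, hc0S⟩ := hc
  -- nonvanishing minors
  let P : ℕ → Prop := fun r => ∃ (e : Fin r → ι) (z : Fin r → ι → K), (∀ a, z a ∈ S) ∧
    Matrix.det (Matrix.of fun a b => z a (e b)) ≠ 0
  have hinj : ∀ {r : ℕ} (e : Fin r → ι) (z : Fin r → ι → K),
      Matrix.det (Matrix.of fun a b => z a (e b)) ≠ 0 → Function.Injective e := by
    intro r e z h a b hab
    by_contra hne
    apply h
    refine Matrix.det_zero_of_column_eq hne ?_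
    intro k
    simp [hab]
  have hP0 : P 0 := ⟨Fin.elim0, Fin.elim0, fun a => a.elim0, by simp⟩
  have hbd : ∀ r, P r → r ≤ Fintype.card ι := by
    rintro r ⟨e, z, -, h⟩
    simpa using Fintype.card_le_of_injective e (hinj e z h)
  obtain ⟨r, hr, hr1⟩ : ∃ r, P r ∧ ¬ P (r + 1) := by
    by_contra hcon
    push Not at hcon
    have : ∀ r, P r := fun r => by
      induction r with
      | zero => exact hP0
      | succ r ih => exact hcon r ih
    have := hbd _ (this (Fintype.card ι + 1))
    omega
  have hrN : r ≤ N := (hbd r hr).trans hι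
  obtain ⟨e, z, hz, hdet⟩ := hr
  have he := hinj e z hdet
  obtain ⟨i0, hi0⟩ : ∃ i0, ∀ b, e b ≠ i0 := by
    by_contra hcon
    push Not at hcon
    apply hc0
    have hbij : Function.Bijective e := ⟨he, hcon⟩
    have hmv : Matrix.mulVec (Matrix.of fun a b => z a (e b)) (fun b => c0 (e b)) = 0 := by
      funext a
      have h := hc0S (z a) (hz a)
      rw [← hbij.sum_comp (fun i => c0 i * z a i)] at h
      simp only [Matrix.mulVec, dotProduct, Matrix.of_apply, Pi.zero_apply]
      rw [← h]
      exact Finset.sum_congr rfl fun b _ => mul_comm _ _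
    have h0 := Matrix.eq_zero_of_mulVec_eq_zero hdet hmv
    funext i
    obtain ⟨b, rfl⟩ := hcon i
    exact congrFun h0 b
  let col : Fin (r + 1) → ι := Fin.cons i0 e
  let mi : Fin (r + 1) → K := fun j =>
    Matrix.det (Matrix.of fun a b : Fin r => z a (col (j.succAbove b)))
  let c : ι → K := fun i => ∑ j : Fin (r + 1), if col j = i then (-1) ^ (j : ℕ) * mi j else 0
  have hmi : ∀ j, hgt (mi j) ≤ H * B := by
    intro j
    have h1 := CH_det_hgt (Matrix.of fun a b : Fin r => z a (col (j.succAbove b))) (B := B)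
      (fun a b => hS _ (hz a) _)
    refine h1.trans ?_
    have h2 : (r.factorial : ℝ) ≤ N.factorial := by exact_mod_cast Nat.factorial_le hrN
    have h3 : (r : ℝ) ≤ N := by exact_mod_cast hrN
    have h4 : Real.log (r.factorial : ℝ) ≤ Real.log (N.factorial : ℝ) :=
      Real.log_le_log (by exact_mod_cast Nat.factorial_pos r) h2
    have h5 : (r.factorial : ℝ) * (r * B) ≤ (N.factorial : ℝ) * (N * B) := by
      gcongr
    have h6 : d * Real.log (r.factorial : ℝ) ≤ d * Real.log (N.factorial : ℝ) * B := by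
      have h7 : d * Real.log (r.factorial : ℝ) ≤ d * Real.log (N.factorial : ℝ) := by gcongr
      have h8 : 0 ≤ d * Real.log (N.factorial : ℝ) := by positivity
      nlinarith
    rw [hH]
    nlinarith
  refine ⟨c, ?_, ?_, ?_⟩
  · intro h0
    apply hdet
    have h1 : c i0 = mi 0 := by
      simp only [c]
      rw [Fin.sum_univ_succ]
      simp [col, hi0]
    rw [h0] at h1
    simp only [mi, Pi.zero_apply, Fin.zero_succAbove, col, Fin.cons_succ] at h1
    exact h1.symm
  · intro i
    simp only [c]
    refine (hgt_sum _ _).trans ?_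
    have h1 : ∀ j : Fin (r + 1), hgt (if col j = i then (-1) ^ (j : ℕ) * mi j else 0) ≤ H * B := by
      intro j
      split_ifs
      · rcases neg_one_pow_eq_or K (j : ℕ) with h | h
        · rw [h, one_mul]; exact hmi j
        · rw [h, neg_one_mul, hgt_neg']; exact hmi j
      · rw [hgt_zero]; positivity
    have h2 : ∑ j : Fin (r + 1), hgt (if col j = i then (-1) ^ (j : ℕ) * mi j else 0)
        ≤ ((r : ℝ) + 1) * (H * B) := by
      refine (Finset.sum_le_sum fun j _ => h1 j).trans ?_
      simp
    have h3 : ((r : ℝ) + 1) ≤ N + 1 := by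
      have : (r : ℝ) ≤ N := by exact_mod_cast hrN
      linarith
    have h4 : Real.log (max 1 ((Finset.univ : Finset (Fin (r + 1))).card : ℝ)) ≤
        Real.log ((N : ℝ) + 1) := by
      refine Real.log_le_log (by positivity) ?_
      have : (0 : ℝ) ≤ N := Nat.cast_nonneg N
      simp only [Finset.card_univ, Fintype.card_fin, Nat.cast_add, Nat.cast_one]
      refine max_le (by linarith) h3
    have h5 : ((r : ℝ) + 1) * (H * B) ≤ ((N : ℝ) + 1) * (H * B) := by
      gcongr
    have h6 : d * Real.log (max 1 ((Finset.univ : Finset (Fin (r + 1))).card : ℝ)) ≤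
        d * Real.log ((N : ℝ) + 1) * B := by
      have h7 : d * Real.log (max 1 ((Finset.univ : Finset (Fin (r + 1))).card : ℝ)) ≤
        d * Real.log ((N : ℝ) + 1) := by gcongr
      have h8 : 0 ≤ d * Real.log ((N : ℝ) + 1) := by positivity
      nlinarith
    have h9 : (0 : ℝ) ≤ B := by linarith
    nlinarith
  · intro w hw
    have h0 : Matrix.det (Matrix.of fun a b : Fin (r + 1) =>
        (Fin.cons w z : Fin (r + 1) → ι → K) a (col b)) = 0 := by
      by_contra hne
      refine hr1 ⟨col, Fin.cons w z, ?_, hne⟩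
      intro a
      refine Fin.cases ?_ (fun a => ?_) a
      · simpa using hw
      · simpa using hz a
    rw [Matrix.det_succ_row_zero] at h0
    rw [← h0]
    simp only [c, Finset.sum_mul]
    rw [Finset.sum_comm]
    refine Finset.sum_congr rfl fun j _ => ?_
    rw [Finset.sum_eq_single (col j)]
    · simp only [if_true, Matrix.of_apply, Fin.cons_zero, mi]
      have : (Matrix.of fun a b : Fin r => z a (col (j.succAbove b))) =
          (Matrix.of fun a b : Fin (r + 1) =>
            (Fin.cons w z : Fin (r + 1) → ι → K) a (col b)).submatrix Fin.succ j.succAbove := by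
        ext a b
        simp
      rw [this]
      ring
    · intro i _ hi
      rw [if_neg (Ne.symm hi), zero_mul]
    · intro h
      exact absurd (Finset.mem_univ _) h

end Pool.Agent.MVD
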