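import Pool.Agent.MVD.TsDiv

/-!
# Module DecDefs (size 2)

`dec_sum`: `Fintype.sum_sum_type`. `dec_dvi`: from `dvi_sum`, `LD_dvi_le`. `dec_zero`: all terms vanish (`Finset.sum_const_zero`; `LD 0 = 0`). `dec_vanish`: at a place with `ord v x ≤ 0` the sum is 0, all terms are natural numbers and `1 ≤ p i`. `dec_bound`: let
`p' i = if D i = 0 then 1 else p i`. If `D i ≠ 0` choose `v` with `D i v ≠ 0`: `p i * log 2 ≤ p i * D i v * ln v ≤ ∑_v (dpart z univ v) * ln v = sz z univ ≤ hgt z` (`two_le_norm`/`log_norm_pos`, `LD_dpart`, `sz_univ_le_hgt`).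
-/

namespace Pool.Agent.MVD

open NumberField IsDedekindDomain Pool.Agent.H7.Abc Pool.Agent.AbcE Pool.Agent.AbcF

variable {K : Type*} [Field K] [NumberField K]

/-- The part of the zero divisor of `x` with exponents in `A` is the combination of the divisors
`D i` with the exponents `p i`, and the sizes of the `D i` are at most `X`. -/
def DecOK (x : K) (A : Set ℕ) {ι : Type} [Fintype ι] (p : ι → ℕ)
    (D : ι → (HeightOneSpectrum (𝓞 K) →₀ ℕ)) (X : ℝ) : Prop :=
  (∀ i, LD (D i) ≤ X) ∧ ∀ v, ∑ i, p i * D i v = dpart x A v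

/-- The zero divisor of `x` is a combination with the exponents `p i` of divisors of size at
most `X`. -/
def Dec (x : K) {ι : Type} [Fintype ι] (p : ι → ℕ) (X : ℝ) : Prop :=
  ∃ D : ι → (HeightOneSpectrum (𝓞 K) →₀ ℕ), DecOK x Set.univ p D X

private theorem DecDefs_LD_zero : LD (0 : HeightOneSpectrum (𝓞 K) →₀ ℕ) = 0 := by
  unfold LD
  exact Finsupp.sum_zero_index

theorem dec_inl {x : K} {A : Set ℕ} {ι κ : Type} [Fintype ι] [Fintype κ] {p : ι → ℕ}
    {D : ι → (HeightOneSpectrum (𝓞 K) →₀ ℕ)} {X : ℝ} (hX : 0 ≤ X) (h : DecOK x A p D X)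
    (q : κ → ℕ) : DecOK x A (Sum.elim p q) (Sum.elim D fun _ => 0) X := by
  refine ⟨?_, ?_⟩
  · rintro (i | i)
    · exact h.1 i
    · simp only [Sum.elim_inr]
      rw [DecDefs_LD_zero]
      exact hX
  · intro v
    rw [← h.2 v, Fintype.sum_sum_type]
    simp

theorem dec_inr {x : K} {A : Set ℕ} {ι κ : Type} [Fintype ι] [Fintype κ] {p : ι → ℕ}
    {D : ι → (HeightOneSpectrum (𝓞 K) →₀ ℕ)} {X : ℝ} (hX : 0 ≤ X) (h : DecOK x A p D X)
    (q : κ → ℕ) : DecOK x A (Sum.elim q p) (Sum.elim (fun _ => 0) D) X := by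
  refine ⟨?_, ?_⟩
  · rintro (i | i)
    · simp only [Sum.elim_inl]
      rw [DecDefs_LD_zero]
      exact hX
    · exact h.1 i
  · intro v
    rw [← h.2 v, Fintype.sum_sum_type]
    simp

theorem dec_dvi {x : K} (hx : x ≠ 0) {A : Set ℕ} {m : ℕ} {ex : Fin m → ℕ} {E : ℕ} {X : ℝ}
    (h : ExOK A ex E) (hs : SzOK x A ex X) : DecOK x A (wi ex) (dvi x A ex) X :=
  ⟨fun i => LD_dvi_le hx hs i, fun v => dvi_sum hx h v⟩

theorem dec_vanish {x : K} (hx : x ≠ 0) {A : Set ℕ} {ι : Type} [Fintype ι] {p : ι → ℕ}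
    {D : ι → (HeightOneSpectrum (𝓞 K) →₀ ℕ)} {X : ℝ} (h : DecOK x A p D X) (hp : ∀ i, 1 ≤ p i)
    {v : HeightOneSpectrum (𝓞 K)} (hv : ord v x ≤ 0) (i : ι) : D i v = 0 := by
  classical
  have h1 := h.2 v
  rw [dpart_apply hx, if_neg (fun h' => absurd h'.1 (by omega)), Finset.sum_eq_zero_iff] at h1
  have h2 := h1 i (Finset.mem_univ i)
  rcases Nat.mul_eq_zero.1 h2 with h3 | h3
  · have := hp i
    omega
  · exact h3

theorem dec_bound {x : K} (hx : x ≠ 0) {ι : Type} [Fintype ι] {p : ι → ℕ} {X : ℝ}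
    (h : Dec x p X) (hp : ∀ i, 1 ≤ p i) :
    ∃ p' : ι → ℕ, (∀ i, 1 ≤ p' i ∧ (p' i : ℝ) ≤ 1 + hgt x / Real.log 2) ∧ Dec x p' X := by
  classical
  obtain ⟨D, hD⟩ := h
  have hl2 : 0 < Real.log 2 := Real.log_pos (by norm_num)
  have hh : 0 ≤ hgt x := hgt_nonneg x
  refine ⟨fun i => if D i = 0 then 1 else p i, ?_, D, hD.1, ?_⟩
  · intro i
    by_cases hi : D i = 0
    · simp only [if_pos hi, le_refl, true_and, Nat.cast_one]
      have : 0 ≤ hgt x / Real.log 2 := div_nonneg hh hl2.le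
      linarith
    · simp only [if_neg hi]
      refine ⟨hp i, ?_⟩
      obtain ⟨v, hv⟩ : ∃ v, D i v ≠ 0 := by
        by_contra hc
        push Not at hc
        exact hi (Finsupp.ext hc)
      have hln : Real.log 2 ≤ ln v := Real.log_le_log (by norm_num) (two_le_norm v)
      have hln0 : 0 < ln v := lt_of_lt_of_le hl2 hln
      have h1 : p i * D i v ≤ dpart x Set.univ v := by
        rw [← hD.2 v]
        exact Finset.single_le_sum (f := fun i => p i * D i v) (fun _ _ => Nat.zero_le _)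
          (Finset.mem_univ i)
      have h2 : p i ≤ dpart x Set.univ v :=
        le_trans (Nat.le_mul_of_pos_right _ (Nat.pos_of_ne_zero hv)) h1
      have h3 : (dpart x Set.univ v : ℝ) * ln v ≤ LD (dpart x Set.univ) := by
        unfold LD
        by_cases hs : v ∈ (dpart x Set.univ).support
        · exact Finset.single_le_sum
            (f := fun v => ((dpart x Set.univ v : ℕ) : ℝ) * ln v)
            (fun w _ => mul_nonneg (Nat.cast_nonneg _) (log_norm_pos w).le) hs
        · rw [Finsupp.notMem_support_iff.1 hs, Nat.cast_zero, zero_mul]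
          exact Finset.sum_nonneg fun w _ =>
            mul_nonneg (Nat.cast_nonneg _) (log_norm_pos w).le
      rw [LD_dpart hx] at h3
      have h4 := sz_univ_le_hgt hx
      have h5 : (p i : ℝ) ≤ (dpart x Set.univ v : ℝ) := by exact_mod_cast h2
      have h6 : (p i : ℝ) * Real.log 2 ≤ hgt x := by
        calc (p i : ℝ) * Real.log 2 ≤ (dpart x Set.univ v : ℝ) * ln v :=
              mul_le_mul h5 hln hl2.le (Nat.cast_nonneg _)
          _ ≤ hgt x := h3.trans h4
      have h7 : (p i : ℝ) ≤ hgt x / Real.log 2 := (le_div_iff₀ hl2).2 h6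
      linarith
  · intro v
    rw [← hD.2 v]
    refine Finset.sum_congr rfl fun i _ => ?_
    by_cases hi : D i = 0
    · rw [hi]
      simp
    · simp only [if_neg hi]

end Pool.Agent.MVD
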