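import Pool.Agent.MVD.TsDiv

/-!
# Module TsPart (size 3)

`ord_diff`: with `a = ord v y`: `kf T y v = a - dpart y F0 v + dpart y⁻¹ F1 v` (`tc_ord_inv`; cases; see `key` in `unit_part`, AbcF/Parts.lean), the same for `y1`, subtract.
`ord_diff1`: `ord v (y-1) = jf T y v + dpart (y-1) G v - dpart y⁻¹ F1 v - max 0 (-kf T y v)`: if `ord v y < 0` then `ord v (y-1) = ord v y` (`RolesAux.ord_sub_one` in AbcE/Roles), `jf = 0`, and either
`(-ord v y).toNat ∈ F1`, `kf = 0`, or not, `kf = ord v y`; if `ord v y ≥ 0` then `ord v (y-1) ≥ 0` (`ord_sub_one`: negative would force `ord v y` negative), `dpart y⁻¹ F1 v = 0`, `kf ≥ 0`, and `ord v (y-1) = jf + dpart (y-1) G v`.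
-/

namespace Pool.Agent.MVD

open NumberField IsDedekindDomain Pool.Agent.H7.Abc Pool.Agent.AbcE Pool.Agent.AbcF

variable {K : Type*} [Field K] [NumberField K]

private theorem TsPart_kf (T : Tool) {y : K} (hy : y ≠ 0) (v : HeightOneSpectrum (𝓞 K)) :
    kf T y v = ord v y - (dpart y T.F0 v : ℤ) + (dpart y⁻¹ T.F1 v : ℤ) := by
  classical
  rw [dpart_apply hy, dpart_apply (inv_ne_zero hy), tc_ord_inv v hy]
  unfold kf
  generalize ord v y = a
  by_cases c1 : 0 < a ∧ a.toNat ∈ T.F0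
  · have c2 : ¬ (0 < -a ∧ (-a).toNat ∈ T.F1) := by
      rintro ⟨h, _⟩
      have := c1.1
      omega
    rw [if_pos (Or.inl c1), if_pos c1, if_neg c2]
    have := c1.1
    push_cast
    omega
  · by_cases c2 : a < 0 ∧ (-a).toNat ∈ T.F1
    · have c3 : 0 < -a ∧ (-a).toNat ∈ T.F1 := ⟨by omega, c2.2⟩
      rw [if_pos (Or.inr c2), if_neg c1, if_pos c3]
      have := c2.1
      push_cast
      omega
    · have c3 : ¬ (0 < -a ∧ (-a).toNat ∈ T.F1) := fun h => c2 ⟨by omega, h.2⟩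
      rw [if_neg (by tauto), if_neg c1, if_neg c3]
      push_cast
      omega

private theorem TsPart_jf (T : Tool) {y : K} (hy : y ≠ 0) (hy' : y ≠ 1)
    (v : HeightOneSpectrum (𝓞 K)) :
    ord v (y - 1) = jf T y v + (dpart (y - 1) T.G v : ℤ) - (dpart y⁻¹ T.F1 v : ℤ) -
      max 0 (-kf T y v) := by
  classical
  obtain ⟨h1, h2, h3, h4⟩ := RolesAux.ord_sub_one v hy hy'
  rw [TsPart_kf T hy v, dpart_apply hy, dpart_apply (inv_ne_zero hy),
    dpart_apply (sub_ne_zero.2 hy'), tc_ord_inv v hy]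
  unfold jf
  generalize ord v y = a at *
  generalize ord v (y - 1) = b at *
  rcases lt_trichotomy a 0 with ha | ha | ha
  · have hb : b = a := h1 ha
    subst hb
    have e1 : ¬ (0 < b ∧ b.toNat ∉ T.G) := by rintro ⟨h, _⟩; omega
    have e2 : ¬ (0 < b ∧ b.toNat ∈ T.G) := by rintro ⟨h, _⟩; omega
    have e3 : ¬ (0 < b ∧ b.toNat ∈ T.F0) := by rintro ⟨h, _⟩; omega
    rw [if_neg e1, if_neg e2, if_neg e3]
    split_ifs with h5
    · have : ((-b).toNat : ℤ) = -b := Int.toNat_of_nonneg (by omega)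
      rw [this]
      have : max (0 : ℤ) (-(b - ((0 : ℕ) : ℤ) + -b)) = 0 := by
        push_cast
        rw [max_eq_left]
        omega
      rw [this]
      push_cast
      omega
    · have : max (0 : ℤ) (-(b - ((0 : ℕ) : ℤ) + ((0 : ℕ) : ℤ))) = -b := by
        push_cast
        rw [max_eq_right]
        · omega
        · omega
      rw [this]
      push_cast
      omega
  all_goals
    have hb : 0 ≤ b := by
      by_contra hb
      have := h2 (by omega)
      omega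
    have e2 : ¬ (0 < -a ∧ (-a).toNat ∈ T.F1) := by rintro ⟨h, _⟩; omega
    rw [if_neg e2]
    have e4 : max (0 : ℤ) (-(a - ((if 0 < a ∧ a.toNat ∈ T.F0 then a.toNat else 0 : ℕ) : ℤ) +
        ((0 : ℕ) : ℤ))) = 0 := by
      rw [max_eq_left]
      split_ifs
      · push_cast
        omega
      · push_cast
        omega
    rw [e4]
    by_cases h5 : 0 < b
    · by_cases h6 : b.toNat ∈ T.G
      · rw [if_neg (fun h => h.2 h6), if_pos ⟨h5, h6⟩]
        push_cast
        omega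
      · rw [if_pos ⟨h5, h6⟩, if_neg (fun h => h6 h.2)]
        push_cast
        omega
    · rw [if_neg (fun h => h5 h.1), if_neg (fun h => h5 h.1)]
      push_cast
      omega

theorem ord_diff (T : Tool) {y y1 : K} (hy : y ≠ 0) (hy1 : y1 ≠ 0)
    {v : HeightOneSpectrum (𝓞 K)} (hk : kf T y v = kf T y1 v) :
    ord v y - ord v y1 = ((dpart y T.F0 v : ℤ) - dpart y1 T.F0 v) -
      ((dpart y⁻¹ T.F1 v : ℤ) - dpart y1⁻¹ T.F1 v) := by
  rw [TsPart_kf T hy, TsPart_kf T hy1] at hk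
  linarith

theorem ord_diff1 (T : Tool) {y y1 : K} (hy : y ≠ 0) (hy' : y ≠ 1) (hy1 : y1 ≠ 0) (hy1' : y1 ≠ 1)
    {v : HeightOneSpectrum (𝓞 K)} (hk : kf T y v = kf T y1 v) (hj : jf T y v = jf T y1 v) :
    ord v (y - 1) - ord v (y1 - 1) = ((dpart (y - 1) T.G v : ℤ) - dpart (y1 - 1) T.G v) -
      ((dpart y⁻¹ T.F1 v : ℤ) - dpart y1⁻¹ T.F1 v) := by
  rw [TsPart_jf T hy hy' v, TsPart_jf T hy1 hy1' v, hk, hj]
  ring

end Pool.Agent.MVD
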