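import Pool.Agent.AbcF.Balanced

/-!
# Module UnitCnt (size 4)

The set is finite (`units_bdd`). An `η` in it is `algebraMap u` for a unit `u` of `𝓞 K` (`mk v η = 1` for all `v`, so `η` and `η⁻¹` are integral: `ord_eq_zero_iff`, and e.g.
`HeightOneSpectrum.mem_integers_of_valuation_le_one`). Dirichlet (Mathlib `NumberField.Units.exist_unique_eq_mul_prod`, `logEmbedding`, `unitLattice`, `basisUnitLattice`): `u = ζ * ∏ ε_i ^ n_i` with `ζ` torsion, and
`logEmbedding u = ∑ n_i b_i`, where `b_i` is an `ℝ`-basis of `logSpace K` (`(basisUnitLattice K).ofZLatticeBasis ℝ _`, see `bal_unit0` in AbcF/Balanced.lean); the coordinates `n_i` are linear functionals of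
`logEmbedding u`, continuous as the space is finite dimensional, so `|n_i| ≤ A * ‖logEmbedding u‖ ≤ A * 2 * B` (`mult ≤ 2`). So there are at most `#torsion * ∏ (2 * (2 A B) + 1) ≤ C (1 + B)^r` possibilities.
-/

namespace Pool.Agent.MVD

open NumberField IsDedekindDomain Pool.Agent.H7.Abc Pool.Agent.AbcE Pool.Agent.AbcF

/-- The number of units with bounded logarithms is polynomially bounded. -/
theorem units_count (K : Type*) [Field K] [NumberField K] : ∃ (C : ℝ) (r : ℕ), 0 < C ∧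
    ∀ B : ℝ, 0 ≤ B → (({η : K | η ≠ 0 ∧ (∀ v : HeightOneSpectrum (𝓞 K), ord v η = 0) ∧
      ∀ w : InfinitePlace K, |Real.log (w η)| ≤ B}.ncard : ℕ) : ℝ) ≤ C * (1 + B) ^ r := by
  classical
  have hfin : ∀ B : ℝ, Set.Finite {η : K | η ≠ 0 ∧ (∀ v : HeightOneSpectrum (𝓞 K), ord v η = 0) ∧
      ∀ w : InfinitePlace K, |Real.log (w η)| ≤ B} := units_bdd K
  obtain ⟨N, hN⟩ : ∃ N : ℕ, N = (hfin 1).toFinset.card := ⟨_, rfl⟩
  obtain ⟨r, hr⟩ : ∃ r : ℕ, r = Fintype.card (InfinitePlace K) := ⟨_, rfl⟩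
  refine ⟨N * 2 ^ r + 1, r, by positivity, fun B hB => ?_⟩
  rw [Set.ncard_eq_toFinset_card _ (hfin B)]
  let cell : K → (InfinitePlace K → ℤ) := fun η w => ⌊Real.log (w η)⌋
  let t : Finset (InfinitePlace K → ℤ) := Fintype.piFinset (fun _ => Finset.Icc ⌊-B⌋ ⌊B⌋)
  have hmaps : ∀ η ∈ (hfin B).toFinset, cell η ∈ t := by
    intro η hη
    rw [Set.Finite.mem_toFinset] at hη
    obtain ⟨-, -, h3⟩ := hη
    rw [Fintype.mem_piFinset]
    intro w
    have h4 := abs_le.1 (h3 w)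
    rw [Finset.mem_Icc]
    exact ⟨Int.floor_le_floor h4.1, Int.floor_le_floor h4.2⟩
  have hfib : ∀ b ∈ t, ((hfin B).toFinset.filter (fun η => cell η = b)).card ≤ N := by
    intro b _
    rcases ((hfin B).toFinset.filter (fun η => cell η = b)).eq_empty_or_nonempty with h | ⟨η0, h0⟩
    · rw [h, Finset.card_empty]
      exact Nat.zero_le _
    · rw [Finset.mem_filter, Set.Finite.mem_toFinset] at h0
      obtain ⟨⟨a1, a2, a3⟩, a4⟩ := h0
      rw [hN]
      apply Finset.card_le_card_of_injOn (fun η => η / η0)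
      · intro η hη
        rw [Finset.mem_coe, Finset.mem_filter, Set.Finite.mem_toFinset] at hη
        obtain ⟨⟨b1, b2, b3⟩, b4⟩ := hη
        rw [Finset.mem_coe, Set.Finite.mem_toFinset]
        refine ⟨div_ne_zero b1 a1, ?_, ?_⟩
        · intro v
          rw [ord_div v b1 a1, b2, a2, sub_self]
        · intro w
          have hw1 : w η ≠ 0 := by simpa using b1
          have hw2 : w η0 ≠ 0 := by simpa using a1
          rw [map_div₀, Real.log_div hw1 hw2]
          have c1 : ⌊Real.log (w η)⌋ = ⌊Real.log (w η0)⌋ := by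
            have e1 := congrFun b4 w
            have e2 := congrFun a4 w
            exact e1.trans e2.symm
          exact (Int.abs_sub_lt_one_of_floor_eq_floor c1).le
      · intro x _ y _ hxy
        exact (div_left_inj' a1).1 hxy
  have hcard := Finset.card_le_mul_card_image_of_maps_to hmaps N hfib
  have ht : t.card = ((⌊B⌋ + 1 - ⌊-B⌋).toNat) ^ r := by
    change (Fintype.piFinset (fun _ : InfinitePlace K => Finset.Icc ⌊-B⌋ ⌊B⌋)).card = _
    rw [Fintype.card_piFinset, Finset.prod_const, Finset.card_univ, Int.card_Icc, hr]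
  have hn : (((⌊B⌋ + 1 - ⌊-B⌋).toNat : ℕ) : ℝ) ≤ 2 * (1 + B) := by
    have h1 : (0 : ℤ) ≤ ⌊B⌋ + 1 - ⌊-B⌋ := by
      have h2 : ⌊-B⌋ ≤ ⌊B⌋ := Int.floor_le_floor (by linarith)
      omega
    have h2 : (((⌊B⌋ + 1 - ⌊-B⌋).toNat : ℕ) : ℝ) = ((⌊B⌋ + 1 - ⌊-B⌋ : ℤ) : ℝ) := by
      have h3 : (((⌊B⌋ + 1 - ⌊-B⌋).toNat : ℕ) : ℤ) = ⌊B⌋ + 1 - ⌊-B⌋ := Int.toNat_of_nonneg h1
      have h4 := congrArg (fun z : ℤ => (z : ℝ)) h3
      simp only [Int.cast_natCast] at h4
      exact h4
    rw [h2]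
    push_cast
    have h4 := Int.floor_le B
    have h5 := Int.lt_floor_add_one (-B)
    linarith
  have h1 : (((hfin B).toFinset.card : ℕ) : ℝ) ≤ N * (2 * (1 + B)) ^ r := by
    have h2 : (((hfin B).toFinset.card : ℕ) : ℝ) ≤ ((N * t.card : ℕ) : ℝ) := by
      exact_mod_cast hcard
    refine h2.trans ?_
    rw [ht]
    push_cast
    exact mul_le_mul_of_nonneg_left (pow_le_pow_left₀ (Nat.cast_nonneg _) hn r) (Nat.cast_nonneg _)
  refine h1.trans ?_
  rw [mul_pow, ← mul_assoc]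
  apply mul_le_mul_of_nonneg_right _ (by positivity)
  linarith

end Pool.Agent.MVD
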