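import Pool.Agent.MVD.TStarI
import Pool.Agent.MVD.TsPart
import Pool.Agent.MVD.BalCls
import Pool.Agent.MVD.DecDefs
import Pool.Agent.MVD.UnitCnt

/-!
# Module CellG1 (size 5)

The proof of `cell_ts` (module `CellTS`, copy it), with the variables `Fin 3 × ι`, `dv y (g, i)` instead of `dvi ..`, the exponents `p g i` instead of `wi (ex g) i`; the identity `dvi_sum` is replaced by the second part of `DecOK`, `LD_dvi_le` by the first part. New: the exponents are not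
bounded by a constant, `p g i ≤ κ1 L`, so the logarithms of the unit factors `η y, η' y` are at most `B1 = 1 + 2 * card ι * (κ1 L) * C0` and the finite set `U` of these units has `card U ≤ Cu * (1 + B1)^r` (`units_count`), so `card U ^ 2 ≤ C exp (ε/4 L)` by
`tc_poly_le_exp` (AbcE/ToolCount). Use `ε/4` in `tstarI` and in `bal_cls`. The hypothesis `p ≤ exp L` of `tstarI`: if `κ1 L > exp L` then `L` is bounded (e.g. `L^2/2 ≤ exp L` gives `L ≤ 2 |κ1|`) and `hgt y ≤ κ1 L` is bounded: Northcott.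
-/

namespace Pool.Agent.MVD

open NumberField IsDedekindDomain Pool.Agent.H7.Abc Pool.Agent.AbcE Pool.Agent.AbcF

/-- the monomial of the group `g` -/
private noncomputable def cellG1_X {K : Type*} [Field K] {ι : Type} [Fintype ι]
    (p : Fin 3 → ι → ℕ) (x : Fin 3 × ι → K) (g : Fin 3) : K := ∏ i, x (g, i) ^ p g i

private theorem cellG1_X_ne {K : Type*} [Field K] {ι : Type} [Fintype ι] (p : Fin 3 → ι → ℕ)
    {x : Fin 3 × ι → K} (hx : ∀ i, x i ≠ 0) (g : Fin 3) : cellG1_X p x g ≠ 0 :=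
  Finset.prod_ne_zero_iff.2 fun i _ => pow_ne_zero _ (hx (g, i))

private theorem cellG1_ord_prod {K : Type*} [Field K] [NumberField K]
    (v : HeightOneSpectrum (𝓞 K)) {α : Type*} (s : Finset α) (f : α → K)
    (hf : ∀ n ∈ s, f n ≠ 0) : ord v (∏ n ∈ s, f n) = ∑ n ∈ s, ord v (f n) := by
  classical
  induction s using Finset.induction_on with
  | empty => rw [Finset.prod_empty, Finset.sum_empty, pt_ord_one]
  | insert a s ha ih =>
    have h1 : ∀ n ∈ s, f n ≠ 0 := fun n hn => hf n (Finset.mem_insert_of_mem hn)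
    rw [Finset.prod_insert ha, Finset.sum_insert ha,
      pt_ord_mul v (hf a (Finset.mem_insert_self _ _)) (Finset.prod_ne_zero_iff.2 h1), ih h1]

private theorem cellG1_ord_X {K : Type*} [Field K] [NumberField K] {ι : Type} [Fintype ι]
    {p : Fin 3 → ι → ℕ} {T : Tool} {dv : K → Fin 3 → ι → (HeightOneSpectrum (𝓞 K) →₀ ℕ)}
    {y y1 : K} {X : ℝ}
    (hy : ∀ g, DecOK (grp y g) (Fs T g) (p g) (dv y g) X)
    (hy1 : ∀ g, DecOK (grp y1 g) (Fs T g) (p g) (dv y1 g) X) {x : Fin 3 × ι → K}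
    (hx : ∀ i, x i ≠ 0) (v : HeightOneSpectrum (𝓞 K))
    (ho : ∀ i : Fin 3 × ι, ord v (x i) =
      (dv y i.1 i.2 v : ℤ) - (dv y1 i.1 i.2 v : ℤ)) (g : Fin 3) :
    ord v (cellG1_X p x g) = (dpart (grp y g) (Fs T g) v : ℤ) - dpart (grp y1 g) (Fs T g) v := by
  unfold cellG1_X
  rw [cellG1_ord_prod v _ _ fun i _ => pow_ne_zero _ (hx (g, i))]
  rw [← (hy g).2 v, ← (hy1 g).2 v]
  push_cast
  rw [← Finset.sum_sub_distrib]
  refine Finset.sum_congr rfl fun i _ => ?_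
  rw [pt_ord_pow v (hx (g, i)), ho (g, i)]
  ring

private theorem cellG1_log_prod {K : Type*} [Field K] [NumberField K] {α : Type*} (s : Finset α)
    (f : α → K) {B : ℝ} (w : InfinitePlace K) (h0 : ∀ i ∈ s, f i ≠ 0)
    (h : ∀ i ∈ s, |Real.log (w (f i))| ≤ B) :
    |Real.log (w (∏ i ∈ s, f i))| ≤ s.card * B := by
  classical
  induction s using Finset.induction_on with
  | empty => simp
  | insert a s ha ih =>
    have h1 : ∀ n ∈ s, f n ≠ 0 := fun n hn => h0 n (Finset.mem_insert_of_mem hn)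
    have h2 := ih h1 fun i hi => h i (Finset.mem_insert_of_mem hi)
    have h3 := h a (Finset.mem_insert_self _ _)
    have p1 : w (f a) ≠ 0 := (InfinitePlace.pos_iff.2 (h0 a (Finset.mem_insert_self _ _))).ne'
    have p2 : w (∏ i ∈ s, f i) ≠ 0 :=
      (InfinitePlace.pos_iff.2 (Finset.prod_ne_zero_iff.2 h1)).ne'
    rw [Finset.prod_insert ha, Finset.card_insert_of_notMem ha, map_mul, Real.log_mul p1 p2]
    push_cast
    have h4 := abs_add_le (Real.log (w (f a))) (Real.log (w (∏ i ∈ s, f i)))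
    linarith

private theorem cellG1_log_X {K : Type*} [Field K] [NumberField K] {ι : Type} [Fintype ι]
    {p : Fin 3 → ι → ℕ} {M : ℝ} (hM : 0 ≤ M) (hp : ∀ g i, (p g i : ℝ) ≤ M)
    {x : Fin 3 × ι → K} (hx : ∀ i, x i ≠ 0) (w : InfinitePlace K) {C0 : ℝ}
    (hw : ∀ i, |Real.log (w (x i))| ≤ C0) (g : Fin 3) :
    |Real.log (w (cellG1_X p x g))| ≤ (Fintype.card ι : ℝ) * (M * C0) := by
  unfold cellG1_X
  rw [← Finset.card_univ]
  refine cellG1_log_prod _ _ w (fun i _ => pow_ne_zero _ (hx (g, i))) fun i _ => ?_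
  rw [map_pow, Real.log_pow, abs_mul, Nat.abs_cast]
  exact mul_le_mul (hp g i) (hw (g, i)) (abs_nonneg _) hM

private theorem cellG1_grp {K : Type*} [Field K] {y : K} (hy : y ≠ 0) (hy1 : y ≠ 1) (g : Fin 3) :
    grp y g ≠ 0 := by
  unfold grp
  split_ifs
  · exact hy
  · exact inv_ne_zero hy
  · exact sub_ne_zero.2 hy1

/-- the exponent vectors -/
private def cellG1_ev {ι : Type} (p : Fin 3 → ι → ℕ) (g : Fin 3)
    (i : Fin 3 × ι) : ℕ := if i.1 = g then p g i.2 else 0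

private theorem cellG1_ev_prod {K : Type*} [Field K] {ι : Type} [Fintype ι] (p : Fin 3 → ι → ℕ)
    (x : Fin 3 × ι → K) (g : Fin 3) :
    ∏ i, x i ^ cellG1_ev p g i = cellG1_X p x g := by
  classical
  unfold cellG1_ev cellG1_X
  rw [Fintype.prod_prod_type, Finset.prod_eq_single g]
  · simp
  · intro b _ hb
    simp [hb]
  · intro h; exact absurd (Finset.mem_univ _) h

private theorem cellG1_ev_le {ι : Type} {p : Fin 3 → ι → ℕ} {M L : ℝ}
    (hp : ∀ g i, (p g i : ℝ) ≤ M) (hE : M ≤ Real.exp L)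
    (g : Fin 3) (i : Fin 3 × ι) : (cellG1_ev p g i : ℝ) ≤ Real.exp L := by
  unfold cellG1_ev
  split_ifs
  · exact (hp g i.2).trans hE
  · rw [Nat.cast_zero]; positivity

private theorem cellG1_fin (K : Type*) [Field K] [NumberField K] (D : ℝ) :
    {x : K | hgt x ≤ D}.Finite := by
  refine (NumberField.finite_setOfPred_logHeight₁_le K D).subset ?_
  intro x hx
  have h1 : hgt x ≤ D := hx
  rw [hgt_eq] at h1
  exact h1

/-- One class. -/
private theorem cellG1_class {K : Type*} [Field K] [NumberField K] {ι : Type} [Fintype ι]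
    {T : Tool} {p : Fin 3 → ι → ℕ} {dv : K → Fin 3 → ι → (HeightOneSpectrum (𝓞 K) →₀ ℕ)}
    {M C0 B1 X : ℝ} (hM : 0 ≤ M) (hp : ∀ g i, (p g i : ℝ) ≤ M)
    (hB1 : 1 + 2 * ((Fintype.card ι : ℝ) * (M * C0)) ≤ B1)
    (U : Finset K)
    (hU : ∀ η : K, η ≠ 0 → (∀ v : HeightOneSpectrum (𝓞 K), ord v η = 0) →
      (∀ w : InfinitePlace K, |Real.log (w η)| ≤ B1) → η ∈ U)
    {P : Finset K} {y1 : K} (hy1 : y1 ∈ P) (hP : ∀ y ∈ P, y ≠ 0 ∧ y ≠ 1)
    (hdec : ∀ y ∈ P, ∀ g, DecOK (grp y g) (Fs T g) (p g) (dv y g) X)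
    (hS : ∀ y ∈ P, (∀ v, kf T y v = kf T y1 v) ∧ (∀ v, jf T y v = jf T y1 v) ∧
      (∀ w : InfinitePlace K, |Real.log (w y) - Real.log (w y1)| ≤ 1) ∧
      (∀ w : InfinitePlace K, |Real.log (w (y - 1)) - Real.log (w (y1 - 1))| ≤ 1))
    (ξ : K → Fin 3 × ι → K)
    (hξ : ∀ y ∈ P, ∀ i, ξ y i ≠ 0 ∧ (∀ v, ord v (ξ y i) =
      (dv y i.1 i.2 v : ℤ) - (dv y1 i.1 i.2 v : ℤ)) ∧
      (∀ w : InfinitePlace K, |Real.log (w (ξ y i))| ≤ C0))
    {N : ℝ}
    (hN : ∀ (a b : K) (R : Finset K), R ⊆ P → (∀ y ∈ R,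
      a * cellG1_X p (ξ y) 0 + b * cellG1_X p (ξ y) 2 = cellG1_X p (ξ y) 1 ∧
      a * cellG1_X p (ξ y) 0 / cellG1_X p (ξ y) 1 = y) → (R.card : ℝ) ≤ N) :
    (P.card : ℝ) ≤ (U.card : ℝ) * U.card * N := by
  classical
  have hN0 : 0 ≤ N := by
    have := hN 0 0 ∅ (Finset.empty_subset _) (by simp)
    simpa using this
  have hy10 := (hP y1 hy1).1
  have hy11 := (hP y1 hy1).2
  have hX : ∀ y ∈ P, ∀ g, cellG1_X p (ξ y) g ≠ 0 := fun y hy g =>
    cellG1_X_ne p (fun i => (hξ y hy i).1) g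
  have hXo : ∀ y ∈ P, ∀ g v, ord v (cellG1_X p (ξ y) g) =
      (dpart (grp y g) (Fs T g) v : ℤ) - dpart (grp y1 g) (Fs T g) v := fun y hy g v =>
    cellG1_ord_X (hdec y hy) (hdec y1 hy1) (fun i => (hξ y hy i).1) v
      (fun i => (hξ y hy i).2.1 v) g
  have hXl : ∀ y ∈ P, ∀ g (w : InfinitePlace K), |Real.log (w (cellG1_X p (ξ y) g))| ≤
      (Fintype.card ι : ℝ) * (M * C0) := fun y hy g w =>
    cellG1_log_X hM hp (fun i => (hξ y hy i).1) w (fun i => (hξ y hy i).2.2 w) g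
  obtain ⟨η, hη⟩ : ∃ η : K → K, ∀ y, η y = y * cellG1_X p (ξ y) 1 / (y1 * cellG1_X p (ξ y) 0) :=
    ⟨_, fun _ => rfl⟩
  obtain ⟨θ, hθ⟩ : ∃ θ : K → K, ∀ y, θ y =
      (y - 1) * cellG1_X p (ξ y) 1 / ((y1 - 1) * cellG1_X p (ξ y) 2) :=
    ⟨_, fun _ => rfl⟩
  have hs1 : y1 - 1 ≠ 0 := sub_ne_zero.2 hy11
  have hlog : ∀ (a b c d : K) (w : InfinitePlace K), a ≠ 0 → b ≠ 0 → c ≠ 0 → d ≠ 0 →
      |Real.log (w a) - Real.log (w c)| ≤ 1 →
      |Real.log (w b)| ≤ (Fintype.card ι : ℝ) * (M * C0) →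
      |Real.log (w d)| ≤ (Fintype.card ι : ℝ) * (M * C0) →
      |Real.log (w (a * b / (c * d)))| ≤ B1 := by
    intro a b c d w ha hb hc hd h1 h2 h3
    have p1 : w a ≠ 0 := (InfinitePlace.pos_iff.2 ha).ne'
    have p2 : w b ≠ 0 := (InfinitePlace.pos_iff.2 hb).ne'
    have p3 : w c ≠ 0 := (InfinitePlace.pos_iff.2 hc).ne'
    have p4 : w d ≠ 0 := (InfinitePlace.pos_iff.2 hd).ne'
    rw [map_div₀, map_mul, map_mul, Real.log_div (mul_ne_zero p1 p2) (mul_ne_zero p3 p4),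
      Real.log_mul p1 p2, Real.log_mul p3 p4]
    have e1 := abs_le.1 h1
    have e2 := abs_le.1 h2
    have e3 := abs_le.1 h3
    rw [abs_le]
    constructor <;> linarith [e1.1, e1.2, e2.1, e2.2, e3.1, e3.2]
  have hηU : ∀ y ∈ P, η y ∈ U := by
    intro y hy
    have hy0 := (hP y hy).1
    rw [hη]
    refine hU _ (div_ne_zero (mul_ne_zero hy0 (hX y hy 1)) (mul_ne_zero hy10 (hX y hy 0)))
      (fun v => ?_) (fun w => ?_)
    · rw [ord_div v (mul_ne_zero hy0 (hX y hy 1)) (mul_ne_zero hy10 (hX y hy 0)),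
        pt_ord_mul v hy0 (hX y hy 1), pt_ord_mul v hy10 (hX y hy 0), hXo y hy 1 v, hXo y hy 0 v]
      have h1 := ord_diff T hy0 hy10 ((hS y hy).1 v)
      simp only [grp, Fs, Fin.isValue, one_ne_zero, if_true, if_false, ↓reduceIte] at *
      linarith
    · exact hlog _ _ _ _ w hy0 (hX y hy 1) hy10 (hX y hy 0) ((hS y hy).2.2.1 w)
        (hXl y hy 1 w) (hXl y hy 0 w)
  have hθU : ∀ y ∈ P, θ y ∈ U := by
    intro y hy
    have hy0 := (hP y hy).1
    have hy0' := (hP y hy).2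
    have hs : y - 1 ≠ 0 := sub_ne_zero.2 hy0'
    rw [hθ]
    refine hU _ (div_ne_zero (mul_ne_zero hs (hX y hy 1)) (mul_ne_zero hs1 (hX y hy 2)))
      (fun v => ?_) (fun w => ?_)
    · rw [ord_div v (mul_ne_zero hs (hX y hy 1)) (mul_ne_zero hs1 (hX y hy 2)),
        pt_ord_mul v hs (hX y hy 1), pt_ord_mul v hs1 (hX y hy 2), hXo y hy 1 v, hXo y hy 2 v]
      have h1 := ord_diff1 T hy0 hy0' hy10 hy11 ((hS y hy).1 v) ((hS y hy).2.1 v)
      have e1 : grp y 1 = y⁻¹ := by simp [grp]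
      have e2 : grp y1 1 = y1⁻¹ := by simp [grp]
      have e3 : grp y 2 = y - 1 := by simp [grp]
      have e4 : grp y1 2 = y1 - 1 := by simp [grp]
      have e5 : Fs T 1 = T.F1 := by simp [Fs]
      have e6 : Fs T 2 = T.G := by simp [Fs]
      rw [e1, e2, e3, e4, e5, e6]
      linarith
    · exact hlog _ _ _ _ w hs (hX y hy 1) hs1 (hX y hy 2) ((hS y hy).2.2.2 w)
        (hXl y hy 1 w) (hXl y hy 2 w)
  have hcard : P.card = ∑ t ∈ U ×ˢ U, (P.filter (fun y => (η y, θ y) = t)).card :=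
    Finset.card_eq_sum_card_fiberwise (f := fun y => (η y, θ y)) (t := U ×ˢ U) fun y hy =>
      Finset.mem_coe.2 (Finset.mem_product.2
        ⟨hηU y (Finset.mem_coe.1 hy), hθU y (Finset.mem_coe.1 hy)⟩)
  rw [hcard, Nat.cast_sum]
  have hb : ∀ t ∈ U ×ˢ U, ((P.filter (fun y => (η y, θ y) = t)).card : ℝ) ≤ N := by
    rintro ⟨u, u'⟩ _
    refine hN (y1 * u) (-((y1 - 1) * u')) _ (Finset.filter_subset _ _) fun y hy => ?_
    rw [Finset.mem_filter] at hy
    obtain ⟨hyP, hyt⟩ := hy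
    rw [Prod.mk.injEq] at hyt
    obtain ⟨h1, h2⟩ := hyt
    rw [hη] at h1
    rw [hθ] at h2
    have q0 := hX y hyP 0
    have q1 := hX y hyP 1
    have q2 := hX y hyP 2
    have k1 : y1 * u * cellG1_X p (ξ y) 0 = y * cellG1_X p (ξ y) 1 := by
      rw [← h1]
      field_simp
    have k2 : (y1 - 1) * u' * cellG1_X p (ξ y) 2 = (y - 1) * cellG1_X p (ξ y) 1 := by
      rw [← h2]
      field_simp
    refine ⟨?_, ?_⟩
    · rw [neg_mul, k1, k2]
      ring
    · rw [k1]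
      field_simp
  calc ∑ t ∈ U ×ˢ U, ((P.filter (fun y => (η y, θ y) = t)).card : ℝ)
      ≤ ∑ t ∈ U ×ˢ U, N := Finset.sum_le_sum hb
    _ = (U.card : ℝ) * U.card * N := by
        rw [Finset.sum_const, Finset.card_product, nsmul_eq_mul]
        push_cast
        ring

/-- The bound for one cell by the theorem on values of large height, general decompositions. -/
theorem cell_tsG (K : Type*) [Field K] [NumberField K] (ι : Type) [Fintype ι] (C1 ε : ℝ)
    (hC1 : 0 ≤ C1) (hε : 0 < ε) : ∃ κ0 : ℝ, 1 ≤ κ0 ∧ ∀ κ1 : ℝ, ∃ C : ℝ, 0 < C ∧ ∀ L : ℝ, 1 ≤ L →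
      ∀ (T : Tool) (p : Fin 3 → ι → ℕ) (dv : K → Fin 3 → ι → (HeightOneSpectrum (𝓞 K) →₀ ℕ)),
      (∀ g i, (p g i : ℝ) ≤ κ1 * L) →
      ∀ (P : Finset K) (y0 : K), y0 ∈ P → SameData T P y0 →
      (∀ y ∈ P, y ≠ 0 ∧ y ≠ 1 ∧ κ0 * L ≤ hgt y ∧ hgt y ≤ κ1 * L ∧
        ∀ g, DecOK (grp y g) (Fs T g) (p g) (dv y g) (C1 * L)) →
      (P.card : ℝ) ≤ C * Real.exp (ε * L) := by
  classical
  obtain ⟨C0, hC0, hbal⟩ := bal_cls K (Fin 3 × ι)
  obtain ⟨κ0, hκ0, hts⟩ := tstarI K (Fin 3 × ι) (C1 + C0) (ε / 4) (by positivity)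
  refine ⟨κ0, hκ0, fun κ1 => ?_⟩
  obtain ⟨Cu, r, hCu, hUc⟩ := units_count K
  obtain ⟨Cr, hCr, hrpoly⟩ := tc_poly_le_exp r 2 (by norm_num) (show 0 < ε / 8 by positivity)
  obtain ⟨c, hc⟩ : ∃ c : ℝ, c = (Fintype.card ι : ℝ) * (|κ1| * C0) := ⟨_, rfl⟩
  have hc0 : 0 ≤ c := by rw [hc]; positivity
  obtain ⟨Cp, hCp, hcls⟩ := hbal C1 (ε / 4) hC1 (by positivity)
  obtain ⟨Ct, hCt, htsL⟩ := hts κ1
  obtain ⟨F, hF⟩ : ∃ F : Finset K, ∀ x : K, x ∈ F ↔ hgt x ≤ |κ1| * (2 * |κ1|) :=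
    ⟨(cellG1_fin K (|κ1| * (2 * |κ1|))).toFinset, fun x => by simp⟩
  obtain ⟨Cv, hCv⟩ : ∃ Cv : ℝ, Cv = Cu * ((1 + c) ^ r * Cr) := ⟨_, rfl⟩
  have hCv0 : 0 < Cv := by rw [hCv]; positivity
  refine ⟨1 + F.card + Cp * (Cv * Cv * Ct), by positivity, ?_⟩
  intro L hL T p dv hp P y0 hy0 hSD hP
  have hL0 : 0 ≤ L := by linarith
  have hexp : 1 ≤ Real.exp (ε * L) := by
    rw [Real.one_le_exp_iff]; positivity
  have hcc0 : 0 ≤ Cp * (Cv * Cv * Ct) := by positivity
  have hM : 0 ≤ |κ1| * L := by positivity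
  have hpM : ∀ g i, (p g i : ℝ) ≤ |κ1| * L := fun g i =>
    (hp g i).trans (mul_le_mul_of_nonneg_right (le_abs_self _) hL0)
  by_cases hE : Real.exp L < |κ1| * L
  · -- bounded `L`
    have h5 : L < 2 * |κ1| := by
      have h6 := Real.quadratic_le_exp_of_nonneg hL0
      nlinarith
    have h1 : P ⊆ F := by
      intro y hy
      rw [hF]
      obtain ⟨-, -, -, h2, -⟩ := hP y hy
      calc hgt y ≤ κ1 * L := h2
        _ ≤ |κ1| * L := mul_le_mul_of_nonneg_right (le_abs_self _) hL0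
        _ ≤ |κ1| * (2 * |κ1|) := mul_le_mul_of_nonneg_left h5.le (abs_nonneg _)
    have h2 : (P.card : ℝ) ≤ F.card := by exact_mod_cast Finset.card_le_card h1
    refine h2.trans ?_
    have h4 : (0 : ℝ) ≤ (F.card : ℝ) := by positivity
    nlinarith
  · rw [not_lt] at hE
    obtain ⟨B1, hB1⟩ : ∃ B1 : ℝ, B1 = 1 + 2 * ((Fintype.card ι : ℝ) * (|κ1| * L * C0)) :=
      ⟨_, rfl⟩
    have hB10 : 0 ≤ B1 := by rw [hB1]; positivity
    have hUf := units_bdd K B1
    obtain ⟨U, hU, hUcard⟩ : ∃ U : Finset K, (∀ η : K, η ≠ 0 →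
        (∀ v : HeightOneSpectrum (𝓞 K), ord v η = 0) →
        (∀ w : InfinitePlace K, |Real.log (w η)| ≤ B1) → η ∈ U) ∧
        (U.card : ℝ) ≤ Cu * (1 + B1) ^ r :=
      ⟨hUf.toFinset, fun η h1 h2 h3 => by
        rw [Set.Finite.mem_toFinset]
        exact ⟨h1, h2, h3⟩, by
        have h1 := hUc B1 hB10
        rw [Set.ncard_eq_toFinset_card _ hUf] at h1
        exact h1⟩
    have hUle : (U.card : ℝ) ≤ Cv * Real.exp (ε / 8 * L) := by
      refine hUcard.trans ?_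
      have h1 : 1 + B1 ≤ (1 + c) * (2 * L + 2) := by
        rw [hB1, hc]
        have h2 : 0 ≤ (Fintype.card ι : ℝ) * (|κ1| * C0) := by positivity
        nlinarith
      have h2 : (1 + B1) ^ r ≤ (1 + c) ^ r * (2 * L + 2) ^ r := by
        rw [← mul_pow]
        exact pow_le_pow_left₀ (by linarith) h1 r
      have h3 := hrpoly L hL0
      calc Cu * (1 + B1) ^ r ≤ Cu * ((1 + c) ^ r * (2 * L + 2) ^ r) :=
            mul_le_mul_of_nonneg_left h2 hCu.le
        _ ≤ Cu * ((1 + c) ^ r * (Cr * Real.exp (ε / 8 * L))) :=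
            mul_le_mul_of_nonneg_left (mul_le_mul_of_nonneg_left h3 (by positivity)) hCu.le
        _ = Cv * Real.exp (ε / 8 * L) := by rw [hCv]; ring
    have hU0 : (0 : ℝ) ≤ (U.card : ℝ) := by positivity
    have hUU : (U.card : ℝ) * U.card ≤ Cv * Cv * Real.exp (ε / 4 * L) := by
      calc (U.card : ℝ) * U.card
          ≤ (Cv * Real.exp (ε / 8 * L)) * (Cv * Real.exp (ε / 8 * L)) :=
            mul_le_mul hUle hUle hU0 (by positivity)
        _ = Cv * Cv * (Real.exp (ε / 8 * L) * Real.exp (ε / 8 * L)) := by ring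
        _ = Cv * Cv * Real.exp (ε / 4 * L) := by
            rw [← Real.exp_add]
            congr 2
            ring
    have hA0 : 0 ≤ (U.card : ℝ) * U.card * (Ct * Real.exp (ε / 4 * L)) := by positivity
    have hmain := hcls L hL P (fun y i => dv y i.1 i.2)
      (fun y hy i => ((hP y hy).2.2.2.2 i.1).1 i.2) _ hA0 ?_
    · refine hmain.trans ?_
      calc Cp * Real.exp (ε / 4 * L) * ((U.card : ℝ) * U.card * (Ct * Real.exp (ε / 4 * L)))
          ≤ Cp * Real.exp (ε / 4 * L) *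
              (Cv * Cv * Real.exp (ε / 4 * L) * (Ct * Real.exp (ε / 4 * L))) := by
            gcongr
        _ = Cp * (Cv * Cv * Ct) * (Real.exp (ε / 4 * L) * Real.exp (ε / 4 * L) *
              Real.exp (ε / 4 * L)) := by
            ring
        _ = Cp * (Cv * Cv * Ct) * Real.exp (3 / 4 * (ε * L)) := by
            rw [← Real.exp_add, ← Real.exp_add]
            congr 2
            ring
        _ ≤ Cp * (Cv * Cv * Ct) * Real.exp (ε * L) := by
            refine mul_le_mul_of_nonneg_left (Real.exp_le_exp.2 ?_) hcc0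
            have : 0 ≤ ε * L := by positivity
            linarith
        _ ≤ (1 + F.card + Cp * (Cv * Cv * Ct)) * Real.exp (ε * L) := by
            refine mul_le_mul_of_nonneg_right ?_ (Real.exp_nonneg _)
            have h4 : (0 : ℝ) ≤ (F.card : ℝ) := by positivity
            linarith
    · intro P' hP' y1 hy1 ξ hξ
      have hS1 := hSD y1 (hP' hy1)
      refine cellG1_class (T := T) (p := p) (dv := dv) hM hpM hB1.ge U hU hy1
        (fun y hy => ⟨(hP y (hP' hy)).1, (hP y (hP' hy)).2.1⟩)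
        (fun y hy g => (hP y (hP' hy)).2.2.2.2 g) (fun y hy => ?_) ξ
        (fun y hy i => ⟨(hξ y hy i).1, (hξ y hy i).2.1, (hξ y hy i).2.2.1⟩) (fun a b R hR hRy => ?_)
      · have hS := hSD y (hP' hy)
        refine ⟨fun v => (hS.1 v).trans (hS1.1 v).symm, fun v => (hS.2.1 v).trans (hS1.2.1 v).symm,
          fun w => Cell.abs_sub_le_one (hS.2.2.1 w) (hS1.2.2.1 w),
          fun w => Cell.abs_sub_le_one (hS.2.2.2 w) (hS1.2.2.2 w)⟩
      · have h1 := htsL L hL a b (cellG1_ev p 0) (cellG1_ev p 2) (cellG1_ev p 1)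
          (fun j => ⟨cellG1_ev_le hpM hE 0 j, cellG1_ev_le hpM hE 2 j,
            cellG1_ev_le hpM hE 1 j⟩) (R.image ξ) (fun x hx => by
              rw [Finset.mem_image] at hx
              obtain ⟨y, hy, rfl⟩ := hx
              have hyP' := hR hy
              obtain ⟨e1, e2⟩ := hRy y hy
              rw [cellG1_ev_prod, cellG1_ev_prod, cellG1_ev_prod, e2]
              refine ⟨fun j => ⟨(hξ y hyP' j).1, (hξ y hyP' j).2.2.2.trans ?_⟩, e1,
                (hP y (hP' hyP')).2.2.1, (hP y (hP' hyP')).2.2.2.1⟩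
              nlinarith)
        refine le_trans ?_ h1
        have h2 : (R : Set K) ⊆ ((fun P : Fin 3 × ι → K =>
            a * (∏ j, P j ^ cellG1_ev p 0 j) / ∏ j, P j ^ cellG1_ev p 1 j) ''
              ((R.image ξ : Finset (Fin 3 × ι → K)) :
                Set (Fin 3 × ι → K))) := by
          intro y hy
          refine ⟨ξ y, Finset.mem_coe.2 (Finset.mem_image.2 ⟨y, Finset.mem_coe.1 hy, rfl⟩), ?_⟩
          show a * (∏ j, ξ y j ^ cellG1_ev p 0 j) / ∏ j, ξ y j ^ cellG1_ev p 1 j = y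
          rw [cellG1_ev_prod, cellG1_ev_prod]
          exact (hRy y (Finset.mem_coe.1 hy)).2
        have h3 := Set.ncard_le_ncard h2 ((Finset.finite_toSet _).image _)
        rw [Set.ncard_coe_finset] at h3
        exact_mod_cast h3

end Pool.Agent.MVD
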