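import Pool.Agent.MVD.TssE
import Pool.Agent.MVD.TsPart
import Pool.Agent.MVD.BalCls
import Pool.Agent.MVD.DecDefs
import Pool.Agent.MVD.UnitCnt

/-!
# Module CellG2 (size 5)

The proof of `cell_tss` (module `CellTSS`, copy it), with the variables `Bool × ι` (or `{g : Fin 3 // g ≠ 2} × ι`), `dv y g i` instead of `dvi ..`, the exponents `p g i`; `DecOK` replaces `dvi_sum` and `LD_dvi_le`, `dec_vanish` replaces `dvi_zero`. The exponents are at most
`κ1 L`, so the set `U` of the unit factors has polynomially bounded cardinality (`units_count`, `tc_poly_le_exp`), and `tssEI` is used (`p ≤ exp (δ L)`: if `κ1 L > exp (δ L)` then `L` is bounded in terms of `κ1, δ`, and `hgt y ≤ κ1 L`: Northcott).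
-/

namespace Pool.Agent.MVD

open NumberField IsDedekindDomain Pool.Agent.H7.Abc Pool.Agent.AbcE Pool.Agent.AbcF

section Fibre

variable {K : Type*} [Field K] [NumberField K] {ι : Type} [Fintype ι]

private noncomputable def CellG2_X (z : ι → K) (p : ι → ℕ) : K := ∏ i, z i ^ p i

private theorem CellG2_ne {z : ι → K} (hz : ∀ i, z i ≠ 0) (p : ι → ℕ) : CellG2_X z p ≠ 0 :=
  Finset.prod_ne_zero_iff.2 fun i _ => pow_ne_zero _ (hz i)

private theorem CellG2_ord_prod {α : Type*} (v : HeightOneSpectrum (𝓞 K)) (s : Finset α)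
    (f : α → K) (hf : ∀ i, f i ≠ 0) : ord v (∏ i ∈ s, f i) = ∑ i ∈ s, ord v (f i) := by
  classical
  induction s using Finset.induction_on with
  | empty => simpa using pt_ord_one (K := K) v
  | insert a s ha ih =>
    rw [Finset.prod_insert ha, Finset.sum_insert ha,
      pt_ord_mul v (hf a) (Finset.prod_ne_zero_iff.2 fun i _ => hf i), ih]

private theorem CellG2_ord {z : ι → K} (hz : ∀ i, z i ≠ 0) (p : ι → ℕ)
    (v : HeightOneSpectrum (𝓞 K)) : ord v (CellG2_X z p) = ∑ i, (p i : ℤ) * ord v (z i) := by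
  unfold CellG2_X
  rw [CellG2_ord_prod v _ _ fun i => pow_ne_zero _ (hz i)]
  exact Finset.sum_congr rfl fun i _ => pt_ord_pow v (hz i) _

private theorem CellG2_log_prod {α : Type*} (w : InfinitePlace K) (s : Finset α) (f : α → K)
    (hf : ∀ i, f i ≠ 0) : Real.log (w (∏ i ∈ s, f i)) = ∑ i ∈ s, Real.log (w (f i)) := by
  rw [map_prod, Real.log_prod]
  intro i _
  exact (w.pos_iff.2 (hf i)).ne'

private theorem CellG2_log {z : ι → K} (hz : ∀ i, z i ≠ 0) (p : ι → ℕ) {B : ℝ}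
    (hp : ∀ i, (p i : ℝ) ≤ B) (w : InfinitePlace K) {C0 : ℝ}
    (hw : ∀ i, |Real.log (w (z i))| ≤ C0) :
    |Real.log (w (CellG2_X z p))| ≤ Fintype.card ι * B * C0 := by
  unfold CellG2_X
  rw [CellG2_log_prod w _ _ fun i => pow_ne_zero _ (hz i)]
  refine (Finset.abs_sum_le_sum_abs _ _).trans ?_
  have h1 : ∀ i ∈ (Finset.univ : Finset ι), |Real.log (w (z i ^ p i))| ≤ B * C0 := by
    intro i _
    rw [map_pow, Real.log_pow, abs_mul, Nat.abs_cast]
    have h3 := abs_nonneg (Real.log (w (z i)))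
    have h4 : (0 : ℝ) ≤ p i := Nat.cast_nonneg _
    exact mul_le_mul (hp i) (hw i) h3 (h4.trans (hp i))
  refine (Finset.sum_le_sum h1).trans (le_of_eq ?_)
  rw [Finset.sum_const, Finset.card_univ, nsmul_eq_mul]
  ring

/-- the order of the product, from the divisors -/
private theorem CellG2_dpart {z : ι → K} (hz : ∀ i, z i ≠ 0) {p : ι → ℕ} {A : Set ℕ}
    {x x1 : K} {D D1 : ι → (HeightOneSpectrum (𝓞 K) →₀ ℕ)} {X : ℝ} (hd : DecOK x A p D X)
    (hd1 : DecOK x1 A p D1 X) (v : HeightOneSpectrum (𝓞 K))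
    (h : ∀ i, ord v (z i) = (D i v : ℤ) - (D1 i v : ℤ)) :
    ord v (CellG2_X z p) = (dpart x A v : ℤ) - dpart x1 A v := by
  rw [CellG2_ord hz, ← hd.2 v, ← hd1.2 v]
  push_cast
  rw [← Finset.sum_sub_distrib]
  refine Finset.sum_congr rfl fun i _ => ?_
  rw [h i]
  ring

/-- the bound for one cell: the elements with a fixed unit -/
private theorem CellG2_fibre {C1 C0 ε η δ κ1 : ℝ} {J : ℕ} {Ct L : ℝ} (hL : 1 ≤ L)
    (hC0 : 0 ≤ C0)
    (ht : ∀ Q : Finset (HeightOneSpectrum (𝓞 K)), η * L ≤ AbcF.LN Q →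
      (∀ v ∈ Q, ln v ≤ δ * L) → ∀ n : Bool × ι → ℤ,
      (∀ j, |(n j : ℝ)| ≤ Real.exp (δ * L)) →
      ∀ (c : K) (S : Finset (Bool × ι → K)),
      (∀ P ∈ S, (∀ j, P j ≠ 0 ∧ hgt (P j) ≤ (C1 + C0) * L) ∧ ∀ v ∈ Q,
        (∀ j, FinitePlace.mk v (P j) = 1) ∧
        FinitePlace.mk v (∏ j, P j ^ n j - c) ≤ Real.exp (-ln v) ^ J) →
      (((fun P : Bool × ι → K => ∏ j, P j ^ n j) ''
        (S : Set (Bool × ι → K))).ncard : ℝ) ≤ Ct * Real.exp (ε * L))
    (T : Tool) (p : Fin 3 → ι → ℕ) (dv : K → Fin 3 → ι → (HeightOneSpectrum (𝓞 K) →₀ ℕ))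
    (hp : ∀ g, g ≠ 2 → ∀ i, 1 ≤ p g i ∧ (p g i : ℝ) ≤ κ1 * L) (hκ : κ1 * L ≤ Real.exp (δ * L))
    (hG : ∀ n, n ∉ T.G → J ≤ n) (P : Finset K) (y0 : K) (hy0 : y0 ∈ P) (hSD : SameData T P y0)
    (hall : ∀ y ∈ P, y ≠ 0 ∧ y ≠ 1 ∧
        (∀ g, g ≠ 2 → DecOK (grp y g) (Fs T g) (p g) (dv y g) (C1 * L)) ∧
        η * L ≤ rd (y - 1) T.Gᶜ ∧
        ∀ v, 0 < ord v (y - 1) → (ord v (y - 1)).toNat ∉ T.G → ln v ≤ δ * L)
    (P' : Finset K) (hP' : P' ⊆ P) (y1 : K) (hy1 : y1 ∈ P')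
    (ξ : K → Bool × ι → K)
    (hξ : ∀ y ∈ P', ∀ i, ξ y i ≠ 0 ∧
      (∀ v, ord v (ξ y i) = (dv y (if i.1 then 0 else 1) i.2 v : ℤ) -
        (dv y1 (if i.1 then 0 else 1) i.2 v : ℤ)) ∧
      (∀ w : InfinitePlace K, |Real.log (w (ξ y i))| ≤ C0) ∧ hgt (ξ y i) ≤ C1 * L + C0)
    (u : K) (hu : u ≠ 0) (huo : ∀ v : HeightOneSpectrum (𝓞 K), ord v u = 0)
    (Pu : Finset K) (hPu : ∀ y ∈ Pu, y ∈ P' ∧
      u = y * CellG2_X (fun i => ξ y (false, i)) (p 1) /
        (y1 * CellG2_X (fun i => ξ y (true, i)) (p 0))) :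
    (Pu.card : ℝ) ≤ Ct * Real.exp (ε * L) := by
  classical
  -- the places
  obtain ⟨hy00, hy01, -, hη0, hln0⟩ := hall y0 hy0
  have hfin := pt_ord_finite (K := K) (sub_ne_zero.2 hy01)
  set Q : Finset (HeightOneSpectrum (𝓞 K)) := hfin.toFinset.filter
    (fun v => 0 < ord v (y0 - 1) ∧ (ord v (y0 - 1)).toNat ∈ T.Gᶜ) with hQ
  have hQLN : AbcF.LN Q = rd (y0 - 1) T.Gᶜ := by
    rw [tc_rd_eq (y0 - 1) T.Gᶜ hfin.toFinset]
    · unfold AbcF.LN
      rw [hQ, Finset.sum_filter]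
    · intro v hv
      by_contra hcon
      exact hv ((Set.Finite.mem_toFinset hfin).2 hcon)
  have hQv : ∀ v ∈ Q, 0 < ord v (y0 - 1) ∧ (ord v (y0 - 1)).toNat ∉ T.G := by
    intro v hv
    exact (Finset.mem_filter.1 hv).2
  -- the same for all elements of the cell
  have hQy : ∀ v ∈ Q, ∀ y ∈ P, (J : ℤ) ≤ ord v (y - 1) ∧ 0 < ord v (y - 1) ∧ ord v y = 0 := by
    intro v hv y hy
    obtain ⟨h1, h2⟩ := hQv v hv
    have h3 : jf T y v = jf T y0 v := (hSD y hy).2.1 v
    have h4 : jf T y0 v = ord v (y0 - 1) := by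
      unfold jf
      rw [if_pos ⟨h1, h2⟩]
    rw [h4] at h3
    have h5 : 0 < ord v (y - 1) ∧ (ord v (y - 1)).toNat ∉ T.G := by
      by_contra hcon
      unfold jf at h3
      rw [if_neg hcon] at h3
      omega
    obtain ⟨hya, hyb, -, -, -⟩ := hall y hy
    refine ⟨?_, h5.1, (RolesAux.ord_sub_one v hya hyb).2.2.2 h5.1⟩
    have h6 := hG _ h5.2
    have h7 : ((ord v (y - 1)).toNat : ℤ) = ord v (y - 1) := Int.toNat_of_nonneg h5.1.le
    rw [← h7]
    exact_mod_cast h6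
  have hy1P : y1 ∈ P := hP' hy1
  obtain ⟨hy10, hy11, -, -, -⟩ := hall y1 hy1P
  -- the exponents
  let n : Bool × ι → ℤ := fun j => if j.1 then (p 0 j.2 : ℤ) else -(p 1 j.2 : ℤ)
  have hn : ∀ j, |(n j : ℝ)| ≤ Real.exp (δ * L) := by
    rintro ⟨b, i⟩
    cases b
    · have := (hp 1 (by decide) i).2
      simp only [n, Bool.false_eq_true, if_false, Int.cast_neg, Int.cast_natCast, abs_neg,
        Nat.abs_cast]
      exact this.trans hκ
    · have := (hp 0 (by decide) i).2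
      simp only [n, if_true, Int.cast_natCast, Nat.abs_cast]
      exact this.trans hκ
  have hprod : ∀ z : Bool × ι → K, ∏ j, z j ^ n j =
      CellG2_X (fun i => z (true, i)) (p 0) / CellG2_X (fun i => z (false, i)) (p 1) := by
    intro z
    rw [Fintype.prod_prod_type, Fintype.prod_bool]
    unfold CellG2_X
    rw [div_eq_mul_inv, ← Finset.prod_inv_distrib]
    congr 1
    · refine Finset.prod_congr rfl fun i _ => ?_
      simp [n]
    · refine Finset.prod_congr rfl fun i _ => ?_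
      simp [n]
  have hval : ∀ y ∈ Pu, ∏ j, ξ y j ^ n j = y / (y1 * u) := by
    intro y hy
    obtain ⟨hyP', hyu⟩ := hPu y hy
    obtain ⟨hy0', -, -, -, -⟩ := hall y (hP' hyP')
    have h1 : CellG2_X (fun i => ξ y (true, i)) (p 0) ≠ 0 :=
      CellG2_ne (fun i => (hξ y hyP' _).1) _
    have h2 : CellG2_X (fun i => ξ y (false, i)) (p 1) ≠ 0 :=
      CellG2_ne (fun i => (hξ y hyP' _).1) _
    rw [hprod]
    rw [hyu]
    field_simp
  have key := ht Q (by rw [hQLN]; exact hη0)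
    (fun v hv => hln0 v (hQv v hv).1 (hQv v hv).2) n hn (1 / (y1 * u)) (Pu.image ξ) ?_
  · refine le_trans (le_of_eq ?_) key
    congr 1
    rw [Finset.coe_image, Set.image_image]
    have h1 : (fun y => ∏ j, ξ y j ^ n j) '' (Pu : Set K) =
        (fun y => y / (y1 * u)) '' (Pu : Set K) :=
      Set.image_congr fun y hy => hval y hy
    rw [h1, Set.ncard_image_of_injective, Set.ncard_coe_finset]
    intro a b hab
    have h2 : y1 * u ≠ 0 := mul_ne_zero hy10 hu
    exact (div_left_inj' h2).1 hab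
  · intro z hz
    obtain ⟨y, hy, rfl⟩ := Finset.mem_image.1 hz
    obtain ⟨hyP', hyu⟩ := hPu y hy
    have hyP := hP' hyP'
    obtain ⟨hya, hyb, hyd, -, -⟩ := hall y hyP
    refine ⟨fun j => ⟨(hξ y hyP' j).1, ?_⟩, fun v hv => ⟨fun j => ?_, ?_⟩⟩
    · refine (hξ y hyP' j).2.2.2.trans ?_
      nlinarith
    · have ho := (hξ y hyP' j).2.1 v
      have h1 : ∀ y' ∈ P, ord v (grp y' (if j.1 then 0 else 1)) ≤ 0 := by
        intro y' hy'
        have h2 := (hQy v hv y' hy').2.2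
        by_cases hj : j.1 = true
        · simp [hj, grp, h2]
        · simp only [hj]
          simp only [grp]
          simp [tc_ord_inv v (hall y' hy').1, h2]
      have hg : (if j.1 then (0 : Fin 3) else 1) ≠ 2 := by
        cases j.1 <;> decide
      rw [dec_vanish (grp_ne_zero hya hyb _) (hyd _ hg) (fun i => (hp _ hg i).1) (h1 y hyP),
        dec_vanish (grp_ne_zero hy10 hy11 _) ((hall y1 hy1P).2.2.1 _ hg)
          (fun i => (hp _ hg i).1) (h1 y1 hy1P)] at ho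
      exact (ord_eq_zero_iff v (hξ y hyP' j).1).1 (by simpa using ho)
    · rw [hval y hy]
      obtain ⟨hJy, hpos, hoy⟩ := hQy v hv y hyP
      have hoy1 := (hQy v hv y1 hy1P).2.2
      have h2 : y / (y1 * u) - 1 / (y1 * u) = (y - 1) / (y1 * u) := by ring
      have h3 : FinitePlace.mk v (y1 * u) = 1 := by
        rw [← ord_eq_zero_iff v (mul_ne_zero hy10 hu), pt_ord_mul v hy10 hu, hoy1, huo v]
        rfl
      have hy1' : y - 1 ≠ 0 := sub_ne_zero.2 hyb
      rw [h2, map_div₀, h3, div_one]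
      have h4 : 0 < FinitePlace.mk v (y - 1) := by
        rw [mk_eq_zpow v hy1']
        have := one_lt_norm v
        positivity
      rw [← Real.exp_log h4, log_mk v hy1', ← Real.exp_nat_mul, Real.exp_le_exp]
      have h5 : (J : ℝ) ≤ (ord v (y - 1) : ℝ) := by exact_mod_cast hJy
      have h6 : 0 < ln v := tc_ln_pos v
      unfold ln at h6 ⊢
      nlinarith

end Fibre

/-- the number of units, absorbed by the exponential -/
private theorem CellG2_units (K : Type*) [Field K] [NumberField K] {ε : ℝ} (hε : 0 < ε) {c : ℝ}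
    (hc : 0 ≤ c) : ∃ C : ℝ, 0 < C ∧ ∀ L : ℝ, 1 ≤ L →
      ((units_bdd K (1 + 2 * (c * L))).toFinset.card : ℝ) ≤ C * Real.exp (ε * L) := by
  obtain ⟨Cu, r, hCu, hu⟩ := units_count K
  obtain ⟨Ce, hCe, he⟩ := tc_poly_le_exp r 2 (by norm_num) (ε := ε / (c + 1)) (by positivity)
  refine ⟨Cu * Ce, by positivity, fun L hL => ?_⟩
  have hcL : 0 ≤ c * L := by positivity
  have h1 := hu (1 + 2 * (c * L)) (by positivity)
  rw [Set.ncard_eq_toFinset_card _ (units_bdd K (1 + 2 * (c * L)))] at h1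
  refine h1.trans ?_
  have h2 := he (c * L) hcL
  have h3 : 1 + (1 + 2 * (c * L)) = 2 * (c * L) + 2 := by ring
  rw [h3, mul_assoc]
  refine mul_le_mul_of_nonneg_left (h2.trans ?_) hCu.le
  refine mul_le_mul_of_nonneg_left (Real.exp_le_exp.2 ?_) hCe.le
  have h4 : ε / (c + 1) * (c * L) = ε * L * (c / (c + 1)) := by
    field_simp
  rw [h4]
  have h5 : c / (c + 1) ≤ 1 := by
    rw [div_le_one (by positivity)]
    linarith
  have h6 : 0 ≤ ε * L := by positivity
  nlinarith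

/-- the bound for one cell, when the exponents are at most `exp (δ L)` -/
private theorem CellG2_main (K : Type*) [Field K] [NumberField K] (ι : Type) [Fintype ι]
    (C1 ε η : ℝ) (hC1 : 0 ≤ C1) (hε : 0 < ε) (hη : 0 < η) :
    ∃ δ : ℝ, 0 < δ ∧ ∃ J : ℕ, 1 ≤ J ∧ ∀ κ1 : ℝ, 0 < κ1 →
      ∃ C : ℝ, 0 < C ∧ ∀ L : ℝ, 1 ≤ L → κ1 * L ≤ Real.exp (δ * L) →
      ∀ (T : Tool) (p : Fin 3 → ι → ℕ) (dv : K → Fin 3 → ι → (HeightOneSpectrum (𝓞 K) →₀ ℕ)),
      (∀ g, g ≠ 2 → ∀ i, 1 ≤ p g i ∧ (p g i : ℝ) ≤ κ1 * L) → (∀ n, n ∉ T.G → J ≤ n) →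
      ∀ (P : Finset K) (y0 : K), y0 ∈ P → SameData T P y0 →
      (∀ y ∈ P, y ≠ 0 ∧ y ≠ 1 ∧
        (∀ g, g ≠ 2 → DecOK (grp y g) (Fs T g) (p g) (dv y g) (C1 * L)) ∧
        η * L ≤ rd (y - 1) T.Gᶜ ∧
        ∀ v, 0 < ord v (y - 1) → (ord v (y - 1)).toNat ∉ T.G → ln v ≤ δ * L) →
      (P.card : ℝ) ≤ C * Real.exp (ε * L) := by
  classical
  obtain ⟨C0, hC0, hcls⟩ := bal_cls K (Bool × ι)
  obtain ⟨Cp, hCp, hP⟩ := hcls C1 (ε / 2) hC1 (by positivity)
  obtain ⟨δ, hδ, J, hJ, Ct, hCt, ht⟩ := tssEI K (Bool × ι) (C1 + C0) (ε / 4) η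
    (by positivity) (by positivity) hη
  refine ⟨δ, hδ, J, hJ, fun κ1 hκ1 => ?_⟩
  obtain ⟨Cu, hCu, hun⟩ := CellG2_units K (ε := ε / 4) (by positivity)
    (c := Fintype.card ι * κ1 * C0) (by positivity)
  refine ⟨Cp * (Cu * Ct), by positivity, ?_⟩
  intro L hL hκL T p dv hp hG P y0 hy0 hSD hall
  have hU := units_bdd K (1 + 2 * (Fintype.card ι * κ1 * C0 * L))
  set U : Finset K := hU.toFinset with hUdef
  have hUc : (U.card : ℝ) ≤ Cu * Real.exp (ε / 4 * L) := hun L hL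
  have hgg : ∀ b : Bool, (if b then (0 : Fin 3) else 1) ≠ 2 := by decide
  set dw : K → Bool × ι → (HeightOneSpectrum (𝓞 K) →₀ ℕ) := fun y i =>
    dv y (if i.1 then 0 else 1) i.2 with hdw
  have key := hP L hL P dw ?_ (U.card * (Ct * Real.exp (ε / 4 * L))) (by positivity) ?_
  · refine key.trans ?_
    have h1 : Real.exp (ε * L) = Real.exp (ε / 2 * L) *
        (Real.exp (ε / 4 * L) * Real.exp (ε / 4 * L)) := by
      rw [← Real.exp_add, ← Real.exp_add]
      congr 1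
      ring
    rw [h1]
    have h2 : 0 ≤ Cp * Real.exp (ε / 2 * L) := by positivity
    have h3 : U.card * (Ct * Real.exp (ε / 4 * L)) ≤
        Cu * Real.exp (ε / 4 * L) * (Ct * Real.exp (ε / 4 * L)) :=
      mul_le_mul_of_nonneg_right hUc (by positivity)
    refine (mul_le_mul_of_nonneg_left h3 h2).trans (le_of_eq ?_)
    ring
  · intro y hy i
    obtain ⟨h1, h2, h3, -, -⟩ := hall y hy
    exact (h3 _ (hgg i.1)).1 i.2
  · intro P' hP' y1 hy1 ξ hξ
    have hy1P := hP' hy1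
    obtain ⟨hy10, hy11, hd1, -, -⟩ := hall y1 hy1P
    -- the unit
    set ηu : K → K := fun y => y * CellG2_X (fun i => ξ y (false, i)) (p 1) /
        (y1 * CellG2_X (fun i => ξ y (true, i)) (p 0)) with hηu
    have hmem : ∀ y ∈ P', ηu y ∈ U := by
      intro y hy
      have hyP := hP' hy
      obtain ⟨hya, hyb, hyd, -, -⟩ := hall y hyP
      have hXt : CellG2_X (fun i => ξ y (true, i)) (p 0) ≠ 0 :=
        CellG2_ne (fun i => (hξ y hy _).1) _
      have hXf : CellG2_X (fun i => ξ y (false, i)) (p 1) ≠ 0 :=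
        CellG2_ne (fun i => (hξ y hy _).1) _
      have hne : ηu y ≠ 0 := div_ne_zero (mul_ne_zero hya hXf) (mul_ne_zero hy10 hXt)
      refine (Set.Finite.mem_toFinset hU).2 ⟨hne, fun v => ?_, fun w => ?_⟩
      · have o0 : ord v (CellG2_X (fun i => ξ y (true, i)) (p 0)) =
            (dpart y T.F0 v : ℤ) - dpart y1 T.F0 v := by
          have a0 := hyd 0 (by decide)
          have a1 := hd1 0 (by decide)
          refine CellG2_dpart (fun i => (hξ y hy _).1) (X := C1 * L) (D := dv y 0)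
            (D1 := dv y1 0) ?_ ?_ v fun i => ?_
          · simpa [Fs, grp] using a0
          · simpa [Fs, grp] using a1
          · have := (hξ y hy (true, i)).2.1 v
            simpa [hdw] using this
        have o1 : ord v (CellG2_X (fun i => ξ y (false, i)) (p 1)) =
            (dpart y⁻¹ T.F1 v : ℤ) - dpart y1⁻¹ T.F1 v := by
          have a0 := hyd 1 (by decide)
          have a1 := hd1 1 (by decide)
          refine CellG2_dpart (fun i => (hξ y hy _).1) (X := C1 * L) (D := dv y 1)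
            (D1 := dv y1 1) ?_ ?_ v fun i => ?_
          · simpa [Fs, grp] using a0
          · simpa [Fs, grp] using a1
          · have := (hξ y hy (false, i)).2.1 v
            simpa [hdw] using this
        have o2 := ord_diff T hya hy10 (v := v)
          (((hSD y hyP).1 v).trans ((hSD y1 hy1P).1 v).symm)
        rw [hηu]
        simp only
        rw [ord_div v (mul_ne_zero hya hXf) (mul_ne_zero hy10 hXt), pt_ord_mul v hya hXf,
          pt_ord_mul v hy10 hXt, o0, o1]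
        linarith
      · have e1 : Real.log (w (ηu y)) = (Real.log (w y) - Real.log (w y1)) +
            (Real.log (w (CellG2_X (fun i => ξ y (false, i)) (p 1))) -
              Real.log (w (CellG2_X (fun i => ξ y (true, i)) (p 0)))) := by
          have p1 := (w.pos_iff.2 hya).ne'
          have p2 := (w.pos_iff.2 hy10).ne'
          have p3 := (w.pos_iff.2 hXt).ne'
          have p4 := (w.pos_iff.2 hXf).ne'
          rw [hηu]
          simp only
          rw [map_div₀, map_mul, map_mul, Real.log_div (mul_ne_zero p1 p4) (mul_ne_zero p2 p3),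
            Real.log_mul p1 p4, Real.log_mul p2 p3]
          ring
        have e2 : |Real.log (w y) - Real.log (w y1)| ≤ 1 :=
          Cell.abs_sub_le_one (((hSD y hyP).2.2.1 w).trans ((hSD y1 hy1P).2.2.1 w).symm) rfl
        have e3 := CellG2_log (fun i => (hξ y hy (false, i)).1) (p 1)
          (fun i => (hp 1 (by decide) i).2) w (fun i => (hξ y hy (false, i)).2.2.1 w)
        have e4 := CellG2_log (fun i => (hξ y hy (true, i)).1) (p 0)
          (fun i => (hp 0 (by decide) i).2) w (fun i => (hξ y hy (true, i)).2.2.1 w)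
        have e5 : (Fintype.card ι : ℝ) * (κ1 * L) * C0 = Fintype.card ι * κ1 * C0 * L := by ring
        rw [e5] at e3 e4
        rw [e1]
        rw [abs_le] at e2 e3 e4 ⊢
        constructor <;> linarith [e2.1, e2.2, e3.1, e3.2, e4.1, e4.2]
    -- the fibres
    have hfib : ∀ u ∈ U, ((P'.filter fun y => ηu y = u).card : ℝ) ≤
        Ct * Real.exp (ε / 4 * L) := by
      intro u hu
      obtain ⟨hu0, huo, -⟩ := (Set.Finite.mem_toFinset hU).1 hu
      refine CellG2_fibre hL hC0.le (ht L hL) T p dv hp hκL hG P y0 hy0 hSD hall P' hP' y1 hy1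
        ξ hξ u hu0 huo _ fun y hy => ?_
      rw [Finset.mem_filter] at hy
      exact ⟨hy.1, hy.2.symm⟩
    have hsum : P'.card = ∑ u ∈ U, (P'.filter fun y => ηu y = u).card :=
      Finset.card_eq_sum_card_fiberwise fun y hy => hmem y hy
    rw [hsum]
    push_cast
    refine (Finset.sum_le_sum hfib).trans (le_of_eq ?_)
    rw [Finset.sum_const, nsmul_eq_mul]

/-- The bound for one cell by the theorem on congruences, general decompositions. -/
theorem cell_tssG (K : Type*) [Field K] [NumberField K] (ι : Type) [Fintype ι] (C1 ε η : ℝ)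
    (hC1 : 0 ≤ C1) (hε : 0 < ε) (hη : 0 < η) : ∃ δ : ℝ, 0 < δ ∧ ∃ J : ℕ, 1 ≤ J ∧ ∀ κ1 : ℝ,
      ∃ C : ℝ, 0 < C ∧ ∀ L : ℝ, 1 ≤ L →
      ∀ (T : Tool) (p : Fin 3 → ι → ℕ) (dv : K → Fin 3 → ι → (HeightOneSpectrum (𝓞 K) →₀ ℕ)),
      (∀ g, g ≠ 2 → ∀ i, 1 ≤ p g i ∧ (p g i : ℝ) ≤ κ1 * L) → (∀ n, n ∉ T.G → J ≤ n) →
      ∀ (P : Finset K) (y0 : K), y0 ∈ P → SameData T P y0 →
      (∀ y ∈ P, y ≠ 0 ∧ y ≠ 1 ∧ hgt y ≤ κ1 * L ∧
        (∀ g, g ≠ 2 → DecOK (grp y g) (Fs T g) (p g) (dv y g) (C1 * L)) ∧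
        η * L ≤ rd (y - 1) T.Gᶜ ∧
        ∀ v, 0 < ord v (y - 1) → (ord v (y - 1)).toNat ∉ T.G → ln v ≤ δ * L) →
      (P.card : ℝ) ≤ C * Real.exp (ε * L) := by
  classical
  obtain ⟨δ, hδ, J, hJ, h⟩ := CellG2_main K ι C1 ε η hC1 hε hη
  refine ⟨δ, hδ, J, hJ, fun κ1 => ?_⟩
  set κ : ℝ := max 1 κ1 with hκ
  have hκ0 : 0 < κ := lt_of_lt_of_le one_pos (le_max_left _ _)
  have hκ1 : κ1 ≤ κ := le_max_right _ _
  obtain ⟨C, hC, h'⟩ := h κ hκ0
  have hfin : ({x : K | hgt x ≤ κ * (2 * κ / δ ^ 2)} : Set K).Finite := by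
    refine (NumberField.finite_setOfPred_logHeight₁_le (K := K)
      (κ * (2 * κ / δ ^ 2))).subset ?_
    intro x hx
    show Height.logHeight₁ x ≤ _
    rw [← hgt_eq]
    exact hx
  refine ⟨C + hfin.toFinset.card, by positivity, ?_⟩
  intro L hL T p dv hp hG P y0 hy0 hSD hall
  have hL0 : 0 < L := lt_of_lt_of_le one_pos hL
  have hexp : 1 ≤ Real.exp (ε * L) := Real.one_le_exp (by positivity)
  by_cases hcase : κ * L ≤ Real.exp (δ * L)
  · refine (h' L hL hcase T p dv (fun g hg i => ⟨(hp g hg i).1, (hp g hg i).2.trans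
      (mul_le_mul_of_nonneg_right hκ1 hL0.le)⟩) hG P y0 hy0 hSD fun y hy => ?_).trans ?_
    · obtain ⟨h1, h2, -, h3⟩ := hall y hy
      exact ⟨h1, h2, h3⟩
    · refine mul_le_mul_of_nonneg_right ?_ (by positivity)
      have : (0 : ℝ) ≤ hfin.toFinset.card := Nat.cast_nonneg _
      linarith
  · have hLb : L ≤ 2 * κ / δ ^ 2 := by
      have h1 : (δ * L) ^ 2 / 2 ≤ Real.exp (δ * L) := by
        have := Real.pow_div_factorial_le_exp (δ * L) (by positivity) 2
        simpa [Nat.factorial] using this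
      have h2 : (δ * L) ^ 2 / 2 ≤ κ * L := h1.trans (not_le.1 hcase).le
      rw [le_div_iff₀ (by positivity)]
      have h3 : L * (L * δ ^ 2) ≤ L * (2 * κ) := by nlinarith
      exact le_of_mul_le_mul_left h3 hL0
    have hsub : P ⊆ hfin.toFinset := by
      intro y hy
      obtain ⟨-, -, h1, -⟩ := hall y hy
      rw [Set.Finite.mem_toFinset]
      show hgt y ≤ _
      calc hgt y ≤ κ1 * L := h1
        _ ≤ κ * L := mul_le_mul_of_nonneg_right hκ1 hL0.le
        _ ≤ _ := mul_le_mul_of_nonneg_left hLb hκ0.le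
    have h1 : (P.card : ℝ) ≤ hfin.toFinset.card := by
      exact_mod_cast Finset.card_le_card hsub
    have h2 : (0 : ℝ) ≤ hfin.toFinset.card := Nat.cast_nonneg _
    nlinarith

end Pool.Agent.MVD
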