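import Pool.Agent.MVD.TStarI
import Pool.Agent.MVD.TsPart
import Pool.Agent.MVD.BalCls

/-!
# Module CellTS (size 5)

`ι = Fin 3 × Option (Fin m)`; `C0` from `bal_cls K ι`; `κ0` from `tstarI K ι (C1 + C0) (ε/2)`. Given `κ1, E`: `B1 = 1 + 2 * card (Option (Fin m)) * (max 1 E) * C0`, `U` = the finite set `units_bdd K B1` (AbcF/Balanced); `Cp` from
`bal_cls` (`C1`, `ε/2`), `Ct` from `tstarI` for `κ1`. If `exp L < E` (then `L < log E`): all `y ∈ P` have `hgt y ≤ κ1 log E`-ish, finitely many (Northcott, `NumberField.finite_setOfPred_logHeight₁_le`, `hgt_eq`), constant. Otherwise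
(`E ≤ exp L`, also `1 ≤ exp L`) use `bal_cls` with `dv y (g, i) = dvi (grp y g) (Fs T g) (ex g) i` (`LD ≤ C1 L` by `LD_dvi_le`). In a class (`P', y1, ξ`): put `X_g y = ∏_i (ξ y (g,i)) ^ wi (ex g) i`; `ord v (X_g y) = ∑ wi * (dvi y - dvi y1) = dpart (grp y g) (Fs T g) v - dpart (grp y1 g) ..`
(`dvi_sum`; `pt_ord_prod`-like, `pt_ord_pow`). By `ord_diff`, `ord_diff1` the elements `η y = y * X_1 / (y1 * X_0)` and `η' y = (y - 1) * X_1 / ((y1 - 1) * X_2)` have `ord v = 0` for all `v`. Their archimedean logarithms are at most `B1` in absolute value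
(`SameData` for `y` and `y1` by transitivity through `y0`: `Cell.abs_sub_le_one`; `|log (w ξ)| ≤ C0`, `wi ≤ max 1 E`), so `η y, η' y ∈ U`. For fixed `(η, η') ∈ U × U` the points `ξ y ∈ (ι → K)` satisfy, with `a = y1 η`, `b = -(y1 - 1) η'` and the
exponent vectors `p, q, s` = `wi` on the group 0, 2, 1 (0 elsewhere; `Fintype.prod_prod_type`, `Fin.prod_univ_three`): `a X_0 + b X_2 = X_1` because `y X_1 - (y-1) X_1 = X_1`, and `a X_0 / X_1 = y`. So `tstarI` (heights of the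
coordinates at most `C1 L + C0 ≤ (C1 + C0) L`) bounds the number of these `y` (the values `a X_0/X_1 = y` are all of them). Total: `Cp exp (ε/2 L) * (card U)^2 * Ct exp (ε/2 L)`.
-/

namespace Pool.Agent.MVD

open NumberField IsDedekindDomain Pool.Agent.H7.Abc Pool.Agent.AbcE Pool.Agent.AbcF

/-- the monomial of the group `g` -/
private noncomputable def cellTS_X {K : Type*} [Field K] {m : ℕ} (ex : Fin 3 → Fin m → ℕ)
    (x : Fin 3 × Option (Fin m) → K) (g : Fin 3) : K := ∏ i, x (g, i) ^ wi (ex g) i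

private theorem cellTS_X_ne {K : Type*} [Field K] {m : ℕ} (ex : Fin 3 → Fin m → ℕ)
    {x : Fin 3 × Option (Fin m) → K} (hx : ∀ i, x i ≠ 0) (g : Fin 3) : cellTS_X ex x g ≠ 0 :=
  Finset.prod_ne_zero_iff.2 fun i _ => pow_ne_zero _ (hx (g, i))

private theorem cellTS_ord_prod {K : Type*} [Field K] [NumberField K]
    (v : HeightOneSpectrum (𝓞 K)) {α : Type*} (s : Finset α) (f : α → K)
    (hf : ∀ n ∈ s, f n ≠ 0) : ord v (∏ n ∈ s, f n) = ∑ n ∈ s, ord v (f n) := by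
  classical
  induction s using Finset.induction_on with
  | empty => rw [Finset.prod_empty, Finset.sum_empty, pt_ord_one]
  | insert a s ha ih =>
    have h1 : ∀ n ∈ s, f n ≠ 0 := fun n hn => hf n (Finset.mem_insert_of_mem hn)
    rw [Finset.prod_insert ha, Finset.sum_insert ha,
      pt_ord_mul v (hf a (Finset.mem_insert_self _ _)) (Finset.prod_ne_zero_iff.2 h1), ih h1]

private theorem cellTS_ord_X {K : Type*} [Field K] [NumberField K] {m : ℕ}
    {ex : Fin 3 → Fin m → ℕ} {T : Tool} {E : ℕ} (hex : ∀ g, ExOK (Fs T g) (ex g) E) {y y1 : K}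
    (hy : ∀ g, grp y g ≠ 0) (hy1 : ∀ g, grp y1 g ≠ 0) {x : Fin 3 × Option (Fin m) → K}
    (hx : ∀ i, x i ≠ 0) (v : HeightOneSpectrum (𝓞 K))
    (ho : ∀ i : Fin 3 × Option (Fin m), ord v (x i) =
      (dvi (grp y i.1) (Fs T i.1) (ex i.1) i.2 v : ℤ) -
        (dvi (grp y1 i.1) (Fs T i.1) (ex i.1) i.2 v : ℤ)) (g : Fin 3) :
    ord v (cellTS_X ex x g) = (dpart (grp y g) (Fs T g) v : ℤ) - dpart (grp y1 g) (Fs T g) v := by
  unfold cellTS_X
  rw [cellTS_ord_prod v _ _ fun i _ => pow_ne_zero _ (hx (g, i))]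
  rw [← dvi_sum (hy g) (hex g) v, ← dvi_sum (hy1 g) (hex g) v]
  push_cast
  rw [← Finset.sum_sub_distrib]
  refine Finset.sum_congr rfl fun i _ => ?_
  rw [pt_ord_pow v (hx (g, i)), ho (g, i)]
  ring

private theorem cellTS_log_prod {K : Type*} [Field K] [NumberField K] {α : Type*} (s : Finset α)
    (f : α → K) {B : ℝ} (w : InfinitePlace K) (h0 : ∀ i ∈ s, f i ≠ 0)
    (h : ∀ i ∈ s, |Real.log (w (f i))| ≤ B) :
    |Real.log (w (∏ i ∈ s, f i))| ≤ s.card * B := by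
  classical
  induction s using Finset.induction_on with
  | empty => simp
  | insert a s ha ih =>
    have h1 : ∀ n ∈ s, f n ≠ 0 := fun n hn => h0 n (Finset.mem_insert_of_mem hn)
    have h2 := ih h1 fun i hi => h i (Finset.mem_insert_of_mem hi)
    have h3 := h a (Finset.mem_insert_self _ _)
    have p1 : w (f a) ≠ 0 := (InfinitePlace.pos_iff.2 (h0 a (Finset.mem_insert_self _ _))).ne'
    have p2 : w (∏ i ∈ s, f i) ≠ 0 :=
      (InfinitePlace.pos_iff.2 (Finset.prod_ne_zero_iff.2 h1)).ne'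
    rw [Finset.prod_insert ha, Finset.card_insert_of_notMem ha, map_mul, Real.log_mul p1 p2]
    push_cast
    have h4 := abs_add_le (Real.log (w (f a))) (Real.log (w (∏ i ∈ s, f i)))
    linarith

private theorem cellTS_wi_le {m : ℕ} {A : Set ℕ} {ex : Fin m → ℕ} {E : ℕ} (h : ExOK A ex E)
    (i : Option (Fin m)) : (wi ex i : ℝ) ≤ max 1 (E : ℝ) := by
  cases i with
  | none => exact (by simp [wi] : (wi ex none : ℝ) ≤ 1).trans (le_max_left _ _)
  | some k =>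
    refine le_trans ?_ (le_max_right _ _)
    have := h.1 k
    simp only [wi]
    exact_mod_cast this

private theorem cellTS_log_X {K : Type*} [Field K] [NumberField K] {m : ℕ}
    {ex : Fin 3 → Fin m → ℕ} {T : Tool} {E : ℕ} (hex : ∀ g, ExOK (Fs T g) (ex g) E)
    {x : Fin 3 × Option (Fin m) → K} (hx : ∀ i, x i ≠ 0) (w : InfinitePlace K) {C0 : ℝ}
    (hC0 : 0 < C0) (hw : ∀ i, |Real.log (w (x i))| ≤ C0) (g : Fin 3) :
    |Real.log (w (cellTS_X ex x g))| ≤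
      (Fintype.card (Option (Fin m)) : ℝ) * (max 1 (E : ℝ) * C0) := by
  unfold cellTS_X
  rw [← Finset.card_univ]
  refine cellTS_log_prod _ _ w (fun i _ => pow_ne_zero _ (hx (g, i))) fun i _ => ?_
  rw [map_pow, Real.log_pow, abs_mul, Nat.abs_cast]
  exact mul_le_mul (cellTS_wi_le (hex g) i) (hw (g, i)) (abs_nonneg _)
    (le_trans zero_le_one (le_max_left _ _))

private theorem cellTS_grp {K : Type*} [Field K] {y : K} (hy : y ≠ 0) (hy1 : y ≠ 1) (g : Fin 3) :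
    grp y g ≠ 0 := by
  unfold grp
  split_ifs
  · exact hy
  · exact inv_ne_zero hy
  · exact sub_ne_zero.2 hy1

/-- the exponent vectors -/
private def cellTS_ev {m : ℕ} (ex : Fin 3 → Fin m → ℕ) (g : Fin 3)
    (i : Fin 3 × Option (Fin m)) : ℕ := if i.1 = g then wi (ex g) i.2 else 0

private theorem cellTS_ev_prod {K : Type*} [Field K] {m : ℕ} (ex : Fin 3 → Fin m → ℕ)
    (x : Fin 3 × Option (Fin m) → K) (g : Fin 3) :
    ∏ i, x i ^ cellTS_ev ex g i = cellTS_X ex x g := by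
  classical
  unfold cellTS_ev cellTS_X
  rw [Fintype.prod_prod_type, Finset.prod_eq_single g]
  · simp
  · intro b _ hb
    simp [hb]
  · intro h; exact absurd (Finset.mem_univ _) h

private theorem cellTS_ev_le {m : ℕ} {ex : Fin 3 → Fin m → ℕ} {T : Tool} {E : ℕ}
    (hex : ∀ g, ExOK (Fs T g) (ex g) E) {L : ℝ} (hL : 1 ≤ L) (hE : (E : ℝ) ≤ Real.exp L)
    (g : Fin 3) (i : Fin 3 × Option (Fin m)) : (cellTS_ev ex g i : ℝ) ≤ Real.exp L := by
  have h1 : (1 : ℝ) ≤ Real.exp L := by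
    rw [Real.one_le_exp_iff]; linarith
  unfold cellTS_ev
  split_ifs
  · exact (cellTS_wi_le (hex g) i.2).trans (max_le h1 hE)
  · rw [Nat.cast_zero]; positivity

private theorem cellTS_fin (K : Type*) [Field K] [NumberField K] (D : ℝ) :
    {x : K | hgt x ≤ D}.Finite := by
  refine (NumberField.finite_setOfPred_logHeight₁_le K D).subset ?_
  intro x hx
  have h1 : hgt x ≤ D := hx
  rw [hgt_eq] at h1
  exact h1

/-- One class. -/
private theorem cellTS_class {K : Type*} [Field K] [NumberField K] {m : ℕ} {T : Tool}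
    {ex : Fin 3 → Fin m → ℕ} {E : ℕ} (hex : ∀ g, ExOK (Fs T g) (ex g) E) {C0 B1 : ℝ}
    (hC0 : 0 < C0)
    (hB1 : 1 + 2 * ((Fintype.card (Option (Fin m)) : ℝ) * (max 1 (E : ℝ) * C0)) ≤ B1)
    (U : Finset K)
    (hU : ∀ η : K, η ≠ 0 → (∀ v : HeightOneSpectrum (𝓞 K), ord v η = 0) →
      (∀ w : InfinitePlace K, |Real.log (w η)| ≤ B1) → η ∈ U)
    {P : Finset K} {y1 : K} (hy1 : y1 ∈ P) (hP : ∀ y ∈ P, y ≠ 0 ∧ y ≠ 1)
    (hS : ∀ y ∈ P, (∀ v, kf T y v = kf T y1 v) ∧ (∀ v, jf T y v = jf T y1 v) ∧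
      (∀ w : InfinitePlace K, |Real.log (w y) - Real.log (w y1)| ≤ 1) ∧
      (∀ w : InfinitePlace K, |Real.log (w (y - 1)) - Real.log (w (y1 - 1))| ≤ 1))
    (ξ : K → Fin 3 × Option (Fin m) → K)
    (hξ : ∀ y ∈ P, ∀ i, ξ y i ≠ 0 ∧ (∀ v, ord v (ξ y i) =
      (dvi (grp y i.1) (Fs T i.1) (ex i.1) i.2 v : ℤ) -
        (dvi (grp y1 i.1) (Fs T i.1) (ex i.1) i.2 v : ℤ)) ∧
      (∀ w : InfinitePlace K, |Real.log (w (ξ y i))| ≤ C0))
    {N : ℝ}
    (hN : ∀ (a b : K) (R : Finset K), R ⊆ P → (∀ y ∈ R,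
      a * cellTS_X ex (ξ y) 0 + b * cellTS_X ex (ξ y) 2 = cellTS_X ex (ξ y) 1 ∧
      a * cellTS_X ex (ξ y) 0 / cellTS_X ex (ξ y) 1 = y) → (R.card : ℝ) ≤ N) :
    (P.card : ℝ) ≤ (U.card : ℝ) * U.card * N := by
  classical
  have hN0 : 0 ≤ N := by
    have := hN 0 0 ∅ (Finset.empty_subset _) (by simp)
    simpa using this
  have hy10 := (hP y1 hy1).1
  have hy11 := (hP y1 hy1).2
  have hy1g : ∀ g, grp y1 g ≠ 0 := cellTS_grp hy10 hy11
  have hX : ∀ y ∈ P, ∀ g, cellTS_X ex (ξ y) g ≠ 0 := fun y hy g =>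
    cellTS_X_ne ex (fun i => (hξ y hy i).1) g
  have hXo : ∀ y ∈ P, ∀ g v, ord v (cellTS_X ex (ξ y) g) =
      (dpart (grp y g) (Fs T g) v : ℤ) - dpart (grp y1 g) (Fs T g) v := fun y hy g v =>
    cellTS_ord_X hex (cellTS_grp (hP y hy).1 (hP y hy).2) hy1g (fun i => (hξ y hy i).1) v
      (fun i => (hξ y hy i).2.1 v) g
  have hXl : ∀ y ∈ P, ∀ g (w : InfinitePlace K), |Real.log (w (cellTS_X ex (ξ y) g))| ≤
      (Fintype.card (Option (Fin m)) : ℝ) * (max 1 (E : ℝ) * C0) := fun y hy g w =>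
    cellTS_log_X hex (fun i => (hξ y hy i).1) w hC0 (fun i => (hξ y hy i).2.2 w) g
  obtain ⟨η, hη⟩ : ∃ η : K → K, ∀ y, η y = y * cellTS_X ex (ξ y) 1 / (y1 * cellTS_X ex (ξ y) 0) :=
    ⟨_, fun _ => rfl⟩
  obtain ⟨θ, hθ⟩ : ∃ θ : K → K, ∀ y, θ y =
      (y - 1) * cellTS_X ex (ξ y) 1 / ((y1 - 1) * cellTS_X ex (ξ y) 2) :=
    ⟨_, fun _ => rfl⟩
  have hs1 : y1 - 1 ≠ 0 := sub_ne_zero.2 hy11
  have hlog : ∀ (a b c d : K) (w : InfinitePlace K), a ≠ 0 → b ≠ 0 → c ≠ 0 → d ≠ 0 →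
      |Real.log (w a) - Real.log (w c)| ≤ 1 →
      |Real.log (w b)| ≤ (Fintype.card (Option (Fin m)) : ℝ) * (max 1 (E : ℝ) * C0) →
      |Real.log (w d)| ≤ (Fintype.card (Option (Fin m)) : ℝ) * (max 1 (E : ℝ) * C0) →
      |Real.log (w (a * b / (c * d)))| ≤ B1 := by
    intro a b c d w ha hb hc hd h1 h2 h3
    have p1 : w a ≠ 0 := (InfinitePlace.pos_iff.2 ha).ne'
    have p2 : w b ≠ 0 := (InfinitePlace.pos_iff.2 hb).ne'
    have p3 : w c ≠ 0 := (InfinitePlace.pos_iff.2 hc).ne'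
    have p4 : w d ≠ 0 := (InfinitePlace.pos_iff.2 hd).ne'
    rw [map_div₀, map_mul, map_mul, Real.log_div (mul_ne_zero p1 p2) (mul_ne_zero p3 p4),
      Real.log_mul p1 p2, Real.log_mul p3 p4]
    have e1 := abs_le.1 h1
    have e2 := abs_le.1 h2
    have e3 := abs_le.1 h3
    rw [abs_le]
    constructor <;> linarith [e1.1, e1.2, e2.1, e2.2, e3.1, e3.2]
  have hηU : ∀ y ∈ P, η y ∈ U := by
    intro y hy
    have hy0 := (hP y hy).1
    rw [hη]
    refine hU _ (div_ne_zero (mul_ne_zero hy0 (hX y hy 1)) (mul_ne_zero hy10 (hX y hy 0)))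
      (fun v => ?_) (fun w => ?_)
    · rw [ord_div v (mul_ne_zero hy0 (hX y hy 1)) (mul_ne_zero hy10 (hX y hy 0)),
        pt_ord_mul v hy0 (hX y hy 1), pt_ord_mul v hy10 (hX y hy 0), hXo y hy 1 v, hXo y hy 0 v]
      have h1 := ord_diff T hy0 hy10 ((hS y hy).1 v)
      simp only [grp, Fs, Fin.isValue, one_ne_zero, if_true, if_false, ↓reduceIte] at *
      linarith
    · exact hlog _ _ _ _ w hy0 (hX y hy 1) hy10 (hX y hy 0) ((hS y hy).2.2.1 w)
        (hXl y hy 1 w) (hXl y hy 0 w)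
  have hθU : ∀ y ∈ P, θ y ∈ U := by
    intro y hy
    have hy0 := (hP y hy).1
    have hy0' := (hP y hy).2
    have hs : y - 1 ≠ 0 := sub_ne_zero.2 hy0'
    rw [hθ]
    refine hU _ (div_ne_zero (mul_ne_zero hs (hX y hy 1)) (mul_ne_zero hs1 (hX y hy 2)))
      (fun v => ?_) (fun w => ?_)
    · rw [ord_div v (mul_ne_zero hs (hX y hy 1)) (mul_ne_zero hs1 (hX y hy 2)),
        pt_ord_mul v hs (hX y hy 1), pt_ord_mul v hs1 (hX y hy 2), hXo y hy 1 v, hXo y hy 2 v]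
      have h1 := ord_diff1 T hy0 hy0' hy10 hy11 ((hS y hy).1 v) ((hS y hy).2.1 v)
      have e1 : grp y 1 = y⁻¹ := by simp [grp]
      have e2 : grp y1 1 = y1⁻¹ := by simp [grp]
      have e3 : grp y 2 = y - 1 := by simp [grp]
      have e4 : grp y1 2 = y1 - 1 := by simp [grp]
      have e5 : Fs T 1 = T.F1 := by simp [Fs]
      have e6 : Fs T 2 = T.G := by simp [Fs]
      rw [e1, e2, e3, e4, e5, e6]
      linarith
    · exact hlog _ _ _ _ w hs (hX y hy 1) hs1 (hX y hy 2) ((hS y hy).2.2.2 w)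
        (hXl y hy 1 w) (hXl y hy 2 w)
  have hcard : P.card = ∑ t ∈ U ×ˢ U, (P.filter (fun y => (η y, θ y) = t)).card :=
    Finset.card_eq_sum_card_fiberwise (f := fun y => (η y, θ y)) (t := U ×ˢ U) fun y hy =>
      Finset.mem_coe.2 (Finset.mem_product.2
        ⟨hηU y (Finset.mem_coe.1 hy), hθU y (Finset.mem_coe.1 hy)⟩)
  rw [hcard, Nat.cast_sum]
  have hb : ∀ t ∈ U ×ˢ U, ((P.filter (fun y => (η y, θ y) = t)).card : ℝ) ≤ N := by
    rintro ⟨u, u'⟩ _
    refine hN (y1 * u) (-((y1 - 1) * u')) _ (Finset.filter_subset _ _) fun y hy => ?_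
    rw [Finset.mem_filter] at hy
    obtain ⟨hyP, hyt⟩ := hy
    rw [Prod.mk.injEq] at hyt
    obtain ⟨h1, h2⟩ := hyt
    rw [hη] at h1
    rw [hθ] at h2
    have q0 := hX y hyP 0
    have q1 := hX y hyP 1
    have q2 := hX y hyP 2
    have k1 : y1 * u * cellTS_X ex (ξ y) 0 = y * cellTS_X ex (ξ y) 1 := by
      rw [← h1]
      field_simp
    have k2 : (y1 - 1) * u' * cellTS_X ex (ξ y) 2 = (y - 1) * cellTS_X ex (ξ y) 1 := by
      rw [← h2]
      field_simp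
    refine ⟨?_, ?_⟩
    · rw [neg_mul, k1, k2]
      ring
    · rw [k1]
      field_simp
  calc ∑ t ∈ U ×ˢ U, ((P.filter (fun y => (η y, θ y) = t)).card : ℝ)
      ≤ ∑ t ∈ U ×ˢ U, N := Finset.sum_le_sum hb
    _ = (U.card : ℝ) * U.card * N := by
        rw [Finset.sum_const, Finset.card_product, nsmul_eq_mul]
        push_cast
        ring

/-- The bound for one cell by the theorem on values of large height. -/
theorem cell_ts (K : Type*) [Field K] [NumberField K] (m : ℕ) (C1 ε : ℝ) (hC1 : 0 ≤ C1)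
    (hε : 0 < ε) : ∃ κ0 : ℝ, 1 ≤ κ0 ∧ ∀ (κ1 : ℝ) (E : ℕ), ∃ C : ℝ, 0 < C ∧ ∀ L : ℝ, 1 ≤ L →
      ∀ (T : Tool) (ex : Fin 3 → Fin m → ℕ), (∀ g, ExOK (Fs T g) (ex g) E) →
      ∀ (P : Finset K) (y0 : K), y0 ∈ P → SameData T P y0 →
      (∀ y ∈ P, y ≠ 0 ∧ y ≠ 1 ∧ κ0 * L ≤ hgt y ∧ hgt y ≤ κ1 * L ∧
        ∀ g, SzOK (grp y g) (Fs T g) (ex g) (C1 * L)) →
      (P.card : ℝ) ≤ C * Real.exp (ε * L) := by
  classical
  obtain ⟨C0, hC0, hbal⟩ := bal_cls K (Fin 3 × Option (Fin m))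
  obtain ⟨κ0, hκ0, hts⟩ := tstarI K (Fin 3 × Option (Fin m)) (C1 + C0) (ε / 2) (by positivity)
  refine ⟨κ0, hκ0, fun κ1 E => ?_⟩
  obtain ⟨B1, hB1⟩ : ∃ B1 : ℝ, B1 = 1 + 2 * ((Fintype.card (Option (Fin m)) : ℝ) *
    (max 1 (E : ℝ) * C0)) := ⟨_, rfl⟩
  obtain ⟨U, hU⟩ : ∃ U : Finset K, ∀ η : K, η ≠ 0 →
      (∀ v : HeightOneSpectrum (𝓞 K), ord v η = 0) →
      (∀ w : InfinitePlace K, |Real.log (w η)| ≤ B1) → η ∈ U :=
    ⟨(units_bdd K B1).toFinset, fun η h1 h2 h3 => by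
      rw [Set.Finite.mem_toFinset]
      exact ⟨h1, h2, h3⟩⟩
  obtain ⟨Cp, hCp, hcls⟩ := hbal C1 (ε / 2) hC1 (by positivity)
  obtain ⟨Ct, hCt, htsL⟩ := hts κ1
  obtain ⟨F, hF⟩ : ∃ F : Finset K, ∀ x : K, x ∈ F ↔ hgt x ≤ |κ1| * Real.log E :=
    ⟨(cellTS_fin K (|κ1| * Real.log E)).toFinset, fun x => by simp⟩
  refine ⟨1 + F.card + Cp * ((U.card : ℝ) * U.card * Ct), by positivity, ?_⟩
  intro L hL T ex hex P y0 hy0 hSD hP
  have hexp : 1 ≤ Real.exp (ε * L) := by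
    rw [Real.one_le_exp_iff]; positivity
  have hc0 : 0 ≤ Cp * ((U.card : ℝ) * U.card * Ct) := by positivity
  by_cases hE : Real.exp L < (E : ℝ)
  · -- bounded `L`
    have h1 : P ⊆ F := by
      intro y hy
      rw [hF]
      obtain ⟨-, -, -, h2, -⟩ := hP y hy
      have h3 : L ≤ Real.log E := by
        rw [Real.le_log_iff_exp_le (lt_trans (Real.exp_pos _) hE)]
        exact hE.le
      calc hgt y ≤ κ1 * L := h2
        _ ≤ |κ1| * L := mul_le_mul_of_nonneg_right (le_abs_self _) (by linarith)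
        _ ≤ |κ1| * Real.log E := mul_le_mul_of_nonneg_left h3 (abs_nonneg _)
    have h2 : (P.card : ℝ) ≤ F.card := by exact_mod_cast Finset.card_le_card h1
    refine h2.trans ?_
    have h4 : (0 : ℝ) ≤ (F.card : ℝ) := by positivity
    nlinarith
  · rw [not_lt] at hE
    have hA0 : 0 ≤ (U.card : ℝ) * U.card * (Ct * Real.exp (ε / 2 * L)) := by positivity
    have hmain := hcls L hL P (fun y i => dvi (grp y i.1) (Fs T i.1) (ex i.1) i.2)
      (fun y hy i => LD_dvi_le (cellTS_grp (hP y hy).1 (hP y hy).2.1 i.1)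
        ((hP y hy).2.2.2.2 i.1) i.2) _ hA0 ?_
    · refine hmain.trans ?_
      calc Cp * Real.exp (ε / 2 * L) * ((U.card : ℝ) * U.card * (Ct * Real.exp (ε / 2 * L)))
          = Cp * ((U.card : ℝ) * U.card * Ct) * (Real.exp (ε / 2 * L) * Real.exp (ε / 2 * L)) := by
            ring
        _ = Cp * ((U.card : ℝ) * U.card * Ct) * Real.exp (ε * L) := by
            rw [← Real.exp_add]
            congr 2
            ring
        _ ≤ (1 + F.card + Cp * ((U.card : ℝ) * U.card * Ct)) * Real.exp (ε * L) := by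
            refine mul_le_mul_of_nonneg_right ?_ (Real.exp_nonneg _)
            have h4 : (0 : ℝ) ≤ (F.card : ℝ) := by positivity
            linarith
    · intro P' hP' y1 hy1 ξ hξ
      have hS1 := hSD y1 (hP' hy1)
      refine cellTS_class hex hC0 hB1.ge U hU hy1
        (fun y hy => ⟨(hP y (hP' hy)).1, (hP y (hP' hy)).2.1⟩) (fun y hy => ?_) ξ
        (fun y hy i => ⟨(hξ y hy i).1, (hξ y hy i).2.1, (hξ y hy i).2.2.1⟩) (fun a b R hR hRy => ?_)
      · have hS := hSD y (hP' hy)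
        refine ⟨fun v => (hS.1 v).trans (hS1.1 v).symm, fun v => (hS.2.1 v).trans (hS1.2.1 v).symm,
          fun w => Cell.abs_sub_le_one (hS.2.2.1 w) (hS1.2.2.1 w),
          fun w => Cell.abs_sub_le_one (hS.2.2.2 w) (hS1.2.2.2 w)⟩
      · have h1 := htsL L hL a b (cellTS_ev ex 0) (cellTS_ev ex 2) (cellTS_ev ex 1)
          (fun j => ⟨cellTS_ev_le hex hL hE 0 j, cellTS_ev_le hex hL hE 2 j,
            cellTS_ev_le hex hL hE 1 j⟩) (R.image ξ) (fun x hx => by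
              rw [Finset.mem_image] at hx
              obtain ⟨y, hy, rfl⟩ := hx
              have hyP' := hR hy
              obtain ⟨e1, e2⟩ := hRy y hy
              rw [cellTS_ev_prod, cellTS_ev_prod, cellTS_ev_prod, e2]
              refine ⟨fun j => ⟨(hξ y hyP' j).1, (hξ y hyP' j).2.2.2.trans ?_⟩, e1,
                (hP y (hP' hyP')).2.2.1, (hP y (hP' hyP')).2.2.2.1⟩
              nlinarith)
        refine le_trans ?_ h1
        have h2 : (R : Set K) ⊆ ((fun P : Fin 3 × Option (Fin m) → K =>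
            a * (∏ j, P j ^ cellTS_ev ex 0 j) / ∏ j, P j ^ cellTS_ev ex 1 j) ''
              ((R.image ξ : Finset (Fin 3 × Option (Fin m) → K)) :
                Set (Fin 3 × Option (Fin m) → K))) := by
          intro y hy
          refine ⟨ξ y, Finset.mem_coe.2 (Finset.mem_image.2 ⟨y, Finset.mem_coe.1 hy, rfl⟩), ?_⟩
          show a * (∏ j, ξ y j ^ cellTS_ev ex 0 j) / ∏ j, ξ y j ^ cellTS_ev ex 1 j = y
          rw [cellTS_ev_prod, cellTS_ev_prod]
          exact (hRy y (Finset.mem_coe.1 hy)).2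
        have h3 := Set.ncard_le_ncard h2 ((Finset.finite_toSet _).image _)
        rw [Set.ncard_coe_finset] at h3
        exact_mod_cast h3

end Pool.Agent.MVD
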