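import Pool.Agent.MVD.Tss
import Pool.Agent.MVD.TsPart
import Pool.Agent.MVD.BalCls

/-!
# Module CellTSS (size 5)

The bound for one cell by the theorem on congruences.
-/

namespace Pool.Agent.MVD

open NumberField IsDedekindDomain Pool.Agent.H7.Abc Pool.Agent.AbcE Pool.Agent.AbcF

variable {K : Type*} [Field K] [NumberField K]

private noncomputable def cxX {m : ℕ} (z : Option (Fin m) → K) (e : Fin m → ℕ) : K :=
  ∏ i, z i ^ wi e i

private theorem cxX_ne {m : ℕ} {z : Option (Fin m) → K} (hz : ∀ i, z i ≠ 0) (e : Fin m → ℕ) :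
    cxX z e ≠ 0 :=
  Finset.prod_ne_zero_iff.2 fun i _ => pow_ne_zero _ (hz i)

private theorem cx_ord_prod {ι : Type*} (v : HeightOneSpectrum (𝓞 K)) (s : Finset ι) (f : ι → K)
    (hf : ∀ i, f i ≠ 0) : ord v (∏ i ∈ s, f i) = ∑ i ∈ s, ord v (f i) := by
  classical
  induction s using Finset.induction_on with
  | empty => simpa using pt_ord_one (K := K) v
  | insert a s ha ih =>
    rw [Finset.prod_insert ha, Finset.sum_insert ha,
      pt_ord_mul v (hf a) (Finset.prod_ne_zero_iff.2 fun i _ => hf i), ih]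

private theorem cxX_ord {m : ℕ} {z : Option (Fin m) → K} (hz : ∀ i, z i ≠ 0) (e : Fin m → ℕ)
    (v : HeightOneSpectrum (𝓞 K)) : ord v (cxX z e) = ∑ i, (wi e i : ℤ) * ord v (z i) := by
  unfold cxX
  rw [cx_ord_prod v _ _ fun i => pow_ne_zero _ (hz i)]
  exact Finset.sum_congr rfl fun i _ => pt_ord_pow v (hz i) _

private theorem cx_wi {m : ℕ} (e : Fin m → ℕ) {E : ℕ} (he : ∀ k, e k ≤ E)
    (i : Option (Fin m)) : wi e i ≤ max 1 E := by
  cases i with
  | none => simp [wi]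
  | some k => exact (he k).trans (le_max_right _ _)

private theorem cx_log_prod {ι : Type*} (w : InfinitePlace K) (s : Finset ι) (f : ι → K)
    (hf : ∀ i, f i ≠ 0) : Real.log (w (∏ i ∈ s, f i)) = ∑ i ∈ s, Real.log (w (f i)) := by
  rw [map_prod, Real.log_prod]
  intro i _
  exact (w.pos_iff.2 (hf i)).ne'

private theorem cxX_log {m : ℕ} {z : Option (Fin m) → K} (hz : ∀ i, z i ≠ 0) (e : Fin m → ℕ)
    {E : ℕ} (he : ∀ k, e k ≤ E) (w : InfinitePlace K) {C0 : ℝ}
    (hw : ∀ i, |Real.log (w (z i))| ≤ C0) :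
    |Real.log (w (cxX z e))| ≤ (m + 1) * ((max 1 E : ℕ) : ℝ) * C0 := by
  unfold cxX
  rw [cx_log_prod w _ _ fun i => pow_ne_zero _ (hz i)]
  refine (Finset.abs_sum_le_sum_abs _ _).trans ?_
  have h1 : ∀ i ∈ (Finset.univ : Finset (Option (Fin m))),
      |Real.log (w (z i ^ wi e i))| ≤ ((max 1 E : ℕ) : ℝ) * C0 := by
    intro i _
    rw [map_pow, Real.log_pow, abs_mul, Nat.abs_cast]
    have h2 : ((wi e i : ℕ) : ℝ) ≤ ((max 1 E : ℕ) : ℝ) := by exact_mod_cast cx_wi e he i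
    have h3 := abs_nonneg (Real.log (w (z i)))
    exact mul_le_mul h2 (hw i) h3 (by positivity)
  refine (Finset.sum_le_sum h1).trans (le_of_eq ?_)
  rw [Finset.sum_const, Finset.card_univ, Fintype.card_option, Fintype.card_fin, nsmul_eq_mul]
  push_cast
  ring

/-- the order of the product, from the divisors -/
private theorem cxX_dpart {m : ℕ} {z : Option (Fin m) → K} (hz : ∀ i, z i ≠ 0)
    {e : Fin m → ℕ} {A : Set ℕ} {E : ℕ} (he : ExOK A e E) {x x1 : K} (hx : x ≠ 0) (hx1 : x1 ≠ 0)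
    (v : HeightOneSpectrum (𝓞 K))
    (h : ∀ i, ord v (z i) = (dvi x A e i v : ℤ) - (dvi x1 A e i v : ℤ)) :
    ord v (cxX z e) = (dpart x A v : ℤ) - dpart x1 A v := by
  rw [cxX_ord hz, ← dvi_sum hx he v, ← dvi_sum hx1 he v]
  push_cast
  rw [← Finset.sum_sub_distrib]
  refine Finset.sum_congr rfl fun i _ => ?_
  rw [h i]
  ring

/-- the bound for one cell: the elements with a fixed unit -/
private theorem cx_fibre (m : ℕ) {C1 C0 ε η δ : ℝ} {J E : ℕ} {Ct L : ℝ} (hL : 1 ≤ L)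
    (hC0 : 0 ≤ C0)
    (ht : ∀ Q : Finset (HeightOneSpectrum (𝓞 K)), η * L ≤ AbcF.LN Q →
      (∀ v ∈ Q, ln v ≤ δ * L) → ∀ n : Bool × Option (Fin m) → ℤ,
      (∀ j, |n j| ≤ ((max 1 E : ℕ) : ℤ)) →
      ∀ (c : K) (S : Finset (Bool × Option (Fin m) → K)),
      (∀ P ∈ S, (∀ j, P j ≠ 0 ∧ hgt (P j) ≤ (C1 + C0) * L) ∧ ∀ v ∈ Q,
        (∀ j, FinitePlace.mk v (P j) = 1) ∧
        FinitePlace.mk v (∏ j, P j ^ n j - c) ≤ Real.exp (-ln v) ^ J) →
      (((fun P : Bool × Option (Fin m) → K => ∏ j, P j ^ n j) ''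
        (S : Set (Bool × Option (Fin m) → K))).ncard : ℝ) ≤ Ct * Real.exp (ε * L))
    (T : Tool) (ex : Fin 3 → Fin m → ℕ) (hex : ∀ g, g ≠ 2 → ExOK (Fs T g) (ex g) E)
    (hG : ∀ n, n ∉ T.G → J ≤ n) (P : Finset K) (y0 : K) (hy0 : y0 ∈ P) (hSD : SameData T P y0)
    (hall : ∀ y ∈ P, y ≠ 0 ∧ y ≠ 1 ∧ η * L ≤ rd (y - 1) T.Gᶜ ∧
        ∀ v, 0 < ord v (y - 1) → (ord v (y - 1)).toNat ∉ T.G → ln v ≤ δ * L)
    (P' : Finset K) (hP' : P' ⊆ P) (y1 : K) (hy1 : y1 ∈ P')
    (ξ : K → Bool × Option (Fin m) → K)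
    (hξ : ∀ y ∈ P', ∀ i, ξ y i ≠ 0 ∧
      (∀ v, ord v (ξ y i) = (dvi (grp y (if i.1 then 0 else 1)) (Fs T (if i.1 then 0 else 1))
          (ex (if i.1 then 0 else 1)) i.2 v : ℤ) -
        (dvi (grp y1 (if i.1 then 0 else 1)) (Fs T (if i.1 then 0 else 1))
          (ex (if i.1 then 0 else 1)) i.2 v : ℤ)) ∧
      (∀ w : InfinitePlace K, |Real.log (w (ξ y i))| ≤ C0) ∧ hgt (ξ y i) ≤ C1 * L + C0)
    (u : K) (hu : u ≠ 0) (huo : ∀ v : HeightOneSpectrum (𝓞 K), ord v u = 0)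
    (Pu : Finset K) (hPu : ∀ y ∈ Pu, y ∈ P' ∧
      u = y * cxX (fun i => ξ y (false, i)) (ex 1) /
        (y1 * cxX (fun i => ξ y (true, i)) (ex 0))) :
    (Pu.card : ℝ) ≤ Ct * Real.exp (ε * L) := by
  classical
  -- the places
  obtain ⟨hy00, hy01, hη0, hln0⟩ := hall y0 hy0
  have hfin := pt_ord_finite (K := K) (sub_ne_zero.2 hy01)
  set Q : Finset (HeightOneSpectrum (𝓞 K)) := hfin.toFinset.filter
    (fun v => 0 < ord v (y0 - 1) ∧ (ord v (y0 - 1)).toNat ∈ T.Gᶜ) with hQ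
  have hQLN : AbcF.LN Q = rd (y0 - 1) T.Gᶜ := by
    rw [tc_rd_eq (y0 - 1) T.Gᶜ hfin.toFinset]
    · unfold AbcF.LN
      rw [hQ, Finset.sum_filter]
    · intro v hv
      by_contra hcon
      exact hv ((Set.Finite.mem_toFinset hfin).2 hcon)
  have hQv : ∀ v ∈ Q, 0 < ord v (y0 - 1) ∧ (ord v (y0 - 1)).toNat ∉ T.G := by
    intro v hv
    exact (Finset.mem_filter.1 hv).2
  -- the same for all elements of the cell
  have hQy : ∀ v ∈ Q, ∀ y ∈ P, (J : ℤ) ≤ ord v (y - 1) ∧ 0 < ord v (y - 1) ∧ ord v y = 0 := by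
    intro v hv y hy
    obtain ⟨h1, h2⟩ := hQv v hv
    have h3 : jf T y v = jf T y0 v := (hSD y hy).2.1 v
    have h4 : jf T y0 v = ord v (y0 - 1) := by
      unfold jf
      rw [if_pos ⟨h1, h2⟩]
    rw [h4] at h3
    have h5 : 0 < ord v (y - 1) ∧ (ord v (y - 1)).toNat ∉ T.G := by
      by_contra hcon
      unfold jf at h3
      rw [if_neg hcon] at h3
      omega
    obtain ⟨hya, hyb, -, -⟩ := hall y hy
    refine ⟨?_, h5.1, (RolesAux.ord_sub_one v hya hyb).2.2.2 h5.1⟩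
    have h6 := hG _ h5.2
    have h7 : ((ord v (y - 1)).toNat : ℤ) = ord v (y - 1) := Int.toNat_of_nonneg h5.1.le
    rw [← h7]
    exact_mod_cast h6
  have hy1P : y1 ∈ P := hP' hy1
  obtain ⟨hy10, hy11, -, -⟩ := hall y1 hy1P
  -- the exponents
  let n : Bool × Option (Fin m) → ℤ := fun j => if j.1 then (wi (ex 0) j.2 : ℤ)
    else -(wi (ex 1) j.2 : ℤ)
  have hn : ∀ j, |n j| ≤ ((max 1 E : ℕ) : ℤ) := by
    rintro ⟨b, i⟩
    cases b
    · have := cx_wi (ex 1) (hex 1 (by decide)).1 i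
      simp only [n, Bool.false_eq_true, if_false, abs_neg, Nat.abs_cast]
      exact_mod_cast this
    · have := cx_wi (ex 0) (hex 0 (by decide)).1 i
      simp only [n, if_true, Nat.abs_cast]
      exact_mod_cast this
  have hprod : ∀ z : Bool × Option (Fin m) → K, ∏ j, z j ^ n j =
      cxX (fun i => z (true, i)) (ex 0) / cxX (fun i => z (false, i)) (ex 1) := by
    intro z
    rw [Fintype.prod_prod_type, Fintype.prod_bool]
    unfold cxX
    rw [div_eq_mul_inv, ← Finset.prod_inv_distrib]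
    congr 1
    · refine Finset.prod_congr rfl fun i _ => ?_
      simp [n]
    · refine Finset.prod_congr rfl fun i _ => ?_
      simp [n]
  have hval : ∀ y ∈ Pu, ∏ j, ξ y j ^ n j = y / (y1 * u) := by
    intro y hy
    obtain ⟨hyP', hyu⟩ := hPu y hy
    obtain ⟨hy0', -, -, -⟩ := hall y (hP' hyP')
    have h1 : cxX (fun i => ξ y (true, i)) (ex 0) ≠ 0 := cxX_ne (fun i => (hξ y hyP' _).1) _
    have h2 : cxX (fun i => ξ y (false, i)) (ex 1) ≠ 0 := cxX_ne (fun i => (hξ y hyP' _).1) _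
    rw [hprod]
    rw [hyu]
    field_simp
  have key := ht Q (by rw [hQLN]; exact hη0)
    (fun v hv => hln0 v (hQv v hv).1 (hQv v hv).2) n hn (1 / (y1 * u)) (Pu.image ξ) ?_
  · refine le_trans (le_of_eq ?_) key
    congr 1
    rw [Finset.coe_image, Set.image_image]
    have h1 : (fun y => ∏ j, ξ y j ^ n j) '' (Pu : Set K) =
        (fun y => y / (y1 * u)) '' (Pu : Set K) :=
      Set.image_congr fun y hy => hval y hy
    rw [h1, Set.ncard_image_of_injective, Set.ncard_coe_finset]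
    intro a b hab
    have h2 : y1 * u ≠ 0 := mul_ne_zero hy10 hu
    exact (div_left_inj' h2).1 hab
  · intro z hz
    obtain ⟨y, hy, rfl⟩ := Finset.mem_image.1 hz
    obtain ⟨hyP', hyu⟩ := hPu y hy
    have hyP := hP' hyP'
    obtain ⟨hya, hyb, -, -⟩ := hall y hyP
    refine ⟨fun j => ⟨(hξ y hyP' j).1, ?_⟩, fun v hv => ⟨fun j => ?_, ?_⟩⟩
    · refine (hξ y hyP' j).2.2.2.trans ?_
      nlinarith
    · have ho := (hξ y hyP' j).2.1 v
      have h1 : ∀ y' ∈ P, ord v (grp y' (if j.1 then 0 else 1)) ≤ 0 := by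
        intro y' hy'
        have h2 := (hQy v hv y' hy').2.2
        by_cases hj : j.1 = true
        · simp [hj, grp, h2]
        · simp only [hj]
          simp only [grp]
          simp [tc_ord_inv v (hall y' hy').1, h2]
      rw [dvi_zero (grp_ne_zero hya hyb _) _ _ (h1 y hyP),
        dvi_zero (grp_ne_zero hy10 hy11 _) _ _ (h1 y1 hy1P)] at ho
      exact (ord_eq_zero_iff v (hξ y hyP' j).1).1 (by simpa using ho)
    · rw [hval y hy]
      obtain ⟨hJy, hpos, hoy⟩ := hQy v hv y hyP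
      have hoy1 := (hQy v hv y1 hy1P).2.2
      have h2 : y / (y1 * u) - 1 / (y1 * u) = (y - 1) / (y1 * u) := by ring
      have h3 : FinitePlace.mk v (y1 * u) = 1 := by
        rw [← ord_eq_zero_iff v (mul_ne_zero hy10 hu), pt_ord_mul v hy10 hu, hoy1, huo v]
        rfl
      have hy1' : y - 1 ≠ 0 := sub_ne_zero.2 hyb
      rw [h2, map_div₀, h3, div_one]
      have h4 : 0 < FinitePlace.mk v (y - 1) := by
        rw [mk_eq_zpow v hy1']
        have := one_lt_norm v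
        positivity
      rw [← Real.exp_log h4, log_mk v hy1', ← Real.exp_nat_mul, Real.exp_le_exp]
      have h5 : (J : ℝ) ≤ (ord v (y - 1) : ℝ) := by exact_mod_cast hJy
      have h6 : 0 < ln v := tc_ln_pos v
      unfold ln at h6 ⊢
      nlinarith

/-- The bound for one cell by the theorem on congruences. -/
theorem cell_tss (K : Type*) [Field K] [NumberField K] (m : ℕ) (C1 ε η : ℝ) (hC1 : 0 ≤ C1)
    (hε : 0 < ε) (hη : 0 < η) : ∃ δ : ℝ, 0 < δ ∧ ∃ J : ℕ, 1 ≤ J ∧ ∀ E : ℕ, ∃ C : ℝ, 0 < C ∧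
      ∀ L : ℝ, 1 ≤ L → ∀ (T : Tool) (ex : Fin 3 → Fin m → ℕ),
      (∀ g, g ≠ 2 → ExOK (Fs T g) (ex g) E) → (∀ n, n ∉ T.G → J ≤ n) →
      ∀ (P : Finset K) (y0 : K), y0 ∈ P → SameData T P y0 →
      (∀ y ∈ P, y ≠ 0 ∧ y ≠ 1 ∧ (∀ g, g ≠ 2 → SzOK (grp y g) (Fs T g) (ex g) (C1 * L)) ∧
        η * L ≤ rd (y - 1) T.Gᶜ ∧
        ∀ v, 0 < ord v (y - 1) → (ord v (y - 1)).toNat ∉ T.G → ln v ≤ δ * L) →
      (P.card : ℝ) ≤ C * Real.exp (ε * L) := by
  classical
  obtain ⟨C0, hC0, hcls⟩ := bal_cls K (Bool × Option (Fin m))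
  obtain ⟨Cp, hCp, hP⟩ := hcls C1 (ε / 2) hC1 (by positivity)
  obtain ⟨δ, hδ, J, hJ, ht⟩ := tssI K (Bool × Option (Fin m)) (C1 + C0) (ε / 2) η
    (by positivity) (by positivity) hη
  refine ⟨δ, hδ, J, hJ, fun E => ?_⟩
  obtain ⟨Ct, hCt, ht'⟩ := ht (max 1 E)
  set B1 : ℝ := 1 + 2 * ((m + 1) * ((max 1 E : ℕ) : ℝ) * C0) with hB1
  have hU := units_bdd K B1
  set U : Finset K := hU.toFinset with hUdef
  refine ⟨Cp * ((U.card + 1) * Ct), by positivity, ?_⟩
  intro L hL T ex hex hG P y0 hy0 hSD hall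
  have hgg : ∀ b : Bool, (if b then (0 : Fin 3) else 1) ≠ 2 := by decide
  set dv : K → Bool × Option (Fin m) → (HeightOneSpectrum (𝓞 K) →₀ ℕ) := fun y i =>
    dvi (grp y (if i.1 then 0 else 1)) (Fs T (if i.1 then 0 else 1))
      (ex (if i.1 then 0 else 1)) i.2 with hdv
  have key := hP L hL P dv ?_ (U.card * (Ct * Real.exp (ε / 2 * L))) (by positivity) ?_
  · refine key.trans ?_
    have h1 : Real.exp (ε * L) = Real.exp (ε / 2 * L) * Real.exp (ε / 2 * L) := by
      rw [← Real.exp_add]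
      congr 1
      ring
    rw [h1]
    have h2 : 0 ≤ Cp * Real.exp (ε / 2 * L) * (Ct * Real.exp (ε / 2 * L)) := by positivity
    nlinarith
  · intro y hy i
    obtain ⟨h1, h2, h3, -, -⟩ := hall y hy
    exact LD_dvi_le (grp_ne_zero h1 h2 _) (h3 _ (hgg i.1)) i.2
  · intro P' hP' y1 hy1 ξ hξ
    have hy1P := hP' hy1
    obtain ⟨hy10, hy11, -, -, -⟩ := hall y1 hy1P
    -- the unit
    set ηu : K → K := fun y => y * cxX (fun i => ξ y (false, i)) (ex 1) /
        (y1 * cxX (fun i => ξ y (true, i)) (ex 0)) with hηu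
    have hmem : ∀ y ∈ P', ηu y ∈ U := by
      intro y hy
      have hyP := hP' hy
      obtain ⟨hya, hyb, -, -, -⟩ := hall y hyP
      have hXt : cxX (fun i => ξ y (true, i)) (ex 0) ≠ 0 := cxX_ne (fun i => (hξ y hy _).1) _
      have hXf : cxX (fun i => ξ y (false, i)) (ex 1) ≠ 0 := cxX_ne (fun i => (hξ y hy _).1) _
      have hne : ηu y ≠ 0 := div_ne_zero (mul_ne_zero hya hXf) (mul_ne_zero hy10 hXt)
      refine (Set.Finite.mem_toFinset hU).2 ⟨hne, fun v => ?_, fun w => ?_⟩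
      · have o0 : ord v (cxX (fun i => ξ y (true, i)) (ex 0)) =
            (dpart y T.F0 v : ℤ) - dpart y1 T.F0 v := by
          refine cxX_dpart (fun i => (hξ y hy _).1) (E := E) ?_ hya hy10 v fun i => ?_
          · simpa [Fs] using hex 0 (by decide)
          · have := (hξ y hy (true, i)).2.1 v
            simpa [hdv, Fs, grp] using this
        have o1 : ord v (cxX (fun i => ξ y (false, i)) (ex 1)) =
            (dpart y⁻¹ T.F1 v : ℤ) - dpart y1⁻¹ T.F1 v := by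
          refine cxX_dpart (fun i => (hξ y hy _).1) (E := E) ?_ (inv_ne_zero hya)
            (inv_ne_zero hy10) v fun i => ?_
          · simpa [Fs] using hex 1 (by decide)
          · have := (hξ y hy (false, i)).2.1 v
            simpa [hdv, Fs, grp] using this
        have o2 := ord_diff T hya hy10 (v := v)
          (((hSD y hyP).1 v).trans ((hSD y1 hy1P).1 v).symm)
        rw [hηu]
        simp only
        rw [ord_div v (mul_ne_zero hya hXf) (mul_ne_zero hy10 hXt), pt_ord_mul v hya hXf,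
          pt_ord_mul v hy10 hXt, o0, o1]
        linarith
      · have e1 : Real.log (w (ηu y)) = (Real.log (w y) - Real.log (w y1)) +
            (Real.log (w (cxX (fun i => ξ y (false, i)) (ex 1))) -
              Real.log (w (cxX (fun i => ξ y (true, i)) (ex 0)))) := by
          have p1 := (w.pos_iff.2 hya).ne'
          have p2 := (w.pos_iff.2 hy10).ne'
          have p3 := (w.pos_iff.2 hXt).ne'
          have p4 := (w.pos_iff.2 hXf).ne'
          rw [hηu]
          simp only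
          rw [map_div₀, map_mul, map_mul, Real.log_div (mul_ne_zero p1 p4) (mul_ne_zero p2 p3),
            Real.log_mul p1 p4, Real.log_mul p2 p3]
          ring
        have e2 : |Real.log (w y) - Real.log (w y1)| ≤ 1 :=
          Cell.abs_sub_le_one (((hSD y hyP).2.2.1 w).trans ((hSD y1 hy1P).2.2.1 w).symm) rfl
        have e3 := cxX_log (fun i => (hξ y hy (false, i)).1) (ex 1) (hex 1 (by decide)).1 w
          (fun i => (hξ y hy (false, i)).2.2.1 w)
        have e4 := cxX_log (fun i => (hξ y hy (true, i)).1) (ex 0) (hex 0 (by decide)).1 w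
          (fun i => (hξ y hy (true, i)).2.2.1 w)
        rw [e1, hB1]
        rw [abs_le] at e2 e3 e4 ⊢
        constructor <;> linarith [e2.1, e2.2, e3.1, e3.2, e4.1, e4.2]
    -- the fibres
    have hfib : ∀ u ∈ U, ((P'.filter fun y => ηu y = u).card : ℝ) ≤
        Ct * Real.exp (ε / 2 * L) := by
      intro u hu
      obtain ⟨hu0, huo, -⟩ := (Set.Finite.mem_toFinset hU).1 hu
      refine cx_fibre m hL hC0.le (ht' L hL) T ex hex hG P y0 hy0 hSD
        (fun y hy => ⟨(hall y hy).1, (hall y hy).2.1, (hall y hy).2.2.2⟩) P' hP' y1 hy1 ξ hξ u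
        hu0 huo _ fun y hy => ?_
      rw [Finset.mem_filter] at hy
      exact ⟨hy.1, hy.2.symm⟩
    have hsum : P'.card = ∑ u ∈ U, (P'.filter fun y => ηu y = u).card :=
      Finset.card_eq_sum_card_fiberwise fun y hy => hmem y hy
    rw [hsum]
    push_cast
    refine (Finset.sum_le_sum hfib).trans (le_of_eq ?_)
    rw [Finset.sum_const, nsmul_eq_mul]

end Pool.Agent.MVD
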