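import Pool.Agent.AbcF.Final

/-!
# Module Cells2 (size 2)

Copy the proof of `cells_sum` (AbcF/CellsSum.lean) with `Ω = 0`, for a given finite set `S` instead of the sublevel set; the constants `CF` (from `kept_sum`), `CP` (from `tc_poly_le_exp`) do not depend on `T`. The bound for one cell is the
hypothesis: it gives `A * W f * exp θ`-like: for a nonempty cell `RK T y = R ≤ θ`, so `1 ≤ exp (θ - R)` and `card ≤ A ≤ A * exp (θ - R) = A * W f * exp θ`.
-/

namespace Pool.Agent.MVD

open NumberField IsDedekindDomain Pool.Agent.H7.Abc Pool.Agent.AbcE Pool.Agent.AbcF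

/-- Summation over the cells, uniformly in the tool. -/
theorem cells_sum2 (K : Type*) [Field K] [NumberField K] {ε : ℝ} (hε : 0 < ε) :
    ∃ C : ℝ, 0 < C ∧ ∀ (T : Tool) (D θ A : ℝ), 0 ≤ D → 0 ≤ A → ∀ S : Finset K,
      (∀ y ∈ S, y ≠ 0 ∧ y ≠ 1 ∧ hgt y ≤ D ∧ RK T y ≤ θ) →
      (∀ P ⊆ S, ∀ y0 ∈ P, SameData T P y0 → (P.card : ℝ) ≤ A) →
      (S.card : ℝ) ≤ C * A * Real.exp (θ + ε * D) := by
  classical
  have hB : (1 : ℝ) ≤ 1 := le_rfl
  obtain ⟨CF, hCF, hFs⟩ := kept_sum K hB (show 0 < ε / 8 by positivity)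
  set d : ℝ := (Module.finrank ℚ K : ℝ) * Real.log 2 with hd
  have hd0 : 0 ≤ d := mul_nonneg (Nat.cast_nonneg _) (Real.log_nonneg (by norm_num))
  set r : ℕ := Fintype.card (InfinitePlace K) with hr
  obtain ⟨CP, hCP, hP⟩ := tc_poly_le_exp (r + r) (2 * d + 4) (by positivity)
    (show 0 < ε / 4 by positivity)
  refine ⟨(CF * Real.exp (ε / 4 * d)) * CP, by positivity, fun T D θ A hD hA P hPS hE => ?_⟩
  -- the places which matter
  obtain ⟨F, hF0, hF1⟩ : ∃ F : Finset (HeightOneSpectrum (𝓞 K)),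
      (∀ y ∈ P, ∀ v, v ∉ F → ord v y = 0) ∧ (∀ y ∈ P, ∀ v, v ∉ F → ord v (y - 1) = 0) := by
    have h1 : ∀ y : K, ∃ F : Finset (HeightOneSpectrum (𝓞 K)), y ∈ P →
        (∀ v, v ∉ F → ord v y = 0) ∧ (∀ v, v ∉ F → ord v (y - 1) = 0) := by
      intro y
      by_cases hy : y ∈ P
      · have hyS := hPS y hy
        have hy0 : y ≠ 0 := hyS.1
        have hy1 : y - 1 ≠ 0 := sub_ne_zero.2 hyS.2.1
        refine ⟨(finite_support hy0).toFinset ∪ (finite_support hy1).toFinset, fun _ => ⟨?_, ?_⟩⟩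
        · intro v hv
          rw [Finset.mem_union, not_or, Set.Finite.mem_toFinset] at hv
          rw [ord_eq_zero_iff v hy0]
          by_contra h
          exact hv.1 h
        · intro v hv
          rw [Finset.mem_union, not_or, Set.Finite.mem_toFinset, Set.Finite.mem_toFinset] at hv
          rw [ord_eq_zero_iff v hy1]
          by_contra h
          exact hv.2 h
      · exact ⟨∅, fun h => absurd h hy⟩
    choose G hG using h1
    refine ⟨P.biUnion G, fun y hy v hv => (hG y hy).1 v (fun h => hv ?_),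
      fun y hy v hv => (hG y hy).2 v (fun h => hv ?_)⟩
    · exact Finset.mem_biUnion.2 ⟨y, hy, h⟩
    · exact Finset.mem_biUnion.2 ⟨y, hy, h⟩
  have hkf0 : ∀ y ∈ P, ∀ v, v ∉ F → kf T y v = 0 := by
    intro y hy v hv
    have h := tc_abs_kf_le T y v
    rw [hF0 y hy v hv, Int.cast_zero, abs_zero] at h
    exact_mod_cast abs_eq_zero.1 (le_antisymm h (abs_nonneg _))
  have hjf0 : ∀ y ∈ P, ∀ v, v ∉ F → jf T y v = 0 := by
    intro y hy v hv
    have h := tc_abs_jf_le T y v
    rw [hF1 y hy v hv, Int.cast_zero, abs_zero] at h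
    exact_mod_cast abs_eq_zero.1 (le_antisymm h (abs_nonneg _))
  -- the two parts of the map
  set κ : K → (HeightOneSpectrum (𝓞 K) → ℤ × ℤ) := fun y v => (kf T y v, jf T y v) with hκ
  set σ : K → (InfinitePlace K → ℤ) × (InfinitePlace K → ℤ) :=
    fun y => (fun w => ⌊Real.log (w y)⌋, fun w => ⌊Real.log (w (y - 1))⌋) with hσ
  set W : (HeightOneSpectrum (𝓞 K) → ℤ × ℤ) → ℝ := fun f => ∏ v ∈ F, (if f v = 0 then 1 else
          (1 : ℝ) * Real.exp (-((if (f v).1 = 0 then 0 else ln v) +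
            (if (f v).2 = 0 then 0 else ln v)))) with hW
  set X : ℝ := D + d with hX
  have hX0 : 0 ≤ X := by positivity
  set Q : Finset (InfinitePlace K → ℤ) :=
    Fintype.piFinset (fun _ : InfinitePlace K => Finset.Icc (-⌈X⌉ - 1) ⌈X⌉) with hQ
  -- the bound for one cell
  have hcell : ∀ f ∈ P.image κ, ∀ s ∈ Q ×ˢ Q,
      (((P.filter (fun y => κ y = f)).filter (fun y => σ y = s)).card : ℝ) ≤
        A * W f * Real.exp θ := by
    intro f hf s hs
    set P' := (P.filter (fun y => κ y = f)).filter (fun y => σ y = s) with hP'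
    have hW0 : 0 ≤ W f := Finset.prod_nonneg fun v _ => by
      split_ifs
      · norm_num
      all_goals positivity
    rcases P'.eq_empty_or_nonempty with h0 | ⟨y0, hy0⟩
    · rw [h0, Finset.card_empty, Nat.cast_zero]
      positivity
    have hP'1 : ∀ y ∈ P', y ∈ P ∧ κ y = f ∧ σ y = s := by
      intro y hy
      rw [hP', Finset.mem_filter, Finset.mem_filter] at hy
      exact ⟨hy.1.1, hy.1.2, hy.2⟩
    have hy0' := hP'1 y0 hy0
    set R : ℝ := ∑ v ∈ F, ((if (f v).1 = 0 then 0 else ln v) +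
      (if (f v).2 = 0 then 0 else ln v)) with hR
    have hRK : ∀ y ∈ P', RK T y = R := by
      intro y hy
      obtain ⟨h1, h2, h3⟩ := hP'1 y hy
      rw [tc_RK_eq T (hPS y h1).1 F (hF0 y h1) (hF1 y h1), hR, ← h2]
    have hRθ : R ≤ θ := by
      have h1 := (hPS y0 (hP'1 y0 hy0).1).2.2.2
      rw [hRK y0 hy0] at h1
      exact h1
    have hb := hE P' (fun y hy => (hP'1 y hy).1) y0 hy0
      (fun y hy => by
        have h1 : κ y = κ y0 := (hP'1 y hy).2.1.trans hy0'.2.1.symm
        have h2 : σ y = σ y0 := (hP'1 y hy).2.2.trans hy0'.2.2.symm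
        refine ⟨fun v => ?_, fun v => ?_, fun w => ?_, fun w => ?_⟩
        · exact congrArg Prod.fst (congrFun h1 v)
        · exact congrArg Prod.snd (congrFun h1 v)
        · exact congrFun (congrArg Prod.fst h2) w
        · exact congrFun (congrArg Prod.snd h2) w)
    refine hb.trans ?_
    rw [mul_assoc]
    refine le_mul_of_one_le_right hA ?_
    have h1 : (1 : ℝ) ≤ Real.exp (-R) * Real.exp θ := by
      rw [← Real.exp_add]
      exact Real.one_le_exp (by linarith)
    refine h1.trans ?_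
    refine mul_le_mul_of_nonneg_right ?_ (Real.exp_pos _).le
    rw [hR, ← Finset.sum_neg_distrib, Real.exp_sum]
    refine Finset.prod_le_prod (fun v _ => (Real.exp_pos _).le) (fun v _ => ?_)
    by_cases hz : f v = 0
    · rw [if_pos hz, hz]
      simp
    · rw [if_neg hz, one_mul]
  -- kept sum
  have hks := hFs (4 * D + 2 * d) F (P.image κ)
    (fun f hf v hv => by
      obtain ⟨y, hy, rfl⟩ := Finset.mem_image.1 hf
      exact Prod.ext (hkf0 y hy v hv) (hjf0 y hy v hv))
    (fun f hf => by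
      obtain ⟨y, hy, rfl⟩ := Finset.mem_image.1 hf
      have hyS := hPS y hy
      have h1 := sum_abs_ord_le hyS.1 F
      have h2 := sum_abs_ord_le (sub_ne_zero.2 hyS.2.1) F
      have h3 := hgt_sub_one y
      have h4 := hyS.2.2.1
      have h5 : ∑ v ∈ F, (|((κ y v).1 : ℝ)| + |((κ y v).2 : ℝ)|) * ln v ≤
          ∑ v ∈ F, |(ord v y : ℝ)| * Real.log (Ideal.absNorm v.asIdeal : ℝ) +
          ∑ v ∈ F, |(ord v (y - 1) : ℝ)| * Real.log (Ideal.absNorm v.asIdeal : ℝ) := by
        rw [← Finset.sum_add_distrib]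
        refine Finset.sum_le_sum fun v _ => ?_
        rw [← add_mul]
        exact mul_le_mul_of_nonneg_right
          (add_le_add (tc_abs_kf_le T y v) (tc_abs_jf_le T y v)) (tc_ln_pos v).le
      linarith)
  -- the image lies in the box
  have hσQ : ∀ y ∈ P, σ y ∈ Q ×ˢ Q := by
    intro y hy
    have hyS := hPS y hy
    have h4 := hyS.2.2.1
    rw [Finset.mem_product, hQ, Fintype.mem_piFinset, Fintype.mem_piFinset]
    refine ⟨fun w => tc_floor_mem X _ ?_, fun w => tc_floor_mem X _ ?_⟩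
    · exact (abs_log_le_hgt hyS.1 w).trans (by linarith)
    · exact (abs_log_le_hgt (sub_ne_zero.2 hyS.2.1) w).trans
        ((hgt_sub_one y).trans (by linarith))
  have hQc : ((Q ×ˢ Q).card : ℝ) ≤ CP * Real.exp (ε / 4 * D) := by
    rw [Finset.card_product, Nat.cast_mul]
    have h1 := tc_card_box (InfinitePlace K) X hX0
    rw [← hr] at h1
    calc (Q.card : ℝ) * Q.card ≤ (2 * X + 4) ^ r * (2 * X + 4) ^ r :=
          mul_le_mul h1 h1 (Nat.cast_nonneg _) (by positivity)
      _ = (2 * D + (2 * d + 4)) ^ (r + r) := by rw [← pow_add, hX]; congr 1; ring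
      _ ≤ _ := hP D hD
  -- summation
  have hsum : (P.card : ℝ) ≤ ∑ f ∈ P.image κ, ∑ s ∈ Q ×ˢ Q,
      (((P.filter (fun y => κ y = f)).filter (fun y => σ y = s)).card : ℝ) := by
    rw [Finset.card_eq_sum_card_image κ P, Nat.cast_sum]
    refine Finset.sum_le_sum fun f _ => ?_
    rw [Finset.card_eq_sum_card_fiberwise (f := σ) (t := Q ×ˢ Q)
      (s := P.filter (fun y => κ y = f))
      (fun y hy => hσQ y (Finset.mem_filter.1 (Finset.mem_coe.1 hy)).1), Nat.cast_sum]
  have hfin2 : ∑ f ∈ P.image κ, ∑ s ∈ Q ×ˢ Q,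
      (((P.filter (fun y => κ y = f)).filter (fun y => σ y = s)).card : ℝ) ≤
      (A * Real.exp θ * (Q ×ˢ Q).card) * ∑ f ∈ P.image κ, W f := by
    rw [Finset.mul_sum]
    refine Finset.sum_le_sum fun f hf => ?_
    refine (Finset.sum_le_sum fun s hs => hcell f hf s hs).trans ?_
    rw [Finset.sum_const, nsmul_eq_mul]
    exact le_of_eq (by ring)
  have hCEθ : 0 ≤ A * Real.exp θ := by positivity
  calc (P.card : ℝ) ≤ _ := hsum
    _ ≤ _ := hfin2
    _ ≤ (A * Real.exp θ * (CP * Real.exp (ε / 4 * D))) *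
        (CF * Real.exp (ε / 8 * (4 * D + 2 * d))) :=
        mul_le_mul (mul_le_mul_of_nonneg_left hQc hCEθ) hks
          (Finset.sum_nonneg fun f _ => Finset.prod_nonneg fun v _ => by
            split_ifs
            · norm_num
            all_goals positivity) (by positivity)
    _ = CF * Real.exp (ε / 4 * d) * CP * A *
        (Real.exp θ * (Real.exp (ε / 4 * D) * Real.exp (ε / 4 * D) * Real.exp (ε / 4 * D))) := by
        have e1 : Real.exp (ε / 8 * (4 * D + 2 * d)) =
            Real.exp (ε / 4 * d) * (Real.exp (ε / 4 * D) * Real.exp (ε / 4 * D)) := by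
          rw [← Real.exp_add, ← Real.exp_add]; congr 1; ring
        rw [e1]; ring
    _ ≤ CF * Real.exp (ε / 4 * d) * CP * A * Real.exp (θ + ε * D) := by
        refine mul_le_mul_of_nonneg_left ?_ (by positivity)
        rw [← Real.exp_add, ← Real.exp_add, ← Real.exp_add]
        apply Real.exp_le_exp.2
        nlinarith [mul_nonneg hε.le hD]

end Pool.Agent.MVD
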