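import Pool.Agent.MVD.TssCount

/-!
# Module Chain (size 2)

`TssProp.mono`: the set for `(δ', J')` is a subset of the set for `(δ, J)` (`Set.ncard_le_ncard`, finite). `chain`: recursion on `i`: state `(τ, Jt)`, `m τ = ⌈1/τ⌉₊`; `tss_count K (m τ) (max C1 (Jt + 1)) ε η` gives `δ, J`; next state
`(min τ δ, max Jt J)`; `TssProp` for the next state by `mono`. (Build the sequence with `Nat.rec` on the subtype of pairs with `τ > 0`, or `exists_seq`-style with `choose` of functions `δf, Jf : ℝ → ℕ → _` first.)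
-/

namespace Pool.Agent.MVD

open NumberField IsDedekindDomain Pool.Agent.H7.Abc Pool.Agent.AbcE Pool.Agent.AbcF

theorem TssProp.mono {K : Type*} [Field K] [NumberField K] {m : ℕ} {C1 ε η δ δ' : ℝ} {J J' : ℕ}
    (h : TssProp K m C1 ε η δ J) (hδ : δ' ≤ δ) (hJ : J ≤ J') : TssProp K m C1 ε η δ' J' := by
  intro κ1 E
  obtain ⟨C, hC, hC2⟩ := h κ1 E
  refine ⟨C, hC, ?_⟩
  intro L hL c A M S θ hS hM
  refine le_trans ?_ (hC2 L hL c A M S θ hS fun n hn => hJ.trans (hM n hn))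
  have hfin : {x : K | x ≠ 0 ∧ x ≠ 1 ∧ hgt x ≤ κ1 * L ∧
        ∑ g, rd (grp x g) (if g = c then M else (A g)ᶜ) ≤ θ ∧
        (∀ g, g ≠ c → (∀ n ∈ S g, rd (grp x g) {n} ≤ C1 * L) ∧
          sz (grp x g) (A g \ (S g : Set ℕ)) ≤ C1 * L) ∧
        η * L ≤ rd (grp x c) M ∧ ∀ v : HeightOneSpectrum (𝓞 K), 0 < ord v (grp x c) →
          (ord v (grp x c)).toNat ∈ M → ln v ≤ δ * L}.Finite := by
    have h1 := NumberField.finite_setOfPred_logHeight₁_le (K := K) (κ1 * L)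
    refine h1.subset ?_
    intro x hx
    have h2 := hx.2.2.1
    rw [hgt_eq] at h2
    exact h2
  have hsub : {x : K | x ≠ 0 ∧ x ≠ 1 ∧ hgt x ≤ κ1 * L ∧
        ∑ g, rd (grp x g) (if g = c then M else (A g)ᶜ) ≤ θ ∧
        (∀ g, g ≠ c → (∀ n ∈ S g, rd (grp x g) {n} ≤ C1 * L) ∧
          sz (grp x g) (A g \ (S g : Set ℕ)) ≤ C1 * L) ∧
        η * L ≤ rd (grp x c) M ∧ ∀ v : HeightOneSpectrum (𝓞 K), 0 < ord v (grp x c) →
          (ord v (grp x c)).toNat ∈ M → ln v ≤ δ' * L} ⊆ {x : K | x ≠ 0 ∧ x ≠ 1 ∧ hgt x ≤ κ1 * L ∧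
        ∑ g, rd (grp x g) (if g = c then M else (A g)ᶜ) ≤ θ ∧
        (∀ g, g ≠ c → (∀ n ∈ S g, rd (grp x g) {n} ≤ C1 * L) ∧
          sz (grp x g) (A g \ (S g : Set ℕ)) ≤ C1 * L) ∧
        η * L ≤ rd (grp x c) M ∧ ∀ v : HeightOneSpectrum (𝓞 K), 0 < ord v (grp x c) →
          (ord v (grp x c)).toNat ∈ M → ln v ≤ δ * L} := by
    rintro x ⟨h1, h2, h3, h4, h5, h6, h7⟩
    refine ⟨h1, h2, h3, h4, h5, h6, fun v hv hM' => (h7 v hv hM').trans ?_⟩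
    exact mul_le_mul_of_nonneg_right hδ (by linarith)
  exact_mod_cast Set.ncard_le_ncard hsub hfin

/-- The sequence of scales. -/
theorem chain (K : Type*) [Field K] [NumberField K] (C1 ε η τ0 : ℝ) (J0 : ℕ) (hε : 0 < ε)
    (hη : 0 < η) (hτ : 0 < τ0) : ∃ (τ : ℕ → ℝ) (Jt m : ℕ → ℕ), τ 0 = τ0 ∧ Jt 0 = J0 ∧
      (∀ i, 0 < τ i ∧ τ (i + 1) ≤ τ i ∧ Jt i ≤ Jt (i + 1) ∧ 1 ≤ τ i * m i) ∧
      ∀ i, TssProp K (m i) (max C1 (Jt i + 1)) ε η (τ (i + 1)) (Jt (i + 1)) := by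
  have hex : ∀ (t : ℝ) (J : ℕ), ∃ δ : ℝ, 0 < δ ∧ ∃ J' : ℕ, 1 ≤ J' ∧
      TssProp K ⌈1 / t⌉₊ (max C1 (J + 1)) ε η δ J' := fun t J =>
    tss_count K ⌈1 / t⌉₊ (max C1 (J + 1)) ε η
      (le_max_of_le_right (by positivity)) hε hη
  choose δf hδf Jf hJf hprop using hex
  let step : {q : ℝ × ℕ // 0 < q.1} → {q : ℝ × ℕ // 0 < q.1} := fun q =>
    ⟨(min q.1.1 (δf q.1.1 q.1.2), max q.1.2 (Jf q.1.1 q.1.2)), lt_min q.2 (hδf _ _)⟩
  let st : ℕ → {q : ℝ × ℕ // 0 < q.1} := fun i => Nat.rec ⟨(τ0, J0), hτ⟩ (fun _ q => step q) i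
  have hst : ∀ i, st (i + 1) = step (st i) := fun i => rfl
  refine ⟨fun i => (st i).1.1, fun i => (st i).1.2, fun i => ⌈1 / (st i).1.1⌉₊, rfl, rfl,
    fun i => ⟨(st i).2, ?_, ?_, ?_⟩, fun i => ?_⟩
  · show (st (i + 1)).1.1 ≤ (st i).1.1
    rw [hst]
    exact min_le_left _ _
  · show (st i).1.2 ≤ (st (i + 1)).1.2
    rw [hst]
    exact le_max_left _ _
  · have h1 := Nat.le_ceil (1 / (st i).1.1)
    have h2 := (st i).2
    calc (1 : ℝ) = (st i).1.1 * (1 / (st i).1.1) := (mul_one_div_cancel h2.ne').symm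
      _ ≤ (st i).1.1 * (⌈1 / (st i).1.1⌉₊ : ℕ) := mul_le_mul_of_nonneg_left h1 h2.le
  · show TssProp K ⌈1 / (st i).1.1⌉₊ (max C1 ((st i).1.2 + 1)) ε η (st (i + 1)).1.1
      (st (i + 1)).1.2
    rw [hst]
    exact (hprop _ _).mono (min_le_right _ _) (le_max_right _ _)

end Pool.Agent.MVD
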