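import Mathlib

/-!
# Module Params (size 3)

Put `c = (2/ε) * (n * C1 + n * d + 1) + 2 ≥ 2`, `D` a natural number with `D + 1 ≥ 2 * c^n` (`D ≥ 1`), `B = ⌈(2/ε) * (n * C1 + n * d + 1) * (D + 1)⌉₊`, so
`(2/ε)(nC1 + nd + 1)(D+1) ≤ B ≤ c (D+1)` (as `1 ≤ D + 1`). For `1 ≤ i ≤ n`: `2 B^(i-1) ≤ 2 c^(i-1) (D+1)^(i-1) ≤ (D+1)^i` since
`2 c^(i-1) ≤ 2 c^n ≤ D+1`. With `N = (D+1)^i`: `B * (N - B^(i-1)) ≥ B * N / 2` (real numbers; natural subtraction is fine because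
`B^(i-1) ≤ N`). Left side: `N * i * D * C1 * L + d * log N! ≤ N n (D+1) C1 L + d N log N` and `log N = i log (D+1) ≤ n (D+1)`, so at most
`N (D+1) (n C1 + n d) L` (`L ≥ 1`); right side at least `(B N / 2) ε L ≥ N (n C1 + n d + 1)(D+1) L`, strictly larger.
(`Nat.factorial_lt`/`Nat.factorial_le_pow`: `N! ≤ N^N`.)
-/

namespace Pool.Agent.MVD

open MvPolynomial

/-- The choice of the degree and of the number of the small monomials. -/
theorem params (n : ℕ) (C1 ε d : ℝ) (hC1 : 0 ≤ C1) (hε : 0 < ε) (hd : 0 ≤ d) :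
    ∃ D B : ℕ, ∀ i : ℕ, 1 ≤ i → i ≤ n → 2 * B ^ (i - 1) ≤ (D + 1) ^ i ∧
      ∀ L : ℝ, 1 ≤ L → ((D + 1 : ℕ) ^ i : ℝ) * (i * D * (C1 * L)) +
        d * Real.log (((D + 1) ^ i).factorial : ℝ) <
          (B * ((D + 1) ^ i - B ^ (i - 1)) : ℕ) * (ε * L) := by
  set a : ℝ := n * C1 + n * d + 1 with ha
  have hapos : 0 < a := by positivity
  set c0 : ℝ := (2 / ε) * a with hc0
  have hc0pos : 0 < c0 := by positivity
  set c : ℝ := c0 + 1 with hc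
  have hc1 : 1 ≤ c := by linarith
  set D : ℕ := ⌈2 * c ^ n⌉₊ with hD
  have hD1 : 2 * c ^ n ≤ (D : ℝ) + 1 := by
    have := Nat.le_ceil (2 * c ^ n)
    linarith
  have hDpos : (0 : ℝ) < (D : ℝ) + 1 := by positivity
  set B : ℕ := ⌈c0 * ((D : ℝ) + 1)⌉₊ with hB
  have hB1 : c0 * ((D : ℝ) + 1) ≤ B := Nat.le_ceil _
  have hB2 : (B : ℝ) ≤ c * ((D : ℝ) + 1) := by
    have h1 := Nat.ceil_lt_add_one (show 0 ≤ c0 * ((D : ℝ) + 1) by positivity)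
    have h2 : (1 : ℝ) ≤ (D : ℝ) + 1 := by
      have : (0 : ℝ) ≤ D := Nat.cast_nonneg _
      linarith
    have h3 : c * ((D : ℝ) + 1) = c0 * ((D : ℝ) + 1) + ((D : ℝ) + 1) := by rw [hc]; ring
    rw [h3]
    linarith
  refine ⟨D, B, ?_⟩
  intro i hi1 hin
  obtain ⟨k, rfl⟩ : ∃ k, i = k + 1 := ⟨i - 1, by omega⟩
  have hfirst : 2 * (B : ℝ) ^ k ≤ ((D : ℝ) + 1) ^ (k + 1) := by
    calc 2 * (B : ℝ) ^ k ≤ 2 * (c * ((D : ℝ) + 1)) ^ k := by gcongr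
      _ = (2 * c ^ k) * ((D : ℝ) + 1) ^ k := by rw [mul_pow]; ring
      _ ≤ (2 * c ^ n) * ((D : ℝ) + 1) ^ k := by
          have : c ^ k ≤ c ^ n := pow_le_pow_right₀ hc1 (by omega)
          gcongr
      _ ≤ ((D : ℝ) + 1) * ((D : ℝ) + 1) ^ k := by gcongr
      _ = ((D : ℝ) + 1) ^ (k + 1) := by ring
  have hfirstN : 2 * B ^ k ≤ (D + 1) ^ (k + 1) := by exact_mod_cast hfirst
  have hk : k + 1 - 1 = k := rfl
  rw [hk]
  refine ⟨hfirstN, ?_⟩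
  intro L hL
  have hLpos : 0 < L := by linarith
  set N : ℕ := (D + 1) ^ (k + 1) with hN
  have hNcast : ((D + 1 : ℕ) : ℝ) ^ (k + 1) = (N : ℝ) := by rw [hN]; push_cast; ring
  have hNpos : (0 : ℝ) < N := by rw [← hNcast]; positivity
  rw [hNcast]
  have hsub : ((B * (N - B ^ k) : ℕ) : ℝ) = B * (N - (B : ℝ) ^ k) := by
    rw [Nat.cast_mul, Nat.cast_sub (by omega)]
    push_cast
    ring
  rw [hsub]
  have hfirstR : 2 * (B : ℝ) ^ k ≤ N := by exact_mod_cast hfirstN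
  have hR : a * ((D : ℝ) + 1) * N * L ≤ B * (N - (B : ℝ) ^ k) * (ε * L) := by
    have h1 : (N : ℝ) / 2 ≤ N - (B : ℝ) ^ k := by linarith
    calc a * ((D : ℝ) + 1) * N * L = (c0 * ((D : ℝ) + 1)) * (N / 2) * (ε * L) := by
          rw [hc0]; field_simp
      _ ≤ B * (N - (B : ℝ) ^ k) * (ε * L) := by gcongr
  have hlogN : Real.log N ≤ n * ((D : ℝ) + 1) := by
    rw [← hNcast, Real.log_pow]
    have h1 : Real.log ((D + 1 : ℕ) : ℝ) ≤ (D : ℝ) + 1 := by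
      have := Real.log_le_self (show (0 : ℝ) ≤ ((D + 1 : ℕ) : ℝ) by positivity)
      push_cast at this ⊢
      exact this
    have h0 : 0 ≤ Real.log ((D + 1 : ℕ) : ℝ) := Real.log_natCast_nonneg _
    have h2 : ((k + 1 : ℕ) : ℝ) ≤ n := by exact_mod_cast hin
    calc ((k + 1 : ℕ) : ℝ) * Real.log ((D + 1 : ℕ) : ℝ) ≤ n * Real.log ((D + 1 : ℕ) : ℝ) := by gcongr
      _ ≤ n * ((D : ℝ) + 1) := by gcongr
  have hlogF : Real.log (N.factorial : ℝ) ≤ N * (n * ((D : ℝ) + 1)) := by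
    have h1 : (N.factorial : ℝ) ≤ (N : ℝ) ^ N := by exact_mod_cast Nat.factorial_le_pow N
    have h2 : (0 : ℝ) < (N.factorial : ℝ) := by exact_mod_cast Nat.factorial_pos N
    calc Real.log (N.factorial : ℝ) ≤ Real.log ((N : ℝ) ^ N) := Real.log_le_log h2 h1
      _ = N * Real.log N := Real.log_pow _ _
      _ ≤ _ := by gcongr
  have hL1 : (N : ℝ) * (((k + 1 : ℕ) : ℝ) * D * (C1 * L)) ≤ N * (n * ((D : ℝ) + 1) * (C1 * L)) := by
    have h2 : ((k + 1 : ℕ) : ℝ) ≤ n := by exact_mod_cast hin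
    gcongr
    linarith
  have hL2 : d * Real.log (N.factorial : ℝ) ≤ d * (N * (n * ((D : ℝ) + 1))) * L := by
    calc d * Real.log (N.factorial : ℝ) ≤ d * (N * (n * ((D : ℝ) + 1))) := by gcongr
      _ = d * (N * (n * ((D : ℝ) + 1))) * 1 := by ring
      _ ≤ _ := by gcongr
  have hstrict : (n * C1 + n * d) * ((D : ℝ) + 1) * N * L < a * ((D : ℝ) + 1) * N * L := by
    have : n * C1 + n * d < a := by rw [ha]; linarith
    gcongr
  calc (N : ℝ) * (((k + 1 : ℕ) : ℝ) * D * (C1 * L)) + d * Real.log (N.factorial : ℝ)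
      ≤ N * (n * ((D : ℝ) + 1) * (C1 * L)) + d * (N * (n * ((D : ℝ) + 1))) * L := add_le_add hL1 hL2
    _ = (n * C1 + n * d) * ((D : ℝ) + 1) * N * L := by ring
    _ < a * ((D : ℝ) + 1) * N * L := hstrict
    _ ≤ _ := hR

end Pool.Agent.MVD
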