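import Pool.Agent.MVD.PadicDet
import Pool.Agent.MVD.DetHgt
import Pool.Agent.MVD.CH
import Pool.Agent.MVD.Params
import Pool.Agent.MVD.Lin

/-!
# Module ClassRel (size 5)

Let `d = finrank`, `C1' = max C1 0`; `D, B` from `params n C1' ε d`; `A = A_ch * (n * D * C1' + 1)` with `A_ch` from `ch K ((D+1)^n)`. Let `I = free univ l`,
`i = card I`; `1 ≤ i ≤ n` (`j0 ∈ I`). `V = mk v` (`na_mk`), `θ = exp (-ln v) ≤ 1`, `N = (D+1)^i`, `e = B * (N - B^(i-1))`.
Claim: for all `Q : (I → Fin (D+1)) → S` the determinant `Δ` of `mon I (Q b) a` is `0`. Otherwise by `padic_det` `mk v Δ ≤ θ^e`, so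
`e * ln v ≤ -log (mk v Δ) ≤ hgt Δ` (`neg_log_mk_le`) `≤ N * i * D * (C1' L) + d log N!` (`det_hgt`; `hgt (Q b j) ≤ C1 L ≤ C1' L`), while
`e * ln v ≥ e * (ε L)`, contradicting `params`. (`Fintype.card (I → Fin (D+1)) = N`.)
`lin` for `T = {fun a => mon I P a : P ∈ S}` (transpose the matrix: `Matrix.det_transpose`) gives `c ≠ 0` orthogonal to all these vectors; `ch` (type `ι = (I → Fin (D+1))`,
the finset of the vectors, heights at most `n D C1' L ≤ (n D C1' + 1) L`: `hgt_prod`, `hgt_pow`) gives such a `c` with `hgt (c a) ≤ A L`. Put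
`G = ∑_a monomial (exponents a_j at j ∈ I, 0 elsewhere) (c a)`: distinct `a` give distinct monomials, so `G ≠ 0`, its coefficients are `c a` or `0`
(`hgt_zero`), degrees at most `D`, variables in `I`, `eval P G = ∑_a c a * mon I P a = 0` for `P ∈ S`.
-/

namespace Pool.Agent.MVD

open NumberField IsDedekindDomain Pool.Agent.H7.Abc Pool.Agent.AbcE MvPolynomial

/-- The exponent vector attached to `a`. -/
private noncomputable def ClassRel_ex {n : ℕ} (I : Finset (Fin n)) {D : ℕ} (a : I → Fin (D + 1)) :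
    Fin n →₀ ℕ :=
  Finsupp.equivFunOnFinite.symm (fun j => if h : j ∈ I then (a ⟨j, h⟩ : ℕ) else 0)

private theorem ClassRel_ex_mem {n : ℕ} (I : Finset (Fin n)) {D : ℕ} (a : I → Fin (D + 1)) {j : Fin n}
    (h : j ∈ I) : ClassRel_ex I a j = (a ⟨j, h⟩ : ℕ) := by
  simp [ClassRel_ex, h]

private theorem ClassRel_ex_notMem {n : ℕ} (I : Finset (Fin n)) {D : ℕ} (a : I → Fin (D + 1))
    {j : Fin n} (h : j ∉ I) : ClassRel_ex I a j = 0 := by
  simp [ClassRel_ex, h]

private theorem ClassRel_ex_inj {n : ℕ} (I : Finset (Fin n)) {D : ℕ} :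
    Function.Injective (ClassRel_ex I (D := D)) := by
  intro a b hab
  funext j
  apply Fin.ext
  have h := DFunLike.congr_fun hab (j : Fin n)
  rw [ClassRel_ex_mem I a j.2, ClassRel_ex_mem I b j.2] at h
  exact h

private theorem ClassRel_ex_le {n : ℕ} (I : Finset (Fin n)) {D : ℕ} (a : I → Fin (D + 1))
    (j : Fin n) : ClassRel_ex I a j ≤ D := by
  by_cases h : j ∈ I
  · rw [ClassRel_ex_mem I a h]
    exact Nat.lt_succ_iff.mp (a ⟨j, h⟩).2
  · rw [ClassRel_ex_notMem I a h]
    exact Nat.zero_le _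

private theorem ClassRel_prod {K : Type*} [Field K] {n : ℕ} (I : Finset (Fin n)) {D : ℕ}
    (a : I → Fin (D + 1)) (P : Fin n → K) :
    (ClassRel_ex I a).prod (fun j e => P j ^ e) = mon I P a := by
  rw [Finsupp.prod_fintype _ _ (fun j => pow_zero _)]
  have h1 : mon I P a = ∏ j : I, (fun j : Fin n => P j ^ ClassRel_ex I a j) j := by
    unfold mon
    refine Finset.prod_congr rfl (fun j _ => ?_)
    show P j ^ (a j : ℕ) = P j ^ ClassRel_ex I a j
    rw [ClassRel_ex_mem I a j.2]
  rw [h1, Finset.prod_coe_sort I (fun j : Fin n => P j ^ ClassRel_ex I a j)]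
  symm
  refine Finset.prod_subset (Finset.subset_univ I) (fun j _ hj => ?_)
  rw [ClassRel_ex_notMem I a hj, pow_zero]

/-- The polynomial with the coefficients `c`. -/
private theorem ClassRel_poly {K : Type*} [Field K] {n : ℕ} (I : Finset (Fin n)) {D : ℕ}
    (c : (I → Fin (D + 1)) → K) (hc : c ≠ 0) :
    ∃ G : MvPolynomial (Fin n) K, G ≠ 0 ∧ G.vars ⊆ I ∧ (∀ j, G.degreeOf j ≤ D) ∧
      (∀ m, (∃ a, coeff m G = c a) ∨ coeff m G = 0) ∧
      ∀ P : Fin n → K, eval P G = ∑ a, c a * mon I P a := by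
  classical
  have hco : ∀ m, coeff m (∑ a, monomial (ClassRel_ex I a) (c a)) =
      ∑ a, if ClassRel_ex I a = m then c a else 0 := by
    intro m
    rw [coeff_sum]
    refine Finset.sum_congr rfl (fun a _ => ?_)
    rw [coeff_monomial]
  have hco1 : ∀ a, coeff (ClassRel_ex I a) (∑ a, monomial (ClassRel_ex I a) (c a)) = c a := by
    intro a
    rw [hco, Finset.sum_eq_single a]
    · rw [if_pos rfl]
    · intro b _ hb
      rw [if_neg]
      exact fun h => hb (ClassRel_ex_inj I h)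
    · intro h
      exact absurd (Finset.mem_univ a) h
  have hco2 : ∀ m, (∀ a : I → Fin (D + 1), ClassRel_ex I a ≠ m) →
      coeff m (∑ a, monomial (ClassRel_ex I a) (c a)) = 0 := by
    intro m hm
    rw [hco]
    exact Finset.sum_eq_zero (fun a _ => if_neg (hm a))
  have hsup : ∀ m ∈ (∑ a, monomial (ClassRel_ex I a) (c a)).support,
      ∃ a : I → Fin (D + 1), ClassRel_ex I a = m := by
    intro m hm
    by_contra hcon
    push Not at hcon
    rw [mem_support_iff] at hm
    exact hm (hco2 m hcon)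
  refine ⟨∑ a, monomial (ClassRel_ex I a) (c a), ?_, ?_, ?_, ?_, ?_⟩
  · intro h0
    apply hc
    funext a
    have := hco1 a
    rw [h0, coeff_zero] at this
    exact this.symm
  · intro j hj
    rw [mem_vars_iff_mem_support] at hj
    obtain ⟨m, hm, hjm⟩ := hj
    obtain ⟨a, rfl⟩ := hsup m hm
    by_contra hjI
    rw [Finsupp.mem_support_iff] at hjm
    exact hjm (ClassRel_ex_notMem I a hjI)
  · intro j
    rw [degreeOf_le_iff]
    intro m hm
    obtain ⟨a, rfl⟩ := hsup m hm
    exact ClassRel_ex_le I a j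
  · intro m
    by_cases h : ∃ a : I → Fin (D + 1), ClassRel_ex I a = m
    · obtain ⟨a, rfl⟩ := h
      exact Or.inl ⟨a, hco1 a⟩
    · push Not at h
      exact Or.inr (hco2 m h)
  · intro P
    rw [map_sum]
    refine Finset.sum_congr rfl (fun a _ => ?_)
    rw [eval_monomial, ClassRel_prod]

/-- The relation between the free variables on one residue class. -/
theorem class_rel (K : Type*) [Field K] [NumberField K] (n : ℕ) (C1 ε : ℝ) (hε : 0 < ε) :
    ∃ (D : ℕ) (A : ℝ), 1 ≤ A ∧ ∀ (L : ℝ), 1 ≤ L → ∀ (v : HeightOneSpectrum (𝓞 K)),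
      ε * L ≤ ln v → ∀ (l : List (Rel K n)), Tower Finset.univ l →
      ∀ (Y : MvPolynomial (Fin n) K) (x0 : Fin n → K) (j0 : Fin n), j0 ∈ free Finset.univ l →
      (∀ R ∈ l, IntP (fun x => FinitePlace.mk v x) R.F) → IntP (fun x => FinitePlace.mk v x) Y →
      (∀ j, FinitePlace.mk v (x0 j) ≤ 1) →
      (∀ R ∈ l, eval x0 R.F = 0 ∧ FinitePlace.mk v (eval x0 (pderiv R.k R.F)) = 1) →
      eval x0 Y = 0 → FinitePlace.mk v (redE x0 l (fun j => eval x0 (pderiv j Y)) j0) = 1 →
      ∀ (S : Finset (Fin n → K)),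
        (∀ P ∈ S, (∀ j, hgt (P j) ≤ C1 * L ∧
          FinitePlace.mk v (P j - x0 j) ≤ Real.exp (-ln v)) ∧
          (∀ R ∈ l, eval P R.F = 0) ∧ eval P Y = 0) →
        ∃ G : MvPolynomial (Fin n) K, G ≠ 0 ∧ G.vars ⊆ free Finset.univ l ∧
          (∀ j, G.degreeOf j ≤ D) ∧ (∀ m, hgt (coeff m G) ≤ A * L) ∧ ∀ P ∈ S, eval P G = 0 := by
  classical
  have hC1 : (0 : ℝ) ≤ max C1 0 := le_max_right _ _
  obtain ⟨D, B, hDB⟩ := params n (max C1 0) ε (Module.finrank ℚ K : ℝ) hC1 hε (Nat.cast_nonneg _)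
  obtain ⟨Ac, hA1, hch⟩ := ch K ((D + 1) ^ n)
  have hE : (0 : ℝ) ≤ (n : ℝ) * D * max C1 0 := by positivity
  refine ⟨D, Ac * ((n : ℝ) * D * max C1 0 + 1), ?_, ?_⟩
  · exact one_le_mul_of_one_le_of_one_le hA1 (by linarith)
  intro L hL v hv l hT Y x0 j0 hj0 hI hY hx0 hF hY0 hJ S hS
  have hL0 : (0 : ℝ) ≤ L := by linarith
  have hi1 : 1 ≤ (free Finset.univ l).card := Finset.card_pos.mpr ⟨j0, hj0⟩
  have hin : (free Finset.univ l).card ≤ n := by
    have := Finset.card_le_univ (free Finset.univ l)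
    rwa [Fintype.card_fin] at this
  have hcard : Fintype.card ((free Finset.univ l) → Fin (D + 1)) =
      (D + 1) ^ (free Finset.univ l).card := by
    rw [Fintype.card_fun, Fintype.card_fin, Fintype.card_coe]
  have hlv : 0 ≤ ln v := le_trans (by positivity) hv
  have hhg : ∀ P ∈ S, ∀ j, hgt (P j) ≤ max C1 0 * L := fun P hP j =>
    ((hS P hP).1 j).1.trans (mul_le_mul_of_nonneg_right (le_max_left _ _) hL0)
  -- the determinants vanish
  have hdet : ∀ Q : ((free Finset.univ l) → Fin (D + 1)) → Fin n → K, (∀ b, Q b ∈ S) →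
      Matrix.det (Matrix.of fun a b => mon (free Finset.univ l) (Q b) a) = 0 := by
    intro Q hQ
    by_contra hne
    have h1 := padic_det (na_mk v) (Real.exp_nonneg (-ln v))
      (Real.exp_le_one_iff.mpr (by linarith)) hT hx0 hI hF hY hY0 hj0 hJ D B Q
      (fun b => ⟨fun j => ((hS (Q b) (hQ b)).1 j).2, (hS (Q b) (hQ b)).2.1, (hS (Q b) (hQ b)).2.2⟩)
    have h2 := neg_log_mk_le hne v
    have h3 := det_hgt (free Finset.univ l) D Q
    have h4 := (hDB _ hi1 hin).2 L hL
    have hpos : 0 < FinitePlace.mk v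
        (Matrix.det (Matrix.of fun a b => mon (free Finset.univ l) (Q b) a)) :=
      FinitePlace.pos_iff.mpr hne
    have h5 := Real.log_le_log hpos h1
    rw [Real.log_pow, Real.log_exp] at h5
    have h6 : ∑ b, ∑ j : (free Finset.univ l), (D : ℝ) * hgt (Q b j) ≤
        ((D + 1 : ℕ) ^ (free Finset.univ l).card : ℝ) *
          ((free Finset.univ l).card * D * (max C1 0 * L)) := by
      calc ∑ b, ∑ j : (free Finset.univ l), (D : ℝ) * hgt (Q b j)
          ≤ ∑ b : ((free Finset.univ l) → Fin (D + 1)), ∑ j : (free Finset.univ l),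
              (D : ℝ) * (max C1 0 * L) :=
            Finset.sum_le_sum fun b _ => Finset.sum_le_sum fun j _ =>
              mul_le_mul_of_nonneg_left (hhg _ (hQ b) _) (Nat.cast_nonneg _)
        _ = _ := by
            rw [Finset.sum_const, Finset.sum_const, Finset.card_univ, Finset.card_univ, hcard,
              Fintype.card_coe]
            simp only [nsmul_eq_mul]
            push_cast
            ring
    have h7 : ((B * ((D + 1) ^ (free Finset.univ l).card -
        B ^ ((free Finset.univ l).card - 1)) : ℕ) : ℝ) * (ε * L) ≤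
        ((B * ((D + 1) ^ (free Finset.univ l).card -
        B ^ ((free Finset.univ l).card - 1)) : ℕ) : ℝ) * ln v :=
      mul_le_mul_of_nonneg_left hv (Nat.cast_nonneg _)
    rw [hcard] at h3
    push_cast at h3 h4 h5 h6 h7 ⊢
    linarith
  -- a nonzero vector
  obtain ⟨c0, hc0, hc0T⟩ := lin {t : ((free Finset.univ l) → Fin (D + 1)) → K |
      ∃ P ∈ S, t = fun a => mon (free Finset.univ l) P a} (by
    intro g hg
    choose Q hQS hQ using hg
    have h1 := hdet Q hQS
    rw [← Matrix.det_transpose] at h1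
    rw [← h1]
    congr 1
    ext a b
    simp only [Matrix.of_apply, Matrix.transpose_apply]
    rw [hQ a])
  obtain ⟨c, hc, hcA, hcS⟩ := hch ((free Finset.univ l) → Fin (D + 1))
    (by rw [hcard]; exact Nat.pow_le_pow_right (Nat.succ_pos D) hin)
    (S.image (fun P a => mon (free Finset.univ l) P a)) (((n : ℝ) * D * max C1 0 + 1) * L)
    (one_le_mul_of_one_le_of_one_le (by linarith) hL) (by
      intro z hz a
      rw [Finset.mem_image] at hz
      obtain ⟨P, hP, rfl⟩ := hz
      have h1 : hgt (mon (free Finset.univ l) P a) ≤ ∑ j : (free Finset.univ l),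
          hgt (P j ^ (a j : ℕ)) := hgt_prod _ _
      have h2 : ∑ j : (free Finset.univ l), hgt (P j ^ (a j : ℕ)) ≤
          ∑ j : (free Finset.univ l), (D : ℝ) * (max C1 0 * L) := by
        refine Finset.sum_le_sum (fun j _ => (hgt_pow _ _).trans ?_)
        refine mul_le_mul ?_ (hhg P hP j) (hgt_nonneg _) (Nat.cast_nonneg _)
        exact_mod_cast Nat.lt_succ_iff.mp (a j).2
      rw [Finset.sum_const, Finset.card_univ, Fintype.card_coe, nsmul_eq_mul] at h2
      have h3 : ((free Finset.univ l).card : ℝ) * ((D : ℝ) * (max C1 0 * L)) ≤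
          (n : ℝ) * ((D : ℝ) * (max C1 0 * L)) :=
        mul_le_mul_of_nonneg_right (by exact_mod_cast hin) (by positivity)
      show hgt (mon (free Finset.univ l) P a) ≤ _
      nlinarith [h1, h2, h3])
    ⟨c0, hc0, by
      intro z hz
      rw [Finset.mem_image] at hz
      obtain ⟨P, hP, rfl⟩ := hz
      exact hc0T _ ⟨P, hP, rfl⟩⟩
  obtain ⟨G, hG0, hGv, hGd, hGc, hGe⟩ := ClassRel_poly (free Finset.univ l) c hc
  refine ⟨G, hG0, hGv, hGd, ?_, ?_⟩
  · intro m
    rcases hGc m with ⟨a, ha⟩ | h0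
    · rw [ha, mul_assoc]
      exact hcA a
    · rw [h0, hgt_zero]
      positivity
  · intro P hP
    rw [hGe]
    exact hcS _ (Finset.mem_image.mpr ⟨P, hP, rfl⟩)

end Pool.Agent.MVD
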