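import Pool.Agent.MVD.Defs

/-!
# Module CountDeg (size 2)

If `B = 0` the left side is `0`. The indices `a` with `σ a j < B` for all `j` inject into `(I' → Fin B)`, so there are at most `B^(card I')` of
them; every other `a` has some `σ a j ≥ B`, so `(σ a).degree ≥ B`. Sum.
-/

namespace Pool.Agent.MVD

open MvPolynomial

/-- Many different monomials in few variables have a large total degree. -/
theorem count_deg {n : ℕ} {ι : Type*} [Fintype ι] (I' : Finset (Fin n)) (B : ℕ)
    (σ : ι → (Fin n →₀ ℕ)) (hσ : Function.Injective σ) (hs : ∀ a, (σ a).support ⊆ I') :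
    B * (Fintype.card ι - B ^ I'.card) ≤ ∑ a, (σ a).degree := by
  classical
  set S : Finset ι := Finset.univ.filter fun a => ∃ j, B ≤ σ a j with hS
  set S' : Finset ι := Finset.univ.filter fun a => ¬ ∃ j, B ≤ σ a j with hS'
  have hlt : ∀ a : S', ∀ j, σ a j < B := by
    intro a j
    have h0 := (Finset.mem_filter.1 a.2).2
    by_contra hcon
    push Not at hcon
    exact h0 ⟨j, hcon⟩
  have hcard' : S'.card ≤ B ^ I'.card := by
    let g : S' → (I' → Fin B) := fun a j => ⟨σ a j, hlt a j⟩
    have hg : Function.Injective g := by
      intro a b hab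
      apply Subtype.ext
      apply hσ
      ext j
      by_cases hj : j ∈ I'
      · have := congrFun hab ⟨j, hj⟩
        exact Fin.mk.inj_iff.1 this
      · have h1 : σ a j = 0 := by
          by_contra hne
          exact hj (hs a (Finsupp.mem_support_iff.2 hne))
        have h2 : σ b j = 0 := by
          by_contra hne
          exact hj (hs b (Finsupp.mem_support_iff.2 hne))
        rw [h1, h2]
    have := Fintype.card_le_of_injective g hg
    simpa using this
  have hsum : S.card + S'.card = Fintype.card ι := by
    rw [hS, hS', Finset.card_filter_add_card_filter_not, Finset.card_univ]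
  have h1 : B * S.card ≤ ∑ a ∈ S, (σ a).degree := by
    rw [mul_comm, ← smul_eq_mul]
    apply Finset.card_nsmul_le_sum
    intro a ha
    rw [hS, Finset.mem_filter] at ha
    obtain ⟨j, hj⟩ := ha.2
    exact hj.trans (Finsupp.le_degree j _)
  calc B * (Fintype.card ι - B ^ I'.card) ≤ B * S.card := Nat.mul_le_mul_left _ (by omega)
    _ ≤ ∑ a ∈ S, (σ a).degree := h1
    _ ≤ ∑ a, (σ a).degree := Finset.sum_le_sum_of_subset (Finset.subset_univ _)

end Pool.Agent.MVD
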