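import Pool.Agent.MVD.IntPoly

/-!
# Module DetVal (size 4)

Let `Σ` be the finite set of all monomials of the `g a`. `A a b = ∑_{m ∈ Σ} coeff m (g a) * mv(m, b) + r a b`, `mv(m,b) = ∏ (u b j)^(m j)`,
`V (r a b) ≤ θ^e`, `V (mv(m,b)) ≤ θ^(degree m)`. The determinant is multilinear in the rows `a`.
-/

namespace Pool.Agent.MVD

open MvPolynomial

theorem DetVal_prod_sub {K : Type*} [Field K] {V : K → ℝ} (hV : NA V) {t : ℝ} (ht : 0 ≤ t)
    {ι : Type*} (s : Finset ι) (a b : ι → K) (ha : ∀ i, V (a i) ≤ 1) (hb : ∀ i, V (b i) ≤ 1)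
    (hab : ∀ i, V (a i - b i) ≤ t) : V (∏ i ∈ s, a i - ∏ i ∈ s, b i) ≤ t := by
  classical
  induction s using Finset.induction_on with
  | empty => simpa [hV.zero] using ht
  | insert i s hi ih =>
    rw [Finset.prod_insert hi, Finset.prod_insert hi]
    have h1 : a i * ∏ x ∈ s, a x - b i * ∏ x ∈ s, b x =
        a i * (∏ x ∈ s, a x - ∏ x ∈ s, b x) + (a i - b i) * ∏ x ∈ s, b x := by ring
    rw [h1]
    refine (hV.add _ _).trans (max_le ?_ ?_)
    · rw [hV.mul]
      calc V (a i) * V (∏ x ∈ s, a x - ∏ x ∈ s, b x) ≤ 1 * t :=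
            mul_le_mul (ha i) ih (hV.nonneg _) zero_le_one
        _ = t := one_mul t
    · rw [hV.mul]
      have h2 : V (∏ x ∈ s, b x) ≤ 1 := by
        rw [na_prod hV]
        exact Finset.prod_le_one (fun x _ => hV.nonneg _) (fun x _ => hb x)
      calc V (a i - b i) * V (∏ x ∈ s, b x) ≤ t * 1 :=
            mul_le_mul (hab i) h2 (hV.nonneg _) ht
        _ = t := mul_one t

theorem DetVal_sign {K : Type*} [Field K] {V : K → ℝ} (hV : NA V) {ι : Type*} [Fintype ι]
    [DecidableEq ι] (σ : Equiv.Perm ι) (x : K) : V (Equiv.Perm.sign σ • x) = V x := by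
  rcases Int.units_eq_one_or (Equiv.Perm.sign σ) with h | h
  · rw [h, one_smul]
  · rw [h, Units.neg_smul, one_smul, na_neg hV]

/-- A determinant of values of polynomials at small vectors is small. -/
theorem det_val {K : Type*} [Field K] {n : ℕ} {V : K → ℝ} (hV : NA V) {θ : ℝ} (hθ : 0 ≤ θ)
    (hθ1 : θ ≤ 1) {ι : Type*} [Fintype ι] [DecidableEq ι] (A : Matrix ι ι K)
    (u : ι → Fin n → K) (hu : ∀ b j, V (u b j) ≤ θ) (I' : Finset (Fin n))
    (g : ι → MvPolynomial (Fin n) K) (hg : ∀ a, IntP V (g a) ∧ (g a).vars ⊆ I') (e : ℕ)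
    (hA : ∀ a b, V (A a b - eval (u b) (g a)) ≤ θ ^ e)
    (he : ∀ σ : ι → (Fin n →₀ ℕ), Function.Injective σ → (∀ a, (σ a).support ⊆ I') →
      e ≤ ∑ a, (σ a).degree) : V A.det ≤ θ ^ e := by
  classical
  have hθe : θ ^ e ≤ 1 := pow_le_one₀ hθ hθ1
  have hθe0 : 0 ≤ θ ^ e := pow_nonneg hθ e
  set B : Matrix ι ι K := Matrix.of fun a b => eval (u b) (g a) with hBdef
  have hB1 : ∀ a b, V (B a b) ≤ 1 := by
    intro a b
    have := intP_eval hV (hg a).1 (e := 0) (fun m _ => Nat.zero_le _) hθ hθ1 (hu b)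
    simpa [hBdef] using this
  have hA1 : ∀ a b, V (A a b) ≤ 1 := by
    intro a b
    have h1 : A a b = (A a b - eval (u b) (g a)) + B a b := by
      simp [hBdef]
    rw [h1]
    exact (hV.add _ _).trans (max_le ((hA a b).trans hθe) (hB1 a b))
  -- the difference of the determinants
  have hdiff : V (A.det - B.det) ≤ θ ^ e := by
    rw [Matrix.det_apply, Matrix.det_apply, ← Finset.sum_sub_distrib]
    refine na_sum hV _ _ hθe0 (fun σ _ => ?_)
    rw [← smul_sub, DetVal_sign hV]
    exact DetVal_prod_sub hV hθe0 _ _ _ (fun i => hA1 _ _) (fun i => hB1 _ _)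
      (fun i => by simpa [hBdef] using hA (σ i) i)
  -- the determinant of `B`
  set S : Finset (Fin n →₀ ℕ) := Finset.univ.biUnion (fun a => (g a).support) with hS
  set mv : (Fin n →₀ ℕ) → ι → K := fun m b => ∏ j, u b j ^ m j with hmv
  have hrow : ∀ a, B a = ∑ m : S, coeff (m : Fin n →₀ ℕ) (g a) • mv m := by
    intro a
    funext b
    rw [Finset.sum_apply]
    simp only [Pi.smul_apply, smul_eq_mul, hmv, hBdef, Matrix.of_apply]
    rw [eval_eq']
    rw [Finset.sum_coe_sort S (fun m => coeff m (g a) * ∏ j, u b j ^ m j)]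
    refine Finset.sum_subset ?_ ?_
    · intro m hm
      exact Finset.mem_biUnion.mpr ⟨a, Finset.mem_univ _, hm⟩
    · intro m _ hm
      rw [notMem_support_iff.mp hm, zero_mul]
  have hdetB : B.det = ∑ r : ι → S, (∏ a, coeff (r a : Fin n →₀ ℕ) (g a)) •
      Matrix.det (Matrix.of fun a b => mv (r a) b) := by
    have h1 : B.det = (Matrix.detRowAlternating (R := K) (n := ι)).toMultilinearMap
        (fun a => ∑ m : S, coeff (m : Fin n →₀ ℕ) (g a) • mv m) := by
      have : (fun a => ∑ m : S, coeff (m : Fin n →₀ ℕ) (g a) • mv m) = B := by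
        funext a
        exact (hrow a).symm
      rw [this]
      rfl
    rw [h1, MultilinearMap.map_sum]
    refine Finset.sum_congr rfl (fun r _ => ?_)
    rw [MultilinearMap.map_smul_univ]
    rfl
  have hBdet : V B.det ≤ θ ^ e := by
    rw [hdetB]
    refine na_sum hV _ _ hθe0 (fun r _ => ?_)
    rw [smul_eq_mul, hV.mul]
    by_cases hc : ∃ a, coeff (r a : Fin n →₀ ℕ) (g a) = 0
    · obtain ⟨a, ha⟩ := hc
      rw [Finset.prod_eq_zero (Finset.mem_univ a) ha, hV.zero, zero_mul]
      exact hθe0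
    push Not at hc
    by_cases hinj : Function.Injective (fun a => (r a : Fin n →₀ ℕ))
    · have hsupp : ∀ a, ((r a : Fin n →₀ ℕ)).support ⊆ I' := by
        intro a j hj
        apply (hg a).2
        rw [mem_vars]
        exact ⟨r a, mem_support_iff.mpr (hc a), hj⟩
      have hdeg := he (fun a => (r a : Fin n →₀ ℕ)) hinj hsupp
      have hcoef : V (∏ a, coeff (r a : Fin n →₀ ℕ) (g a)) ≤ 1 := by
        rw [na_prod hV]
        exact Finset.prod_le_one (fun a _ => hV.nonneg _) (fun a _ => (hg a).1 _)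
      have hdet : V (Matrix.det (Matrix.of fun a b => mv (r a) b)) ≤ θ ^ e := by
        rw [Matrix.det_apply]
        refine na_sum hV _ _ hθe0 (fun σ _ => ?_)
        rw [DetVal_sign hV, na_prod hV]
        have h1 : ∀ i, V ((Matrix.of fun a b => mv (r a) b) (σ i) i) ≤
            θ ^ ((r (σ i) : Fin n →₀ ℕ).degree) := by
          intro i
          simp only [Matrix.of_apply, hmv]
          rw [na_prod hV, Finsupp.degree_eq_sum, ← Finset.prod_pow_eq_pow_sum]
          refine Finset.prod_le_prod (fun j _ => hV.nonneg _) (fun j _ => ?_)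
          rw [na_pow hV]
          exact pow_le_pow_left₀ (hV.nonneg _) (hu i j) _
        calc ∏ i, V ((Matrix.of fun a b => mv (r a) b) (σ i) i)
            ≤ ∏ i, θ ^ ((r (σ i) : Fin n →₀ ℕ).degree) :=
              Finset.prod_le_prod (fun i _ => hV.nonneg _) (fun i _ => h1 i)
          _ = θ ^ (∑ i, (r (σ i) : Fin n →₀ ℕ).degree) := Finset.prod_pow_eq_pow_sum _ _ _
          _ = θ ^ (∑ i, (r i : Fin n →₀ ℕ).degree) := by
              rw [Equiv.sum_comp σ (fun i => (r i : Fin n →₀ ℕ).degree)]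
          _ ≤ θ ^ e := pow_le_pow_of_le_one hθ hθ1 hdeg
      calc V (∏ a, coeff (r a : Fin n →₀ ℕ) (g a)) *
            V (Matrix.det (Matrix.of fun a b => mv (r a) b)) ≤ 1 * θ ^ e :=
            mul_le_mul hcoef hdet (hV.nonneg _) zero_le_one
        _ = θ ^ e := one_mul _
    · have : Matrix.det (Matrix.of fun a b => mv (r a) b) = 0 := by
        simp only [Function.Injective] at hinj
        push Not at hinj
        obtain ⟨a, a', haa, hne⟩ := hinj
        refine Matrix.det_zero_of_row_eq hne ?_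
        funext b
        simp only [Matrix.of_apply]
        rw [haa]
      rw [this, hV.zero, mul_zero]
      exact hθe0
  have : A.det = (A.det - B.det) + B.det := by ring
  rw [this]
  exact (hV.add _ _).trans (max_le hdiff hBdet)

end Pool.Agent.MVD
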