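import Pool.Agent.MVD.IntPoly

/-!
# Module Taylor (size 3)

`intP_translate`: `g' = aeval (fun j => C (x0 j) + X j) g`, i.e. `∑_m C (coeff m g) * ∏ (C (x0 j) + X j)^(m j)`: integral by the
closure properties (`intP_sum`, `intP_prod`, `intP_pow`, `intP_add`, `intP_C`, `intP_X`); evaluation: `eval u (aeval ..)`.
`taylor`: with `g'` as above let `q` = the part of `g'` of degree at least 2 (`∑_{m ∈ g'.support, 2 ≤ degree m} monomial m (coeff m g')`).
`g' = C (eval x0 g) + ∑_j C (eval x0 (pderiv j g)) X_j + q`: it is enough to check the constant and the linear coefficients of `g'`;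
or prove the whole expansion directly by induction on `g` (`MvPolynomial.induction_on`: constants, sums, multiplication by `X_i`;
for `g * X_i`: `(x0_i + u_i) (g(x0) + ∑ g_j u_j + q) = g(x0) x0_i + g(x0) u_i + ∑ g_j x0_i u_j + (x0_i q + u_i ∑ g_j u_j + u_i q)`).
For the induction one must first remove the integrality: prove for all `g` the existence of `q` with `OrdGE 2 q` and the identity,
then get integrality of `q` from that of `g'` by comparing coefficients; the direct way (define `q` as a part of `g'`) is simpler.
-/

namespace Pool.Agent.MVD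

open MvPolynomial

variable {K : Type*} [Field K] {n : ℕ} {V : K → ℝ}

/-- translation as an algebra map -/
private noncomputable def taylorT (x0 : Fin n → K) :
    MvPolynomial (Fin n) K →ₐ[K] MvPolynomial (Fin n) K :=
  aeval (fun j => C (x0 j) + X j)

private theorem taylorT_intP (hV : NA V) {g : MvPolynomial (Fin n) K} (hg : IntP V g)
    {x0 : Fin n → K} (hx0 : ∀ j, V (x0 j) ≤ 1) : IntP V (taylorT x0 g) := by
  unfold taylorT
  rw [aeval_def, eval₂_eq']
  apply intP_sum hV
  intro m _
  apply intP_mul hV
  · exact intP_C hV (hg m)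
  · apply intP_prod hV
    intro j _
    apply intP_pow hV
    exact intP_add hV (intP_C hV (hx0 j)) (intP_X hV j)

private theorem taylorT_eval (g : MvPolynomial (Fin n) K) (x0 u : Fin n → K) :
    eval (fun j => x0 j + u j) g = eval u (taylorT x0 g) := by
  unfold taylorT
  induction g using MvPolynomial.induction_on with
  | C a => simp
  | add p q hp hq => rw [map_add, map_add, map_add, hp, hq]
  | mul_X p i hp => rw [map_mul, map_mul, map_mul, hp]; simp

/-- Translation by an integral vector. -/
theorem intP_translate (hV : NA V) {g : MvPolynomial (Fin n) K} (hg : IntP V g)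
    {x0 : Fin n → K} (hx0 : ∀ j, V (x0 j) ≤ 1) :
    ∃ g' : MvPolynomial (Fin n) K, IntP V g' ∧
      ∀ u : Fin n → K, eval (fun j => x0 j + u j) g = eval u g' :=
  ⟨taylorT x0 g, taylorT_intP hV hg hx0, fun u => taylorT_eval g x0 u⟩

private theorem taylor_ordX (j : Fin n) : OrdGE 1 (X j : MvPolynomial (Fin n) K) := by
  classical
  intro m hm
  rw [coeff_X, Ne, ite_eq_right_iff, Classical.not_imp] at hm
  rw [← hm.1]
  simp [Finsupp.degree_single]

private theorem taylor_ord0 (f : MvPolynomial (Fin n) K) : OrdGE 0 f := fun _ _ => Nat.zero_le _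

private theorem taylor_ord_sum {e : ℕ} {ι : Type*} (s : Finset ι)
    (f : ι → MvPolynomial (Fin n) K) (h : ∀ i ∈ s, OrdGE e (f i)) : OrdGE e (∑ i ∈ s, f i) := by
  classical
  induction s using Finset.induction_on with
  | empty => intro m hm; simp at hm
  | insert a s ha ih =>
    rw [Finset.sum_insert ha]
    exact ordGE_add (h a (Finset.mem_insert_self _ _))
      (ih fun i hi => h i (Finset.mem_insert_of_mem hi))

private theorem taylor_ind (x0 : Fin n → K) (g : MvPolynomial (Fin n) K) :
    ∃ q : MvPolynomial (Fin n) K, OrdGE 2 q ∧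
      taylorT x0 g = C (eval x0 g) + ∑ j, C (eval x0 (pderiv j g)) * X j + q := by
  induction g using MvPolynomial.induction_on with
  | C a =>
    refine ⟨0, fun m hm => absurd (coeff_zero m) hm, ?_⟩
    simp [taylorT, algebraMap_eq]
  | add p r hp hr =>
    obtain ⟨q1, h1, e1⟩ := hp
    obtain ⟨q2, h2, e2⟩ := hr
    refine ⟨q1 + q2, ordGE_add h1 h2, ?_⟩
    rw [map_add, e1, e2]
    simp only [map_add, add_mul, Finset.sum_add_distrib]
    ring
  | mul_X p i hp =>
    obtain ⟨q, h1, e1⟩ := hp
    refine ⟨(∑ j, C (eval x0 (pderiv j p)) * X j) * X i + q * (C (x0 i) + X i), ?_, ?_⟩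
    · apply ordGE_add
      · exact ordGE_mul (e := 1) (e' := 1) (taylor_ord_sum _ _ fun j _ =>
          ordGE_mul (e := 0) (e' := 1) (taylor_ord0 _) (taylor_ordX j)) (taylor_ordX i)
      · exact ordGE_mul (e := 2) (e' := 0) h1 (taylor_ord0 _)
    · have hX : taylorT x0 (X i) = C (x0 i) + X i := by simp [taylorT]
      rw [map_mul, e1, hX]
      have hd : ∀ j, eval x0 (pderiv j (p * X i)) =
          eval x0 (pderiv j p) * x0 i + eval x0 p * (if j = i then 1 else 0) := by
        intro j
        classical
        rw [pderiv_mul, pderiv_X]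
        simp only [map_add, map_mul, eval_X]
        congr 2
        by_cases hji : j = i
        · subst hji; simp
        · simp [hji, Ne.symm hji]
      simp only [hd, map_add, map_mul, add_mul, Finset.sum_add_distrib, eval_X]
      have hs : ∑ j, C (eval x0 p) * C (if j = i then (1:K) else 0) * X j =
          (C (eval x0 p) * X i : MvPolynomial (Fin n) K) := by
        rw [Finset.sum_eq_single i]
        · simp
        · intro j _ hji; simp [hji]
        · intro h; exact absurd (Finset.mem_univ i) h
      rw [hs]
      have hs2 : ∑ j, C (eval x0 (pderiv j p)) * C (x0 i) * X j =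
          (∑ j, C (eval x0 (pderiv j p)) * X j : MvPolynomial (Fin n) K) * C (x0 i) := by
        rw [Finset.sum_mul]
        exact Finset.sum_congr rfl fun j _ => by ring
      rw [hs2]
      ring

/-- Taylor expansion. -/
theorem taylor (hV : NA V) {g : MvPolynomial (Fin n) K} (hg : IntP V g)
    {x0 : Fin n → K} (hx0 : ∀ j, V (x0 j) ≤ 1) :
    ∃ q : MvPolynomial (Fin n) K, IntP V q ∧ OrdGE 2 q ∧ ∀ u : Fin n → K,
      eval (fun j => x0 j + u j) g = eval x0 g + ∑ j, eval x0 (pderiv j g) * u j + eval u q := by
  classical
  obtain ⟨q, hq, he⟩ := taylor_ind x0 g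
  refine ⟨q, ?_, hq, ?_⟩
  · intro m
    by_cases hm : coeff m q = 0
    · rw [hm, hV.zero]; exact zero_le_one
    · have hdeg := hq m hm
      have h1 := taylorT_intP hV hg hx0 m
      rw [he, coeff_add, coeff_add] at h1
      have h2 : coeff m (C (eval x0 g) : MvPolynomial (Fin n) K) = 0 := by
        rw [coeff_C, if_neg]
        rintro rfl
        simp at hdeg
      have h3 : coeff m (∑ j, C (eval x0 (pderiv j g)) * X j : MvPolynomial (Fin n) K) = 0 := by
        rw [coeff_sum]
        apply Finset.sum_eq_zero
        intro j _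
        rw [coeff_C_mul, coeff_X, if_neg, mul_zero]
        rintro rfl
        simp [Finsupp.degree_single] at hdeg
      rw [h2, h3, zero_add, zero_add] at h1
      exact h1
  · intro u
    rw [taylorT_eval, he]
    simp

end Pool.Agent.MVD
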