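import Pool.Agent.MVD.LocT
import Pool.Agent.MVD.Taylor
import Pool.Agent.MVD.DetVal
import Pool.Agent.MVD.CountDeg

/-!
# Module CongDet (size 4)

Let `e = B * ((D+1)^m - B^(m-1))`, `I' = univ.erase k`, `u b j = Q b j - 1`, so `V (u b j) ≤ θ < 1` and `V (Q b j) = 1` (`V` ultrametric: `V (x) = 1` if `V (x - 1) < 1`).
Let `Y = ∏_j X_j ^ (n j).toNat - ∏_j X_j ^ (-n j).toNat`, an integral polynomial with `eval 1 Y = 0` and `eval 1 (pderiv j Y) = n j`. `∏_j Q b j ^ n j = ∏ Q^(toNat n) / ∏ Q^(toNat (-n))`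
and the denominator has `V = 1`, so `V (eval (Q b) Y) ≤ θ^J`. `taylor` (module `Taylor`) at `x0 = 1` gives an integral `q` of order at least 2 with
`eval (1 + u) Y = ∑_j n_j u_j + eval u q`. So `u_k = - ∑_{j ≠ k} (n_j/n_k) u_j - (1/n_k) eval u q + (1/n_k) eval (1+u) Y`, where `V (n_j / n_k) ≤ 1` (`V` of an integer is at
most 1, `na_natCast`, `na_neg`) and the last term has `V ≤ θ^J ≤ θ^e`. So the hypothesis `hlin` of `local_expand_tol` (`M = e`) holds (for `j ≠ k`: `c = Pi.single j 1`, `q = 0`).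
For `a : univ → Fin (D+1)` the polynomial `f_a = ∏ X_j^(a j)`, translated by 1 (`intP_translate`), is approximated by `g_a` with variables in `I'`. `det_val` for
`A a b = mon univ (Q b) a` (`θ^e`), with `he` from `count_deg` (`Fintype.card (univ → Fin (D+1)) = (D+1)^m`, `I'.card = m - 1`).
(Compare the proof of `padic_det` in `PadicDet.lean`.)
-/

namespace Pool.Agent.MVD

open MvPolynomial

private theorem CongDet_intCast {K : Type*} [Field K] {V : K → ℝ} (hV : NA V) (z : ℤ) :
    V (z : K) ≤ 1 := by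
  rcases Int.eq_nat_or_neg z with ⟨a, rfl | rfl⟩
  · rw [Int.cast_natCast]; exact na_natCast hV a
  · rw [Int.cast_neg, Int.cast_natCast, na_neg hV]; exact na_natCast hV a

private theorem CongDet_unit {K : Type*} [Field K] {V : K → ℝ} (hV : NA V) {θ : ℝ}
    (hθ1 : θ < 1) {x : K} (hx : V (x - 1) ≤ θ) : V x = 1 := by
  apply le_antisymm
  · have h := hV.add (x - 1) 1
    rw [sub_add_cancel, hV.one] at h
    exact h.trans (max_le (hx.trans hθ1.le) le_rfl)
  · have h := hV.add x (-(x - 1))
    rw [show x + -(x - 1) = 1 by ring, hV.one, na_neg hV] at h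
    rcases le_max_iff.1 h with h | h
    · exact h
    · exact absurd (h.trans hx) (not_le.2 hθ1)

private theorem CongDet_monoInt {K : Type*} [Field K] {V : K → ℝ} (hV : NA V) {m : ℕ}
    (s : Fin m →₀ ℕ) : IntP V (monomial s (1 : K)) := by
  classical
  intro t
  rw [coeff_monomial]
  split_ifs
  · rw [hV.one]
  · rw [hV.zero]; exact zero_le_one

/-- The determinants of monomials at points with `Q ≡ 1` and `Q ^ n ≡ 1` modulo a high power. -/
theorem cong_det {K : Type*} [Field K] {m : ℕ} {V : K → ℝ} (hV : NA V) {θ : ℝ} (hθ : 0 ≤ θ)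
    (hθ1 : θ < 1) (n : Fin m → ℤ) (k : Fin m) (hk : V ((n k : ℤ) : K) = 1) (D B J : ℕ)
    (hJ : B * ((D + 1) ^ m - B ^ (m - 1)) ≤ J)
    (Q : (↥(Finset.univ : Finset (Fin m)) → Fin (D + 1)) → Fin m → K)
    (hQ : ∀ b, (∀ j, V (Q b j - 1) ≤ θ) ∧ V (∏ j, Q b j ^ n j - 1) ≤ θ ^ J) :
    V (Matrix.det (Matrix.of fun a b => mon (Finset.univ : Finset (Fin m)) (Q b) a)) ≤
      θ ^ (B * ((D + 1) ^ m - B ^ (m - 1))) := by
  classical
  have hQ1 : ∀ b j, V (Q b j) = 1 := fun b j => CongDet_unit hV hθ1 ((hQ b).1 j)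
  have hQ0 : ∀ b j, Q b j ≠ 0 := by
    intro b j h
    have := hQ1 b j
    rw [h, hV.zero] at this
    exact zero_ne_one this
  have hnk : ((n k : ℤ) : K) ≠ 0 := by
    intro h
    rw [h, hV.zero] at hk
    exact zero_ne_one hk
  have hVinv : V ((n k : K)⁻¹) = 1 := by
    have h := hV.mul ((n k : ℤ) : K) ((n k : K)⁻¹)
    rw [mul_inv_cancel₀ hnk, hV.one, hk, one_mul] at h
    exact h.symm
  -- the relation
  let s1 : Fin m →₀ ℕ := Finsupp.equivFunOnFinite.symm fun j => (n j).toNat
  let s2 : Fin m →₀ ℕ := Finsupp.equivFunOnFinite.symm fun j => (-n j).toNat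
  let Y : MvPolynomial (Fin m) K := monomial s1 1 - monomial s2 1
  have hY : IntP V Y := by
    have : Y = monomial s1 1 + -monomial s2 1 := sub_eq_add_neg _ _
    rw [this]
    exact intP_add hV (CongDet_monoInt hV s1) (intP_neg hV (CongDet_monoInt hV s2))
  have hYe : ∀ x : Fin m → K, eval x Y = ∏ j, x j ^ (n j).toNat - ∏ j, x j ^ (-n j).toNat := by
    intro x
    simp only [Y, map_sub, eval_monomial, one_mul]
    rw [Finsupp.prod_fintype _ _ (fun i => pow_zero _), Finsupp.prod_fintype _ _ (fun i => pow_zero _)]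
    rfl
  have hYd : ∀ j, eval (fun _ => (1 : K)) (pderiv j Y) = ((n j : ℤ) : K) := by
    intro j
    simp only [Y, map_sub, pderiv_monomial, eval_monomial, one_mul]
    simp only [one_pow, Finsupp.prod, Finset.prod_const_one, mul_one]
    have h1 : s1 j = (n j).toNat := rfl
    have h2 : s2 j = (-n j).toNat := rfl
    rw [h1, h2]
    have h3 := Int.toNat_sub_toNat_neg (n j)
    have h4 : (((n j).toNat : ℤ) : K) - (((-n j).toNat : ℤ) : K) = ((n j : ℤ) : K) := by
      rw [← Int.cast_sub, h3]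
    rw [Int.cast_natCast, Int.cast_natCast] at h4
    exact h4
  have hYQ : ∀ b, V (eval (Q b) Y) ≤ θ ^ J := by
    intro b
    rw [hYe]
    have h1 : ∏ j, Q b j ^ n j = (∏ j, Q b j ^ (n j).toNat) * (∏ j, Q b j ^ (-n j).toNat)⁻¹ := by
      rw [← Finset.prod_inv_distrib, ← Finset.prod_mul_distrib]
      refine Finset.prod_congr rfl fun j _ => ?_
      rw [← zpow_natCast, ← zpow_natCast, ← zpow_neg, ← zpow_add₀ (hQ0 b j), ← sub_eq_add_neg,
        Int.toNat_sub_toNat_neg]
    have h20 : ∏ j, Q b j ^ (-n j).toNat ≠ 0 :=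
      Finset.prod_ne_zero_iff.2 fun j _ => pow_ne_zero _ (hQ0 b j)
    have h2 : V (∏ j, Q b j ^ (-n j).toNat) = 1 := by
      rw [na_prod hV]
      exact Finset.prod_eq_one fun j _ => by rw [na_pow hV, hQ1, one_pow]
    have h3 : ∏ j, Q b j ^ (n j).toNat - ∏ j, Q b j ^ (-n j).toNat =
        (∏ j, Q b j ^ (-n j).toNat) * (∏ j, Q b j ^ n j - 1) := by
      rw [h1]
      field_simp
    rw [h3, hV.mul, h2, one_mul]
    exact (hQ b).2
  obtain ⟨q, hq1, hq2, hq3⟩ := taylor hV hY (x0 := fun _ => (1 : K)) (fun j => hV.one.le)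
  -- the coordinates
  generalize hM : B * ((D + 1) ^ m - B ^ (m - 1)) = M at hJ ⊢
  have hlin : ∀ j, ∃ (c : Fin m → K) (q : MvPolynomial (Fin m) K), (∀ i, V (c i) ≤ 1) ∧
      IntP V q ∧ OrdGE 2 q ∧ ∀ b, V ((fun b j => Q b j - 1) b j -
        (∑ i ∈ Finset.univ.erase k, c i * (fun b j => Q b j - 1) b i +
          eval ((fun b j => Q b j - 1) b) q)) ≤ θ ^ M := by
    intro j
    by_cases hj : j = k
    · subst hj
      refine ⟨fun i => -((n j : K)⁻¹ * (n i : K)), C (-(n j : K)⁻¹) * q, ?_, ?_, ?_, ?_⟩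
      · intro i
        rw [na_neg hV, hV.mul, hVinv, one_mul]
        exact CongDet_intCast hV _
      · refine intP_mul hV (intP_C hV ?_) hq1
        rw [na_neg hV, hVinv]
      · intro t ht
        rw [coeff_C_mul] at ht
        exact hq2 t (right_ne_zero_of_mul ht)
      · intro b
        have h1 := hq3 (fun j => Q b j - 1)
        have h2 : (fun j => (fun _ => (1 : K)) j + (Q b j - 1)) = Q b := by
          funext j; ring
        have h3 : eval (fun _ => (1 : K)) Y = 0 := by rw [hYe]; simp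
        have h4 : eval (Q b) Y = ∑ j, ((n j : ℤ) : K) * (Q b j - 1) +
            eval (fun j => Q b j - 1) q := by
          rw [h2] at h1
          rw [h1, h3, zero_add]
          simp only [hYd]
        have h5 : (Q b j - 1) - (∑ i ∈ Finset.univ.erase j, -((n j : K)⁻¹ * (n i : K)) * (Q b i - 1) +
            eval (fun j => Q b j - 1) (C (-(n j : K)⁻¹) * q)) = (n j : K)⁻¹ * eval (Q b) Y := by
          rw [h4, ← Finset.add_sum_erase _ _ (Finset.mem_univ j), map_mul, eval_C, mul_add, mul_add,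
            ← mul_assoc, inv_mul_cancel₀ hnk, one_mul, Finset.mul_sum]
          have h6 : ∑ i ∈ Finset.univ.erase j, -((n j : K)⁻¹ * (n i : K)) * (Q b i - 1) =
              -∑ i ∈ Finset.univ.erase j, (n j : K)⁻¹ * (((n i : ℤ) : K) * (Q b i - 1)) := by
            rw [← Finset.sum_neg_distrib]
            exact Finset.sum_congr rfl fun i _ => by ring
          rw [h6]
          ring
        show V ((Q b j - 1) - (∑ i ∈ Finset.univ.erase j, -((n j : K)⁻¹ * (n i : K)) * (Q b i - 1) +
            eval (fun j => Q b j - 1) (C (-(n j : K)⁻¹) * q))) ≤ θ ^ M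
        rw [h5, hV.mul, hVinv, one_mul]
        exact (hYQ b).trans (pow_le_pow_of_le_one hθ hθ1.le hJ)
    · refine ⟨Pi.single j 1, 0, ?_, ?_, ?_, ?_⟩
      · intro i
        by_cases hi : i = j
        · subst hi; rw [Pi.single_eq_same, hV.one]
        · rw [Pi.single_eq_of_ne hi, hV.zero]; exact zero_le_one
      · intro t; rw [coeff_zero, hV.zero]; exact zero_le_one
      · intro t ht; rw [coeff_zero] at ht; exact absurd rfl ht
      · intro b
        have h1 : ∑ i ∈ Finset.univ.erase k, (Pi.single j 1 : Fin m → K) i * (Q b i - 1) =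
            Q b j - 1 := by
          rw [Finset.sum_eq_single j]
          · rw [Pi.single_eq_same, one_mul]
          · intro i _ hi
            rw [Pi.single_eq_of_ne hi, zero_mul]
          · intro h
            exact absurd (Finset.mem_erase.2 ⟨hj, Finset.mem_univ _⟩) h
        show V ((Q b j - 1) - (∑ i ∈ Finset.univ.erase k, (Pi.single j 1 : Fin m → K) i *
          (Q b i - 1) + eval (fun j => Q b j - 1) 0)) ≤ θ ^ M
        rw [h1, map_zero, add_zero, sub_self, hV.zero]
        exact pow_nonneg hθ M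
  -- the monomials
  let f : (↥(Finset.univ : Finset (Fin m)) → Fin (D + 1)) → MvPolynomial (Fin m) K := fun a =>
    ∏ j : ↥(Finset.univ : Finset (Fin m)), (X (j : Fin m) + C 1) ^ (a j : ℕ)
  have hf : ∀ a, IntP V (f a) := fun a =>
    intP_prod hV _ _ fun j _ => intP_pow hV (intP_add hV (intP_X hV _) (intP_C hV hV.one.le)) _
  have hfe : ∀ a b, eval (fun j => Q b j - 1) (f a) =
      mon (Finset.univ : Finset (Fin m)) (Q b) a := by
    intro a b
    simp only [f, mon, map_prod, map_pow, map_add, eval_X, eval_C]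
    refine Finset.prod_congr rfl fun j _ => ?_
    rw [sub_add_cancel]
  choose g hg using fun a => local_expand_tol hV hθ hθ1.le (fun b j => Q b j - 1)
    (fun b j => (hQ b).1 j) (Finset.univ.erase k) M hlin (hf a)
  refine det_val hV hθ hθ1.le _ (fun b j => Q b j - 1) (fun b j => (hQ b).1 j)
    (Finset.univ.erase k) g (fun a => ⟨(hg a).1, (hg a).2.1⟩) M ?_ ?_
  · intro a b
    rw [Matrix.of_apply, ← hfe a b]
    exact (hg a).2.2 b
  · intro σ hσ hs
    have h := count_deg (Finset.univ.erase k) B σ hσ hs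
    rw [Fintype.card_fun, Fintype.card_fin, Fintype.card_coe,
      Finset.card_erase_of_mem (Finset.mem_univ k), Finset.card_univ, Fintype.card_fin] at h
    rw [← hM]
    exact h

end Pool.Agent.MVD
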