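import Pool.Agent.MVD.Defs

/-!
# Module GermInj (size 3)

`germ_coeff`: the ring homomorphism `g ↦ constantCoeff (aeval φ g)` and `g ↦ C (eval P g)` agree on constants and on
the variables (`hφ.const`).
`germ_inj`: `aeval φ g` depends only on `φ j`, `j ∈ g.vars ⊆ free J l`, so it equals `aeval ψ g` with
`ψ j = C (C (P j)) + C (X j) * X` for ALL `j`. `ψ j` is the image of the polynomial `C (C (P j)) + C (X j) * T` in
`Polynomial (MvPolynomial (Fin n) K)` (`Polynomial.coe_injective`, `Polynomial.coeToPowerSeries.algHom` or ringHom), so the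
polynomial `aeval (fun j => C (C (P j)) + C (X j) * T) g` is `0`; evaluate at `T = 1`:
`aeval (fun j => C (P j) + X j) g = 0` in `MvPolynomial (Fin n) K`; apply `aeval (fun j => X j - C (P j))`: `g = 0`.
-/

namespace Pool.Agent.MVD

open MvPolynomial

/-- The constant term of the value of a polynomial on the germ. -/
theorem germ_coeff {K : Type*} [Field K] {n : ℕ} {J : Finset (Fin n)} {l : List (Rel K n)}
    {P : Fin n → K} {φ : Fin n → PowerSeries (MvPolynomial (Fin n) K)} (hφ : IsGerm J l P φ)
    (g : MvPolynomial (Fin n) K) : PowerSeries.constantCoeff (aeval φ g) = C (eval P g) := by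
  have h1 : (PowerSeries.constantCoeff (R := MvPolynomial (Fin n) K)).comp
      (aeval φ : MvPolynomial (Fin n) K →ₐ[K] PowerSeries (MvPolynomial (Fin n) K)).toRingHom =
      (C : K →+* MvPolynomial (Fin n) K).comp (eval P) := by
    refine MvPolynomial.ringHom_ext (fun a => ?_) fun j => ?_
    · change PowerSeries.constantCoeff (aeval φ (C a)) = C (eval P (C a))
      rw [algHom_C, eval_C]
      rfl
    · change PowerSeries.constantCoeff (aeval φ (X j)) = C (eval P (X j))
      rw [aeval_X, eval_X, hφ.const]
  exact congrArg (fun f : MvPolynomial (Fin n) K →+* MvPolynomial (Fin n) K => f g) h1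

/-- A polynomial in the free variables which vanishes on the germ is zero. -/
theorem germ_inj {K : Type*} [Field K] {n : ℕ} {J : Finset (Fin n)} {l : List (Rel K n)}
    {P : Fin n → K} {φ : Fin n → PowerSeries (MvPolynomial (Fin n) K)} (hφ : IsGerm J l P φ)
    {g : MvPolynomial (Fin n) K} (hg : g.vars ⊆ free J l) (h : aeval φ g = 0) : g = 0 := by
  let ψ : Fin n → PowerSeries (MvPolynomial (Fin n) K) := fun j =>
    PowerSeries.C (C (P j)) + PowerSeries.C (X j) * PowerSeries.X
  have h1 : aeval ψ g = 0 := by
    rw [← h]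
    exact eval₂Hom_congr' rfl (fun i hi _ => (hφ.par i (hg hi)).symm) rfl
  let θ : Fin n → Polynomial (MvPolynomial (Fin n) K) := fun j =>
    Polynomial.C (C (P j)) + Polynomial.C (X j) * Polynomial.X
  have h2 : aeval θ g = 0 := by
    apply Polynomial.coe_injective (MvPolynomial (Fin n) K)
    have h3 : (Polynomial.coeToPowerSeries.ringHom (R := MvPolynomial (Fin n) K)).comp
        (aeval θ : MvPolynomial (Fin n) K →ₐ[K] Polynomial (MvPolynomial (Fin n) K)).toRingHom =
        (aeval ψ : MvPolynomial (Fin n) K →ₐ[K]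
          PowerSeries (MvPolynomial (Fin n) K)).toRingHom := by
      refine MvPolynomial.ringHom_ext (fun a => ?_) fun j => ?_
      · change ((aeval θ (C a) : Polynomial (MvPolynomial (Fin n) K)) :
          PowerSeries (MvPolynomial (Fin n) K)) = aeval ψ (C a)
        rw [algHom_C, algHom_C, Polynomial.algebraMap_apply, PowerSeries.algebraMap_apply,
          Polynomial.coe_C]
      · change ((aeval θ (X j) : Polynomial (MvPolynomial (Fin n) K)) :
          PowerSeries (MvPolynomial (Fin n) K)) = aeval ψ (X j)
        rw [aeval_X, aeval_X]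
        simp only [θ, ψ, Polynomial.coe_add, Polynomial.coe_mul, Polynomial.coe_C,
          Polynomial.coe_X]
    have h4 : ((aeval θ g : Polynomial (MvPolynomial (Fin n) K)) :
        PowerSeries (MvPolynomial (Fin n) K)) = aeval ψ g :=
      congrArg (fun f : MvPolynomial (Fin n) K →+* PowerSeries (MvPolynomial (Fin n) K) => f g) h3
    rw [h4, h1, Polynomial.coe_zero]
  let e : Polynomial (MvPolynomial (Fin n) K) →ₐ[K] MvPolynomial (Fin n) K :=
    (Polynomial.aeval (R := MvPolynomial (Fin n) K) (1 : MvPolynomial (Fin n) K)).restrictScalars K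
  have he : ∀ q, e q = q.eval 1 := fun q => Polynomial.coe_aeval_eq_eval (1 : MvPolynomial (Fin n) K) ▸ rfl
  have h5 : (aeval (fun j => (X j : MvPolynomial (Fin n) K) - C (P j))).comp
      (e.comp (aeval θ)) = AlgHom.id K (MvPolynomial (Fin n) K) := by
    refine MvPolynomial.algHom_ext fun j => ?_
    rw [AlgHom.comp_apply, AlgHom.comp_apply, aeval_X, he, AlgHom.id_apply]
    simp only [θ, Polynomial.eval_add, Polynomial.eval_mul, Polynomial.eval_C,
      Polynomial.eval_X, mul_one, map_add, algHom_C, aeval_X, algebraMap_eq]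
    ring
  have h6 := DFunLike.congr_fun h5 g
  rw [AlgHom.comp_apply, AlgHom.comp_apply, h2, map_zero, map_zero, AlgHom.id_apply] at h6
  exact h6.symm

end Pool.Agent.MVD
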