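import Pool.Agent.MVD.Elim
import Pool.Agent.MVD.GermInj

/-!
# Module ConstCount (size 4)

`m = (D+1)^n`. Apply `elim` to `A = (S → PowerSeries (MvPolynomial (Fin n) K))`, `x j = fun P => φ P j` (as in `CritRel`: relations and
non-zero-divisors componentwise) and `H k = ∏ X_j ^ (k * p j + (m - k) * s j)`, `k = 0..m` (some `DH`). We get `c ≠ 0`, variables of
`c k` in `I = free univ l`, with `∑_k aeval (φ P) (c k) * f^k * g^(m-k) = 0`, `f = ∏ (φ P j)^(p j)`, `g = ∏ (φ P j)^(s j)`,
for each `P ∈ S`. By hypothesis `f = C (C y) * g`, `y = y(P) ∈ K`. So `g^m * ∑_k aeval (φ P) (c k) * C (C (y^k)) = 0`, `g ≠ 0` (constant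
coefficient `C (∏ P^s) ≠ 0`), hence `aeval (φ P) (∑_k C (y^k) * c k) = 0` and by `germ_inj` `∑_k C (y^k) * c k = 0` in
`MvPolynomial (Fin n) K`. Choose `k1` and a monomial `a` with `coeff a (c k1) ≠ 0`: the polynomial `q = ∑_k (coeff a (c k)) T^k ∈ K[T]` is not
zero, of degree at most `m`, and `q(y(P)) = 0` for all `P ∈ S`: at most `m` values (`Polynomial.card_roots'`).
-/

namespace Pool.Agent.MVD

open MvPolynomial

universe u

/-- If the monomial quotient is constant on each germ then it takes at most `(D + 1) ^ n` values. -/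
theorem const_count {K : Type u} [Field K] {n : ℕ} (D : ℕ) (l : List (Rel K n))
    (hT : Tower Finset.univ l) (hD : DegLE D l) (p s : Fin n → ℕ) (S : Finset (Fin n → K))
    (φ : (Fin n → K) → Fin n → PowerSeries (MvPolynomial (Fin n) K))
    (hφ : ∀ P ∈ S, Nondeg l P ∧ IsGerm Finset.univ l P (φ P)) (h0 : ∀ P ∈ S, ∀ j, P j ≠ 0)
    (h : ∀ P ∈ S, ∏ j, φ P j ^ p j =
      PowerSeries.C (C ((∏ j, P j ^ p j) / ∏ j, P j ^ s j)) * ∏ j, φ P j ^ s j) :
    Set.ncard ((fun P : Fin n → K => (∏ j, P j ^ p j) / ∏ j, P j ^ s j) '' (S : Set (Fin n → K)))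
      ≤ (D + 1) ^ n := by
  classical
  set m : ℕ := (D + 1) ^ n with hm
  obtain ⟨D2, hD2⟩ := elim.{u} n D (m * (∑ j, p j + ∑ j, s j))
  let A : Type u := (S → PowerSeries (MvPolynomial (Fin n) K))
  let x : Fin n → A := fun j P => φ P.1 j
  have hxe : ∀ (G : MvPolynomial (Fin n) K) (P : S), (aeval x G) P = aeval (φ P.1) G := by
    intro G P
    have h1 : (Pi.evalAlgHom K (fun _ : S => PowerSeries (MvPolynomial (Fin n) K)) P).comp
        (aeval x) = aeval (φ P.1) := by
      apply MvPolynomial.algHom_ext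
      intro i
      simp [x]
    exact DFunLike.congr_fun h1 G
  let ex : Fin (m + 1) → Fin n → ℕ := fun k j => k * p j + (m - k) * s j
  let H : Fin (m + 1) → MvPolynomial (Fin n) K := fun k =>
    monomial (Finsupp.equivFunOnFinite.symm (ex k)) 1
  have hH : ∀ k j, (H k).degreeOf j ≤ m * (∑ j, p j + ∑ j, s j) := by
    intro k j
    change degreeOf j (monomial (Finsupp.equivFunOnFinite.symm (ex k)) (1 : K)) ≤ _
    rw [degreeOf_monomial_eq _ _ one_ne_zero]
    change (k : ℕ) * p j + (m - k) * s j ≤ _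
    have h1 : p j ≤ ∑ j, p j := Finset.single_le_sum (fun _ _ => Nat.zero_le _) (Finset.mem_univ j)
    have h2 : s j ≤ ∑ j, s j := Finset.single_le_sum (fun _ _ => Nat.zero_le _) (Finset.mem_univ j)
    have h3 : (k : ℕ) ≤ m := Nat.lt_succ_iff.mp k.2
    have h4 : m - (k : ℕ) ≤ m := Nat.sub_le _ _
    rw [mul_add]
    exact Nat.add_le_add (Nat.mul_le_mul h3 h1) (Nat.mul_le_mul h4 h2)
  obtain ⟨c, hc0, hcv, -, hsum⟩ := hD2 K A x l hT hD
    (by
      intro R hR
      funext P
      rw [hxe]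
      exact (hφ P.1 P.2).2.rel R hR)
    (by
      intro R hR
      rw [mem_nonZeroDivisors_iff_right]
      intro z hz
      funext P
      have h1 : z P * (aeval x (R.f R.δ)) P = 0 := congrFun hz P
      rw [hxe] at h1
      rcases mul_eq_zero.mp h1 with h2 | h2
      · exact h2
      · exfalso
        have h3 := germ_coeff (hφ P.1 P.2).2 (R.f R.δ)
        rw [h2, map_zero] at h3
        exact ((hφ P.1 P.2).1 R hR).2.2 ((MvPolynomial.C_eq_zero).mp h3.symm))
    H hH
  -- the values
  let y : (Fin n → K) → K := fun P => (∏ j, P j ^ p j) / ∏ j, P j ^ s j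
  have hzero : ∀ P ∈ S, ∑ k : Fin (m + 1), C (y P ^ (k : ℕ)) * c k = 0 := by
    intro P hP
    have hgm := (hφ P hP).2
    have h1 : ∑ k, aeval (φ P) (c k) * aeval (φ P) (H k) = 0 := by
      have h2 := congrFun hsum ⟨P, hP⟩
      rw [Finset.sum_apply] at h2
      calc ∑ k, aeval (φ P) (c k) * aeval (φ P) (H k)
          = ∑ k, (aeval x (c k) * aeval x (H k)) ⟨P, hP⟩ := by
            refine Finset.sum_congr rfl fun k _ => ?_
            rw [Pi.mul_apply, hxe, hxe]
        _ = 0 := h2
    have hg0 : ∏ j, φ P j ^ s j ≠ 0 := by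
      rw [Finset.prod_ne_zero_iff]
      intro j _
      apply pow_ne_zero
      intro h3
      have h4 := hgm.const j
      rw [h3, map_zero] at h4
      exact h0 P hP j ((MvPolynomial.C_eq_zero).mp h4.symm)
    have hHk : ∀ k, aeval (φ P) (H k) =
        PowerSeries.C (C (y P ^ (k : ℕ))) * (∏ j, φ P j ^ s j) ^ m := by
      intro k
      have h3 : aeval (φ P) (H k) = ∏ j, φ P j ^ (ex k j) := by
        change aeval (φ P) (monomial (Finsupp.equivFunOnFinite.symm (ex k)) (1 : K)) = _
        rw [aeval_monomial, map_one, one_mul, Finsupp.prod_fintype _ _ (fun i => pow_zero _)]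
        rfl
      have h4 : ∏ j, φ P j ^ (ex k j) =
          (∏ j, φ P j ^ p j) ^ (k : ℕ) * (∏ j, φ P j ^ s j) ^ (m - (k : ℕ)) := by
        rw [← Finset.prod_pow, ← Finset.prod_pow, ← Finset.prod_mul_distrib]
        refine Finset.prod_congr rfl fun j _ => ?_
        rw [← pow_mul, ← pow_mul, ← pow_add]
        congr 1
        change (k : ℕ) * p j + (m - k) * s j = _
        ring
      have h5 : (k : ℕ) ≤ m := Nat.lt_succ_iff.mp k.2
      rw [h3, h4, h P hP, mul_pow, mul_assoc, ← pow_add, Nat.add_sub_cancel' h5, ← map_pow,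
        ← map_pow]
    have h6 : aeval (φ P) (∑ k : Fin (m + 1), C (y P ^ (k : ℕ)) * c k) = 0 := by
      have h7 : (∏ j, φ P j ^ s j) ^ m *
          aeval (φ P) (∑ k : Fin (m + 1), C (y P ^ (k : ℕ)) * c k) = 0 := by
        rw [← h1, map_sum, Finset.mul_sum]
        refine Finset.sum_congr rfl fun k _ => ?_
        rw [hHk, map_mul, aeval_C, PowerSeries.algebraMap_apply]
        change _ = _ * (PowerSeries.C (algebraMap K (MvPolynomial (Fin n) K) (y P ^ (k : ℕ))) * _)
        ring
      rcases mul_eq_zero.mp h7 with h8 | h8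
      · exact absurd h8 (pow_ne_zero _ hg0)
      · exact h8
    refine germ_inj hgm ?_ h6
    refine (vars_sum_subset _ _).trans ?_
    intro i hi
    rw [Finset.mem_biUnion] at hi
    obtain ⟨k, -, hk⟩ := hi
    have h9 := vars_mul _ _ hk
    rw [vars_C, Finset.empty_union] at h9
    exact hcv k h9
  obtain ⟨k1, hk1⟩ := Function.ne_iff.mp hc0
  obtain ⟨a, ha⟩ := MvPolynomial.ne_zero_iff.mp hk1
  let q : Polynomial K := ∑ k : Fin (m + 1), Polynomial.C (coeff a (c k)) * Polynomial.X ^ (k : ℕ)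
  have hqc : q.coeff (k1 : ℕ) = coeff a (c k1) := by
    simp only [q, Polynomial.finsetSum_coeff, Polynomial.coeff_C_mul, Polynomial.coeff_X_pow]
    rw [Finset.sum_eq_single k1]
    · simp
    · intro k _ hk
      rw [if_neg, mul_zero]
      intro h1
      exact hk (Fin.ext h1.symm)
    · intro h1; exact absurd (Finset.mem_univ _) h1
  have hq0 : q ≠ 0 := by
    intro h1
    rw [h1, Polynomial.coeff_zero] at hqc
    exact ha hqc.symm
  have hqd : q.natDegree ≤ m := by
    apply Polynomial.natDegree_sum_le_of_forall_le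
    intro k _
    exact (Polynomial.natDegree_C_mul_X_pow_le _ _).trans (Nat.lt_succ_iff.mp k.2)
  have hroot : ∀ P ∈ S, y P ∈ q.roots.toFinset := by
    intro P hP
    rw [Multiset.mem_toFinset, Polynomial.mem_roots hq0, Polynomial.IsRoot.def]
    have h1 := congrArg (coeff a) (hzero P hP)
    rw [coeff_sum, coeff_zero] at h1
    simp only [q, Polynomial.eval_finsetSum, Polynomial.eval_mul, Polynomial.eval_C,
      Polynomial.eval_pow, Polynomial.eval_X]
    rw [← h1]
    refine Finset.sum_congr rfl fun k _ => ?_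
    rw [coeff_C_mul, mul_comm]
  have hsub : ((fun P : Fin n → K => (∏ j, P j ^ p j) / ∏ j, P j ^ s j) ''
      (S : Set (Fin n → K))) ⊆ (q.roots.toFinset : Set K) := by
    rintro _ ⟨P, hP, rfl⟩
    exact hroot P hP
  calc _ ≤ (q.roots.toFinset : Set K).ncard := Set.ncard_le_ncard hsub (Finset.finite_toSet _)
    _ = q.roots.toFinset.card := Set.ncard_coe_finset _
    _ ≤ q.roots.card := Multiset.toFinset_card_le _
    _ ≤ q.natDegree := Polynomial.card_roots' q
    _ ≤ m := hqd

end Pool.Agent.MVD
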