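import Pool.Agent.MVD.TsDefs

/-!
# Module Enum (size 1)

`exists_ex`: enumerate `S` by `S.equivFin`/`Finset.orderEmbOfFin`, padded with 0: `ex k = if h : k < S.card then (the k-th element) else 0`. `sz_mono`: `A \ range ex ⊆ A \ S`; monotonicity of `sz` is `c2_sz_mono` (AbcF/Costs2).
-/

namespace Pool.Agent.MVD

open NumberField IsDedekindDomain Pool.Agent.H7.Abc Pool.Agent.AbcE Pool.Agent.AbcF

/-- A list of the elements of a small set of exponents. -/
theorem exists_ex {m : ℕ} (S : Finset ℕ) (hS : S.card ≤ m) :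
    ∃ ex : Fin m → ℕ, (∀ n ∈ S, ∃ k, ex k = n) ∧ (∀ k, ex k ≠ 0 → ex k ∈ S) ∧
      ∀ k k', ex k ≠ 0 → ex k = ex k' → k = k' := by
  classical
  let e := S.equivFin
  refine ⟨fun k => if h : (k : ℕ) < S.card then ((e.symm ⟨k, h⟩ : S) : ℕ) else 0, ?_, ?_, ?_⟩
  · intro n hn
    refine ⟨⟨(e ⟨n, hn⟩ : ℕ), lt_of_lt_of_le (e ⟨n, hn⟩).2 hS⟩, ?_⟩
    show (if h : ((e ⟨n, hn⟩ : Fin S.card) : ℕ) < S.card then _ else 0) = n
    rw [dif_pos (e ⟨n, hn⟩).2]
    simp
  · intro k hk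
    by_cases h : (k : ℕ) < S.card
    · simp only [dif_pos h] at hk ⊢
      exact (e.symm ⟨k, h⟩).2
    · simp only [dif_neg h] at hk
      exact absurd rfl hk
  · intro k k' hk hkk
    by_cases h : (k : ℕ) < S.card
    · by_cases h' : (k' : ℕ) < S.card
      · simp only [dif_pos h, dif_pos h'] at hkk
        have h1 := e.symm.injective (Subtype.ext hkk)
        have h2 : (k : ℕ) = (k' : ℕ) := by simpa using h1
        exact Fin.ext h2
      · simp only [dif_pos h, dif_neg h'] at hkk hk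
        exact absurd hkk hk
    · simp only [dif_neg h] at hk
      exact absurd rfl hk

theorem szOK_of {K : Type*} [Field K] [NumberField K] {x : K} (hx : x ≠ 0) {A : Set ℕ} {m : ℕ}
    {S : Finset ℕ} {ex : Fin m → ℕ} (h1 : ∀ n ∈ S, ∃ k, ex k = n) (h2 : ∀ k, ex k ≠ 0 → ex k ∈ S)
    {X : ℝ} (hX : 0 ≤ X) (hr : ∀ n ∈ S, rd x {n} ≤ X) (hs : sz x (A \ (S : Set ℕ)) ≤ X) :
    SzOK x A ex X := by
  refine ⟨fun k => ?_, ?_⟩
  · by_cases hk : ex k = 0
    · rw [hk, c2_rd_zero]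
      exact hX
    · exact hr _ (h2 k hk)
  · refine (c2_sz_mono hx ?_).trans hs
    intro n hn
    refine ⟨hn.1, fun hnS => hn.2 ?_⟩
    obtain ⟨k, hk⟩ := h1 n hnS
    exact ⟨k, hk⟩

end Pool.Agent.MVD
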