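import Pool.Agent.MVD.DecDefs

/-!
# Module RoleDec (size 2)

By cases `c = 0, 1, 2` (`role`, `gz`, `gp`, `grp`; compare `role_sz`, `role_rd` in AbcE/Assemble and `sz_quot`, `sz_one_sub` in AbcE/Roles): the positive parts of the orders agree at every place (`RolesAux.ord_sub_one`, `quot_facts`, `one_sub_facts`, `ord_inv`), so the `dpart`s are equal (`dpart_apply`).
-/

namespace Pool.Agent.MVD

open NumberField IsDedekindDomain Pool.Agent.H7.Abc Pool.Agent.AbcE Pool.Agent.AbcF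

variable {K : Type*} [Field K] [NumberField K]

private theorem RoleDec_congr {x y : K} (hx : x ≠ 0) (hy : y ≠ 0) (A : Set ℕ)
    (h : ∀ v : HeightOneSpectrum (𝓞 K), 0 < ord v x ∨ 0 < ord v y → ord v x = ord v y) :
    dpart x A = dpart y A := by
  classical
  ext v
  rw [dpart_apply hx, dpart_apply hy]
  by_cases hv : 0 < ord v x ∨ 0 < ord v y
  · rw [h v hv]
  · push Not at hv
    rw [if_neg (fun hh => absurd hh.1 (by omega)), if_neg (fun hh => absurd hh.1 (by omega))]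

private theorem RoleDec_quot {x : K} (hx : x ≠ 0) (hx1 : x ≠ 1) (A : Set ℕ) :
    dpart (x / (x - 1)) A = dpart x A ∧ dpart (x / (x - 1))⁻¹ A = dpart (x - 1) A ∧
      dpart (x / (x - 1) - 1) A = dpart x⁻¹ A := by
  have hx1' : x - 1 ≠ 0 := sub_ne_zero.2 hx1
  have hq : x / (x - 1) ≠ 0 := div_ne_zero hx hx1'
  have e : x / (x - 1) - 1 = (x - 1)⁻¹ := by field_simp; ring
  have hq1 : x / (x - 1) - 1 ≠ 0 := by rw [e]; exact inv_ne_zero hx1'
  refine ⟨RoleDec_congr hq hx A fun v => ?_, RoleDec_congr (inv_ne_zero hq) hx1' A fun v => ?_,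
    RoleDec_congr hq1 (inv_ne_zero hx) A fun v => ?_⟩
  all_goals
    obtain ⟨h1, h2, h3, h4⟩ := RolesAux.ord_sub_one v hx hx1
    obtain ⟨q1, q2, q3⟩ := RolesAux.quot_facts hx hx1 v
  · rw [q1]; omega
  · rw [q2]; omega
  · rw [q3, RolesAux.ord_inv v hx]; omega

private theorem RoleDec_one_sub {x : K} (hx : x ≠ 0) (hx1 : x ≠ 1) (A : Set ℕ) :
    dpart (1 - x) A = dpart (x - 1) A ∧ dpart (1 - x)⁻¹ A = dpart x⁻¹ A ∧
      dpart (1 - x - 1) A = dpart x A := by
  have hx1' : x - 1 ≠ 0 := sub_ne_zero.2 hx1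
  have hq : (1 : K) - x ≠ 0 := sub_ne_zero.2 hx1.symm
  have hq1 : (1 : K) - x - 1 ≠ 0 := by
    have : (1 : K) - x - 1 = -x := by ring
    rw [this]
    exact neg_ne_zero.2 hx
  refine ⟨RoleDec_congr hq hx1' A fun v => ?_,
    RoleDec_congr (inv_ne_zero hq) (inv_ne_zero hx) A fun v => ?_,
    RoleDec_congr hq1 hx A fun v => ?_⟩
  all_goals
    obtain ⟨h1, h2, h3, h4⟩ := RolesAux.ord_sub_one v hx hx1
    obtain ⟨q1, q2, q3⟩ := RolesAux.one_sub_facts hx hx1 v
  · rw [q1]; omega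
  · rw [q2, RolesAux.ord_inv v hx]; omega
  · rw [q3]; omega

theorem dpart_role {x : K} (hx : x ≠ 0) (hx1 : x ≠ 1) (c : Fin 3) (A : Set ℕ) :
    dpart (grp (role c x) 0) A = dpart (grp x (gz c)) A ∧
      dpart (grp (role c x) 1) A = dpart (grp x (gp c)) A ∧
      dpart (grp (role c x) 2) A = dpart (grp x c) A := by
  have h1 := RoleDec_quot hx hx1 A
  have h2 := RoleDec_one_sub hx hx1 A
  fin_cases c
  · simpa [role, grp, gz, gp] using h2
  · simpa [role, grp, gz, gp] using h1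
  · simp [role, grp, gz, gp]

theorem ord_role {x : K} (hx : x ≠ 0) (hx1 : x ≠ 1) (c : Fin 3) {v : HeightOneSpectrum (𝓞 K)}
    (hv : 0 < ord v (role c x - 1)) : ord v (role c x - 1) = ord v (grp x c) := by
  obtain ⟨h1, h2, h3, h4⟩ := RolesAux.ord_sub_one v hx hx1
  obtain ⟨q1, q2, q3⟩ := RolesAux.quot_facts hx hx1 v
  obtain ⟨r1, r2, r3⟩ := RolesAux.one_sub_facts hx hx1 v
  fin_cases c
  · have e1 : role (0 : Fin 3) x = 1 - x := by simp [role]
    have e2 : grp x (0 : Fin 3) = x := by simp [grp]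
    show ord v (role (0 : Fin 3) x - 1) = ord v (grp x (0 : Fin 3))
    rw [e1, e2]
    exact r3
  · have e1 : role (1 : Fin 3) x = x / (x - 1) := by simp [role]
    have e2 : grp x (1 : Fin 3) = x⁻¹ := by simp [grp]
    have hv' : 0 < ord v (role (1 : Fin 3) x - 1) := hv
    show ord v (role (1 : Fin 3) x - 1) = ord v (grp x (1 : Fin 3))
    rw [e1] at hv'
    rw [e1, e2, q3, RolesAux.ord_inv v hx]
    omega
  · have e1 : role (2 : Fin 3) x = x := by simp [role]
    have e2 : grp x (2 : Fin 3) = x - 1 := by simp [grp]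
    show ord v (role (2 : Fin 3) x - 1) = ord v (grp x (2 : Fin 3))
    rw [e1, e2]

end Pool.Agent.MVD
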