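import Pool.Agent.MVD.CellG1
import Pool.Agent.MVD.Cells2
import Pool.Agent.MVD.Enum
import Pool.Agent.MVD.RoleDec

/-!
# Module CountG1 (size 4)

`κ0' ` from `cell_tsG K (ι ⊕ Option (Fin m)) C1 (ε/2)`, `κ0 = κ0' + c0`, `c0 = finrank * log 2` (so `κ0 L ≤ hgt x` gives `κ0' L ≤ hgt (role c x)`, as `hgt_role_le` bounds the heights in both directions). As in `TsCount` and `TssCount` (look at them): the tool `T = ⟨1, univ, univ, A, ..⟩` for `y = role c x`; `RK T y = rd (grp x c) Aᶜ` (the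
complement of `univ` is empty, `c2_rd_empty`). The decompositions: groups 0 and 1 of `y` (`= gz c, gp c` of `x`, `dpart_role`): the chosen `D` of `Dec`, extended by `dec_inl` (exponents `Sum.elim (p g) (fun _ => 1)`); group 2: `dec_dvi` for `ex` from `exists_ex` (`szOK_of`), extended by `dec_inr` (exponents
`Sum.elim (fun _ => 1) (wi ex)`). All exponents are at most `κ1' L`, `κ1' = |κ1| + 1 + E + c0`.
-/

namespace Pool.Agent.MVD

open NumberField IsDedekindDomain Pool.Agent.H7.Abc Pool.Agent.AbcE Pool.Agent.AbcF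

/-- The count by the theorem on values of large height, general decompositions. -/
theorem ts_countG (K : Type*) [Field K] [NumberField K] (ι : Type) [Fintype ι] (m : ℕ)
    (C1 ε : ℝ) (hC1 : 0 ≤ C1) (hε : 0 < ε) : ∃ κ0 : ℝ, 1 ≤ κ0 ∧ ∀ (κ1 : ℝ) (E : ℕ),
      ∃ C : ℝ, 0 < C ∧ ∀ L : ℝ, 1 ≤ L →
      ∀ (c : Fin 3) (A : Set ℕ) (S : Finset ℕ) (p : Fin 3 → ι → ℕ) (θ : ℝ),
      S.card ≤ m → (∀ n ∈ S, n ≤ E ∧ n ∈ A) → (∀ g i, (p g i : ℝ) ≤ κ1 * L) →
      (({x : K | x ≠ 0 ∧ x ≠ 1 ∧ κ0 * L ≤ hgt x ∧ hgt x ≤ κ1 * L ∧ rd (grp x c) Aᶜ ≤ θ ∧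
        (∀ n ∈ S, rd (grp x c) {n} ≤ C1 * L) ∧ sz (grp x c) (A \ (S : Set ℕ)) ≤ C1 * L ∧
        ∀ g, g ≠ c → Dec (grp x g) (p g) (C1 * L)}.ncard : ℕ) : ℝ) ≤
        C * Real.exp (θ + ε * L) := by
  classical
  obtain ⟨κ0', hκ0', H⟩ := cell_tsG K (ι ⊕ Option (Fin m)) C1 (ε / 2) hC1 (half_pos hε)
  set c0 : ℝ := (Module.finrank ℚ K : ℝ) * Real.log 2 with hc0
  have hc00 : 0 ≤ c0 := mul_nonneg (Nat.cast_nonneg _) (Real.log_nonneg (by norm_num))
  refine ⟨κ0' + c0, by linarith, fun κ1 E => ?_⟩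
  set κ1' : ℝ := |κ1| + 1 + (E : ℝ) + c0 with hκ1'
  have hk : 1 ≤ κ1' := by
    have h1 : 0 ≤ |κ1| := abs_nonneg _
    have h2 : (0 : ℝ) ≤ E := Nat.cast_nonneg _
    rw [hκ1']
    linarith
  have hk0 : 0 < κ1' := by linarith
  obtain ⟨C', hC', H'⟩ := H κ1'
  obtain ⟨C'', hC'', H''⟩ := cells_sum2 K (ε := ε / (2 * κ1')) (by positivity)
  refine ⟨C'' * C', by positivity, fun L hL c A S p θ hS hSE hp => ?_⟩
  have hL0 : 0 < L := by linarith
  have hCL : 0 ≤ C1 * L := by positivity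
  have hκL : κ1 * L ≤ |κ1| * L := mul_le_mul_of_nonneg_right (le_abs_self _) hL0.le
  have hc0L : c0 ≤ c0 * L := le_mul_of_one_le_right hc00 hL
  have hEL : (E : ℝ) ≤ E * L := le_mul_of_one_le_right (Nat.cast_nonneg _) hL
  have hkL : κ1' * L = |κ1| * L + L + E * L + c0 * L := by rw [hκ1']; ring
  have hE0 : (0 : ℝ) ≤ E * L := by positivity
  have hκa : 0 ≤ |κ1| * L := by positivity
  set X : Set K := {x : K | x ≠ 0 ∧ x ≠ 1 ∧ (κ0' + c0) * L ≤ hgt x ∧ hgt x ≤ κ1 * L ∧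
        rd (grp x c) Aᶜ ≤ θ ∧
        (∀ n ∈ S, rd (grp x c) {n} ≤ C1 * L) ∧ sz (grp x c) (A \ (S : Set ℕ)) ≤ C1 * L ∧
        ∀ g, g ≠ c → Dec (grp x g) (p g) (C1 * L)} with hX
  have hfin : X.Finite := by
    refine (cnts_finite (K := K) (κ1 * L) (fun _ => True)).subset ?_
    rintro x ⟨h1, h2, -, h3, -⟩
    exact ⟨h1, h2, h3, trivial⟩
  -- the tool
  let T : Tool :=
    { e := 1
      F0 := Set.univ
      F1 := Set.univ
      G := A
      he := le_rfl
      h0 := fun _ _ => one_dvd _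
      h1 := fun _ _ => one_dvd _ }
  obtain ⟨ex, hex1, hex2, hex3⟩ := exists_ex (m := m) S hS
  have hexOK : ExOK A ex E := by
    refine ⟨fun k => ?_, fun k hk => (hSE _ (hex2 k hk)).2, hex3⟩
    by_cases hk : ex k = 0
    · omega
    · exact (hSE _ (hex2 k hk)).1
  -- the exponents
  let p' : Fin 3 → (ι ⊕ Option (Fin m)) → ℕ := fun g =>
    if g = 0 then Sum.elim (p (gz c)) (fun _ => 1)
    else if g = 1 then Sum.elim (p (gp c)) (fun _ => 1)
    else Sum.elim (fun _ => 1) (wi ex)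
  have hp' : ∀ g i, (p' g i : ℝ) ≤ κ1' * L := by
    have h1 : (((1 : ℕ) : ℝ)) ≤ κ1' * L := by
      rw [hkL, Nat.cast_one]
      nlinarith
    have h2 : ∀ g i, (p g i : ℝ) ≤ κ1' * L := by
      intro g i
      refine (hp g i).trans ?_
      rw [hkL]
      nlinarith
    have h3 : ∀ k, (wi ex k : ℝ) ≤ κ1' * L := by
      rintro (_ | k)
      · exact h1
      · have h4 : ((ex k : ℕ) : ℝ) ≤ E := by exact_mod_cast hexOK.1 k
        show ((ex k : ℕ) : ℝ) ≤ κ1' * L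
        rw [hkL]
        nlinarith
    intro g i
    fin_cases g
    · rcases i with i | i
      · simpa [p'] using h2 (gz c) i
      · simpa [p'] using h1
    · rcases i with i | i
      · simpa [p'] using h2 (gp c) i
      · simpa [p'] using h1
    · rcases i with i | i
      · simpa [p'] using h1
      · simpa [p'] using h3 i
  -- the divisors
  have hD : ∀ y : K, ∃ dv : Fin 3 → (ι ⊕ Option (Fin m)) → (HeightOneSpectrum (𝓞 K) →₀ ℕ),
      (∃ x ∈ X, role c x = y) → ∀ g, DecOK (grp y g) (Fs T g) (p' g) (dv g) (C1 * L) := by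
    intro y
    by_cases hy : ∃ x ∈ X, role c x = y
    swap
    · exact ⟨fun _ _ => 0, fun h => absurd h hy⟩
    obtain ⟨x, hx, rfl⟩ := hy
    obtain ⟨hx0, hx1, -, -, -, hr, hs, hd⟩ := hx
    obtain ⟨D0, hD0⟩ := hd _ (gz_ne c)
    obtain ⟨D1, hD1⟩ := hd _ (gp_ne c)
    have hgx := grp_ne_zero hx0 hx1 c
    have hs2 : SzOK (grp x c) A ex (C1 * L) := szOK_of hgx hex1 hex2 hCL hr hs
    have hD2 := dec_dvi hgx hexOK hs2
    refine ⟨fun g => if g = 0 then Sum.elim D0 (fun _ => 0)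
      else if g = 1 then Sum.elim D1 (fun _ => 0)
      else Sum.elim (fun _ => 0) (dvi (grp x c) A ex), fun _ g => ?_⟩
    have hr0 := dpart_role hx0 hx1 c (Set.univ : Set ℕ)
    have hr2 := dpart_role hx0 hx1 c A
    have e0 := dec_inl (κ := Option (Fin m)) hCL hD0 (fun _ => 1)
    have e1 := dec_inl (κ := Option (Fin m)) hCL hD1 (fun _ => 1)
    have e2 := dec_inr (κ := ι) hCL hD2 (fun _ => 1)
    have f0 : Fs T 0 = Set.univ := by simp [Fs, T]
    have f1 : Fs T 1 = Set.univ := by simp [Fs, T]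
    have f2 : Fs T 2 = A := by simp [Fs, T]
    have hcase : g = 0 ∨ g = 1 ∨ g = 2 := by
      fin_cases g <;> simp
    rcases hcase with rfl | rfl | rfl
    · rw [f0]
      refine ⟨fun i => ?_, fun v => ?_⟩
      · simpa using e0.1 i
      · rw [hr0.1, ← e0.2 v]
        simp [p']
    · rw [f1]
      refine ⟨fun i => ?_, fun v => ?_⟩
      · simpa using e1.1 i
      · rw [hr0.2.1, ← e1.2 v]
        simp [p']
    · rw [f2]
      refine ⟨fun i => ?_, fun v => ?_⟩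
      · simpa using e2.1 i
      · rw [hr2.2.2, ← e2.2 v]
        simp [p']
  choose dv hdv using hD
  -- the image
  set Y : Finset K := hfin.toFinset.image (role c) with hY
  have hcard : X.ncard = Y.card := by
    rw [Set.ncard_eq_toFinset_card X hfin, hY, Finset.card_image_of_injOn]
    intro x hx y hy hxy
    have hx' : x ∈ X := (Set.Finite.mem_toFinset hfin).1 hx
    have hy' : y ∈ X := (Set.Finite.mem_toFinset hfin).1 hy
    exact role_inj hx'.2.1 hy'.2.1 c hxy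
  rw [hcard]
  have hmem : ∀ y ∈ Y, ∃ x ∈ X, role c x = y := by
    intro y hy
    obtain ⟨x, hx, hxy⟩ := Finset.mem_image.1 hy
    exact ⟨x, (Set.Finite.mem_toFinset hfin).1 hx, hxy⟩
  have hhgt : ∀ y ∈ Y, κ0' * L ≤ hgt y ∧ hgt y ≤ κ1' * L := by
    intro y hy
    obtain ⟨x, hx, rfl⟩ := hmem y hy
    obtain ⟨hx0, hx1, hlo, hhi, -⟩ := hx
    obtain ⟨h1, h2⟩ := hgt_role_le hx0 hx1 c
    rw [← hc0] at h1 h2
    constructor
    · nlinarith
    · rw [hkL]
      nlinarith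
  have key := H'' T (κ1' * L) θ (C' * Real.exp (ε / 2 * L)) (by positivity) (by positivity) Y ?_ ?_
  · refine key.trans (le_of_eq ?_)
    have e1 : ε / (2 * κ1') * (κ1' * L) = ε / 2 * L := by
      field_simp
    rw [e1, mul_assoc, mul_assoc, ← Real.exp_add, mul_assoc]
    congr 3
    ring
  · intro y hy
    have hh := hhgt y hy
    obtain ⟨x, hx, rfl⟩ := hmem y hy
    obtain ⟨hx0, hx1, -, -, hrd, -⟩ := hx
    refine ⟨role_ne_zero hx0 hx1 c, role_ne_one hx0 hx1 c, hh.2, ?_⟩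
    unfold RK
    rw [(role_rd hx0 hx1 c T.Gᶜ).2.2]
    have e0 : T.F0ᶜ = ∅ := by simp [T]
    have e1 : T.F1ᶜ = ∅ := by simp [T]
    have e2 : rd (role c x) T.F0ᶜ = 0 := by rw [e0, c2_rd_empty]
    have e3 : rd (role c x)⁻¹ T.F1ᶜ = 0 := by rw [e1, c2_rd_empty]
    rw [e2, e3, zero_add, zero_add]
    exact hrd
  · intro P hP y0 hy0 hsame
    refine H' L hL T p' dv hp' P y0 hy0 hsame (fun y hy => ?_)
    have hh := hhgt y (hP hy)
    have hm := hmem y (hP hy)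
    have hdvy := hdv y hm
    obtain ⟨x, hx, rfl⟩ := hm
    obtain ⟨hx0, hx1, -⟩ := hx
    exact ⟨role_ne_zero hx0 hx1 c, role_ne_one hx0 hx1 c, hh.1, hh.2, hdvy⟩

end Pool.Agent.MVD
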