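import Pool.Agent.MVD.CellG2
import Pool.Agent.MVD.Cells2
import Pool.Agent.MVD.RoleDec

/-!
# Module CountG2 (size 4)

As `CountG1` with `cell_tssG K ι C1 (ε/2) η`: the tool `T = ⟨1, univ, univ, Mᶜ, ..⟩` for `y = role c x`, `RK T y = rd (grp x c) M`; see also `TssCount`. `ord_role` for the condition on the places, `role_rd` for `rd (y - 1) T.Gᶜ = rd (grp x c) M`.
-/

namespace Pool.Agent.MVD

open NumberField IsDedekindDomain Pool.Agent.H7.Abc Pool.Agent.AbcE Pool.Agent.AbcF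

/-- The count by the theorem on congruences, general decompositions. -/
theorem tss_countG (K : Type*) [Field K] [NumberField K] (ι : Type) [Fintype ι] (C1 ε η : ℝ)
    (hC1 : 0 ≤ C1) (hε : 0 < ε) (hη : 0 < η) : ∃ δ : ℝ, 0 < δ ∧ ∃ J : ℕ, 1 ≤ J ∧ ∀ κ1 : ℝ,
      ∃ C : ℝ, 0 < C ∧ ∀ L : ℝ, 1 ≤ L →
      ∀ (c : Fin 3) (M : Set ℕ) (p : Fin 3 → ι → ℕ) (θ : ℝ), (∀ n ∈ M, J ≤ n) →
      (∀ g i, 1 ≤ p g i ∧ (p g i : ℝ) ≤ κ1 * L) →
      (({x : K | x ≠ 0 ∧ x ≠ 1 ∧ hgt x ≤ κ1 * L ∧ rd (grp x c) M ≤ θ ∧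
        (∀ g, g ≠ c → Dec (grp x g) (p g) (C1 * L)) ∧ η * L ≤ rd (grp x c) M ∧
        ∀ v : HeightOneSpectrum (𝓞 K), 0 < ord v (grp x c) →
          (ord v (grp x c)).toNat ∈ M → ln v ≤ δ * L}.ncard : ℕ) : ℝ) ≤
        C * Real.exp (θ + ε * L) := by
  classical
  obtain ⟨δ, hδ, J, hJ, hcell⟩ := cell_tssG K ι C1 (ε / 2) η hC1 (by positivity) hη
  refine ⟨δ, hδ, J, hJ, ?_⟩
  intro κ1
  set d : ℝ := (Module.finrank ℚ K : ℝ) with hd
  have hd0 : 0 ≤ d := by positivity
  have hk : 0 < |κ1| + 1 + d := by positivity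
  obtain ⟨C', hC', hc'⟩ := hcell (|κ1| + 1 + d)
  obtain ⟨C'', hC'', hc''⟩ := cells_sum2 K (ε := ε / (2 * (|κ1| + 1 + d))) (by positivity)
  refine ⟨C'' * C', by positivity, ?_⟩
  intro L hL c M p θ hM hp
  set X : Set K := {x : K | x ≠ 0 ∧ x ≠ 1 ∧ hgt x ≤ κ1 * L ∧ rd (grp x c) M ≤ θ ∧
        (∀ g, g ≠ c → Dec (grp x g) (p g) (C1 * L)) ∧ η * L ≤ rd (grp x c) M ∧
        ∀ v : HeightOneSpectrum (𝓞 K), 0 < ord v (grp x c) →
          (ord v (grp x c)).toNat ∈ M → ln v ≤ δ * L} with hX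
  by_cases hfin : X.Finite
  swap
  · rw [Set.Infinite.ncard hfin, Nat.cast_zero]
    positivity
  -- the tool
  let T : Tool :=
    { e := 1
      F0 := Set.univ
      F1 := Set.univ
      G := Mᶜ
      he := le_rfl
      h0 := fun _ _ => one_dvd _
      h1 := fun _ _ => one_dvd _ }
  have hL0 : 0 < L := by linarith
  have hCL : 0 ≤ C1 * L := by positivity
  -- the exponents and the divisors
  let p' : Fin 3 → ι → ℕ := fun g => if g = 0 then p (gz c) else if g = 1 then p (gp c) else p c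
  let dv : K → Fin 3 → ι → (HeightOneSpectrum (𝓞 K) →₀ ℕ) := fun y g =>
    if h : ∃ D : ι → (HeightOneSpectrum (𝓞 K) →₀ ℕ), DecOK (grp y g) (Fs T g) (p' g) D (C1 * L)
    then h.choose else fun _ => 0
  have hdv : ∀ y g, (∃ D : ι → (HeightOneSpectrum (𝓞 K) →₀ ℕ),
      DecOK (grp y g) (Fs T g) (p' g) D (C1 * L)) →
      DecOK (grp y g) (Fs T g) (p' g) (dv y g) (C1 * L) := by
    intro y g h
    have e : dv y g = h.choose := dif_pos h
    rw [e]
    exact h.choose_spec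
  have hκ : κ1 * L ≤ (|κ1| + 1 + d) * L := by
    have h6 : κ1 ≤ |κ1| := le_abs_self _
    exact mul_le_mul_of_nonneg_right (by linarith) hL0.le
  have hp' : ∀ g, g ≠ 2 → ∀ i, 1 ≤ p' g i ∧ (p' g i : ℝ) ≤ (|κ1| + 1 + d) * L := by
    intro g hg i
    have hcase : g = 0 ∨ g = 1 := by
      revert hg
      fin_cases g <;> simp
    rcases hcase with rfl | rfl
    · have e1 : p' 0 = p (gz c) := by simp [p']
      rw [e1]
      exact ⟨(hp _ i).1, (hp _ i).2.trans hκ⟩
    · have e1 : p' 1 = p (gp c) := by simp [p']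
      rw [e1]
      exact ⟨(hp _ i).1, (hp _ i).2.trans hκ⟩
  -- the image
  set Y : Finset K := hfin.toFinset.image (role c) with hY
  have hcard : X.ncard = Y.card := by
    rw [Set.ncard_eq_toFinset_card X hfin, hY, Finset.card_image_of_injOn]
    intro x hx y hy hxy
    have hx' : x ∈ X := (Set.Finite.mem_toFinset hfin).1 hx
    have hy' : y ∈ X := (Set.Finite.mem_toFinset hfin).1 hy
    exact role_inj hx'.2.1 hy'.2.1 c hxy
  rw [hcard]
  set D : ℝ := (|κ1| + 1 + d) * L with hD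
  have hD0 : 0 ≤ D := by positivity
  have hhgt : ∀ x ∈ X, hgt (role c x) ≤ D := by
    intro x hx
    obtain ⟨hx0, hx1, hxh, -, -, -, -⟩ := hx
    have h1 := (hgt_role_le hx0 hx1 c).1
    have h2 : Real.log 2 ≤ 1 := by
      have := Real.log_two_lt_d9
      linarith
    have h3 : (Module.finrank ℚ K : ℝ) * Real.log 2 ≤ d * L := by
      have h4 : d * Real.log 2 ≤ d * 1 := mul_le_mul_of_nonneg_left h2 hd0
      have h5 : d * 1 ≤ d * L := mul_le_mul_of_nonneg_left hL hd0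
      linarith
    have h6 : κ1 * L ≤ |κ1| * L := mul_le_mul_of_nonneg_right (le_abs_self _) hL0.le
    rw [hD]
    nlinarith
  have key := hc'' T D θ (C' * Real.exp (ε / 2 * L)) hD0 (by positivity) Y ?_ ?_
  · refine key.trans (le_of_eq ?_)
    have e1 : ε / (2 * (|κ1| + 1 + d)) * D = ε / 2 * L := by
      rw [hD]
      field_simp
    rw [e1, mul_assoc, mul_assoc, ← Real.exp_add, mul_assoc]
    congr 3
    ring
  · -- the elements of the image
    intro y hy
    obtain ⟨x, hx, rfl⟩ := Finset.mem_image.1 hy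
    have hxX : x ∈ X := (Set.Finite.mem_toFinset hfin).1 hx
    obtain ⟨hx0, hx1, hxh, hxs, -, -, -⟩ := hxX
    refine ⟨role_ne_zero hx0 hx1 c, role_ne_one hx0 hx1 c, hhgt x
      ((Set.Finite.mem_toFinset hfin).1 hx), ?_⟩
    unfold RK
    rw [(role_rd hx0 hx1 c _).1, (role_rd hx0 hx1 c _).2.1, (role_rd hx0 hx1 c _).2.2]
    simpa [T, c2_rd_empty] using hxs
  · -- one cell
    intro P hP y0 hy0 hsame
    refine hc' L hL T p' dv hp' ?_ P y0 hy0 hsame ?_
    · intro n hn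
      refine hM n ?_
      simpa [T] using hn
    · intro y hy
      obtain ⟨x, hx, rfl⟩ := Finset.mem_image.1 (hP hy)
      have hxX : x ∈ X := (Set.Finite.mem_toFinset hfin).1 hx
      obtain ⟨hx0, hx1, hxh, hxs, hdec, hη', hord⟩ := hxX
      refine ⟨role_ne_zero hx0 hx1 c, role_ne_one hx0 hx1 c, hhgt x
        ((Set.Finite.mem_toFinset hfin).1 hx), ?_, ?_, ?_⟩
      · intro g hg
        apply hdv
        have hcase : g = 0 ∨ g = 1 := by
          revert hg
          fin_cases g <;> simp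
        rcases hcase with rfl | rfl
        · obtain ⟨D', hD'1, hD'2⟩ := hdec (gz c) (gz_ne c)
          have e1 : p' 0 = p (gz c) := by simp [p']
          have e2 : Fs T 0 = Set.univ := by simp [Fs, T]
          refine ⟨D', hD'1, fun v => ?_⟩
          rw [e1, e2, (dpart_role hx0 hx1 c _).1]
          exact hD'2 v
        · obtain ⟨D', hD'1, hD'2⟩ := hdec (gp c) (gp_ne c)
          have e1 : p' 1 = p (gp c) := by simp [p']
          have e2 : Fs T 1 = Set.univ := by simp [Fs, T]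
          refine ⟨D', hD'1, fun v => ?_⟩
          rw [e1, e2, (dpart_role hx0 hx1 c _).2.1]
          exact hD'2 v
      · have e1 : T.Gᶜ = M := by simp [T]
        rw [e1, (role_rd hx0 hx1 c _).2.2]
        exact hη'
      · intro v hv hv2
        have e2 := ord_role hx0 hx1 c hv
        refine hord v (by rw [← e2]; exact hv) ?_
        rw [← e2]
        simpa [T] using hv2

end Pool.Agent.MVD
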