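import Mathlib

/-!
# Module Greedy (size 2)

`greedy_size`: induction on `s` (`Finset.induction_on`): if `X ≤ ∑_{s'} n a_n` use the induction hypothesis; otherwise `M = s = insert n0 s'`: `∑_{s'} a_n ≤ (1/J) ∑_{s'} n a_n ≤ X / J` and `a_{n0} ≤ δ`. `greedy_mass`: the same with the masses.
`card_big`: `card * t ≤ ∑_{s} a_n ≤ X`. `pigeon`: for each `g` at most one `i` has `p g i ∧ ¬ p g (i+1)`; four values of `i`, three groups.
-/

namespace Pool.Agent.MVD


theorem greedy_size (s : Finset ℕ) (a : ℕ → ℝ) (ha : ∀ n, 0 ≤ a n) {J : ℝ} (hJ : 0 < J)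
    (hs : ∀ n ∈ s, J ≤ n) {δ X : ℝ} (hδ0 : 0 ≤ δ) (hδ : ∀ n ∈ s, a n ≤ δ) (hX : 0 ≤ X)
    (h : X ≤ ∑ n ∈ s, (n : ℝ) * a n) :
    ∃ M ⊆ s, X ≤ ∑ n ∈ M, (n : ℝ) * a n ∧ ∑ n ∈ M, a n ≤ X / J + δ := by
  classical
  induction s using Finset.induction_on with
  | empty =>
    refine ⟨∅, Finset.Subset.refl _, h, ?_⟩
    rw [Finset.sum_empty]
    positivity
  | insert n0 s hn ih =>
    by_cases hc : X ≤ ∑ n ∈ s, (n : ℝ) * a n
    · obtain ⟨M, hM, h1, h2⟩ := ih (fun n hn' => hs n (Finset.mem_insert_of_mem hn'))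
        (fun n hn' => hδ n (Finset.mem_insert_of_mem hn')) hc
      exact ⟨M, hM.trans (Finset.subset_insert _ _), h1, h2⟩
    · push Not at hc
      refine ⟨insert n0 s, Finset.Subset.refl _, h, ?_⟩
      rw [Finset.sum_insert hn, add_comm]
      refine add_le_add ?_ (hδ n0 (Finset.mem_insert_self _ _))
      rw [le_div_iff₀ hJ]
      have h1 : (∑ n ∈ s, a n) * J ≤ ∑ n ∈ s, (n : ℝ) * a n := by
        rw [Finset.sum_mul]
        refine Finset.sum_le_sum fun n hn' => ?_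
        rw [mul_comm]
        exact mul_le_mul_of_nonneg_right (hs n (Finset.mem_insert_of_mem hn')) (ha n)
      linarith

theorem greedy_mass (s : Finset ℕ) (a : ℕ → ℝ) (ha : ∀ n, 0 ≤ a n) {δ X : ℝ} (hδ0 : 0 ≤ δ)
    (hδ : ∀ n ∈ s, a n ≤ δ) (hX : 0 ≤ X) (h : X ≤ ∑ n ∈ s, a n) :
    ∃ M ⊆ s, X ≤ ∑ n ∈ M, a n ∧ ∑ n ∈ M, a n ≤ X + δ := by
  classical
  induction s using Finset.induction_on with
  | empty =>
    refine ⟨∅, Finset.Subset.refl _, h, ?_⟩
    rw [Finset.sum_empty]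
    positivity
  | insert n0 s hn ih =>
    by_cases hc : X ≤ ∑ n ∈ s, a n
    · obtain ⟨M, hM, h1, h2⟩ := ih
        (fun n hn' => hδ n (Finset.mem_insert_of_mem hn')) hc
      exact ⟨M, hM.trans (Finset.subset_insert _ _), h1, h2⟩
    · push Not at hc
      refine ⟨insert n0 s, Finset.Subset.refl _, h, ?_⟩
      rw [Finset.sum_insert hn, add_comm]
      exact add_le_add hc.le (hδ n0 (Finset.mem_insert_self _ _))

theorem card_big (s : Finset ℕ) (a : ℕ → ℝ) {t X : ℝ} (ht : 0 < t) (hs : ∀ n ∈ s, t ≤ a n)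
    (h : ∑ n ∈ s, a n ≤ X) {m : ℕ} (hm : X ≤ t * m) : s.card ≤ m := by
  have h1 : (s.card : ℝ) * t ≤ ∑ n ∈ s, a n := by
    rw [← nsmul_eq_mul]
    exact Finset.card_nsmul_le_sum s _ _ hs
  have h2 : (s.card : ℝ) * t ≤ (m : ℝ) * t := by linarith
  have h3 := le_of_mul_le_mul_right h2 ht
  exact_mod_cast h3

theorem pigeon (p : Fin 3 → ℕ → Prop) (h : ∀ g i, p g (i + 1) → p g i) :
    ∃ i < 4, ∀ g, ¬ p g i ∨ p g (i + 1) := by
  classical
  by_contra hcon
  push Not at hcon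
  have hmono : ∀ g i j, i ≤ j → p g j → p g i := by
    intro g i j hij
    induction j, hij using Nat.le_induction with
    | base => exact id
    | succ j _ ih => exact fun hp => ih (h g j hp)
  obtain ⟨g0, h00, h01⟩ := hcon 0 (by norm_num)
  obtain ⟨g1, h10, h11⟩ := hcon 1 (by norm_num)
  obtain ⟨g2, h20, h21⟩ := hcon 2 (by norm_num)
  obtain ⟨g3, h30, h31⟩ := hcon 3 (by norm_num)
  have key : ∀ (g g' : Fin 3) (i j : ℕ), i < j → ¬ p g (i + 1) → p g' j → g ≠ g' := by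
    intro g g' i j hij hn hp he
    subst he
    exact hn (hmono g (i + 1) j hij hp)
  have e01 := key g0 g1 0 1 (by norm_num) h01 h10
  have e02 := key g0 g2 0 2 (by norm_num) h01 h20
  have e03 := key g0 g3 0 3 (by norm_num) h01 h30
  have e12 := key g1 g2 1 2 (by norm_num) h11 h20
  have e13 := key g1 g3 1 3 (by norm_num) h11 h30
  have e23 := key g2 g3 2 3 (by norm_num) h21 h30
  omega

end Pool.Agent.MVD
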