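import Pool.Agent.MVD.Split
import Pool.Agent.MVD.Greedy

/-!
# Module CoverA (size 5)

Notation: `a g n = aa x g n = rd (grp x g) {n}`, `R_g = rd (grp x g) univ`, `RR x = ∑ R_g ≤ L` (`RR_eq`), `A_g = ∑_{n ≤ E} a g n`, `L0 = ∑_g A_g ≤ RR x`, `RR x - L0 ≤ 3 hh x / (E+1) ≤ η L` (`aa_tail`, AbcF/Costs1). For `i`: `big_i g = (Icc (Jt i) E).filter (τ i * L ≤ a g n)`,
`sm_i g = Icc (Jt i) E \ big_i g` (all `a g n < τ i * L`), `ρ_i g = ∑_{sm_i g} a g n`; `ρ_{i+1} g ≤ ρ_i g` (`sm_{i+1} g ⊆ sm_i g`) and `ρ_i g ≤ A_g`. `(big_i g).card ≤ m i` by `card_big` (`∑ ≤ L`, `L ≤ τ_i L * m i`). `pigeon` for `p g i := η L ≤ ρ_i g` gives `i < 4` such that for all `g` either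
`ρ_i g < η L` or `η L ≤ ρ_{i+1} g`. Let `V = {g : η L ≤ ρ_{i+1} g}`.
(1) `V` empty: first alternative with `S g = big_i g`: by `split_low` `rd (grp x g) (lowS ..)ᶜ = (R_g - A_g) + ρ_i g`, sum `≤ η L + 3 η L`; `sz_low`; `a g n ≤ R_g ≤ L`.
(2) Some `c ∈ V` with `A_c ≥ L0 / 3`: third alternative: `greedy_size` for `s = sm_{i+1} c`, `J = Jt (i+1) ≥ Jt 0`, `δ = τ_{i+1} L ≤ η L`, `X = L`: `∑ n a ≥ Jt(i+1) ρ_{i+1} c ≥ Jt 0 * η L ≥ L`. It gives `M` with `∑_M n a ≥ L ≥ L0 - A_c`, `∑_M a ≤ L / Jt 0 + η L ≤ 2 η L` (`1 ≤ η * Jt 0`). `cost_en` (AbcF/Costs2;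
`Φ2 E (c, M) x` unfolds to it, `rolb c false x = role c x`): cost `≤ η L + 2 η L + (L0 - A_c)/2 + 0 ≤ 3 η L + L0/3`.
(3) Otherwise all `c ∈ V` have `A_c < L0/3`, so `V` has one or two elements (three would give `L0 < L0`). Let `c ∈ V`; second alternative with `S g = big_i g`, `M` from `greedy_mass` (`s = sm_{i+1} c`, `X = η L`, `δ = η L`): `∑_M a ≤ 2 η L`. For `g ≠ c`: `rd (grp x g) (lowS)ᶜ = (R_g - A_g) + ρ_i g`, where `ρ_i g ≤ A_g < L0/3` if
`g ∈ V` (at most one such `g`) and `ρ_i g < η L` otherwise. `rd (grp x c) M = ∑_M a` (`c2_rd_finset`). Sum `≤ L0/3 + 2 η L + η L + 2 η L`.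
-/

namespace Pool.Agent.MVD

open NumberField IsDedekindDomain Pool.Agent.H7.Abc Pool.Agent.AbcE Pool.Agent.AbcF

variable {K : Type*} [Field K] [NumberField K]

/-- One of three tools applies. -/
theorem cover_a {x : K} (hx : x ≠ 0) (hx1 : x ≠ 1) {L η : ℝ} (hL : 0 < L) (hη : 0 < η)
    (hR : RR x ≤ L) {E : ℕ} (hE : 3 * hh x / (E + 1) ≤ η * L) (τ : ℕ → ℝ) (Jt m : ℕ → ℕ)
    (hτ0 : τ 0 ≤ η) (hJ0 : 1 ≤ η * Jt 0)
    (hch : ∀ i, 0 < τ i ∧ τ (i + 1) ≤ τ i ∧ Jt i ≤ Jt (i + 1) ∧ 1 ≤ τ i * m i)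
    (hJE : Jt 4 ≤ E) :
    (∃ i < 4, ∃ S : Fin 3 → Finset ℕ, (∀ g, S g ⊆ Finset.Icc (Jt i) E ∧ (S g).card ≤ m i) ∧
      ∑ g, rd (grp x g) (lowS (Jt i) (S g))ᶜ ≤ 4 * η * L ∧
      ∀ g, (∀ n ∈ S g, rd (grp x g) {n} ≤ L) ∧
        sz (grp x g) (lowS (Jt i) (S g) \ (S g : Set ℕ)) ≤ Jt i * L) ∨
    (∃ i < 4, ∃ (c : Fin 3) (S : Fin 3 → Finset ℕ) (M : Finset ℕ),
      (∀ g, S g ⊆ Finset.Icc (Jt i) E ∧ (S g).card ≤ m i) ∧ M ⊆ Finset.Icc (Jt (i + 1)) E ∧
      ∑ g, rd (grp x g) (if g = c then (M : Set ℕ) else (lowS (Jt i) (S g))ᶜ) ≤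
        (1 / 3 + 6 * η) * L ∧
      (∀ g, (∀ n ∈ S g, rd (grp x g) {n} ≤ L) ∧
        sz (grp x g) (lowS (Jt i) (S g) \ (S g : Set ℕ)) ≤ Jt i * L) ∧
      η * L ≤ rd (grp x c) (M : Set ℕ) ∧ ∀ n ∈ M, rd (grp x c) {n} ≤ τ (i + 1) * L) ∨
    (∃ i ∈ I2 E, Φ2 E i x ≤ (1 / 3 + 6 * η) * L) := by
  classical
  have hg := fun g => grp_ne_zero hx hx1 g
  have ha0 : ∀ g n, 0 ≤ aa x g n := fun g n => aa_nonneg x g n
  set A : Fin 3 → ℝ := fun g => ∑ n ∈ Finset.range (E + 1), aa x g n with hA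
  set R : Fin 3 → ℝ := fun g => rd (grp x g) Set.univ with hRdef
  obtain ⟨t1, t2⟩ := aa_tail hx hx1 E
  have hRR : RR x = ∑ g, R g := RR_eq hx hx1
  have hAR : ∀ g, A g ≤ R g := by
    intro g
    have h1 := c2_rd_compl (hg g) ((Finset.range (E + 1) : Finset ℕ) : Set ℕ)
    have h2 := rd_nonneg (grp x g) (((Finset.range (E + 1) : Finset ℕ) : Set ℕ)ᶜ)
    have h3 : rd (grp x g) ((Finset.range (E + 1) : Finset ℕ) : Set ℕ) = A g := c2_rd_finset (hg g) _
    show A g ≤ rd (grp x g) Set.univ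
    linarith
  have hR0 : ∀ g, 0 ≤ R g := fun g => rd_nonneg _ _
  have hA0 : ∀ g, 0 ≤ A g := fun g => Finset.sum_nonneg fun n _ => ha0 g n
  have hRL : ∀ g, R g ≤ L := by
    intro g
    refine le_trans ?_ hR
    rw [hRR]
    exact Finset.single_le_sum (fun g _ => hR0 g) (Finset.mem_univ g)
  set L0 : ℝ := ∑ g, A g with hL0
  have hL0L : L0 ≤ L := t1.trans hR
  have hdiff : ∑ g, (R g - A g) ≤ η * L := by
    rw [Finset.sum_sub_distrib, ← hRR]
    have : RR x ≤ L0 + 3 * hh x / (E + 1) := t2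
    linarith
  -- monotonicity of the scales
  have hJmono : ∀ i j, i ≤ j → Jt i ≤ Jt j := fun i j hij => monotone_nat_of_le_succ
    (fun n => (hch n).2.2.1) hij
  have hτmono : ∀ i j, i ≤ j → τ j ≤ τ i := fun i j hij => antitone_nat_of_succ_le
    (fun n => (hch n).2.1) hij
  have hJiE : ∀ i, i ≤ 4 → Jt i ≤ E := fun i hi => (hJmono i 4 hi).trans hJE
  have hηL : 0 < η * L := mul_pos hη hL
  let big : ℕ → Fin 3 → Finset ℕ := fun i g => (Finset.Icc (Jt i) E).filter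
    (fun n => τ i * L ≤ aa x g n)
  let ρ : ℕ → Fin 3 → ℝ := fun i g => ∑ n ∈ Finset.Icc (Jt i) E \ big i g, aa x g n
  have hbig : ∀ i g, big i g ⊆ Finset.Icc (Jt i) E := fun i g => Finset.filter_subset _ _
  have hsm : ∀ i g n, n ∈ Finset.Icc (Jt i) E \ big i g → aa x g n < τ i * L := by
    intro i g n hn
    rw [Finset.mem_sdiff] at hn
    by_contra hcon
    push Not at hcon
    exact hn.2 (Finset.mem_filter.2 ⟨hn.1, hcon⟩)
  have hIccR : ∀ i, Finset.Icc (Jt i) E ⊆ Finset.range (E + 1) := by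
    intro i n hn
    rw [Finset.mem_Icc] at hn
    rw [Finset.mem_range]
    omega
  have hρA : ∀ i g, ρ i g ≤ A g := by
    intro i g
    refine Finset.sum_le_sum_of_subset_of_nonneg ?_ (fun n _ _ => ha0 g n)
    exact Finset.sdiff_subset.trans (hIccR i)
  have hsmsub : ∀ i g, Finset.Icc (Jt (i + 1)) E \ big (i + 1) g ⊆
      Finset.Icc (Jt i) E \ big i g := by
    intro i g n hn
    have h1 := hsm (i + 1) g n hn
    rw [Finset.mem_sdiff, Finset.mem_Icc] at hn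
    rw [Finset.mem_sdiff, Finset.mem_Icc]
    refine ⟨⟨(hch i).2.2.1.trans hn.1.1, hn.1.2⟩, fun hb => ?_⟩
    have h2 := (Finset.mem_filter.1 hb).2
    have h3 : τ (i + 1) * L ≤ τ i * L := mul_le_mul_of_nonneg_right (hch i).2.1 hL.le
    linarith
  have hρmono : ∀ i g, ρ (i + 1) g ≤ ρ i g := fun i g =>
    Finset.sum_le_sum_of_subset_of_nonneg (hsmsub i g) (fun n _ _ => ha0 g n)
  have hcard : ∀ i g, (big i g).card ≤ m i := by
    intro i g
    refine card_big (big i g) (aa x g) (t := τ i * L) (X := L) (mul_pos (hch i).1 hL)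
      (fun n hn => (Finset.mem_filter.1 hn).2) ?_ ?_
    · calc ∑ n ∈ big i g, aa x g n ≤ A g :=
            Finset.sum_le_sum_of_subset_of_nonneg ((hbig i g).trans (hIccR i))
              (fun n _ _ => ha0 g n)
        _ ≤ R g := hAR g
        _ ≤ L := hRL g
    · have := (hch i).2.2.2
      calc L = 1 * L := (one_mul L).symm
        _ ≤ (τ i * m i) * L := mul_le_mul_of_nonneg_right this hL.le
        _ = τ i * L * m i := by ring
  have hlow : ∀ i, i ≤ 4 → ∀ g, rd (grp x g) (lowS (Jt i) (big i g))ᶜ = (R g - A g) + ρ i g :=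
    fun i hi g => split_low (hg g) (hJiE i hi) (hbig i g)
  have hcond : ∀ i g, (∀ n ∈ big i g, rd (grp x g) {n} ≤ L) ∧
      sz (grp x g) (lowS (Jt i) (big i g) \ (big i g : Set ℕ)) ≤ Jt i * L := by
    intro i g
    refine ⟨fun n _ => (rd_single_le (hg g) n).trans (hRL g), ?_⟩
    exact (sz_low (hg g) _ _).trans (mul_le_mul_of_nonneg_left (hRL g) (Nat.cast_nonneg _))
  obtain ⟨i, hi4, hpig⟩ := pigeon (fun g i => η * L ≤ ρ i g)
    (fun g i h => h.trans (hρmono i g))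
  have hτi : τ (i + 1) ≤ η := (hτmono 0 (i + 1) (by omega)).trans hτ0
  by_cases hV : ∀ g, ¬ (η * L ≤ ρ (i + 1) g)
  · -- no bad group
    left
    refine ⟨i, hi4, big i, fun g => ⟨hbig i g, hcard i g⟩, ?_, hcond i⟩
    have h1 : ∀ g, ρ i g ≤ η * L := by
      intro g
      rcases hpig g with h | h
      · exact (not_le.1 h).le
      · exact absurd h (hV g)
    calc ∑ g, rd (grp x g) (lowS (Jt i) (big i g))ᶜ = ∑ g, ((R g - A g) + ρ i g) :=
          Finset.sum_congr rfl fun g _ => hlow i hi4.le g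
      _ = ∑ g, (R g - A g) + ∑ g, ρ i g := Finset.sum_add_distrib
      _ ≤ η * L + ∑ _g : Fin 3, η * L := add_le_add hdiff (Finset.sum_le_sum fun g _ => h1 g)
      _ = 4 * η * L := by
          simp only [Finset.sum_const, Finset.card_univ, Fintype.card_fin, nsmul_eq_mul]
          push_cast
          ring
  push Not at hV
  by_cases hbc : ∃ c, η * L ≤ ρ (i + 1) c ∧ L0 / 3 ≤ A c
  · -- the energy tool
    right; right
    obtain ⟨c, hc1, hc2⟩ := hbc
    have hJ1 : (Jt 0 : ℝ) ≤ Jt (i + 1) := by exact_mod_cast hJmono 0 (i + 1) (by omega)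
    have hJpos : (0 : ℝ) < Jt (i + 1) := by
      have : (0 : ℝ) < Jt 0 := by
        by_contra hcon
        push Not at hcon
        nlinarith
      linarith
    have hJ1' : 1 ≤ η * Jt (i + 1) := hJ0.trans (mul_le_mul_of_nonneg_left hJ1 hη.le)
    have hsum : L ≤ ∑ n ∈ Finset.Icc (Jt (i + 1)) E \ big (i + 1) c, (n : ℝ) * aa x c n := by
      calc L = 1 * L := (one_mul L).symm
        _ ≤ (η * Jt (i + 1)) * L := mul_le_mul_of_nonneg_right hJ1' hL.le
        _ = Jt (i + 1) * (η * L) := by ring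
        _ ≤ Jt (i + 1) * ρ (i + 1) c := mul_le_mul_of_nonneg_left hc1 hJpos.le
        _ = ∑ n ∈ Finset.Icc (Jt (i + 1)) E \ big (i + 1) c, (Jt (i + 1) : ℝ) * aa x c n := by
            rw [← Finset.mul_sum]
        _ ≤ _ := by
            refine Finset.sum_le_sum fun n hn => ?_
            rw [Finset.mem_sdiff, Finset.mem_Icc] at hn
            refine mul_le_mul_of_nonneg_right ?_ (ha0 c n)
            exact_mod_cast hn.1.1
    obtain ⟨M, hM, hM1, hM2⟩ := greedy_size (Finset.Icc (Jt (i + 1)) E \ big (i + 1) c)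
      (aa x c) (ha0 c) hJpos (fun n hn => by
        rw [Finset.mem_sdiff, Finset.mem_Icc] at hn
        exact_mod_cast hn.1.1) (δ := τ (i + 1) * L) (X := L)
      (mul_pos (hch (i + 1)).1 hL).le (fun n hn => (hsm (i + 1) c n hn).le) hL.le hsum
    have hMr : M ⊆ Finset.range (E + 1) := hM.trans (Finset.sdiff_subset.trans (hIccR _))
    refine ⟨(c, M), ?_, ?_⟩
    · unfold I2
      rw [Finset.mem_product]
      exact ⟨Finset.mem_univ _, Finset.mem_powerset.2 hMr⟩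
    · have h1 := cost_en hx hx1 E c M hMr L0 rfl
      have h2 : Φ2 E (c, M) x = RK (enTool E M) (role c x) + Om (enTool E M) (role c x) := by
        unfold Φ2 rolb
        simp
      rw [h2]
      refine h1.trans ?_
      have h3 : ∑ n ∈ M, aa x c n ≤ 2 * (η * L) := by
        refine hM2.trans ?_
        have h4 : L / Jt (i + 1) ≤ η * L := by
          rw [div_le_iff₀ hJpos]
          calc L = 1 * L := (one_mul L).symm
            _ ≤ (η * Jt (i + 1)) * L := mul_le_mul_of_nonneg_right hJ1' hL.le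
            _ = η * L * Jt (i + 1) := by ring
        have h5 : τ (i + 1) * L ≤ η * L := mul_le_mul_of_nonneg_right hτi hL.le
        linarith
      have h6 : max 0 ((L0 - ∑ n ∈ Finset.range (E + 1), aa x c n) -
          ∑ n ∈ M, (n : ℝ) * aa x c n) = 0 := by
        apply max_eq_left
        have h7 : 0 ≤ A c := hA0 c
        have h8 : ∑ n ∈ Finset.range (E + 1), aa x c n = A c := rfl
        rw [h8]
        linarith
      rw [h6]
      have h8 : ∑ n ∈ Finset.range (E + 1), aa x c n = A c := rfl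
      rw [h8]
      have h9 : RR x - L0 ≤ η * L := by
        have : RR x ≤ L0 + 3 * hh x / (E + 1) := t2
        linarith
      nlinarith
  · -- the congruence tool
    right; left
    push Not at hbc
    obtain ⟨c, hc⟩ := hV
    obtain ⟨M, hM, hM1, hM2⟩ := greedy_mass (Finset.Icc (Jt (i + 1)) E \ big (i + 1) c)
      (aa x c) (ha0 c) (δ := η * L) (X := η * L) hηL.le
      (fun n hn => (hsm (i + 1) c n hn).le.trans (mul_le_mul_of_nonneg_right hτi hL.le))
      hηL.le hc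
    have hMrd : rd (grp x c) (M : Set ℕ) = ∑ n ∈ M, aa x c n := c2_rd_finset (hg c) M
    refine ⟨i, hi4, c, big i, M, fun g => ⟨hbig i g, hcard i g⟩, hM.trans Finset.sdiff_subset,
      ?_, hcond i, ?_, fun n hn => (hsm (i + 1) c n (hM hn)).le⟩
    · rw [sum_all c]
      rw [if_neg (gz_ne c), if_neg (gp_ne c), if_pos rfl, hlow i hi4.le, hlow i hi4.le, hMrd]
      have hd := hdiff
      rw [sum_all c] at hd
      have hs : L0 = A (gz c) + A (gp c) + A c := by rw [hL0, sum_all c]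
      have hdc : 0 ≤ R c - A c := sub_nonneg.2 (hAR c)
      have hAc := hbc c hc
      have b1 : (η * L ≤ ρ (i + 1) (gz c) ∧ A (gz c) < L0 / 3) ∨ ρ i (gz c) ≤ η * L := by
        by_cases h : η * L ≤ ρ (i + 1) (gz c)
        · exact Or.inl ⟨h, hbc _ h⟩
        · rcases hpig (gz c) with h' | h'
          · exact Or.inr (not_le.1 h').le
          · exact absurd h' h
      have b2 : (η * L ≤ ρ (i + 1) (gp c) ∧ A (gp c) < L0 / 3) ∨ ρ i (gp c) ≤ η * L := by
        by_cases h : η * L ≤ ρ (i + 1) (gp c)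
        · exact Or.inl ⟨h, hbc _ h⟩
        · rcases hpig (gp c) with h' | h'
          · exact Or.inr (not_le.1 h').le
          · exact absurd h' h
      have r1 := hρA i (gz c)
      have r2 := hρA i (gp c)
      rcases b1 with ⟨-, h1⟩ | h1
      · rcases b2 with ⟨-, h2⟩ | h2
        · linarith
        · nlinarith
      · rcases b2 with ⟨-, h2⟩ | h2
        · nlinarith
        · nlinarith
    · rw [hMrd]
      exact hM1

end Pool.Agent.MVD
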