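import Pool.Agent.MVD.Split
import Pool.Agent.MVD.Greedy

/-!
# Module CoverC (size 3)

`a n = aa x c n = rd (grp x c) {n}`, `big = (Icc J E).filter (τ L ≤ a n)`, `sm = Icc J E \ big`, `ρ = ∑_{sm} a n`. If `ρ < η L`: first alternative with `S = big` (`card_big`: `∑ a ≤ RR x ≤ L`); `split_low`; the tail `rd univ - ∑_{n ≤ E} a n ≤ hh x / (E + 1) ≤ η L` (as in the proof of `aa_tail`, AbcF/Costs1: `mul_rd_le_sz` for the
exponents `> E`, `sz_univ_le_hgt`, `grp_hgt_le`); `sz_low`. Otherwise `greedy_mass` for `sm` (`δ = τ L`).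
-/

namespace Pool.Agent.MVD

open NumberField IsDedekindDomain Pool.Agent.H7.Abc Pool.Agent.AbcE Pool.Agent.AbcF

variable {K : Type*} [Field K] [NumberField K]

private theorem CoverC_le {x : K} (hx : x ≠ 0) (hx1 : x ≠ 1) {L : ℝ} (hR : RR x ≤ L)
    (g : Fin 3) : rd (grp x g) Set.univ ≤ L := by
  have h := RR_eq hx hx1
  have h1 : rd (grp x g) Set.univ ≤ ∑ g, rd (grp x g) Set.univ :=
    Finset.single_le_sum (f := fun g => rd (grp x g) Set.univ)
      (fun g _ => rd_nonneg _ _) (Finset.mem_univ g)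
  linarith

private theorem CoverC_tail {x : K} (hx : x ≠ 0) (hx1 : x ≠ 1) (E : ℕ) (g : Fin 3) :
    rd (grp x g) Set.univ - ∑ n ∈ Finset.range (E + 1), rd (grp x g) {n} ≤
      hh x / (E + 1) := by
  have hg := grp_ne_zero hx hx1 g
  have h1 := rd_add_compl hg ((Finset.range (E + 1) : Finset ℕ) : Set ℕ)
  rw [c2_rd_finset hg] at h1
  have h2 : ((E + 1 : ℕ) : ℝ) * rd (grp x g) (((Finset.range (E + 1) : Finset ℕ) : Set ℕ))ᶜ ≤
      sz (grp x g) (((Finset.range (E + 1) : Finset ℕ) : Set ℕ))ᶜ := by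
    refine mul_rd_le_sz hg _ _ fun n hn => ?_
    simp only [Set.mem_compl_iff, Finset.coe_range, Set.mem_Iio] at hn
    omega
  have h3 : sz (grp x g) (((Finset.range (E + 1) : Finset ℕ) : Set ℕ))ᶜ ≤
      sz (grp x g) Set.univ := c2_sz_mono hg (Set.subset_univ _)
  have h4 := sz_univ_le_hgt hg
  have h5 := grp_hgt_le (x := x) g
  have h6 : (0 : ℝ) < (E : ℝ) + 1 := by positivity
  rw [le_div_iff₀ h6]
  rw [Nat.cast_add, Nat.cast_one] at h2
  have h7 : rd (grp x g) Set.univ - ∑ n ∈ Finset.range (E + 1), rd (grp x g) {n} =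
      rd (grp x g) (((Finset.range (E + 1) : Finset ℕ) : Set ℕ))ᶜ := by linarith
  rw [h7, mul_comm]
  linarith

/-- The two cases for one group. -/
theorem cover_c {x : K} (hx : x ≠ 0) (hx1 : x ≠ 1) {L η τ : ℝ} (hL : 0 < L) (hη : 0 < η)
    (hτ : 0 < τ) (hR : RR x ≤ L) {J E m : ℕ} (hm : 1 ≤ τ * m) (hJE : J ≤ E)
    (hE : 3 * hh x / (E + 1) ≤ η * L) (c : Fin 3) :
    (∃ S : Finset ℕ, S ⊆ Finset.Icc J E ∧ S.card ≤ m ∧
      rd (grp x c) (lowS J S)ᶜ ≤ 2 * η * L ∧ (∀ n ∈ S, rd (grp x c) {n} ≤ L) ∧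
        sz (grp x c) (lowS J S \ (S : Set ℕ)) ≤ J * L) ∨
    (∃ N : Finset ℕ, N ⊆ Finset.Icc J E ∧ rd (grp x c) (N : Set ℕ) ≤ (η + τ) * L ∧
      η * L ≤ rd (grp x c) (N : Set ℕ) ∧ ∀ n ∈ N, rd (grp x c) {n} ≤ τ * L) := by
  classical
  have hg := grp_ne_zero hx hx1 c
  have hle := CoverC_le hx hx1 hR c
  have hsgl : ∀ n, rd (grp x c) {n} ≤ L := fun n => (rd_single_le hg n).trans hle
  obtain ⟨big, hbig⟩ : ∃ big : Finset ℕ, big =
    (Finset.Icc J E).filter (fun n => τ * L ≤ rd (grp x c) {n}) := ⟨_, rfl⟩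
  have hbsub : big ⊆ Finset.Icc J E := by
    rw [hbig]; exact Finset.filter_subset _ _
  by_cases hρ : ∑ n ∈ Finset.Icc J E \ big, rd (grp x c) {n} < η * L
  · left
    refine ⟨big, hbsub, ?_, ?_, fun n _ => hsgl n, ?_⟩
    · refine card_big big (fun n => rd (grp x c) {n}) (t := τ * L) (X := L)
        (by positivity) (fun n hn => ?_) ?_ ?_
      · rw [hbig] at hn
        exact (Finset.mem_filter.1 hn).2
      · rw [← c2_rd_finset hg]
        have h4 := c2_rd_compl hg ((big : Finset ℕ) : Set ℕ)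
        have h5 := rd_nonneg (grp x c) ((big : Finset ℕ) : Set ℕ)ᶜ
        linarith
      · nlinarith
    · rw [split_low hg hJE hbsub]
      have h4 := CoverC_tail hx hx1 E c
      have h5 : hh x / (E + 1) ≤ η * L := by
        have h6 : 0 ≤ hh x := by
          have := sz_nonneg (grp x c) Set.univ
          have h7 := sz_univ_le_hgt hg
          have h8 := grp_hgt_le (x := x) c
          linarith
        have h7 : 0 ≤ hh x / (E + 1) := by positivity
        have h8 : 3 * hh x / ((E : ℝ) + 1) = 3 * (hh x / (E + 1)) := by ring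
        linarith
      linarith
    · refine (sz_low hg J big).trans ?_
      exact mul_le_mul_of_nonneg_left hle (by positivity)
  · right
    push Not at hρ
    have hlt : ∀ n ∈ Finset.Icc J E \ big, rd (grp x c) {n} ≤ τ * L := by
      intro n hn
      rw [Finset.mem_sdiff] at hn
      by_contra hcon
      push Not at hcon
      apply hn.2
      rw [hbig]
      exact Finset.mem_filter.2 ⟨hn.1, hcon.le⟩
    obtain ⟨N, hN, hN1, hN2⟩ := greedy_mass (Finset.Icc J E \ big)
      (fun n => rd (grp x c) {n}) (fun n => rd_nonneg _ _) (δ := τ * L) (X := η * L)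
      (by positivity) hlt (by positivity) hρ
    refine ⟨N, hN.trans Finset.sdiff_subset, ?_, ?_, fun n hn => hlt n (hN hn)⟩
    · rw [c2_rd_finset hg]
      linarith
    · rw [c2_rd_finset hg]
      exact hN1

end Pool.Agent.MVD
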