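import Pool.Agent.MVD.Elim
import Pool.Agent.MVD.GermInj

/-!
# Module CritRel (size 4)

Take `D2` from `elim n D DH` with `DH = ((D+1)^n) * DW`, applied to `A = (S → PowerSeries (MvPolynomial (Fin n) K))` (product ring over
the points `P ∈ S`), `x j = fun P => φ P j`, `H k = W ^ k`. Relations: componentwise `hφ.rel`. Leading coefficients: the component
at `P` of `aeval x (R.f R.δ)` is `aeval (φ P) (R.f R.δ)`, with constant coefficient `C (eval P (R.f R.δ)) ≠ 0`, so it is nonzero in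
a domain, and an element of a product of domains all of whose components are nonzero is a non-zero-divisor.
(`aeval x g` evaluated at `P` is `aeval (φ P) g`: compose with `Pi.evalAlgHom`.)
We get `c ≠ 0` with `∑_k aeval (φ P) (c k) * (aeval (φ P) W)^k = 0` for all `P ∈ S`. Let `k0` be the least index with `c k0 ≠ 0` and
`G = c k0`. Let `P ∈ S`, `eval P W = 0`, `w = aeval (φ P) W ≠ 0`. Dividing by `w ^ k0` (domain):
`∑_{k ≥ k0} aeval (φ P) (c k) * w^(k-k0) = 0`. Constant coefficients (`germ_coeff`): `constantCoeff w = C (eval P W) = 0`, so only `k = k0`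
remains: `C (eval P (c k0)) = 0`.
-/

namespace Pool.Agent.MVD

open MvPolynomial

universe u

private theorem CritRel_low {B B' : Type*} [CommRing B] [IsDomain B] [CommRing B'] (ε : B →+* B')
    {w : B} (hw : w ≠ 0) (hε : ε w = 0) {N : ℕ} (a : Fin N → B) (k0 : Fin N)
    (hk : ∀ k < k0, a k = 0) (hs : ∑ k, a k * w ^ (k : ℕ) = 0) : ε (a k0) = 0 := by
  have h1 : w ^ (k0 : ℕ) * ∑ k, a k * (if k0 ≤ k then w ^ ((k : ℕ) - (k0 : ℕ)) else 0) = 0 := by
    rw [Finset.mul_sum, ← hs]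
    refine Finset.sum_congr rfl fun k _ => ?_
    by_cases h : k0 ≤ k
    · rw [if_pos h]
      have h2 : (k0 : ℕ) ≤ (k : ℕ) := h
      have h3 : (k : ℕ) = (k0 : ℕ) + ((k : ℕ) - (k0 : ℕ)) := by omega
      conv_rhs => rw [h3, pow_add]
      ring
    · rw [hk k (not_le.1 h)]
      ring
  have h2 := (mul_eq_zero.1 h1).resolve_left (pow_ne_zero _ hw)
  have h3 := congrArg ε h2
  rw [map_sum, map_zero, Finset.sum_eq_single k0] at h3
  · rw [if_pos le_rfl, Nat.sub_self, pow_zero, mul_one] at h3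
    exact h3
  · intro k _ hkk
    by_cases h : k0 ≤ k
    · rw [if_pos h, map_mul, map_pow, hε, zero_pow, mul_zero]
      have h4 : k0 < k := lt_of_le_of_ne h (Ne.symm hkk)
      have h5 : (k0 : ℕ) < (k : ℕ) := h4
      omega
    · rw [if_neg h, mul_zero, map_zero]
  · intro h
    exact absurd (Finset.mem_univ _) h

private theorem CritRel_eval {K : Type u} [Field K] {n : ℕ} {S : Finset (Fin n → K)}
    (φ : (Fin n → K) → Fin n → PowerSeries (MvPolynomial (Fin n) K)) (g : MvPolynomial (Fin n) K)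
    (P : {P // P ∈ S}) :
    (aeval (fun j => (fun P : {P // P ∈ S} => φ P.1 j)) g :
      {P // P ∈ S} → PowerSeries (MvPolynomial (Fin n) K)) P = aeval (φ P.1) g := by
  have h := MvPolynomial.comp_aeval_apply
    (fun j => (fun P : {P // P ∈ S} => φ P.1 j))
    (Pi.evalAlgHom K (fun _ : {P // P ∈ S} => PowerSeries (MvPolynomial (Fin n) K)) P) g
  exact h

/-- A polynomial `W` which vanishes at some points but not on the germs there gives a relation
between the free variables, of bounded degree. -/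
theorem crit_rel (n D DW : ℕ) : ∃ D2 : ℕ, ∀ (K : Type u) [Field K] (l : List (Rel K n)),
    Tower Finset.univ l → DegLE D l → ∀ W : MvPolynomial (Fin n) K, (∀ j, W.degreeOf j ≤ DW) →
    ∀ (S : Finset (Fin n → K)) (φ : (Fin n → K) → Fin n → PowerSeries (MvPolynomial (Fin n) K)),
      (∀ P ∈ S, Nondeg l P ∧ IsGerm Finset.univ l P (φ P)) →
      ∃ G : MvPolynomial (Fin n) K, G ≠ 0 ∧ G.vars ⊆ free Finset.univ l ∧
        (∀ j, G.degreeOf j ≤ D2) ∧
        ∀ P ∈ S, eval P W = 0 → aeval (φ P) W ≠ 0 → eval P G = 0 := by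
  obtain ⟨D2, hD2⟩ := elim.{u} n D ((D + 1) ^ n * DW)
  refine ⟨D2, fun K _ l hT hD W hW S φ hφ => ?_⟩
  have e1 : ∀ R ∈ l, aeval (fun j => (fun P : {P // P ∈ S} => φ P.1 j)) R.F = 0 := by
    intro R hR
    funext P
    rw [CritRel_eval φ _ P]
    exact (hφ P.1 P.2).2.rel R hR
  have e2 : ∀ R ∈ l, (aeval (fun j => (fun P : {P // P ∈ S} => φ P.1 j)) (R.f R.δ) :
      {P // P ∈ S} → PowerSeries (MvPolynomial (Fin n) K)) ∈ nonZeroDivisors
        ({P // P ∈ S} → PowerSeries (MvPolynomial (Fin n) K)) := by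
    intro R hR
    rw [mem_nonZeroDivisors_iff_right]
    intro y hy
    funext P
    have h1 := congrFun hy P
    rw [Pi.mul_apply, CritRel_eval φ _ P, Pi.zero_apply, mul_eq_zero] at h1
    refine h1.resolve_right fun h2 => ?_
    have h3 := germ_coeff (hφ P.1 P.2).2 (R.f R.δ)
    rw [h2, map_zero] at h3
    exact ((hφ P.1 P.2).1 R hR).2.2 ((map_eq_zero_iff _ (MvPolynomial.C_injective (Fin n) K)).1
      h3.symm)
  have e3 : ∀ (k : Fin ((D + 1) ^ n + 1)) j, (W ^ (k : ℕ)).degreeOf j ≤ (D + 1) ^ n * DW := by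
    intro k j
    refine (MvPolynomial.degreeOf_pow_le _ _ _).trans (Nat.mul_le_mul ?_ (hW j))
    exact Nat.lt_succ_iff.1 k.2
  obtain ⟨c, hc0, hcv, hcd, hcs⟩ := hD2 K ({P // P ∈ S} → PowerSeries (MvPolynomial (Fin n) K))
    (fun j => (fun P : {P // P ∈ S} => φ P.1 j)) l hT hD e1 e2 (fun k => W ^ (k : ℕ)) e3
  obtain ⟨k, hk⟩ := Function.ne_iff.1 hc0
  obtain ⟨k0, hk0, hmin⟩ := WellFounded.has_min (wellFounded_lt (α := Fin ((D + 1) ^ n + 1)))
    {k | c k ≠ 0} ⟨k, hk⟩
  refine ⟨c k0, hk0, hcv k0, hcd k0, fun P hP hPW hw => ?_⟩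
  have h1 := congrFun hcs ⟨P, hP⟩
  rw [Finset.sum_apply] at h1
  have h2 : ∑ k, aeval (φ P) (c k) * (aeval (φ P) W) ^ (k : ℕ) = 0 := by
    rw [Pi.zero_apply] at h1
    rw [← h1]
    refine Finset.sum_congr rfl fun k _ => ?_
    rw [Pi.mul_apply, CritRel_eval φ _ ⟨P, hP⟩, CritRel_eval φ _ ⟨P, hP⟩, map_pow]
  have h3 := CritRel_low (PowerSeries.constantCoeff (R := MvPolynomial (Fin n) K)) hw
    (by rw [germ_coeff (hφ P hP).2, hPW, map_zero]) (fun k => aeval (φ P) (c k)) k0
    (fun k hk => by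
      have h4 : c k = 0 := by
        by_contra h5
        exact hmin k h5 hk
      simp only [h4, map_zero]) h2
  rw [germ_coeff (hφ P hP).2] at h3
  exact (map_eq_zero_iff _ (MvPolynomial.C_injective (Fin n) K)).1 h3

end Pool.Agent.MVD
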