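import Pool.Agent.MVD.Defs

/-!
# Module Extend (size 5)

DERIVATIVES. Let `ds t G : List (MvPolynomial)` be the list of all iterated partial derivatives of `G` of order at most `t`:
`ds 0 G = [G]`, `ds (t+1) G = G :: (List.finRange n).flatMap (fun k => ds t (pderiv k G))`; its length is bounded by a function of `n, t`
(e.g. `(n+1)^(t+1)`). Claim: if `G ≠ 0`, `totalDegree G ≤ t`, `eval P G = 0`, then there are `F ∈ ds t G` and `k` with `eval P F = 0` and
`eval P (pderiv k F) ≠ 0`. Induction on `t`: if some `eval P (pderiv k G) ≠ 0` take `F = G`. Otherwise, since `G ≠ 0` is not constant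
(`eval P G = 0`) and the characteristic is `0`, some `pderiv k G ≠ 0`, with smaller total degree, and `eval P (pderiv k G) = 0`:
induction (`t ≥ 1` since `G` is not constant).
Invariants of all `F ∈ ds t G`: `F.vars ⊆ I`, `degreeOf j F ≤ D`, `h (coeff m F) ≤ B + t * c` for all `m`: `coeff m (pderiv k G) =
coeff (m + single k 1) G * (m k + 1)` (`MvPolynomial.coeff_pderiv`); if the coefficient of `G` is nonzero then `m k + 1 ≤ D`;
if it is zero the value is `0` and `h 0 ≤ B`.
RELATIONS. For `F` and `k` let `cf s = ∑_{m ∈ F.support, m k = s} monomial (m.erase k) (coeff m F)`; then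
`F = ∑_{s ≤ D} cf s * X_k^s`, `(cf s).vars ⊆ I.erase k`, the coefficients of `cf s` are coefficients of `F` or `0`, degrees at
most `D`. For `δ ≤ D` let `R(F,k,δ) = (k, δ, fun s => if s ≤ δ then cf s else 0)`. Given `P, F, k` as in the claim, `k ∈ I` (as
`pderiv k F ≠ 0`); let `δ` be the largest `s ≤ D` with `eval P (cf s) ≠ 0` (exists, otherwise `eval P (pderiv k F) = 0`). For
`R = R(F,k,δ)`: `eval P R.F = ∑_{s ≤ δ} (cf s)(P) P_k^s = F(P) = 0`, `eval P (pderiv k R.F) = ∑_{s≤δ} s (cf s)(P) P_k^(s-1) =
(pderiv k F)(P) ≠ 0`, `eval P (R.f δ) ≠ 0`.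
`T` = list of all `R(F,k,δ)`, `F ∈ ds (n*D) G`, `k ∈ I`, `δ ≤ D` (`totalDegree G ≤ ∑ degreeOf ≤ n * D`).
-/

namespace Pool.Agent.MVD

open MvPolynomial

universe u

section ExtendAux

variable {K : Type u} [Field K] {n : ℕ}

open Finsupp in
/-- the coefficient of `X_k ^ s` -/
private noncomputable def Extend_cf (F : MvPolynomial (Fin n) K) (k : Fin n) (s : ℕ) :
    MvPolynomial (Fin n) K :=
  ∑ m ∈ F.support.filter (fun m => m k = s), monomial (m.erase k) (coeff m F)

private theorem Extend_coeff_cf (F : MvPolynomial (Fin n) K) (k : Fin n) (s : ℕ)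
    (m : Fin n →₀ ℕ) : coeff m (Extend_cf F k s) =
      if m k = 0 then coeff (m + Finsupp.single k s) F else 0 := by
  classical
  unfold Extend_cf
  rw [coeff_sum]
  simp only [coeff_monomial]
  split_ifs with h
  · have hm : ∀ b : Fin n →₀ ℕ, b k = s → b.erase k = m → b = m + Finsupp.single k s := by
      intro b hb hbm
      rw [← hbm, ← hb]
      exact (Finsupp.erase_add_single k b).symm
    have he : (m + Finsupp.single k s).erase k = m := by
      ext j
      by_cases hj : j = k
      · subst hj; simp [h]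
      · rw [Finsupp.erase_ne hj]
        simp [Ne.symm hj]
    rw [Finset.sum_eq_single (m + Finsupp.single k s)]
    · rw [if_pos he]
    · intro b hb hne
      rw [Finset.mem_filter] at hb
      rw [if_neg]
      intro hbm
      exact hne (hm b hb.2 hbm)
    · intro hnot
      rw [if_pos he]
      by_contra hne
      apply hnot
      rw [Finset.mem_filter, mem_support_iff]
      refine ⟨hne, ?_⟩
      simp [h]
  · apply Finset.sum_eq_zero
    intro b _
    rw [if_neg]
    intro hbm
    apply h
    rw [← hbm]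
    simp

private theorem Extend_degreeOf_cf {F : MvPolynomial (Fin n) K} {D : ℕ}
    (h : ∀ j, F.degreeOf j ≤ D) (k : Fin n) (s : ℕ) (j : Fin n) :
    (Extend_cf F k s).degreeOf j ≤ D := by
  rw [degreeOf_le_iff]
  intro m hm
  rw [mem_support_iff, Extend_coeff_cf] at hm
  have h0 : m k = 0 := by
    by_contra h1
    rw [if_neg h1] at hm
    exact hm rfl
  rw [if_pos h0] at hm
  have h2 := degreeOf_le_iff.1 (h j) _ (mem_support_iff.2 hm)
  rw [Finsupp.add_apply] at h2
  omega

private theorem Extend_vars_cf {F : MvPolynomial (Fin n) K} {I : Finset (Fin n)}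
    (h : F.vars ⊆ I) (k : Fin n) (s : ℕ) :
    (Extend_cf F k s).vars ⊆ I.erase k := by
  intro j hj
  rw [mem_vars_iff_mem_support] at hj
  obtain ⟨m, hm, hjm⟩ := hj
  rw [mem_support_iff, Extend_coeff_cf] at hm
  have h0 : m k = 0 := by
    by_contra h1
    rw [if_neg h1] at hm
    exact hm rfl
  rw [if_pos h0] at hm
  rw [Finsupp.mem_support_iff] at hjm
  have hjk : j ≠ k := by
    rintro rfl
    exact hjm h0
  rw [Finset.mem_erase]
  refine ⟨hjk, h ?_⟩
  rw [mem_vars_iff_mem_support]
  refine ⟨_, mem_support_iff.2 hm, ?_⟩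
  rw [Finsupp.mem_support_iff, Finsupp.add_apply]
  omega

private theorem Extend_sum_cf {F : MvPolynomial (Fin n) K} {D : ℕ} {k : Fin n}
    (h : F.degreeOf k ≤ D) :
    F = ∑ s ∈ Finset.range (D + 1), Extend_cf F k s * X k ^ s := by
  classical
  ext m
  rw [coeff_sum]
  have h1 : ∀ s ∈ Finset.range (D + 1), coeff m (Extend_cf F k s * X k ^ s) =
      if s = m k then coeff m F else 0 := by
    intro s _
    rw [X_pow_eq_monomial, coeff_mul_monomial', mul_one]
    by_cases hs : s = m k
    · subst hs
      have hle : Finsupp.single k (m k) ≤ m := by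
        rw [Finsupp.single_le_iff]
      rw [if_pos hle, if_pos rfl, Extend_coeff_cf, if_pos (by simp)]
      rw [tsub_add_cancel_of_le hle]
    · rw [if_neg hs]
      split_ifs with hle
      · rw [Finsupp.single_le_iff] at hle
        rw [Extend_coeff_cf, if_neg]
        rw [Finsupp.tsub_apply, Finsupp.single_eq_same]
        omega
      · rfl
  rw [Finset.sum_congr rfl h1, Finset.sum_ite_eq']
  split_ifs with h2
  · rfl
  · by_contra h3
    apply h2
    rw [Finset.mem_range]
    have := degreeOf_le_iff.1 h _ (mem_support_iff.2 h3)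
    omega

private theorem Extend_pderiv_cf (F : MvPolynomial (Fin n) K) (k : Fin n) (s : ℕ) :
    pderiv k (Extend_cf F k s) = 0 := by
  apply pderiv_eq_zero_of_notMem_vars
  intro hk
  have := Extend_vars_cf (F := F) (I := Finset.univ) (Finset.subset_univ _) k s hk
  simp at this

private theorem Extend_eval_sum (F : MvPolynomial (Fin n) K) (k : Fin n) (δ : ℕ)
    (P : Fin n → K) :
    eval P (∑ s ∈ Finset.range (δ + 1), Extend_cf F k s * X k ^ s) =
      ∑ s ∈ Finset.range (δ + 1), eval P (Extend_cf F k s) * P k ^ s := by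
  simp [map_sum]

private theorem Extend_eval_pderiv (F : MvPolynomial (Fin n) K) (k : Fin n) (δ : ℕ)
    (P : Fin n → K) :
    eval P (pderiv k (∑ s ∈ Finset.range (δ + 1), Extend_cf F k s * X k ^ s)) =
      ∑ s ∈ Finset.range (δ + 1), eval P (Extend_cf F k s) * (s * P k ^ (s - 1)) := by
  rw [map_sum, map_sum]
  apply Finset.sum_congr rfl
  intro s _
  rw [pderiv_mul, Extend_pderiv_cf, pderiv_pow, pderiv_X_self]
  simp

private theorem Extend_trunc (a : ℕ → K) {δ D : ℕ} (hδ : δ ≤ D)
    (b : ℕ → K) (h : ∀ s, δ < s → s ≤ D → a s = 0) :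
    ∑ s ∈ Finset.range (δ + 1), a s * b s = ∑ s ∈ Finset.range (D + 1), a s * b s := by
  apply Finset.sum_subset
  · intro s hs
    rw [Finset.mem_range] at hs ⊢
    omega
  · intro s hs hs'
    rw [Finset.mem_range] at hs hs'
    rw [h s (by omega) (by omega), zero_mul]

private theorem Extend_nondeg {F : MvPolynomial (Fin n) K} {D : ℕ} {k : Fin n}
    (h : F.degreeOf k ≤ D) {P : Fin n → K} (h0 : eval P F = 0)
    (h1 : eval P (pderiv k F) ≠ 0) :
    ∃ δ ≤ D, Nondeg [(⟨k, δ, Extend_cf F k⟩ : Rel K n)] P := by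
  classical
  have hex : ∃ s ≤ D, eval P (Extend_cf F k s) ≠ 0 := by
    by_contra hno
    push Not at hno
    apply h1
    rw [Extend_sum_cf h, Extend_eval_pderiv]
    apply Finset.sum_eq_zero
    intro s hs
    rw [Finset.mem_range] at hs
    rw [hno s (by omega), zero_mul]
  obtain ⟨s0, hs0, hs1⟩ := hex
  let δ := Nat.findGreatest (fun s => eval P (Extend_cf F k s) ≠ 0) D
  have hδ : δ ≤ D := Nat.findGreatest_le D
  have hδ1 : eval P (Extend_cf F k δ) ≠ 0 :=
    Nat.findGreatest_spec (P := fun s => eval P (Extend_cf F k s) ≠ 0) hs0 hs1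
  have hδ2 : ∀ s, δ < s → s ≤ D → eval P (Extend_cf F k s) = 0 := by
    intro s hs hsD
    by_contra hne
    exact Nat.findGreatest_is_greatest hs hsD hne
  refine ⟨δ, hδ, ?_⟩
  intro R hR
  rw [List.mem_singleton] at hR
  subst hR
  refine ⟨?_, ?_, hδ1⟩
  · unfold Rel.F
    rw [Extend_eval_sum, Extend_trunc _ hδ _ hδ2, ← Extend_eval_sum, ← Extend_sum_cf h]
    exact h0
  · unfold Rel.F
    simp only
    rw [Extend_eval_pderiv, Extend_trunc _ hδ _ hδ2, ← Extend_eval_pderiv, ← Extend_sum_cf h]
    exact h1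

/-- the iterated partial derivatives -/
private noncomputable def Extend_ds : ℕ → MvPolynomial (Fin n) K → List (MvPolynomial (Fin n) K)
  | 0, G => [G]
  | t + 1, G => G :: (List.finRange n).flatMap (fun k => Extend_ds t (pderiv k G))

private def Extend_len (n : ℕ) : ℕ → ℕ
  | 0 => 1
  | t + 1 => 1 + n * Extend_len n t

private theorem Extend_ds_length (t : ℕ) : ∀ G : MvPolynomial (Fin n) K,
    (Extend_ds t G).length = Extend_len n t := by
  induction t with
  | zero => intro G; rfl
  | succ t ih =>
    intro G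
    simp only [Extend_ds, Extend_len, List.length_cons, List.length_flatMap, ih]
    simp [add_comm]

private theorem Extend_mem_self (t : ℕ) (G : MvPolynomial (Fin n) K) : G ∈ Extend_ds t G := by
  cases t with
  | zero => simp [Extend_ds]
  | succ t => simp [Extend_ds]

private theorem Extend_support_pderiv {G : MvPolynomial (Fin n) K} {k : Fin n}
    {m : Fin n →₀ ℕ} (hm : m ∈ (pderiv k G).support) :
    m + Finsupp.single k 1 ∈ G.support := by
  rw [mem_support_iff] at hm ⊢
  intro h
  apply hm
  rw [coeff_pderiv, h, zero_mul]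

private theorem Extend_ds_deg {D : ℕ} (t : ℕ) : ∀ G : MvPolynomial (Fin n) K,
    (∀ j, G.degreeOf j ≤ D) → ∀ F ∈ Extend_ds t G, ∀ j, F.degreeOf j ≤ D := by
  induction t with
  | zero =>
    intro G hG F hF
    simp only [Extend_ds, List.mem_singleton] at hF
    subst hF
    exact hG
  | succ t ih =>
    intro G hG F hF
    simp only [Extend_ds, List.mem_cons, List.mem_flatMap, List.mem_finRange, true_and] at hF
    rcases hF with rfl | ⟨k, hF⟩
    · exact hG
    · refine ih _ ?_ F hF
      intro j
      rw [degreeOf_le_iff]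
      intro m hm
      have := degreeOf_le_iff.1 (hG j) _ (Extend_support_pderiv hm)
      rw [Finsupp.add_apply] at this
      omega

private theorem Extend_ds_vars {I : Finset (Fin n)} (t : ℕ) : ∀ G : MvPolynomial (Fin n) K,
    G.vars ⊆ I → ∀ F ∈ Extend_ds t G, F.vars ⊆ I := by
  induction t with
  | zero =>
    intro G hG F hF
    simp only [Extend_ds, List.mem_singleton] at hF
    subst hF
    exact hG
  | succ t ih =>
    intro G hG F hF
    simp only [Extend_ds, List.mem_cons, List.mem_flatMap, List.mem_finRange, true_and] at hF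
    rcases hF with rfl | ⟨k, hF⟩
    · exact hG
    · refine ih _ ?_ F hF
      intro j hj
      apply hG
      rw [mem_vars_iff_mem_support] at hj ⊢
      obtain ⟨m, hm, hjm⟩ := hj
      refine ⟨_, Extend_support_pderiv hm, ?_⟩
      rw [Finsupp.mem_support_iff] at hjm ⊢
      rw [Finsupp.add_apply]
      omega

private theorem Extend_ds_height {D : ℕ} (h : K → ℝ) (c : ℝ) (hc : 0 ≤ c)
    (hq : ∀ (a : K) (q : ℕ), q ≤ D → h ((q : K) * a) ≤ h a + c) (t : ℕ) :
    ∀ (G : MvPolynomial (Fin n) K) (B : ℝ), h 0 ≤ B → (∀ j, G.degreeOf j ≤ D) →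
      (∀ m, h (coeff m G) ≤ B) → ∀ F ∈ Extend_ds t G, ∀ m, h (coeff m F) ≤ B + t * c := by
  induction t with
  | zero =>
    intro G B _ _ hG F hF m
    simp only [Extend_ds, List.mem_singleton] at hF
    subst hF
    have := hG m
    simpa using this
  | succ t ih =>
    intro G B h0 hD hG F hF m
    simp only [Extend_ds, List.mem_cons, List.mem_flatMap, List.mem_finRange, true_and] at hF
    have ht : (0 : ℝ) ≤ (t : ℝ) * c := mul_nonneg (Nat.cast_nonneg t) hc
    rcases hF with rfl | ⟨k, hF⟩
    · have := hG m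
      push_cast
      linarith
    · have hD' : ∀ j, (pderiv k G).degreeOf j ≤ D :=
        Extend_ds_deg 1 G hD _ (by
          simp only [Extend_ds, List.mem_cons, List.mem_flatMap, List.mem_finRange, true_and]
          right
          exact ⟨k, by simp⟩)
      have := ih (pderiv k G) (B + c) (by linarith) hD' (by
        intro m'
        rw [coeff_pderiv]
        by_cases hz : coeff (m' + Finsupp.single k 1) G = 0
        · rw [hz, zero_mul]
          linarith
        · have h2 := degreeOf_le_iff.1 (hD k) _ (mem_support_iff.2 hz)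
          rw [Finsupp.add_apply, Finsupp.single_eq_same] at h2
          have h3 := hq (coeff (m' + Finsupp.single k 1) G) (m' k + 1) h2
          have h4 := hG (m' + Finsupp.single k 1)
          rw [mul_comm]
          push_cast at h3
          linarith) F hF m
      push_cast
      linarith

private theorem Extend_const [CharZero K] {G : MvPolynomial (Fin n) K}
    (h : ∀ k, pderiv k G = 0) : G = C (coeff 0 G) := by
  classical
  ext m
  rw [coeff_C]
  split_ifs with h0
  · rw [h0]
  · by_contra hne
    have : ∃ k, m k ≠ 0 := by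
      by_contra hno
      push Not at hno
      apply h0
      ext k
      simp [hno k]
    obtain ⟨k, hk⟩ := this
    have h1 := congrArg (coeff (m - Finsupp.single k 1)) (h k)
    rw [coeff_pderiv, tsub_add_cancel_of_le (by rw [Finsupp.single_le_iff]; omega)] at h1
    rw [coeff_zero, mul_eq_zero] at h1
    rcases h1 with h1 | h1
    · exact hne h1
    · exact Nat.cast_add_one_ne_zero _ h1

private theorem Extend_claim [CharZero K] (P : Fin n → K) (t : ℕ) :
    ∀ G : MvPolynomial (Fin n) K, G ≠ 0 →
      (∀ m ∈ G.support, ∑ j, m j ≤ t) → eval P G = 0 →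
      ∃ F ∈ Extend_ds t G, eval P F = 0 ∧ ∃ k, eval P (pderiv k F) ≠ 0 := by
  induction t with
  | zero =>
    intro G hG ht h0
    exfalso
    have h1 : ∀ k, pderiv k G = 0 := by
      intro k
      ext m
      rw [coeff_pderiv, coeff_zero]
      by_contra hne
      have h2 := ht _ (mem_support_iff.2 (left_ne_zero_of_mul hne))
      have h3 : (m + Finsupp.single k 1 : Fin n →₀ ℕ) k ≤
          ∑ j, (m + Finsupp.single k 1 : Fin n →₀ ℕ) j :=
        Finset.single_le_sum (f := fun j => (m + Finsupp.single k 1 : Fin n →₀ ℕ) j)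
          (fun _ _ => Nat.zero_le _) (Finset.mem_univ k)
      rw [Finsupp.add_apply, Finsupp.single_eq_same] at h3
      omega
    have h2 := Extend_const h1
    rw [h2, eval_C] at h0
    rw [h0, C_0] at h2
    exact hG h2
  | succ t ih =>
    intro G hG ht h0
    by_cases h1 : ∃ k, eval P (pderiv k G) ≠ 0
    · exact ⟨G, Extend_mem_self _ G, h0, h1⟩
    · push Not at h1
      have h2 : ∃ k, pderiv k G ≠ 0 := by
        by_contra hno
        push Not at hno
        have h3 := Extend_const hno
        rw [h3, eval_C] at h0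
        rw [h0, C_0] at h3
        exact hG h3
      obtain ⟨k, hk⟩ := h2
      obtain ⟨F, hF, h4⟩ := ih (pderiv k G) hk (by
        intro m hm
        have h5 := ht _ (Extend_support_pderiv hm)
        simp only [Finsupp.add_apply, Finset.sum_add_distrib] at h5
        have h6 : (Finsupp.single k 1 : Fin n →₀ ℕ) k ≤ ∑ j, (Finsupp.single k 1 : Fin n →₀ ℕ) j :=
          Finset.single_le_sum (f := fun j => (Finsupp.single k 1 : Fin n →₀ ℕ) j)
            (fun _ _ => Nat.zero_le _) (Finset.mem_univ k)
        rw [Finsupp.single_eq_same] at h6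
        omega) (h1 k)
      refine ⟨F, ?_, h4⟩
      simp only [Extend_ds, List.mem_cons, List.mem_flatMap, List.mem_finRange, true_and]
      exact Or.inr ⟨k, hF⟩

end ExtendAux

/-- A polynomial relation `G = 0` between the variables in `I` is replaced by boundedly many
relations, one of which is not degenerate at any given zero of `G`. -/
theorem extend (n D : ℕ) : ∃ N : ℕ, ∀ (K : Type u) [Field K] [CharZero K] (I : Finset (Fin n))
    (G : MvPolynomial (Fin n) K), G ≠ 0 → G.vars ⊆ I → (∀ j, G.degreeOf j ≤ D) →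
    ∃ T : List (Rel K n), T.length ≤ N ∧
      (∀ R ∈ T, R.k ∈ I ∧ (∀ s, (R.f s).vars ⊆ I.erase R.k) ∧ DegLE D [R]) ∧
      (∀ P, eval P G = 0 → ∃ R ∈ T, Nondeg [R] P) ∧
      (∀ (h : K → ℝ) (B c : ℝ), h 0 ≤ B → 0 ≤ c →
        (∀ (a : K) (q : ℕ), q ≤ D → h ((q : K) * a) ≤ h a + c) → (∀ m, h (coeff m G) ≤ B) →
        ∀ R ∈ T, ∀ s m, h (coeff m (R.f s)) ≤ B + (n * D + 1) * c) := by
  refine ⟨Extend_len n (n * D) * (n * (D + 1)), ?_⟩
  intro K _ _ I G hG0 hGI hGD
  classical
  let T : List (Rel K n) := (Extend_ds (n * D) G).flatMap (fun F =>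
    I.toList.flatMap (fun k => (List.range (D + 1)).map (fun δ =>
      (⟨k, δ, Extend_cf F k⟩ : Rel K n))))
  have hmem : ∀ R : Rel K n, R ∈ T ↔ ∃ F ∈ Extend_ds (n * D) G, ∃ k ∈ I, ∃ δ ≤ D,
      (⟨k, δ, Extend_cf F k⟩ : Rel K n) = R := by
    intro R
    simp only [T, List.mem_flatMap, List.mem_map, Finset.mem_toList, List.mem_range,
      Nat.lt_succ_iff]
  refine ⟨T, ?_, ?_, ?_, ?_⟩
  · have h1 : T.length = Extend_len n (n * D) * (I.card * (D + 1)) := by
      simp only [T, List.length_flatMap, List.length_map, List.length_range, List.map_const',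
        List.sum_replicate, smul_eq_mul, Finset.length_toList, Extend_ds_length]
    rw [h1]
    have h2 : I.card ≤ n := by
      have := Finset.card_le_univ I
      rwa [Fintype.card_fin] at this
    gcongr
  · intro R hR
    obtain ⟨F, hF, k, hk, δ, hδ, rfl⟩ := (hmem R).1 hR
    refine ⟨hk, fun s => Extend_vars_cf (Extend_ds_vars _ G hGI F hF) k s, ?_⟩
    intro R hR
    rw [List.mem_singleton] at hR
    subst hR
    exact ⟨hδ, fun s j => Extend_degreeOf_cf (Extend_ds_deg _ G hGD F hF) k s j⟩
  · intro P hP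
    obtain ⟨F, hF, h0, k, hk⟩ := Extend_claim P (n * D) G hG0 (by
      intro m hm
      calc ∑ j, m j ≤ ∑ _j : Fin n, D :=
            Finset.sum_le_sum (fun j _ => degreeOf_le_iff.1 (hGD j) m hm)
        _ = n * D := by simp) hP
    obtain ⟨δ, hδ, hN⟩ := Extend_nondeg (Extend_ds_deg _ G hGD F hF k) h0 hk
    refine ⟨_, (hmem _).2 ⟨F, hF, k, ?_, δ, hδ, rfl⟩, hN⟩
    by_contra hkI
    apply hk
    rw [pderiv_eq_zero_of_notMem_vars (fun h => hkI (Extend_ds_vars _ G hGI F hF h)), map_zero]
  · intro h B c h0 hc hq hB R hR s m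
    obtain ⟨F, hF, k, hk, δ, hδ, rfl⟩ := (hmem R).1 hR
    simp only
    rw [Extend_coeff_cf]
    have hnn : (0 : ℝ) ≤ ((n : ℝ) * D + 1) * c := by positivity
    split_ifs
    · have := Extend_ds_height h c hc hq (n * D) G B h0 hGD hB F hF (m + Finsupp.single k s)
      push_cast at this
      linarith
    · linarith

end Pool.Agent.MVD
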