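import Pool.Agent.MVD.Red
import Pool.Agent.MVD.GermInj

/-!
# Module GermConst (size 4)

Let `'` be `PowerSeries.derivative`. Chain rule: `(aeval φ g)' = ∑_j aeval φ (pderiv j g) * (φ j)'` (induction on `g`,
`MvPolynomial.induction_on`; the derivative kills the constants of `K`). Put `η j = (φ j)'`. For `R ∈ l`:
`0 = (aeval φ R.F)' = ∑_j aeval φ (pderiv j R.F) η j`. By `red_tangent` for `w = om K p s`
`∑_j aeval φ (red l w j) η j = (∏_R aeval φ (pderiv R.k R.F)) * ∑_j aeval φ (w j) η j`. The left side is `0`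
(hypothesis `h` for `j ∈ free`, `red_support` for the others). Each factor `aeval φ (pderiv R.k R.F)` is `≠ 0`: its constant
coefficient is `C (eval P (pderiv R.k R.F)) ≠ 0` (`germ_coeff`). `PowerSeries (MvPolynomial ..)` is a domain. So
`(*) ∑_j (p_j - s_j) (∏_{i ≠ j} φ i) η j = 0`.
Let `f = ∏ φ j ^ p j`, `g = ∏ φ j ^ s j`. Then `(f' g - f g') * ∏ φ i = f g ∑_j (p_j - s_j) (∏_{i≠j} φ i) η j = 0` (product rule;
`f' * φ-product = f * ∑ p_j (∏_{i≠j} φ i) η j`: `Derivation.leibniz_prod`/induction; beware of `p_j = 0`), and `∏ φ i ≠ 0`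
(constant coefficient `C (∏ P i) ≠ 0`), so `f' g = f g'`. Put `c = C (C (∏ P ^ p / ∏ P ^ s))`, `h = f - c * g`: `h' g = h g'`,
constant coefficient of `h` is `0`. If `h ≠ 0`: let `X ^ m` be the exact power of `X` dividing `h`, `m ≥ 1`; the coefficient of
`X ^ (m-1)` in `h' g` is `m * coeff m h * g(0) ≠ 0` (characteristic 0, domain, `g(0) = C (∏ P ^ s) ≠ 0`) and in `h g'` it is
`0`: contradiction. (Or: `g` is a unit, `(f g⁻¹)' = 0`, `PowerSeries.derivative.ext`.)
-/

namespace Pool.Agent.MVD

open MvPolynomial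

section

variable {K : Type*} [Field K] {n : ℕ}

private theorem gc_chain (φ : Fin n → PowerSeries (MvPolynomial (Fin n) K))
    (g : MvPolynomial (Fin n) K) :
    PowerSeries.derivative (MvPolynomial (Fin n) K) (aeval φ g) =
      ∑ j, aeval φ (pderiv j g) *
        PowerSeries.derivative (MvPolynomial (Fin n) K) (φ j) := by
  induction g using MvPolynomial.induction_on with
  | C a =>
    have h1 : aeval φ (C a : MvPolynomial (Fin n) K) =
        PowerSeries.C (C a : MvPolynomial (Fin n) K) := by
      rw [aeval_C, PowerSeries.algebraMap_apply]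
      rfl
    rw [h1, PowerSeries.derivative_C]
    symm
    apply Finset.sum_eq_zero
    intro j _
    rw [pderiv_C, map_zero, zero_mul]
  | add p q hp hq =>
    rw [map_add, map_add, hp, hq, ← Finset.sum_add_distrib]
    refine Finset.sum_congr rfl fun j _ => ?_
    rw [map_add, map_add, add_mul]
  | mul_X p i hp =>
    have h1 : ∀ j, aeval φ (pderiv j (p * X i)) *
        PowerSeries.derivative (MvPolynomial (Fin n) K) (φ j) =
        φ i * (aeval φ (pderiv j p) * PowerSeries.derivative (MvPolynomial (Fin n) K) (φ j)) +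
          aeval φ p * (aeval φ (pderiv j (X i : MvPolynomial (Fin n) K)) *
            PowerSeries.derivative (MvPolynomial (Fin n) K) (φ j)) := by
      intro j
      rw [Derivation.leibniz, smul_eq_mul, smul_eq_mul, map_add, map_mul, map_mul, aeval_X]
      ring
    rw [Finset.sum_congr rfl (fun j _ => h1 j), Finset.sum_add_distrib, ← Finset.mul_sum,
      ← Finset.mul_sum, ← hp, map_mul, aeval_X, Derivation.leibniz, smul_eq_mul, smul_eq_mul]
    have h2 : ∑ j, aeval φ (pderiv j (X i : MvPolynomial (Fin n) K)) *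
        PowerSeries.derivative (MvPolynomial (Fin n) K) (φ j) =
        PowerSeries.derivative (MvPolynomial (Fin n) K) (φ i) := by
      rw [Finset.sum_eq_single i]
      · rw [pderiv_X_self, map_one, one_mul]
      · intro j _ hj
        rw [pderiv_X_of_ne hj.symm, map_zero, zero_mul]
      · intro hi
        exact absurd (Finset.mem_univ i) hi
    rw [h2]
    ring

private theorem gc_mono (φ : Fin n → PowerSeries (MvPolynomial (Fin n) K)) (e : Fin n → ℕ)
    (t : Finset (Fin n)) :
    PowerSeries.derivative (MvPolynomial (Fin n) K) (∏ j ∈ t, φ j ^ e j) * ∏ i, φ i =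
      (∏ j ∈ t, φ j ^ e j) * ∑ j ∈ t, (e j : PowerSeries (MvPolynomial (Fin n) K)) *
        ((∏ i ∈ Finset.univ.erase j, φ i) *
          PowerSeries.derivative (MvPolynomial (Fin n) K) (φ j)) := by
  induction t using Finset.induction_on with
  | empty => simp
  | insert a t ha ih =>
    rw [Finset.prod_insert ha, Finset.sum_insert ha, Derivation.leibniz, smul_eq_mul, smul_eq_mul,
      PowerSeries.derivative_pow]
    have h1 : ∏ i, φ i = φ a * ∏ i ∈ Finset.univ.erase a, φ i :=
      (Finset.mul_prod_erase Finset.univ φ (Finset.mem_univ a)).symm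
    have h2 : (e a : PowerSeries (MvPolynomial (Fin n) K)) * φ a ^ (e a - 1) * φ a =
        (e a : PowerSeries (MvPolynomial (Fin n) K)) * φ a ^ e a := by
      rcases Nat.eq_zero_or_pos (e a) with h0 | h0
      · rw [h0]; simp
      · rw [mul_assoc, ← pow_succ, Nat.sub_add_cancel h0]
    calc (φ a ^ e a * PowerSeries.derivative (MvPolynomial (Fin n) K) (∏ j ∈ t, φ j ^ e j) +
          (∏ j ∈ t, φ j ^ e j) * ((e a : PowerSeries (MvPolynomial (Fin n) K)) *
            φ a ^ (e a - 1) * PowerSeries.derivative (MvPolynomial (Fin n) K) (φ a))) * ∏ i, φ i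
        = φ a ^ e a * (PowerSeries.derivative (MvPolynomial (Fin n) K) (∏ j ∈ t, φ j ^ e j) *
            ∏ i, φ i) + (∏ j ∈ t, φ j ^ e j) * ((e a : PowerSeries (MvPolynomial (Fin n) K)) *
            φ a ^ (e a - 1) * PowerSeries.derivative (MvPolynomial (Fin n) K) (φ a)) *
              ∏ i, φ i := by ring
      _ = φ a ^ e a * ((∏ j ∈ t, φ j ^ e j) *
            ∑ j ∈ t, (e j : PowerSeries (MvPolynomial (Fin n) K)) *
            ((∏ i ∈ Finset.univ.erase j, φ i) *
              PowerSeries.derivative (MvPolynomial (Fin n) K) (φ j))) +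
          (∏ j ∈ t, φ j ^ e j) * ((e a : PowerSeries (MvPolynomial (Fin n) K)) *
            φ a ^ (e a - 1) * φ a) * (PowerSeries.derivative (MvPolynomial (Fin n) K) (φ a) *
              ∏ i ∈ Finset.univ.erase a, φ i) := by
          rw [ih, h1]; ring
      _ = _ := by rw [h2]; ring

end

/-- If the reduced covector vanishes on the germ then the monomial quotient is constant on it. -/
theorem germ_const {K : Type*} [Field K] [CharZero K] {n : ℕ} {l : List (Rel K n)}
    {P : Fin n → K} (hT : Tower Finset.univ l) (hN : Nondeg l P) (h0 : ∀ j, P j ≠ 0)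
    {φ : Fin n → PowerSeries (MvPolynomial (Fin n) K)} (hφ : IsGerm Finset.univ l P φ)
    (p s : Fin n → ℕ) (h : ∀ j ∈ free Finset.univ l, aeval φ (red l (om K p s) j) = 0) :
    ∏ j, φ j ^ p j =
      PowerSeries.C (C ((∏ j, P j ^ p j) / ∏ j, P j ^ s j)) * ∏ j, φ j ^ s j := by
  classical
  let η : Fin n → PowerSeries (MvPolynomial (Fin n) K) := fun j =>
    PowerSeries.derivative (MvPolynomial (Fin n) K) (φ j)
  have hη : ∀ R ∈ l, ∑ j, aeval φ (pderiv j R.F) * η j = 0 := by
    intro R hR
    have h1 := gc_chain φ R.F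
    rw [hφ.rel R hR, map_zero] at h1
    exact h1.symm
  have ht := red_tangent φ η l hη (om K p s)
  have hl : ∑ j, aeval φ (red l (om K p s) j) * η j = 0 := by
    apply Finset.sum_eq_zero
    intro j _
    by_cases hj : j ∈ free Finset.univ l
    · rw [h j hj, zero_mul]
    · rw [red_support hT _ hj, map_zero, zero_mul]
  rw [hl] at ht
  have hprod : (l.map (fun R => aeval φ (pderiv R.k R.F))).prod ≠ 0 := by
    apply List.prod_ne_zero
    intro hmem
    rw [List.mem_map] at hmem
    obtain ⟨R, hR, hR0⟩ := hmem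
    have h1 := germ_coeff hφ (pderiv R.k R.F)
    rw [hR0, map_zero] at h1
    exact (hN R hR).2.1 ((MvPolynomial.C_eq_zero).mp h1.symm)
  have hS : ∑ j, aeval φ (om K p s j) * η j = 0 := by
    rcases mul_eq_zero.mp ht.symm with h1 | h1
    · exact absurd h1 hprod
    · exact h1
  have hom : ∀ j, aeval φ (om K p s j) =
      ((p j : PowerSeries (MvPolynomial (Fin n) K)) - (s j : PowerSeries (MvPolynomial (Fin n) K)))
        * ∏ i ∈ Finset.univ.erase j, φ i := by
    intro j
    unfold om
    rw [map_mul, map_prod, aeval_C, map_sub, map_natCast, map_natCast]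
    simp only [aeval_X]
  have hPhi0 : ∏ i, φ i ≠ 0 := by
    rw [Finset.prod_ne_zero_iff]
    intro i _ h0'
    have h1 := hφ.const i
    rw [h0', map_zero] at h1
    exact h0 i ((MvPolynomial.C_eq_zero).mp h1.symm)
  have hf := gc_mono φ p Finset.univ
  have hg := gc_mono φ s Finset.univ
  set f := ∏ j, φ j ^ p j with hfdef
  set g := ∏ j, φ j ^ s j with hgdef
  set D := PowerSeries.derivative (MvPolynomial (Fin n) K) with hD
  have hSS : (∑ j, (p j : PowerSeries (MvPolynomial (Fin n) K)) *
        ((∏ i ∈ Finset.univ.erase j, φ i) * D (φ j))) -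
      ∑ j, (s j : PowerSeries (MvPolynomial (Fin n) K)) *
        ((∏ i ∈ Finset.univ.erase j, φ i) * D (φ j)) = 0 := by
    rw [← Finset.sum_sub_distrib, ← hS]
    refine Finset.sum_congr rfl fun j _ => ?_
    rw [hom]
    change _ = _ * D (φ j)
    ring
  have hfg : D f * g = f * D g := by
    have h1 : (D f * g - f * D g) * ∏ i, φ i = 0 := by
      calc (D f * g - f * D g) * ∏ i, φ i
          = (D f * ∏ i, φ i) * g - f * (D g * ∏ i, φ i) := by ring
        _ = f * g * ((∑ j, (p j : PowerSeries (MvPolynomial (Fin n) K)) *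
              ((∏ i ∈ Finset.univ.erase j, φ i) * D (φ j))) -
            ∑ j, (s j : PowerSeries (MvPolynomial (Fin n) K)) *
              ((∏ i ∈ Finset.univ.erase j, φ i) * D (φ j))) := by rw [hf, hg]; ring
        _ = 0 := by rw [hSS, mul_zero]
    rcases mul_eq_zero.mp h1 with h2 | h2
    · exact sub_eq_zero.mp h2
    · exact absurd h2 hPhi0
  have hcf : PowerSeries.constantCoeff f = C (∏ j, P j ^ p j) := by
    rw [hfdef, map_prod, map_prod]
    refine Finset.prod_congr rfl fun j _ => ?_
    rw [map_pow, map_pow, hφ.const]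
  have hcg : PowerSeries.constantCoeff g = C (∏ j, P j ^ s j) := by
    rw [hgdef, map_prod, map_prod]
    refine Finset.prod_congr rfl fun j _ => ?_
    rw [map_pow, map_pow, hφ.const]
  have hPs : ∏ j, P j ^ s j ≠ 0 := by
    rw [Finset.prod_ne_zero_iff]
    intro j _
    exact pow_ne_zero _ (h0 j)
  have hug : IsUnit g := by
    rw [PowerSeries.isUnit_iff_constantCoeff, hcg]
    exact (IsUnit.mk0 _ hPs).map _
  obtain ⟨v, hv⟩ := hug.exists_right_inv
  have hDv : g * D v = - (v * D g) := by
    have h1 : D (g * v) = 0 := by rw [hv]; exact D.map_one_eq_zero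
    rw [Derivation.leibniz, smul_eq_mul, smul_eq_mul] at h1
    linear_combination h1
  have hDfv : D (f * v) = 0 := by
    rw [Derivation.leibniz, smul_eq_mul, smul_eq_mul]
    have h1 : g * (g * (f * D v + v * D f)) = 0 := by
      calc g * (g * (f * D v + v * D f)) = g * f * (g * D v) + g * v * (D f * g) := by ring
        _ = 0 := by rw [hDv, hfg]; ring
    rcases mul_eq_zero.mp h1 with h2 | h2
    · exact absurd h2 hug.ne_zero
    · rcases mul_eq_zero.mp h2 with h3 | h3
      · exact absurd h3 hug.ne_zero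
      · exact h3
  have hcv : PowerSeries.constantCoeff v = C (∏ j, P j ^ s j)⁻¹ := by
    have h1 := congrArg PowerSeries.constantCoeff hv
    rw [map_mul, hcg, map_one] at h1
    have h2 : (C (∏ j, P j ^ s j)⁻¹ : MvPolynomial (Fin n) K) * C (∏ j, P j ^ s j) = 1 := by
      rw [← C_mul, inv_mul_cancel₀ hPs, C_1]
    calc PowerSeries.constantCoeff v
        = (C (∏ j, P j ^ s j)⁻¹ * C (∏ j, P j ^ s j)) * PowerSeries.constantCoeff v := by
          rw [h2, one_mul]
      _ = _ := by rw [mul_assoc, h1, mul_one]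
  have hfv : f * v = PowerSeries.C (C ((∏ j, P j ^ p j) / ∏ j, P j ^ s j)) := by
    refine PowerSeries.derivative.ext ?_ ?_
    · rw [PowerSeries.derivative_C]; exact hDfv
    · rw [map_mul, hcf, hcv, PowerSeries.constantCoeff_C, ← C_mul, div_eq_mul_inv]
  calc f = f * v * g := by rw [mul_assoc, mul_comm v g, hv, mul_one]
    _ = _ := by rw [hfv]

end Pool.Agent.MVD
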