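import Pool.Agent.MVD.Germ
import Pool.Agent.MVD.GermConst
import Pool.Agent.MVD.CritRel
import Pool.Agent.MVD.ConstCount
import Pool.Agent.MVD.Extend

/-!
# Module CritVal (size 5)

Induction on `r` (for all `D`). Let `I = free univ l`, `card I = r` (`l.length = n - r ≤ n`), `DW` from `red_deg n D`, `D2` from `crit_rel n D DW`,
`N1` from `extend n D2`, and `N0` from the induction hypothesis for `r - 1` and `max D D2`. `N = (D+1)^n + n * N1 * N0` (for `r = 0`: `(D+1)^n`).
Choose germs `φ P` for `P ∈ S` (`exists_germ`). Let `W j = red l (om K p s) j`; `eval P (W j) = 0` for all `j ∈ I` by hypothesis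
(`redE_eq`). `S0 = {P ∈ S : aeval (φ P) (W j) = 0 for all j ∈ I}`: `germ_const` and `const_count`: at most `(D+1)^n` values. For `j ∈ I` (so `r ≥ 1`) let
`S_j = {P ∈ S : aeval (φ P) (W j) ≠ 0}`; `crit_rel` gives `G_j ≠ 0`, `eval P G_j = 0` for `P ∈ S_j`; `extend` with `I` gives the
list `T_j`; for `R ∈ T_j` let `S_(j,R) = {P ∈ S_j : Nondeg [R] P}`. For these `P`: `Nondeg (l ++ [R]) P`; `Tower univ (l ++ [R])`, with free set
`I.erase R.k`, of cardinality `r - 1` (`tower_append`); `DegLE (max D D2) (l ++ [R])`; and criticality: for `j' ∈ I.erase R.k`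
`redE P (l ++ [R]) w j' = (pderiv R.k R.F)(P) * redE P l w j' - redE P l w R.k * (pderiv j' R.F)(P) = 0` (`redE_append`, `j', R.k ∈ I`).
So the induction hypothesis bounds the number of values on `S_(j,R)` by `N0`. Union bound (`Set.ncard_union_le`, `Set.image_union`, or
`Finset.card_biUnion_le` after passing to Finset images).
-/

namespace Pool.Agent.MVD

open MvPolynomial

universe u

private theorem critval_zero {K : Type u} [Field K] [CharZero K] {n D : ℕ}
    {l : List (Rel K n)} (hT : Tower Finset.univ l) (hD : DegLE D l) (p s : Fin n → ℕ)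
    (S : Finset (Fin n → K)) (φ : (Fin n → K) → Fin n → PowerSeries (MvPolynomial (Fin n) K))
    (hS : ∀ P ∈ S, Nondeg l P ∧ ∀ j, P j ≠ 0)
    (hφ : ∀ P ∈ S, IsGerm Finset.univ l P (φ P))
    (h : ∀ P ∈ S, ∀ j ∈ free Finset.univ l, aeval (φ P) (red l (om K p s) j) = 0) :
    Set.ncard ((fun P : Fin n → K => (∏ j, P j ^ p j) / ∏ j, P j ^ s j) ''
        (S : Set (Fin n → K))) ≤ (D + 1) ^ n :=
  const_count D l hT hD p s S φ (fun P hP => ⟨(hS P hP).1, hφ P hP⟩) (fun P hP => (hS P hP).2)
    (fun P hP => germ_const hT (hS P hP).1 (hS P hP).2 (hφ P hP) p s (h P hP))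

private theorem critval_germ {K : Type u} [Field K] {n : ℕ}
    {l : List (Rel K n)} (hT : Tower Finset.univ l) (S : Finset (Fin n → K))
    (hS : ∀ P ∈ S, Nondeg l P) :
    ∃ φ : (Fin n → K) → Fin n → PowerSeries (MvPolynomial (Fin n) K),
      ∀ P ∈ S, IsGerm Finset.univ l P (φ P) := by
  classical
  have h1 : ∀ P : Fin n → K, ∃ φ : Fin n → PowerSeries (MvPolynomial (Fin n) K),
      P ∈ S → IsGerm Finset.univ l P φ := by
    intro P
    by_cases hP : P ∈ S
    · obtain ⟨φ, hφ⟩ := exists_germ l Finset.univ P hT (hS P hP)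
      exact ⟨φ, fun _ => hφ⟩
    · exact ⟨fun _ => 0, fun h => absurd h hP⟩
  choose φ hφ using h1
  exact ⟨φ, fun P hP => hφ P hP⟩

/-- The number of the critical values of a monomial quotient on a variety of bounded degree is
bounded, independently of the exponents. -/
theorem critval (n r D : ℕ) : ∃ N : ℕ, ∀ (K : Type u) [Field K] [CharZero K]
    (l : List (Rel K n)), Tower Finset.univ l → (free Finset.univ l).card = r → DegLE D l →
    ∀ (p s : Fin n → ℕ) (S : Finset (Fin n → K)),
      (∀ P ∈ S, Nondeg l P ∧ (∀ j, P j ≠ 0) ∧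
        ∀ j ∈ free Finset.univ l, redE P l (fun i => eval P (om K p s i)) j = 0) →
      Set.ncard ((fun P : Fin n → K => (∏ j, P j ^ p j) / ∏ j, P j ^ s j) ''
        (S : Set (Fin n → K))) ≤ N := by
  classical
  induction r generalizing D with
  | zero =>
    refine ⟨(D + 1) ^ n, ?_⟩
    intro K _ _ l hT hr hD p s S hS
    obtain ⟨φ, hφ⟩ := critval_germ hT S fun P hP => (hS P hP).1
    refine critval_zero hT hD p s S φ (fun P hP => ⟨(hS P hP).1, (hS P hP).2.1⟩) hφ ?_
    intro P hP j hj
    rw [Finset.card_eq_zero] at hr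
    rw [hr] at hj
    exact absurd hj (Finset.notMem_empty j)
  | succ r ih =>
    obtain ⟨DW, hDW⟩ := red_deg.{u} n D
    obtain ⟨D2, hD2⟩ := crit_rel.{u} n D DW
    obtain ⟨N1, hN1⟩ := extend.{u} n D2
    obtain ⟨N0, hN0⟩ := ih (max D D2)
    refine ⟨(D + 1) ^ n + n * (N1 * N0), ?_⟩
    intro K _ _ l hT hr hD p s S hS
    obtain ⟨φ, hφ⟩ := critval_germ hT S fun P hP => (hS P hP).1
    have hlen : l.length ≤ n := by
      have h1 := tower_card hT
      rw [Finset.card_univ, Fintype.card_fin] at h1
      omega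
    -- the relations
    have hrel : ∀ j : Fin n, ∃ T : List (Rel K n), T.length ≤ N1 ∧
        (∀ R ∈ T, R.k ∈ free Finset.univ l ∧
          (∀ s, (R.f s).vars ⊆ (free Finset.univ l).erase R.k) ∧ DegLE D2 [R]) ∧
        ∀ P ∈ S, j ∈ free Finset.univ l → aeval (φ P) (red l (om K p s) j) ≠ 0 →
          ∃ R ∈ T, Nondeg [R] P := by
      intro j
      obtain ⟨G, hG0, hGv, hGd, hG⟩ := hD2 K l hT hD (red l (om K p s) j)
        (hDW K l p s hlen hD j) S φ (fun P hP => ⟨(hS P hP).1, hφ P hP⟩)
      obtain ⟨T, hT1, hT2, hT3, -⟩ := hN1 K (free Finset.univ l) G hG0 hGv hGd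
      refine ⟨T, hT1, hT2, ?_⟩
      intro P hP hj hne
      refine hT3 P (hG P hP ?_ hne)
      rw [redE_eq]
      exact (hS P hP).2.2 j hj
    choose T hT1 hT2 hT3 using hrel
    set v : (Fin n → K) → K := fun P => (∏ j, P j ^ p j) / ∏ j, P j ^ s j with hv
    have hcard : ∀ S' : Finset (Fin n → K), Set.ncard (v '' (S' : Set (Fin n → K))) =
        (S'.image v).card := by
      intro S'
      rw [← Finset.coe_image, Set.ncard_coe_finset]
    have hb0 : ((S.filter fun P => ∀ j ∈ free Finset.univ l,
        aeval (φ P) (red l (om K p s) j) = 0).image v).card ≤ (D + 1) ^ n := by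
      rw [← hcard]
      refine critval_zero hT hD p s _ φ ?_ ?_ ?_
      · intro P hP
        have h1 := Finset.mem_filter.1 hP
        exact ⟨(hS P h1.1).1, (hS P h1.1).2.1⟩
      · intro P hP
        exact hφ P (Finset.mem_filter.1 hP).1
      · intro P hP
        exact (Finset.mem_filter.1 hP).2
    have hb1 : ∀ j : Fin n, ∀ R ∈ T j, ((S.filter fun P => Nondeg [R] P).image v).card ≤ N0 := by
      intro j R hR
      obtain ⟨hk, hvars, hdeg⟩ := hT2 j R hR
      obtain ⟨hT', hfree⟩ := tower_append hT hk hvars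
      rw [← hcard]
      refine hN0 K (l ++ [R]) hT' ?_ ?_ p s _ ?_
      · rw [hfree, Finset.card_erase_of_mem hk, hr]
        omega
      · intro R' hR'
        rcases List.mem_append.1 hR' with h1 | h1
        · exact ⟨(hD R' h1).1.trans (le_max_left _ _),
            fun a b => ((hD R' h1).2 a b).trans (le_max_left _ _)⟩
        · exact ⟨(hdeg R' h1).1.trans (le_max_right _ _),
            fun a b => ((hdeg R' h1).2 a b).trans (le_max_right _ _)⟩
      · intro P hP
        have h1 := Finset.mem_filter.1 hP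
        obtain ⟨hnd, hne, hcr⟩ := hS P h1.1
        refine ⟨?_, hne, ?_⟩
        · intro R' hR'
          rcases List.mem_append.1 hR' with h2 | h2
          · exact hnd R' h2
          · exact h1.2 R' h2
        · intro j' hj'
          rw [hfree] at hj'
          rw [redE_append]
          have h3 := hcr j' (Finset.mem_of_mem_erase hj')
          have h4 := hcr R.k hk
          simp only [redE]
          rw [h3, h4]
          ring
    rw [hcard]
    have hsub : S.image v ⊆ ((S.filter fun P => ∀ j ∈ free Finset.univ l,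
        aeval (φ P) (red l (om K p s) j) = 0).image v) ∪
        Finset.univ.biUnion fun j : Fin n => (T j).toFinset.biUnion fun R =>
          (S.filter fun P => Nondeg [R] P).image v := by
      intro x hx
      obtain ⟨P, hP, rfl⟩ := Finset.mem_image.1 hx
      by_cases h0 : ∀ j ∈ free Finset.univ l, aeval (φ P) (red l (om K p s) j) = 0
      · exact Finset.mem_union_left _ (Finset.mem_image_of_mem _ (Finset.mem_filter.2 ⟨hP, h0⟩))
      · push Not at h0
        obtain ⟨j, hj, hne⟩ := h0
        obtain ⟨R, hR, hnd⟩ := hT3 j P hP hj hne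
        refine Finset.mem_union_right _ ?_
        refine Finset.mem_biUnion.2 ⟨j, Finset.mem_univ _, ?_⟩
        refine Finset.mem_biUnion.2 ⟨R, List.mem_toFinset.2 hR, ?_⟩
        exact Finset.mem_image_of_mem _ (Finset.mem_filter.2 ⟨hP, hnd⟩)
    refine (Finset.card_le_card hsub).trans ?_
    refine (Finset.card_union_le _ _).trans (Nat.add_le_add hb0 ?_)
    refine (Finset.card_biUnion_le_card_mul _ _ (N1 * N0) ?_).trans ?_
    · intro j _
      refine (Finset.card_biUnion_le_card_mul _ _ N0 ?_).trans ?_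
      · intro R hR
        exact hb1 j R (List.mem_toFinset.1 hR)
      · exact Nat.mul_le_mul_right _ ((List.toFinset_card_le _).trans (hT1 j))
    · rw [Finset.card_univ, Fintype.card_fin]

end Pool.Agent.MVD
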