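import Mathlib

/-!
# MVD.Defs: the determinant method in several variables, algebraic objects

A list of relations `F_1, …, F_r` over a field `K` in the variables `x_1, …, x_n`; the relation `F_i`
involves only variables which have not been eliminated by the relations before it, and eliminates one
more variable.
-/

namespace Pool.Agent.MVD

open MvPolynomial

/-- The relation `∑_{s ≤ δ} f s * x_k ^ s = 0`; the polynomials `f s` will not involve `x_k`. -/
structure Rel (K : Type*) [Field K] (n : ℕ) where
  /-- the variable which is eliminated -/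
  k : Fin n
  /-- the degree in `x_k` -/
  δ : ℕ
  /-- the coefficients of the powers of `x_k` -/
  f : ℕ → MvPolynomial (Fin n) K

variable {K : Type*} [Field K] {n : ℕ}

/-- The polynomial of a relation. -/
noncomputable def Rel.F (R : Rel K n) : MvPolynomial (Fin n) K :=
  ∑ s ∈ Finset.range (R.δ + 1), R.f s * X R.k ^ s

/-- The variables of `J` which are not eliminated by the relations. -/
def free : Finset (Fin n) → List (Rel K n) → Finset (Fin n)
  | J, [] => J
  | J, R :: l => free (J.erase R.k) l

/-- Each relation involves only the variables of `J` not yet eliminated, and eliminates one of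
them. -/
def Tower : Finset (Fin n) → List (Rel K n) → Prop
  | _, [] => True
  | J, R :: l => R.k ∈ J ∧ (∀ s, (R.f s).vars ⊆ J.erase R.k) ∧ Tower (J.erase R.k) l

/-- All degrees are at most `D`. -/
def DegLE (D : ℕ) (l : List (Rel K n)) : Prop :=
  ∀ R ∈ l, R.δ ≤ D ∧ ∀ s j, (R.f s).degreeOf j ≤ D

/-- The point `P` satisfies the relations, and they are not degenerate at `P`. -/
def Nondeg (l : List (Rel K n)) (P : Fin n → K) : Prop :=
  ∀ R ∈ l, eval P R.F = 0 ∧ eval P (pderiv R.k R.F) ≠ 0 ∧ eval P (R.f R.δ) ≠ 0

/-- Reduction of a covector modulo the differentials of the relations. -/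
noncomputable def red : List (Rel K n) → (Fin n → MvPolynomial (Fin n) K) →
    Fin n → MvPolynomial (Fin n) K
  | [], w => w
  | R :: l, w => red l (fun j => pderiv R.k R.F * w j - w R.k * pderiv j R.F)

/-- Reduction of a covector at the point `P`. -/
noncomputable def redE (P : Fin n → K) : List (Rel K n) → (Fin n → K) → Fin n → K
  | [], w => w
  | R :: l, w => redE P l (fun j => eval P (pderiv R.k R.F) * w j - w R.k * eval P (pderiv j R.F))

/-- The covector `∑ (p_j - s_j) d x_j / x_j`, multiplied by the product of the variables. -/
noncomputable def om (K : Type*) [Field K] {n : ℕ} (p s : Fin n → ℕ) (j : Fin n) :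
    MvPolynomial (Fin n) K :=
  C ((p j : K) - (s j : K)) * ∏ i ∈ Finset.univ.erase j, X i

/-- A power series germ at `P` of the variety defined by the relations, parametrised by a generic
line in the space of the free variables. -/
structure IsGerm (J : Finset (Fin n)) (l : List (Rel K n)) (P : Fin n → K)
    (φ : Fin n → PowerSeries (MvPolynomial (Fin n) K)) : Prop where
  const : ∀ j, PowerSeries.constantCoeff (φ j) = C (P j)
  par : ∀ j ∈ free J l, φ j = PowerSeries.C (C (P j)) + PowerSeries.C (X j) * PowerSeries.X
  rel : ∀ R ∈ l, aeval φ R.F = 0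

/-- A nonarchimedean absolute value. -/
structure NA (V : K → ℝ) : Prop where
  zero : V 0 = 0
  one : V 1 = 1
  nonneg : ∀ x, 0 ≤ V x
  mul : ∀ x y, V (x * y) = V x * V y
  add : ∀ x y, V (x + y) ≤ max (V x) (V y)

/-- All coefficients are integral. -/
def IntP (V : K → ℝ) (g : MvPolynomial (Fin n) K) : Prop := ∀ m, V (coeff m g) ≤ 1

/-- All monomials have degree at least `e`. -/
def OrdGE (e : ℕ) (g : MvPolynomial (Fin n) K) : Prop := ∀ m, coeff m g ≠ 0 → e ≤ m.degree

/-- The monomial of the variables in `I` with exponents `a`. -/
def mon {R : Type*} [CommMonoid R] (I : Finset (Fin n)) {D : ℕ} (P : Fin n → R)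
    (a : I → Fin (D + 1)) : R := ∏ j : I, P j ^ (a j : ℕ)

end Pool.Agent.MVD
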