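import Pool.Agent.MVD.Defs
import Pool.Agent.AbcE.Defs

/-!
# Module DefsB

Number field definitions.
-/

namespace Pool.Agent.MVD

open NumberField IsDedekindDomain Pool.Agent.H7.Abc Pool.Agent.AbcE MvPolynomial

/-- The value `y = a x ^ p / x ^ s`. -/
noncomputable def yv {K : Type*} [Field K] {n : ℕ} (a : K) (p s : Fin n → ℕ) (P : Fin n → K) : K :=
  a * (∏ j, P j ^ p j) / ∏ j, P j ^ s j

end Pool.Agent.MVD
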