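import Pool.Agent.MVD.Reduce

/-!
# Module Elim (size 5)

Let `m = (D+1)^n`, `c = DH + DH * (D+1)^n`, `q = n * c * (m+1) + 1`, `D2 = q - 1`. Given the data, let `I = free univ l`,
`i = card I ≤ n`. Index set `Idx = {(k, a) : k ∈ Fin (m+1), a : Fin n → ℕ, a j ≤ D2 for j ∈ I, a j = 0 for j ∉ I}`, of size
`(m+1) * (D2+1)^i`. The elements `e(k,a) = (∏ x_j^{a_j}) * aeval x (H k)` lie in `Sp d` with `d j = D2 + DH` for `j ∈ I`, `DH` otherwise
(`mem_Sp`). `reduce_list` with `J = univ`, `dm = DH` gives `Λ` with `Λ * e(k,a) ∈ Sp d'`, `d' j ≤ D2 + DH + DH * (D+1)^n` for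
`j ∈ I` (`l.length ≤ n` by `tower_card`), `D` otherwise. `Sp d'` is spanned by `∏ (d' j + 1) ≤ (D+1)^(n-i) * (D2 + c + 1)^i ≤ m * (q + c)^i` elements, so its
dimension is at most this. Now `m * (q+c)^i < (m+1) * q^i`: Bernoulli `(q/(q+c))^i = (1 - c/(q+c))^i ≥ 1 - i c/(q+c) > 1 - 1/(m+1)`
because `q + c > n c (m+1) ≥ i c (m+1)`. So the family `Λ * e(k,a)` is linearly dependent: there is `(λ(k,a)) ≠ 0` in `K` with
`Λ * ∑ λ(k,a) e(k,a) = 0`, hence `∑ λ(k,a) e(k,a) = 0` (`Λ` is a non-zero-divisor). Put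
`c k = ∑_a λ(k,a) monomial a`: `c ≠ 0`, variables in `I`, degrees at most `D2`, and `∑_k aeval x (c k) * aeval x (H k) = 0`.
(Use `LinearMap` from `(Idx → K)` to the finite dimensional `Sp d'` or `Module.exists_nontrivial_relation_of_finrank_lt_card` /
`exists_nontrivial_relation...`, `finrank_span_le_card`.)
-/

namespace Pool.Agent.MVD

open MvPolynomial

universe u

/-- the numerical inequality -/
private theorem elim_num (n m c i : ℕ) (hi : i ≤ n) :
    m * ((n * c * (m + 1) + 1) + c) ^ i < (m + 1) * (n * c * (m + 1) + 1) ^ i := by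
  set q : ℕ := n * c * (m + 1) + 1 with hq
  have hq0 : (0 : ℝ) < (q : ℝ) := by
    have : 0 < q := by omega
    exact_mod_cast this
  have hc0 : (0 : ℝ) ≤ (c : ℝ) := Nat.cast_nonneg c
  have hs : (0 : ℝ) < (q : ℝ) + c := by linarith
  have hle : (c : ℝ) / ((q : ℝ) + c) ≤ 1 := by
    rw [div_le_one hs]; linarith
  have hb := one_add_mul_le_pow (a := -((c : ℝ) / ((q : ℝ) + c))) (by linarith) i
  have h1 : 1 + -((c : ℝ) / ((q : ℝ) + c)) = (q : ℝ) / ((q : ℝ) + c) := by
    field_simp
    ring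
  rw [h1, div_pow] at hb
  have hp : (0 : ℝ) < ((q : ℝ) + c) ^ i := by positivity
  have h2 : (1 + (i : ℝ) * -((c : ℝ) / ((q : ℝ) + c))) * ((q : ℝ) + c) ^ i ≤ (q : ℝ) ^ i := by
    rwa [le_div_iff₀ hp] at hb
  have h3 : ((m : ℝ) + 1) * ((i : ℝ) * c) < (q : ℝ) + c := by
    have h4 : (m + 1) * (i * c) ≤ n * c * (m + 1) := by
      calc (m + 1) * (i * c) ≤ (m + 1) * (n * c) :=
            Nat.mul_le_mul_left _ (Nat.mul_le_mul_right _ hi)
        _ = n * c * (m + 1) := by ring
    have h5 : (m + 1) * (i * c) < q := by omega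
    have h6 : ((m : ℝ) + 1) * ((i : ℝ) * c) < (q : ℝ) := by exact_mod_cast h5
    linarith
  have h4 : (m : ℝ) < ((m : ℝ) + 1) * (1 + (i : ℝ) * -((c : ℝ) / ((q : ℝ) + c))) := by
    have h5 : ((m : ℝ) + 1) * ((i : ℝ) * ((c : ℝ) / ((q : ℝ) + c))) < 1 := by
      have h6 : ((m : ℝ) + 1) * ((i : ℝ) * ((c : ℝ) / ((q : ℝ) + c))) =
          ((m : ℝ) + 1) * ((i : ℝ) * c) / ((q : ℝ) + c) := by ring
      rw [h6, div_lt_one hs]
      exact h3
    linarith
  have h5 : (m : ℝ) * ((q : ℝ) + c) ^ i < ((m : ℝ) + 1) * (q : ℝ) ^ i := by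
    have hm : (0 : ℝ) ≤ (m : ℝ) + 1 := by positivity
    calc (m : ℝ) * ((q : ℝ) + c) ^ i
        < (((m : ℝ) + 1) * (1 + (i : ℝ) * -((c : ℝ) / ((q : ℝ) + c)))) * ((q : ℝ) + c) ^ i :=
          mul_lt_mul_of_pos_right h4 hp
      _ = ((m : ℝ) + 1) * ((1 + (i : ℝ) * -((c : ℝ) / ((q : ℝ) + c))) * ((q : ℝ) + c) ^ i) := by
          ring
      _ ≤ _ := mul_le_mul_of_nonneg_left h2 hm
  exact_mod_cast h5

/-- exponent vector supported on `I` -/
private noncomputable def elimExp {n q : ℕ} (I : Finset (Fin n)) (a : I → Fin q) : Fin n →₀ ℕ :=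
  Finsupp.equivFunOnFinite.symm (fun j => if h : j ∈ I then (a ⟨j, h⟩ : ℕ) else 0)

private theorem elimExp_apply {n q : ℕ} (I : Finset (Fin n)) (a : I → Fin q) (j : Fin n) :
    elimExp I a j = if h : j ∈ I then (a ⟨j, h⟩ : ℕ) else 0 := rfl

private theorem elimExp_inj {n q : ℕ} (I : Finset (Fin n)) :
    Function.Injective (elimExp (q := q) I) := by
  intro a b h
  funext j
  have h1 := DFunLike.congr_fun h j.1
  rw [elimExp_apply, elimExp_apply, dif_pos j.2, dif_pos j.2] at h1
  exact Fin.ext h1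

private theorem elimExp_le {n D2 : ℕ} (I : Finset (Fin n)) (a : I → Fin (D2 + 1)) (j : Fin n) :
    elimExp I a j ≤ if j ∈ I then D2 else 0 := by
  rw [elimExp_apply]
  split_ifs with h
  · exact Nat.lt_succ_iff.mp (a ⟨j, h⟩).2
  · exact le_rfl

private theorem elim_degreeOf_monomial {K : Type*} [Field K] {n : ℕ} (s : Fin n →₀ ℕ) (r : K)
    (j : Fin n) : (monomial s r).degreeOf j ≤ s j := by
  classical
  by_cases hr : r = 0
  · rw [hr, monomial_zero, degreeOf_zero]
    exact Nat.zero_le _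
  · rw [degreeOf_monomial_eq _ _ hr]

private theorem elim_finrank {K : Type*} [Field K] {n : ℕ} {A : Type*} [CommRing A] [Algebra K A]
    (x : Fin n → A) (d : Fin n → ℕ) :
    Module.Finite K (Sp K x d) ∧ Module.finrank K (Sp K x d) ≤ ∏ j, (d j + 1) := by
  have h1 : Sp K x d = Submodule.span K
      (Set.range (fun a : (j : Fin n) → Fin (d j + 1) => ∏ j, x j ^ (a j : ℕ))) := by
    unfold Sp
    congr 1
    ext z
    constructor
    · rintro ⟨a, ha, rfl⟩
      exact ⟨fun j => ⟨a j, Nat.lt_succ_of_le (ha j)⟩, rfl⟩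
    · rintro ⟨a, rfl⟩
      exact ⟨fun j => (a j : ℕ), fun j => Nat.lt_succ_iff.mp (a j).2, rfl⟩
  rw [h1]
  constructor
  · exact FiniteDimensional.span_of_finite K (Set.finite_range _)
  · refine (finrank_range_le_card _).trans (le_of_eq ?_)
    rw [Fintype.card_pi]
    simp

/-- Any `(D + 1) ^ n + 1` polynomials are dependent over the polynomials in the free variables,
modulo the relations, with bounded degrees. -/
theorem elim (n D DH : ℕ) : ∃ D2 : ℕ, ∀ (K : Type u) [Field K] (A : Type u) [CommRing A]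
    [Algebra K A] (x : Fin n → A) (l : List (Rel K n)), Tower Finset.univ l → DegLE D l →
    (∀ R ∈ l, aeval x R.F = 0) → (∀ R ∈ l, aeval x (R.f R.δ) ∈ nonZeroDivisors A) →
    ∀ H : Fin ((D + 1) ^ n + 1) → MvPolynomial (Fin n) K, (∀ k j, (H k).degreeOf j ≤ DH) →
      ∃ c : Fin ((D + 1) ^ n + 1) → MvPolynomial (Fin n) K, c ≠ 0 ∧
        (∀ k, (c k).vars ⊆ free Finset.univ l) ∧ (∀ k j, (c k).degreeOf j ≤ D2) ∧
        ∑ k, aeval x (c k) * aeval x (H k) = 0 := by
  classical
  refine ⟨n * (DH + DH * (D + 1) ^ n) * ((D + 1) ^ n + 1), ?_⟩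
  set m : ℕ := (D + 1) ^ n with hm
  set c : ℕ := DH + DH * m with hc
  set D2 : ℕ := n * c * (m + 1) with hD2
  intro K _ A _ _ x l hT hD hF hnz H hH
  set I := free Finset.univ l with hI
  have hcard := tower_card hT
  rw [← hI, Finset.card_univ, Fintype.card_fin] at hcard
  set d : Fin n → ℕ := fun j => (if j ∈ I then D2 else 0) + DH with hd
  obtain ⟨Λ, hΛ, hred⟩ := reduce_list x D l Finset.univ hT hD hF hnz DH d (by
    intro j _ hj
    rw [hd]
    simp only
    rw [if_neg hj, zero_add])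
  set d' : Fin n → ℕ := fun j =>
      if j ∈ free Finset.univ l then d j + DH * (D + 1) ^ l.length
      else if j ∈ Finset.univ then D else d j with hd'
  let e : Fin (m + 1) × (I → Fin (D2 + 1)) → A := fun t =>
    aeval x (monomial (elimExp I t.2) (1 : K) * H t.1)
  have he : ∀ t, Λ * e t ∈ Sp K x d' := by
    intro t
    apply hred
    apply mem_Sp
    intro j
    refine (degreeOf_mul_le _ _ _).trans ?_
    exact add_le_add ((elim_degreeOf_monomial _ _ _).trans (elimExp_le I t.2 j)) (hH t.1 j)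
  obtain ⟨hfin, hrank⟩ := elim_finrank (K := K) x d'
  have hprod : ∏ j, (d' j + 1) ≤ m * ((D2 + 1) + c) ^ I.card := by
    have h1 : ∀ j, d' j + 1 ≤ if j ∈ I then (D2 + 1) + c else D + 1 := by
      intro j
      rw [hd']
      simp only
      rw [← hI]
      split_ifs with h2 h3
      · rw [hd]
        simp only
        rw [if_pos h2]
        have h4 : (D + 1) ^ l.length ≤ m := by
          rw [hm]
          exact Nat.pow_le_pow_right (Nat.succ_pos _) (by omega)
        have h5 : DH * (D + 1) ^ l.length ≤ DH * m := Nat.mul_le_mul_left _ h4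
        omega
      · exact le_rfl
      · exact absurd (Finset.mem_univ _) h3
    refine (Finset.prod_le_prod' fun j _ => h1 j).trans ?_
    rw [Finset.prod_ite, Finset.prod_const, Finset.prod_const, mul_comm]
    apply Nat.mul_le_mul
    · rw [hm]
      apply Nat.pow_le_pow_right (Nat.succ_pos _)
      refine (Finset.card_le_univ _).trans ?_
      rw [Fintype.card_fin]
    · apply Nat.pow_le_pow_right (by omega)
      apply le_of_eq
      congr 1
      ext j
      simp
  have hnum := elim_num n m c I.card (by omega)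
  rw [← hD2] at hnum
  have hlt : Module.finrank K (Sp K x d') < Fintype.card (Fin (m + 1) × (I → Fin (D2 + 1))) := by
    rw [Fintype.card_prod, Fintype.card_fun, Fintype.card_fin, Fintype.card_fin,
      Fintype.card_coe]
    exact lt_of_le_of_lt (hrank.trans hprod) hnum
  have hdep : ¬ LinearIndependent K
      (fun t : Fin (m + 1) × (I → Fin (D2 + 1)) => (⟨Λ * e t, he t⟩ : Sp K x d')) := by
    intro hli
    have h1 := hli.fintype_card_le_finrank
    exact absurd h1 (not_le.mpr hlt)
  rw [Fintype.not_linearIndependent_iff] at hdep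
  obtain ⟨g, hg, t0, ht0⟩ := hdep
  have hg' : ∑ t, g t • e t = 0 := by
    have h1 := congrArg (fun z : Sp K x d' => (z : A)) hg
    simp only [Submodule.coe_sum, Submodule.coe_smul, Submodule.coe_zero] at h1
    have h2 : (∑ t, g t • e t) * Λ = 0 := by
      rw [Finset.sum_mul, ← h1]
      refine Finset.sum_congr rfl fun t _ => ?_
      rw [smul_mul_assoc, mul_comm (e t) Λ]
    exact (mem_nonZeroDivisors_iff_right.mp hΛ) _ h2
  refine ⟨fun k => ∑ a : I → Fin (D2 + 1), monomial (elimExp I a) (g (k, a)), ?_, ?_, ?_, ?_⟩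
  · intro h0
    apply ht0
    have h1 := congrArg (coeff (elimExp I t0.2)) (congrFun h0 t0.1)
    simp only [Pi.zero_apply, coeff_zero] at h1
    rw [coeff_sum, Finset.sum_eq_single t0.2] at h1
    · rw [coeff_monomial, if_pos rfl] at h1
      exact h1
    · intro a _ ha
      rw [coeff_monomial, if_neg (fun h2 => ha (elimExp_inj I h2))]
    · intro h2
      exact absurd (Finset.mem_univ _) h2
  · intro k
    refine (vars_sum_subset _ _).trans ?_
    rw [Finset.biUnion_subset]
    intro a _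
    by_cases hr : g (k, a) = 0
    · rw [hr, monomial_zero, vars_0]
      exact Finset.empty_subset _
    · rw [vars_monomial hr]
      intro j hj
      rw [Finsupp.mem_support_iff, elimExp_apply] at hj
      by_contra h2
      exact hj (dif_neg h2)
  · intro k j
    refine (degreeOf_sum_le j _ _).trans ?_
    apply Finset.sup_le
    intro a _
    refine (elim_degreeOf_monomial _ _ _).trans ((elimExp_le I a j).trans ?_)
    split_ifs
    · exact le_rfl
    · exact Nat.zero_le _
  · rw [← hg', Fintype.sum_prod_type]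
    refine Finset.sum_congr rfl fun k _ => ?_
    rw [map_sum, Finset.sum_mul]
    refine Finset.sum_congr rfl fun a _ => ?_
    have h1 : (monomial (elimExp I a) (g (k, a)) : MvPolynomial (Fin n) K) =
        g (k, a) • monomial (elimExp I a) (1 : K) := by
      rw [smul_monomial, smul_eq_mul, mul_one]
    rw [h1, map_smul, smul_mul_assoc]
    simp only [e, map_mul]

end Pool.Agent.MVD
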