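import Pool.Agent.MVD.CellTS
import Pool.Agent.MVD.Cells2
import Pool.Agent.MVD.Enum

/-!
# Module TsCount (size 3)

`κ0` from `cell_ts K m C1 (ε/2)`. For `κ1, E`: `C'` from `cell_ts`, `C''` from `cells_sum2` with `ε / (2 (|κ1| + 1))`, `C = C' * C''`. For `L, A, S, θ`: the tool `T = ⟨1, A 0, A 1, A 2, le_rfl, ..⟩` (`Fs T g = A g`), `ex g` from `exists_ex` (`ExOK` and `szOK_of`). The set is finite
(`cnts_finite`-like); let `S0` be its finset. `RK T x = ∑ g, rd (grp x g) (A g)ᶜ` (`Fin.sum_univ_three`, `grp`). `cells_sum2` with `D = (|κ1| + 1) L`, `A := C' exp (ε/2 L)`.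
-/

namespace Pool.Agent.MVD

open NumberField IsDedekindDomain Pool.Agent.H7.Abc Pool.Agent.AbcE Pool.Agent.AbcF

/-- The count by the theorem on values of large height. -/
theorem ts_count (K : Type*) [Field K] [NumberField K] (m : ℕ) (C1 ε : ℝ) (hC1 : 0 ≤ C1)
    (hε : 0 < ε) : ∃ κ0 : ℝ, 1 ≤ κ0 ∧ ∀ (κ1 : ℝ) (E : ℕ), ∃ C : ℝ, 0 < C ∧ ∀ L : ℝ, 1 ≤ L →
      ∀ (A : Fin 3 → Set ℕ) (S : Fin 3 → Finset ℕ) (θ : ℝ),
      (∀ g, (S g).card ≤ m ∧ ∀ n ∈ S g, n ≤ E ∧ n ∈ A g) →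
      (({x : K | x ≠ 0 ∧ x ≠ 1 ∧ κ0 * L ≤ hgt x ∧ hgt x ≤ κ1 * L ∧
        ∑ g, rd (grp x g) (A g)ᶜ ≤ θ ∧ ∀ g, (∀ n ∈ S g, rd (grp x g) {n} ≤ C1 * L) ∧
          sz (grp x g) (A g \ (S g : Set ℕ)) ≤ C1 * L}.ncard : ℕ) : ℝ) ≤
        C * Real.exp (θ + ε * L) := by
  classical
  obtain ⟨κ0, hκ0, H⟩ := cell_ts K m C1 (ε / 2) hC1 (half_pos hε)
  refine ⟨κ0, hκ0, fun κ1 E => ?_⟩
  obtain ⟨C', hC', H'⟩ := H κ1 E
  have hκ1 : (0 : ℝ) < |κ1| + 1 := by positivity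
  obtain ⟨C'', hC'', H''⟩ := cells_sum2 K (ε := ε / (2 * (|κ1| + 1))) (by positivity)
  refine ⟨C'' * C', by positivity, fun L hL A S θ hS => ?_⟩
  have hex : ∀ g, ∃ ex : Fin m → ℕ, (∀ n ∈ S g, ∃ k, ex k = n) ∧ (∀ k, ex k ≠ 0 → ex k ∈ S g) ∧
      ∀ k k', ex k ≠ 0 → ex k = ex k' → k = k' := fun g => exists_ex (S g) (hS g).1
  choose ex hex1 hex2 hex3 using hex
  let T : Tool :=
    { e := 1
      F0 := A 0
      F1 := A 1
      G := A 2
      he := le_rfl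
      h0 := fun _ _ => one_dvd _
      h1 := fun _ _ => one_dvd _ }
  have hFs : ∀ g, Fs T g = A g := by
    intro g
    fin_cases g <;> simp [Fs, T]
  set P0 : Set K := {x : K | x ≠ 0 ∧ x ≠ 1 ∧ κ0 * L ≤ hgt x ∧ hgt x ≤ κ1 * L ∧
        ∑ g, rd (grp x g) (A g)ᶜ ≤ θ ∧ ∀ g, (∀ n ∈ S g, rd (grp x g) {n} ≤ C1 * L) ∧
          sz (grp x g) (A g \ (S g : Set ℕ)) ≤ C1 * L} with hP0
  have hfin : P0.Finite := by
    refine (cnts_finite (K := K) (κ1 * L) (fun _ => True)).subset ?_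
    rintro x ⟨h1, h2, -, h3, -⟩
    exact ⟨h1, h2, h3, trivial⟩
  rw [Set.ncard_eq_toFinset_card _ hfin]
  have hmem : ∀ y ∈ hfin.toFinset, y ∈ P0 := fun y hy => (Set.Finite.mem_toFinset _).1 hy
  have hRK : ∀ y : K, RK T y = ∑ g, rd (grp y g) (A g)ᶜ := by
    intro y
    rw [Fin.sum_univ_three]
    simp [RK, T, grp]
  have key := H'' T ((|κ1| + 1) * L) θ (C' * Real.exp (ε / 2 * L)) (by positivity) (by positivity)
    hfin.toFinset (by
      intro y hy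
      obtain ⟨h1, h2, h3, h4, h5, h6⟩ := hmem y hy
      refine ⟨h1, h2, h4.trans ?_, ?_⟩
      · refine mul_le_mul_of_nonneg_right ?_ (by linarith)
        linarith [le_abs_self κ1]
      · rw [hRK]
        exact h5)
    (by
      intro P hP y0 hy0 hsame
      refine H' L hL T ex (fun g => ?_) P y0 hy0 hsame (fun y hy => ?_)
      · rw [hFs]
        refine ⟨fun k => ?_, fun k hk => ?_, hex3 g⟩
        · by_cases hk : ex g k = 0
          · omega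
          · exact ((hS g).2 _ (hex2 g k hk)).1
        · exact ((hS g).2 _ (hex2 g k hk)).2
      · obtain ⟨h1, h2, h3, h4, h5, h6⟩ := hmem y (hP hy)
        refine ⟨h1, h2, h3, h4, fun g => ?_⟩
        rw [hFs]
        exact szOK_of (grp_ne_zero h1 h2 g) (hex1 g) (hex2 g) (by positivity) (h6 g).1 (h6 g).2)
  refine key.trans (le_of_eq ?_)
  have e1 : ε / (2 * (|κ1| + 1)) * ((|κ1| + 1) * L) = ε / 2 * L := by
    field_simp
  rw [e1]
  have e2 : Real.exp (θ + ε * L) = Real.exp (ε / 2 * L) * Real.exp (θ + ε / 2 * L) := by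
    rw [← Real.exp_add]; congr 1; ring
  rw [e2]
  ring

end Pool.Agent.MVD
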