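import Pool.Agent.MVD.CoverA
import Pool.Agent.MVD.Chain
import Pool.Agent.MVD.TsCount

/-!
# Module FinalA (size 5)

`η = min (1/100) (ε/100)`. `chain K 1 (ε/8) η η J0` with `J0 = ⌈1/η⌉₊` gives `τ, Jt, m`. For `i < 4`: `κ0_i` from `ts_count K (m i) (max 1 (Jt i + 1)) (ε/8)`; `κ0` = the maximum. `l0 = min 1 (1/(4 κ0))`. Fix `0 < l ≤ l0`. `E` with `Jt 4 ≤ E`, `24 / (η l) ≤ E` or so.
For a natural number `D ≥ D0` (`D0 ≥ 2`, `l D0 ≥ 1`, `D0 ≥ d log 2`) put `L = l D` and `Z_D = {x : x ≠ 0, x ≠ 1, D - 1 ≤ hgt x ≤ D, RR x ≤ l * hgt x}`. For `x ∈ Z_D`: `RR x ≤ L`, `3 hh x / (E+1) ≤ 6 D / E ≤ η L`, `κ0 L ≤ D/4 ≤ hgt x ≤ D = (1/l) L`.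
`cover_a`: `x` is in one of the sets of `ts_count` (`A g = lowS (Jt i) (S g)`, `S g ∈ (Icc (Jt i) E).powerset`, `κ1 = 1/l`, `θ = 4 η L`), of `TssProp` (`κ1 = 1/l`, `θ = (1/3 + 6η) L`, `M ∈ (Icc (Jt (i+1)) E).powerset`; the bound for `ln v`: `ln_le_rd`), or `Φ2 E i x ≤ (1/3 + 6 η) L` for some
`i ∈ I2 E`: `cnt_union K (I2 E) (Φ2 E) (cnt2 E)` with the `ε` there `:= ε l / 8` gives `C exp (θ + ε l D / 8)`. All index sets are finite and depend on `E` only. So `Z_D.ncard ≤ C' exp ((1/3 + ε/2) l D)` for natural `D ≥ D0`, where `6 η ≤ ε/8`.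
For `D < D0` the sets `Z_D` are contained in a fixed finite set (Northcott). Finally `Exc K l Y ⊆ ⋃_{D ≤ ⌈Y⌉} Z_D` (`D = ⌈hgt x⌉₊`; `Exc` has `RR x ≤ l * hgt x` by definition, see `cover` in AbcF/Final), so the number is at most `(Y + 2) * C'' exp ((1/3 + ε/2) l (Y + 1))`, and
`tc_poly_le_exp` absorbs `Y + 2` into `exp (ε/2 l Y)` (compare the proof of `cnt_gap` in AbcF/Cnts).
-/

namespace Pool.Agent.MVD

open NumberField IsDedekindDomain Pool.Agent.H7.Abc Pool.Agent.AbcE Pool.Agent.AbcF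

private theorem FinalA_cover {α ι : Type*} (Z : Set α) (F : Finset ι) (W : ι → Set α)
    (hW : ∀ p ∈ F, (W p).Finite) (hZ : ∀ x ∈ Z, ∃ p ∈ F, x ∈ W p) :
    (Z.ncard : ℝ) ≤ ∑ p ∈ F, ((W p).ncard : ℝ) := by
  classical
  have h1 : ∀ F : Finset ι, (⋃ p ∈ F, W p).ncard ≤ ∑ p ∈ F, (W p).ncard := by
    intro F
    induction F using Finset.induction_on with
    | empty => simp
    | insert a s ha ih =>
      rw [Finset.set_biUnion_insert, Finset.sum_insert ha]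
      exact (Set.ncard_union_le _ _).trans (Nat.add_le_add_left ih _)
  have hfin : (⋃ p ∈ F, W p).Finite := F.finite_toSet.biUnion hW
  have hsub : Z ⊆ ⋃ p ∈ F, W p := by
    intro x hx
    obtain ⟨p, hp, hxp⟩ := hZ x hx
    exact Set.mem_biUnion hp hxp
  have h2 := (Set.ncard_le_ncard hsub hfin).trans (h1 F)
  exact_mod_cast h2

/-- the elements with height in a unit interval -/
private def FinalA_Z (K : Type*) [Field K] [NumberField K] (l : ℝ) (D : ℕ) : Set K :=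
  {x : K | x ≠ 0 ∧ x ≠ 1 ∧ (D : ℝ) - 1 ≤ hgt x ∧ hgt x ≤ D ∧ RR x ≤ l * hgt x}

private theorem FinalA_fin (K : Type*) [Field K] [NumberField K] (Y : ℝ) (P : K → Prop)
    (h : ∀ x, P x → hgt x ≤ Y) : {x : K | P x}.Finite := by
  refine (NumberField.finite_setOfPred_logHeight₁_le K Y).subset ?_
  intro x hx
  have := h x hx
  rw [hgt_eq] at this
  exact this

private theorem FinalA_cell (K : Type*) [Field K] [NumberField K] {ε : ℝ} (hε : 0 < ε) :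
    ∃ l0 : ℝ, 0 < l0 ∧ ∀ l : ℝ, 0 < l → l ≤ l0 → ∃ (C : ℝ) (D0 : ℕ), 0 < C ∧ ∀ D : ℕ, D0 ≤ D →
      ((FinalA_Z K l D).ncard : ℝ) ≤ C * Real.exp ((1 / 3 + ε / 4) * (l * D)) := by
  classical
  obtain ⟨η, hηdef⟩ : ∃ η : ℝ, η = min (1 / 100) (ε / 100) := ⟨_, rfl⟩
  have hη : 0 < η := by rw [hηdef]; positivity
  have hη1 : η ≤ 1 / 100 := by rw [hηdef]; exact min_le_left _ _
  have hη2 : η ≤ ε / 100 := by rw [hηdef]; exact min_le_right _ _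
  obtain ⟨τ, Jt, m, hτ0, hJ0, hch, htss⟩ :=
    chain K 1 (ε / 8) η η ⌈1 / η⌉₊ (by positivity) hη hη
  have hJ0' : 1 ≤ η * (Jt 0 : ℝ) := by
    have h1 : 1 / η ≤ (Jt 0 : ℝ) := by rw [hJ0]; exact Nat.le_ceil _
    rw [div_le_iff₀ hη] at h1
    linarith
  have hts : ∀ i : ℕ, ∃ κ0 : ℝ, 1 ≤ κ0 ∧ ∀ (κ1 : ℝ) (E : ℕ), ∃ C : ℝ, 0 < C ∧ ∀ L : ℝ, 1 ≤ L →
      ∀ (A : Fin 3 → Set ℕ) (S : Fin 3 → Finset ℕ) (θ : ℝ),
      (∀ g, (S g).card ≤ m i ∧ ∀ n ∈ S g, n ≤ E ∧ n ∈ A g) →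
      (({x : K | x ≠ 0 ∧ x ≠ 1 ∧ κ0 * L ≤ hgt x ∧ hgt x ≤ κ1 * L ∧
        ∑ g, rd (grp x g) (A g)ᶜ ≤ θ ∧ ∀ g, (∀ n ∈ S g, rd (grp x g) {n} ≤
            max 1 ((Jt i : ℝ) + 1) * L) ∧
          sz (grp x g) (A g \ (S g : Set ℕ)) ≤ max 1 ((Jt i : ℝ) + 1) * L}.ncard : ℕ) : ℝ) ≤
        C * Real.exp (θ + ε / 8 * L) :=
    fun i => ts_count K (m i) (max 1 ((Jt i : ℝ) + 1)) (ε / 8) (by positivity) (by positivity)
  choose κf hκ1 hκ using hts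
  obtain ⟨κ0, hκ0⟩ : ∃ κ0 : ℝ, κ0 = ∑ i ∈ Finset.range 4, κf i := ⟨_, rfl⟩
  have hκle : ∀ i < 4, κf i ≤ κ0 := by
    intro i hi
    rw [hκ0]
    exact Finset.single_le_sum (f := κf) (fun j _ => zero_le_one.trans (hκ1 j))
      (Finset.mem_range.2 hi)
  have hκpos : 0 < κ0 := by
    have := hκle 0 (by norm_num)
    have := hκ1 0
    linarith
  refine ⟨min 1 (1 / (4 * κ0)), by positivity, fun l hl hl0 => ?_⟩
  have hl1 : l ≤ 1 := hl0.trans (min_le_left _ _)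
  have hl2 : 4 * κ0 * l ≤ 1 := by
    have h := hl0.trans (min_le_right _ _)
    rw [le_div_iff₀ (by positivity)] at h
    linarith
  obtain ⟨c, hc⟩ : ∃ c : ℝ, c = Module.finrank ℚ K * Real.log 2 := ⟨_, rfl⟩
  have hc0 : 0 ≤ c := by rw [hc]; positivity
  obtain ⟨E, hE1, hE2⟩ : ∃ E : ℕ, Jt 4 ≤ E ∧ 6 / (η * l) ≤ E := by
    refine ⟨max (Jt 4) ⌈6 / (η * l)⌉₊, le_max_left _ _, ?_⟩
    exact (Nat.le_ceil _).trans (by exact_mod_cast le_max_right _ _)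
  have hE3 : 6 ≤ η * l * (E + 1) := by
    rw [div_le_iff₀ (by positivity)] at hE2
    nlinarith [mul_pos hη hl]
  -- the constants
  choose C1 hC1 h1 using fun i => hκ i (1 / l) E
  have h2' : ∀ i : ℕ, ∃ C : ℝ, 0 < C ∧ ∀ L : ℝ, 1 ≤ L →
    ∀ (c : Fin 3) (A : Fin 3 → Set ℕ) (M : Set ℕ) (S : Fin 3 → Finset ℕ) (θ : ℝ),
      (∀ g, g ≠ c → (S g).card ≤ m i ∧ ∀ n ∈ S g, n ≤ E ∧ n ∈ A g) → (∀ n ∈ M, Jt (i + 1) ≤ n) →
      (({x : K | x ≠ 0 ∧ x ≠ 1 ∧ hgt x ≤ 1 / l * L ∧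
        ∑ g, rd (grp x g) (if g = c then M else (A g)ᶜ) ≤ θ ∧
        (∀ g, g ≠ c → (∀ n ∈ S g, rd (grp x g) {n} ≤ max 1 ((Jt i : ℝ) + 1) * L) ∧
          sz (grp x g) (A g \ (S g : Set ℕ)) ≤ max 1 ((Jt i : ℝ) + 1) * L) ∧
        η * L ≤ rd (grp x c) M ∧ ∀ v : HeightOneSpectrum (𝓞 K), 0 < ord v (grp x c) →
          (ord v (grp x c)).toNat ∈ M → ln v ≤ τ (i + 1) * L}.ncard : ℕ) : ℝ) ≤
        C * Real.exp (θ + ε / 8 * L) := fun i => htss i (1 / l) E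
  choose C2 hC2 h2 using h2'
  obtain ⟨C3, hC3, h3⟩ := cnt_union K (I2 E) (Φ2 E) (cnt2 E)
    (show 0 < ε * l / 8 by positivity)
  let F1 : Finset (ℕ × (Fin 3 → Finset ℕ)) := Finset.range 4 ×ˢ
    Fintype.piFinset fun _ => (Finset.range (E + 1)).powerset
  let F2 : Finset (ℕ × Fin 3 × (Fin 3 → Finset ℕ) × Finset ℕ) := Finset.range 4 ×ˢ
    Finset.univ ×ˢ (Fintype.piFinset fun _ => (Finset.range (E + 1)).powerset) ×ˢ
      (Finset.range (E + 1)).powerset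
  obtain ⟨D0, hD2, hDl, hDc⟩ : ∃ D0 : ℕ, 2 ≤ D0 ∧ 1 ≤ l * D0 ∧ c ≤ D0 := by
    refine ⟨max 2 (max ⌈1 / l⌉₊ ⌈c⌉₊), le_max_left _ _, ?_, ?_⟩
    · have h : 1 / l ≤ ((max 2 (max ⌈1 / l⌉₊ ⌈c⌉₊) : ℕ) : ℝ) := by
        refine (Nat.le_ceil _).trans ?_
        exact_mod_cast (le_max_left _ _).trans (le_max_right _ _)
      rw [div_le_iff₀ hl] at h
      linarith
    · refine (Nat.le_ceil _).trans ?_
      exact_mod_cast (le_max_right _ _).trans (le_max_right _ _)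
  refine ⟨∑ p ∈ F1, C1 p.1 + ∑ p ∈ F2, C2 p.1 + C3, D0, ?_, fun D hD => ?_⟩
  · have e1 : 0 ≤ ∑ p ∈ F1, C1 p.1 := Finset.sum_nonneg fun p _ => (hC1 _).le
    have e2 : 0 ≤ ∑ p ∈ F2, C2 p.1 := Finset.sum_nonneg fun p _ => (hC2 _).le
    positivity
  have hDR : (D0 : ℝ) ≤ D := by exact_mod_cast hD
  have hD2' : (2 : ℝ) ≤ D0 := by exact_mod_cast hD2
  obtain ⟨L, hL⟩ : ∃ L : ℝ, L = l * D := ⟨_, rfl⟩
  have hL1 : 1 ≤ L := by rw [hL]; nlinarith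
  have hL0 : 0 < L := by linarith
  have hLD : 1 / l * L = D := by rw [hL]; field_simp
  rw [← hL]
  -- the sets
  let W1 : ℕ × (Fin 3 → Finset ℕ) → Set K := fun p =>
    {x : K | (∀ g, p.2 g ⊆ Finset.Icc (Jt p.1) E ∧ (p.2 g).card ≤ m p.1) ∧
      (x ≠ 0 ∧ x ≠ 1 ∧ κf p.1 * L ≤ hgt x ∧ hgt x ≤ 1 / l * L ∧
        ∑ g, rd (grp x g) (lowS (Jt p.1) (p.2 g))ᶜ ≤ 4 * η * L ∧
        ∀ g, (∀ n ∈ p.2 g, rd (grp x g) {n} ≤ max 1 ((Jt p.1 : ℝ) + 1) * L) ∧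
          sz (grp x g) (lowS (Jt p.1) (p.2 g) \ (p.2 g : Set ℕ)) ≤
            max 1 ((Jt p.1 : ℝ) + 1) * L)}
  let W2 : ℕ × Fin 3 × (Fin 3 → Finset ℕ) × Finset ℕ → Set K := fun p =>
    {x : K | ((∀ g, p.2.2.1 g ⊆ Finset.Icc (Jt p.1) E ∧ (p.2.2.1 g).card ≤ m p.1) ∧
        p.2.2.2 ⊆ Finset.Icc (Jt (p.1 + 1)) E) ∧
      (x ≠ 0 ∧ x ≠ 1 ∧ hgt x ≤ 1 / l * L ∧
        ∑ g, rd (grp x g) (if g = p.2.1 then (p.2.2.2 : Set ℕ) else
          (lowS (Jt p.1) (p.2.2.1 g))ᶜ) ≤ (1 / 3 + 6 * η) * L ∧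
        (∀ g, g ≠ p.2.1 → (∀ n ∈ p.2.2.1 g, rd (grp x g) {n} ≤ max 1 ((Jt p.1 : ℝ) + 1) * L) ∧
          sz (grp x g) (lowS (Jt p.1) (p.2.2.1 g) \ (p.2.2.1 g : Set ℕ)) ≤
            max 1 ((Jt p.1 : ℝ) + 1) * L) ∧
        η * L ≤ rd (grp x p.2.1) (p.2.2.2 : Set ℕ) ∧
        ∀ v : HeightOneSpectrum (𝓞 K), 0 < ord v (grp x p.2.1) →
          (ord v (grp x p.2.1)).toNat ∈ (p.2.2.2 : Set ℕ) → ln v ≤ τ (p.1 + 1) * L)}
  let W3 : Set K := {y : K | y ≠ 0 ∧ y ≠ 1 ∧ hgt y ≤ (D : ℝ) ∧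
    ∃ i ∈ I2 E, Φ2 E i y ≤ (1 / 3 + 6 * η) * L}
  have hexp : ∀ θ : ℝ, θ ≤ (1 / 3 + 6 * η) * L →
      Real.exp (θ + ε / 8 * L) ≤ Real.exp ((1 / 3 + ε / 4) * L) := by
    intro θ hθ
    apply Real.exp_le_exp.2
    nlinarith
  have hb1 : ∀ p ∈ F1, ((W1 p).ncard : ℝ) ≤ C1 p.1 * Real.exp ((1 / 3 + ε / 4) * L) := by
    intro p _
    by_cases hp : ∀ g, p.2 g ⊆ Finset.Icc (Jt p.1) E ∧ (p.2 g).card ≤ m p.1
    · have h := h1 p.1 L hL1 (fun g => lowS (Jt p.1) (p.2 g)) p.2 (4 * η * L) (by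
        intro g
        refine ⟨(hp g).2, fun n hn => ⟨(Finset.mem_Icc.1 ((hp g).1 hn)).2, Or.inr ?_⟩⟩
        exact hn)
      have e : W1 p = {x : K | x ≠ 0 ∧ x ≠ 1 ∧ κf p.1 * L ≤ hgt x ∧ hgt x ≤ 1 / l * L ∧
        ∑ g, rd (grp x g) (lowS (Jt p.1) (p.2 g))ᶜ ≤ 4 * η * L ∧
        ∀ g, (∀ n ∈ p.2 g, rd (grp x g) {n} ≤ max 1 ((Jt p.1 : ℝ) + 1) * L) ∧
          sz (grp x g) (lowS (Jt p.1) (p.2 g) \ (p.2 g : Set ℕ)) ≤
            max 1 ((Jt p.1 : ℝ) + 1) * L} := by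
        ext x
        exact ⟨fun h => h.2, fun h => ⟨hp, h⟩⟩
      rw [e]
      refine h.trans (mul_le_mul_of_nonneg_left (hexp _ ?_) (hC1 _).le)
      nlinarith
    · have e : W1 p = ∅ := by
        ext x
        exact ⟨fun h => absurd h.1 hp, fun h => absurd h (Set.notMem_empty x)⟩
      rw [e, Set.ncard_empty, Nat.cast_zero]
      exact mul_nonneg (hC1 _).le (Real.exp_pos _).le
  have hb2 : ∀ p ∈ F2, ((W2 p).ncard : ℝ) ≤ C2 p.1 * Real.exp ((1 / 3 + ε / 4) * L) := by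
    intro p _
    by_cases hp : (∀ g, p.2.2.1 g ⊆ Finset.Icc (Jt p.1) E ∧ (p.2.2.1 g).card ≤ m p.1) ∧
        p.2.2.2 ⊆ Finset.Icc (Jt (p.1 + 1)) E
    · have h := h2 p.1 L hL1 p.2.1 (fun g => lowS (Jt p.1) (p.2.2.1 g)) (p.2.2.2 : Set ℕ)
        p.2.2.1 ((1 / 3 + 6 * η) * L) (by
          intro g _
          refine ⟨(hp.1 g).2, fun n hn => ⟨(Finset.mem_Icc.1 ((hp.1 g).1 hn)).2, Or.inr ?_⟩⟩
          exact hn) (by
          intro n hn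
          exact (Finset.mem_Icc.1 (hp.2 hn)).1)
      have e : W2 p = {x : K | x ≠ 0 ∧ x ≠ 1 ∧ hgt x ≤ 1 / l * L ∧
        ∑ g, rd (grp x g) (if g = p.2.1 then (p.2.2.2 : Set ℕ) else
          (lowS (Jt p.1) (p.2.2.1 g))ᶜ) ≤ (1 / 3 + 6 * η) * L ∧
        (∀ g, g ≠ p.2.1 → (∀ n ∈ p.2.2.1 g, rd (grp x g) {n} ≤ max 1 ((Jt p.1 : ℝ) + 1) * L) ∧
          sz (grp x g) (lowS (Jt p.1) (p.2.2.1 g) \ (p.2.2.1 g : Set ℕ)) ≤
            max 1 ((Jt p.1 : ℝ) + 1) * L) ∧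
        η * L ≤ rd (grp x p.2.1) (p.2.2.2 : Set ℕ) ∧
        ∀ v : HeightOneSpectrum (𝓞 K), 0 < ord v (grp x p.2.1) →
          (ord v (grp x p.2.1)).toNat ∈ (p.2.2.2 : Set ℕ) → ln v ≤ τ (p.1 + 1) * L} := by
        ext x
        exact ⟨fun h => h.2, fun h => ⟨hp, h⟩⟩
      rw [e]
      exact h.trans (mul_le_mul_of_nonneg_left (hexp _ le_rfl) (hC2 _).le)
    · have e : W2 p = ∅ := by
        ext x
        exact ⟨fun h => absurd h.1 hp, fun h => absurd h (Set.notMem_empty x)⟩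
      rw [e, Set.ncard_empty, Nat.cast_zero]
      exact mul_nonneg (hC2 _).le (Real.exp_pos _).le
  have hb3 : (W3.ncard : ℝ) ≤ C3 * Real.exp ((1 / 3 + ε / 4) * L) := by
    have h := h3 (D : ℝ) ((1 / 3 + 6 * η) * L) (Nat.cast_nonneg _)
    refine h.trans (mul_le_mul_of_nonneg_left ?_ hC3.le)
    have e : ε * l / 8 * (D : ℝ) = ε / 8 * L := by rw [hL]; ring
    rw [e]
    exact hexp _ le_rfl
  -- the cover
  let F : Finset (Option (ℕ × (Fin 3 → Finset ℕ) ⊕ ℕ × Fin 3 × (Fin 3 → Finset ℕ) × Finset ℕ)) :=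
    Finset.insertNone (F1.disjSum F2)
  let W : Option (ℕ × (Fin 3 → Finset ℕ) ⊕ ℕ × Fin 3 × (Fin 3 → Finset ℕ) × Finset ℕ) → Set K :=
    fun o => Option.elim o W3 (Sum.elim W1 W2)
  have hWfin : ∀ p ∈ F, (W p).Finite := by
    rintro (_ | p | p) _
    · exact FinalA_fin K D _ fun x hx => hx.2.2.1
    · exact FinalA_fin K (1 / l * L) _ fun x hx => hx.2.2.2.2.1
    · exact FinalA_fin K (1 / l * L) _ fun x hx => hx.2.2.2.1
  have hcov : ∀ x ∈ FinalA_Z K l D, ∃ p ∈ F, x ∈ W p := by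
    rintro x ⟨hx, hx1, hxD1, hxD, hR⟩
    have hg0 := hgt_nonneg x
    have hRL : RR x ≤ L := by
      rw [hL]
      exact hR.trans (mul_le_mul_of_nonneg_left hxD hl.le)
    have hEb : 3 * hh x / (E + 1) ≤ η * L := by
      rw [div_le_iff₀ (by positivity)]
      have h4 : hh x = hgt x + c := by rw [hc]; rfl
      have h5 : hh x ≤ 2 * D := by rw [h4]; linarith
      have h6 : 6 * (D : ℝ) ≤ η * l * (E + 1) * D :=
        mul_le_mul_of_nonneg_right hE3 (Nat.cast_nonneg _)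
      have h7 : η * L * (E + 1) = η * l * (E + 1) * D := by rw [hL]; ring
      rw [h7]
      linarith
    have hlow : ∀ i < 4, κf i * L ≤ hgt x := by
      intro i hi
      have h4 : κf i * L ≤ κ0 * L := mul_le_mul_of_nonneg_right (hκle i hi) hL0.le
      have h5 : 4 * (κ0 * L) ≤ D := by
        have h6 : 4 * (κ0 * L) = 4 * κ0 * l * D := by rw [hL]; ring
        rw [h6]
        calc 4 * κ0 * l * (D : ℝ) ≤ 1 * D := mul_le_mul_of_nonneg_right hl2 (Nat.cast_nonneg _)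
          _ = D := one_mul _
      linarith
    have hC1L : ∀ i, L ≤ max 1 ((Jt i : ℝ) + 1) * L := by
      intro i
      calc L = 1 * L := (one_mul L).symm
        _ ≤ max 1 ((Jt i : ℝ) + 1) * L := mul_le_mul_of_nonneg_right (le_max_left _ _) hL0.le
    have hC1J : ∀ i, (Jt i : ℝ) * L ≤ max 1 ((Jt i : ℝ) + 1) * L := by
      intro i
      refine mul_le_mul_of_nonneg_right ?_ hL0.le
      exact le_trans (by linarith) (le_max_right _ _)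
    have hsubE : ∀ (a : ℕ) (T : Finset ℕ), T ⊆ Finset.Icc a E → T ∈ (Finset.range (E + 1)).powerset := by
      intro a T hT
      rw [Finset.mem_powerset]
      intro n hn
      rw [Finset.mem_range, Nat.lt_succ_iff]
      exact (Finset.mem_Icc.1 (hT hn)).2
    rcases cover_a hx hx1 hL0 hη hRL hEb τ Jt m hτ0.le hJ0' hch hE1 with
      ⟨i, hi, S, hS, hsum, hsz⟩ | ⟨i, hi, cc, S, M, hS, hM, hsum, hsz, hηM, hτM⟩ | ⟨i, hi, hcost⟩
    · refine ⟨some (Sum.inl (i, S)), ?_, ?_⟩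
      · simp only [F, Finset.some_mem_insertNone, Finset.inl_mem_disjSum, F1, Finset.mem_product,
          Finset.mem_range, Fintype.mem_piFinset]
        exact ⟨hi, fun g => hsubE _ _ (hS g).1⟩
      · refine ⟨hS, hx, hx1, hlow i hi, ?_, hsum, fun g => ⟨fun n hn => ?_, ?_⟩⟩
        · rw [hLD]; exact hxD
        · exact ((hsz g).1 n hn).trans (hC1L i)
        · exact (hsz g).2.trans (hC1J i)
    · refine ⟨some (Sum.inr (i, cc, S, M)), ?_, ?_⟩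
      · simp only [F, Finset.some_mem_insertNone, Finset.inr_mem_disjSum, F2, Finset.mem_product,
          Finset.mem_range, Fintype.mem_piFinset, Finset.mem_univ, true_and]
        exact ⟨hi, fun g => hsubE _ _ (hS g).1, hsubE _ _ hM⟩
      · refine ⟨⟨hS, hM⟩, hx, hx1, ?_, hsum, fun g _ => ⟨fun n hn => ?_, ?_⟩, hηM, ?_⟩
        · rw [hLD]; exact hxD
        · exact ((hsz g).1 n hn).trans (hC1L i)
        · exact (hsz g).2.trans (hC1J i)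
        · intro v hv hvM
          exact (ln_le_rd (grp_ne_zero hx hx1 cc) hv).trans (hτM _ hvM)
    · refine ⟨none, ?_, ?_⟩
      · simp only [F, Finset.none_mem_insertNone]
      · exact ⟨hx, hx1, hxD, i, hi, hcost⟩
  have hfinal := FinalA_cover (FinalA_Z K l D) F W hWfin hcov
  refine hfinal.trans ?_
  simp only [F, Finset.sum_insertNone, Finset.sum_disjSum]
  have e1 : ∑ p ∈ F1, ((W (some (Sum.inl p))).ncard : ℝ) ≤
      (∑ p ∈ F1, C1 p.1) * Real.exp ((1 / 3 + ε / 4) * L) := by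
    rw [Finset.sum_mul]
    exact Finset.sum_le_sum hb1
  have e2 : ∑ p ∈ F2, ((W (some (Sum.inr p))).ncard : ℝ) ≤
      (∑ p ∈ F2, C2 p.1) * Real.exp ((1 / 3 + ε / 4) * L) := by
    rw [Finset.sum_mul]
    exact Finset.sum_le_sum hb2
  have e3 : ((W none).ncard : ℝ) ≤ C3 * Real.exp ((1 / 3 + ε / 4) * L) := hb3
  rw [add_mul, add_mul]
  linarith

/-- The number of exceptions for large `κ = 1 / l`. -/
theorem countA (K : Type*) [Field K] [NumberField K] {ε : ℝ} (hε : 0 < ε) :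
    ∃ l0 : ℝ, 0 < l0 ∧ ∀ l : ℝ, 0 < l → l ≤ l0 → ∃ C : ℝ, 0 < C ∧ ∀ Y : ℝ, 0 ≤ Y →
      ((Exc K l Y).ncard : ℝ) ≤ C * Real.exp ((1 / 3 + ε) * l * Y) := by
  classical
  obtain ⟨l0, hl0, hcell⟩ := FinalA_cell K hε
  refine ⟨l0, hl0, fun l hl hll => ?_⟩
  obtain ⟨C, D0, hC, hb⟩ := hcell l hl hll
  obtain ⟨C', hC'⟩ : ∃ C' : ℝ, C' = C + ∑ D ∈ Finset.range D0, ((FinalA_Z K l D).ncard : ℝ) :=
    ⟨_, rfl⟩
  have hs0 : 0 ≤ ∑ D ∈ Finset.range D0, ((FinalA_Z K l D).ncard : ℝ) :=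
    Finset.sum_nonneg fun _ _ => Nat.cast_nonneg _
  have hC'0 : 0 < C' := by rw [hC']; linarith
  have hall : ∀ D : ℕ, ((FinalA_Z K l D).ncard : ℝ) ≤
      C' * Real.exp ((1 / 3 + ε / 4) * (l * D)) := by
    intro D
    by_cases hD : D0 ≤ D
    · refine (hb D hD).trans (mul_le_mul_of_nonneg_right ?_ (Real.exp_pos _).le)
      rw [hC']; linarith
    · have h1 : ((FinalA_Z K l D).ncard : ℝ) ≤ C' := by
        rw [hC']
        have := Finset.single_le_sum (f := fun D => ((FinalA_Z K l D).ncard : ℝ))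
          (fun _ _ => Nat.cast_nonneg _) (Finset.mem_range.2 (not_le.1 hD))
        linarith
      have h2 : 1 ≤ Real.exp ((1 / 3 + ε / 4) * (l * D)) := by
        apply Real.one_le_exp
        positivity
      calc ((FinalA_Z K l D).ncard : ℝ) ≤ C' * 1 := by rw [mul_one]; exact h1
        _ ≤ _ := mul_le_mul_of_nonneg_left h2 hC'0.le
  obtain ⟨CP, hCP, hP⟩ := tc_poly_le_exp 1 2 (by norm_num) (show 0 < 3 * ε / 4 * l by positivity)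
  refine ⟨CP * (C' * Real.exp ((1 / 3 + ε / 4) * l)), by positivity, fun Y hY => ?_⟩
  have hcov : ∀ x ∈ Exc K l Y, ∃ D ∈ Finset.range (⌈Y⌉₊ + 1), x ∈ FinalA_Z K l D := by
    rintro x ⟨hx, hx1, hxY, hR⟩
    refine ⟨⌈hgt x⌉₊, ?_, hx, hx1, ?_, Nat.le_ceil _, hR⟩
    · rw [Finset.mem_range, Nat.lt_succ_iff]
      exact Nat.ceil_mono hxY
    · have := Nat.ceil_lt_add_one (hgt_nonneg x)
      linarith
  have h1 := FinalA_cover (Exc K l Y) (Finset.range (⌈Y⌉₊ + 1)) (FinalA_Z K l)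
    (fun D _ => FinalA_fin K D _ fun x hx => hx.2.2.2.1) hcov
  have hN : (⌈Y⌉₊ : ℝ) ≤ Y + 1 := (Nat.ceil_lt_add_one hY).le
  have h2 : ∀ D ∈ Finset.range (⌈Y⌉₊ + 1), ((FinalA_Z K l D).ncard : ℝ) ≤
      C' * Real.exp ((1 / 3 + ε / 4) * (l * (Y + 1))) := by
    intro D hD
    refine (hall D).trans (mul_le_mul_of_nonneg_left (Real.exp_le_exp.2 ?_) hC'0.le)
    have h3 : (D : ℝ) ≤ ⌈Y⌉₊ := by exact_mod_cast Nat.lt_succ_iff.1 (Finset.mem_range.1 hD)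
    refine mul_le_mul_of_nonneg_left (mul_le_mul_of_nonneg_left (h3.trans hN) hl.le) (by positivity)
  have h3 := hP Y hY
  rw [pow_one] at h3
  calc ((Exc K l Y).ncard : ℝ) ≤ _ := h1
    _ ≤ ∑ D ∈ Finset.range (⌈Y⌉₊ + 1), C' * Real.exp ((1 / 3 + ε / 4) * (l * (Y + 1))) :=
        Finset.sum_le_sum h2
    _ = ((⌈Y⌉₊ : ℝ) + 1) * (C' * Real.exp ((1 / 3 + ε / 4) * (l * (Y + 1)))) := by
        rw [Finset.sum_const, Finset.card_range, nsmul_eq_mul]; push_cast; ring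
    _ ≤ (CP * Real.exp (3 * ε / 4 * l * Y)) *
          (C' * Real.exp ((1 / 3 + ε / 4) * (l * (Y + 1)))) := by
        refine mul_le_mul_of_nonneg_right (le_trans ?_ h3) (by positivity)
        linarith
    _ = _ := by
        have e1 : Real.exp ((1 / 3 + ε / 4) * (l * (Y + 1))) =
            Real.exp ((1 / 3 + ε / 4) * l * Y) * Real.exp ((1 / 3 + ε / 4) * l) := by
          rw [← Real.exp_add]; congr 1; ring
        have e2 : Real.exp ((1 / 3 + ε) * l * Y) =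
            Real.exp ((1 / 3 + ε / 4) * l * Y) * Real.exp (3 * ε / 4 * l * Y) := by
          rw [← Real.exp_add]; congr 1; ring
        rw [e1, e2]; ring

end Pool.Agent.MVD
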