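import Pool.Agent.MVD.CoverC
import Pool.Agent.MVD.CountG1
import Pool.Agent.MVD.CountG2

/-!
# Module FinalG (size 5)

Replace `C1` by `max C1 0` (the set only grows). `η = min (1/100) (ε/100)`. `tss_countG K (Fin n) C1 (ε/8) η` gives `δ, J`; `τ = min δ η`, `m = ⌈1/τ⌉₊`; `ts_countG K (Fin n) m (max C1 (J + 1)) (ε/8)` gives `κ0`. `l0 = min 1 (1/(4 κ0))`. Fix `0 < l ≤ l0`; `E` with `J ≤ E`, `6 / (E+1) ≤ η l`.
For natural `D ≥ D0` (`D0 ≥ 2`, `l D0 ≥ 1`, `D0 ≥ d log 2`) put `L = l D`, `Z_D` = the elements of the set with `D - 1 ≤ hgt x ≤ D`, `κ1 = max (1/l) (1 + 4/(l log 2))`-like, so that `hgt x ≤ κ1 L` and `1 + hgt (grp x g)/log 2 ≤ κ1 L` (`grp_hgt_le`, `hh x ≤ 2 D`). For `x ∈ Z_D` with the witness `c` and exponents: by `dec_bound` the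
exponents can be taken between 1 and `κ1 L` (for `g = c` take all of them 1); `Dec` is monotone in the bound: `C1 * (l * hgt x) ≤ C1 * L`. The number of functions `p : Fin 3 → Fin n → {1, …, ⌊κ1 L⌋}` is polynomial in `D`: `tc_poly_le_exp` (`ε/8 * l`). `cover_c` (`3 hh x / (E+1) ≤ 6 D/(E+1) ≤ η L`) gives one of the sets of `ts_countG` (`A = lowS J S`, `θ = 2 η L`,
`S ∈ (Icc J E).powerset`) or of `tss_countG` (`M = N`, `θ = (η + τ) L`, `ln_le_rd` for the condition on `ln v`). So `Z_D.ncard ≤ C' exp (ε/2 l D)` for `D ≥ D0`; Northcott for `D < D0`; sum over `D ≤ ⌈Y⌉` as in `FinalA` (look at its proof, or `FinalB`).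
-/

namespace Pool.Agent.MVD

open NumberField IsDedekindDomain Pool.Agent.H7.Abc Pool.Agent.AbcE Pool.Agent.AbcF

private theorem FinalG_cover {α ι : Type*} (Z : Set α) (F : Finset ι) (W : ι → Set α)
    (hW : ∀ p ∈ F, (W p).Finite) (hZ : ∀ x ∈ Z, ∃ p ∈ F, x ∈ W p) :
    (Z.ncard : ℝ) ≤ ∑ p ∈ F, ((W p).ncard : ℝ) := by
  classical
  have h1 : ∀ F : Finset ι, (⋃ p ∈ F, W p).ncard ≤ ∑ p ∈ F, (W p).ncard := by
    intro F
    induction F using Finset.induction_on with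
    | empty => simp
    | insert a s ha ih =>
      rw [Finset.set_biUnion_insert, Finset.sum_insert ha]
      exact (Set.ncard_union_le _ _).trans (Nat.add_le_add_left ih _)
  have hfin : (⋃ p ∈ F, W p).Finite := F.finite_toSet.biUnion hW
  have hsub : Z ⊆ ⋃ p ∈ F, W p := by
    intro x hx
    obtain ⟨p, hp, hxp⟩ := hZ x hx
    exact Set.mem_biUnion hp hxp
  have h2 := (Set.ncard_le_ncard hsub hfin).trans (h1 F)
  exact_mod_cast h2

private def FinalG_Z (K : Type*) [Field K] [NumberField K] (n : ℕ) (C1 l : ℝ) (D : ℕ) : Set K :=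
  {x : K | x ≠ 0 ∧ x ≠ 1 ∧ (D : ℝ) - 1 ≤ hgt x ∧ hgt x ≤ D ∧ RR x ≤ l * hgt x ∧
    ∃ c : Fin 3, ∀ g, g ≠ c → ∃ p : Fin n → ℕ, (∀ i, 1 ≤ p i) ∧
      Dec (grp x g) p (C1 * (l * hgt x))}

private theorem FinalG_fin (K : Type*) [Field K] [NumberField K] (Y : ℝ) (P : K → Prop)
    (h : ∀ x, P x → hgt x ≤ Y) : {x : K | P x}.Finite := by
  refine (NumberField.finite_setOfPred_logHeight₁_le K Y).subset ?_
  intro x hx
  have := h x hx
  rw [hgt_eq] at this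
  exact this

private theorem FinalG_mono {K : Type*} [Field K] [NumberField K] {x : K} {ι : Type} [Fintype ι]
    {p : ι → ℕ} {X X' : ℝ} (h : Dec x p X) (hX : X ≤ X') : Dec x p X' := by
  obtain ⟨D, h1, h2⟩ := h
  exact ⟨D, fun i => (h1 i).trans hX, h2⟩

private theorem FinalG_cell (K : Type*) [Field K] [NumberField K] (n : ℕ) {C1 : ℝ} (hC1 : 0 ≤ C1)
    {ε : ℝ} (hε : 0 < ε) :
    ∃ l0 : ℝ, 0 < l0 ∧ ∀ l : ℝ, 0 < l → l ≤ l0 → ∃ (C : ℝ) (D0 : ℕ), 0 < C ∧ ∀ D : ℕ, D0 ≤ D →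
      ((FinalG_Z K n C1 l D).ncard : ℝ) ≤ C * Real.exp (ε / 2 * (l * D)) := by
  classical
  obtain ⟨η, hηdef⟩ : ∃ η : ℝ, η = min (1 / 100) (ε / 100) := ⟨_, rfl⟩
  have hη : 0 < η := by rw [hηdef]; positivity
  have hη1 : η ≤ 1 / 100 := by rw [hηdef]; exact min_le_left _ _
  have hη2 : η ≤ ε / 100 := by rw [hηdef]; exact min_le_right _ _
  obtain ⟨δ, hδ, J, hJ1, htss⟩ := tss_countG K (Fin n) C1 (ε / 8) η hC1 (by positivity) hη
  obtain ⟨τ, hτdef⟩ : ∃ τ : ℝ, τ = min δ η := ⟨_, rfl⟩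
  have hτ : 0 < τ := by rw [hτdef]; exact lt_min hδ hη
  have hτδ : τ ≤ δ := by rw [hτdef]; exact min_le_left _ _
  have hτη : τ ≤ η := by rw [hτdef]; exact min_le_right _ _
  obtain ⟨m, hm⟩ : ∃ m : ℕ, 1 ≤ τ * m := by
    refine ⟨⌈1 / τ⌉₊, ?_⟩
    have h := Nat.le_ceil (1 / τ)
    rw [div_le_iff₀ hτ] at h
    linarith
  obtain ⟨C2, hC2⟩ : ∃ C2 : ℝ, C2 = max C1 ((J : ℝ) + 1) := ⟨_, rfl⟩
  have hC21 : C1 ≤ C2 := by rw [hC2]; exact le_max_left _ _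
  have hC2J : (J : ℝ) + 1 ≤ C2 := by rw [hC2]; exact le_max_right _ _
  have hC20 : 0 ≤ C2 := hC1.trans hC21
  obtain ⟨κ0, hκ01, hts⟩ := ts_countG K (Fin n) m C2 (ε / 8) hC20 (by positivity)
  refine ⟨min 1 (1 / (4 * κ0)), by positivity, fun l hl hl0 => ?_⟩
  have hl1 : l ≤ 1 := hl0.trans (min_le_left _ _)
  have hl2 : 4 * κ0 * l ≤ 1 := by
    have h := hl0.trans (min_le_right _ _)
    rw [le_div_iff₀ (by positivity)] at h
    linarith
  obtain ⟨c0, hc⟩ : ∃ c : ℝ, c = Module.finrank ℚ K * Real.log 2 := ⟨_, rfl⟩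
  have hc0 : 0 ≤ c0 := by rw [hc]; positivity
  obtain ⟨E, hE1, hE2⟩ : ∃ E : ℕ, J ≤ E ∧ 6 / (η * l) ≤ E := by
    refine ⟨max J ⌈6 / (η * l)⌉₊, le_max_left _ _, ?_⟩
    exact (Nat.le_ceil _).trans (by exact_mod_cast le_max_right _ _)
  have hE3 : 6 ≤ η * l * (E + 1) := by
    rw [div_le_iff₀ (by positivity)] at hE2
    nlinarith [mul_pos hη hl]
  have hlog : 0 < Real.log 2 := Real.log_pos (by norm_num)
  obtain ⟨κ1, hκ1⟩ : ∃ κ1 : ℝ, κ1 = 1 / l + 1 + 2 / (l * Real.log 2) := ⟨_, rfl⟩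
  have hκ1p : 0 < κ1 := by rw [hκ1]; positivity
  obtain ⟨A1, hA1, h1⟩ := hts κ1 E
  obtain ⟨A2, hA2, h2⟩ := htss κ1
  obtain ⟨CP, hCP, hP⟩ := tc_poly_le_exp (3 * n) 0 le_rfl (show 0 < ε / 8 / κ1 by positivity)
  obtain ⟨D0, hD2, hDl, hDc⟩ : ∃ D0 : ℕ, 2 ≤ D0 ∧ 1 ≤ l * D0 ∧ c0 ≤ D0 := by
    refine ⟨max 2 (max ⌈1 / l⌉₊ ⌈c0⌉₊), le_max_left _ _, ?_, ?_⟩
    · have h : 1 / l ≤ ((max 2 (max ⌈1 / l⌉₊ ⌈c0⌉₊) : ℕ) : ℝ) := by
        refine (Nat.le_ceil _).trans ?_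
        exact_mod_cast (le_max_left _ _).trans (le_max_right _ _)
      rw [div_le_iff₀ hl] at h
      linarith
    · refine (Nat.le_ceil _).trans ?_
      exact_mod_cast (le_max_right _ _).trans (le_max_right _ _)
  refine ⟨3 * 2 ^ (E + 1) * CP * (A1 + A2), D0, by positivity, fun D hD => ?_⟩
  have hDR : (D0 : ℝ) ≤ D := by exact_mod_cast hD
  have hD2' : (2 : ℝ) ≤ D0 := by exact_mod_cast hD2
  obtain ⟨L, hL⟩ : ∃ L : ℝ, L = l * D := ⟨_, rfl⟩
  have hL1 : 1 ≤ L := by rw [hL]; nlinarith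
  have hL0 : 0 < L := by linarith
  have hD0 : (0 : ℝ) < D := by linarith
  have hκL : κ1 * L = D + L + 2 * D / Real.log 2 := by
    rw [hκ1, hL]; field_simp
  have hκD : (D : ℝ) ≤ κ1 * L := by
    rw [hκL]
    have : 0 ≤ 2 * (D : ℝ) / Real.log 2 := by positivity
    linarith
  rw [← hL]
  obtain ⟨P, hPdef⟩ : ∃ P : ℕ, P = ⌊κ1 * L⌋₊ := ⟨_, rfl⟩
  have hκLn : 0 ≤ κ1 * L := by positivity
  have hPle : (P : ℝ) ≤ κ1 * L := by rw [hPdef]; exact Nat.floor_le hκLn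
  -- the index sets
  let FP : Finset (Fin 3 → Fin n → ℕ) :=
    Fintype.piFinset fun _ => Fintype.piFinset fun _ => Finset.Icc 1 P
  let F0 : Finset (Fin 3 × Finset ℕ × (Fin 3 → Fin n → ℕ)) :=
    Finset.univ ×ˢ (Finset.range (E + 1)).powerset ×ˢ FP
  have hFP : ∀ p ∈ FP, ∀ g i, 1 ≤ p g i ∧ (p g i : ℝ) ≤ κ1 * L := by
    intro p hp g i
    have h3 := Finset.mem_Icc.1 (Fintype.mem_piFinset.1 (Fintype.mem_piFinset.1 hp g) i)
    exact ⟨h3.1, le_trans (by exact_mod_cast h3.2) hPle⟩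
  have hcardP : (FP.card : ℝ) ≤ CP * Real.exp (ε / 8 * L) := by
    have e1 : FP.card = P ^ (3 * n) := by
      simp only [FP, Fintype.card_piFinset, Nat.card_Icc, Nat.add_sub_cancel, Finset.prod_const,
        Finset.card_univ, Fintype.card_fin]
      rw [← pow_mul]
      congr 1
      ring
    rw [e1]
    push_cast
    have e2 := hP (κ1 * L) hκLn
    have e3 : ε / 8 / κ1 * (κ1 * L) = ε / 8 * L := by field_simp
    rw [e3] at e2
    refine le_trans ?_ e2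
    apply pow_le_pow_left₀ (Nat.cast_nonneg _)
    linarith
  have hcard0 : (F0.card : ℝ) ≤ 3 * 2 ^ (E + 1) * (CP * Real.exp (ε / 8 * L)) := by
    have e1 : F0.card = 3 * (2 ^ (E + 1) * FP.card) := by
      simp only [F0, Finset.card_product, Finset.card_univ, Fintype.card_fin,
        Finset.card_powerset, Finset.card_range]
    rw [e1]
    push_cast
    calc (3 : ℝ) * (2 ^ (E + 1) * FP.card) = 3 * 2 ^ (E + 1) * FP.card := by ring
      _ ≤ _ := mul_le_mul_of_nonneg_left hcardP (by positivity)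
  -- the sets
  let W1 : Fin 3 × Finset ℕ × (Fin 3 → Fin n → ℕ) → Set K := fun q =>
    {x : K | (q.2.1 ⊆ Finset.Icc J E ∧ q.2.1.card ≤ m) ∧
      (x ≠ 0 ∧ x ≠ 1 ∧ κ0 * L ≤ hgt x ∧ hgt x ≤ κ1 * L ∧
        rd (grp x q.1) (lowS J q.2.1)ᶜ ≤ 2 * η * L ∧
        (∀ k ∈ q.2.1, rd (grp x q.1) {k} ≤ C2 * L) ∧
        sz (grp x q.1) (lowS J q.2.1 \ (q.2.1 : Set ℕ)) ≤ C2 * L ∧
        ∀ g, g ≠ q.1 → Dec (grp x g) (q.2.2 g) (C2 * L))}
  let W2 : Fin 3 × Finset ℕ × (Fin 3 → Fin n → ℕ) → Set K := fun q =>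
    {x : K | (q.2.1 ⊆ Finset.Icc J E) ∧
      (x ≠ 0 ∧ x ≠ 1 ∧ hgt x ≤ κ1 * L ∧ rd (grp x q.1) (q.2.1 : Set ℕ) ≤ (η + τ) * L ∧
        (∀ g, g ≠ q.1 → Dec (grp x g) (q.2.2 g) (C1 * L)) ∧
        η * L ≤ rd (grp x q.1) (q.2.1 : Set ℕ) ∧
        ∀ v : HeightOneSpectrum (𝓞 K), 0 < ord v (grp x q.1) →
          (ord v (grp x q.1)).toNat ∈ (q.2.1 : Set ℕ) → ln v ≤ δ * L)}
  have hexp : ∀ θ : ℝ, θ ≤ 2 * η * L →
      Real.exp (θ + ε / 8 * L) ≤ Real.exp (ε / 4 * L) := by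
    intro θ hθ
    apply Real.exp_le_exp.2
    nlinarith
  have hb1 : ∀ q ∈ F0, ((W1 q).ncard : ℝ) ≤ A1 * Real.exp (ε / 4 * L) := by
    intro q hq
    simp only [F0, Finset.mem_product, Finset.mem_univ, true_and] at hq
    by_cases hp : q.2.1 ⊆ Finset.Icc J E ∧ q.2.1.card ≤ m
    · have h := h1 L hL1 q.1 (lowS J q.2.1) q.2.1 q.2.2 (2 * η * L) hp.2 (by
        intro k hk
        refine ⟨(Finset.mem_Icc.1 (hp.1 hk)).2, Or.inr ?_⟩
        exact hk) (fun g i => (hFP _ hq.2 g i).2)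
      have e : W1 q = {x : K | x ≠ 0 ∧ x ≠ 1 ∧ κ0 * L ≤ hgt x ∧ hgt x ≤ κ1 * L ∧
        rd (grp x q.1) (lowS J q.2.1)ᶜ ≤ 2 * η * L ∧
        (∀ k ∈ q.2.1, rd (grp x q.1) {k} ≤ C2 * L) ∧
        sz (grp x q.1) (lowS J q.2.1 \ (q.2.1 : Set ℕ)) ≤ C2 * L ∧
        ∀ g, g ≠ q.1 → Dec (grp x g) (q.2.2 g) (C2 * L)} := by
        ext x
        exact ⟨fun h => h.2, fun h => ⟨hp, h⟩⟩
      rw [e]
      exact h.trans (mul_le_mul_of_nonneg_left (hexp _ le_rfl) hA1.le)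
    · have e : W1 q = ∅ := by
        ext x
        exact ⟨fun h => absurd h.1 hp, fun h => absurd h (Set.notMem_empty x)⟩
      rw [e, Set.ncard_empty, Nat.cast_zero]
      exact mul_nonneg hA1.le (Real.exp_pos _).le
  have hb2 : ∀ q ∈ F0, ((W2 q).ncard : ℝ) ≤ A2 * Real.exp (ε / 4 * L) := by
    intro q hq
    simp only [F0, Finset.mem_product, Finset.mem_univ, true_and] at hq
    by_cases hp : q.2.1 ⊆ Finset.Icc J E
    · have h := h2 L hL1 q.1 (q.2.1 : Set ℕ) q.2.2 ((η + τ) * L) (by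
        intro k hk
        exact (Finset.mem_Icc.1 (hp hk)).1) (fun g i => hFP _ hq.2 g i)
      have e : W2 q = {x : K | x ≠ 0 ∧ x ≠ 1 ∧ hgt x ≤ κ1 * L ∧
        rd (grp x q.1) (q.2.1 : Set ℕ) ≤ (η + τ) * L ∧
        (∀ g, g ≠ q.1 → Dec (grp x g) (q.2.2 g) (C1 * L)) ∧
        η * L ≤ rd (grp x q.1) (q.2.1 : Set ℕ) ∧
        ∀ v : HeightOneSpectrum (𝓞 K), 0 < ord v (grp x q.1) →
          (ord v (grp x q.1)).toNat ∈ (q.2.1 : Set ℕ) → ln v ≤ δ * L} := by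
        ext x
        exact ⟨fun h => h.2, fun h => ⟨hp, h⟩⟩
      rw [e]
      refine h.trans (mul_le_mul_of_nonneg_left (hexp _ ?_) hA2.le)
      nlinarith
    · have e : W2 q = ∅ := by
        ext x
        exact ⟨fun h => absurd h.1 hp, fun h => absurd h (Set.notMem_empty x)⟩
      rw [e, Set.ncard_empty, Nat.cast_zero]
      exact mul_nonneg hA2.le (Real.exp_pos _).le
  -- the cover
  let W : (Fin 3 × Finset ℕ × (Fin 3 → Fin n → ℕ)) ⊕ (Fin 3 × Finset ℕ × (Fin 3 → Fin n → ℕ)) →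
    Set K := Sum.elim W1 W2
  have hWfin : ∀ p ∈ F0.disjSum F0, (W p).Finite := by
    rintro (q | q) _
    · exact FinalG_fin K (κ1 * L) _ fun x hx => hx.2.2.2.2.1
    · exact FinalG_fin K (κ1 * L) _ fun x hx => hx.2.2.2.1
  have hcov : ∀ x ∈ FinalG_Z K n C1 l D, ∃ p ∈ F0.disjSum F0, x ∈ W p := by
    rintro x ⟨hx, hx1, hxD1, hxD, hR, c, hdec⟩
    have hg0 := hgt_nonneg x
    have hRL : RR x ≤ L := by
      rw [hL]
      exact hR.trans (mul_le_mul_of_nonneg_left hxD hl.le)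
    have hh2 : hh x ≤ 2 * D := by
      have h4 : hh x = hgt x + c0 := by rw [hc]; rfl
      rw [h4]; linarith
    have hEb : 3 * hh x / (E + 1) ≤ η * L := by
      rw [div_le_iff₀ (by positivity)]
      have h6 : 6 * (D : ℝ) ≤ η * l * (E + 1) * D :=
        mul_le_mul_of_nonneg_right hE3 (Nat.cast_nonneg _)
      have h7 : η * L * (E + 1) = η * l * (E + 1) * D := by rw [hL]; ring
      rw [h7]
      linarith
    have hlow : κ0 * L ≤ hgt x := by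
      have h5 : 4 * (κ0 * L) ≤ D := by
        have h6 : 4 * (κ0 * L) = 4 * κ0 * l * D := by rw [hL]; ring
        rw [h6]
        calc 4 * κ0 * l * (D : ℝ) ≤ 1 * D := mul_le_mul_of_nonneg_right hl2 (Nat.cast_nonneg _)
          _ = D := one_mul _
      linarith
    have hlh : l * hgt x ≤ L := by rw [hL]; exact mul_le_mul_of_nonneg_left hxD hl.le
    -- exponents
    have hp' : ∀ g, ∃ p : Fin n → ℕ, (∀ i, 1 ≤ p i ∧ (p i : ℝ) ≤ κ1 * L) ∧
        (g ≠ c → Dec (grp x g) p (C1 * L)) := by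
      intro g
      by_cases hg : g = c
      · refine ⟨fun _ => 1, fun i => ⟨le_rfl, ?_⟩, fun h => absurd hg h⟩
        rw [Nat.cast_one]
        have : (0 : ℝ) ≤ 2 * (D : ℝ) / Real.log 2 := by positivity
        linarith
      · obtain ⟨p, hp1, hpd⟩ := hdec g hg
        obtain ⟨p', hp'1, hp'd⟩ := dec_bound (grp_ne_zero hx hx1 g) hpd hp1
        refine ⟨p', fun i => ⟨(hp'1 i).1, (hp'1 i).2.trans ?_⟩, fun _ => ?_⟩
        · have e1 : hgt (grp x g) ≤ 2 * D := (grp_hgt_le g).trans hh2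
          have e2 : hgt (grp x g) / Real.log 2 ≤ 2 * D / Real.log 2 :=
            div_le_div_of_nonneg_right e1 hlog.le
          rw [hκL]
          linarith
        · exact FinalG_mono hp'd (mul_le_mul_of_nonneg_left hlh hC1)
    choose p hpb hpd using hp'
    have hpF : p ∈ FP := by
      simp only [FP, Fintype.mem_piFinset, Finset.mem_Icc]
      intro g i
      refine ⟨(hpb g i).1, ?_⟩
      rw [hPdef]
      exact Nat.le_floor (hpb g i).2
    have hsubE : ∀ T : Finset ℕ, T ⊆ Finset.Icc J E → T ∈ (Finset.range (E + 1)).powerset := by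
      intro T hT
      rw [Finset.mem_powerset]
      intro k hk
      rw [Finset.mem_range, Nat.lt_succ_iff]
      exact (Finset.mem_Icc.1 (hT hk)).2
    have hLC : L ≤ C2 * L := by
      have : (0 : ℝ) ≤ J := Nat.cast_nonneg _
      nlinarith
    have hJC : (J : ℝ) * L ≤ C2 * L := mul_le_mul_of_nonneg_right (by linarith) hL0.le
    rcases cover_c hx hx1 hL0 hη hτ hRL hm hE1 hEb c with
      ⟨S, hS, hSm, hsum, hrd, hsz⟩ | ⟨N, hN, hsum, hηN, hτN⟩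
    · refine ⟨Sum.inl (c, S, p), ?_, ?_⟩
      · rw [Finset.inl_mem_disjSum]
        simp only [F0, Finset.mem_product, Finset.mem_univ, true_and]
        exact ⟨hsubE _ hS, hpF⟩
      · refine ⟨⟨hS, hSm⟩, hx, hx1, hlow, hxD.trans hκD, hsum, fun k hk => (hrd k hk).trans hLC,
          hsz.trans hJC, fun g hg => ?_⟩
        exact FinalG_mono (hpd g hg) (mul_le_mul_of_nonneg_right hC21 hL0.le)
    · refine ⟨Sum.inr (c, N, p), ?_, ?_⟩
      · rw [Finset.inr_mem_disjSum]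
        simp only [F0, Finset.mem_product, Finset.mem_univ, true_and]
        exact ⟨hsubE _ hN, hpF⟩
      · refine ⟨hN, hx, hx1, hxD.trans hκD, hsum, fun g hg => hpd g hg, hηN, ?_⟩
        intro v hv hvM
        exact ((ln_le_rd (grp_ne_zero hx hx1 c) hv).trans (hτN _ hvM)).trans
          (mul_le_mul_of_nonneg_right hτδ hL0.le)
  have hfinal := FinalG_cover (FinalG_Z K n C1 l D) (F0.disjSum F0) W hWfin hcov
  refine hfinal.trans ?_
  rw [Finset.sum_disjSum]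
  have e1 : ∑ q ∈ F0, ((W (Sum.inl q)).ncard : ℝ) ≤ F0.card * (A1 * Real.exp (ε / 4 * L)) := by
    rw [← nsmul_eq_mul]
    exact Finset.sum_le_card_nsmul _ _ _ hb1
  have e2 : ∑ q ∈ F0, ((W (Sum.inr q)).ncard : ℝ) ≤ F0.card * (A2 * Real.exp (ε / 4 * L)) := by
    rw [← nsmul_eq_mul]
    exact Finset.sum_le_card_nsmul _ _ _ hb2
  have e3 : Real.exp (ε / 8 * L) * Real.exp (ε / 4 * L) ≤ Real.exp (ε / 2 * L) := by
    rw [← Real.exp_add]
    apply Real.exp_le_exp.2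
    nlinarith
  calc ∑ q ∈ F0, ((W (Sum.inl q)).ncard : ℝ) + ∑ q ∈ F0, ((W (Sum.inr q)).ncard : ℝ)
      ≤ F0.card * (A1 * Real.exp (ε / 4 * L)) + F0.card * (A2 * Real.exp (ε / 4 * L)) :=
        add_le_add e1 e2
    _ = F0.card * ((A1 + A2) * Real.exp (ε / 4 * L)) := by ring
    _ ≤ (3 * 2 ^ (E + 1) * (CP * Real.exp (ε / 8 * L))) * ((A1 + A2) * Real.exp (ε / 4 * L)) :=
        mul_le_mul_of_nonneg_right hcard0 (by positivity)
    _ = 3 * 2 ^ (E + 1) * CP * (A1 + A2) * (Real.exp (ε / 8 * L) * Real.exp (ε / 4 * L)) := by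
        ring
    _ ≤ _ := mul_le_mul_of_nonneg_left e3 (by positivity)

/-- Few violators such that the zero divisors of two groups are combinations of few small
divisors. -/
theorem countG (K : Type*) [Field K] [NumberField K] (n : ℕ) (C1 : ℝ) {ε : ℝ} (hε : 0 < ε) :
    ∃ l0 : ℝ, 0 < l0 ∧ ∀ l : ℝ, 0 < l → l ≤ l0 → ∃ C : ℝ, 0 < C ∧ ∀ Y : ℝ, 0 ≤ Y →
      (({x : K | x ∈ Exc K l Y ∧ ∃ c : Fin 3, ∀ g, g ≠ c → ∃ p : Fin n → ℕ, (∀ i, 1 ≤ p i) ∧
        Dec (grp x g) p (C1 * (l * hgt x))}.ncard : ℕ) : ℝ) ≤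
        C * Real.exp (ε * l * Y) := by
  classical
  obtain ⟨l0, hl0, hcell⟩ := FinalG_cell K n (le_max_right C1 0) hε
  refine ⟨l0, hl0, fun l hl hll => ?_⟩
  obtain ⟨C, D0, hC, hb⟩ := hcell l hl hll
  obtain ⟨C', hC'⟩ : ∃ C' : ℝ, C' = C + ∑ D ∈ Finset.range D0,
      ((FinalG_Z K n (max C1 0) l D).ncard : ℝ) := ⟨_, rfl⟩
  have hs0 : 0 ≤ ∑ D ∈ Finset.range D0, ((FinalG_Z K n (max C1 0) l D).ncard : ℝ) :=
    Finset.sum_nonneg fun _ _ => Nat.cast_nonneg _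
  have hC'0 : 0 < C' := by rw [hC']; linarith
  have hall : ∀ D : ℕ, ((FinalG_Z K n (max C1 0) l D).ncard : ℝ) ≤
      C' * Real.exp (ε / 2 * (l * D)) := by
    intro D
    by_cases hD : D0 ≤ D
    · refine (hb D hD).trans (mul_le_mul_of_nonneg_right ?_ (Real.exp_pos _).le)
      rw [hC']; linarith
    · have h1 : ((FinalG_Z K n (max C1 0) l D).ncard : ℝ) ≤ C' := by
        rw [hC']
        have := Finset.single_le_sum (f := fun D => ((FinalG_Z K n (max C1 0) l D).ncard : ℝ))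
          (fun _ _ => Nat.cast_nonneg _) (Finset.mem_range.2 (not_le.1 hD))
        linarith
      have h2 : 1 ≤ Real.exp (ε / 2 * (l * D)) := by
        apply Real.one_le_exp
        positivity
      calc ((FinalG_Z K n (max C1 0) l D).ncard : ℝ) ≤ C' * 1 := by rw [mul_one]; exact h1
        _ ≤ _ := mul_le_mul_of_nonneg_left h2 hC'0.le
  obtain ⟨CP, hCP, hP⟩ := tc_poly_le_exp 1 2 (by norm_num) (show 0 < ε / 2 * l by positivity)
  refine ⟨CP * (C' * Real.exp (ε / 2 * l)), by positivity, fun Y hY => ?_⟩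
  set Z : Set K := {x : K | x ∈ Exc K l Y ∧ ∃ c : Fin 3, ∀ g, g ≠ c → ∃ p : Fin n → ℕ,
    (∀ i, 1 ≤ p i) ∧ Dec (grp x g) p (C1 * (l * hgt x))} with hZ
  have hcov : ∀ x ∈ Z, ∃ D ∈ Finset.range (⌈Y⌉₊ + 1), x ∈ FinalG_Z K n (max C1 0) l D := by
    rintro x ⟨⟨hx, hx1, hxY, hR⟩, c, hdec⟩
    refine ⟨⌈hgt x⌉₊, ?_, hx, hx1, ?_, Nat.le_ceil _, hR, c, fun g hg => ?_⟩
    · rw [Finset.mem_range, Nat.lt_succ_iff]
      exact Nat.ceil_mono hxY
    · have := Nat.ceil_lt_add_one (hgt_nonneg x)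
      linarith
    · obtain ⟨p, hp1, hpd⟩ := hdec g hg
      refine ⟨p, hp1, FinalG_mono hpd ?_⟩
      exact mul_le_mul_of_nonneg_right (le_max_left _ _) (mul_nonneg hl.le (hgt_nonneg x))
  have h1 := FinalG_cover Z (Finset.range (⌈Y⌉₊ + 1)) (FinalG_Z K n (max C1 0) l)
    (fun D _ => FinalG_fin K D _ fun x hx => hx.2.2.2.1) hcov
  have hN : (⌈Y⌉₊ : ℝ) ≤ Y + 1 := (Nat.ceil_lt_add_one hY).le
  have h2 : ∀ D ∈ Finset.range (⌈Y⌉₊ + 1), ((FinalG_Z K n (max C1 0) l D).ncard : ℝ) ≤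
      C' * Real.exp (ε / 2 * (l * (Y + 1))) := by
    intro D hD
    refine (hall D).trans (mul_le_mul_of_nonneg_left (Real.exp_le_exp.2 ?_) hC'0.le)
    have h3 : (D : ℝ) ≤ ⌈Y⌉₊ := by exact_mod_cast Nat.lt_succ_iff.1 (Finset.mem_range.1 hD)
    refine mul_le_mul_of_nonneg_left (mul_le_mul_of_nonneg_left (h3.trans hN) hl.le) (by positivity)
  have h3 := hP Y hY
  rw [pow_one] at h3
  calc (Z.ncard : ℝ) ≤ _ := h1
    _ ≤ ∑ D ∈ Finset.range (⌈Y⌉₊ + 1), C' * Real.exp (ε / 2 * (l * (Y + 1))) :=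
        Finset.sum_le_sum h2
    _ = ((⌈Y⌉₊ : ℝ) + 1) * (C' * Real.exp (ε / 2 * (l * (Y + 1)))) := by
        rw [Finset.sum_const, Finset.card_range, nsmul_eq_mul]; push_cast; ring
    _ ≤ (CP * Real.exp (ε / 2 * l * Y)) *
          (C' * Real.exp (ε / 2 * (l * (Y + 1)))) := by
        refine mul_le_mul_of_nonneg_right (le_trans ?_ h3) (by positivity)
        linarith
    _ = _ := by
        have e1 : Real.exp (ε / 2 * (l * (Y + 1))) =
            Real.exp (ε / 2 * l * Y) * Real.exp (ε / 2 * l) := by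
          rw [← Real.exp_add]; congr 1; ring
        have e2 : Real.exp (ε * l * Y) =
            Real.exp (ε / 2 * l * Y) * Real.exp (ε / 2 * l * Y) := by
          rw [← Real.exp_add]; congr 1; ring
        rw [e1, e2]; ring

end Pool.Agent.MVD
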