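import Pool.Agent.MVD.Tow

/-!
# Module Germ (size 4)

Existence of the germ. Induction on `l`, generalising `J`. Write `A = PowerSeries (MvPolynomial (Fin n) K)` (a
`K`-algebra).
`l = []`: `φ j = C (C (P j)) + C (X j) * X` for all `j`.
`R :: l`: let `φ'` be the germ for `J.erase k`, `l`, `k = R.k`. Put `a s = aeval φ' (R.f s)`; its constant coefficient is
`C (eval P (R.f s))` (map the ring homomorphism `constantCoeff` through `aeval`; `constantCoeff (φ' j) = C (P j)`).
`a δ` is a unit of `A`: its constant coefficient `C (eval P (R.f δ))` is a unit (nonzero constant),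
`PowerSeries.isUnit_iff_constantCoeff`. So `g = ∑_{s ≤ δ} (a δ)⁻¹ a s T^s ∈ A[T]` is monic (for `δ = 0` it is `1`; then
`eval P R.F = eval P (R.f 0) ≠ 0`, contradiction, or treat uniformly). With `t0 = C (C (P k))`:
the constant coefficient of `g.eval t0` is `C (eval P R.F / eval P (R.f δ)) = 0`, so `g.eval t0 ∈ span {X}`
(`PowerSeries.X_dvd_iff`), and the constant coefficient of `g.derivative.eval t0` is
`C (eval P (pderiv k R.F) / eval P (R.f δ))` (`pderiv_F` for the tower `R :: l`), a unit.
Hensel: `IsAdicComplete.henselianRing` for the ideal `span {X}` of `PowerSeries` (instance in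
`Mathlib/RingTheory/AdicCompletion/Completeness.lean`), `HenselianRing.is_henselian` gives a root `t` with
`t - t0 ∈ span {X}`. Put `φ = Function.update φ' k t`. `aeval φ (R.f s) = a s` as `k ∉ (R.f s).vars`
(`MvPolynomial.eval₂Hom_congr'` / `aeval_eq_of_vars`...), so `aeval φ R.F = 0`; the relations of the tail do not involve `x_k`
(`tower_vars` for `J.erase k`). `free J (R :: l) = free (J.erase k) l` does not contain `k`.
-/

namespace Pool.Agent.MVD

open MvPolynomial

private theorem Germ_coeff {K : Type*} [Field K] {n : ℕ} {P : Fin n → K}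
    {φ : Fin n → PowerSeries (MvPolynomial (Fin n) K)}
    (hφ : ∀ j, PowerSeries.constantCoeff (φ j) = C (P j))
    (g : MvPolynomial (Fin n) K) : PowerSeries.constantCoeff (aeval φ g) = C (eval P g) := by
  have h1 : (PowerSeries.constantCoeff (R := MvPolynomial (Fin n) K)).comp
      (aeval φ : MvPolynomial (Fin n) K →ₐ[K] PowerSeries (MvPolynomial (Fin n) K)).toRingHom =
      (C : K →+* MvPolynomial (Fin n) K).comp (eval P) := by
    refine MvPolynomial.ringHom_ext (fun a => ?_) fun j => ?_
    · change PowerSeries.constantCoeff (aeval φ (C a)) = C (eval P (C a))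
      rw [algHom_C, eval_C]
      rfl
    · change PowerSeries.constantCoeff (aeval φ (X j)) = C (eval P (X j))
      rw [aeval_X, eval_X, hφ]
  exact congrArg (fun f : MvPolynomial (Fin n) K →+* MvPolynomial (Fin n) K => f g) h1

/-- Hensel's lemma for one relation. -/
private theorem Germ_step {M : Type*} [CommRing M] (a : ℕ → PowerSeries M) (δ : ℕ) (t0 : M)
    (hδ : IsUnit (PowerSeries.constantCoeff (a δ)))
    (h0 : ∑ s ∈ Finset.range (δ + 1), PowerSeries.constantCoeff (a s) * t0 ^ s = 0)
    (h1 : IsUnit (∑ s ∈ Finset.range (δ + 1),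
      (s : M) * PowerSeries.constantCoeff (a s) * t0 ^ (s - 1))) :
    ∃ t : PowerSeries M, PowerSeries.constantCoeff t = t0 ∧
      ∑ s ∈ Finset.range (δ + 1), a s * t ^ s = 0 := by
  classical
  have hu : IsUnit (a δ) := PowerSeries.isUnit_iff_constantCoeff.2 hδ
  obtain ⟨b, hb⟩ := hu.exists_left_inv
  have hbu : IsUnit b := IsUnit.of_mul_eq_one _ hb
  let g : Polynomial (PowerSeries M) :=
    ∑ s ∈ Finset.range (δ + 1), Polynomial.C (b * a s) * Polynomial.X ^ s
  have hgm : g.Monic := by
    refine Polynomial.monic_of_natDegree_le_of_coeff_eq_one δ ?_ ?_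
    · refine Polynomial.natDegree_sum_le_of_forall_le _ _ fun s hs => ?_
      exact (Polynomial.natDegree_C_mul_X_pow_le _ _).trans
        (Nat.lt_succ_iff.1 (Finset.mem_range.1 hs))
    · simp only [g, Polynomial.finset_sum_coeff, Polynomial.coeff_C_mul_X_pow]
      rw [Finset.sum_ite_eq (Finset.range (δ + 1)) δ (fun s => b * a s)]
      rw [if_pos (Finset.mem_range.2 (Nat.lt_succ_self δ)), hb]
  have hge : ∀ t, g.eval t = b * ∑ s ∈ Finset.range (δ + 1), a s * t ^ s := by
    intro t
    simp only [g, Polynomial.eval_finset_sum, Polynomial.eval_mul, Polynomial.eval_C,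
      Polynomial.eval_pow, Polynomial.eval_X]
    rw [Finset.mul_sum]
    exact Finset.sum_congr rfl fun s _ => by ring
  have hgd : g.derivative.eval (PowerSeries.C t0) =
      b * ∑ s ∈ Finset.range (δ + 1), (s : PowerSeries M) * a s * PowerSeries.C t0 ^ (s - 1) := by
    simp only [g, Polynomial.derivative_sum, Polynomial.derivative_C_mul_X_pow,
      Polynomial.eval_finset_sum, Polynomial.eval_mul, Polynomial.eval_C,
      Polynomial.eval_pow, Polynomial.eval_X]
    rw [Finset.mul_sum]
    exact Finset.sum_congr rfl fun s _ => by ring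
  obtain ⟨t, ht1, ht2⟩ := HenselianRing.is_henselian
    (I := (Ideal.span {PowerSeries.X} : Ideal (PowerSeries M))) g hgm (PowerSeries.C t0) (by
      rw [Ideal.mem_span_singleton, PowerSeries.X_dvd_iff, hge, map_mul, map_sum]
      simp only [map_mul, map_pow, PowerSeries.constantCoeff_C]
      rw [h0, mul_zero]) (by
      refine IsUnit.map _ (PowerSeries.isUnit_iff_constantCoeff.2 ?_)
      rw [hgd, map_mul, map_sum]
      simp only [map_mul, map_pow, PowerSeries.constantCoeff_C, map_natCast]
      exact (hbu.map (PowerSeries.constantCoeff (R := M))).mul h1)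
  refine ⟨t, ?_, ?_⟩
  · rw [Ideal.mem_span_singleton, PowerSeries.X_dvd_iff, map_sub, PowerSeries.constantCoeff_C,
      sub_eq_zero] at ht2
    exact ht2
  · have h3 : b * ∑ s ∈ Finset.range (δ + 1), a s * t ^ s = 0 := by
      rw [← hge]
      exact ht1
    exact (hbu.mul_right_eq_zero).1 h3

private theorem Germ_congr {K : Type*} [Field K] {n : ℕ} {S : Type*} [CommRing S] [Algebra K S]
    {φ φ' : Fin n → S} {g : MvPolynomial (Fin n) K} (h : ∀ i ∈ g.vars, φ i = φ' i) :
    aeval φ g = aeval φ' g := eval₂Hom_congr' rfl (fun i hi _ => h i hi) rfl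

/-- Existence of the germ: Hensel's lemma in the ring of power series, from the last relation to
the first. -/
theorem exists_germ {K : Type*} [Field K] {n : ℕ} (l : List (Rel K n)) (J : Finset (Fin n))
    (P : Fin n → K) (hT : Tower J l) (hN : Nondeg l P) : ∃ φ, IsGerm J l P φ := by
  classical
  induction l generalizing J with
  | nil =>
    refine ⟨fun j => PowerSeries.C (C (P j)) + PowerSeries.C (X j) * PowerSeries.X,
      fun j => ?_, fun j _ => rfl, fun R hR => by simp at hR⟩
    simp
  | cons R l ih =>
    have hpd := pderiv_F hT R List.mem_cons_self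
    obtain ⟨hk, hv, hT'⟩ := hT
    obtain ⟨hF0, hF1, hFδ⟩ := hN R List.mem_cons_self
    obtain ⟨φ', hφ'⟩ := ih (J.erase R.k) hT' fun R' hR' => hN R' (List.mem_cons_of_mem _ hR')
    have hcc := Germ_coeff hφ'.const
    obtain ⟨t, ht1, ht2⟩ := Germ_step (fun s => aeval φ' (R.f s)) R.δ (C (P R.k))
      (by
        beta_reduce
        rw [hcc]
        exact (isUnit_iff_ne_zero.2 hFδ).map C)
      (by
        have h1 : ∑ s ∈ Finset.range (R.δ + 1),
            PowerSeries.constantCoeff (aeval φ' (R.f s)) * C (P R.k) ^ s =
            (C (eval P R.F) : MvPolynomial (Fin n) K) := by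
          unfold Rel.F
          rw [map_sum, map_sum]
          refine Finset.sum_congr rfl fun s _ => ?_
          rw [hcc, map_mul, map_mul, map_pow, map_pow, eval_X]
        rw [h1, hF0, map_zero])
      (by
        have h1 : ∑ s ∈ Finset.range (R.δ + 1), (s : MvPolynomial (Fin n) K) *
            PowerSeries.constantCoeff (aeval φ' (R.f s)) * C (P R.k) ^ (s - 1) =
            (C (eval P (pderiv R.k R.F)) : MvPolynomial (Fin n) K) := by
          rw [hpd, map_sum, map_sum]
          refine Finset.sum_congr rfl fun s _ => ?_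
          rw [hcc, map_mul, map_mul, map_mul, map_mul, map_pow, map_pow, eval_X, eval_C,
            map_natCast C s]
        rw [h1]
        exact (isUnit_iff_ne_zero.2 hF1).map C)
    refine ⟨Function.update φ' R.k t, fun j => ?_, fun j hj => ?_, fun R' hR' => ?_⟩
    · rcases eq_or_ne j R.k with rfl | hne
      · rw [Function.update_self, ht1]
      · rw [Function.update_of_ne hne, hφ'.const]
    · have hj' : j ∈ J.erase R.k := free_subset _ l hj
      rw [Function.update_of_ne (Finset.ne_of_mem_erase hj')]
      exact hφ'.par j hj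
    · rcases List.mem_cons.1 hR' with rfl | hR'
      · unfold Rel.F
        rw [map_sum, ← ht2]
        refine Finset.sum_congr rfl fun s _ => ?_
        rw [map_mul, map_pow, aeval_X, Function.update_self]
        congr 1
        refine Germ_congr fun i hi => ?_
        rw [Function.update_of_ne (Finset.ne_of_mem_erase (hv s hi))]
      · rw [← hφ'.rel R' hR']
        refine Germ_congr fun i hi => ?_
        rw [Function.update_of_ne (Finset.ne_of_mem_erase (tower_vars hT' R' hR' hi))]

end Pool.Agent.MVD
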