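import Pool.Agent.MVD.DefsB

/-!
# Module GoodPrime (size 2)

For `z i ≠ 0` the number of `v ∈ Pr` with `mk v (z i) ≠ 1`, i.e. `ord v (z i) ≠ 0` (`ord_eq_zero_iff`), is at most `2 H / X`:
`∑_{v ∈ Pr} |ord v (z i)| * ln v ≤ 2 hgt (z i) ≤ 2 H` (`sum_abs_ord_le` in Height.lean; `ln v = Real.log (absNorm ..)` by definition). So if every
`v ∈ Pr` were bad for some `i`, then `Pr.card * X ≤ card ι * 2 H` (`Finset.card_biUnion_le`), contradiction.
-/

namespace Pool.Agent.MVD

open NumberField IsDedekindDomain Pool.Agent.H7.Abc Pool.Agent.AbcE MvPolynomial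

/-- One of many primes is good for given elements. -/
theorem good_prime {K : Type*} [Field K] [NumberField K] {ι : Type*} [Fintype ι] (z : ι → K)
    {H X : ℝ} (hX : 0 < X) (hz : ∀ i, hgt (z i) ≤ H) (Pr : Finset (HeightOneSpectrum (𝓞 K)))
    (hPr : ∀ v ∈ Pr, X ≤ ln v) (hc : 2 * H * Fintype.card ι < Pr.card * X) :
    ∃ v ∈ Pr, ∀ i, z i ≠ 0 → FinitePlace.mk v (z i) = 1 := by
  classical
  by_contra hcon
  push Not at hcon
  have hi : ∀ i : ι, z i ≠ 0 →
      ∑ v ∈ Pr, (if FinitePlace.mk v (z i) = 1 then 0 else X) ≤ 2 * H := by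
    intro i hne
    refine le_trans ?_ ((sum_abs_ord_le hne Pr).trans (by linarith [hz i]))
    apply Finset.sum_le_sum
    intro v hv
    have hl := log_norm_pos v
    split_ifs with h
    · positivity
    · have h1 : ord v (z i) ≠ 0 := fun h0 => h ((ord_eq_zero_iff v hne).1 h0)
      have h2 : (1 : ℝ) ≤ |(ord v (z i) : ℝ)| := by
        have := Int.one_le_abs h1
        exact_mod_cast this
      have h3 : X ≤ Real.log (Ideal.absNorm v.asIdeal : ℝ) := hPr v hv
      nlinarith
  have hH : 0 ≤ 2 * H ∨ IsEmpty ι := by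
    by_cases hne : IsEmpty ι
    · right; exact hne
    · rw [not_isEmpty_iff] at hne
      left
      have := hgt_nonneg (z hne.some)
      linarith [hz hne.some]
  have hbig : Pr.card * X ≤ ∑ v ∈ Pr, ∑ i, (if z i ≠ 0 ∧ FinitePlace.mk v (z i) ≠ 1 then X else 0) := by
    rw [← nsmul_eq_mul]
    apply Finset.card_nsmul_le_sum
    intro v hv
    obtain ⟨i, h1, h2⟩ := hcon v hv
    have h3 : (if z i ≠ 0 ∧ FinitePlace.mk v (z i) ≠ 1 then X else 0) = X := if_pos ⟨h1, h2⟩
    calc X = (if z i ≠ 0 ∧ FinitePlace.mk v (z i) ≠ 1 then X else 0) := h3.symm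
      _ ≤ _ := Finset.single_le_sum (f := fun i =>
          (if z i ≠ 0 ∧ FinitePlace.mk v (z i) ≠ 1 then X else 0))
          (fun j _ => by split_ifs <;> linarith) (Finset.mem_univ i)
  rw [Finset.sum_comm] at hbig
  have hle : ∑ i, ∑ v ∈ Pr, (if z i ≠ 0 ∧ FinitePlace.mk v (z i) ≠ 1 then X else 0) ≤
      ∑ _i : ι, 2 * H := by
    apply Finset.sum_le_sum
    intro i _
    by_cases hne : z i = 0
    · have h0 : ∀ v ∈ Pr, (if z i ≠ 0 ∧ FinitePlace.mk v (z i) ≠ 1 then X else 0) = 0 := by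
        intro v _
        rw [if_neg]
        exact fun h => h.1 hne
      rw [Finset.sum_eq_zero h0]
      rcases hH with h | h
      · exact h
      · exact (h.false i).elim
    · refine le_trans (le_of_eq ?_) (hi i hne)
      apply Finset.sum_congr rfl
      intro v _
      by_cases h : FinitePlace.mk v (z i) = 1 <;> simp [h, hne]
  rw [Finset.sum_const, nsmul_eq_mul, Finset.card_univ] at hle
  linarith

end Pool.Agent.MVD
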