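import Pool.Agent.MVD.DefsB

/-!
# Module Hgt (size 3)

`hgt x = Height.logHeight₁ x` (`hgt_eq`, in `Pool/Agent/H7/Abc/Height.lean`).
-/

namespace Pool.Agent.MVD

open NumberField IsDedekindDomain Pool.Agent.H7.Abc Pool.Agent.AbcE MvPolynomial

variable {K : Type*} [Field K] [NumberField K]

theorem hgt_zero : hgt (0 : K) = 0 := by
  rw [hgt_eq, Height.logHeight₁_zero]

theorem hgt_one : hgt (1 : K) = 0 := by
  rw [hgt_eq, Height.logHeight₁_one]

theorem hgt_neg' (x : K) : hgt (-x) = hgt x := by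
  rw [hgt_eq, hgt_eq, Height.logHeight₁_neg]

theorem hgt_mul (x y : K) : hgt (x * y) ≤ hgt x + hgt y := by
  rw [hgt_eq, hgt_eq, hgt_eq]
  exact Height.logHeight₁_mul_le x y

theorem hgt_div (x y : K) : hgt (x / y) ≤ hgt x + hgt y := by
  rw [div_eq_mul_inv]
  refine (hgt_mul _ _).trans ?_
  rw [hgt_inv]

theorem hgt_add (x y : K) : hgt (x + y) ≤ hgt x + hgt y + Module.finrank ℚ K * Real.log 2 := by
  rw [hgt_eq, hgt_eq, hgt_eq]
  have := Height.logHeight₁_add_le x y
  rw [NumberField.totalWeight_eq_finrank] at this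
  linarith

theorem hgt_sub (x y : K) : hgt (x - y) ≤ hgt x + hgt y + Module.finrank ℚ K * Real.log 2 := by
  rw [hgt_eq, hgt_eq, hgt_eq]
  have := Height.logHeight₁_sub_le x y
  rw [NumberField.totalWeight_eq_finrank] at this
  linarith

theorem hgt_sum {ι : Type*} (s : Finset ι) (x : ι → K) :
    hgt (∑ i ∈ s, x i) ≤ ∑ i ∈ s, hgt (x i) + Module.finrank ℚ K * Real.log (max 1 s.card) := by
  rw [hgt_eq, Finset.sum_congr rfl (fun i _ => hgt_eq (x i))]
  have := Height.logHeight₁_sum_le s x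
  rw [NumberField.totalWeight_eq_finrank] at this
  have h1 : Real.log s.card ≤ Real.log (max 1 s.card) := by
    rcases Nat.eq_zero_or_pos s.card with h | h
    · rw [h]; simp
    · exact Real.log_le_log (by exact_mod_cast h) (le_max_right _ _)
  have h2 : (Module.finrank ℚ K : ℝ) * Real.log s.card ≤
      Module.finrank ℚ K * Real.log (max 1 s.card) :=
    mul_le_mul_of_nonneg_left h1 (Nat.cast_nonneg _)
  linarith

theorem hgt_natCast (m : ℕ) (hm : 1 ≤ m) : hgt (m : K) ≤ Module.finrank ℚ K * Real.log m := by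
  have h := hgt_sum (Finset.range m) (fun _ => (1 : K))
  simp only [Finset.sum_const, Finset.card_range, hgt_one, nsmul_eq_mul, mul_one, mul_zero,
    zero_add] at h
  have h1 : max (1 : ℝ) m = m := max_eq_right (by exact_mod_cast hm)
  rwa [h1] at h

theorem hgt_prod {ι : Type*} (s : Finset ι) (x : ι → K) :
    hgt (∏ i ∈ s, x i) ≤ ∑ i ∈ s, hgt (x i) := by
  rw [hgt_eq, Finset.sum_congr rfl (fun i _ => hgt_eq (x i))]
  exact Height.logHeight₁_prod_le s x

theorem hgt_pow (x : K) (m : ℕ) : hgt (x ^ m) ≤ m * hgt x := by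
  rw [hgt_eq, hgt_eq, Height.logHeight₁_pow]

/-- The size of an element at one place. -/
theorem neg_log_mk_le {x : K} (hx : x ≠ 0) (v : HeightOneSpectrum (𝓞 K)) :
    -Real.log (FinitePlace.mk v x) ≤ hgt x := by
  have hpos : 0 < FinitePlace.mk v x := FinitePlace.pos_iff.2 hx
  have h1 := sum_finite_le (inv_ne_zero hx) {v}
  rw [Finset.sum_singleton, hgt_inv, mk_inv] at h1
  have h2 : Real.log (FinitePlace.mk v x)⁻¹ ≤ Real.log (max 1 (FinitePlace.mk v x)⁻¹) :=
    Real.log_le_log (inv_pos.2 hpos) (le_max_right _ _)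
  rw [Real.log_inv] at h2
  linarith

theorem na_mk (v : HeightOneSpectrum (𝓞 K)) : NA (fun x : K => FinitePlace.mk v x) where
  zero := map_zero _
  one := map_one _
  nonneg := fun x => apply_nonneg _ x
  mul := fun x y => map_mul _ x y
  add := fun x y => FinitePlace.add_le _ x y

end Pool.Agent.MVD
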