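import Pool.Agent.MVD.Hgt

/-!
# Module HgtEval (size 4)

`hgt_eval`: `eval P H = ∑_{m ∈ support} coeff m H * ∏ P_j^(m j)`, at most `(D+1)^n` monomials, `m j ≤ D`; each term has height at most
`B + n * D * B`; `hgt_sum`; `log (card) ≤ card`, `B ≥ 1`.
`hgt_redE`: the polynomial `R.F = ∑_{s ≤ δ} f s * X_k^s` has degrees at most `2 D`; the coefficient of `R.F` at `m` is the sum over `s ≤ δ`, `s ≤ m k`, of
`coeff (m - s e_k) (f s)` (`coeff_mul_X_pow'`-like), so it has height at most `(D+1) * B + d log (D+1)`; `pderiv j` multiplies coefficients by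
natural numbers at most `2 D` (or `0`), `hgt_natCast`. So by `hgt_eval` (with `2 D`) all `eval P (pderiv j R.F)` have height at most
`A1 * B`. The recursion `w' j = a * w j - w k * b` has height at most `2 (A1 B + hgt w) + d log 2`; so after at most `n` steps all heights are at most `A * B`
(prove by induction on the list: heights of `w` at most `A' B` imply the result at most `(4 (A1 + 1 + d))^length * (A' + 1) * B`, say).
`hgt_ratio`: if `W1 = W2` then `0 = y W1 + (1-y) W1 = W1 = W2`, contradiction; so `y (W1 - W2) = - W2`, `y = W2 / (W2 - W1)`,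
`hgt y ≤ hgt W2 + hgt (W2 - W1)`.
-/

namespace Pool.Agent.MVD

open NumberField IsDedekindDomain Pool.Agent.H7.Abc Pool.Agent.AbcE MvPolynomial

private theorem he_card {K : Type*} [Field K] {n D : ℕ} (H : MvPolynomial (Fin n) K)
    (hD : ∀ j, H.degreeOf j ≤ D) : H.support.card ≤ (D + 1) ^ n := by
  classical
  have h1 : ∀ m ∈ H.support, ∀ j, m j ≤ D := fun m hm j =>
    (monomial_le_degreeOf j hm).trans (hD j)
  have h2 : H.support.card ≤ (Finset.univ : Finset (Fin n → Fin (D + 1))).card := by
    refine Finset.card_le_card_of_injOn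
      (fun m => fun j => (Fin.ofNat (D + 1) (m j) : Fin (D + 1))) (fun m _ => Finset.mem_univ _) ?_
    intro m hm m' hm' h
    ext j
    have h3 := congrFun h j
    have h4 : (Fin.ofNat (D + 1) (m j)).val = (Fin.ofNat (D + 1) (m' j)).val := by
      rw [show Fin.ofNat (D + 1) (m j) = Fin.ofNat (D + 1) (m' j) from h3]
    simp only [Fin.ofNat] at h4
    rwa [Nat.mod_eq_of_lt (Nat.lt_succ_of_le (h1 m hm j)),
      Nat.mod_eq_of_lt (Nat.lt_succ_of_le (h1 m' hm' j))] at h4
  refine h2.trans (le_of_eq ?_)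
  rw [Finset.card_univ, Fintype.card_fun, Fintype.card_fin, Fintype.card_fin]

theorem hgt_eval (K : Type*) [Field K] [NumberField K] (n D : ℕ) : ∃ A : ℝ, 1 ≤ A ∧
    ∀ (H : MvPolynomial (Fin n) K) (P : Fin n → K) (B : ℝ), 1 ≤ B → (∀ j, H.degreeOf j ≤ D) →
      (∀ m, hgt (coeff m H) ≤ B) → (∀ j, hgt (P j) ≤ B) → hgt (eval P H) ≤ A * B := by
  set N : ℝ := ((D : ℝ) + 1) ^ n with hN
  have hN1 : 1 ≤ N := one_le_pow₀ (by
    have : (0 : ℝ) ≤ D := Nat.cast_nonneg _
    linarith)
  have hlogN : 0 ≤ Real.log N := Real.log_nonneg hN1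
  refine ⟨N * (1 + n * D) + Module.finrank ℚ K * Real.log N, ?_, ?_⟩
  · have h1 : (0 : ℝ) ≤ (n : ℝ) * D := by positivity
    have h2 : (0 : ℝ) ≤ Module.finrank ℚ K * Real.log N := mul_nonneg (Nat.cast_nonneg _) hlogN
    nlinarith
  · intro H P B hB hD hc hP
    have hcard : (H.support.card : ℝ) ≤ N := by
      rw [hN]
      exact_mod_cast he_card H hD
    rw [eval_eq']
    refine (hgt_sum _ _).trans ?_
    have hterm : ∀ m ∈ H.support, hgt (coeff m H * ∏ i, P i ^ m i) ≤ (1 + n * D) * B := by
      intro m hm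
      refine (hgt_mul _ _).trans ?_
      have h1 : hgt (∏ i, P i ^ m i) ≤ ∑ i : Fin n, (D : ℝ) * B := by
        refine (hgt_prod _ _).trans (Finset.sum_le_sum fun i _ => ?_)
        refine (hgt_pow _ _).trans ?_
        have h2 : (m i : ℝ) ≤ D := by
          exact_mod_cast (monomial_le_degreeOf i hm).trans (hD i)
        exact mul_le_mul h2 (hP i) (hgt_nonneg _) (Nat.cast_nonneg _)
      rw [Finset.sum_const, nsmul_eq_mul, Finset.card_univ, Fintype.card_fin] at h1
      have h3 := hc m
      have h4 : (1 + n * D) * B = B + n * (D * B) := by ring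
      rw [h4]
      exact add_le_add h3 h1
    have hs1 : ∑ m ∈ H.support, hgt (coeff m H * ∏ i, P i ^ m i) ≤ N * ((1 + n * D) * B) := by
      refine (Finset.sum_le_sum hterm).trans ?_
      rw [Finset.sum_const, nsmul_eq_mul]
      exact mul_le_mul_of_nonneg_right hcard (by positivity)
    have hs2 : (Module.finrank ℚ K : ℝ) * Real.log (max 1 (H.support.card : ℝ)) ≤
        Module.finrank ℚ K * Real.log N * B := by
      have h1 : Real.log (max 1 (H.support.card : ℝ)) ≤ Real.log N :=
        Real.log_le_log (lt_of_lt_of_le one_pos (le_max_left _ _)) (max_le hN1 hcard)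
      have h2 : (Module.finrank ℚ K : ℝ) * Real.log (max 1 (H.support.card : ℝ)) ≤
        Module.finrank ℚ K * Real.log N := mul_le_mul_of_nonneg_left h1 (Nat.cast_nonneg _)
      refine h2.trans (le_mul_of_one_le_right (mul_nonneg (Nat.cast_nonneg _) hlogN) hB)
    have h5 : (N * (1 + n * D) + Module.finrank ℚ K * Real.log N) * B =
        N * ((1 + n * D) * B) + Module.finrank ℚ K * Real.log N * B := by ring
    rw [h5]
    exact add_le_add hs1 hs2

/-- Natural multiples. -/
private theorem he_nat {K : Type*} [Field K] [NumberField K] {D : ℕ} (m : ℕ) (hm : m ≤ D)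
    (x : K) : hgt ((m : K) * x) ≤ Module.finrank ℚ K * Real.log ((D : ℝ) + 1) + hgt x := by
  have hlog0 : 0 ≤ Real.log ((D : ℝ) + 1) := Real.log_nonneg (by
      have : (0 : ℝ) ≤ D := Nat.cast_nonneg _
      linarith)
  rcases Nat.eq_zero_or_pos m with h0 | h0
  · subst h0
    rw [Nat.cast_zero, zero_mul, hgt_zero]
    exact add_nonneg (mul_nonneg (Nat.cast_nonneg _) hlog0) (hgt_nonneg x)
  · refine (hgt_mul _ _).trans (add_le_add ?_ le_rfl)
    refine (hgt_natCast (K := K) m h0).trans ?_
    refine mul_le_mul_of_nonneg_left ?_ (Nat.cast_nonneg _)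
    refine Real.log_le_log (by exact_mod_cast h0) ?_
    have : (m : ℝ) ≤ D := by exact_mod_cast hm
    linarith

/-- The derivatives of a relation. -/
private theorem he_pd (K : Type*) [Field K] [NumberField K] (n D : ℕ) : ∃ A : ℝ, 1 ≤ A ∧
    ∀ (R : Rel K n) (P : Fin n → K) (B : ℝ), 1 ≤ B → DegLE D [R] →
      (∀ s m, hgt (coeff m (R.f s)) ≤ B) → (∀ j, hgt (P j) ≤ B) →
      ∀ j, hgt (eval P (pderiv j R.F)) ≤ A * B := by
  obtain ⟨A0, hA0, h0⟩ := hgt_eval K n D
  set d : ℝ := (Module.finrank ℚ K : ℝ) with hd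
  set c : ℝ := d * Real.log ((D : ℝ) + 1) with hc
  have hd0 : 0 ≤ d := Nat.cast_nonneg _
  have hD0 : (0 : ℝ) ≤ D := Nat.cast_nonneg _
  have hlog0 : 0 ≤ Real.log ((D : ℝ) + 1) := Real.log_nonneg (by linarith)
  have hc0 : 0 ≤ c := mul_nonneg hd0 hlog0
  have hl2 : 0 ≤ Real.log 2 := Real.log_nonneg (by norm_num)
  -- the bound for one summand
  set T : ℝ := (A0 * (1 + c) + D) + (A0 + (c + D)) + d * Real.log 2 with hT
  have hT0 : 0 ≤ T := by positivity
  refine ⟨(D + 1) * T + c + 1, by nlinarith [mul_nonneg (by linarith : (0 : ℝ) ≤ D + 1) hT0], ?_⟩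
  intro R P B hB hdeg hco hP j
  obtain ⟨hδ, hdeg⟩ := hdeg R (List.mem_singleton.2 rfl)
  have hB0 : 0 ≤ B := le_trans zero_le_one hB
  have hev : eval P (pderiv j R.F) = ∑ s ∈ Finset.range (R.δ + 1),
      (eval P (pderiv j (R.f s)) * P R.k ^ s +
        eval P (R.f s) * ((s : K) * (P R.k ^ (s - 1) * (if j = R.k then 1 else 0)))) := by
    unfold Rel.F
    rw [map_sum, map_sum]
    refine Finset.sum_congr rfl fun s _ => ?_
    rw [pderiv_mul, pderiv_pow, map_add, map_mul, map_mul, map_pow, eval_X, map_mul, map_mul,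
      map_pow, eval_X, map_natCast]
    congr 1
    rw [mul_assoc]
    congr 3
    by_cases h : j = R.k
    · rw [if_pos h, h, pderiv_X_self, map_one]
    · rw [if_neg h, pderiv_X_of_ne (fun h' => h h'.symm), map_zero]
  have hpow : ∀ t : ℕ, t ≤ D → hgt (P R.k ^ t) ≤ D * B := by
    intro t ht
    refine (hgt_pow _ _).trans ?_
    exact mul_le_mul (by exact_mod_cast ht) (hP R.k) (hgt_nonneg _) hD0
  have hcop : ∀ s m, hgt (coeff m (pderiv j (R.f s))) ≤ (1 + c) * B := by
    intro s m
    rw [coeff_pderiv]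
    by_cases h : coeff (m + Finsupp.single j 1) (R.f s) = 0
    · rw [h, zero_mul, hgt_zero]
      positivity
    · have h1 : m + Finsupp.single j 1 ∈ (R.f s).support := mem_support_iff.2 h
      have h2 := (monomial_le_degreeOf j h1).trans (hdeg s j)
      rw [Finsupp.add_apply, Finsupp.single_eq_same] at h2
      have h3 := he_nat (K := K) (m j + 1) h2 (coeff (m + Finsupp.single j 1) (R.f s))
      rw [mul_comm]
      push_cast at h3
      refine h3.trans ?_
      have h4 := hco s (m + Finsupp.single j 1)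
      have h5 : c ≤ c * B := le_mul_of_one_le_right hc0 hB
      have h6 : (1 + c) * B = c * B + B := by ring
      rw [h6]
      exact add_le_add h5 h4
  have hdegp : ∀ s i, (pderiv j (R.f s)).degreeOf i ≤ D := by
    intro s i
    rw [degreeOf_le_iff]
    intro m hm
    rw [mem_support_iff, coeff_pderiv] at hm
    have h1 : m + Finsupp.single j 1 ∈ (R.f s).support :=
      mem_support_iff.2 (left_ne_zero_of_mul hm)
    have h2 := (monomial_le_degreeOf i h1).trans (hdeg s i)
    rw [Finsupp.add_apply] at h2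
    omega
  have hB' : 1 ≤ (1 + c) * B := by nlinarith
  have hPB' : ∀ j, hgt (P j) ≤ (1 + c) * B := fun j => (hP j).trans (by nlinarith)
  have hterm : ∀ s ∈ Finset.range (R.δ + 1),
      hgt (eval P (pderiv j (R.f s)) * P R.k ^ s +
        eval P (R.f s) * ((s : K) * (P R.k ^ (s - 1) * (if j = R.k then 1 else 0)))) ≤ T * B := by
    intro s hs
    have hsD : s ≤ D := by
      have := Finset.mem_range.1 hs
      omega
    have h1 : hgt (eval P (pderiv j (R.f s)) * P R.k ^ s) ≤ (A0 * (1 + c) + D) * B := by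
      refine (hgt_mul _ _).trans ?_
      have h2 := h0 (pderiv j (R.f s)) P ((1 + c) * B) hB' (hdegp s) (hcop s) hPB'
      have h3 := hpow s hsD
      have h4 : (A0 * (1 + c) + D) * B = A0 * ((1 + c) * B) + D * B := by ring
      rw [h4]
      exact add_le_add h2 h3
    have h2 : hgt (eval P (R.f s) * ((s : K) * (P R.k ^ (s - 1) *
        (if j = R.k then 1 else 0)))) ≤ (A0 + (c + D)) * B := by
      refine (hgt_mul _ _).trans ?_
      have h3 := h0 (R.f s) P B hB (hdeg s) (hco s) hP
      have h4 := he_nat (K := K) s hsD (P R.k ^ (s - 1) * (if j = R.k then 1 else 0))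
      have h5 : hgt (P R.k ^ (s - 1) * (if j = R.k then (1 : K) else 0)) ≤ D * B := by
        split_ifs
        · rw [mul_one]; exact hpow (s - 1) ((Nat.sub_le _ _).trans hsD)
        · rw [mul_zero, hgt_zero]; positivity
      have h6 : c ≤ c * B := le_mul_of_one_le_right hc0 hB
      have h7 : (A0 + (c + D)) * B = A0 * B + (c * B + D * B) := by ring
      rw [h7]
      exact add_le_add h3 (h4.trans (add_le_add h6 h5))
    refine (hgt_add _ _).trans ?_
    have h3 : d * Real.log 2 ≤ d * Real.log 2 * B := le_mul_of_one_le_right (by positivity) hB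
    have h4 : T * B = (A0 * (1 + c) + D) * B + (A0 + (c + D)) * B + d * Real.log 2 * B := by
      rw [hT]; ring
    rw [h4]
    exact add_le_add (add_le_add h1 h2) h3
  rw [hev]
  refine (hgt_sum _ _).trans ?_
  have h1 : ∑ s ∈ Finset.range (R.δ + 1), hgt (eval P (pderiv j (R.f s)) * P R.k ^ s +
        eval P (R.f s) * ((s : K) * (P R.k ^ (s - 1) * (if j = R.k then 1 else 0)))) ≤
        (D + 1) * (T * B) := by
    refine (Finset.sum_le_sum hterm).trans ?_
    rw [Finset.sum_const, nsmul_eq_mul, Finset.card_range]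
    refine mul_le_mul_of_nonneg_right ?_ (by positivity)
    push_cast
    have : (R.δ : ℝ) ≤ D := by exact_mod_cast hδ
    linarith
  have h2 : d * Real.log (max 1 ((Finset.range (R.δ + 1)).card : ℝ)) ≤ c * B := by
    have h3 : Real.log (max 1 ((Finset.range (R.δ + 1)).card : ℝ)) ≤ Real.log ((D : ℝ) + 1) := by
      refine Real.log_le_log (lt_of_lt_of_le one_pos (le_max_left _ _)) (max_le (by linarith) ?_)
      rw [Finset.card_range]
      push_cast
      have : (R.δ : ℝ) ≤ D := by exact_mod_cast hδ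
      linarith
    exact (mul_le_mul_of_nonneg_left h3 hd0).trans (le_mul_of_one_le_right hc0 hB)
  have h3 : ((D + 1) * T + c + 1) * B = (D + 1) * (T * B) + c * B + B := by ring
  rw [h3]
  linarith

theorem hgt_redE (K : Type*) [Field K] [NumberField K] (n D : ℕ) : ∃ A : ℝ, 1 ≤ A ∧
    ∀ (l : List (Rel K n)) (P w : Fin n → K) (B : ℝ), 1 ≤ B → l.length ≤ n → DegLE D l →
      (∀ R ∈ l, ∀ s m, hgt (coeff m (R.f s)) ≤ B) → (∀ j, hgt (P j) ≤ B) →
      (∀ j, hgt (w j) ≤ B) →
      (∀ j, hgt (redE P l w j) ≤ A * B) ∧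
      (∀ R ∈ l, hgt (eval P (pderiv R.k R.F)) ≤ A * B) := by
  obtain ⟨A1, hA1, h1⟩ := he_pd K n D
  set d : ℝ := (Module.finrank ℚ K : ℝ) with hd
  have hd0 : 0 ≤ d := Nat.cast_nonneg _
  have hl2 : Real.log 2 ≤ 1 := by
    have := Real.log_two_lt_d9
    linarith
  have hl20 : 0 ≤ Real.log 2 := Real.log_nonneg (by norm_num)
  set q : ℝ := 2 * A1 + 2 + d with hq
  have hq1 : 1 ≤ q := by rw [hq]; linarith
  have key : ∀ (P : Fin n → K) (B : ℝ), 1 ≤ B → (∀ j, hgt (P j) ≤ B) →
      ∀ (l : List (Rel K n)), DegLE D l → (∀ R ∈ l, ∀ s m, hgt (coeff m (R.f s)) ≤ B) →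
      ∀ (w : Fin n → K) (W : ℝ), 1 ≤ W → (∀ j, hgt (w j) ≤ W * B) →
      ∀ j, hgt (redE P l w j) ≤ q ^ l.length * (W * B) := by
    intro P B hB hP l
    induction l with
    | nil =>
      intro _ _ w W _ hw j
      show hgt (w j) ≤ _
      rw [List.length_nil, pow_zero, one_mul]
      exact hw j
    | cons R l ih =>
      intro hdeg hco w W hW hw j
      have hdeg1 : DegLE D l := fun R' hR' => hdeg R' (List.mem_cons_of_mem _ hR')
      have hdeg2 : DegLE D [R] := by
        intro R' hR'
        rw [List.mem_singleton] at hR'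
        subst hR'
        exact hdeg R' List.mem_cons_self
      have hco1 : ∀ R' ∈ l, ∀ s m, hgt (coeff m (R'.f s)) ≤ B :=
        fun R' hR' => hco R' (List.mem_cons_of_mem _ hR')
      have hpd := h1 R P B hB hdeg2 (hco R List.mem_cons_self) hP
      have hB0 : 0 ≤ B := le_trans zero_le_one hB
      have hWB : 1 ≤ W * B := by nlinarith
      have hnew : ∀ j, hgt (eval P (pderiv R.k R.F) * w j - w R.k * eval P (pderiv j R.F)) ≤
          q * W * B := by
        intro j
        refine (hgt_sub _ _).trans ?_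
        have e1 := hgt_mul (eval P (pderiv R.k R.F)) (w j)
        have e2 := hgt_mul (w R.k) (eval P (pderiv j R.F))
        have e3 := hpd R.k
        have e4 := hpd j
        have e5 := hw j
        have e6 := hw R.k
        have e7 : A1 * B ≤ A1 * (W * B) := by
          refine mul_le_mul_of_nonneg_left ?_ (by linarith)
          nlinarith
        have e8 : d * Real.log 2 ≤ d * (W * B) :=
          mul_le_mul_of_nonneg_left (hl2.trans hWB) hd0
        have e9 : q * W * B = 2 * (A1 * (W * B)) + 2 * (W * B) + d * (W * B) := by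
          rw [hq]; ring
        rw [e9]
        linarith
      have h3 := ih hdeg1 hco1 _ (q * W) (by nlinarith) hnew j
      show hgt (redE P l (fun j => eval P (pderiv R.k R.F) * w j -
        w R.k * eval P (pderiv j R.F)) j) ≤ _
      refine h3.trans (le_of_eq ?_)
      rw [List.length_cons, pow_succ]
      ring
  refine ⟨q ^ n + A1, ?_, ?_⟩
  · have : 1 ≤ q ^ n := one_le_pow₀ hq1
    linarith
  · intro l P w B hB hlen hdeg hco hP hw
    have hB0 : 0 ≤ B := le_trans zero_le_one hB
    constructor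
    · intro j
      have h2 := key P B hB hP l hdeg hco w 1 le_rfl (fun j => by rw [one_mul]; exact hw j) j
      rw [one_mul] at h2
      refine h2.trans ?_
      have h3 : q ^ l.length ≤ q ^ n := pow_le_pow_right₀ hq1 hlen
      have h4 : q ^ l.length * B ≤ q ^ n * B := mul_le_mul_of_nonneg_right h3 hB0
      nlinarith
    · intro R hR
      have h2 := h1 R P B hB (by
        intro R' hR'
        rw [List.mem_singleton] at hR'
        subst hR'
        exact hdeg R' hR) (hco R hR) hP R.k
      have h3 : 0 ≤ q ^ n * B := by positivity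
      nlinarith

/-- If `y W1 + (1 - y) W2 = 0` then the height of `y` is bounded. -/
theorem hgt_ratio {K : Type*} [Field K] [NumberField K] {y W1 W2 : K} (h : W1 ≠ 0 ∨ W2 ≠ 0)
    (h0 : y * W1 + (1 - y) * W2 = 0) :
    hgt y ≤ hgt W1 + 2 * hgt W2 + Module.finrank ℚ K * Real.log 2 := by
  have hne : W2 - W1 ≠ 0 := by
    intro h1
    have h2 : W2 = W1 := sub_eq_zero.1 h1
    rw [h2] at h0 h
    have h3 : W1 = 0 := by linear_combination h0
    rcases h with h | h <;> exact h h3
  have hy : y = W2 / (W2 - W1) := by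
    rw [eq_div_iff hne]
    linear_combination -h0
  rw [hy]
  have h1 := hgt_div W2 (W2 - W1)
  have h2 := hgt_sub W2 W1
  linarith

end Pool.Agent.MVD
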