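import Pool.Agent.MVD.Defs

/-!
# Module IntPoly (size 4)

Polynomials with coefficients of absolute value at most `1` for a nonarchimedean absolute value. All are routine:
`V (-1) = 1` since `V (-1)^2 = V 1 = 1`; ultrametric inequality for sums; `coeff_mul` is a sum over the antidiagonal.
`ordGE_mul`: a nonzero coefficient of `f * g` at `m` needs `m = m1 + m2` with nonzero coefficients, `degree` is additive.
`intP_eval`: `eval u g = ∑_{m ∈ support} coeff m g * ∏ u_j^(m j)`, each term is at most `θ^(∑ m j) ≤ θ^e`.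
-/

namespace Pool.Agent.MVD

open MvPolynomial

variable {K : Type*} [Field K] {n : ℕ} {V : K → ℝ}

theorem na_neg (hV : NA V) (x : K) : V (-x) = V x := by
  have h1 : V (-1) * V (-1) = 1 := by
    rw [← hV.mul]
    rw [show (-1 : K) * -1 = 1 by ring]
    exact hV.one
  have h0 : 0 ≤ V (-1) := hV.nonneg _
  have h2 : V (-1) = 1 := by nlinarith
  rw [show -x = -1 * x by ring, hV.mul, h2, one_mul]

theorem na_sum (hV : NA V) {ι : Type*} (s : Finset ι) (f : ι → K) {a : ℝ} (ha : 0 ≤ a)
    (h : ∀ i ∈ s, V (f i) ≤ a) : V (∑ i ∈ s, f i) ≤ a := by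
  classical
  induction s using Finset.induction_on with
  | empty => simpa [hV.zero] using ha
  | insert i s hi ih =>
    rw [Finset.sum_insert hi]
    refine (hV.add _ _).trans (max_le (h i (Finset.mem_insert_self _ _)) ?_)
    exact ih (fun j hj => h j (Finset.mem_insert_of_mem hj))

theorem na_prod (hV : NA V) {ι : Type*} (s : Finset ι) (f : ι → K) :
    V (∏ i ∈ s, f i) = ∏ i ∈ s, V (f i) := by
  classical
  induction s using Finset.induction_on with
  | empty => simpa using hV.one
  | insert i s hi ih =>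
    rw [Finset.prod_insert hi, Finset.prod_insert hi, hV.mul, ih]

theorem na_pow (hV : NA V) (x : K) (m : ℕ) : V (x ^ m) = V x ^ m := by
  induction m with
  | zero => simpa using hV.one
  | succ m ih => rw [pow_succ, pow_succ, hV.mul, ih]

theorem na_natCast (hV : NA V) (m : ℕ) : V (m : K) ≤ 1 := by
  induction m with
  | zero => simp [hV.zero]
  | succ m ih =>
    push_cast
    refine (hV.add _ _).trans (max_le ih ?_)
    rw [hV.one]

theorem intP_C (hV : NA V) {a : K} (ha : V a ≤ 1) :
    IntP V (C a : MvPolynomial (Fin n) K) := by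
  classical
  intro m
  rw [coeff_C]
  split_ifs
  · exact ha
  · rw [hV.zero]; exact zero_le_one

theorem intP_X (hV : NA V) (j : Fin n) : IntP V (X j : MvPolynomial (Fin n) K) := by
  classical
  intro m
  rw [coeff_X]
  split_ifs
  · rw [hV.one]
  · rw [hV.zero]; exact zero_le_one

theorem intP_add (hV : NA V) {f g : MvPolynomial (Fin n) K} (hf : IntP V f) (hg : IntP V g) :
    IntP V (f + g) := by
  intro m
  rw [coeff_add]
  exact (hV.add _ _).trans (max_le (hf m) (hg m))

theorem intP_neg (hV : NA V) {f : MvPolynomial (Fin n) K} (hf : IntP V f) : IntP V (-f) := by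
  intro m
  rw [coeff_neg, na_neg hV]
  exact hf m

theorem intP_mul (hV : NA V) {f g : MvPolynomial (Fin n) K} (hf : IntP V f) (hg : IntP V g) :
    IntP V (f * g) := by
  classical
  intro m
  rw [coeff_mul]
  refine na_sum hV _ _ zero_le_one (fun x _ => ?_)
  rw [hV.mul]
  exact mul_le_one₀ (hf _) (hV.nonneg _) (hg _)

theorem intP_sum (hV : NA V) {ι : Type*} (s : Finset ι) (f : ι → MvPolynomial (Fin n) K)
    (h : ∀ i ∈ s, IntP V (f i)) : IntP V (∑ i ∈ s, f i) := by
  intro m
  rw [coeff_sum]
  exact na_sum hV _ _ zero_le_one (fun i hi => h i hi m)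

theorem intP_one_aux (hV : NA V) : IntP V (1 : MvPolynomial (Fin n) K) := by
  have := intP_C (n := n) hV (a := (1 : K)) hV.one.le
  simpa using this

theorem intP_prod (hV : NA V) {ι : Type*} (s : Finset ι) (f : ι → MvPolynomial (Fin n) K)
    (h : ∀ i ∈ s, IntP V (f i)) : IntP V (∏ i ∈ s, f i) := by
  classical
  induction s using Finset.induction_on with
  | empty => simpa using intP_one_aux hV
  | insert i s hi ih =>
    rw [Finset.prod_insert hi]
    exact intP_mul hV (h i (Finset.mem_insert_self _ _))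
      (ih (fun j hj => h j (Finset.mem_insert_of_mem hj)))

theorem intP_pow (hV : NA V) {f : MvPolynomial (Fin n) K} (hf : IntP V f) (m : ℕ) :
    IntP V (f ^ m) := by
  induction m with
  | zero => simpa using intP_one_aux hV
  | succ m ih => rw [pow_succ]; exact intP_mul hV ih hf

theorem ordGE_add {e : ℕ} {f g : MvPolynomial (Fin n) K} (hf : OrdGE e f) (hg : OrdGE e g) :
    OrdGE e (f + g) := by
  intro m hm
  rw [coeff_add] at hm
  by_cases h : coeff m f = 0
  · apply hg m
    intro h2
    exact hm (by rw [h, h2, add_zero])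
  · exact hf m h

theorem ordGE_mul {e e' : ℕ} {f g : MvPolynomial (Fin n) K} (hf : OrdGE e f) (hg : OrdGE e' g) :
    OrdGE (e + e') (f * g) := by
  classical
  intro m hm
  rw [coeff_mul] at hm
  obtain ⟨x, hx, hx0⟩ := Finset.exists_ne_zero_of_sum_ne_zero hm
  have h1 : coeff x.1 f ≠ 0 := left_ne_zero_of_mul hx0
  have h2 : coeff x.2 g ≠ 0 := right_ne_zero_of_mul hx0
  have h3 : x.1 + x.2 = m := by simpa using hx
  rw [← h3, map_add]
  exact add_le_add (hf _ h1) (hg _ h2)

/-- The size of the value at a small vector. -/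
theorem intP_eval (hV : NA V) {g : MvPolynomial (Fin n) K} (hg : IntP V g) {e : ℕ}
    (he : OrdGE e g) {θ : ℝ} (hθ : 0 ≤ θ) (hθ1 : θ ≤ 1) {u : Fin n → K} (hu : ∀ j, V (u j) ≤ θ) :
    V (eval u g) ≤ θ ^ e := by
  classical
  rw [eval_eq']
  refine na_sum hV _ _ (pow_nonneg hθ e) (fun m hm => ?_)
  rw [hV.mul, na_prod hV]
  have h1 : ∏ i, V (u i ^ m i) ≤ θ ^ (∑ i, m i) := by
    rw [← Finset.prod_pow_eq_pow_sum]
    refine Finset.prod_le_prod (fun i _ => hV.nonneg _) (fun i _ => ?_)
    rw [na_pow hV]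
    exact pow_le_pow_left₀ (hV.nonneg _) (hu i) _
  have h2 : e ≤ ∑ i, m i := by
    have := he m (mem_support_iff.mp hm)
    rwa [Finsupp.degree_eq_sum] at this
  have h3 : θ ^ (∑ i, m i) ≤ θ ^ e := pow_le_pow_of_le_one hθ hθ1 h2
  calc V (coeff m g) * ∏ i, V (u i ^ m i) ≤ 1 * ∏ i, V (u i ^ m i) :=
        mul_le_mul_of_nonneg_right (hg m) (Finset.prod_nonneg (fun i _ => hV.nonneg _))
    _ ≤ θ ^ e := by rw [one_mul]; exact h1.trans h3

end Pool.Agent.MVD
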