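import Pool.Agent.MVD.Red
import Pool.Agent.MVD.DefsB

/-!
# Module Jac (size 3)

Let `α = a ∏ P^p`, `β = b ∏ P^q`, `γ = ∏ P^s ≠ 0`, `α + β = γ`, `y = yv a p s P = α/γ`, `1 - y = β/γ`. For `Y = a X^p + b X^q - X^s`:
`(pderiv i Y)(P) * ∏_k P_k = (p_i α + q_i β - s_i γ) ∏_{k≠i} P_k` (`pderiv i (∏ X_j^(p j)) = p_i X_i^(p_i - 1) ∏_{j≠i} X_j^(p j)`; multiply by `P_i`; the case
`p_i = 0` is fine), `= ((p_i - s_i) α + (q_i - s_i) β) ∏_{k≠i} P_k = γ (y (om p s i)(P) + (1-y) (om q s i)(P))`. Now `redE P l` is linear in the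
covector (`redE_lin`): apply it with `a := γ y / ∏ P`, `b := γ (1-y) / ∏ P`.
-/

namespace Pool.Agent.MVD

open MvPolynomial

private theorem Jac_zero {K : Type*} [Field K] {n : ℕ} (p : Fin n → ℕ) (i : Fin n)
    (S : Finset (Fin n)) (hS : i ∉ S) :
    pderiv i (∏ j ∈ S, (X j : MvPolynomial (Fin n) K) ^ p j) = 0 := by
  classical
  induction S using Finset.induction_on with
  | empty => rw [Finset.prod_empty, pderiv_one]
  | insert a S ha ih =>
    rw [Finset.mem_insert, not_or] at hS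
    rw [Finset.prod_insert ha, pderiv_mul, ih hS.2, mul_zero, add_zero, pderiv_pow,
      pderiv_X_of_ne (Ne.symm hS.1), mul_zero, zero_mul]

private theorem Jac_mon {K : Type*} [Field K] {n : ℕ} (p : Fin n → ℕ) (P : Fin n → K)
    (i : Fin n) :
    eval P (pderiv i (∏ j, (X j : MvPolynomial (Fin n) K) ^ p j)) * ∏ k, P k =
      (p i : K) * (∏ j, P j ^ p j) * ∏ k ∈ Finset.univ.erase i, P k := by
  classical
  rw [← Finset.mul_prod_erase Finset.univ (fun j => (X j : MvPolynomial (Fin n) K) ^ p j)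
    (Finset.mem_univ i), pderiv_mul, Jac_zero p i _ (Finset.notMem_erase i _), mul_zero, add_zero,
    pderiv_pow, pderiv_X_self, mul_one, ← Finset.mul_prod_erase Finset.univ (fun j => P j ^ p j)
    (Finset.mem_univ i), ← Finset.mul_prod_erase Finset.univ P (Finset.mem_univ i)]
  simp only [map_mul, map_prod, map_pow, eval_X, map_natCast]
  rcases Nat.eq_zero_or_pos (p i) with h | h
  · rw [h]
    simp
  · have h1 : P i ^ p i = P i ^ (p i - 1) * P i := by
      rw [← pow_succ]
      congr 1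
      omega
    rw [h1]
    ring

/-- The reduced differential of `a x^p + b x^q - x^s`. -/
theorem jac {K : Type*} [Field K] {n : ℕ} (l : List (Rel K n)) (a b : K) (p q s : Fin n → ℕ)
    (P : Fin n → K) (h0 : ∀ j, P j ≠ 0)
    (hP : a * (∏ j, P j ^ p j) + b * (∏ j, P j ^ q j) = ∏ j, P j ^ s j) (j : Fin n) :
    redE P l (fun i => eval P (pderiv i (C a * (∏ j, X j ^ p j) + C b * (∏ j, X j ^ q j) -
      ∏ j, X j ^ s j))) j * ∏ i, P i =
      (∏ i, P i ^ s i) * (yv a p s P * redE P l (fun i => eval P (om K p s i)) j +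
        (1 - yv a p s P) * redE P l (fun i => eval P (om K q s i)) j) := by
  classical
  have hγ : (∏ j, P j ^ s j) ≠ 0 := Finset.prod_ne_zero_iff.2 fun i _ => pow_ne_zero _ (h0 i)
  have hy : (∏ j, P j ^ s j) * yv a p s P = a * ∏ j, P j ^ p j := by
    unfold yv
    rw [mul_div_cancel₀ _ hγ]
  have hy' : (∏ j, P j ^ s j) * (1 - yv a p s P) = b * ∏ j, P j ^ q j := by
    rw [mul_sub, mul_one, hy, ← hP]
    ring
  have hom : ∀ (r : Fin n → ℕ) (i : Fin n), eval P (om K r s i) =
      ((r i : K) - (s i : K)) * ∏ k ∈ Finset.univ.erase i, P k := by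
    intro r i
    unfold om
    simp only [map_mul, map_prod, eval_X, eval_C]
  have key : (fun i => (∏ k, P k) * eval P (pderiv i (C a * (∏ j, X j ^ p j) +
      C b * (∏ j, X j ^ q j) - ∏ j, X j ^ s j)) + 0 * (0 : K)) =
      fun i => ((∏ j, P j ^ s j) * yv a p s P) * eval P (om K p s i) +
        ((∏ j, P j ^ s j) * (1 - yv a p s P)) * eval P (om K q s i) := by
    funext i
    have e1 := Jac_mon p P i
    have e2 := Jac_mon q P i
    have e3 := Jac_mon s P i
    rw [hom, hom, hy, hy', map_sub, map_add, pderiv_C_mul, pderiv_C_mul, map_sub, map_add,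
      map_mul (eval P), map_mul (eval P), eval_C, eval_C]
    linear_combination a * e1 + b * e2 - e3 +
      (s i : K) * (∏ k ∈ Finset.univ.erase i, P k) * hP
  have h1 := redE_lin l P (∏ k, P k) 0 (fun i => eval P (pderiv i (C a * (∏ j, X j ^ p j) +
      C b * (∏ j, X j ^ q j) - ∏ j, X j ^ s j))) (fun _ => 0) j
  rw [key, redE_lin] at h1
  linear_combination -h1

end Pool.Agent.MVD
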