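import Pool.Agent.MVD.LocalExpand

/-!
# Module LocT (size 3)

The same proof as `local_expand` in `LocalExpand.lean` (copy it), now the coordinates are linear forms plus higher terms only up to an error `V ≤ θ ^ M`: in the expansion of a monomial of
degree `e` (`LocalExpand_mon`) the identity becomes `V (eval (u b) (monomial m 1) - eval (u b) A₀ - eval (u b) A₁) ≤ θ ^ M` (all the factors have `V ≤ 1`, ultrametric inequality).
-/

namespace Pool.Agent.MVD

open MvPolynomial

private theorem LocT_ordMono {K : Type*} [Field K] {n : ℕ} {e e' : ℕ}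
    {g : MvPolynomial (Fin n) K} (h : e ≤ e') (hg : OrdGE e' g) : OrdGE e g :=
  fun m hm => h.trans (hg m hm)

private theorem LocT_intMon {K : Type*} [Field K] {n : ℕ} {V : K → ℝ} (hV : NA V)
    (m : Fin n →₀ ℕ) {a : K} (ha : V a ≤ 1) : IntP V (monomial m a : MvPolynomial (Fin n) K) := by
  classical
  intro m'
  rw [coeff_monomial]
  split_ifs
  · exact ha
  · rw [hV.zero]
    exact zero_le_one

private theorem LocT_ordMon {K : Type*} [Field K] {n : ℕ} {e : ℕ} (m : Fin n →₀ ℕ) (a : K)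
    (he : e ≤ m.degree) : OrdGE e (monomial m a : MvPolynomial (Fin n) K) := by
  classical
  intro m' hm'
  rw [coeff_monomial] at hm'
  split_ifs at hm' with h
  · rw [← h]; exact he
  · exact absurd rfl hm'

private theorem LocT_evl {K : Type*} [Field K] {n : ℕ} {V : K → ℝ} (hV : NA V) {θ : ℝ}
    (hθ : 0 ≤ θ) (hθ1 : θ ≤ 1) {x : Fin n → K} (hx : ∀ j, V (x j) ≤ θ)
    {g : MvPolynomial (Fin n) K} (hg : IntP V g) : V (eval x g) ≤ 1 := by
  have := intP_eval hV (e := 0) hg (fun m _ => Nat.zero_le _) hθ hθ1 hx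
  rwa [pow_zero] at this

/-- Expansion of a monomial. -/
private theorem LocT_mon {K : Type*} [Field K] {n : ℕ} {V : K → ℝ} (hV : NA V)
    {ι : Type*} {θ : ℝ} (hθ : 0 ≤ θ) (hθ1 : θ ≤ 1) (u : ι → Fin n → K)
    (hu : ∀ b j, V (u b j) ≤ θ) (I' : Finset (Fin n)) (M : ℕ)
    (hlin : ∀ j, ∃ (c : Fin n → K) (q : MvPolynomial (Fin n) K), (∀ i, V (c i) ≤ 1) ∧
      IntP V q ∧ OrdGE 2 q ∧ ∀ b, V (u b j - (∑ i ∈ I', c i * u b i + eval (u b) q)) ≤ θ ^ M)
    (m : Fin n →₀ ℕ) :
    ∃ A₀ A₁ : MvPolynomial (Fin n) K, IntP V A₀ ∧ A₀.vars ⊆ I' ∧ OrdGE m.degree A₀ ∧ IntP V A₁ ∧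
      OrdGE (m.degree + 1) A₁ ∧
      ∀ b, V (eval (u b) (monomial m (1 : K)) - (eval (u b) A₀ + eval (u b) A₁)) ≤ θ ^ M := by
  classical
  have hadd : ∀ m₁ m₂ : Fin n →₀ ℕ,
      (∃ A₀ A₁ : MvPolynomial (Fin n) K, IntP V A₀ ∧ A₀.vars ⊆ I' ∧ OrdGE m₁.degree A₀ ∧
        IntP V A₁ ∧ OrdGE (m₁.degree + 1) A₁ ∧
        ∀ b, V (eval (u b) (monomial m₁ (1 : K)) - (eval (u b) A₀ + eval (u b) A₁)) ≤ θ ^ M) →
      (∃ A₀ A₁ : MvPolynomial (Fin n) K, IntP V A₀ ∧ A₀.vars ⊆ I' ∧ OrdGE m₂.degree A₀ ∧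
        IntP V A₁ ∧ OrdGE (m₂.degree + 1) A₁ ∧
        ∀ b, V (eval (u b) (monomial m₂ (1 : K)) - (eval (u b) A₀ + eval (u b) A₁)) ≤ θ ^ M) →
      (∃ A₀ A₁ : MvPolynomial (Fin n) K, IntP V A₀ ∧ A₀.vars ⊆ I' ∧
        OrdGE (m₁ + m₂).degree A₀ ∧ IntP V A₁ ∧ OrdGE ((m₁ + m₂).degree + 1) A₁ ∧
        ∀ b, V (eval (u b) (monomial (m₁ + m₂) (1 : K)) - (eval (u b) A₀ + eval (u b) A₁)) ≤ θ ^ M) := by
    rintro m₁ m₂ ⟨A₀, A₁, h1, h2, h3, h4, h5, h6⟩ ⟨B₀, B₁, k1, k2, k3, k4, k5, k6⟩
    have hd : (m₁ + m₂).degree = m₁.degree + m₂.degree := map_add _ _ _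
    refine ⟨A₀ * B₀, A₀ * B₁ + A₁ * (B₀ + B₁), intP_mul hV h1 k1, ?_, ?_, ?_, ?_, ?_⟩
    · exact (vars_mul _ _).trans (Finset.union_subset h2 k2)
    · rw [hd]; exact ordGE_mul h3 k3
    · exact intP_add hV (intP_mul hV h1 k4) (intP_mul hV h4 (intP_add hV k1 k4))
    · rw [hd]
      refine ordGE_add ?_ ?_
      · exact LocT_ordMono (by omega) (ordGE_mul h3 k5)
      · exact LocT_ordMono (by omega) (ordGE_mul h5
          (ordGE_add k3 (LocT_ordMono (Nat.le_succ _) k5)))
    · intro b
      have h7 : (monomial (m₁ + m₂) (1 : K)) = monomial m₁ (1 : K) * monomial m₂ (1 : K) := by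
        rw [monomial_mul, mul_one]
      rw [h7]
      simp only [map_mul, map_add]
      have e1 : eval (u b) (monomial m₁ (1 : K)) * eval (u b) (monomial m₂ (1 : K)) -
          (eval (u b) A₀ * eval (u b) B₀ + (eval (u b) A₀ * eval (u b) B₁ +
            eval (u b) A₁ * (eval (u b) B₀ + eval (u b) B₁))) =
          (eval (u b) (monomial m₁ (1 : K)) - (eval (u b) A₀ + eval (u b) A₁)) *
            eval (u b) (monomial m₂ (1 : K)) +
          (eval (u b) A₀ + eval (u b) A₁) *
            (eval (u b) (monomial m₂ (1 : K)) - (eval (u b) B₀ + eval (u b) B₁)) := by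
        ring
      rw [e1]
      refine (hV.add _ _).trans (max_le ?_ ?_)
      · rw [hV.mul]
        exact (mul_le_of_le_one_right (hV.nonneg _)
          (LocT_evl hV hθ hθ1 (hu b) (LocT_intMon hV m₂ (by rw [hV.one])))).trans (h6 b)
      · rw [hV.mul]
        refine (mul_le_of_le_one_left (hV.nonneg _) ?_).trans (k6 b)
        rw [← map_add]
        exact LocT_evl hV hθ hθ1 (hu b) (intP_add hV h1 h4)
  have h0 : ∃ A₀ A₁ : MvPolynomial (Fin n) K, IntP V A₀ ∧ A₀.vars ⊆ I' ∧
        OrdGE (0 : Fin n →₀ ℕ).degree A₀ ∧ IntP V A₁ ∧ OrdGE ((0 : Fin n →₀ ℕ).degree + 1) A₁ ∧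
        ∀ b, V (eval (u b) (monomial (0 : Fin n →₀ ℕ) (1 : K)) - (eval (u b) A₀ + eval (u b) A₁)) ≤ θ ^ M := by
    refine ⟨C 1, 0, intP_C hV (by rw [hV.one]), ?_, ?_, ?_, ?_, ?_⟩
    · rw [vars_C]; exact Finset.empty_subset _
    · intro m _
      rw [map_zero]; exact Nat.zero_le _
    · intro m
      rw [coeff_zero, hV.zero]; exact zero_le_one
    · intro m hm
      rw [coeff_zero] at hm
      exact absurd rfl hm
    · intro b
      rw [map_zero, add_zero]
      have e0 : eval (u b) (monomial (0 : Fin n →₀ ℕ) (1 : K)) - eval (u b) (C 1) = 0 :=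
        sub_self _
      rw [e0, hV.zero]
      exact pow_nonneg hθ _
  have h1 : ∀ j : Fin n, ∃ A₀ A₁ : MvPolynomial (Fin n) K, IntP V A₀ ∧ A₀.vars ⊆ I' ∧
        OrdGE (Finsupp.single j 1).degree A₀ ∧ IntP V A₁ ∧
        OrdGE ((Finsupp.single j 1).degree + 1) A₁ ∧
        ∀ b, V (eval (u b) (monomial (Finsupp.single j 1) (1 : K)) - (eval (u b) A₀ + eval (u b) A₁)) ≤ θ ^ M := by
    intro j
    obtain ⟨c, q, hc, hq, hq2, hb⟩ := hlin j
    have hd : (Finsupp.single j 1).degree = 1 := Finsupp.degree_single _ _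
    refine ⟨∑ i ∈ I', C (c i) * X i, q, ?_, ?_, ?_, hq, ?_, ?_⟩
    · exact intP_sum hV _ _ (fun i _ => intP_mul hV (intP_C hV (hc i)) (intP_X hV i))
    · refine (vars_sum_subset _ _).trans ?_
      rw [Finset.biUnion_subset]
      intro i hi
      refine (vars_mul _ _).trans (Finset.union_subset ?_ ?_)
      · rw [vars_C]; exact Finset.empty_subset _
      · rw [vars_X, Finset.singleton_subset_iff]; exact hi
    · rw [hd]
      have key : ∀ s : Finset (Fin n), OrdGE 1 (∑ i ∈ s, C (c i) * X i) := by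
        intro s
        induction s using Finset.induction_on with
        | empty =>
          intro m hm
          rw [Finset.sum_empty, coeff_zero] at hm
          exact absurd rfl hm
        | insert a s ha ih =>
          rw [Finset.sum_insert ha]
          refine ordGE_add ?_ ih
          rw [show C (c a) * X a = monomial (Finsupp.single a 1) (c a) from by
            rw [X, C_mul_monomial, mul_one]]
          exact LocT_ordMon _ _ (by rw [Finsupp.degree_single])
      exact key I'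
    · rw [hd]; exact hq2
    · intro b
      have : (monomial (Finsupp.single j 1) (1 : K)) = X j := rfl
      have e2 : eval (u b) (∑ i ∈ I', C (c i) * X i) = ∑ i ∈ I', c i * u b i := by
        rw [map_sum]
        refine Finset.sum_congr rfl (fun i _ => ?_)
        rw [map_mul, eval_C, eval_X]
      rw [this, eval_X, e2]
      exact hb b
  refine Finsupp.induction_linear (motive := fun m => ∃ A₀ A₁ : MvPolynomial (Fin n) K,
      IntP V A₀ ∧ A₀.vars ⊆ I' ∧ OrdGE m.degree A₀ ∧ IntP V A₁ ∧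
      OrdGE (m.degree + 1) A₁ ∧
      ∀ b, V (eval (u b) (monomial m (1 : K)) - (eval (u b) A₀ + eval (u b) A₁)) ≤ θ ^ M) m h0 ?_ ?_
  · intro f g hf hg
    exact hadd f g hf hg
  · intro j k
    induction k with
    | zero => rw [Finsupp.single_zero]; exact h0
    | succ k ih =>
      rw [Finsupp.single_add]
      exact hadd _ _ ih (h1 j)

private def LocT_Rep {K : Type*} [Field K] {n : ℕ} (V : K → ℝ) (θ : ℝ) {ι : Type*}
    (u : ι → Fin n → K) (I' : Finset (Fin n)) (M : ℕ) (f : MvPolynomial (Fin n) K) : Prop :=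
  ∃ g : MvPolynomial (Fin n) K, IntP V g ∧ g.vars ⊆ I' ∧
      ∀ b, V (eval (u b) f - eval (u b) g) ≤ θ ^ M

private theorem LocT_rep_sum {K : Type*} [Field K] {n : ℕ} {V : K → ℝ} (hV : NA V) {θ : ℝ}
    (hθ : 0 ≤ θ) {ι : Type*} (u : ι → Fin n → K) (I' : Finset (Fin n)) (M : ℕ) {κ : Type*}
    (s : Finset κ) (f : κ → MvPolynomial (Fin n) K)
    (h : ∀ i ∈ s, LocT_Rep V θ u I' M (f i)) :
    LocT_Rep V θ u I' M (∑ i ∈ s, f i) := by
  classical
  induction s using Finset.induction_on with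
  | empty =>
    refine ⟨0, fun m => ?_, ?_, fun b => ?_⟩
    · rw [coeff_zero, hV.zero]; exact zero_le_one
    · rw [vars_0]; exact Finset.empty_subset _
    · rw [Finset.sum_empty, sub_self, hV.zero]
      exact pow_nonneg hθ _
  | insert a s ha ih =>
    obtain ⟨g₁, h1, h2, h3⟩ := h a (Finset.mem_insert_self a s)
    obtain ⟨g₂, k1, k2, k3⟩ := ih (fun i hi => h i (Finset.mem_insert_of_mem hi))
    refine ⟨g₁ + g₂, intP_add hV h1 k1, ?_, fun b => ?_⟩
    · exact (vars_add_subset _ _).trans (Finset.union_subset h2 k2)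
    · rw [Finset.sum_insert ha, map_add, map_add, add_sub_add_comm]
      exact (hV.add _ _).trans (max_le (h3 b) (k3 b))

/-- If all the coordinates are linear forms of the coordinates in `I'` up to terms of higher order
and up to a small error, then every integral polynomial can be approximated by a polynomial in the
variables in `I'`. -/
theorem local_expand_tol {K : Type*} [Field K] {n : ℕ} {V : K → ℝ} (hV : NA V) {θ : ℝ}
    (hθ : 0 ≤ θ) (hθ1 : θ ≤ 1) {ι : Type*} (u : ι → Fin n → K) (hu : ∀ b j, V (u b j) ≤ θ)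
    (I' : Finset (Fin n)) (M : ℕ)
    (hlin : ∀ j, ∃ (c : Fin n → K) (q : MvPolynomial (Fin n) K), (∀ i, V (c i) ≤ 1) ∧
      IntP V q ∧ OrdGE 2 q ∧ ∀ b, V (u b j - (∑ i ∈ I', c i * u b i + eval (u b) q)) ≤ θ ^ M)
    {f : MvPolynomial (Fin n) K} (hf : IntP V f) :
    ∃ g : MvPolynomial (Fin n) K, IntP V g ∧ g.vars ⊆ I' ∧
      ∀ b, V (eval (u b) f - eval (u b) g) ≤ θ ^ M := by
  classical
  have main : ∀ k e : ℕ, M ≤ e + k → ∀ f : MvPolynomial (Fin n) K, IntP V f → OrdGE e f →
      LocT_Rep V θ u I' M f := by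
    intro k
    induction k with
    | zero =>
      intro e he f hf hfe
      refine ⟨0, fun m => ?_, ?_, fun b => ?_⟩
      · rw [coeff_zero, hV.zero]; exact zero_le_one
      · rw [vars_0]; exact Finset.empty_subset _
      · rw [map_zero, sub_zero]
        exact (intP_eval hV hf hfe hθ hθ1 (hu b)).trans
          (pow_le_pow_of_le_one hθ hθ1 (by omega))
    | succ k ih =>
      intro e he f hf hfe
      rw [f.as_sum]
      refine LocT_rep_sum hV hθ u I' M _ _ (fun m hm => ?_)
      have hme : e ≤ m.degree := hfe m (mem_support_iff.mp hm)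
      rcases Nat.lt_or_ge e m.degree with hlt | hge
      · exact ih (e + 1) (by omega) _ (LocT_intMon hV m (hf m))
          (LocT_ordMon m _ hlt)
      · have hdeg : m.degree = e := le_antisymm hge hme
        obtain ⟨A₀, A₁, h1, h2, h3, h4, h5, h6⟩ := LocT_mon hV hθ hθ1 u hu I' M hlin m
        have hA1 : OrdGE (e + 1) (C (coeff m f) * A₁) := by
          have h7 : OrdGE 0 (C (coeff m f) : MvPolynomial (Fin n) K) := fun m _ => Nat.zero_le _
          have h8 := ordGE_mul h7 h5
          rw [hdeg, Nat.zero_add] at h8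
          exact h8
        obtain ⟨g₁, k1, k2, k3⟩ := ih (e + 1) (by omega) (C (coeff m f) * A₁)
          (intP_mul hV (intP_C hV (hf m)) h4) hA1
        refine ⟨C (coeff m f) * A₀ + g₁, intP_add hV (intP_mul hV (intP_C hV (hf m)) h1) k1, ?_,
          fun b => ?_⟩
        · refine (vars_add_subset _ _).trans (Finset.union_subset
            ((vars_mul _ _).trans (Finset.union_subset ?_ h2)) k2)
          rw [vars_C]; exact Finset.empty_subset _
        · have h9 : eval (u b) (monomial m (coeff m f)) =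
              coeff m f * eval (u b) (monomial m (1 : K)) := by
            rw [show (monomial m (coeff m f)) = C (coeff m f) * monomial m (1 : K) by
              rw [C_mul_monomial, mul_one], map_mul, eval_C]
          have h10 := k3 b
          rw [map_mul, eval_C] at h10
          rw [h9, map_add, map_mul, eval_C]
          have h11 : coeff m f * eval (u b) (monomial m (1 : K)) -
              (coeff m f * eval (u b) A₀ + eval (u b) g₁) =
              coeff m f * (eval (u b) (monomial m (1 : K)) - (eval (u b) A₀ + eval (u b) A₁)) +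
              (coeff m f * eval (u b) A₁ - eval (u b) g₁) := by ring
          rw [h11]
          refine (hV.add _ _).trans (max_le ?_ h10)
          rw [hV.mul]
          exact (mul_le_of_le_one_left (hV.nonneg _) (hf m)).trans (h6 b)
  exact main M 0 (by omega) f hf (fun m _ => Nat.zero_le _)

end Pool.Agent.MVD
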