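import Pool.Agent.MVD.DecDefs

/-!
# Module NumId (size 4)

`bcnt v I` (AbcF/Balanced.lean) is the exponent of `v` in the ideal `I`; `bcnt_mul`, `bcnt_one`. For `I ≠ 0` the function `v ↦ bcnt v I` has finite support; let `dv I` be the finitely supported function. `LD (dv I) = log (absNorm I)`: `I = ∏ v^(bcnt v I)`
(`Ideal.finprod_heightOneSpectrum_factorization`, or `Associates.count`/`UniqueFactorizationMonoid` lemmas), `absNorm` is multiplicative (`map_finprod`, `Ideal.absNorm`). From `span {a} * B = span {b} * A`, `A = ∏ D i ^ p i`: `bcnt v (a) + bcnt v B = bcnt v (b) + bcnt v A`, where `bcnt v (span {a}) = ord v (a : K)`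
(`SelmerAux.ord_int`, see the proof of `balanced` in AbcF/Balanced.lean), so `ord v z + bcnt v B = bcnt v A` (`ord_div`). `A ⊔ B = ⊤`: not both `A, B ≤ v`, so `bcnt v A = 0` or `bcnt v B = 0` (`bcnt v I ≥ 1` implies `I ≤ v.asIdeal`: `Associates` `count_ne_zero_iff_dvd`, `Ideal.dvd_iff_le`). Hence `bcnt v A = max 0 (ord v z) = dpart z univ v`,
and `bcnt v A = ∑ p i * bcnt v (D i)`. All the ideals are nonzero: `A ≠ 0` as `a ≠ 0` (`z ≠ 0`) and `B ≠ 0`: if `B = 0` then `A = ⊤`, `span {b} = 0`, contradiction to `b ≠ 0`; `D i ≠ 0` as `p i ≥ 1`.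
-/

namespace Pool.Agent.MVD

open NumberField IsDedekindDomain Pool.Agent.H7.Abc Pool.Agent.AbcE Pool.Agent.AbcF

variable {K : Type*} [Field K] [NumberField K]

private theorem NumId_fin {I : Ideal (𝓞 K)} (hI : I ≠ 0) :
    {v : HeightOneSpectrum (𝓞 K) | bcnt v I ≠ 0}.Finite := by
  classical
  have h := Associates.finite_factors hI
  rw [Filter.eventually_cofinite] at h
  refine h.subset ?_
  intro v hv h0
  apply hv
  unfold bcnt
  exact_mod_cast h0

private theorem NumId_prod {I : Ideal (𝓞 K)} (hI : I ≠ 0) :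
    ∏ v ∈ (NumId_fin hI).toFinset, v.asIdeal ^ bcnt v I = I := by
  classical
  conv_rhs => rw [← Ideal.finprod_heightOneSpectrum_factorization hI]
  rw [finprod_eq_prod_of_mulSupport_subset (s := (NumId_fin hI).toFinset)]
  · rfl
  · intro v hv
    rw [Finset.mem_coe, Set.Finite.mem_toFinset]
    intro h0
    apply hv
    change v.asIdeal ^ bcnt v I = 1
    rw [h0, pow_zero]

open Classical in
private noncomputable def NumIdDv (I : Ideal (𝓞 K)) : HeightOneSpectrum (𝓞 K) →₀ ℕ :=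
  if h : I ≠ 0 then
    Finsupp.onFinset (NumId_fin h).toFinset (fun v => bcnt v I)
      (fun v hv => by rw [Set.Finite.mem_toFinset]; exact hv)
  else 0

private theorem NumId_dv {I : Ideal (𝓞 K)} (hI : I ≠ 0) (v : HeightOneSpectrum (𝓞 K)) :
    NumIdDv I v = bcnt v I := by
  unfold NumIdDv
  rw [dif_pos hI]
  rfl

private theorem NumId_LD {I : Ideal (𝓞 K)} (hI : I ≠ 0) :
    LD (NumIdDv I) = Real.log (Ideal.absNorm I : ℝ) := by
  classical
  have h1 : LD (NumIdDv I) = ∑ v ∈ (NumId_fin hI).toFinset, (bcnt v I : ℝ) * ln v := by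
    unfold LD NumIdDv
    rw [dif_pos hI, Finsupp.onFinset_sum]
    intro v
    simp
  rw [h1]
  conv_rhs => rw [← NumId_prod hI]
  rw [map_prod, Nat.cast_prod, Real.log_prod]
  · refine Finset.sum_congr rfl fun v _ => ?_
    rw [map_pow, Nat.cast_pow, Real.log_pow]
    rfl
  · intro v _
    rw [map_pow, Nat.cast_pow]
    have := two_le_norm v
    have h2 : ((Ideal.absNorm v.asIdeal : ℕ) : ℝ) ≠ 0 := by linarith
    exact pow_ne_zero _ h2

private theorem NumId_pow (v : HeightOneSpectrum (𝓞 K)) {I : Ideal (𝓞 K)} (hI : I ≠ 0) (n : ℕ) :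
    bcnt v (I ^ n) = n * bcnt v I := by
  induction n with
  | zero => rw [pow_zero, bcnt_one, zero_mul]
  | succ n ih =>
    rw [pow_succ, bcnt_mul v (pow_ne_zero _ hI) hI, ih]
    ring

private theorem NumId_bprod (v : HeightOneSpectrum (𝓞 K)) {ι : Type} (s : Finset ι) (p : ι → ℕ)
    (D : ι → Ideal (𝓞 K)) (hD : ∀ i, D i ≠ 0) :
    bcnt v (∏ i ∈ s, D i ^ p i) = ∑ i ∈ s, p i * bcnt v (D i) := by
  classical
  induction s using Finset.induction_on with
  | empty => rw [Finset.prod_empty, Finset.sum_empty, bcnt_one]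
  | insert i s hi ih =>
    rw [Finset.prod_insert hi, Finset.sum_insert hi, bcnt_mul v (pow_ne_zero _ (hD i))
      (Finset.prod_ne_zero_iff.2 fun j _ => pow_ne_zero _ (hD j)), ih, NumId_pow v (hD i)]

private theorem NumId_le (v : HeightOneSpectrum (𝓞 K)) {I : Ideal (𝓞 K)} (hI : I ≠ 0)
    (h : bcnt v I ≠ 0) : I ≤ v.asIdeal := by
  classical
  rw [← Ideal.dvd_iff_le]
  apply (Associates.count_ne_zero_iff_dvd hI v.irreducible).1
  exact h

/-- From ideals to divisors: `A = ∏ D i ^ p i` is the numerator of `z`. -/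
theorem dec_of_ideals {z : K} (hz : z ≠ 0) {ι : Type} [Fintype ι] (p : ι → ℕ)
    (hp : ∀ i, 1 ≤ p i) (D : ι → Ideal (𝓞 K)) (B : Ideal (𝓞 K)) (a b : 𝓞 K) (hb : b ≠ 0)
    (hab : z = (algebraMap (𝓞 K) K a) / (algebraMap (𝓞 K) K b))
    (hcop : (∏ i, D i ^ p i) ⊔ B = ⊤)
    (h : Ideal.span {a} * B = Ideal.span {b} * ∏ i, D i ^ p i) {X : ℝ}
    (hX : ∀ i, Real.log (Ideal.absNorm (D i) : ℝ) ≤ X) : Dec z p X := by
  classical
  have hsp : ∀ c : 𝓞 K, c ≠ 0 → (Ideal.span {c} : Ideal (𝓞 K)) ≠ 0 := by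
    intro c hc
    rw [Ideal.zero_eq_bot]
    exact fun h => hc (Ideal.span_singleton_eq_bot.1 h)
  have ha : a ≠ 0 := by
    rintro rfl
    apply hz
    rw [hab, map_zero, zero_div]
  have haK : (algebraMap (𝓞 K) K a) ≠ 0 := by simpa using ha
  have hbK : (algebraMap (𝓞 K) K b) ≠ 0 := by simpa using hb
  have hB : B ≠ 0 := by
    rintro rfl
    rw [Ideal.zero_eq_bot, sup_bot_eq] at hcop
    rw [hcop, mul_zero, Ideal.mul_top] at h
    exact hsp b hb h.symm
  have hA : (∏ i, D i ^ p i) ≠ 0 := by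
    have h1 : Ideal.span {b} * (∏ i, D i ^ p i) ≠ 0 := by
      rw [← h]
      exact mul_ne_zero (hsp a ha) hB
    exact right_ne_zero_of_mul h1
  have hD : ∀ i, D i ≠ 0 := by
    intro i h0
    have h1 := (Finset.prod_ne_zero_iff.1 hA) i (Finset.mem_univ i)
    apply h1
    rw [h0]
    exact zero_pow (by have := hp i; omega)
  refine ⟨fun i => NumIdDv (D i), fun i => ?_, fun v => ?_⟩
  · rw [NumId_LD (hD i)]
    exact hX i
  · have h1 : ∑ i, p i * NumIdDv (D i) v = bcnt v (∏ i, D i ^ p i) := by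
      rw [NumId_bprod v _ p D hD]
      refine Finset.sum_congr rfl fun i _ => ?_
      rw [NumId_dv (hD i)]
    rw [h1]
    have h2 := congrArg (bcnt v) h
    rw [bcnt_mul v (hsp a ha) hB, bcnt_mul v (hsp b hb) hA] at h2
    have h3 : ord v z = (bcnt v (∏ i, D i ^ p i) : ℤ) - (bcnt v B : ℤ) := by
      rw [hab, ord_div v haK hbK, SelmerAux.ord_int v ha, SelmerAux.ord_int v hb]
      unfold bcnt at h2 ⊢
      have h4 := congrArg (fun n : ℕ => (n : ℤ)) h2
      push_cast at h4
      linarith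
    have h5 : bcnt v (∏ i, D i ^ p i) = 0 ∨ bcnt v B = 0 := by
      by_contra hcon
      rw [not_or] at hcon
      have h6 := NumId_le v hA hcon.1
      have h7 := NumId_le v hB hcon.2
      have h8 : (⊤ : Ideal (𝓞 K)) ≤ v.asIdeal := by
        rw [← hcop]
        exact sup_le h6 h7
      exact v.isPrime.ne_top (top_le_iff.1 h8)
    rw [dpart_apply hz]
    split_ifs with hc
    · have hc1 := hc.1
      omega
    · have hc1 : ¬ 0 < ord v z := fun h10 => hc ⟨h10, Set.mem_univ _⟩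
      omega

end Pool.Agent.MVD
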