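import Pool.Agent.MVD.SolveLin
import Pool.Agent.MVD.LocalExpand
import Pool.Agent.MVD.DetVal
import Pool.Agent.MVD.CountDeg

/-!
# Module PadicDet (size 4)

Let `I = free univ l`, `I' = I.erase j0`, `ι = (I → Fin (D+1))`, `u b j = Q b j - x0 j`. `solve_lin` gives for every `j` the data `c, q`; since
`x0 + u b = Q b` satisfies the relations and `Y = 0`, the hypothesis `hlin` of `local_expand` holds. For `a : ι` the polynomial
`f_a = ∏_{j ∈ I} X_j^(a j)` is integral, translate it (`intP_translate`): `f_a'` integral with `eval (Q b) f_a = eval (u b) f_a'`.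
`local_expand` with `M = e := B * ((D+1)^card I - B^(card I - 1))` gives `g_a`. `det_val` for `A a b = mon I (Q b) a = eval (Q b) f_a`; its
hypothesis `he` is `count_deg` (`Fintype.card ι = (D+1)^card I`, `I'.card = card I - 1`).
-/

namespace Pool.Agent.MVD

open MvPolynomial

/-- The determinants of the monomials in the free variables at points of one residue class. -/
theorem padic_det {K : Type*} [Field K] {n : ℕ} {V : K → ℝ} (hV : NA V) {θ : ℝ} (hθ : 0 ≤ θ)
    (hθ1 : θ ≤ 1) {l : List (Rel K n)} (hT : Tower Finset.univ l) {x0 : Fin n → K}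
    (hx0 : ∀ j, V (x0 j) ≤ 1) (hInt : ∀ R ∈ l, IntP V R.F)
    (hF : ∀ R ∈ l, eval x0 R.F = 0 ∧ V (eval x0 (pderiv R.k R.F)) = 1)
    {Y : MvPolynomial (Fin n) K} (hY : IntP V Y) (hY0 : eval x0 Y = 0) {j0 : Fin n}
    (hj0 : j0 ∈ free Finset.univ l)
    (hJ : V (redE x0 l (fun j => eval x0 (pderiv j Y)) j0) = 1) (D B : ℕ)
    (Q : ((free Finset.univ l) → Fin (D + 1)) → Fin n → K)
    (hQ : ∀ b, (∀ j, V (Q b j - x0 j) ≤ θ) ∧ (∀ R ∈ l, eval (Q b) R.F = 0) ∧
      eval (Q b) Y = 0) :
    V (Matrix.det (Matrix.of fun a b => mon (free Finset.univ l) (Q b) a)) ≤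
      θ ^ (B * ((D + 1) ^ (free Finset.univ l).card - B ^ ((free Finset.univ l).card - 1))) := by
  classical
  have hQu : ∀ b, (fun j => x0 j + (Q b j - x0 j)) = Q b := fun b => by funext j; ring
  have hlin : ∀ j, ∃ (c : Fin n → K) (q : MvPolynomial (Fin n) K), (∀ i, V (c i) ≤ 1) ∧
      IntP V q ∧ OrdGE 2 q ∧ ∀ b, (fun b j => Q b j - x0 j) b j =
        ∑ i ∈ (free Finset.univ l).erase j0, c i * (fun b j => Q b j - x0 j) b i +
          eval ((fun b j => Q b j - x0 j) b) q := by
    intro j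
    obtain ⟨c, q, h1, h2, h3, h4⟩ := solve_lin hV hT hx0 hInt hF hY hY0 hj0 hJ j
    refine ⟨c, q, h1, h2, h3, fun b => ?_⟩
    refine h4 (fun j => Q b j - x0 j) ?_ ?_
    · intro R hR
      rw [hQu b]
      exact (hQ b).2.1 R hR
    · rw [hQu b]
      exact (hQ b).2.2
  -- the monomials
  generalize hM : B * ((D + 1) ^ (free Finset.univ l).card -
    B ^ ((free Finset.univ l).card - 1)) = M
  let f : (free Finset.univ l → Fin (D + 1)) → MvPolynomial (Fin n) K := fun a =>
    ∏ j : free Finset.univ l, (X (j : Fin n) + C (x0 j)) ^ (a j : ℕ)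
  have hf : ∀ a, IntP V (f a) := fun a =>
    intP_prod hV _ _ fun j _ => intP_pow hV (intP_add hV (intP_X hV _) (intP_C hV (hx0 _))) _
  have hfe : ∀ a b, eval (fun j => Q b j - x0 j) (f a) = mon (free Finset.univ l) (Q b) a := by
    intro a b
    simp only [f, mon, map_prod, map_pow, map_add, eval_X, eval_C]
    refine Finset.prod_congr rfl fun j _ => ?_
    rw [sub_add_cancel]
  choose g hg using fun a => local_expand hV hθ hθ1 (fun b j => Q b j - x0 j)
    (fun b j => (hQ b).1 j) ((free Finset.univ l).erase j0) hlin (hf a) M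
  refine det_val hV hθ hθ1 _ (fun b j => Q b j - x0 j) (fun b j => (hQ b).1 j) ((free Finset.univ l).erase j0) g
    (fun a => ⟨(hg a).1, (hg a).2.1⟩) M ?_ ?_
  · intro a b
    rw [Matrix.of_apply, ← hfe a b]
    exact (hg a).2.2 b
  · intro σ hσ hs
    have h := count_deg ((free Finset.univ l).erase j0) B σ hσ hs
    rw [Fintype.card_fun, Fintype.card_fin, Fintype.card_coe, Finset.card_erase_of_mem hj0] at h
    rw [← hM]
    exact h

end Pool.Agent.MVD
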