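import Pool.Agent.MVD.DefsB

/-!
# Module Primes (size 3)

`M = ⌈exp X⌉₊`, `exp X ≤ M ≤ 2 exp X`. Bertrand (`Nat.exists_prime_lt_and_le_two_mul`) gives primes `p_i` with `2^i M < p_i ≤ 2^(i+1) M`,
`i < N`; they are distinct. For each `p_i` choose a height one prime `v_i` of `𝓞 K` above it (e.g. a maximal ideal containing `p_i`;
`Ideal.exists_le_maximal`); `absNorm v_i` is a power `p_i^f`, `1 ≤ f ≤ finrank` (it divides `absNorm (span {p_i}) = p_i ^ finrank`,
`Ideal.absNorm_span_singleton`, `Algebra.norm_algebraMap`-like, `Ideal.absNorm_dvd_absNorm_of_le`; and it is not `1`). So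
`log p_i ≤ ln v_i ≤ d log p_i ≤ d (X + (N+1) log 2)`. Distinct `p_i` give distinct `v_i`. `C = d (N+1) log 2 + 1`.
-/

namespace Pool.Agent.MVD

open NumberField IsDedekindDomain Pool.Agent.H7.Abc Pool.Agent.AbcE MvPolynomial

private theorem primes_above (K : Type*) [Field K] [NumberField K] {p : ℕ} (hp : p.Prime) :
    ∃ v : HeightOneSpectrum (𝓞 K), p ∣ Ideal.absNorm v.asIdeal ∧
      Ideal.absNorm v.asIdeal ∣ p ^ Module.finrank ℚ K := by
  have hp0 : ((p : ℕ) : 𝓞 K) ≠ 0 := Nat.cast_ne_zero.2 hp.ne_zero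
  have hnorm : Ideal.absNorm (Ideal.span {((p : ℕ) : 𝓞 K)}) = p ^ Module.finrank ℚ K := by
    rw [Ideal.absNorm_span_singleton]
    have h1 : ((p : ℕ) : 𝓞 K) = algebraMap ℤ (𝓞 K) (p : ℤ) := by simp
    rw [h1, Algebra.norm_algebraMap, RingOfIntegers.rank, Int.natAbs_pow, Int.natAbs_natCast]
  have hne : Ideal.span {((p : ℕ) : 𝓞 K)} ≠ ⊤ := by
    intro h
    rw [← Ideal.absNorm_eq_one_iff, hnorm] at h
    have h2 := (Nat.pow_eq_one.1 h)
    rcases h2 with h2 | h2
    · exact hp.one_lt.ne' h2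
    · exact (Module.finrank_pos (R := ℚ) (M := K)).ne' h2
  obtain ⟨I, hI, hle⟩ := Ideal.exists_le_maximal _ hne
  have hI0 : I ≠ ⊥ := by
    rintro rfl
    rw [le_bot_iff, Ideal.span_singleton_eq_bot] at hle
    exact hp0 hle
  refine ⟨⟨I, hI.isPrime, hI0⟩, ?_, ?_⟩
  · have h1 : Ideal.absNorm I ∣ p ^ Module.finrank ℚ K := by
      rw [← hnorm]
      exact Ideal.absNorm_dvd_absNorm_of_le hle
    obtain ⟨k, -, hk⟩ := (Nat.dvd_prime_pow hp).1 h1
    show p ∣ Ideal.absNorm I
    rw [hk]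
    apply dvd_pow_self
    rintro rfl
    rw [pow_zero, Ideal.absNorm_eq_one_iff] at hk
    exact hI.ne_top hk
  · show Ideal.absNorm I ∣ _
    rw [← hnorm]
    exact Ideal.absNorm_dvd_absNorm_of_le hle

/-- There are `N` primes with norms of a given size. -/
theorem exists_primes (K : Type*) [Field K] [NumberField K] (N : ℕ) : ∃ C : ℝ, 0 < C ∧
    ∀ X : ℝ, 0 ≤ X → ∃ Pr : Finset (HeightOneSpectrum (𝓞 K)), Pr.card = N ∧
      ∀ v ∈ Pr, X ≤ ln v ∧ ln v ≤ Module.finrank ℚ K * X + C := by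
  classical
  have hlog2 : 0 < Real.log 2 := Real.log_pos (by norm_num)
  refine ⟨Module.finrank ℚ K * ((N + 1) * Real.log 2) + 1, by positivity, ?_⟩
  intro X hX
  set M : ℕ := ⌈Real.exp X⌉₊ with hM
  have hM1 : Real.exp X ≤ M := Nat.le_ceil _
  have hM2 : (M : ℝ) ≤ 2 * Real.exp X := by
    have h1 := Nat.ceil_lt_add_one (Real.exp_pos X).le
    have h2 := Real.one_le_exp hX
    linarith
  have hMpos : 0 < M := by
    have := Real.exp_pos X
    have h : (0 : ℝ) < M := by linarith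
    exact_mod_cast h
  have hpr : ∀ i : Fin N, ∃ p : ℕ, p.Prime ∧ 2 ^ (i : ℕ) * M < p ∧ p ≤ 2 ^ ((i : ℕ) + 1) * M := by
    intro i
    obtain ⟨p, h1, h2, h3⟩ := Nat.exists_prime_lt_and_le_two_mul (2 ^ (i : ℕ) * M)
      (by positivity)
    exact ⟨p, h1, h2, by rw [pow_succ]; linarith⟩
  choose p hp1 hp2 hp3 using hpr
  have hv : ∀ i : Fin N, ∃ v : HeightOneSpectrum (𝓞 K), p i ∣ Ideal.absNorm v.asIdeal ∧
      Ideal.absNorm v.asIdeal ∣ p i ^ Module.finrank ℚ K := fun i => primes_above K (hp1 i)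
  choose v hv1 hv2 using hv
  have hpmono : ∀ i j : Fin N, i < j → p i < p j := by
    intro i j hij
    have h1 : (i : ℕ) + 1 ≤ j := hij
    calc p i ≤ 2 ^ ((i : ℕ) + 1) * M := hp3 i
      _ ≤ 2 ^ (j : ℕ) * M := Nat.mul_le_mul_right _ (Nat.pow_le_pow_right (by norm_num) h1)
      _ < p j := hp2 j
  have hinj : Function.Injective v := by
    intro i j hij
    have h1 : p i ∣ p j ^ Module.finrank ℚ K := by
      have := (hv1 i).trans (hij ▸ hv2 j : Ideal.absNorm (v i).asIdeal ∣ _)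
      exact this
    have h2 : p i = p j := (Nat.prime_dvd_prime_iff_eq (hp1 i) (hp1 j)).1 ((hp1 i).dvd_of_dvd_pow h1)
    rcases lt_trichotomy i j with h | h | h
    · exact absurd h2 (hpmono i j h).ne
    · exact h
    · exact absurd h2 (hpmono j i h).ne'
  refine ⟨Finset.univ.image v, ?_, ?_⟩
  · rw [Finset.card_image_of_injective _ hinj, Finset.card_univ, Fintype.card_fin]
  · intro w hw
    rw [Finset.mem_image] at hw
    obtain ⟨i, -, rfl⟩ := hw
    have hnpos : 0 < Ideal.absNorm (v i).asIdeal := Nat.pos_of_dvd_of_pos (hv2 i)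
      (pow_pos (hp1 i).pos _)
    have hle1 : p i ≤ Ideal.absNorm (v i).asIdeal := Nat.le_of_dvd hnpos (hv1 i)
    have hle2 : Ideal.absNorm (v i).asIdeal ≤ p i ^ Module.finrank ℚ K :=
      Nat.le_of_dvd (pow_pos (hp1 i).pos _) (hv2 i)
    have hpM : M ≤ p i := by
      have h1 : 1 * M ≤ 2 ^ (i : ℕ) * M := Nat.mul_le_mul_right _ Nat.one_le_two_pow
      have := hp2 i
      omega
    have hppos : (0 : ℝ) < p i := by exact_mod_cast (hp1 i).pos
    constructor
    · unfold ln
      rw [Real.le_log_iff_exp_le (by exact_mod_cast hnpos)]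
      calc Real.exp X ≤ M := hM1
        _ ≤ p i := by exact_mod_cast hpM
        _ ≤ _ := by exact_mod_cast hle1
    · unfold ln
      have h1 : Real.log (Ideal.absNorm (v i).asIdeal : ℝ) ≤
          Module.finrank ℚ K * Real.log (p i) := by
        rw [← Real.log_pow]
        exact Real.log_le_log (by exact_mod_cast hnpos) (by exact_mod_cast hle2)
      have h2 : (p i : ℝ) ≤ 2 ^ (N + 1) * Real.exp X := by
        have h3 : p i ≤ 2 ^ N * M :=
          (hp3 i).trans (Nat.mul_le_mul_right _ (Nat.pow_le_pow_right (by norm_num) i.2))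
        have h4 : (p i : ℝ) ≤ 2 ^ N * M := by exact_mod_cast h3
        calc (p i : ℝ) ≤ 2 ^ N * M := h4
          _ ≤ 2 ^ N * (2 * Real.exp X) := by gcongr
          _ = 2 ^ (N + 1) * Real.exp X := by ring
      have h5 : Real.log (p i) ≤ (N + 1) * Real.log 2 + X := by
        calc Real.log (p i) ≤ Real.log (2 ^ (N + 1) * Real.exp X) := Real.log_le_log hppos h2
          _ = _ := by
            rw [Real.log_mul (by positivity) (Real.exp_pos X).ne', Real.log_pow, Real.log_exp]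
            push_cast
            ring
      have h6 : (Module.finrank ℚ K : ℝ) * Real.log (p i) ≤
          Module.finrank ℚ K * ((N + 1) * Real.log 2 + X) := by gcongr
      linarith

end Pool.Agent.MVD
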