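import Pool.Agent.MVD.Tow

/-!
# Module Red (size 4)

Reduction of covectors. Everything by induction on `l`, generalising `w`.
`redE_eq`: apply `eval P` to the recursion.  `redE_lin`, `redE_append`: immediate.
`red_support`: prove the general statement: if `Tower J l`, and `w j = 0` for all `j ∉ J`, then `red l w j = 0` for
`j ∉ free J l`. Step: the new covector `w' j = pderiv k F * w j - w k * pderiv j F` vanishes at `j = k` and at
`j ∉ J` (`tower_pderiv` for the head, whose polynomial involves only variables in `J`), i.e. for all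
`j ∉ J.erase k`. For `J = univ` the hypothesis is void. `redE_support`: the same proof, or from `red_support` with
`w = fun i => C (w i)`.
`red_tangent`: induction: with `w'` as above `∑_j aeval x (w' j) η j = aeval x (pderiv k F) ∑_j aeval x (w j) η j -
aeval x (w k) ∑_j aeval x (pderiv j F) η j` and the last sum is `0`.
`red_deg`: `R.F` has degree at most `2 D` in each variable, `pderiv` does not raise the degrees
(`degreeOf_pderiv_le` or via `degreeOf_le_iff` and `coeff`), `om` has degree at most `1`; if all degrees of `w` are at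
most `d` then all degrees of `w'` are at most `d + 2 D`; so `DW = 1 + n * (2 * D)` is enough (induction on the list,
length at most `n`).
-/

namespace Pool.Agent.MVD

open MvPolynomial

universe u

variable {K : Type*} [Field K] {n : ℕ}

theorem redE_eq (l : List (Rel K n)) (w : Fin n → MvPolynomial (Fin n) K) (P : Fin n → K)
    (j : Fin n) : eval P (red l w j) = redE P l (fun i => eval P (w i)) j := by
  induction l generalizing w with
  | nil => rfl
  | cons R l ih =>
    simp only [red, redE]
    rw [ih]
    congr 1
    funext i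
    simp only [map_sub, map_mul]

theorem redE_lin (l : List (Rel K n)) (P : Fin n → K) (a b : K) (w w' : Fin n → K) (j : Fin n) :
    redE P l (fun i => a * w i + b * w' i) j = a * redE P l w j + b * redE P l w' j := by
  induction l generalizing w w' with
  | nil => rfl
  | cons R l ih =>
    simp only [redE]
    rw [← ih]
    congr 1
    funext i
    ring

theorem redE_append (l l' : List (Rel K n)) (P : Fin n → K) (w : Fin n → K) (j : Fin n) :
    redE P (l ++ l') w j = redE P l' (redE P l w) j := by
  induction l generalizing w with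
  | nil => rfl
  | cons R l ih =>
    simp only [List.cons_append, redE]
    exact ih _

private theorem Red_support {J : Finset (Fin n)} {l : List (Rel K n)} (h : Tower J l)
    (w : Fin n → MvPolynomial (Fin n) K) (hw : ∀ j ∉ J, w j = 0) :
    ∀ j ∉ free J l, red l w j = 0 := by
  induction l generalizing J w with
  | nil => exact hw
  | cons R l ih =>
    have h0 := tower_pderiv h R List.mem_cons_self
    obtain ⟨-, -, h3⟩ := h
    refine ih h3 _ fun j hj => ?_
    rcases eq_or_ne j R.k with rfl | hne
    · ring
    · have hjJ : j ∉ J := fun h' => hj (Finset.mem_erase.2 ⟨hne, h'⟩)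
      rw [hw j hjJ, h0 j hjJ, mul_zero, mul_zero, sub_zero]

private theorem Red_supportE {J : Finset (Fin n)} {l : List (Rel K n)} (h : Tower J l)
    (P : Fin n → K) (w : Fin n → K) (hw : ∀ j ∉ J, w j = 0) :
    ∀ j ∉ free J l, redE P l w j = 0 := by
  induction l generalizing J w with
  | nil => exact hw
  | cons R l ih =>
    have h0 := tower_pderiv h R List.mem_cons_self
    obtain ⟨-, -, h3⟩ := h
    refine ih h3 _ fun j hj => ?_
    rcases eq_or_ne j R.k with rfl | hne
    · ring
    · have hjJ : j ∉ J := fun h' => hj (Finset.mem_erase.2 ⟨hne, h'⟩)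
      rw [hw j hjJ, h0 j hjJ, map_zero, mul_zero, mul_zero, sub_zero]

theorem red_support {l : List (Rel K n)} (h : Tower Finset.univ l)
    (w : Fin n → MvPolynomial (Fin n) K) {j : Fin n} (hj : j ∉ free Finset.univ l) :
    red l w j = 0 :=
  Red_support h w (fun j hj => absurd (Finset.mem_univ j) hj) j hj

theorem redE_support {l : List (Rel K n)} (h : Tower Finset.univ l) (P : Fin n → K)
    (w : Fin n → K) {j : Fin n} (hj : j ∉ free Finset.univ l) : redE P l w j = 0 :=
  Red_supportE h P w (fun j hj => absurd (Finset.mem_univ j) hj) j hj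

/-- Pairing with a vector which is tangent to all relations. -/
theorem red_tangent {A : Type*} [CommRing A] [Algebra K A] (x η : Fin n → A)
    (l : List (Rel K n)) (hη : ∀ R ∈ l, ∑ j, aeval x (pderiv j R.F) * η j = 0)
    (w : Fin n → MvPolynomial (Fin n) K) :
    ∑ j, aeval x (red l w j) * η j =
      (l.map (fun R => aeval x (pderiv R.k R.F))).prod * ∑ j, aeval x (w j) * η j := by
  induction l generalizing w with
  | nil => simp [red]
  | cons R l ih =>
    simp only [red]
    rw [ih (fun R' hR' => hη R' (List.mem_cons_of_mem _ hR'))]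
    have h1 : ∑ j, aeval x (pderiv R.k R.F * w j - w R.k * pderiv j R.F) * η j =
        aeval x (pderiv R.k R.F) * ∑ j, aeval x (w j) * η j := by
      have h2 := hη R List.mem_cons_self
      have h3 : ∑ j, aeval x (pderiv R.k R.F * w j - w R.k * pderiv j R.F) * η j =
          aeval x (pderiv R.k R.F) * ∑ j, aeval x (w j) * η j -
          aeval x (w R.k) * ∑ j, aeval x (pderiv j R.F) * η j := by
        rw [Finset.mul_sum, Finset.mul_sum, ← Finset.sum_sub_distrib]
        refine Finset.sum_congr rfl fun j _ => ?_
        rw [map_sub, map_mul, map_mul]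
        ring
      rw [h3, h2, mul_zero, sub_zero]
    rw [h1, List.map_cons, List.prod_cons]
    ring

private theorem Red_degreeOf_pderiv (i j : Fin n) (p : MvPolynomial (Fin n) K) :
    (pderiv i p).degreeOf j ≤ p.degreeOf j := by
  rw [degreeOf_le_iff]
  intro m hm
  rw [mem_support_iff, coeff_pderiv] at hm
  have h1 : m + Finsupp.single i 1 ∈ p.support := by
    rw [mem_support_iff]
    exact left_ne_zero_of_mul hm
  have h2 := (degreeOf_le_iff (n := j) (f := p)).1 le_rfl _ h1
  rw [Finsupp.add_apply] at h2
  omega

private theorem Red_degreeOf_sub (j : Fin n) (p q : MvPolynomial (Fin n) K) {d : ℕ}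
    (hp : p.degreeOf j ≤ d) (hq : q.degreeOf j ≤ d) : (p - q).degreeOf j ≤ d := by
  rw [degreeOf_le_iff] at hp hq ⊢
  intro m hm
  rw [mem_support_iff, coeff_sub] at hm
  by_cases h1 : coeff m p = 0
  · exact hq m (mem_support_iff.2 fun h2 => hm (by rw [h1, h2, sub_zero]))
  · exact hp m (mem_support_iff.2 h1)

private theorem Red_degF {D : ℕ} (R : Rel K n) (hδ : R.δ ≤ D)
    (hf : ∀ s j, (R.f s).degreeOf j ≤ D) (j : Fin n) : (R.F).degreeOf j ≤ 2 * D := by
  unfold Rel.F
  refine (degreeOf_sum_le _ _ _).trans (Finset.sup_le fun s hs => ?_)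
  have hs' : s ≤ D := by
    have := Finset.mem_range.1 hs
    omega
  have h1 := degreeOf_mul_le j (R.f s) (X R.k ^ s)
  have h2 := degreeOf_pow_le j (X R.k : MvPolynomial (Fin n) K) s
  have h3 : (X R.k : MvPolynomial (Fin n) K).degreeOf j ≤ 1 := by
    rw [degreeOf_X]
    split_ifs <;> omega
  have h4 : s * (X R.k : MvPolynomial (Fin n) K).degreeOf j ≤ s * 1 := Nat.mul_le_mul_left _ h3
  have h5 := hf s j
  omega

private theorem Red_degree {D : ℕ} (l : List (Rel K n)) (hl : DegLE D l) (d : ℕ)
    (w : Fin n → MvPolynomial (Fin n) K) (hw : ∀ j j', (w j).degreeOf j' ≤ d) :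
    ∀ j j', (red l w j).degreeOf j' ≤ d + l.length * (2 * D) := by
  induction l generalizing d w with
  | nil => simpa [red] using hw
  | cons R l ih =>
    intro j j'
    obtain ⟨hδ, hf⟩ := hl R List.mem_cons_self
    have h1 := ih (fun R' hR' => hl R' (List.mem_cons_of_mem _ hR')) (d + 2 * D)
      (fun j => pderiv R.k R.F * w j - w R.k * pderiv j R.F) (fun j j' => by
        have h2 := Red_degF R hδ hf j'
        refine Red_degreeOf_sub _ _ _ ?_ ?_
        · have h3 := degreeOf_mul_le j' (pderiv R.k R.F) (w j)
          have h4 := Red_degreeOf_pderiv R.k j' R.F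
          have h5 := hw j j'
          omega
        · have h3 := degreeOf_mul_le j' (w R.k) (pderiv j R.F)
          have h4 := Red_degreeOf_pderiv j j' R.F
          have h5 := hw R.k j'
          omega) j j'
    simp only [red, List.length_cons]
    refine h1.trans (le_of_eq ?_)
    ring

/-- The degrees of the reduced covector are bounded. -/
theorem red_deg (n D : ℕ) : ∃ DW : ℕ, ∀ (K : Type u) [Field K] (l : List (Rel K n))
    (p s : Fin n → ℕ), l.length ≤ n → DegLE D l → ∀ j j', (red l (om K p s) j).degreeOf j' ≤ DW := by
  refine ⟨1 + n * (2 * D), fun K _ l p s hl hD j j' => ?_⟩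
  refine (Red_degree l hD 1 (om K p s) (fun j j' => ?_) j j').trans ?_
  · unfold om
    refine (degreeOf_C_mul_le _ _ _).trans ((degreeOf_prod_le _ _ _).trans ?_)
    calc ∑ i ∈ Finset.univ.erase j, (X i : MvPolynomial (Fin n) K).degreeOf j'
        ≤ ∑ i ∈ Finset.univ.erase j, (if j' = i then 1 else 0) := by
          refine Finset.sum_le_sum fun i _ => ?_
          rw [degreeOf_X]
      _ ≤ ∑ i : Fin n, (if j' = i then 1 else 0) :=
          Finset.sum_le_sum_of_subset (Finset.subset_univ _)
      _ = 1 := by simp
  · exact Nat.add_le_add_left (Nat.mul_le_mul_right _ hl) _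

end Pool.Agent.MVD
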