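import Pool.Agent.MVD.Tow

/-!
# Module Reduce (size 5)

`Sp K x d` is the span of the monomials `∏ x_j ^ a_j`, `a ≤ d`. `mem_Sp`: `H = ∑ coeff m H * X^m`, `m j ≤ degreeOf j H` for
`m ∈ support`. Products: `z ∈ Sp d`, `z' ∈ Sp d'` give `z z' ∈ Sp (d + d')`; monotone in `d`.
ONE STEP. Let `R = (k, δ, f)` be a relation with `(f s).vars ⊆ J.erase k`, degrees at most `D`, `δ ≥ 1`, `aeval x R.F = 0`,
`c = aeval x (f δ)`. Then for every `t` and `z ∈ Sp d` with `d k ≤ (δ - 1) + t`: `c ^ t * z ∈ Sp d'` with `d' k = δ - 1`
(or anything at least this and at least `min`), `d' j = d j + t D` for `j ∈ J.erase k`, `d' j = d j` for `j ∉ J`. Induction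
on `t`: it is enough to treat a monomial with `x_k`-degree exactly `(δ-1) + t`, `t ≥ 1`: `c x_k^δ = -∑_{s<δ} aeval x (f s) x_k^s`, so
`c * x_k^(δ-1+t) = -∑_{s<δ} aeval x (f s) x_k^(s+t-1)` has `x_k`-degree at most `(δ-1)+(t-1)` and the degrees in
`J.erase k` grow by at most `D`; monomials of smaller `x_k`-degree are just multiplied by `c` (note `k ∉ (f s).vars`, so
`degreeOf k (f s) = 0`, and `degreeOf j (f s) = 0` for `j ∉ J`).
If `δ = 0` then `0 = aeval x R.F = aeval x (f 0)` is a non-zero-divisor, so `A` is trivial and everything is clear.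
LIST. Prove by induction on `l` (generalising `J, dm, d`) the SHARPER statement with `d j + dm * ((D+1)^l.length - 1)` for
`j ∈ free J l` (natural subtraction is harmless: `(D+1)^r ≥ 1`); the stated one follows by monotonicity. For `R :: l`: `t = d k ≤ dm`
(for `δ ≥ 1`; final `x_k`-degree at most `max (δ-1)`.. `≤ D`), new `d1 j ≤ d j + dm * D` for `j ∈ J.erase k`, `d1 k ≤ D`,
unchanged outside `J`; apply the induction hypothesis with `J.erase k`, `dm1 = dm * (D+1)`:
`dm * D + dm * (D+1) * ((D+1)^r - 1) = dm * ((D+1)^(r+1) - 1)`. `Λ = c ^ t * Λ'`, a product of non-zero-divisors.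
-/

namespace Pool.Agent.MVD

open MvPolynomial

/-- The span of the monomials of degree at most `d j` in `x j`. -/
def Sp (K : Type*) [Field K] {n : ℕ} {A : Type*} [CommRing A] [Algebra K A] (x : Fin n → A)
    (d : Fin n → ℕ) : Submodule K A :=
  Submodule.span K {z | ∃ a : Fin n → ℕ, (∀ j, a j ≤ d j) ∧ z = ∏ j, x j ^ a j}

private theorem reduce_mono {K : Type*} [Field K] {n : ℕ} {A : Type*} [CommRing A] [Algebra K A]
    (x : Fin n → A) {d d' : Fin n → ℕ} (h : ∀ j, d j ≤ d' j) : Sp K x d ≤ Sp K x d' := by
  apply Submodule.span_mono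
  rintro z ⟨a, ha, rfl⟩
  exact ⟨a, fun j => (ha j).trans (h j), rfl⟩

private theorem reduce_monomial {K : Type*} [Field K] {n : ℕ} {A : Type*} [CommRing A]
    [Algebra K A] (x : Fin n → A) {d : Fin n → ℕ} (a : Fin n → ℕ) (h : ∀ j, a j ≤ d j) :
    ∏ j, x j ^ a j ∈ Sp K x d :=
  Submodule.subset_span ⟨a, h, rfl⟩

private theorem reduce_mul {K : Type*} [Field K] {n : ℕ} {A : Type*} [CommRing A] [Algebra K A]
    (x : Fin n → A) {d d' e : Fin n → ℕ} (he : ∀ j, d j + d' j ≤ e j) {z z' : A}
    (hz : z ∈ Sp K x d) (hz' : z' ∈ Sp K x d') : z * z' ∈ Sp K x e := by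
  have h1 : z * z' ∈ Sp K x d * Sp K x d' := Submodule.mul_mem_mul hz hz'
  unfold Sp at h1
  rw [Submodule.span_mul_span] at h1
  refine (Submodule.span_mono ?_) h1
  rintro _ ⟨_, ⟨a, ha, rfl⟩, _, ⟨b, hb, rfl⟩, rfl⟩
  refine ⟨fun j => a j + b j, fun j => (add_le_add (ha j) (hb j)).trans (he j), ?_⟩
  show (∏ j, x j ^ a j) * (∏ j, x j ^ b j) = _
  rw [← Finset.prod_mul_distrib]
  exact Finset.prod_congr rfl fun j _ => (pow_add _ _ _).symm

theorem mem_Sp {K : Type*} [Field K] {n : ℕ} {A : Type*} [CommRing A] [Algebra K A]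
    (x : Fin n → A) (d : Fin n → ℕ) (H : MvPolynomial (Fin n) K) (h : ∀ j, H.degreeOf j ≤ d j) :
    aeval x H ∈ Sp K x d := by
  have h1 : aeval x H = ∑ m ∈ H.support, coeff m H • ∏ j, x j ^ m j := by
    conv_lhs => rw [H.as_sum]
    rw [map_sum]
    refine Finset.sum_congr rfl fun m _ => ?_
    rw [aeval_monomial, Algebra.smul_def, Finsupp.prod_fintype _ _ fun i => pow_zero _]
  rw [h1]
  refine Submodule.sum_mem _ fun m hm => Submodule.smul_mem _ _ ?_
  exact reduce_monomial x _ fun j => (monomial_le_degreeOf j hm).trans (h j)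

/-- one division step -/
private theorem reduce_step {K : Type*} [Field K] {n : ℕ} {A : Type*} [CommRing A] [Algebra K A]
    (x : Fin n → A) (D : ℕ) (R : Rel K n) (J : Finset (Fin n))
    (hv : ∀ s, (R.f s).vars ⊆ J.erase R.k) (hδ : 1 ≤ R.δ)
    (hD : ∀ s j, (R.f s).degreeOf j ≤ D) (hF : aeval x R.F = 0) (t : ℕ) :
    ∀ (d : Fin n → ℕ), d R.k ≤ (R.δ - 1) + t → ∀ z ∈ Sp K x d,
      aeval x (R.f R.δ) ^ t * z ∈ Sp K x (fun j =>
        if j = R.k then R.δ - 1 else if j ∈ J then d j + t * D else d j) := by
  classical
  have hf : ∀ s, aeval x (R.f s) ∈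
      Sp K x (fun j => if j ∈ J.erase R.k then D else 0) := by
    intro s
    apply mem_Sp
    intro j
    split_ifs with hj
    · exact hD s j
    · apply degreeOf_le_iff.2
      intro m hm
      by_contra h0
      apply hj
      apply hv s
      rw [mem_vars]
      exact ⟨m, hm, Finsupp.mem_support_iff.2 (by omega)⟩
  induction t with
  | zero =>
    intro d hd z hz
    rw [pow_zero, one_mul]
    refine reduce_mono x (fun j => ?_) hz
    split_ifs with h1 h2
    · subst h1
      omega
    · omega
    · exact le_refl _
  | succ t ih =>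
    intro d hd z hz
    induction hz using Submodule.span_induction with
    | zero =>
      rw [mul_zero]
      exact Submodule.zero_mem _
    | add u v _ _ hu hv =>
      rw [mul_add]
      exact Submodule.add_mem _ hu hv
    | smul c u _ hu =>
      rw [mul_smul_comm]
      exact Submodule.smul_mem _ c hu
    | mem z hz =>
      obtain ⟨a, ha, rfl⟩ := hz
      rcases Nat.lt_or_ge (R.δ - 1 + t) (a R.k) with hk | hk
      · -- the exponent is too large
        have hak : a R.k = R.δ + t := by
          have := ha R.k
          omega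
        set a' : Fin n → ℕ := Function.update a R.k t with ha'
        have hz1 : ∏ j, x j ^ a j = x R.k ^ R.δ * ∏ j, x j ^ a' j := by
          rw [← Finset.mul_prod_erase Finset.univ _ (Finset.mem_univ R.k),
            ← Finset.mul_prod_erase Finset.univ (fun j => x j ^ a' j) (Finset.mem_univ R.k)]
          rw [← mul_assoc]
          congr 1
          · rw [ha', Function.update_self, hak, pow_add]
          · refine Finset.prod_congr rfl fun j hj => ?_
            rw [ha', Function.update_of_ne (Finset.ne_of_mem_erase hj)]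
        have hc : aeval x (R.f R.δ) * x R.k ^ R.δ =
            -∑ s ∈ Finset.range R.δ, aeval x (R.f s) * x R.k ^ s := by
          unfold Rel.F at hF
          rw [Finset.sum_range_succ, map_add, map_sum, map_mul, map_pow, aeval_X] at hF
          have h1 : ∑ s ∈ Finset.range R.δ, aeval x (R.f s * X R.k ^ s) =
              ∑ s ∈ Finset.range R.δ, aeval x (R.f s) * x R.k ^ s :=
            Finset.sum_congr rfl fun s _ => by rw [map_mul, map_pow, aeval_X]
          rw [h1] at hF
          rw [eq_neg_iff_add_eq_zero, add_comm]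
          exact hF
        have h2 : aeval x (R.f R.δ) ^ (t + 1) * ∏ j, x j ^ a j =
            -∑ s ∈ Finset.range R.δ, aeval x (R.f R.δ) ^ t *
              (aeval x (R.f s) * (x R.k ^ s * ∏ j, x j ^ a' j)) := by
          rw [hz1, pow_succ]
          calc aeval x (R.f R.δ) ^ t * aeval x (R.f R.δ) * (x R.k ^ R.δ * ∏ j, x j ^ a' j)
              = aeval x (R.f R.δ) ^ t * (aeval x (R.f R.δ) * x R.k ^ R.δ) *
                ∏ j, x j ^ a' j := by ring
            _ = _ := by
                rw [hc, mul_neg, neg_mul, Finset.mul_sum, Finset.sum_mul]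
                congr 1
                exact Finset.sum_congr rfl fun s _ => by ring
        rw [h2]
        apply Submodule.neg_mem
        apply Submodule.sum_mem
        intro s hs
        rw [Finset.mem_range] at hs
        have h3 : x R.k ^ s * ∏ j, x j ^ a' j ∈ Sp K x (Function.update a R.k (s + t)) := by
          have h4 : x R.k ^ s * ∏ j, x j ^ a' j =
              ∏ j, x j ^ (Function.update a R.k (s + t)) j := by
            rw [← Finset.mul_prod_erase Finset.univ (fun j => x j ^ a' j)
                (Finset.mem_univ R.k),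
              ← Finset.mul_prod_erase Finset.univ
                (fun j => x j ^ (Function.update a R.k (s + t)) j) (Finset.mem_univ R.k)]
            rw [← mul_assoc]
            congr 1
            · rw [ha', Function.update_self, Function.update_self, pow_add]
            · refine Finset.prod_congr rfl fun j hj => ?_
              rw [ha', Function.update_of_ne (Finset.ne_of_mem_erase hj),
                Function.update_of_ne (Finset.ne_of_mem_erase hj)]
          rw [h4]
          exact reduce_monomial x _ fun j => le_refl _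
        have h5 : aeval x (R.f s) * (x R.k ^ s * ∏ j, x j ^ a' j) ∈
            Sp K x (fun j => if j = R.k then s + t else if j ∈ J then a j + D else a j) := by
          refine reduce_mul x (fun j => ?_) (hf s) h3
          by_cases h1 : j = R.k
          · subst h1
            simp
          · rw [Function.update_of_ne h1, if_neg h1]
            by_cases h2 : j ∈ J
            · rw [if_pos h2, if_pos (Finset.mem_erase.2 ⟨h1, h2⟩)]
              omega
            · rw [if_neg h2, if_neg fun h => h2 (Finset.mem_of_mem_erase h)]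
              omega
        have h6 := ih _ (by
          rw [if_pos rfl]
          omega) _ h5
        refine reduce_mono x (fun j => ?_) h6
        have haj := ha j
        by_cases h1 : j = R.k
        · rw [if_pos h1, if_pos h1]
        · rw [if_neg h1, if_neg h1]
          by_cases h2 : j ∈ J
          · rw [if_pos h2, if_pos h2, if_neg h1, if_pos h2]
            have : (t + 1) * D = t * D + D := by ring
            omega
          · rw [if_neg h2, if_neg h2, if_neg h1, if_neg h2]
            exact haj
      · -- the exponent is small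
        have h1 := ih a hk (∏ j, x j ^ a j) (reduce_monomial x a fun j => le_refl _)
        have h2 : aeval x (R.f R.δ) ^ (t + 1) * ∏ j, x j ^ a j =
            aeval x (R.f R.δ) * (aeval x (R.f R.δ) ^ t * ∏ j, x j ^ a j) := by ring
        rw [h2]
        refine reduce_mul x (fun j => ?_) (hf R.δ) h1
        have haj := ha j
        by_cases h1 : j = R.k
        · subst h1
          simp
        · rw [if_neg h1, if_neg h1]
          by_cases h2 : j ∈ J
          · rw [if_pos h2, if_pos h2, if_pos (Finset.mem_erase.2 ⟨h1, h2⟩)]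
            have : (t + 1) * D = t * D + D := by ring
            omega
          · rw [if_neg h2, if_neg h2, if_neg fun h => h2 (Finset.mem_of_mem_erase h)]
            omega

/-- the sharper statement for the induction -/
private theorem reduce_aux {K : Type*} [Field K] {n : ℕ} {A : Type*} [CommRing A] [Algebra K A]
    (x : Fin n → A) (D : ℕ) (l : List (Rel K n)) : ∀ (J : Finset (Fin n)), Tower J l →
    DegLE D l → (∀ R ∈ l, aeval x R.F = 0) →
    (∀ R ∈ l, aeval x (R.f R.δ) ∈ nonZeroDivisors A) → ∀ (dm : ℕ) (d : Fin n → ℕ),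
    (∀ j ∈ J, j ∉ free J l → d j ≤ dm) →
    ∃ Λ ∈ nonZeroDivisors A, ∀ z ∈ Sp K x d, Λ * z ∈ Sp K x (fun j =>
      if j ∈ free J l then d j + dm * ((D + 1) ^ l.length - 1)
      else if j ∈ J then D else d j) := by
  classical
  induction l with
  | nil =>
    intro J _ _ _ _ dm d _
    refine ⟨1, Submonoid.one_mem _, fun z hz => ?_⟩
    rw [one_mul]
    refine reduce_mono x (fun j => ?_) hz
    by_cases hj : j ∈ J
    · rw [if_pos (show j ∈ free J [] from hj)]
      omega
    · rw [if_neg (show j ∉ free J [] from hj), if_neg hj]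
  | cons R l ih =>
    intro J hT hD hF hc dm d hd
    obtain ⟨hk, hv, hT'⟩ := hT
    have hfree : free J (R :: l) = free (J.erase R.k) l := rfl
    have hsub : free (J.erase R.k) l ⊆ J.erase R.k := free_subset _ _
    have hkf : R.k ∉ free (J.erase R.k) l := fun h => Finset.notMem_erase _ _ (hsub h)
    have hDR := hD R List.mem_cons_self
    have hFR := hF R List.mem_cons_self
    have hcR := hc R List.mem_cons_self
    rcases Nat.eq_zero_or_pos R.δ with hδ | hδ
    · -- the ring is trivial
      have h0 : aeval x (R.f R.δ) = 0 := by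
        rw [hδ]
        unfold Rel.F at hFR
        rw [hδ] at hFR
        simpa using hFR
      rw [h0] at hcR
      have htriv : ∀ z : A, z = 0 := fun z =>
        (mem_nonZeroDivisors_iff.1 hcR).2 z (mul_zero z)
      refine ⟨1, Submonoid.one_mem _, fun z _ => ?_⟩
      rw [htriv (1 * z)]
      exact Submodule.zero_mem _
    · set t := d R.k with ht
      have htdm : t ≤ dm := hd R.k hk (by rw [hfree]; exact hkf)
      set d1 : Fin n → ℕ := fun j =>
        if j = R.k then R.δ - 1 else if j ∈ J then d j + t * D else d j with hd1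
      have hstep := reduce_step x D R J hv hδ hDR.2 hFR t d (by omega)
      have htD : t * D ≤ dm * D := Nat.mul_le_mul_right D htdm
      obtain ⟨Λ, hΛ, hΛz⟩ := ih (J.erase R.k) hT'
        (fun R' hR' => hD R' (List.mem_cons_of_mem _ hR'))
        (fun R' hR' => hF R' (List.mem_cons_of_mem _ hR'))
        (fun R' hR' => hc R' (List.mem_cons_of_mem _ hR')) (dm * (D + 1)) d1 (by
          intro j hj hjf
          have hjk : j ≠ R.k := Finset.ne_of_mem_erase hj
          have hjJ : j ∈ J := Finset.mem_of_mem_erase hj
          have h1 := hd j hjJ (by rw [hfree]; exact hjf)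
          show (if j = R.k then R.δ - 1 else if j ∈ J then d j + t * D else d j) ≤ _
          rw [if_neg hjk, if_pos hjJ]
          have : dm * (D + 1) = dm * D + dm := by ring
          omega)
      refine ⟨Λ * aeval x (R.f R.δ) ^ t, Submonoid.mul_mem _ hΛ (Submonoid.pow_mem _ hcR t), ?_⟩
      intro z hz
      rw [mul_assoc]
      refine reduce_mono x (fun j => ?_) (hΛz _ (hstep z hz))
      rw [hfree]
      by_cases hjf : j ∈ free (J.erase R.k) l
      · have hjk : j ≠ R.k := Finset.ne_of_mem_erase (hsub hjf)
        have hjJ : j ∈ J := Finset.mem_of_mem_erase (hsub hjf)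
        rw [if_pos hjf, if_pos hjf, hd1]
        beta_reduce
        rw [if_neg hjk, if_pos hjJ, List.length_cons]
        have hpos : 1 ≤ (D + 1) ^ l.length := Nat.one_le_pow _ _ (by omega)
        obtain ⟨w, hw⟩ : ∃ w, (D + 1) ^ l.length = w + 1 := ⟨(D + 1) ^ l.length - 1, by omega⟩
        have e1 : (D + 1) ^ (l.length + 1) = (w + 1) * (D + 1) := by rw [pow_succ, hw]
        rw [e1, hw, Nat.add_sub_cancel]
        have e2 : (w + 1) * (D + 1) - 1 = w * (D + 1) + D := by
          have : (w + 1) * (D + 1) = w * (D + 1) + D + 1 := by ring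
          omega
        rw [e2]
        have e3 : dm * (w * (D + 1) + D) = dm * (D + 1) * w + dm * D := by ring
        rw [e3]
        omega
      · rw [if_neg hjf, if_neg hjf]
        by_cases hjk : j = R.k
        · have hn : j ∉ J.erase R.k := by
            rw [hjk]
            exact Finset.notMem_erase _ _
          rw [if_neg hn, hd1]
          beta_reduce
          rw [if_pos hjk, if_pos (by rw [hjk]; exact hk)]
          omega
        · by_cases hjJ : j ∈ J
          · rw [if_pos (Finset.mem_erase.2 ⟨hjk, hjJ⟩), if_pos hjJ]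
          · rw [if_neg fun h => hjJ (Finset.mem_of_mem_erase h), if_neg hjJ, hd1]
            beta_reduce
            rw [if_neg hjk, if_neg hjJ]

/-- Division by the relations: the degrees in the eliminated variables become at most `D`. -/
theorem reduce_list {K : Type*} [Field K] {n : ℕ} {A : Type*} [CommRing A] [Algebra K A]
    (x : Fin n → A) (D : ℕ) (l : List (Rel K n)) (J : Finset (Fin n)) (hT : Tower J l)
    (hD : DegLE D l) (hF : ∀ R ∈ l, aeval x R.F = 0)
    (hc : ∀ R ∈ l, aeval x (R.f R.δ) ∈ nonZeroDivisors A) (dm : ℕ) (d : Fin n → ℕ)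
    (hd : ∀ j ∈ J, j ∉ free J l → d j ≤ dm) :
    ∃ Λ ∈ nonZeroDivisors A, ∀ z ∈ Sp K x d, Λ * z ∈ Sp K x (fun j =>
      if j ∈ free J l then d j + dm * (D + 1) ^ l.length else if j ∈ J then D else d j) := by
  obtain ⟨Λ, hΛ, h⟩ := reduce_aux x D l J hT hD hF hc dm d hd
  refine ⟨Λ, hΛ, fun z hz => reduce_mono x (fun j => ?_) (h z hz)⟩
  by_cases h1 : j ∈ free J l
  · rw [if_pos h1, if_pos h1]
    have := Nat.mul_le_mul_left dm (Nat.sub_le ((D + 1) ^ l.length) 1)
    omega
  · rw [if_neg h1, if_neg h1]

end Pool.Agent.MVD
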