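import Pool.Agent.MVD.Residue
import Pool.Agent.AbcF.Defs

/-!
# Module ResCls (size 3)

For `v ∈ Q` let `ρ_v` be as in `residue v`. The map `P ↦ (v, j) ↦ ρ_v (P j)` from `S` to `Q → Fin m → ℕ` has values in the finset of the functions with value at `v` less than
`exp (ln v)` (`Finset.pi`/`Fintype.piFinset` of `Finset.range ⌈exp (ln v)⌉₊`-like sets; as `exp (ln v) = absNorm v` is a natural number take `Finset.range (Ideal.absNorm v.asIdeal)`),
which has cardinality `∏_{v ∈ Q} (absNorm v)^m = exp (m * LN Q)`. On each fibre `S'` the hypothesis `h` gives at most `A` values; `f '' S` is the union of the `f '' S'`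
(`Set.ncard_union_le`, or work with `Finset.image` and `Finset.card_biUnion_le`).
-/

namespace Pool.Agent.MVD

open NumberField IsDedekindDomain Pool.Agent.H7.Abc Pool.Agent.AbcE MvPolynomial

/-- The residue classes modulo several primes. -/
theorem res_cls {K : Type*} [Field K] [NumberField K] {m : ℕ}
    (Q : Finset (HeightOneSpectrum (𝓞 K))) (S : Finset (Fin m → K))
    (hS : ∀ P ∈ S, ∀ v ∈ Q, ∀ j, FinitePlace.mk v (P j) ≤ 1) {β : Type*} (f : (Fin m → K) → β)
    {A : ℝ} (hA : 0 ≤ A)
    (h : ∀ S' ⊆ S, (∀ P ∈ S', ∀ P' ∈ S', ∀ v ∈ Q, ∀ j,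
      FinitePlace.mk v (P j - P' j) ≤ Real.exp (-ln v)) →
      ((f '' (S' : Set (Fin m → K))).ncard : ℝ) ≤ A) :
    ((f '' (S : Set (Fin m → K))).ncard : ℝ) ≤ Real.exp (m * AbcF.LN Q) * A := by
  classical
  choose ρ hρ1 hρ2 using fun v : HeightOneSpectrum (𝓞 K) => residue v
  have hex : ∀ v : HeightOneSpectrum (𝓞 K), Real.exp (ln v) = (Ideal.absNorm v.asIdeal : ℝ) := by
    intro v
    exact Real.exp_log (by have := two_le_norm v; linarith)
  set Φ : (Fin m → K) → ({v // v ∈ Q} → Fin m → ℕ) := fun P v j => ρ v.1 (P j) with hΦ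
  set T : Finset ({v // v ∈ Q} → Fin m → ℕ) := Fintype.piFinset
    (fun v => Fintype.piFinset (fun _ => Finset.range (Ideal.absNorm v.1.asIdeal))) with hT
  have hΦT : ∀ P, Φ P ∈ T := by
    intro P
    rw [hT, Fintype.mem_piFinset]
    intro v
    rw [Fintype.mem_piFinset]
    intro j
    rw [Finset.mem_range]
    have := hρ1 v.1 (P j)
    rw [hex] at this
    exact_mod_cast this
  have hcard : (T.card : ℝ) = Real.exp (m * AbcF.LN Q) := by
    rw [hT, Fintype.card_piFinset]
    simp only [Fintype.card_piFinset, Finset.card_range, Finset.prod_const, Finset.card_univ,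
      Fintype.card_fin]
    push_cast
    rw [AbcF.LN, Finset.mul_sum, Real.exp_sum, ← Finset.prod_coe_sort Q]
    refine Finset.prod_congr rfl (fun v _ => ?_)
    rw [Real.exp_nat_mul, hex]
  have h1 : f '' (S : Set (Fin m → K)) = ((S.image f : Finset β) : Set β) := by
    rw [Finset.coe_image]
  rw [h1, Set.ncard_coe_finset]
  have h2 : S.image f ⊆ T.biUnion (fun t => (S.filter (fun P => Φ P = t)).image f) := by
    intro b hb
    obtain ⟨P, hP, rfl⟩ := Finset.mem_image.1 hb
    rw [Finset.mem_biUnion]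
    exact ⟨Φ P, hΦT P, Finset.mem_image.2 ⟨P, Finset.mem_filter.2 ⟨hP, rfl⟩, rfl⟩⟩
  have h3 : ((S.image f).card : ℝ) ≤
      ∑ t ∈ T, (((S.filter (fun P => Φ P = t)).image f).card : ℝ) := by
    exact_mod_cast (Finset.card_le_card h2).trans Finset.card_biUnion_le
  refine h3.trans ?_
  have h4 : ∀ t ∈ T, (((S.filter (fun P => Φ P = t)).image f).card : ℝ) ≤ A := by
    intro t _
    have h5 := h (S.filter (fun P => Φ P = t)) (Finset.filter_subset _ _) (by
      intro P hP P' hP' v hv j
      obtain ⟨hP1, hP2⟩ := Finset.mem_filter.1 hP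
      obtain ⟨hP1', hP2'⟩ := Finset.mem_filter.1 hP'
      refine hρ2 v _ _ (hS P hP1 v hv j) (hS P' hP1' v hv j) ?_
      exact congrFun (congrFun (hP2.trans hP2'.symm) ⟨v, hv⟩) j)
    rw [← Finset.coe_image, Set.ncard_coe_finset] at h5
    exact h5
  refine (Finset.sum_le_sum h4).trans ?_
  rw [Finset.sum_const, nsmul_eq_mul, hcard]

end Pool.Agent.MVD
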