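import Pool.Agent.MVD.DefsB

/-!
# Module Residue (size 3)

Every `x ∈ K` with `mk v x ≤ 1` is congruent to an algebraic integer modulo the maximal ideal of the valuation ring: `x = α / β`, `α, β ∈ 𝓞 K`; one can
choose `β ∉ v` (if `v(x) ≤ 1`: `IsDedekindDomain.HeightOneSpectrum` lemmas, e.g. `exists_..._of_valuation_le_one`, or localization at `v.asIdeal`), then
`γ ∈ 𝓞 K` with `β γ - 1 ∈ v`, and `x - α γ = α (1 - β γ) / β` has `mk v < 1`. The class of `a = α γ` in the finite ring `𝓞 K ⧸ v.asIdeal`, of cardinality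
`absNorm v` (`Ideal.absNorm_apply`, `Submodule.cardQuot`), does not depend on choices modulo `mk v < 1`; define `ρ x` = an enumeration
(`Fintype.equivFin` or `Nat.card`, values `< absNorm v = exp (ln v)`) of the class of a chosen `a(x)`. If `ρ x = ρ y` then `a(x) - a(y) ∈ v`, so
`mk v (x - y) < 1`, and `mk v z < 1` implies `mk v z ≤ (absNorm v)⁻¹ = exp (-ln v)` (`mk_eq_zpow`: `mk v z = absNorm^(-ord)`, `ord ≥ 1`; `z = 0`:
trivial). For `mk v x > 1` put `ρ x = 0`. (Mathlib has also the residue field of the adic completion integers, if this is easier.)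
-/

namespace Pool.Agent.MVD

open NumberField IsDedekindDomain Pool.Agent.H7.Abc Pool.Agent.AbcE MvPolynomial

private theorem residue_le {K : Type*} [Field K] [NumberField K] (v : HeightOneSpectrum (𝓞 K))
    (x : K) : FinitePlace.mk v x ≤ 1 ↔ v.valuation K x ≤ 1 := by
  have hm := WithZeroMulInt.toNNReal_strictMono (HeightOneSpectrum.one_lt_absNorm_nnreal v)
  rw [FinitePlace.mk_apply, FinitePlace.norm_embedding', ← hm.le_iff_le, map_one]
  exact_mod_cast Iff.rfl

private theorem residue_lt {K : Type*} [Field K] [NumberField K] (v : HeightOneSpectrum (𝓞 K))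
    (x : K) : FinitePlace.mk v x < 1 ↔ v.valuation K x < 1 := by
  have hm := WithZeroMulInt.toNNReal_strictMono (HeightOneSpectrum.one_lt_absNorm_nnreal v)
  rw [FinitePlace.mk_apply, FinitePlace.norm_embedding', ← hm.lt_iff_lt, map_one]
  exact_mod_cast Iff.rfl

/-- The residue classes of a prime. -/
theorem residue {K : Type*} [Field K] [NumberField K] (v : HeightOneSpectrum (𝓞 K)) :
    ∃ ρ : K → ℕ, (∀ x, (ρ x : ℝ) < Real.exp (ln v)) ∧
      ∀ x y, FinitePlace.mk v x ≤ 1 → FinitePlace.mk v y ≤ 1 → ρ x = ρ y →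
        FinitePlace.mk v (x - y) ≤ Real.exp (-ln v) := by
  classical
  have hN := two_le_norm v
  have hNpos : (0 : ℝ) < Ideal.absNorm v.asIdeal := by linarith
  have hex : Real.exp (ln v) = Ideal.absNorm v.asIdeal := Real.exp_log hNpos
  have hch : ∀ x : K, ∃ a : 𝓞 K, v.valuation K x ≤ 1 →
      v.valuation K (algebraMap (𝓞 K) K a - x) < 1 := by
    intro x
    by_cases hx : v.valuation K x ≤ 1
    · obtain ⟨a, ha⟩ := v.exists_valuation_sub_lt_of_integer hx 1
      exact ⟨a, fun _ => by simpa using ha⟩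
    · exact ⟨0, fun h => absurd h hx⟩
  choose a ha using hch
  have hcard : Nat.card (𝓞 K ⧸ v.asIdeal) = Ideal.absNorm v.asIdeal := by
    rw [Ideal.absNorm_apply, Submodule.cardQuot_apply]
  have hcard0 : Nat.card (𝓞 K ⧸ v.asIdeal) ≠ 0 := by
    rw [hcard]
    have : (0 : ℝ) < Ideal.absNorm v.asIdeal := hNpos
    exact_mod_cast this.ne'
  have hfin : Finite (𝓞 K ⧸ v.asIdeal) := Nat.finite_of_card_ne_zero hcard0
  refine ⟨fun x => (Finite.equivFin (𝓞 K ⧸ v.asIdeal) (Ideal.Quotient.mk v.asIdeal (a x))).val,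
    ?_, ?_⟩
  · intro x
    rw [hex, ← hcard]
    exact_mod_cast (Finite.equivFin (𝓞 K ⧸ v.asIdeal) (Ideal.Quotient.mk v.asIdeal (a x))).2
  · intro x y hx hy hxy
    have h1 : Ideal.Quotient.mk v.asIdeal (a x) = Ideal.Quotient.mk v.asIdeal (a y) :=
      (Finite.equivFin (𝓞 K ⧸ v.asIdeal)).injective (Fin.ext hxy)
    rw [Ideal.Quotient.mk_eq_mk_iff_sub_mem] at h1
    have h2 : v.valuation K (algebraMap (𝓞 K) K (a x - a y)) < 1 := by
      rw [HeightOneSpectrum.valuation_of_algebraMap]
      exact (v.intValuation_lt_one_iff_mem _).2 h1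
    have h3 := ha x ((residue_le v x).1 hx)
    have h4 := ha y ((residue_le v y).1 hy)
    have h5 : v.valuation K (x - y) < 1 := by
      have e : x - y = -(algebraMap (𝓞 K) K (a x) - x) + algebraMap (𝓞 K) K (a x - a y) +
          (algebraMap (𝓞 K) K (a y) - y) := by
        rw [map_sub]; ring
      rw [e]
      refine Valuation.map_add_lt _ (Valuation.map_add_lt _ ?_ h2) h4
      rwa [Valuation.map_neg]
    rw [Real.exp_neg, hex]
    by_cases h0 : x - y = 0
    · rw [h0, map_zero]
      positivity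
    · have h6 := (residue_lt v (x - y)).2 h5
      rw [mk_eq_zpow v h0] at h6 ⊢
      have h7 : -ord v (x - y) < 0 := by
        by_contra hcon
        push Not at hcon
        exact absurd h6 (not_lt.2 (one_le_zpow₀ (by linarith) hcon))
      have h8 : -ord v (x - y) ≤ -1 := by omega
      calc (Ideal.absNorm v.asIdeal : ℝ) ^ (-ord v (x - y))
          ≤ (Ideal.absNorm v.asIdeal : ℝ) ^ (-1 : ℤ) := zpow_le_zpow_right₀ (by linarith) h8
        _ = _ := zpow_neg_one _

end Pool.Agent.MVD
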