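import Pool.Agent.MVD.Taylor
import Pool.Agent.MVD.Red

/-!
# Module SolveLin (size 5)

Let `Z` be the set of `u` with all `eval (x0 + u) R.F = 0`, `R ∈ l`, and `eval (x0 + u) Y = 0`.
`SolveLin_LQ V Z I f` says that on `Z` the function `f` is an integral linear form of the
coordinates in `I` up to the values of an integral polynomial of order at least `2`.
-/

namespace Pool.Agent.MVD

open MvPolynomial

section Aux

variable {K : Type*} [Field K] {n : ℕ}

/-- On `Z` the function `f` is an integral linear form of the coordinates in `I` up to terms of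
higher order. -/
def SolveLin_LQ (V : K → ℝ) (Z : (Fin n → K) → Prop) (I : Finset (Fin n))
    (f : (Fin n → K) → K) : Prop :=
  ∃ (c : Fin n → K) (q : MvPolynomial (Fin n) K), (∀ i, V (c i) ≤ 1) ∧ IntP V q ∧ OrdGE 2 q ∧
    ∀ u : Fin n → K, Z u → f u = ∑ i ∈ I, c i * u i + eval u q

variable {V : K → ℝ} {Z : (Fin n → K) → Prop}

theorem SolveLin_ord_zero (e : ℕ) : OrdGE e (0 : MvPolynomial (Fin n) K) := by
  intro m hm
  exact absurd (coeff_zero m) hm

theorem SolveLin_int_zero (hV : NA V) : IntP V (0 : MvPolynomial (Fin n) K) := by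
  intro m
  rw [coeff_zero, hV.zero]
  exact zero_le_one

theorem SolveLin_congr {I : Finset (Fin n)} {f g : (Fin n → K) → K}
    (h : SolveLin_LQ V Z I f) (hfg : ∀ u, Z u → g u = f u) : SolveLin_LQ V Z I g := by
  obtain ⟨c, q, hc, hq, ho, hu⟩ := h
  exact ⟨c, q, hc, hq, ho, fun u hz => (hfg u hz).trans (hu u hz)⟩

theorem SolveLin_poly (hV : NA V) (I : Finset (Fin n)) {q : MvPolynomial (Fin n) K}
    (hq : IntP V q) (ho : OrdGE 2 q) : SolveLin_LQ V Z I (fun u => eval u q) := by
  refine ⟨fun _ => 0, q, fun i => ?_, hq, ho, fun u _ => ?_⟩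
  · rw [hV.zero]; exact zero_le_one
  · simp

theorem SolveLin_coord (hV : NA V) {I : Finset (Fin n)} {i : Fin n} (hi : i ∈ I) :
    SolveLin_LQ V Z I (fun u => u i) := by
  classical
  refine ⟨fun j => if j = i then 1 else 0, 0, fun j => ?_, SolveLin_int_zero hV,
    SolveLin_ord_zero 2, fun u _ => ?_⟩
  · show V (if j = i then 1 else 0) ≤ 1
    split_ifs
    · rw [hV.one]
    · rw [hV.zero]; exact zero_le_one
  · simp [ite_mul, Finset.sum_ite_eq', hi]

theorem SolveLin_add (hV : NA V) {I : Finset (Fin n)} {f g : (Fin n → K) → K}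
    (hf : SolveLin_LQ V Z I f) (hg : SolveLin_LQ V Z I g) :
    SolveLin_LQ V Z I (fun u => f u + g u) := by
  obtain ⟨c, q, hc, hq, ho, hu⟩ := hf
  obtain ⟨c', q', hc', hq', ho', hu'⟩ := hg
  refine ⟨fun i => c i + c' i, q + q', fun i => (hV.add _ _).trans (max_le (hc i) (hc' i)),
    intP_add hV hq hq', ordGE_add ho ho', fun u hz => ?_⟩
  show f u + g u = ∑ i ∈ I, (c i + c' i) * u i + eval u (q + q')
  rw [hu u hz, hu' u hz, map_add]
  simp only [add_mul, Finset.sum_add_distrib]
  ring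

theorem SolveLin_smul (hV : NA V) {I : Finset (Fin n)} {f : (Fin n → K) → K} {a : K}
    (ha : V a ≤ 1) (hf : SolveLin_LQ V Z I f) : SolveLin_LQ V Z I (fun u => a * f u) := by
  obtain ⟨c, q, hc, hq, ho, hu⟩ := hf
  refine ⟨fun i => a * c i, C a * q, fun i => ?_, intP_mul hV (intP_C hV ha) hq, ?_,
    fun u hz => ?_⟩
  · show V (a * c i) ≤ 1
    rw [hV.mul]
    exact mul_le_one₀ ha (hV.nonneg _) (hc i)
  · intro m hm
    rw [coeff_C_mul] at hm
    exact ho m (right_ne_zero_of_mul hm)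
  · show a * f u = ∑ i ∈ I, a * c i * u i + eval u (C a * q)
    rw [hu u hz, map_mul, eval_C, mul_add, Finset.mul_sum]
    simp only [mul_assoc]

theorem SolveLin_zero (hV : NA V) (I : Finset (Fin n)) :
    SolveLin_LQ V Z I (fun _ => 0) := by
  refine SolveLin_congr (SolveLin_poly hV I (SolveLin_int_zero hV) (SolveLin_ord_zero 2))
    (fun u _ => ?_)
  simp

theorem SolveLin_sum (hV : NA V) {I : Finset (Fin n)} {ι : Type*} (s : Finset ι)
    (f : ι → (Fin n → K) → K) (h : ∀ i ∈ s, SolveLin_LQ V Z I (f i)) :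
    SolveLin_LQ V Z I (fun u => ∑ i ∈ s, f i u) := by
  classical
  induction s using Finset.induction_on with
  | empty => simpa using SolveLin_zero (Z := Z) hV I
  | insert i s hi ih =>
    simp only [Finset.sum_insert hi]
    exact SolveLin_add hV (h i (Finset.mem_insert_self _ _))
      (ih (fun j hj => h j (Finset.mem_insert_of_mem hj)))

/-- Substitution. -/
theorem SolveLin_subst (hV : NA V) {I J : Finset (Fin n)} {f : (Fin n → K) → K}
    (hf : SolveLin_LQ V Z J f) (h : ∀ i ∈ J, SolveLin_LQ V Z I (fun u => u i)) :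
    SolveLin_LQ V Z I f := by
  obtain ⟨c, q, hc, hq, ho, hu⟩ := hf
  have h1 : SolveLin_LQ V Z I (fun u => ∑ i ∈ J, c i * u i) :=
    SolveLin_sum hV J (fun i u => c i * u i) (fun i hi => SolveLin_smul hV (hc i) (h i hi))
  exact SolveLin_congr (SolveLin_add hV h1 (SolveLin_poly hV I hq ho)) hu

theorem SolveLin_inv (hV : NA V) {x : K} (hx : V x = 1) : x ≠ 0 ∧ V x⁻¹ = 1 := by
  have h0 : x ≠ 0 := by
    intro h
    rw [h, hV.zero] at hx
    exact zero_ne_one hx
  refine ⟨h0, ?_⟩
  have := hV.mul x x⁻¹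
  rw [mul_inv_cancel₀ h0, hV.one, hx, one_mul] at this
  exact this.symm

/-- Solve a linear relation for a coordinate with unit coefficient. -/
theorem SolveLin_solve (hV : NA V) {J : Finset (Fin n)} {w : Fin n → K}
    (hw : ∀ j, V (w j) ≤ 1) (hg : SolveLin_LQ V Z ∅ (fun u => ∑ j, w j * u j))
    (hs : ∀ j ∉ J, w j = 0) {k : Fin n} (hk : V (w k) = 1) :
    SolveLin_LQ V Z (J.erase k) (fun u => u k) := by
  classical
  obtain ⟨h0, hinv⟩ := SolveLin_inv hV hk
  obtain ⟨c, q, -, hq, ho, hu⟩ := hg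
  have hkJ : k ∈ J := by
    by_contra h
    exact h0 (hs k h)
  have h1 : SolveLin_LQ V Z (J.erase k)
      (fun u => ∑ i ∈ J.erase k, (-(w k)⁻¹ * w i) * u i) := by
    refine SolveLin_sum hV (J.erase k) (fun i u => (-(w k)⁻¹ * w i) * u i) (fun i hi => ?_)
    refine SolveLin_smul hV ?_ (SolveLin_coord hV hi)
    rw [hV.mul, na_neg hV, hinv, one_mul]
    exact hw i
  have h2 : SolveLin_LQ V Z (J.erase k) (fun u => (w k)⁻¹ * eval u q) :=
    SolveLin_smul hV hinv.le (SolveLin_poly hV _ hq ho)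
  refine SolveLin_congr (SolveLin_add hV h1 h2) (fun u hz => ?_)
  have h3 := hu u hz
  simp only [Finset.sum_empty, zero_add] at h3
  have h4 : ∑ j, w j * u j = w k * u k + ∑ i ∈ J.erase k, w i * u i := by
    have h6 : w k * u k + ∑ i ∈ J.erase k, w i * u i = ∑ i ∈ J, w i * u i :=
      Finset.add_sum_erase J (fun i => w i * u i) hkJ
    rw [h6]
    symm
    refine Finset.sum_subset (Finset.subset_univ J) (fun j _ hj => ?_)
    rw [hs j hj, zero_mul]
  rw [h4] at h3
  have h5 : ∑ i ∈ J.erase k, (-(w k)⁻¹ * w i) * u i =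
      -(w k)⁻¹ * ∑ i ∈ J.erase k, w i * u i := by
    rw [Finset.mul_sum]
    exact Finset.sum_congr rfl (fun i _ => by ring)
  show u k = ∑ i ∈ J.erase k, (-(w k)⁻¹ * w i) * u i + (w k)⁻¹ * eval u q
  rw [h5, ← h3]
  field_simp
  ring

theorem SolveLin_intP_pderiv (hV : NA V) {g : MvPolynomial (Fin n) K} (hg : IntP V g)
    (j : Fin n) : IntP V (pderiv j g) := by
  intro m
  rw [coeff_pderiv]
  rw [hV.mul]
  refine mul_le_one₀ (hg _) (hV.nonneg _) ?_
  have := na_natCast hV (m j + 1)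
  push_cast at this
  exact this

theorem SolveLin_eval_le (hV : NA V) {g : MvPolynomial (Fin n) K} (hg : IntP V g)
    {x0 : Fin n → K} (hx0 : ∀ j, V (x0 j) ≤ 1) : V (eval x0 g) ≤ 1 := by
  have := intP_eval hV hg (e := 0) (fun m _ => Nat.zero_le _) zero_le_one le_rfl hx0
  simpa using this

/-- The differential of a polynomial vanishing on `Z`. -/
theorem SolveLin_taylor (hV : NA V) {g : MvPolynomial (Fin n) K} (hg : IntP V g)
    {x0 : Fin n → K} (hx0 : ∀ j, V (x0 j) ≤ 1) (h0 : eval x0 g = 0)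
    (hZ : ∀ u, Z u → eval (fun j => x0 j + u j) g = 0) :
    SolveLin_LQ V Z ∅ (fun u => ∑ j, eval x0 (pderiv j g) * u j) := by
  obtain ⟨q, hq, ho, hu⟩ := taylor hV hg hx0
  have h1 : SolveLin_LQ V Z ∅ (fun u => -1 * eval u q) := by
    refine SolveLin_smul hV ?_ (SolveLin_poly hV _ hq ho)
    rw [na_neg hV, hV.one]
  refine SolveLin_congr h1 (fun u hz => ?_)
  have := hu u
  rw [hZ u hz, h0, zero_add] at this
  show ∑ j, eval x0 (pderiv j g) * u j = -1 * eval u q
  linear_combination -this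

end Aux

/-- On the common zeros near `x0` of the relations and of the polynomial `Y`, all the coordinates
are integral linear forms of the coordinates in `free \ {j0}`, up to terms of higher order. -/
theorem solve_lin {K : Type*} [Field K] {n : ℕ} {V : K → ℝ} (hV : NA V) {l : List (Rel K n)}
    (hT : Tower Finset.univ l) {x0 : Fin n → K} (hx0 : ∀ j, V (x0 j) ≤ 1)
    (hInt : ∀ R ∈ l, IntP V R.F)
    (hF : ∀ R ∈ l, eval x0 R.F = 0 ∧ V (eval x0 (pderiv R.k R.F)) = 1)
    {Y : MvPolynomial (Fin n) K} (hY : IntP V Y) (hY0 : eval x0 Y = 0) {j0 : Fin n}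
    (hj0 : j0 ∈ free Finset.univ l)
    (hJ : V (redE x0 l (fun j => eval x0 (pderiv j Y)) j0) = 1) (j : Fin n) :
    ∃ (c : Fin n → K) (q : MvPolynomial (Fin n) K), (∀ i, V (c i) ≤ 1) ∧ IntP V q ∧ OrdGE 2 q ∧
      ∀ u : Fin n → K, (∀ R ∈ l, eval (fun j => x0 j + u j) R.F = 0) →
        eval (fun j => x0 j + u j) Y = 0 →
        u j = ∑ i ∈ (free Finset.univ l).erase j0, c i * u i + eval u q := by
  classical
  set Z : (Fin n → K) → Prop := fun u => (∀ R ∈ l, eval (fun j => x0 j + u j) R.F = 0) ∧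
    eval (fun j => x0 j + u j) Y = 0 with hZ
  -- good covectors
  have hgoodR : ∀ R ∈ l, (∀ j, V (eval x0 (pderiv j R.F)) ≤ 1) ∧
      SolveLin_LQ V Z ∅ (fun u => ∑ j, eval x0 (pderiv j R.F) * u j) := by
    intro R hR
    exact ⟨fun j => SolveLin_eval_le hV (SolveLin_intP_pderiv hV (hInt R hR) j) hx0,
      SolveLin_taylor hV (hInt R hR) hx0 (hF R hR).1 (fun u hu => hu.1 R hR)⟩
  have hgoodred : ∀ l' : List (Rel K n), (∀ R ∈ l', R ∈ l) → ∀ w : Fin n → K,
      (∀ j, V (w j) ≤ 1) → SolveLin_LQ V Z ∅ (fun u => ∑ j, w j * u j) →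
      (∀ j, V (redE x0 l' w j) ≤ 1) ∧
        SolveLin_LQ V Z ∅ (fun u => ∑ j, redE x0 l' w j * u j) := by
    intro l'
    induction l' with
    | nil => intro _ w hw hg; exact ⟨hw, hg⟩
    | cons R l' ih =>
      intro hl w hw hg
      have hR := hgoodR R (hl R (List.mem_cons_self))
      have hl' : ∀ R ∈ l', R ∈ l := fun R' h => hl R' (List.mem_cons_of_mem _ h)
      have ha := hR.1 R.k
      apply ih hl'
      · intro j
        have h1 : V (eval x0 (pderiv R.k R.F) * w j) ≤ 1 := by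
          rw [hV.mul]; exact mul_le_one₀ ha (hV.nonneg _) (hw j)
        have h2 : V (-(w R.k * eval x0 (pderiv j R.F))) ≤ 1 := by
          rw [na_neg hV, hV.mul]; exact mul_le_one₀ (hw _) (hV.nonneg _) (hR.1 j)
        rw [sub_eq_add_neg]
        exact (hV.add _ _).trans (max_le h1 h2)
      · have h1 := SolveLin_smul hV ha hg
        have h2 := SolveLin_smul hV (a := -w R.k) (by rw [na_neg hV]; exact hw _) hR.2
        refine SolveLin_congr (SolveLin_add hV h1 h2) (fun u _ => ?_)
        show ∑ j, (eval x0 (pderiv R.k R.F) * w j - w R.k * eval x0 (pderiv j R.F)) * u j =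
          eval x0 (pderiv R.k R.F) * ∑ j, w j * u j +
            -w R.k * ∑ j, eval x0 (pderiv j R.F) * u j
        rw [Finset.mul_sum, Finset.mul_sum, ← Finset.sum_add_distrib]
        exact Finset.sum_congr rfl (fun j _ => by ring)
  -- the relation (1)
  have hWg := hgoodred l (fun R h => h) (fun j => eval x0 (pderiv j Y))
    (fun j => SolveLin_eval_le hV (SolveLin_intP_pderiv hV hY j) hx0)
    (SolveLin_taylor hV hY hx0 hY0 (fun u hu => hu.2))
  have h1 : SolveLin_LQ V Z ((free Finset.univ l).erase j0) (fun u => u j0) :=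
    SolveLin_solve hV hWg.1 hWg.2 (fun j hj => redE_support hT x0 _ hj) hJ
  -- the relations (2)
  have h2 : ∀ (l' : List (Rel K n)) (J : Finset (Fin n)), Tower J l' → (∀ R ∈ l', R ∈ l) →
      ∀ j ∈ J, SolveLin_LQ V Z (free J l') (fun u => u j) := by
    intro l'
    induction l' with
    | nil => intro J _ _ j hj; exact SolveLin_coord hV hj
    | cons R l' ih =>
      intro J hTJ hl j hj
      have hl' : ∀ R ∈ l', R ∈ l := fun R' h => hl R' (List.mem_cons_of_mem _ h)
      have hRl := hl R (List.mem_cons_self)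
      have hIH := ih (J.erase R.k) hTJ.2.2 hl'
      by_cases hjk : j = R.k
      · subst hjk
        have h3 : SolveLin_LQ V Z (J.erase R.k) (fun u => u R.k) :=
          SolveLin_solve hV (hgoodR R hRl).1 (hgoodR R hRl).2
            (fun i hi => by
              rw [tower_pderiv hTJ R (List.mem_cons_self) i hi, map_zero])
            (hF R hRl).2
        exact SolveLin_subst hV h3 hIH
      · exact hIH j (Finset.mem_erase.mpr ⟨hjk, hj⟩)
  have h3 : SolveLin_LQ V Z ((free Finset.univ l).erase j0) (fun u => u j) := by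
    refine SolveLin_subst hV (h2 l Finset.univ hT (fun R h => h) j (Finset.mem_univ j))
      (fun i hi => ?_)
    by_cases hij : i = j0
    · subst hij; exact h1
    · exact SolveLin_coord hV (Finset.mem_erase.mpr ⟨hij, hi⟩)
  obtain ⟨c, q, hc, hq, ho, hu⟩ := h3
  exact ⟨c, q, hc, hq, ho, fun u ha hb => hu u ⟨ha, hb⟩⟩

end Pool.Agent.MVD
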