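import Pool.Agent.MVD.TsDefs

/-!
# Module Split (size 3)

Everything from `rd_add`, `sz_add` (AbcE/Roles), `c2_rd_finset`, `c2_sz_finset`, `c2_sz_mono`, `c2_rd_zero`, `c2_rd_compl` (AbcF/Costs2), `rd_add_compl` (Costs1), `mul_rd_le_sz`.
`split_low`: the exponents from 1 to `E` are the disjoint union of `{1 ≤ n < J}`, `S` and `Icc J E \ S`; `rd x lowSᶜ = rd x univ - rd x lowS` (`rd_add_compl`) and `rd x lowS + ∑_{Icc J E \ S} = rd x {1..E}`-part. `sz_low`: `sz x {1 ≤ n < J} ≤ J * rd x univ`-like: `sz x A ≤ J * rd x A` if all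
elements of `A` are at most `J` (termwise in the `finsum`), and `rd x A ≤ rd x univ`.
-/

namespace Pool.Agent.MVD

open NumberField IsDedekindDomain Pool.Agent.H7.Abc Pool.Agent.AbcE Pool.Agent.AbcF

variable {K : Type*} [Field K] [NumberField K]

/-- The exponents less than `J` and those in `S`. -/
def lowS (J : ℕ) (S : Finset ℕ) : Set ℕ := {n | 1 ≤ n ∧ n < J} ∪ (S : Set ℕ)

theorem split_low {x : K} (hx : x ≠ 0) {J E : ℕ} (hJE : J ≤ E) {S : Finset ℕ}
    (hS : S ⊆ Finset.Icc J E) :
    rd x (lowS J S)ᶜ = (rd x Set.univ - ∑ n ∈ Finset.range (E + 1), rd x {n}) +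
      ∑ n ∈ Finset.Icc J E \ S, rd x {n} := by
  classical
  have h1 : lowS J S = ((Finset.Ico 1 J ∪ S : Finset ℕ) : Set ℕ) := by
    ext n
    simp only [lowS, Set.mem_union, Set.mem_ofPred_eq, Finset.coe_union, Finset.coe_Ico,
      Set.mem_Ico]
  have h2 : rd x (lowS J S) = ∑ n ∈ Finset.Ico 1 J ∪ S, rd x {n} := by
    rw [h1, c2_rd_finset hx]
  have h3 := c2_rd_compl hx (lowS J S)
  have hdisj : Disjoint (Finset.Ico 1 J ∪ S) (Finset.Icc J E \ S) := by
    rw [Finset.disjoint_left]
    intro n hn hn'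
    rw [Finset.mem_union, Finset.mem_Ico] at hn
    rw [Finset.mem_sdiff, Finset.mem_Icc] at hn'
    rcases hn with h | h
    · omega
    · exact hn'.2 h
  have h4 : ∑ n ∈ Finset.range (E + 1), rd x {n} =
      ∑ n ∈ Finset.Ico 1 J ∪ S, rd x {n} + ∑ n ∈ Finset.Icc J E \ S, rd x {n} := by
    rw [← Finset.sum_union hdisj]
    symm
    apply Finset.sum_subset
    · intro n hn
      rw [Finset.mem_union, Finset.mem_union, Finset.mem_Ico, Finset.mem_sdiff,
        Finset.mem_Icc] at hn
      rw [Finset.mem_range]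
      rcases hn with (h | h) | h
      · omega
      · have := Finset.mem_Icc.1 (hS h)
        omega
      · omega
    · intro n hn hn'
      rw [Finset.mem_range] at hn
      rw [Finset.mem_union, Finset.mem_union, Finset.mem_Ico, Finset.mem_sdiff,
        Finset.mem_Icc] at hn'
      push Not at hn'
      have hn0 : n = 0 := by
        by_contra h0
        by_cases hnJ : n < J
        · have := hn'.1.1 (by omega)
          omega
        · exact hn'.1.2 (hn'.2 ⟨by omega, by omega⟩)
      rw [hn0, c2_rd_zero]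
  rw [h4]
  rw [h2] at h3
  linarith

theorem sz_low {x : K} (hx : x ≠ 0) (J : ℕ) (S : Finset ℕ) :
    sz x (lowS J S \ (S : Set ℕ)) ≤ J * rd x Set.univ := by
  classical
  unfold sz rd
  rw [mul_finsum]
  refine finsum_le_finsum' ?_ ?_ ?_
  · refine finite_supp hx _ fun v hv => ?_
    simp [hv]
  · refine finite_supp hx _ fun v hv => ?_
    simp [hv]
  · intro v
    by_cases hv : 0 < ord v x ∧ (ord v x).toNat ∈ lowS J S \ (S : Set ℕ)
    · simp only [if_pos hv, if_pos (show 0 < ord v x ∧ (ord v x).toNat ∈ Set.univ from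
        ⟨hv.1, Set.mem_univ _⟩)]
      have h1 : (ord v x).toNat < J := by
        rcases hv.2.1 with h | h
        · exact h.2
        · exact absurd h hv.2.2
      have h2 : (ord v x : ℝ) ≤ (J : ℝ) := by
        have : ord v x ≤ (J : ℤ) := by
          have := Int.toNat_of_nonneg hv.1.le
          omega
        exact_mod_cast this
      exact mul_le_mul_of_nonneg_right h2 (log_norm_pos v).le
    · simp only [if_neg hv]
      refine mul_nonneg (Nat.cast_nonneg _) ?_
      split_ifs
      · exact (log_norm_pos v).le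
      · exact le_rfl

theorem rd_single_le {x : K} (hx : x ≠ 0) (n : ℕ) : rd x {n} ≤ rd x Set.univ := by
  have h1 := c2_rd_compl hx ({n} : Set ℕ)
  have h2 := rd_nonneg x ({n} : Set ℕ)ᶜ
  linarith

/-- A place with exponent `n` has norm at most the radical of the exponent. -/
theorem ln_le_rd {x : K} (hx : x ≠ 0) {v : HeightOneSpectrum (𝓞 K)} (hv : 0 < ord v x) :
    ln v ≤ rd x {(ord v x).toNat} := by
  unfold rd
  refine le_trans ?_ (sum_le_finsum' (finite_supp hx _ fun w hw => ?_) (fun w => ?_) {v})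
  · rw [Finset.sum_singleton, if_pos ⟨hv, Set.mem_singleton _⟩]
  · simp [hw]
  · split_ifs
    · exact (log_norm_pos w).le
    · exact le_rfl

end Pool.Agent.MVD
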