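import Pool.Agent.MVD.ClassRel
import Pool.Agent.MVD.Jac
import Pool.Agent.MVD.HgtEval
import Pool.Agent.MVD.Primes
import Pool.Agent.MVD.GoodPrime
import Pool.Agent.MVD.Residue

/-!
# Module Step (size 6)

If `n = 0` no point satisfies the last condition: `T = ∅`. Let `n ≥ 1`, `d = finrank ≥ 1`, `ε' = ε / (2 n d)`; `D', A` from `class_rel K n C1 ε'`.
HEIGHTS. For `P ∈ S`, `w1 i = eval P (om K p s i) = (p_i - s_i) ∏_{k≠i} P_k`, `w2 i` the same with `q`: heights at most
`B1 * L` with `B1` depending on `K, n, C1` only: `hgt (p_i : K) ≤ d L` (`p_i ≤ exp L`, `hgt_natCast`; `p_i = 0`: `hgt_zero`). With `B2 = max` of everything (and 1)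
`hgt_redE` gives `W1 j = redE P l w1 j`, `W2 j`, and `eval P (pderiv R.k R.F)` of height at most `A2 L` (`l.length ≤ n` by `tower_card`).
`κ0 = 3 A2 + d + 2`, say: larger than the constant in `hgt_ratio`. For `P ∈ S` choose `j = j(P) ∈ I = free univ l` with `W1 j ≠ 0`. Then
`z(P) = y W1 j + (1-y) W2 j ≠ 0` (`y = yv a p s P`): otherwise `hgt y ≤ hgt (W1 j) + 2 hgt (W2 j) + d log 2 < κ0 L`.
PRIMES. Fix `κ1`. The following elements have heights at most `H = A3 L`, `A3 = A3(κ1)`: all `P_j`; `y`; `1 - y`; `z(P)`; `eval P (pderiv R.k R.F)`, `R ∈ l`; all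
coefficients `coeff m (R.f s)`, `R ∈ l`, `s ≤ D`, `m ≤ D` (componentwise): their number is at most `N1 = N1(n, D)`. All of these except possibly the coefficients
are nonzero (`y ≠ 0, 1` since `hgt y ≥ κ0 L > 0`). Choose `N0` natural with `N0 * ε' > 2 A3 N1`; `exists_primes K N0` with `X = ε' L` gives the set `Pr`;
`good_prime`: for each `P` a prime `v = v(P) ∈ Pr` with `mk v = 1` on all nonzero elements of the list.
CLASSES. `ρ_v` from `residue`. The class of `P` is `(j(P), v(P), (ρ_v (P_i))_i)`: at most `n * N0 * (exp (d ε' L + C))^n ≤ C' exp (ε L)` classes; number them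
(`T` = the image in ℕ, e.g. via an injection of the finite set of class data into ℕ). Fix a class, `S'` the points of `S` in it, `x0 ∈ S'` any point, `v, j0` its data. Apply
`class_rel` with `Y = C a ∏ X^p + C b ∏ X^q - ∏ X^s`: `R.F` is integral at `v` (coefficients of `R.f s`, `s ≤ δ ≤ D`; `IntP` closure); `a = y ∏P^s / ∏P^p`,
`b = (1-y) ∏P^s/∏P^q` are units at `v` (`1 - y = b ∏P^q/∏P^s` by the equation), so `Y` is integral; `eval P Y = 0` for `P ∈ S`;
`redE x0 l (dY) j0 * ∏ x0 = (∏ x0^s) z(x0)` (`jac`), so `mk v (redE ..) = 1`; `mk v (P_j - x0_j) ≤ exp (-ln v)` by `residue`. This gives `G`.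
-/

namespace Pool.Agent.MVD

open NumberField IsDedekindDomain Pool.Agent.H7.Abc Pool.Agent.AbcE MvPolynomial

private theorem step_fin (K : Type*) [Field K] [NumberField K] :
    (1 : ℝ) ≤ (Module.finrank ℚ K : ℝ) := by
  have : 0 < Module.finrank ℚ K := Module.finrank_pos
  exact_mod_cast this

private theorem step_log2 {L : ℝ} (hL : 1 ≤ L) : Real.log 2 ≤ L := by
  have := Real.log_two_lt_d9
  linarith

private theorem step_nat {K : Type*} [Field K] [NumberField K] {L : ℝ} (hL : 1 ≤ L) {m : ℕ}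
    (hm : (m : ℝ) ≤ Real.exp L) : hgt (m : K) ≤ Module.finrank ℚ K * L := by
  have hd := step_fin K
  rcases Nat.eq_zero_or_pos m with h | h
  · rw [h, Nat.cast_zero, hgt_zero]
    nlinarith
  · refine (hgt_natCast m h).trans ?_
    apply mul_le_mul_of_nonneg_left _ (by linarith)
    have h1 : Real.log m ≤ Real.log (Real.exp L) := Real.log_le_log (by exact_mod_cast h) hm
    rwa [Real.log_exp] at h1

private theorem step_om {K : Type*} [Field K] [NumberField K] {n : ℕ} {C1 L : ℝ} (hL : 1 ≤ L)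
    (p s : Fin n → ℕ) (hp : ∀ j, (p j : ℝ) ≤ Real.exp L) (hs : ∀ j, (s j : ℝ) ≤ Real.exp L)
    (P : Fin n → K) (hP : ∀ j, hgt (P j) ≤ C1 * L) (i : Fin n) :
    hgt (eval P (om K p s i)) ≤ (3 * Module.finrank ℚ K + n * |C1|) * L := by
  have hd := step_fin K
  unfold om
  rw [map_mul, eval_C, map_prod]
  simp only [eval_X]
  refine (hgt_mul _ _).trans ?_
  have h1 : hgt ((p i : K) - (s i : K)) ≤ 3 * Module.finrank ℚ K * L := by
    refine (hgt_sub _ _).trans ?_
    have e1 := step_nat (K := K) hL (hp i)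
    have e2 := step_nat (K := K) hL (hs i)
    have e3 : (Module.finrank ℚ K : ℝ) * Real.log 2 ≤ Module.finrank ℚ K * L :=
      mul_le_mul_of_nonneg_left (step_log2 hL) (by linarith)
    linarith
  have h2 : hgt (∏ x ∈ Finset.univ.erase i, P x) ≤ n * |C1| * L := by
    refine (hgt_prod _ _).trans ?_
    have e0 : 0 ≤ |C1| * L := mul_nonneg (abs_nonneg _) (by linarith)
    calc ∑ x ∈ Finset.univ.erase i, hgt (P x) ≤ ∑ x ∈ Finset.univ.erase i, |C1| * L :=
          Finset.sum_le_sum fun x _ => (hP x).trans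
            (mul_le_mul_of_nonneg_right (le_abs_self _) (by linarith))
      _ = ((Finset.univ.erase i).card : ℝ) * (|C1| * L) := by
          rw [Finset.sum_const, nsmul_eq_mul]
      _ ≤ n * (|C1| * L) := by
          apply mul_le_mul_of_nonneg_right _ e0
          have : (Finset.univ.erase i).card ≤ n := by
            have := Finset.card_le_card (Finset.erase_subset i (Finset.univ : Finset (Fin n)))
            simpa using this
          exact_mod_cast this
      _ = n * |C1| * L := by ring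
  linarith

private theorem step_len {K : Type*} [Field K] {n : ℕ} {l : List (Rel K n)}
    (h : Tower Finset.univ l) : l.length ≤ n := by
  have := tower_card h
  rw [Finset.card_univ, Fintype.card_fin] at this
  omega

private theorem step_heights (K : Type*) [Field K] [NumberField K] (n D : ℕ) (C1 B : ℝ) :
    ∃ A2 : ℝ, 1 ≤ A2 ∧ ∀ (L : ℝ), 1 ≤ L → ∀ (p s : Fin n → ℕ),
      (∀ j, (p j : ℝ) ≤ Real.exp L) → (∀ j, (s j : ℝ) ≤ Real.exp L) →
      ∀ (l : List (Rel K n)), Tower Finset.univ l → DegLE D l →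
      (∀ R ∈ l, ∀ s m, hgt (coeff m (R.f s)) ≤ B * L) → ∀ P : Fin n → K,
      (∀ j, hgt (P j) ≤ C1 * L) →
      (∀ j, hgt (redE P l (fun i => eval P (om K p s i)) j) ≤ A2 * L) ∧
      ∀ R ∈ l, hgt (eval P (pderiv R.k R.F)) ≤ A2 * L := by
  obtain ⟨A, hA, h⟩ := hgt_redE K n D
  have hd := step_fin K
  set Bb : ℝ := 1 + |B| + |C1| + (3 * Module.finrank ℚ K + n * |C1|) with hBb
  have hB0 := abs_nonneg B
  have hC0 := abs_nonneg C1
  have hn0 : (0 : ℝ) ≤ n * |C1| := mul_nonneg (Nat.cast_nonneg n) hC0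
  have hBb1 : 1 ≤ Bb := by
    rw [hBb]
    linarith
  refine ⟨A * Bb, by nlinarith, ?_⟩
  intro L hL p s hp hs l hT hD hco P hP
  have hBL : 1 ≤ Bb * L := by nlinarith
  have hL0 : 0 ≤ L := by linarith
  have hle : ∀ t : ℝ, t ≤ Bb → t * L ≤ Bb * L := fun t ht => mul_le_mul_of_nonneg_right ht hL0
  obtain ⟨h1, h2⟩ := h l P (fun i => eval P (om K p s i)) (Bb * L) hBL (step_len hT) hD
    (fun R hR t m => (hco R hR t m).trans (hle B (by
      have := le_abs_self B
      rw [hBb]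
      linarith)))
    (fun j => (hP j).trans (hle C1 (by
      have := le_abs_self C1
      rw [hBb]
      linarith)))
    (fun j => (step_om hL p s hp hs P hP j).trans (hle _ (by
      rw [hBb]
      linarith)))
  refine ⟨fun j => ?_, fun R hR => ?_⟩
  · rw [mul_assoc]
    exact h1 j
  · rw [mul_assoc]
    exact h2 R hR

private theorem step_good {K : Type*} [Field K] [NumberField K] {n D : ℕ} {H X : ℝ}
    (hX : 0 < X) (l : List (Rel K n)) (hlen : l.length ≤ n) (hD : DegLE D l) (P : Fin n → K)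
    (y z : K) (hP : ∀ j, hgt (P j) ≤ H) (hy : hgt y ≤ H) (h1y : hgt (1 - y) ≤ H)
    (hz : hgt z ≤ H) (hder : ∀ R ∈ l, hgt (eval P (pderiv R.k R.F)) ≤ H)
    (hco : ∀ R ∈ l, ∀ s m, hgt (coeff m (R.f s)) ≤ H)
    (Pr : Finset (HeightOneSpectrum (𝓞 K))) (hPr : ∀ v ∈ Pr, X ≤ ln v)
    (hc : 2 * H * ((n + (3 + (n + n * ((D + 1) * (D + 1) ^ n))) : ℕ) : ℝ) < Pr.card * X) :
    ∃ v ∈ Pr, (∀ j, P j ≠ 0 → FinitePlace.mk v (P j) = 1) ∧
      (y ≠ 0 → FinitePlace.mk v y = 1) ∧ (1 - y ≠ 0 → FinitePlace.mk v (1 - y) = 1) ∧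
      (z ≠ 0 → FinitePlace.mk v z = 1) ∧
      (∀ R ∈ l, eval P (pderiv R.k R.F) ≠ 0 →
        FinitePlace.mk v (eval P (pderiv R.k R.F)) = 1) ∧
      ∀ R ∈ l, ∀ s ≤ R.δ, ∀ m, FinitePlace.mk v (coeff m (R.f s)) ≤ 1 := by
  classical
  have hH0 : 0 ≤ H := (hgt_nonneg y).trans hy
  let ι : Type := Fin n ⊕ (Fin 3 ⊕ (Fin l.length ⊕
    (Fin l.length × Fin (D + 1) × (Fin n → Fin (D + 1)))))
  let zz : ι → K := Sum.elim P (Sum.elim ![y, 1 - y, z]
    (Sum.elim (fun i => eval P (pderiv (l.get i).k (l.get i).F))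
      (fun t => coeff (Finsupp.equivFunOnFinite.symm (fun j => (t.2.2 j : ℕ)))
        ((l.get t.1).f t.2.1))))
  have hzz : ∀ i, hgt (zz i) ≤ H := by
    rintro (j | j | i | t)
    · exact hP j
    · fin_cases j
      · exact hy
      · exact h1y
      · exact hz
    · exact hder _ (List.get_mem l i)
    · exact hco _ (List.get_mem l t.1) _ _
  have hcard : Fintype.card ι = n + (3 + (l.length + l.length * ((D + 1) * (D + 1) ^ n))) := by
    simp only [ι, Fintype.card_sum, Fintype.card_prod, Fintype.card_fin, Fintype.card_fun]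
  have hcard' : (Fintype.card ι : ℝ) ≤
      ((n + (3 + (n + n * ((D + 1) * (D + 1) ^ n))) : ℕ) : ℝ) := by
    rw [hcard]
    have : l.length * ((D + 1) * (D + 1) ^ n) ≤ n * ((D + 1) * (D + 1) ^ n) :=
      Nat.mul_le_mul_right _ hlen
    exact_mod_cast (by omega)
  obtain ⟨v, hv, hgood⟩ := good_prime zz hX hzz Pr hPr (by
    refine lt_of_le_of_lt ?_ hc
    exact mul_le_mul_of_nonneg_left hcard' (by linarith))
  refine ⟨v, hv, fun j hj => hgood (Sum.inl j) hj,
    fun h => hgood (Sum.inr (Sum.inl 0)) h, fun h => hgood (Sum.inr (Sum.inl 1)) h,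
    fun h => hgood (Sum.inr (Sum.inl 2)) h, ?_, ?_⟩
  · intro R hR hne
    obtain ⟨i, hi⟩ := List.get_of_mem hR
    subst hi
    exact hgood (Sum.inr (Sum.inr (Sum.inl i))) hne
  · intro R hR t ht m
    obtain ⟨i, hi⟩ := List.get_of_mem hR
    subst hi
    have hRD := hD _ (List.get_mem l i)
    by_cases h0 : coeff m ((l.get i).f t) = 0
    · rw [h0]
      have := (na_mk v).zero
      rw [show FinitePlace.mk v (0 : K) = 0 from this]
      exact zero_le_one
    · have hm : ∀ j, m j < D + 1 := by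
        intro j
        have h1 : m ∈ ((l.get i).f t).support := mem_support_iff.2 h0
        have h2 := monomial_le_degreeOf j h1
        have h3 := hRD.2 t j
        omega
      have htD : t < D + 1 := by
        have := hRD.1
        omega
      have h4 := hgood (Sum.inr (Sum.inr (Sum.inr (i, ⟨t, htD⟩, fun j => ⟨m j, hm j⟩))))
      have h5 : zz (Sum.inr (Sum.inr (Sum.inr (i, ⟨t, htD⟩, fun j => ⟨m j, hm j⟩)))) =
          coeff m ((l.get i).f t) := by
        show coeff (Finsupp.equivFunOnFinite.symm (fun j => (m j : ℕ))) ((l.get i).f t) = _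
        congr 1
        ext j
        rfl
      rw [h5] at h4
      exact (h4 h0).le

private theorem step_val {K : Type*} [Field K] {n : ℕ} {V : K → ℝ} (hV : NA V) {x : Fin n → K}
    (hx : ∀ j, V (x j) = 1) (e : Fin n → ℕ) : V (∏ j, x j ^ e j) = 1 := by
  rw [na_prod hV]
  refine Finset.prod_eq_one fun j _ => ?_
  rw [na_pow hV, hx j, one_pow]

/-- one class -/
private theorem step_class {K : Type*} [Field K] [NumberField K] {n D' : ℕ} {C1 ε' A L : ℝ}
    (hcr : ∀ (v : HeightOneSpectrum (𝓞 K)),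
      ε' * L ≤ ln v → ∀ (l : List (Rel K n)), Tower Finset.univ l →
      ∀ (Y : MvPolynomial (Fin n) K) (x0 : Fin n → K) (j0 : Fin n), j0 ∈ free Finset.univ l →
      (∀ R ∈ l, IntP (fun x => FinitePlace.mk v x) R.F) → IntP (fun x => FinitePlace.mk v x) Y →
      (∀ j, FinitePlace.mk v (x0 j) ≤ 1) →
      (∀ R ∈ l, eval x0 R.F = 0 ∧ FinitePlace.mk v (eval x0 (pderiv R.k R.F)) = 1) →
      eval x0 Y = 0 → FinitePlace.mk v (redE x0 l (fun j => eval x0 (pderiv j Y)) j0) = 1 →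
      ∀ (S : Finset (Fin n → K)),
        (∀ P ∈ S, (∀ j, hgt (P j) ≤ C1 * L ∧
          FinitePlace.mk v (P j - x0 j) ≤ Real.exp (-ln v)) ∧
          (∀ R ∈ l, eval P R.F = 0) ∧ eval P Y = 0) →
        ∃ G : MvPolynomial (Fin n) K, G ≠ 0 ∧ G.vars ⊆ free Finset.univ l ∧
          (∀ j, G.degreeOf j ≤ D') ∧ (∀ m, hgt (coeff m G) ≤ A * L) ∧ ∀ P ∈ S, eval P G = 0)
    (v : HeightOneSpectrum (𝓞 K)) (hv : ε' * L ≤ ln v) (l : List (Rel K n))
    (hT : Tower Finset.univ l) (a b : K) (p q s : Fin n → ℕ) (x0 : Fin n → K) (j0 : Fin n)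
    (hj0 : j0 ∈ free Finset.univ l) (h0 : ∀ j, x0 j ≠ 0)
    (hx : ∀ j, FinitePlace.mk v (x0 j) = 1)
    (heq : a * (∏ j, x0 j ^ p j) + b * (∏ j, x0 j ^ q j) = ∏ j, x0 j ^ s j)
    (hy : FinitePlace.mk v (yv a p s x0) = 1) (h1y : FinitePlace.mk v (1 - yv a p s x0) = 1)
    (hz : FinitePlace.mk v (yv a p s x0 * redE x0 l (fun i => eval x0 (om K p s i)) j0 +
        (1 - yv a p s x0) * redE x0 l (fun i => eval x0 (om K q s i)) j0) = 1)
    (hrel : ∀ R ∈ l, eval x0 R.F = 0 ∧ FinitePlace.mk v (eval x0 (pderiv R.k R.F)) = 1)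
    (hco : ∀ R ∈ l, ∀ s ≤ R.δ, ∀ m, FinitePlace.mk v (coeff m (R.f s)) ≤ 1)
    (S : Finset (Fin n → K)) (hS : ∀ P ∈ S, (∀ j, hgt (P j) ≤ C1 * L ∧
          FinitePlace.mk v (P j - x0 j) ≤ Real.exp (-ln v)) ∧
          (∀ R ∈ l, eval P R.F = 0) ∧
          a * (∏ j, P j ^ p j) + b * (∏ j, P j ^ q j) = ∏ j, P j ^ s j) :
    ∃ G : MvPolynomial (Fin n) K, G ≠ 0 ∧ G.vars ⊆ free Finset.univ l ∧
      (∀ j, G.degreeOf j ≤ D') ∧ (∀ m, hgt (coeff m G) ≤ A * L) ∧ ∀ P ∈ S, eval P G = 0 := by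
  have hV := na_mk (K := K) v
  have hprod : ∀ e : Fin n → ℕ, FinitePlace.mk v (∏ j, x0 j ^ e j) = 1 := fun e =>
    step_val hV hx e
  have hs0 : ∏ j, x0 j ^ s j ≠ 0 := Finset.prod_ne_zero_iff.2 fun j _ => pow_ne_zero _ (h0 j)
  have hya : yv a p s x0 * (∏ j, x0 j ^ s j) = a * ∏ j, x0 j ^ p j := by
    unfold yv
    rw [div_mul_cancel₀ _ hs0]
  have hyb : (1 - yv a p s x0) * (∏ j, x0 j ^ s j) = b * ∏ j, x0 j ^ q j := by
    rw [sub_mul, hya, one_mul, ← heq]
    ring
  have hmul : ∀ x y : K, FinitePlace.mk v (x * y) = FinitePlace.mk v x * FinitePlace.mk v y :=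
    hV.mul
  have hva : FinitePlace.mk v a = 1 := by
    have h1 := congrArg (fun x => FinitePlace.mk v x) hya
    beta_reduce at h1
    rw [hmul, hmul, hprod, hprod, hy, mul_one, mul_one] at h1
    exact h1.symm
  have hvb : FinitePlace.mk v b = 1 := by
    have h1 := congrArg (fun x => FinitePlace.mk v x) hyb
    beta_reduce at h1
    rw [hmul, hmul, hprod, hprod, h1y, mul_one, mul_one] at h1
    exact h1.symm
  have hmon : ∀ e : Fin n → ℕ, IntP (fun x : K => FinitePlace.mk v x)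
      (∏ j, X j ^ e j : MvPolynomial (Fin n) K) := fun e =>
    intP_prod hV _ _ fun j _ => intP_pow hV (intP_X hV j) _
  have hevY : ∀ P : Fin n → K, a * (∏ j, P j ^ p j) + b * (∏ j, P j ^ q j) = ∏ j, P j ^ s j →
      eval P (C a * (∏ j, X j ^ p j) + C b * (∏ j, X j ^ q j) -
        ∏ j, X j ^ s j : MvPolynomial (Fin n) K) = 0 := by
    intro P hP
    simp only [map_sub, map_add, map_mul, map_prod, map_pow, eval_C, eval_X]
    rw [hP, sub_self]
  refine hcr v hv l hT (C a * (∏ j, X j ^ p j) + C b * (∏ j, X j ^ q j) - ∏ j, X j ^ s j) x0 j0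
    hj0 ?_ ?_ (fun j => (hx j).le) hrel (hevY x0 heq) ?_ S ?_
  · intro R hR
    unfold Rel.F
    refine intP_sum hV _ _ fun t ht => intP_mul hV ?_ (intP_pow hV (intP_X hV _) _)
    intro m
    exact hco R hR t (by
      rw [Finset.mem_range] at ht
      omega) m
  · rw [sub_eq_add_neg]
    exact intP_add hV (intP_add hV (intP_mul hV (intP_C hV hva.le) (hmon p))
      (intP_mul hV (intP_C hV hvb.le) (hmon q))) (intP_neg hV (hmon s))
  · have h1 := jac l a b p q s x0 h0 heq j0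
    have h2 := congrArg (fun x => FinitePlace.mk v x) h1
    beta_reduce at h2
    have h3 : FinitePlace.mk v (∏ i, x0 i) = 1 := by
      have := hprod fun _ => 1
      simpa only [pow_one] using this
    rw [hmul, hmul, hprod, hz, h3, mul_one, mul_one] at h2
    exact h2
  · intro P hP
    obtain ⟨h1, h2, h3⟩ := hS P hP
    exact ⟨h1, h2, hevY P h3⟩

/-- The points which are not critical are distributed into classes, each of which satisfies a
relation between the free variables. -/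
theorem step (K : Type*) [Field K] [NumberField K] (n D : ℕ) (C1 B ε : ℝ) (hε : 0 < ε) :
    ∃ (κ0 : ℝ) (D' : ℕ) (A : ℝ), 1 ≤ κ0 ∧ 1 ≤ A ∧ ∀ κ1 : ℝ, ∃ C : ℝ, 0 < C ∧ ∀ (L : ℝ), 1 ≤ L →
      ∀ (a b : K) (p q s : Fin n → ℕ),
      (∀ j, (p j : ℝ) ≤ Real.exp L ∧ (q j : ℝ) ≤ Real.exp L ∧ (s j : ℝ) ≤ Real.exp L) →
      ∀ (l : List (Rel K n)), Tower Finset.univ l → DegLE D l →
      (∀ R ∈ l, ∀ s m, hgt (coeff m (R.f s)) ≤ B * L) →
      ∀ (S : Finset (Fin n → K)),
        (∀ P ∈ S, Nondeg l P ∧ (∀ j, P j ≠ 0 ∧ hgt (P j) ≤ C1 * L) ∧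
          a * (∏ j, P j ^ p j) + b * (∏ j, P j ^ q j) = ∏ j, P j ^ s j ∧
          κ0 * L ≤ hgt (yv a p s P) ∧ hgt (yv a p s P) ≤ κ1 * L ∧
          ∃ j ∈ free Finset.univ l, redE P l (fun i => eval P (om K p s i)) j ≠ 0) →
        ∃ (T : Finset ℕ) (G : ℕ → MvPolynomial (Fin n) K), (T.card : ℝ) ≤ C * Real.exp (ε * L) ∧
          (∀ t ∈ T, G t ≠ 0 ∧ (G t).vars ⊆ free Finset.univ l ∧ (∀ j, (G t).degreeOf j ≤ D') ∧
            ∀ m, hgt (coeff m (G t)) ≤ A * L) ∧
          ∀ P ∈ S, ∃ t ∈ T, eval P (G t) = 0 := by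
  classical
  have hd := step_fin K
  set dR : ℝ := (Module.finrank ℚ K : ℝ) with hdR
  obtain ⟨A2, hA2, hheights⟩ := step_heights K n D C1 B
  set ε' : ℝ := ε / ((n + 1) * dR) with hε'
  have hn0 : (0 : ℝ) ≤ n := Nat.cast_nonneg n
  have hε'0 : 0 < ε' := by
    rw [hε']
    apply div_pos hε
    nlinarith
  have hε'n : n * dR * ε' ≤ ε := by
    rw [hε']
    have h1 : (0 : ℝ) < (n + 1) * dR := by nlinarith
    rw [mul_div_assoc', div_le_iff₀ h1]
    nlinarith
  obtain ⟨D', A, hA, hcr⟩ := class_rel K n C1 ε' hε'0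
  refine ⟨3 * A2 + dR + 2, D', A, by linarith, hA, ?_⟩
  intro κ1
  set A3 : ℝ := |C1| + 2 * |κ1| + 2 * A2 + 2 * dR + |B| + 1 with hA3
  have hC0 := abs_nonneg C1
  have hκ0 := abs_nonneg κ1
  have hB0 := abs_nonneg B
  set N1 : ℕ := n + (3 + (n + n * ((D + 1) * (D + 1) ^ n))) with hN1
  obtain ⟨N0, hN0⟩ : ∃ N0 : ℕ, 2 * A3 * N1 < N0 * ε' := by
    obtain ⟨N0, hN0⟩ := exists_nat_gt (2 * A3 * N1 / ε')
    exact ⟨N0, (div_lt_iff₀ hε'0).1 hN0⟩
  obtain ⟨Cp, hCp, hprimes⟩ := exists_primes K N0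
  refine ⟨(n * N0 * 2 ^ n) * Real.exp (n * Cp) + 1, by positivity, ?_⟩
  intro L hL a b p q s hpqs l hT hD hco S hS
  have hL0 : 0 < L := by linarith
  have hlog2 := step_log2 hL
  obtain ⟨Pr, hPrc, hPr⟩ := hprimes (ε' * L) (by positivity)
  -- the data of a point
  have hdata : ∀ P ∈ S, ∃ (j : Fin n) (v : HeightOneSpectrum (𝓞 K)),
      j ∈ free Finset.univ l ∧ v ∈ Pr ∧ (∀ i, FinitePlace.mk v (P i) = 1) ∧
      FinitePlace.mk v (yv a p s P) = 1 ∧ FinitePlace.mk v (1 - yv a p s P) = 1 ∧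
      FinitePlace.mk v (yv a p s P * redE P l (fun i => eval P (om K p s i)) j +
        (1 - yv a p s P) * redE P l (fun i => eval P (om K q s i)) j) = 1 ∧
      (∀ R ∈ l, FinitePlace.mk v (eval P (pderiv R.k R.F)) = 1) ∧
      ∀ R ∈ l, ∀ s ≤ R.δ, ∀ m, FinitePlace.mk v (coeff m (R.f s)) ≤ 1 := by
    intro P hP
    obtain ⟨hnd, hPj, heq, hκ, hκ', j, hj, hjne⟩ := hS P hP
    obtain ⟨hW1, hder⟩ := hheights L hL p s (fun j => (hpqs j).1) (fun j => (hpqs j).2.2) l hT hD
      hco P fun j => (hPj j).2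
    obtain ⟨hW2, -⟩ := hheights L hL q s (fun j => (hpqs j).2.1) (fun j => (hpqs j).2.2) l hT hD
      hco P fun j => (hPj j).2
    set y := yv a p s P with hy
    set W1 := redE P l (fun i => eval P (om K p s i)) j with hW1d
    set W2 := redE P l (fun i => eval P (om K q s i)) j with hW2d
    have hdlog : dR * Real.log 2 ≤ dR * L := mul_le_mul_of_nonneg_left hlog2 (by linarith)
    have hypos : 0 < hgt y := by
      refine lt_of_lt_of_le ?_ hκ
      nlinarith
    have hy0 : y ≠ 0 := by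
      intro h
      rw [h, hgt_zero] at hypos
      exact lt_irrefl _ hypos
    have hy1 : 1 - y ≠ 0 := by
      intro h
      have : y = 1 := (sub_eq_zero.1 h).symm
      rw [this, hgt_one] at hypos
      exact lt_irrefl _ hypos
    have hz0 : y * W1 + (1 - y) * W2 ≠ 0 := by
      intro h
      have h1 := hgt_ratio (Or.inl hjne) h
      have h2 := hW1 j
      have h3 := hW2 j
      rw [← hdR] at h1
      nlinarith
    have hk1 : κ1 * L ≤ |κ1| * L := mul_le_mul_of_nonneg_right (le_abs_self _) hL0.le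
    have hyle : hgt y ≤ |κ1| * L := hκ'.trans hk1
    have h1yle : hgt (1 - y) ≤ (|κ1| + dR) * L := by
      refine (hgt_sub _ _).trans ?_
      rw [hgt_one, ← hdR]
      linarith
    have hzle : hgt (y * W1 + (1 - y) * W2) ≤ (2 * |κ1| + 2 * A2 + 2 * dR) * L := by
      refine (hgt_add _ _).trans ?_
      have h1 := hgt_mul y W1
      have h2 := hgt_mul (1 - y) W2
      have h3 := hW1 j
      have h4 := hW2 j
      rw [← hdR]
      linarith
    have hAle : ∀ t : ℝ, t ≤ A3 → t * L ≤ A3 * L := fun t ht =>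
      mul_le_mul_of_nonneg_right ht hL0.le
    obtain ⟨v, hv, g1, g2, g3, g4, g5, g6⟩ := step_good (D := D) (H := A3 * L)
      (X := ε' * L) (by positivity) l (step_len hT) hD P y (y * W1 + (1 - y) * W2)
      (fun j => (hPj j).2.trans (hAle C1 (by
        have := le_abs_self C1
        rw [hA3]
        linarith)))
      (hyle.trans (hAle _ (by rw [hA3]; linarith)))
      (h1yle.trans (hAle _ (by rw [hA3]; linarith)))
      (hzle.trans (hAle _ (by rw [hA3]; linarith)))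
      (fun R hR => (hder R hR).trans (hAle _ (by rw [hA3]; linarith)))
      (fun R hR t m => (hco R hR t m).trans (hAle B (by
        have := le_abs_self B
        rw [hA3]
        linarith)))
      Pr (fun v hv => (hPr v hv).1) (by
        rw [hPrc, ← hN1]
        have := mul_lt_mul_of_pos_right hN0 hL0
        nlinarith)
    exact ⟨j, v, hj, hv, fun i => g1 i (hPj i).1, g2 hy0, g3 hy1, g4 hz0,
      fun R hR => g5 R hR (hnd R hR).2.1, g6⟩
  choose jj vv hjj hvv hval hyv h1yv hzv hderv hcov using hdata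
  choose ρ hρ1 hρ2 using fun v : HeightOneSpectrum (𝓞 K) => residue v
  -- the classes
  let cls : {P // P ∈ S} → Fin n × HeightOneSpectrum (𝓞 K) × (Fin n → ℕ) := fun P =>
    (jj P.1 P.2, vv P.1 P.2, fun i => ρ (vv P.1 P.2) (P.1 i))
  set Cl := S.attach.image cls with hCl
  set E : ℝ := Real.exp (dR * (ε' * L) + Cp) with hE
  set M : ℕ := ⌊E⌋₊ + 1 with hM
  have hE1 : 1 ≤ E := by
    rw [hE]
    apply Real.one_le_exp
    positivity
  have hM2 : (M : ℝ) ≤ 2 * E := by
    have := Nat.floor_le (by linarith : (0 : ℝ) ≤ E)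
    rw [hM]
    push_cast
    linarith
  have hClsub : Cl ⊆ (Finset.univ : Finset (Fin n)) ×ˢ
      (Pr ×ˢ Fintype.piFinset (fun _ : Fin n => Finset.range M)) := by
    intro c hc
    rw [hCl, Finset.mem_image] at hc
    obtain ⟨P, -, rfl⟩ := hc
    rw [Finset.mem_product, Finset.mem_product, Fintype.mem_piFinset]
    refine ⟨Finset.mem_univ _, hvv _ _, fun i => ?_⟩
    rw [Finset.mem_range, hM, Nat.lt_succ_iff]
    apply Nat.le_floor
    refine (hρ1 _ _).le.trans ?_
    rw [hE]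
    exact Real.exp_le_exp.2 (hPr _ (hvv _ _)).2
  have hClcard : (Cl.card : ℝ) ≤ n * (N0 * (2 * E) ^ n) := by
    have h1 := Finset.card_le_card hClsub
    rw [Finset.card_product, Finset.card_product, Finset.card_univ, Fintype.card_fin, hPrc,
      Fintype.card_piFinset_const, Finset.card_range] at h1
    have h2 : (Cl.card : ℝ) ≤ n * (N0 * (M : ℝ) ^ n) := by exact_mod_cast h1
    refine h2.trans ?_
    gcongr
  have hfinal : (Cl.card : ℝ) ≤
      ((n * N0 * 2 ^ n) * Real.exp (n * Cp) + 1) * Real.exp (ε * L) := by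
    have h1 : E ^ n = Real.exp (n * Cp) * Real.exp (n * dR * ε' * L) := by
      rw [hE, ← Real.exp_nat_mul, ← Real.exp_add]
      congr 1
      ring
    have h2 : Real.exp (n * dR * ε' * L) ≤ Real.exp (ε * L) :=
      Real.exp_le_exp.2 (mul_le_mul_of_nonneg_right hε'n hL0.le)
    have h3 : 0 < Real.exp (ε * L) := Real.exp_pos _
    calc (Cl.card : ℝ) ≤ n * (N0 * (2 * E) ^ n) := hClcard
      _ = (n * N0 * 2 ^ n) * Real.exp (n * Cp) * Real.exp (n * dR * ε' * L) := by
          rw [mul_pow, h1]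
          ring
      _ ≤ (n * N0 * 2 ^ n) * Real.exp (n * Cp) * Real.exp (ε * L) :=
          mul_le_mul_of_nonneg_left h2 (by positivity)
      _ ≤ _ := by nlinarith
  -- the polynomials
  have hG : ∀ c : Cl, ∃ G : MvPolynomial (Fin n) K, (G ≠ 0 ∧ G.vars ⊆ free Finset.univ l ∧
      (∀ j, G.degreeOf j ≤ D') ∧ ∀ m, hgt (coeff m G) ≤ A * L) ∧
      ∀ P : {P // P ∈ S}, cls P = c.1 → eval P.1 G = 0 := by
    rintro ⟨c, hc⟩
    rw [hCl, Finset.mem_image] at hc
    obtain ⟨⟨x0, hx0⟩, -, rfl⟩ := hc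
    obtain ⟨hnd, hPj, heq, -, -, -⟩ := hS x0 hx0
    obtain ⟨G, h1, h2, h3, h4, h5⟩ := step_class (hcr L hL) (vv x0 hx0)
      (hPr _ (hvv x0 hx0)).1 l hT a b p q s x0 (jj x0 hx0) (hjj x0 hx0) (fun j => (hPj j).1)
      (hval x0 hx0) heq (hyv x0 hx0) (h1yv x0 hx0) (hzv x0 hx0)
      (fun R hR => ⟨(hnd R hR).1, hderv x0 hx0 R hR⟩) (hcov x0 hx0)
      ((S.attach.filter fun P => cls P = cls ⟨x0, hx0⟩).image Subtype.val) (by
        intro P hP
        rw [Finset.mem_image] at hP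
        obtain ⟨⟨Q, hQ⟩, hQ2, rfl⟩ := hP
        rw [Finset.mem_filter] at hQ2
        have hcl := hQ2.2
        obtain ⟨hnd', hPj', heq', -, -, -⟩ := hS Q hQ
        have e1 : vv Q hQ = vv x0 hx0 := congrArg (fun c => c.2.1) hcl
        have e2 : (fun i => ρ (vv Q hQ) (Q i)) = fun i => ρ (vv x0 hx0) (x0 i) :=
          congrArg (fun c => c.2.2) hcl
        refine ⟨fun j => ⟨(hPj' j).2, ?_⟩, fun R hR => (hnd' R hR).1, heq'⟩
        apply hρ2
        · rw [← e1]
          exact (hval Q hQ j).le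
        · exact (hval x0 hx0 j).le
        · have := congrFun e2 j
          beta_reduce at this
          rwa [e1] at this)
    refine ⟨G, ⟨h1, h2, h3, h4⟩, fun P hP => h5 P.1 ?_⟩
    rw [Finset.mem_image]
    exact ⟨P, Finset.mem_filter.2 ⟨Finset.mem_attach _ _, hP⟩, rfl⟩
  choose G hG1 hG2 using hG
  refine ⟨Finset.range Cl.card,
    fun t => if h : t < Cl.card then G (Cl.equivFin.symm ⟨t, h⟩) else 0, ?_, ?_, ?_⟩
  · rw [Finset.card_range]
    exact hfinal
  · intro t ht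
    rw [Finset.mem_range] at ht
    beta_reduce
    rw [dif_pos ht]
    exact hG1 _
  · intro P hP
    have hmem : cls ⟨P, hP⟩ ∈ Cl := Finset.mem_image_of_mem _ (Finset.mem_attach _ _)
    refine ⟨(Cl.equivFin ⟨_, hmem⟩ : ℕ), Finset.mem_range.2 (Fin.is_lt _), ?_⟩
    beta_reduce
    rw [dif_pos (Fin.is_lt _)]
    have e1 : (⟨((Cl.equivFin ⟨_, hmem⟩ : Fin Cl.card) : ℕ), Fin.is_lt _⟩ : Fin Cl.card) =
        Cl.equivFin ⟨_, hmem⟩ := rfl
    rw [e1, Equiv.symm_apply_apply]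
    exact hG2 ⟨_, hmem⟩ ⟨P, hP⟩ rfl

end Pool.Agent.MVD
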