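import Pool.Agent.MVD.DefsB
import Pool.Agent.AbcF.Defs

/-!
# Module SubQ (size 2)

`sub_mass`: induction on `Q` (or on the cardinality): if `t ≤ LN (Q.erase v)` use the induction hypothesis, otherwise `Q` itself works: `LN Q ≤ LN (Q.erase v) + ln v < t + δ`.
`good_mass`: `Q' = Q.filter (fun v => mk v z = 1)`; for the other `v` `ord v z ≠ 0` (`ord_eq_zero_iff`), so `|ord v z| ≥ 1` and `∑_{v ∈ Q \ Q'} ln v ≤ ∑ |ord v z| * ln v ≤ 2 hgt z`
(`sum_abs_ord_le`; `ln v = Real.log (absNorm ..)` by definition).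
-/

namespace Pool.Agent.MVD

open NumberField IsDedekindDomain Pool.Agent.H7.Abc Pool.Agent.AbcE MvPolynomial

theorem sub_mass {K : Type*} [Field K] [NumberField K] (Q : Finset (HeightOneSpectrum (𝓞 K)))
    {t δ : ℝ} (ht : 0 ≤ t) (hδ : 0 ≤ δ) (h : t ≤ AbcF.LN Q) (hQ : ∀ v ∈ Q, ln v ≤ δ) :
    ∃ Q' ⊆ Q, t ≤ AbcF.LN Q' ∧ AbcF.LN Q' ≤ t + δ := by
  classical
  induction Q using Finset.induction_on with
  | empty =>
    refine ⟨∅, Finset.Subset.refl _, h, ?_⟩
    unfold AbcF.LN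
    simp only [Finset.sum_empty]
    positivity
  | insert v Q hv ih =>
    by_cases h1 : t ≤ AbcF.LN Q
    · obtain ⟨Q', a1, a2, a3⟩ := ih h1 (fun w hw => hQ w (Finset.mem_insert_of_mem hw))
      exact ⟨Q', a1.trans (Finset.subset_insert _ _), a2, a3⟩
    · refine ⟨insert v Q, Finset.Subset.refl _, h, ?_⟩
      have h2 := hQ v (Finset.mem_insert_self _ _)
      have h3 : AbcF.LN (insert v Q) = ln v + AbcF.LN Q := by
        unfold AbcF.LN
        rw [Finset.sum_insert hv]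
      rw [h3]
      push Not at h1
      linarith

theorem good_mass {K : Type*} [Field K] [NumberField K] (Q : Finset (HeightOneSpectrum (𝓞 K)))
    {z : K} (hz : z ≠ 0) :
    ∃ Q' ⊆ Q, (∀ v ∈ Q', FinitePlace.mk v z = 1) ∧ AbcF.LN Q ≤ AbcF.LN Q' + 2 * hgt z := by
  classical
  refine ⟨Q.filter (fun v => FinitePlace.mk v z = 1), Finset.filter_subset _ _,
    fun v hv => (Finset.mem_filter.1 hv).2, ?_⟩
  have h1 := sum_abs_ord_le hz Q
  have h2 : AbcF.LN Q = AbcF.LN (Q.filter (fun v => FinitePlace.mk v z = 1)) +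
      ∑ v ∈ Q.filter (fun v => ¬ FinitePlace.mk v z = 1), ln v := by
    unfold AbcF.LN
    rw [Finset.sum_filter_add_sum_filter_not]
  rw [h2]
  have h3 : ∑ v ∈ Q.filter (fun v => ¬ FinitePlace.mk v z = 1), ln v ≤
      ∑ v ∈ Q, |(ord v z : ℝ)| * Real.log (Ideal.absNorm v.asIdeal : ℝ) := by
    rw [Finset.sum_filter]
    refine Finset.sum_le_sum fun v _ => ?_
    have hl : 0 < ln v := AbcE.tc_ln_pos v
    split_ifs with h
    · positivity
    · have h4 : ord v z ≠ 0 := fun h5 => h ((ord_eq_zero_iff v hz).1 h5)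
      have h5 : (1 : ℝ) ≤ |(ord v z : ℝ)| := by
        have := Int.one_le_abs h4
        exact_mod_cast this
      calc ln v = 1 * ln v := (one_mul _).symm
        _ ≤ |(ord v z : ℝ)| * ln v := mul_le_mul_of_nonneg_right h5 hl.le
  linarith

end Pool.Agent.MVD
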