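import Pool.Agent.MVD.Step
import Pool.Agent.MVD.CritVal

/-!
# Module TStar (size 5)

`tstar_aux`: induction on `r` (for all `D, B, ε`). `N` from `critval n r D`. Split `S` into the critical points (`redE P l (om p s) j = 0` for all
`j ∈ I = free univ l`) and the others. On the critical points `yv a p s P = a * (∏P^p/∏P^s)` takes at most `N` values. For `r = 0` (`I = ∅`) all
points are critical. For `r ≥ 1`: `κ0', D', A` from `step K n D C1 B (ε/2)`; `N1` from `extend n D'`; `c = d * log (D'+1)`: for `q ≤ D'`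
`hgt (q * x) ≤ hgt x + c` (`hgt_mul`, `hgt_natCast`; `q = 0`: `hgt 0 = 0`); put `D'' = max D D'`, `B'' = max B (A + (n D' + 1) c)`; `κ0''` from the induction
hypothesis for `r - 1, D'', B'', ε/2`; `κ0 = max κ0' κ0''`. For `κ1` let `C', C''` be the two constants. `step` gives `T, G`; for `t ∈ T` the list of relations `T_t` of
`extend` (`I`, `G t`; the last clause with `h = hgt`, `B := A L`); for `R ∈ T_t` the set `S_(t,R) = {P ∈ S not critical : eval P (G t) = 0, Nondeg [R] P}`:
`Tower univ (l ++ [R])`, `free = I.erase R.k` of cardinality `r - 1` (`tower_append`), degrees at most `D''`, coefficients of height at most `B'' L`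
(`A L + (n D' + 1) c ≤ (A + (nD'+1)c) L`), `Nondeg (l ++ [R]) P`. So `yv` takes at most `C'' exp (ε/2 L)` values on `S_(t,R)`. Total: at most
`N + C' exp (ε/2 L) * N1 * C'' exp (ε/2 L)`.
`tstar`: `tstar_aux` with `l = []`, `r = n`, `D = 0`, `B = 0`.
-/

namespace Pool.Agent.MVD

open NumberField IsDedekindDomain Pool.Agent.H7.Abc Pool.Agent.AbcE MvPolynomial

/-- The critical points. -/
private theorem tsCrit {K : Type*} [Field K] [NumberField K] {n r D N : ℕ}
    (hN : ∀ (l : List (Rel K n)), Tower Finset.univ l → (free Finset.univ l).card = r →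
      DegLE D l → ∀ (p s : Fin n → ℕ) (S : Finset (Fin n → K)),
      (∀ P ∈ S, Nondeg l P ∧ (∀ j, P j ≠ 0) ∧
        ∀ j ∈ free Finset.univ l, redE P l (fun i => eval P (om K p s i)) j = 0) →
      Set.ncard ((fun P : Fin n → K => (∏ j, P j ^ p j) / ∏ j, P j ^ s j) ''
        (S : Set (Fin n → K))) ≤ N)
    (a : K) (p s : Fin n → ℕ) (l : List (Rel K n)) (hT : Tower Finset.univ l)
    (hr : (free Finset.univ l).card = r) (hD : DegLE D l) (S : Finset (Fin n → K))
    (hS : ∀ P ∈ S, Nondeg l P ∧ (∀ j, P j ≠ 0) ∧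
        ∀ j ∈ free Finset.univ l, redE P l (fun i => eval P (om K p s i)) j = 0) :
    Set.ncard (yv a p s '' (S : Set (Fin n → K))) ≤ N := by
  have h1 := hN l hT hr hD p s S hS
  have h2 : yv a p s '' (S : Set (Fin n → K)) = (fun t : K => a * t) ''
      ((fun P : Fin n → K => (∏ j, P j ^ p j) / ∏ j, P j ^ s j) '' (S : Set (Fin n → K))) := by
    rw [Set.image_image]
    refine Set.image_congr fun P _ => ?_
    unfold yv
    rw [mul_div_assoc]
  rw [h2]
  exact (Set.ncard_image_le ((S.finite_toSet).image _)).trans h1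

/-- Values of large height on a variety of bounded degree: there are few. -/
theorem tstar_aux (K : Type*) [Field K] [NumberField K] (n r D : ℕ) (C1 B ε : ℝ) (hε : 0 < ε) :
    ∃ κ0 : ℝ, 1 ≤ κ0 ∧ ∀ κ1 : ℝ, ∃ C : ℝ, 0 < C ∧ ∀ (L : ℝ), 1 ≤ L →
      ∀ (a b : K) (p q s : Fin n → ℕ),
      (∀ j, (p j : ℝ) ≤ Real.exp L ∧ (q j : ℝ) ≤ Real.exp L ∧ (s j : ℝ) ≤ Real.exp L) →
      ∀ (l : List (Rel K n)), Tower Finset.univ l → (free Finset.univ l).card = r → DegLE D l →
      (∀ R ∈ l, ∀ s m, hgt (coeff m (R.f s)) ≤ B * L) →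
      ∀ (S : Finset (Fin n → K)),
        (∀ P ∈ S, Nondeg l P ∧ (∀ j, P j ≠ 0 ∧ hgt (P j) ≤ C1 * L) ∧
          a * (∏ j, P j ^ p j) + b * (∏ j, P j ^ q j) = ∏ j, P j ^ s j ∧
          κ0 * L ≤ hgt (yv a p s P) ∧ hgt (yv a p s P) ≤ κ1 * L) →
        ((yv a p s '' (S : Set (Fin n → K))).ncard : ℝ) ≤ C * Real.exp (ε * L) := by
  classical
  induction r generalizing D B ε with
  | zero =>
    obtain ⟨N, hN⟩ := critval n 0 D
    refine ⟨1, le_rfl, fun κ1 => ⟨N + 1, by positivity, ?_⟩⟩
    intro L hL a b p q s _ l hT hr hD _ S hS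
    have h1 := tsCrit (hN K) a p s l hT hr hD S (fun P hP =>
      ⟨(hS P hP).1, fun j => ((hS P hP).2.1 j).1, fun j hj => by
        rw [Finset.card_eq_zero.1 hr] at hj
        exact absurd hj (Finset.notMem_empty j)⟩)
    have h2 : ((yv a p s '' (S : Set (Fin n → K))).ncard : ℝ) ≤ N := by exact_mod_cast h1
    have h3 : 1 ≤ Real.exp (ε * L) := Real.one_le_exp (by positivity)
    have h4 : (0 : ℝ) ≤ N := Nat.cast_nonneg _
    nlinarith
  | succ r ih =>
    obtain ⟨N, hN⟩ := critval n (r + 1) D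
    obtain ⟨κs, D', A, hκs, hA, hstep⟩ := step K n D C1 B (ε / 2) (half_pos hε)
    obtain ⟨N1, hN1⟩ := extend n D'
    set c : ℝ := (Module.finrank ℚ K : ℝ) * Real.log ((D' : ℝ) + 1) with hc
    have hlog0 : 0 ≤ Real.log ((D' : ℝ) + 1) := Real.log_nonneg (by
      have : (0 : ℝ) ≤ D' := Nat.cast_nonneg _
      linarith)
    have hc0 : 0 ≤ c := mul_nonneg (Nat.cast_nonneg _) hlog0
    have hcq : ∀ (x : K) (m : ℕ), m ≤ D' → hgt ((m : K) * x) ≤ hgt x + c := by
      intro x m hm
      rcases Nat.eq_zero_or_pos m with h0 | h0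
      · subst h0
        rw [Nat.cast_zero, zero_mul, hgt_zero]
        exact add_nonneg (hgt_nonneg x) hc0
      · have h1 := hgt_mul (m : K) x
        have h2 := hgt_natCast (K := K) m h0
        have h3 : (Module.finrank ℚ K : ℝ) * Real.log m ≤ c := by
          rw [hc]
          refine mul_le_mul_of_nonneg_left ?_ (Nat.cast_nonneg _)
          refine Real.log_le_log (by exact_mod_cast h0) ?_
          have : (m : ℝ) ≤ D' := by exact_mod_cast hm
          linarith
        linarith
    obtain ⟨κi, hκi, hih⟩ := ih (max D D') (max B (A + (n * D' + 1) * c)) (ε / 2) (half_pos hε)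
    refine ⟨max κs κi, le_max_of_le_left hκs, fun κ1 => ?_⟩
    obtain ⟨Cs, hCs, hstep⟩ := hstep κ1
    obtain ⟨Ci, hCi, hih⟩ := hih κ1
    refine ⟨N + Cs * N1 * Ci + 1, by positivity, ?_⟩
    intro L hL a b p q s hexp l hT hr hD hcoef S hS
    have hL0 : 0 < L := lt_of_lt_of_le one_pos hL
    set I := free Finset.univ l with hI
    set S0 := S.filter (fun P => ∀ j ∈ I, redE P l (fun i => eval P (om K p s i)) j = 0) with hS0
    set S1 := S.filter (fun P => ¬ ∀ j ∈ I, redE P l (fun i => eval P (om K p s i)) j = 0)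
      with hS1
    -- the critical points
    have hcrit : (S0.image (yv a p s)).card ≤ N := by
      have h1 := tsCrit (hN K) a p s l hT hr hD S0 (fun P hP => by
        rw [hS0, Finset.mem_filter] at hP
        exact ⟨(hS P hP.1).1, fun j => ((hS P hP.1).2.1 j).1, hP.2⟩)
      rwa [← Finset.coe_image, Set.ncard_coe_finset] at h1
    -- the other points
    obtain ⟨T, G, hTc, hG, hcov⟩ := hstep L hL a b p q s hexp l hT hD hcoef S1 (fun P hP => by
      rw [hS1, Finset.mem_filter] at hP
      obtain ⟨h1, h2, h3, h4, h5⟩ := hS P hP.1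
      refine ⟨h1, h2, h3, ?_, h5, ?_⟩
      · exact (mul_le_mul_of_nonneg_right (le_max_left _ _) hL0.le).trans h4
      · have h6 := hP.2
        push Not at h6
        exact h6)
    have hex : ∀ t ∈ T, ∃ Tt : List (Rel K n), Tt.length ≤ N1 ∧
      (∀ R ∈ Tt, R.k ∈ I ∧ (∀ s, (R.f s).vars ⊆ I.erase R.k) ∧ DegLE D' [R]) ∧
      (∀ P, eval P (G t) = 0 → ∃ R ∈ Tt, Nondeg [R] P) ∧
      (∀ R ∈ Tt, ∀ s m, hgt (coeff m (R.f s)) ≤ A * L + (n * D' + 1) * c) := by
      intro t ht
      obtain ⟨h1, h2, h3, h4⟩ := hG t ht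
      obtain ⟨Tt, h5, h6, h7, h8⟩ := hN1 K I (G t) h1 h2 h3
      refine ⟨Tt, h5, h6, h7, h8 hgt (A * L) c ?_ hc0 hcq h4⟩
      rw [hgt_zero]
      exact mul_nonneg (le_trans zero_le_one hA) hL0.le
    choose! Tt hTt1 hTt2 hTt3 hTt4 using hex
    let y : (Fin n → K) → K := yv a p s
    have hpiece : ∀ t ∈ T, ∀ R ∈ (Tt t).toFinset,
        (((S1.filter (fun P => Nondeg [R] P)).image y).card : ℝ) ≤
          Ci * Real.exp (ε / 2 * L) := by
      intro t ht R hR
      rw [List.mem_toFinset] at hR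
      obtain ⟨hk, hv, hdeg⟩ := hTt2 t ht R hR
      obtain ⟨hT', hfree⟩ := tower_append hT hk hv
      have hcard : (free Finset.univ (l ++ [R])).card = r := by
        rw [hfree, Finset.card_erase_of_mem hk, hr]
        rfl
      have hD'' : DegLE (max D D') (l ++ [R]) := by
        intro R' hR'
        rcases List.mem_append.1 hR' with h | h
        · obtain ⟨h1, h2⟩ := hD R' h
          exact ⟨le_max_of_le_left h1, fun s j => le_max_of_le_left (h2 s j)⟩
        · obtain ⟨h1, h2⟩ := hdeg R' h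
          exact ⟨le_max_of_le_right h1, fun s j => le_max_of_le_right (h2 s j)⟩
      have hco : ∀ R' ∈ l ++ [R], ∀ s m, hgt (coeff m (R'.f s)) ≤
          max B (A + (n * D' + 1) * c) * L := by
        intro R' hR' s' m
        rcases List.mem_append.1 hR' with h | h
        · exact (hcoef R' h s' m).trans (mul_le_mul_of_nonneg_right (le_max_left _ _) hL0.le)
        · rw [List.mem_singleton] at h
          subst h
          refine (hTt4 t ht R' hR s' m).trans ?_
          refine le_trans ?_ (mul_le_mul_of_nonneg_right (le_max_right _ _) hL0.le)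
          rw [add_mul]
          have hq0 : (0 : ℝ) ≤ (n * D' + 1) * c := mul_nonneg (by positivity) hc0
          have hq1 : (n * D' + 1) * c ≤ (n * D' + 1) * c * L := le_mul_of_one_le_right hq0 hL
          linarith
      have h1 := hih L hL a b p q s hexp (l ++ [R]) hT' hcard hD'' hco
        (S1.filter (fun P => Nondeg [R] P)) (fun P hP => by
          rw [Finset.mem_filter, hS1, Finset.mem_filter] at hP
          obtain ⟨⟨hPS, _⟩, hnd⟩ := hP
          obtain ⟨h1, h2, h3, h4, h5⟩ := hS P hPS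
          refine ⟨?_, h2, h3, ?_, h5⟩
          · intro R' hR'
            rcases List.mem_append.1 hR' with h | h
            · exact h1 R' h
            · exact hnd R' h
          · exact (mul_le_mul_of_nonneg_right (le_max_right _ _) hL0.le).trans h4)
      rwa [← Finset.coe_image, Set.ncard_coe_finset] at h1
    have hsub : S.image y ⊆ S0.image y ∪ T.biUnion (fun t =>
        (Tt t).toFinset.biUnion fun R => (S1.filter (fun P => Nondeg [R] P)).image y) := by
      intro z hz
      obtain ⟨P, hP, rfl⟩ := Finset.mem_image.1 hz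
      by_cases hcr : ∀ j ∈ I, redE P l (fun i => eval P (om K p s i)) j = 0
      · refine Finset.mem_union_left _ (Finset.mem_image_of_mem _ ?_)
        rw [hS0, Finset.mem_filter]
        exact ⟨hP, hcr⟩
      · refine Finset.mem_union_right _ ?_
        have hP1 : P ∈ S1 := by
          rw [hS1, Finset.mem_filter]
          exact ⟨hP, hcr⟩
        obtain ⟨t, ht, h0⟩ := hcov P hP1
        obtain ⟨R, hR, hnd⟩ := hTt3 t ht P h0
        refine Finset.mem_biUnion.2 ⟨t, ht, Finset.mem_biUnion.2 ⟨R, List.mem_toFinset.2 hR, ?_⟩⟩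
        exact Finset.mem_image_of_mem _ (Finset.mem_filter.2 ⟨hP1, hnd⟩)
    have hE0 : 0 < Real.exp (ε / 2 * L) := Real.exp_pos _
    have hbi : ((T.biUnion (fun t =>
        (Tt t).toFinset.biUnion fun R => (S1.filter (fun P => Nondeg [R] P)).image y)).card : ℝ) ≤
        Cs * Real.exp (ε / 2 * L) * (N1 * (Ci * Real.exp (ε / 2 * L))) := by
      have h1 : ((T.biUnion (fun t =>
        (Tt t).toFinset.biUnion fun R => (S1.filter (fun P => Nondeg [R] P)).image y)).card : ℝ) ≤
        ∑ t ∈ T, (N1 * (Ci * Real.exp (ε / 2 * L)) : ℝ) := by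
        have hb1 : ((T.biUnion (fun t =>
          (Tt t).toFinset.biUnion fun R => (S1.filter (fun P => Nondeg [R] P)).image y)).card : ℝ) ≤
          ∑ t ∈ T, (((Tt t).toFinset.biUnion
            fun R => (S1.filter (fun P => Nondeg [R] P)).image y).card : ℝ) := by
          exact_mod_cast Finset.card_biUnion_le
        refine hb1.trans ?_
        refine Finset.sum_le_sum fun t ht => ?_
        have hb2 : (((Tt t).toFinset.biUnion
            fun R => (S1.filter (fun P => Nondeg [R] P)).image y).card : ℝ) ≤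
          ∑ R ∈ (Tt t).toFinset, (((S1.filter (fun P => Nondeg [R] P)).image y).card : ℝ) := by
          exact_mod_cast Finset.card_biUnion_le
        refine hb2.trans ?_
        refine (Finset.sum_le_sum (hpiece t ht)).trans ?_
        rw [Finset.sum_const, nsmul_eq_mul]
        refine mul_le_mul_of_nonneg_right ?_ (by positivity)
        exact_mod_cast (List.toFinset_card_le _).trans (hTt1 t ht)
      refine h1.trans ?_
      rw [Finset.sum_const, nsmul_eq_mul]
      exact mul_le_mul_of_nonneg_right hTc (by positivity)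
    have htot : ((S.image y).card : ℝ) ≤ N + Cs * Real.exp (ε / 2 * L) *
        (N1 * (Ci * Real.exp (ε / 2 * L))) := by
      have h1 : ((S.image y).card : ℝ) ≤ (S0.image y).card + (T.biUnion (fun t =>
        (Tt t).toFinset.biUnion fun R => (S1.filter (fun P => Nondeg [R] P)).image y)).card := by
        exact_mod_cast (Finset.card_le_card hsub).trans (Finset.card_union_le _ _)
      have h2 : ((S0.image y).card : ℝ) ≤ N := by exact_mod_cast hcrit
      linarith
    rw [← Finset.coe_image, Set.ncard_coe_finset]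
    refine htot.trans ?_
    have hEE : Real.exp (ε / 2 * L) * Real.exp (ε / 2 * L) = Real.exp (ε * L) := by
      rw [← Real.exp_add]
      congr 1
      ring
    have h3 : 1 ≤ Real.exp (ε * L) := Real.one_le_exp (by positivity)
    have h4 : (0 : ℝ) ≤ N := Nat.cast_nonneg _
    have h5 : Cs * Real.exp (ε / 2 * L) * (N1 * (Ci * Real.exp (ε / 2 * L))) =
        Cs * N1 * Ci * Real.exp (ε * L) := by
      rw [← hEE]; ring
    rw [h5]
    nlinarith

/-- The main theorem on values of large height of monomials. -/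
theorem tstar (K : Type*) [Field K] [NumberField K] (n : ℕ) (C1 ε : ℝ) (hε : 0 < ε) :
    ∃ κ0 : ℝ, 1 ≤ κ0 ∧ ∀ κ1 : ℝ, ∃ C : ℝ, 0 < C ∧ ∀ (L : ℝ), 1 ≤ L →
      ∀ (a b : K) (p q s : Fin n → ℕ),
      (∀ j, (p j : ℝ) ≤ Real.exp L ∧ (q j : ℝ) ≤ Real.exp L ∧ (s j : ℝ) ≤ Real.exp L) →
      ∀ (S : Finset (Fin n → K)),
        (∀ P ∈ S, (∀ j, P j ≠ 0 ∧ hgt (P j) ≤ C1 * L) ∧
          a * (∏ j, P j ^ p j) + b * (∏ j, P j ^ q j) = ∏ j, P j ^ s j ∧
          κ0 * L ≤ hgt (yv a p s P) ∧ hgt (yv a p s P) ≤ κ1 * L) →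
        ((yv a p s '' (S : Set (Fin n → K))).ncard : ℝ) ≤ C * Real.exp (ε * L) := by
  obtain ⟨κ0, hκ0, h⟩ := tstar_aux K n n 0 C1 0 ε hε
  refine ⟨κ0, hκ0, fun κ1 => ?_⟩
  obtain ⟨C, hC, h⟩ := h κ1
  refine ⟨C, hC, fun L hL a b p q s hexp S hS => ?_⟩
  refine h L hL a b p q s hexp [] trivial ?_ ?_ ?_ S ?_
  · show (Finset.univ : Finset (Fin n)).card = n
    exact Finset.card_fin n
  · intro R hR
    exact absurd hR List.not_mem_nil
  · intro R hR
    exact absurd hR List.not_mem_nil
  · intro P hP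
    exact ⟨fun R hR => absurd hR List.not_mem_nil, hS P hP⟩

end Pool.Agent.MVD
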