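import Pool.Agent.MVD.TStar

/-!
# Module TStarI (size 2)

Reindex `tstar` (with `n = Fintype.card ι`) by `Fintype.equivFin ι`: the points `fun j => P (e.symm j)`, `Equiv.prod_comp`.
-/

namespace Pool.Agent.MVD

open NumberField IsDedekindDomain Pool.Agent.H7.Abc Pool.Agent.AbcE MvPolynomial

/-- `tstar` for a finite index type. -/
theorem tstarI (K : Type*) [Field K] [NumberField K] (ι : Type) [Fintype ι] (C1 ε : ℝ)
    (hε : 0 < ε) :
    ∃ κ0 : ℝ, 1 ≤ κ0 ∧ ∀ κ1 : ℝ, ∃ C : ℝ, 0 < C ∧ ∀ (L : ℝ), 1 ≤ L →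
      ∀ (a b : K) (p q s : ι → ℕ),
      (∀ j, (p j : ℝ) ≤ Real.exp L ∧ (q j : ℝ) ≤ Real.exp L ∧ (s j : ℝ) ≤ Real.exp L) →
      ∀ (S : Finset (ι → K)),
        (∀ P ∈ S, (∀ j, P j ≠ 0 ∧ hgt (P j) ≤ C1 * L) ∧
          a * (∏ j, P j ^ p j) + b * (∏ j, P j ^ q j) = ∏ j, P j ^ s j ∧
          κ0 * L ≤ hgt (a * (∏ j, P j ^ p j) / ∏ j, P j ^ s j) ∧
          hgt (a * (∏ j, P j ^ p j) / ∏ j, P j ^ s j) ≤ κ1 * L) →
        (((fun P : ι → K => a * (∏ j, P j ^ p j) / ∏ j, P j ^ s j) ''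
          (S : Set (ι → K))).ncard : ℝ) ≤ C * Real.exp (ε * L) := by
  classical
  obtain ⟨κ0, h0, H⟩ := tstar K (Fintype.card ι) C1 ε hε
  refine ⟨κ0, h0, fun κ1 => ?_⟩
  obtain ⟨C, hC, HC⟩ := H κ1
  refine ⟨C, hC, fun L hL a b p q s hexp S hS => ?_⟩
  let e : ι ≃ Fin (Fintype.card ι) := Fintype.equivFin ι
  have hprod : ∀ (P : ι → K) (r : ι → ℕ), ∏ j, P (e.symm j) ^ r (e.symm j) = ∏ j, P j ^ r j :=
    fun P r => Equiv.prod_comp e.symm (fun j => P j ^ r j)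
  have h1 := HC L hL a b (fun j => p (e.symm j)) (fun j => q (e.symm j)) (fun j => s (e.symm j))
    (fun j => hexp (e.symm j)) (S.image (fun P j => P (e.symm j))) (by
      intro P' hP'
      obtain ⟨P, hP, rfl⟩ := Finset.mem_image.1 hP'
      obtain ⟨a1, a2, a3, a4⟩ := hS P hP
      unfold yv
      simp only [hprod]
      exact ⟨fun j => a1 (e.symm j), a2, a3, a4⟩)
  have h2 : (yv a (fun j => p (e.symm j)) (fun j => s (e.symm j)) ''
      ((S.image (fun (P : ι → K) j => P (e.symm j)) : Finset (Fin (Fintype.card ι) → K)) :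
        Set (Fin (Fintype.card ι) → K))) =
      ((fun P : ι → K => a * (∏ j, P j ^ p j) / ∏ j, P j ^ s j) '' (S : Set (ι → K))) := by
    rw [Finset.coe_image, Set.image_image]
    refine Set.image_congr fun P _ => ?_
    unfold yv
    simp only [hprod]
  rw [h2] at h1
  exact h1

end Pool.Agent.MVD
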