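import Pool.Agent.MVD.Defs

/-!
# Module Tow (size 3)

Bookkeeping for towers. All are inductions on the list `l` (generalising `J`).
`tower_append`: induction on `l`; for `l = []` unfold. `tower_vars`: `R.F = ∑ R.f s * X R.k ^ s`, `vars` of a sum /
product (`MvPolynomial.vars_sum_subset`, `vars_mul`, `vars_pow`, `vars_X`), the tail only involves `J.erase R.k ⊆ J`.
`tower_pderiv`: `pderiv_eq_zero_of_notMem_vars`.  `pderiv_F`: Leibniz, `pderiv R.k (R.f s) = 0` since
`R.k ∉ (R.f s).vars`; for `s = 0` both sides are `0`.
-/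

namespace Pool.Agent.MVD

open MvPolynomial

variable {K : Type*} [Field K] {n : ℕ}

theorem free_subset (J : Finset (Fin n)) (l : List (Rel K n)) : free J l ⊆ J := by
  induction l generalizing J with
  | nil => exact Finset.Subset.refl _
  | cons R l ih => exact (ih (J.erase R.k)).trans (Finset.erase_subset _ _)

theorem tower_card {J : Finset (Fin n)} {l : List (Rel K n)} (h : Tower J l) :
    l.length + (free J l).card = J.card := by
  induction l generalizing J with
  | nil => simp [free]
  | cons R l ih =>
    obtain ⟨h1, -, h3⟩ := h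
    have h4 := ih h3
    have h5 := Finset.card_erase_add_one h1
    simp only [free, List.length_cons]
    omega

theorem tower_append {J : Finset (Fin n)} {l : List (Rel K n)} {R : Rel K n} (h : Tower J l)
    (hk : R.k ∈ free J l) (hv : ∀ s, (R.f s).vars ⊆ (free J l).erase R.k) :
    Tower J (l ++ [R]) ∧ free J (l ++ [R]) = (free J l).erase R.k := by
  induction l generalizing J with
  | nil => exact ⟨⟨hk, hv, trivial⟩, rfl⟩
  | cons R' l ih =>
    obtain ⟨h1, h2, h3⟩ := h
    obtain ⟨h4, h5⟩ := ih h3 hk hv
    exact ⟨⟨h1, h2, h4⟩, h5⟩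

private theorem Tow_vars {J : Finset (Fin n)} {R : Rel K n} (h1 : R.k ∈ J)
    (h2 : ∀ s, (R.f s).vars ⊆ J.erase R.k) : (R.F).vars ⊆ J := by
  classical
  unfold Rel.F
  refine (vars_sum_subset _ _).trans ?_
  intro j hj
  rw [Finset.mem_biUnion] at hj
  obtain ⟨s, -, hj⟩ := hj
  have hj2 := vars_mul _ _ hj
  rw [Finset.mem_union] at hj2
  rcases hj2 with hj2 | hj2
  · exact Finset.mem_of_mem_erase (h2 s hj2)
  · have hj3 := vars_pow _ _ hj2
    rw [vars_X, Finset.mem_singleton] at hj3
    rw [hj3]
    exact h1

/-- The polynomial of a relation of a tower involves only the variables in `J`. -/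
theorem tower_vars {J : Finset (Fin n)} {l : List (Rel K n)} (h : Tower J l) :
    ∀ R ∈ l, (R.F).vars ⊆ J := by
  induction l generalizing J with
  | nil => intro R hR; simp at hR
  | cons R' l ih =>
    obtain ⟨h1, h2, h3⟩ := h
    intro R hR
    rcases List.mem_cons.1 hR with rfl | hR
    · exact Tow_vars h1 h2
    · exact (ih h3 R hR).trans (Finset.erase_subset _ _)

theorem tower_pderiv {J : Finset (Fin n)} {l : List (Rel K n)} (h : Tower J l) :
    ∀ R ∈ l, ∀ j ∉ J, pderiv j R.F = 0 :=
  fun R hR _ hj => pderiv_eq_zero_of_notMem_vars fun h' => hj (tower_vars h R hR h')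

/-- The derivative of a relation with respect to its variable. -/
theorem pderiv_F {J : Finset (Fin n)} {l : List (Rel K n)} (h : Tower J l) :
    ∀ R ∈ l, pderiv R.k R.F =
      ∑ s ∈ Finset.range (R.δ + 1), C (s : K) * R.f s * X R.k ^ (s - 1) := by
  induction l generalizing J with
  | nil => intro R hR; simp at hR
  | cons R' l ih =>
    obtain ⟨-, h2, h3⟩ := h
    intro R hR
    rcases List.mem_cons.1 hR with rfl | hR
    · unfold Rel.F
      rw [map_sum]
      refine Finset.sum_congr rfl fun s _ => ?_
      have h4 : pderiv R.k (R.f s) = 0 := pderiv_eq_zero_of_notMem_vars fun h' =>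
        Finset.notMem_erase R.k J (h2 s h')
      rw [pderiv_mul, h4, zero_mul, zero_add, pderiv_pow, pderiv_X_self, mul_one]
      rw [show (C (s : K) : MvPolynomial (Fin n) K) = (s : MvPolynomial (Fin n) K) from
        map_natCast C s]
      ring
    · exact ih h3 R hR

end Pool.Agent.MVD
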