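import Pool.Agent.AbcF.Final

/-!
# Module TsDefs

Definitions for the counting part: divisors cut out by exponents.
-/

namespace Pool.Agent.MVD

open NumberField IsDedekindDomain Pool.Agent.H7.Abc Pool.Agent.AbcE Pool.Agent.AbcF

variable {K : Type*} [Field K] [NumberField K]

/-- The size of an effective divisor. -/
noncomputable def LD (c : HeightOneSpectrum (𝓞 K) →₀ ℕ) : ℝ := c.sum fun v n => (n : ℝ) * ln v

open Classical in
/-- The part of the zero divisor of `x` with exponents in `A`. -/
noncomputable def dpart (x : K) (A : Set ℕ) : HeightOneSpectrum (𝓞 K) →₀ ℕ :=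
  if h : x ≠ 0 then
    Finsupp.onFinset (pt_ord_finite h).toFinset
      (fun v => if 0 < ord v x ∧ (ord v x).toNat ∈ A then (ord v x).toNat else 0)
      (fun v hv => by
        rw [Set.Finite.mem_toFinset]
        intro h0
        apply hv
        rw [if_neg]
        rintro ⟨h1, -⟩
        omega)
  else 0

open Classical in
/-- The reduced divisor of the places at which `x` has the exponent `n` (zero for `n = 0`). -/
noncomputable def dcls (x : K) (n : ℕ) : HeightOneSpectrum (𝓞 K) →₀ ℕ :=
  if h : x ≠ 0 then
    Finsupp.onFinset (pt_ord_finite h).toFinset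
      (fun v => if n ≠ 0 ∧ ord v x = (n : ℤ) then 1 else 0)
      (fun v hv => by
        rw [Set.Finite.mem_toFinset]
        intro h0
        apply hv
        rw [if_neg]
        rintro ⟨h1, h2⟩
        omega)
  else 0

/-- The divisors attached to the variables: one for the low part, one for each listed exponent. -/
noncomputable def dvi (x : K) (A : Set ℕ) {m : ℕ} (ex : Fin m → ℕ) :
    Option (Fin m) → (HeightOneSpectrum (𝓞 K) →₀ ℕ)
  | none => dpart x (A \ Set.range ex)
  | some k => dcls x (ex k)

/-- The exponents of the variables. -/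
def wi {m : ℕ} (ex : Fin m → ℕ) : Option (Fin m) → ℕ
  | none => 1
  | some k => ex k

/-- Admissible lists of exponents: `0` means an unused place. -/
def ExOK {m : ℕ} (A : Set ℕ) (ex : Fin m → ℕ) (E : ℕ) : Prop :=
  (∀ k, ex k ≤ E) ∧ (∀ k, ex k ≠ 0 → ex k ∈ A) ∧ ∀ k k', ex k ≠ 0 → ex k = ex k' → k = k'

/-- The free exponents of the group `g` of `y`. -/
def Fs (T : Tool) (g : Fin 3) : Set ℕ := if g = 0 then T.F0 else if g = 1 then T.F1 else T.G

/-- The size conditions on a group. -/
def SzOK (x : K) (A : Set ℕ) {m : ℕ} (ex : Fin m → ℕ) (X : ℝ) : Prop :=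
  (∀ k, rd x {ex k} ≤ X) ∧ sz x (A \ Set.range ex) ≤ X

end Pool.Agent.MVD
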