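import Pool.Agent.MVD.TsDefs

/-!
# Module TsDiv (size 3)

`dpart_apply`, `dcls_apply`: unfold (`dif_pos`, `Finsupp.onFinset_apply`). `dvi_sum`: `Fintype.sum_option`; at `v` let `a = ord v x`. If `a ≤ 0` all terms are 0 (`ex k ≠ 0` natural). If `a > 0`, `n = a.toNat`: if
`n ∈ range ex`, `n = ex k` for exactly one `k` (`ExOK`), the low part vanishes at `v`, `∑_k = n * 1`, and `n ∈ A`; if `n ∉ range ex` all the `dcls` vanish at `v`. `LD_dpart`: `sz x A` is the `finsum` of the same function, with finite support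
(`finsum_eq_sum_of_support_subset`, `pt_ord_finite`; see `tc_rd_eq` in AbcE/ToolCount). `LD_dcls`: similarly `= rd x {n}` (for `n = 0` both sides are 0). `LD_dvi_le`: cases.
-/

namespace Pool.Agent.MVD

open NumberField IsDedekindDomain Pool.Agent.H7.Abc Pool.Agent.AbcE Pool.Agent.AbcF

variable {K : Type*} [Field K] [NumberField K]

open Classical in
theorem dpart_apply {x : K} (hx : x ≠ 0) (A : Set ℕ) (v : HeightOneSpectrum (𝓞 K)) :
    dpart x A v = if 0 < ord v x ∧ (ord v x).toNat ∈ A then (ord v x).toNat else 0 := by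
  unfold dpart
  rw [dif_pos hx, Finsupp.onFinset_apply]

open Classical in
theorem dcls_apply {x : K} (hx : x ≠ 0) (n : ℕ) (v : HeightOneSpectrum (𝓞 K)) :
    dcls x n v = if n ≠ 0 ∧ ord v x = (n : ℤ) then 1 else 0 := by
  unfold dcls
  rw [dif_pos hx, Finsupp.onFinset_apply]

/-- At a place where `x` has no zero all the divisors vanish. -/
private theorem TsDiv_zero {x : K} (hx : x ≠ 0) (A : Set ℕ) {m : ℕ} (ex : Fin m → ℕ)
    {v : HeightOneSpectrum (𝓞 K)} (hv : ord v x ≤ 0) (i : Option (Fin m)) :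
    dvi x A ex i v = 0 := by
  classical
  cases i with
  | none =>
    show dpart x (A \ Set.range ex) v = 0
    rw [dpart_apply hx, if_neg]
    rintro ⟨h, -⟩
    omega
  | some k =>
    show dcls x (ex k) v = 0
    rw [dcls_apply hx, if_neg]
    rintro ⟨h, h'⟩
    omega

/-- The weighted sum of the divisors of the variables. -/
theorem dvi_sum {x : K} (hx : x ≠ 0) {A : Set ℕ} {m : ℕ} {ex : Fin m → ℕ} {E : ℕ}
    (h : ExOK A ex E) (v : HeightOneSpectrum (𝓞 K)) :
    ∑ i, wi ex i * dvi x A ex i v = dpart x A v := by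
  classical
  rcases le_or_gt (ord v x) 0 with hv | hv
  · rw [Finset.sum_eq_zero fun i _ => by rw [TsDiv_zero hx A ex hv i, mul_zero]]
    rw [dpart_apply hx, if_neg]
    rintro ⟨h1, -⟩
    omega
  · obtain ⟨n, hn⟩ : ∃ n : ℕ, n = (ord v x).toNat := ⟨_, rfl⟩
    have hn1 : ord v x = (n : ℤ) := by omega
    have hn0 : n ≠ 0 := by omega
    rw [Fintype.sum_option]
    have e0 : dvi x A ex none v = if n ∈ A \ Set.range ex then n else 0 := by
      show dpart x (A \ Set.range ex) v = _
      rw [dpart_apply hx, ← hn]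
      by_cases hc : n ∈ A \ Set.range ex
      · rw [if_pos ⟨hv, hc⟩, if_pos hc]
      · rw [if_neg (fun h' => hc h'.2), if_neg hc]
    have e1 : ∀ k, dvi x A ex (some k) v = if ex k = n then 1 else 0 := by
      intro k
      show dcls x (ex k) v = _
      rw [dcls_apply hx]
      by_cases hc : ex k = n
      · rw [if_pos ⟨by omega, by rw [hn1, hc]⟩, if_pos hc]
      · rw [if_neg, if_neg hc]
        rintro ⟨-, h2⟩
        rw [hn1] at h2
        exact hc (by exact_mod_cast h2.symm)
    have e2 : dpart x A v = if n ∈ A then n else 0 := by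
      rw [dpart_apply hx, ← hn]
      by_cases hc : n ∈ A
      · rw [if_pos ⟨hv, hc⟩, if_pos hc]
      · rw [if_neg (fun h' => hc h'.2), if_neg hc]
    rw [e0, e2]
    simp only [e1, wi, one_mul]
    by_cases hr : n ∈ Set.range ex
    · obtain ⟨k, hk⟩ := hr
      have hnA : n ∈ A := by
        rw [← hk]
        exact h.2.1 k (by omega)
      rw [if_neg (fun h' => h'.2 ⟨k, hk⟩), if_pos hnA, zero_add, Finset.sum_eq_single k]
      · rw [if_pos hk, mul_one, hk]
      · intro k' _ hk'
        rw [if_neg, mul_zero]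
        intro h2
        exact hk' (h.2.2 k' k (by omega) (by rw [h2, hk]))
      · intro h'; exact absurd (Finset.mem_univ _) h'
    · rw [Finset.sum_eq_zero, add_zero]
      · by_cases hnA : n ∈ A
        · rw [if_pos ⟨hnA, hr⟩, if_pos hnA]
        · rw [if_neg (fun h' => hnA h'.1), if_neg hnA]
      · intro k _
        rw [if_neg, mul_zero]
        intro h2
        exact hr ⟨k, h2⟩

private theorem TsDiv_LD {c : HeightOneSpectrum (𝓞 K) →₀ ℕ} {F : Finset (HeightOneSpectrum (𝓞 K))}
    (hF : ∀ v, v ∉ F → c v = 0) : LD c = ∑ v ∈ F, (c v : ℝ) * ln v := by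
  unfold LD
  rw [Finsupp.sum]
  refine Finset.sum_subset ?_ ?_
  · intro v hv
    by_contra h
    exact (Finsupp.mem_support_iff.1 hv) (hF v h)
  · intro v _ hv
    rw [Finsupp.notMem_support_iff.1 hv]
    simp

theorem LD_dpart {x : K} (hx : x ≠ 0) (A : Set ℕ) : LD (dpart x A) = sz x A := by
  classical
  obtain ⟨F, hF⟩ : ∃ F : Finset (HeightOneSpectrum (𝓞 K)), ∀ v, v ∉ F → ord v x = 0 :=
    ⟨(pt_ord_finite hx).toFinset, fun v hv => by
      rw [Set.Finite.mem_toFinset] at hv
      by_contra h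
      exact hv h⟩
  have h1 : ∀ v, v ∉ F → dpart x A v = 0 := by
    intro v hv
    rw [dpart_apply hx, if_neg]
    rintro ⟨h, -⟩
    rw [hF v hv] at h
    exact lt_irrefl _ h
  rw [TsDiv_LD h1]
  unfold sz
  rw [finsum_eq_sum_of_support_subset (s := F)]
  · refine Finset.sum_congr rfl fun v _ => ?_
    rw [dpart_apply hx]
    split_ifs with h2
    · have h3 : (((ord v x).toNat : ℤ) : ℝ) = ((ord v x : ℤ) : ℝ) := by
        rw [Int.toNat_of_nonneg h2.1.le]
      rw [Int.cast_natCast] at h3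
      rw [h3]
    · simp
  · intro v hv
    by_contra h
    apply hv
    have := hF v h
    simp [this]

theorem LD_dcls {x : K} (hx : x ≠ 0) (n : ℕ) : LD (dcls x n) = rd x {n} := by
  classical
  obtain ⟨F, hF⟩ : ∃ F : Finset (HeightOneSpectrum (𝓞 K)), ∀ v, v ∉ F → ord v x = 0 :=
    ⟨(pt_ord_finite hx).toFinset, fun v hv => by
      rw [Set.Finite.mem_toFinset] at hv
      by_contra h
      exact hv h⟩
  have h1 : ∀ v, v ∉ F → dcls x n v = 0 := by
    intro v hv
    rw [dcls_apply hx, if_neg]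
    rintro ⟨h, h'⟩
    rw [hF v hv] at h'
    exact h (by exact_mod_cast h'.symm)
  rw [TsDiv_LD h1, tc_rd_eq x {n} F hF]
  refine Finset.sum_congr rfl fun v _ => ?_
  rw [dcls_apply hx]
  by_cases h2 : n ≠ 0 ∧ ord v x = (n : ℤ)
  · rw [if_pos h2, if_pos, Nat.cast_one, one_mul]
    rw [h2.2, Int.toNat_natCast]
    refine ⟨?_, Set.mem_singleton _⟩
    have := h2.1
    omega
  · rw [if_neg h2, if_neg, Nat.cast_zero, zero_mul]
    rintro ⟨h3, h4⟩
    rw [Set.mem_singleton_iff] at h4
    apply h2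
    constructor <;> omega

theorem LD_dvi_le {x : K} (hx : x ≠ 0) {A : Set ℕ} {m : ℕ} {ex : Fin m → ℕ} {X : ℝ}
    (h : SzOK x A ex X) (i : Option (Fin m)) : LD (dvi x A ex i) ≤ X := by
  cases i with
  | none =>
    show LD (dpart x (A \ Set.range ex)) ≤ X
    rw [LD_dpart hx]
    exact h.2
  | some k =>
    show LD (dcls x (ex k)) ≤ X
    rw [LD_dcls hx]
    exact h.1 k

/-- At a place where `x` has no zero all the divisors vanish. -/
theorem dvi_zero {x : K} (hx : x ≠ 0) (A : Set ℕ) {m : ℕ} (ex : Fin m → ℕ)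
    {v : HeightOneSpectrum (𝓞 K)} (hv : ord v x ≤ 0) (i : Option (Fin m)) :
    dvi x A ex i v = 0 := TsDiv_zero hx A ex hv i

end Pool.Agent.MVD
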