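import Pool.Agent.MVD.TssStep

/-!
# Module Tss (size 2)

`tss_all`: induction on `m`; for `m = 0` the product is empty, one value (`δ = 1`, `J = 1`, `C = 1`). `tssI`: reindex by `Fintype.equivFin ι` (`Fintype.card ι = m`): the points `fun j => P (e.symm j)`,
`Fintype.prod_equiv`/`Equiv.prod_comp`; the image sets are the same.
-/

namespace Pool.Agent.MVD

open NumberField IsDedekindDomain Pool.Agent.H7.Abc Pool.Agent.AbcE MvPolynomial

theorem tss_all (K : Type*) [Field K] [NumberField K] (m : ℕ) : TssN K m := by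
  classical
  induction m with
  | zero =>
    intro C1 ε η _ hε _
    refine ⟨1, one_pos, 1, le_rfl, fun E => ⟨1, one_pos, ?_⟩⟩
    intro L hL Q _ _ n _ c S _
    have h1 : ((fun P : Fin 0 → K => ∏ j, P j ^ n j) '' (S : Set (Fin 0 → K))) ⊆ {1} := by
      rintro _ ⟨P, _, rfl⟩
      simp
    have h2 : ((fun P : Fin 0 → K => ∏ j, P j ^ n j) '' (S : Set (Fin 0 → K))).ncard ≤ 1 := by
      have := Set.ncard_le_ncard h1 (Set.finite_singleton _)
      rwa [Set.ncard_singleton] at this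
    have h3 : (1 : ℝ) ≤ Real.exp (ε * L) := Real.one_le_exp (by positivity)
    rw [one_mul]
    refine le_trans ?_ h3
    exact_mod_cast h2
  | succ m ih => exact tss_step K m ih

/-- Elements of bounded height with a monomial congruent to a constant: the monomial takes few
values. -/
theorem tssI (K : Type*) [Field K] [NumberField K] (ι : Type) [Fintype ι] (C1 ε η : ℝ)
    (hC1 : 0 ≤ C1) (hε : 0 < ε) (hη : 0 < η) : ∃ δ : ℝ, 0 < δ ∧ ∃ J : ℕ, 1 ≤ J ∧ ∀ E : ℕ, ∃ C : ℝ,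
    0 < C ∧ ∀ L : ℝ, 1 ≤ L → ∀ Q : Finset (HeightOneSpectrum (𝓞 K)), η * L ≤ AbcF.LN Q →
      (∀ v ∈ Q, ln v ≤ δ * L) → ∀ n : ι → ℤ, (∀ j, |n j| ≤ (E : ℤ)) →
      ∀ (c : K) (S : Finset (ι → K)),
      (∀ P ∈ S, (∀ j, P j ≠ 0 ∧ hgt (P j) ≤ C1 * L) ∧ ∀ v ∈ Q, (∀ j, FinitePlace.mk v (P j) = 1) ∧
        FinitePlace.mk v (∏ j, P j ^ n j - c) ≤ Real.exp (-ln v) ^ J) →
      (((fun P : ι → K => ∏ j, P j ^ n j) '' (S : Set (ι → K))).ncard : ℝ) ≤
        C * Real.exp (ε * L) := by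
  classical
  obtain ⟨δ, hδ, J, hJ, hmain⟩ := tss_all K (Fintype.card ι) C1 ε η hC1 hε hη
  refine ⟨δ, hδ, J, hJ, fun E => ?_⟩
  obtain ⟨C, hC, hC2⟩ := hmain E
  refine ⟨C, hC, ?_⟩
  intro L hL Q hQ hQδ n hn c S hS
  let e := Fintype.equivFin ι
  have hprod : ∀ P : ι → K, (∏ j : Fin (Fintype.card ι), P (e.symm j) ^ n (e.symm j)) =
      ∏ j, P j ^ n j := fun P => Equiv.prod_comp e.symm (fun j => P j ^ n j)
  have h1 := hC2 L hL Q hQ hQδ (fun j => n (e.symm j)) (fun j => hn _) c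
    (S.image fun P => fun j => P (e.symm j)) (by
      intro P' hP'
      obtain ⟨P, hP, rfl⟩ := Finset.mem_image.1 hP'
      refine ⟨fun j => (hS P hP).1 _, fun v hv => ⟨fun j => ((hS P hP).2 v hv).1 _, ?_⟩⟩
      show FinitePlace.mk v ((∏ j : Fin (Fintype.card ι), P (e.symm j) ^ n (e.symm j)) - c) ≤ _
      rw [hprod]
      exact ((hS P hP).2 v hv).2)
  have h2 : ((fun P : ι → K => ∏ j, P j ^ n j) '' (S : Set (ι → K))) =
      ((fun P : Fin (Fintype.card ι) → K => ∏ j, P j ^ n (e.symm j)) ''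
        ((S.image fun P => fun j => P (e.symm j) : Finset (Fin (Fintype.card ι) → K)) :
          Set (Fin (Fintype.card ι) → K))) := by
    rw [Finset.coe_image, Set.image_image]
    exact Set.image_congr fun P _ => (hprod P).symm
  rw [h2]
  exact h1

end Pool.Agent.MVD
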