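import Pool.Agent.MVD.ZgC

/-!
# Module ZgU (size 5)

(Uniform version, by an ultraproduct.) Suppose it is false: for every `N` there are `Z_N`, `F_N` satisfying the hypotheses such that the conclusion fails for
`N`. Let `φ = Filter.hyperfilter ℕ` and `k = Filter.Germ (φ : Filter ℕ) K`, a field (`Filter.Germ.instField`, needs the ultrafilter). Let
`Z = {z : Fin m → k | ∃ w : ℕ → (Fin m → K), (∀ N, w N ∈ Z_N) ∧ ∀ j, z j = ↑(fun N => w N j)}`. `F = ∑_{a ∈ box} monomial a ↑(fun N => coeff a F_N)` over the finite set of the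
exponents `a` with all `a j ≤ D` (`Finset.image`/`Fintype.piFinset` of `Finset.range (D+1)`, `Finsupp.equivFunOnFinite`). `F ≠ 0`: for every `N` some `a` in the box has
`coeff a F_N ≠ 0`, so (finite union, ultrafilter: `Ultrafilter.eventually_exists_mem_iff`/ `Ultrafilter.finite_biUnion_mem_iff`) for one `a` this holds for `φ`-almost all `N`
and `coeff a F ≠ 0`. For `g i ∈ Z` with representatives `w_i`: `eval (∏ g) F` is the germ of `N ↦ eval (∏ w_i N) F_N = 0` (write `eval` as a finite sum over the box on both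
sides; germs of sums, products, powers: `Filter.Germ.coe_add` etc.). `1 ∈ Z`; coordinates are nonzero. `zero_geo` gives `b ≠ 0` and the image `{∏ z j ^ b j}` finite, say
with `h` elements. Let `N0 = max h (max |b j|)`. The set of `N` with `N ≥ N0` is in `φ` (`φ` is free: `Filter.mem_hyperfilter_of_finite_compl`). For every such `N` the
conclusion fails for `b`, so the set `{∏ w j ^ b j : w ∈ Z_N}` is not contained in a finset with at most `N` elements; so it has at least `h + 1` distinct elements: choose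
`w_(0,N), …, w_(h,N) ∈ Z_N` with distinct values of the monomial (for `N < N0` choose all of them `1`). The germs `z_0, …, z_h ∈ Z` have distinct values of the
monomial (they differ for almost all `N`): contradiction to the cardinality `h`.
-/

namespace Pool.Agent.MVD

open MvPolynomial

/-- The box of exponents with all entries at most `D`. -/
private noncomputable def bx (m D : ℕ) : Finset (Fin m →₀ ℕ) :=
  (Fintype.piFinset (fun _ : Fin m => Finset.range (D + 1))).map
    Finsupp.equivFunOnFinite.symm.toEmbedding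

private theorem mem_bx {m D : ℕ} (a : Fin m →₀ ℕ) : a ∈ bx m D ↔ ∀ j, a j ≤ D := by
  unfold bx
  rw [Finset.mem_map]
  constructor
  · rintro ⟨f, hf, rfl⟩ j
    rw [Fintype.mem_piFinset] at hf
    have := hf j
    rw [Finset.mem_range] at this
    show f j ≤ D
    omega
  · intro h
    refine ⟨fun j => a j, ?_, ?_⟩
    · rw [Fintype.mem_piFinset]
      intro j
      rw [Finset.mem_range]
      have := h j
      omega
    · ext j
      rfl

private theorem eval_bx {K : Type*} [Field K] {m D : ℕ} (F : MvPolynomial (Fin m) K)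
    (hF : ∀ j, F.degreeOf j ≤ D) (x : Fin m → K) :
    eval x F = ∑ a ∈ bx m D, coeff a F * ∏ j, x j ^ a j := by
  rw [eval_eq']
  apply Finset.sum_subset
  · intro a ha
    rw [mem_bx]
    intro j
    exact (degreeOf_le_iff.mp (hF j)) a ha
  · intro a _ ha
    rw [notMem_support_iff.mp ha, zero_mul]

/-- The zero estimate with uniform bounds. -/
theorem zero_unif (K : Type*) [Field K] (m D : ℕ) : ∃ N : ℕ, ∀ (Z : Set (Fin m → K))
    (F : MvPolynomial (Fin m) K), (fun _ => 1) ∈ Z → (∀ z ∈ Z, ∀ j, z j ≠ 0) → F ≠ 0 →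
    (∀ j, F.degreeOf j ≤ D) →
    (∀ g : Fin m → (Fin m → K), (∀ i, g i ∈ Z) → eval (fun j => ∏ i, g i j) F = 0) →
    ∃ b : Fin m → ℤ, b ≠ 0 ∧ (∀ j, |b j| ≤ (N : ℤ)) ∧ ∃ Cs : Finset K, Cs.card ≤ N ∧
      ∀ z ∈ Z, ∏ j, z j ^ b j ∈ Cs := by
  classical
  by_contra hcon
  push Not at hcon
  choose Zs Fs h1 h0 hF hD hv hb using hcon
  set φ : Ultrafilter ℕ := Filter.hyperfilter ℕ with hφ
  set θ : (ℕ → K) →+* Filter.Germ (φ : Filter ℕ) K := Filter.Germ.coeRingHom (φ : Filter ℕ)
    with hθ
  have hz : ∀ (f : ℕ → K) (b : ℤ), θ (fun N => f N ^ b) = (θ f) ^ b := fun f b => rfl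
  have heq : ∀ f g : ℕ → K, θ f = θ g ↔ ∀ᶠ N in (φ : Filter ℕ), f N = g N := fun f g =>
    Filter.Germ.coe_eq
  set F : MvPolynomial (Fin m) (Filter.Germ (φ : Filter ℕ) K) :=
    ∑ a ∈ bx m D, monomial a (θ (fun N => coeff a (Fs N))) with hFdef
  have hcoef : ∀ a ∈ bx m D, coeff a F = θ (fun N => coeff a (Fs N)) := by
    intro a ha
    rw [hFdef, coeff_sum]
    simp only [coeff_monomial]
    rw [Finset.sum_ite_eq' (bx m D) a]
    simp [ha]
  have hF0 : F ≠ 0 := by
    have hev : ∀ᶠ N in (φ : Filter ℕ), ∃ a ∈ bx m D, coeff a (Fs N) ≠ 0 := by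
      apply Filter.Eventually.of_forall
      intro N
      obtain ⟨a, ha⟩ := ne_zero_iff.mp (hF N)
      refine ⟨a, ?_, ha⟩
      rw [mem_bx]
      intro j
      exact (degreeOf_le_iff.mp (hD N j)) a (mem_support_iff.mpr ha)
    have hev2 : ∃ a ∈ bx m D, ∀ᶠ N in (φ : Filter ℕ), coeff a (Fs N) ≠ 0 := by
      by_contra hno
      push Not at hno
      have : ∀ a ∈ bx m D, ∀ᶠ N in (φ : Filter ℕ), coeff a (Fs N) = 0 := by
        intro a ha
        exact hno a ha
      have hall : ∀ᶠ N in (φ : Filter ℕ), ∀ a ∈ bx m D, coeff a (Fs N) = 0 := by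
        rw [Filter.eventually_all_finset]
        exact this
      obtain ⟨N, hN1, hN2⟩ := (hev.and hall).exists
      obtain ⟨a, ha, hne⟩ := hN1
      exact hne (hN2 a ha)
    obtain ⟨a, ha, hne⟩ := hev2
    intro hzero
    have h4 : θ (fun N => coeff a (Fs N)) = θ 0 := by
      rw [← hcoef a ha, hzero, coeff_zero, map_zero]
    rw [heq] at h4
    obtain ⟨N, hN1, hN2⟩ := (hne.and h4).exists
    exact hN1 hN2
  set Z : Set (Fin m → Filter.Germ (φ : Filter ℕ) K) :=
    {z | ∃ w : ℕ → (Fin m → K), (∀ N, w N ∈ Zs N) ∧ ∀ j, z j = θ (fun N => w N j)} with hZ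
  have hZ1 : (fun _ => 1) ∈ Z := by
    refine ⟨fun _ _ => 1, fun N => h1 N, fun j => ?_⟩
    exact (map_one θ).symm
  have hZ0 : ∀ z ∈ Z, ∀ j, z j ≠ 0 := by
    rintro z ⟨w, hw, hzw⟩ j h
    have h4 : θ (fun N => w N j) = θ 0 := by
      rw [← hzw j, h, map_zero]
    rw [heq] at h4
    obtain ⟨N, hN⟩ := h4.exists
    exact h0 N (w N) (hw N) j hN
  have hvan : ∀ g : Fin m → (Fin m → Filter.Germ (φ : Filter ℕ) K), (∀ i, g i ∈ Z) →
      eval (fun j => ∏ i, g i j) F = 0 := by
    intro g hg
    choose w hw hgw using hg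
    have h5 : ∀ j, (∏ i, g i j) = θ (fun N => ∏ i, w i N j) := by
      intro j
      rw [Finset.prod_congr rfl (fun i _ => hgw i j), ← map_prod]
      congr 1
      funext N
      rw [Finset.prod_apply]
    have h6 : eval (fun j => ∏ i, g i j) F =
        θ (fun N => eval (fun j => ∏ i, w i N j) (Fs N)) := by
      have e1 : (fun N => eval (fun j => ∏ i, w i N j) (Fs N)) =
          ∑ a ∈ bx m D, (fun N => coeff a (Fs N)) * ∏ j, (fun N => ∏ i, w i N j) ^ a j := by
        funext N
        rw [eval_bx (Fs N) (hD N), Finset.sum_apply]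
        apply Finset.sum_congr rfl
        intro a _
        rw [Pi.mul_apply, Finset.prod_apply]
        rfl
      rw [e1, hFdef, map_sum, map_sum]
      apply Finset.sum_congr rfl
      intro a _
      rw [eval_monomial, map_mul, map_prod, Finsupp.prod_fintype _ _ (fun j => pow_zero _)]
      congr 1
      apply Finset.prod_congr rfl
      intro j _
      rw [h5 j, map_pow]
    rw [h6]
    have : (fun N => eval (fun j => ∏ i, w i N j) (Fs N)) = 0 := by
      funext N
      exact hv N (fun i => w i N) (fun i => hw i N)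
    rw [this, map_zero]
  obtain ⟨b, hb0, hfin⟩ := zero_geo Z hZ1 hZ0 F hF0 hvan
  set S : Finset (Filter.Germ (φ : Filter ℕ) K) := hfin.toFinset with hS
  set h : ℕ := S.card with hh
  obtain ⟨B, hB⟩ : ∃ B : ℕ, ∀ j, |b j| ≤ (B : ℤ) := by
    refine ⟨∑ j, (b j).natAbs, fun j => ?_⟩
    rw [Int.abs_eq_natAbs]
    exact_mod_cast Finset.single_le_sum (f := fun j => (b j).natAbs) (fun _ _ => Nat.zero_le _)
      (Finset.mem_univ j)
  -- choose the points
  have hpts : ∀ N, ∃ W : Fin (h + 1) → (Fin m → K), (∀ i, W i ∈ Zs N) ∧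
      (max h B ≤ N → Function.Injective (fun i => ∏ j, W i j ^ b j)) := by
    intro N
    by_cases hN : max h B ≤ N
    · have hbB : ∀ j, |b j| ≤ (N : ℤ) := fun j => (hB j).trans (by
        exact_mod_cast (le_max_right h B).trans hN)
      have hnot := hb N b hb0 hbB
      -- some finset of the image with h + 1 elements
      have hex : ∃ T : Finset K, (T : Set K) ⊆ (fun z : Fin m → K => ∏ j, z j ^ b j) '' Zs N ∧
          T.card = h + 1 := by
        by_cases hfi : ((fun z : Fin m → K => ∏ j, z j ^ b j) '' Zs N).Finite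
        · have hcard : h + 1 ≤ hfi.toFinset.card := by
            by_contra hlt
            have h7 : hfi.toFinset.card ≤ N := by
              have := (le_max_left h B).trans hN
              omega
            obtain ⟨z, hz1, hz2⟩ := hnot hfi.toFinset h7
            apply hz2
            rw [Set.Finite.mem_toFinset]
            exact ⟨z, hz1, rfl⟩
          obtain ⟨T, hT, hTc⟩ := Finset.exists_subset_card_eq hcard
          refine ⟨T, ?_, hTc⟩
          intro x hx
          have := hT hx
          rwa [Set.Finite.mem_toFinset] at this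
        · obtain ⟨T, hT, hTc⟩ := Set.Infinite.exists_subset_card_eq hfi (h + 1)
          exact ⟨T, hT, hTc⟩
      obtain ⟨T, hT, hTc⟩ := hex
      have e := T.equivFinOfCardEq hTc
      have hpre : ∀ i : Fin (h + 1), ∃ z ∈ Zs N, (∏ j, z j ^ b j) = ((e.symm i : T) : K) := by
        intro i
        obtain ⟨z, hz1, hz2⟩ := hT (e.symm i).2
        exact ⟨z, hz1, hz2⟩
      choose W hW1 hW2 using hpre
      refine ⟨W, hW1, fun _ i i' hii => ?_⟩
      have : ((e.symm i : T) : K) = ((e.symm i' : T) : K) := by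
        rw [← hW2 i, ← hW2 i']
        exact hii
      exact e.symm.injective (Subtype.ext this)
    · exact ⟨fun _ _ => 1, fun _ => h1 N, fun hN' => absurd hN' hN⟩
  choose W hW1 hW2 using hpts
  have hlarge : ∀ᶠ N in (φ : Filter ℕ), max h B ≤ N := by
    have : {N : ℕ | max h B ≤ N} ∈ Filter.hyperfilter ℕ := by
      apply Filter.mem_hyperfilter_of_finite_compl
      apply (Set.finite_lt_nat (max h B)).subset
      intro N hN
      have hN' : ¬ max h B ≤ N := hN
      exact not_le.mp hN'
    exact this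
  -- the germs
  have hinj : Function.Injective (fun i : Fin (h + 1) =>
      ∏ j, (θ (fun N => W N i j)) ^ b j) := by
    intro i i' hii
    have e1 : ∀ i : Fin (h + 1), (∏ j, (θ (fun N => W N i j)) ^ b j) =
        θ (fun N => ∏ j, W N i j ^ b j) := by
      intro i
      have e2 : (fun N => ∏ j, W N i j ^ b j) = ∏ j, (fun N => W N i j ^ b j) := by
        funext N
        rw [Finset.prod_apply]
      rw [e2, map_prod]
      exact Finset.prod_congr rfl (fun j _ => (hz _ _).symm)
    have h8 : θ (fun N => ∏ j, W N i j ^ b j) = θ (fun N => ∏ j, W N i' j ^ b j) := by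
      rw [← e1 i, ← e1 i']
      exact hii
    rw [heq] at h8
    obtain ⟨N, hN1, hN2⟩ := (h8.and hlarge).exists
    exact hW2 N hN2 hN1
  have hcard : Fintype.card (Fin (h + 1)) ≤ S.card := by
    have hmem : ∀ i : Fin (h + 1), (∏ j, (θ (fun N => W N i j)) ^ b j) ∈ S := by
      intro i
      rw [hS, Set.Finite.mem_toFinset]
      exact ⟨fun j => θ (fun N => W N i j), ⟨fun N => W N i, fun N => hW1 N i, fun j => rfl⟩, rfl⟩
    have := Finset.card_le_card_of_injOn (s := Finset.univ) (t := S) (fun i : Fin (h + 1) =>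
      ∏ j, (θ (fun N => W N i j)) ^ b j) (fun i _ => hmem i) (fun i _ i' _ hh => hinj hh)
    simpa using this
  rw [Fintype.card_fin, ← hh] at hcard
  omega

end Pool.Agent.MVD
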