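import Pool.Agent.MVD.AuxPoly
import Pool.Agent.MVD.ZgU
import Pool.Agent.MVD.Params

/-!
# Module TssClass (size 4)

Let `d = finrank`. `params m (2 * m * C1) η d` gives `D, B` (use it for `i = m`). `J = B * ((D+1)^m - B^(m-1))`, `N` from `zero_unif K m D`. Let `S` be not empty (otherwise take
`b = fun _ => 1`-like, `Cs = ∅`; make `N ≥ 1`), `P0 ∈ S`, `Z1 = {z : ∃ P ∈ S, ∀ j, z j = P j / P0 j}`, `1 ∈ Z1`. `Z = {z : ∃ g : Fin m → (Fin m → K), (∀ i, g i ∈ Z1) ∧ ∀ j, z j = ∏ i, g i j}`.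
For `z ∈ Z`: `hgt (z j) ≤ ∑_i hgt (g i j) ≤ m * (2 C1 L)` (`hgt_prod`, `hgt_div`). For `v ∈ Q`: `mk v (P j / P0 j - 1) = mk v (P j - P0 j) ≤ exp (-ln v)` (units), and congruences to 1
are preserved by products (`x y - 1 = x (y - 1) + (x - 1)`). `(P/P0)^n - 1 = (P^n - P0^n) / P0^n`, where `mk v (P0^n) = 1` (`map_zpow₀`, units) and
`mk v (P^n - P0^n) ≤ max ≤ exp (-ln v)^J`; the `n`-th monomial of a product is the product of the monomials, so again congruent to 1 modulo `exp (-ln v)^J`. `aux_poly` with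
`H = 2 m C1 L` (`hnum` from `params`, as `LN Q ≥ η L`; the powers `m * D * H`: `params` has `i * D * (C1' * L)` with `C1' = 2 m C1`) gives `F`. `zero_unif` for `Z1` gives `b` and `Cs`;
replace `Cs` by its image under multiplication by `∏ P0 j ^ b j`.
-/

namespace Pool.Agent.MVD

open NumberField IsDedekindDomain Pool.Agent.H7.Abc Pool.Agent.AbcE MvPolynomial

private theorem tssClass_prod {K : Type*} [Field K] [NumberField K] (V : FinitePlace K)
    {ι : Type*} (s : Finset ι) (x : ι → K) {r : ℝ} (hr0 : 0 ≤ r) (hr : r ≤ 1)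
    (h : ∀ i ∈ s, V (x i - 1) ≤ r) : V (∏ i ∈ s, x i - 1) ≤ r := by
  classical
  induction s using Finset.induction_on with
  | empty => simpa using hr0
  | insert i s hi ih =>
    rw [Finset.prod_insert hi]
    have e1 : x i * ∏ j ∈ s, x j - 1 = x i * (∏ j ∈ s, x j - 1) + (x i - 1) := by ring
    have h1 := h i (Finset.mem_insert_self i s)
    have h2 := ih fun j hj => h j (Finset.mem_insert_of_mem hj)
    have h3 : V (x i) ≤ 1 := by
      have h4 := FinitePlace.add_le V (x i - 1) 1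
      rw [sub_add_cancel, map_one] at h4
      exact h4.trans (max_le (h1.trans hr) le_rfl)
    rw [e1]
    refine (FinitePlace.add_le V _ _).trans (max_le ?_ h1)
    rw [map_mul]
    calc V (x i) * V (∏ j ∈ s, x j - 1) ≤ 1 * r :=
          mul_le_mul h3 h2 (apply_nonneg _ _) zero_le_one
      _ = r := one_mul r

private theorem tssClass_sub {K : Type*} [Field K] [NumberField K] (V : FinitePlace K)
    {x y c : K} {r : ℝ} (hx : V (x - c) ≤ r) (hy : V (y - c) ≤ r) : V (x - y) ≤ r := by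
  have e1 : x - y = (x - c) + -(y - c) := by ring
  rw [e1]
  refine (FinitePlace.add_le V _ _).trans (max_le hx ?_)
  rwa [map_neg_eq_map]

/-- Points of one residue class which satisfy a congruence are contained in few cosets. -/
theorem tss_class (K : Type*) [Field K] [NumberField K] (m : ℕ) (hm : 1 ≤ m) (C1 η : ℝ)
    (hC1 : 0 ≤ C1) (hη : 0 < η) : ∃ J N : ℕ, ∀ L : ℝ, 1 ≤ L →
      ∀ Q : Finset (HeightOneSpectrum (𝓞 K)), η * L ≤ AbcF.LN Q → ∀ (n : Fin m → ℤ) (k : Fin m),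
      (∀ v ∈ Q, FinitePlace.mk v ((n k : ℤ) : K) = 1) → ∀ (c : K) (S : Finset (Fin m → K)),
      (∀ P ∈ S, (∀ j, P j ≠ 0 ∧ hgt (P j) ≤ C1 * L) ∧ ∀ v ∈ Q, (∀ j, FinitePlace.mk v (P j) = 1) ∧
        FinitePlace.mk v (∏ j, P j ^ n j - c) ≤ Real.exp (-ln v) ^ J) →
      (∀ P ∈ S, ∀ P' ∈ S, ∀ v ∈ Q, ∀ j, FinitePlace.mk v (P j - P' j) ≤ Real.exp (-ln v)) →
      ∃ b : Fin m → ℤ, b ≠ 0 ∧ (∀ j, |b j| ≤ (N : ℤ)) ∧ ∃ Cs : Finset K, Cs.card ≤ N ∧
        ∀ P ∈ S, ∏ j, P j ^ b j ∈ Cs := by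
  classical
  obtain ⟨D, B, hDB⟩ := params m (2 * m * C1) η (Module.finrank ℚ K) (by positivity) hη
    (Nat.cast_nonneg _)
  obtain ⟨-, hpar⟩ := hDB m hm le_rfl
  obtain ⟨N1, hN1⟩ := zero_unif K m D
  refine ⟨B * ((D + 1) ^ m - B ^ (m - 1)), N1 + 1, ?_⟩
  intro L hL Q hQ n k hk c S hS hres
  rcases S.eq_empty_or_nonempty with rfl | ⟨P0, hP0⟩
  · refine ⟨fun _ => 1, ?_, fun j => ?_, ∅, by simp, by simp⟩
    · intro h
      have := congrFun h k
      simp at this
    · push_cast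
      rw [abs_one]
      linarith [Int.natCast_nonneg N1]
  have hexp : ∀ v : HeightOneSpectrum (𝓞 K), Real.exp (-ln v) ≤ 1 := by
    intro v
    rw [Real.exp_le_one_iff]
    have := log_norm_pos v
    unfold ln
    linarith
  set Z1 : Set (Fin m → K) := {z | ∃ P ∈ S, z = fun j => P j / P0 j} with hZ1
  set Z : Set (Fin m → K) := {z | ∃ g : Fin m → (Fin m → K), (∀ i, g i ∈ Z1) ∧
    z = fun j => ∏ i, g i j} with hZ
  have hP00 : ∀ j, P0 j ≠ 0 := fun j => ((hS P0 hP0).1 j).1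
  have hnum : ((D + 1 : ℕ) ^ m : ℝ) * (m * D * (2 * m * C1 * L)) +
      Module.finrank ℚ K * Real.log (((D + 1) ^ m).factorial : ℝ) <
        (B * ((D + 1) ^ m - B ^ (m - 1)) : ℕ) * AbcF.LN Q := by
    refine lt_of_lt_of_le (hpar L hL) ?_
    exact mul_le_mul_of_nonneg_left hQ (Nat.cast_nonneg _)
  obtain ⟨F, hF0, hFdeg, hFz⟩ := aux_poly D B _ le_rfl Q n k hk hnum Z (by
    rintro z ⟨g, hg, rfl⟩
    refine ⟨fun j => ?_, fun v hv => ⟨fun j => ?_, ?_⟩⟩
    · refine (hgt_prod _ _).trans ?_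
      have h1 : ∀ i ∈ (Finset.univ : Finset (Fin m)), hgt (g i j) ≤ 2 * C1 * L := by
        intro i _
        obtain ⟨P, hP, hgi⟩ := hg i
        rw [hgi]
        have h2 := hgt_div (P j) (P0 j)
        have h3 := ((hS P hP).1 j).2
        have h4 := ((hS P0 hP0).1 j).2
        show hgt (P j / P0 j) ≤ _
        linarith
      refine (Finset.sum_le_card_nsmul _ _ _ h1).trans ?_
      rw [Finset.card_univ, Fintype.card_fin, nsmul_eq_mul]
      apply le_of_eq
      ring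
    · refine tssClass_prod _ _ _ (Real.exp_nonneg _) (hexp v) fun i _ => ?_
      obtain ⟨P, hP, hgi⟩ := hg i
      rw [hgi]
      have e1 : P j / P0 j - 1 = (P j - P0 j) / P0 j := by
        have := hP00 j
        field_simp
      show FinitePlace.mk v (P j / P0 j - 1) ≤ _
      rw [e1, map_div₀, ((hS P0 hP0).2 v hv).1 j, div_one]
      exact hres P hP P0 hP0 v hv j
    · have e2 : (∏ j, (∏ i, g i j) ^ n j) = ∏ i, ∏ j, (g i j) ^ n j := by
        rw [Finset.prod_comm]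
        exact Finset.prod_congr rfl fun j _ => (Finset.prod_zpow _ _ _).symm
      show FinitePlace.mk v ((∏ j, (∏ i, g i j) ^ n j) - 1) ≤ _
      rw [e2]
      refine tssClass_prod _ _ _ (by positivity) (pow_le_one₀ (Real.exp_nonneg _) (hexp v))
        fun i _ => ?_
      obtain ⟨P, hP, hgi⟩ := hg i
      have hP0n : (∏ j, P0 j ^ n j) ≠ 0 :=
        Finset.prod_ne_zero_iff.2 fun j _ => zpow_ne_zero _ (hP00 j)
      have e3 : (∏ j, (g i j) ^ n j) - 1 =
          ((∏ j, P j ^ n j) - ∏ j, P0 j ^ n j) / ∏ j, P0 j ^ n j := by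
        rw [hgi]
        have : (∏ j, (P j / P0 j) ^ n j) = (∏ j, P j ^ n j) / ∏ j, P0 j ^ n j := by
          rw [← Finset.prod_div_distrib]
          exact Finset.prod_congr rfl fun j _ => div_zpow _ _ _
        show (∏ j, (P j / P0 j) ^ n j) - 1 = _
        rw [this]
        field_simp
      have hu : FinitePlace.mk v (∏ j, P0 j ^ n j) = 1 := by
        simp only [map_prod, map_zpow₀, ((hS P0 hP0).2 v hv).1, one_zpow, Finset.prod_const_one]
      rw [e3, map_div₀, hu, div_one]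
      exact tssClass_sub _ ((hS P hP).2 v hv).2 ((hS P0 hP0).2 v hv).2)
  obtain ⟨b, hb0, hbN, Cs, hCs, hCsm⟩ := hN1 Z1 F
    ⟨P0, hP0, by
      funext j
      exact (div_self (hP00 j)).symm⟩
    (by
      rintro z ⟨P, hP, rfl⟩ j
      exact div_ne_zero ((hS P hP).1 j).1 (hP00 j))
    hF0 hFdeg (fun g hg => hFz _ ⟨g, hg, rfl⟩)
  refine ⟨b, hb0, fun j => (hbN j).trans (by push_cast; linarith), Cs.image (fun t => t * ∏ j, P0 j ^ b j),
    (Finset.card_image_le.trans hCs).trans (by omega), fun P hP => ?_⟩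
  rw [Finset.mem_image]
  refine ⟨_, hCsm _ ⟨P, hP, rfl⟩, ?_⟩
  have : (∏ j, (P j / P0 j) ^ b j) = (∏ j, P j ^ b j) / ∏ j, P0 j ^ b j := by
    rw [← Finset.prod_div_distrib]
    exact Finset.prod_congr rfl fun j _ => div_zpow _ _ _
  show (∏ j, (P j / P0 j) ^ b j) * _ = _
  rw [this, div_mul_cancel₀]
  exact Finset.prod_ne_zero_iff.2 fun j _ => zpow_ne_zero _ (hP00 j)

end Pool.Agent.MVD
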