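import Pool.Agent.MVD.DefsB

/-!
# Module TssCoset (size 4)

Let `π P = fun j => P (l.succAbove j)`, `n' j = n (l.succAbove j) * b l - b (l.succAbove j) * n l`. On `S`: `P l ^ b l = c2 * ∏_j (π P j) ^ (-b (l.succAbove j))` (`Fin.prod_univ_succAbove`,
nonzero coordinates), so `(∏ P ^ n) ^ (b l) = c2 ^ (n l) * ∏_j (π P j) ^ n' j` (`zpow_mul`, `zpow_add₀`, `Finset.prod_zpow`). If `S` is empty both sides are fine (`0 ≤ M`: the hypothesis
`h` for `c' = 0`, or any, gives `0 ≤ M`). Otherwise pick `P0 ∈ S`; put `c' = c ^ (b l) * c2 ^ (-n l)`. For `v ∈ Q`: `mk v c2 = 1`, as `c2 = ∏ P0 ^ b`. If `J = 0` the congruence to be shown is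
`mk v (∏ .. - c') ≤ 1`: note `mk v c ≤ max (mk v (P^n)) (mk v (P^n - c)) ≤ 1`; to avoid trouble when `b l < 0` and `J = 0` we assume `1 ≤ J`; then `exp (-ln v)^J < 1`, so `mk v c = 1`.
`x ≡ c` modulo `exp (-ln v)^J` with `x, c` units implies `x^i ≡ c^i` for all integers `i` (naturals by `sub_dvd_pow_sub_pow`-like induction; negative: `x⁻¹ - c⁻¹ = (c - x)/(x c)`), so
`mk v (∏ (π P)^n' - c') = mk v (c2^(-n l)) * mk v ((P^n)^(b l) - c^(b l)) ≤ exp (-ln v)^J`. `h` bounds the number of values `t` of `∏ (π P)^n'`; for each `t` the values `x = ∏ P^n`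
satisfy `x ^ (b l) = c2 ^ (n l) * t`, i.e. `x ^ |b l| = const`, at most `|b l|` values (`Polynomial.card_nthRoots`). So `f '' S` is covered by the fibres over the values `t`.
-/

namespace Pool.Agent.MVD

open NumberField IsDedekindDomain Pool.Agent.H7.Abc Pool.Agent.AbcE MvPolynomial

private theorem tssCoset_sub_le {K : Type*} [Field K] [NumberField K] (V : FinitePlace K)
    (x y : K) : V (x - y) ≤ max (V x) (V y) := by
  have h := FinitePlace.add_le V x (-y)
  rwa [← sub_eq_add_neg, map_neg_eq_map] at h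

private theorem tssCoset_pow {K : Type*} [Field K] [NumberField K] (V : FinitePlace K) {s t : K}
    (hs : V s = 1) (ht : V t = 1) (n : ℕ) : V (s ^ n - t ^ n) ≤ V (s - t) := by
  induction n with
  | zero => simp [apply_nonneg]
  | succ n ih =>
    have e1 : s ^ (n + 1) - t ^ (n + 1) = s ^ n * (s - t) + (s ^ n - t ^ n) * t := by ring
    rw [e1]
    refine (FinitePlace.add_le V _ _).trans (max_le ?_ ?_)
    · rw [map_mul, map_pow, hs, one_pow, one_mul]
    · rw [map_mul, ht, mul_one]; exact ih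

private theorem tssCoset_zpow {K : Type*} [Field K] [NumberField K] (V : FinitePlace K) {s t : K}
    (hs : V s = 1) (ht : V t = 1) (n : ℤ) : V (s ^ n - t ^ n) ≤ V (s - t) := by
  have hs0 : s ≠ 0 := by
    intro h; rw [h, map_zero] at hs; exact zero_ne_one hs
  have ht0 : t ≠ 0 := by
    intro h; rw [h, map_zero] at ht; exact zero_ne_one ht
  obtain ⟨k, rfl | rfl⟩ := n.eq_nat_or_neg
  · rw [zpow_natCast, zpow_natCast]
    exact tssCoset_pow V hs ht k
  · rw [zpow_neg, zpow_neg, zpow_natCast, zpow_natCast]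
    have e1 : (s ^ k)⁻¹ - (t ^ k)⁻¹ = -((s ^ k - t ^ k) * ((s ^ k)⁻¹ * (t ^ k)⁻¹)) := by
      have h1 : s ^ k ≠ 0 := pow_ne_zero _ hs0
      have h2 : t ^ k ≠ 0 := pow_ne_zero _ ht0
      field_simp
      ring
    rw [e1, map_neg_eq_map, map_mul, map_mul, map_inv₀, map_inv₀, map_pow, map_pow, hs, ht,
      one_pow, inv_one, mul_one, mul_one]
    exact tssCoset_pow V hs ht k

/-- Reduction of a coset to a smaller number of variables. -/
theorem tss_coset {K : Type*} [Field K] [NumberField K] {m : ℕ} (n b : Fin (m + 1) → ℤ)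
    (l : Fin (m + 1)) (hl : b l ≠ 0) (c c2 : K) (S : Finset (Fin (m + 1) → K))
    (hS : ∀ P ∈ S, (∀ j, P j ≠ 0) ∧ ∏ j, P j ^ b j = c2)
    (Q : Finset (HeightOneSpectrum (𝓞 K))) {J : ℕ} (hJ : 1 ≤ J)
    (hQ : ∀ P ∈ S, ∀ v ∈ Q, (∀ j, FinitePlace.mk v (P j) = 1) ∧
      FinitePlace.mk v (∏ j, P j ^ n j - c) ≤ Real.exp (-ln v) ^ J) {M : ℝ}
    (h : ∀ (c' : K) (S' : Finset (Fin m → K)),
      (∀ P' ∈ S', ∃ P ∈ S, P' = fun j => P (l.succAbove j)) →
      (∀ P' ∈ S', ∀ v ∈ Q, FinitePlace.mk v (∏ j, P' j ^ (n (l.succAbove j) * b l -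
        b (l.succAbove j) * n l) - c') ≤ Real.exp (-ln v) ^ J) →
      (((fun P' : Fin m → K => ∏ j, P' j ^ (n (l.succAbove j) * b l -
        b (l.succAbove j) * n l)) '' (S' : Set (Fin m → K))).ncard : ℝ) ≤ M) :
    (((fun P : Fin (m + 1) → K => ∏ j, P j ^ n j) '' (S : Set (Fin (m + 1) → K))).ncard : ℝ) ≤
      |(b l : ℝ)| * M := by
  classical
  set f : (Fin (m + 1) → K) → K := fun P => ∏ j, P j ^ n j with hf
  set π : (Fin (m + 1) → K) → (Fin m → K) := fun P j => P (l.succAbove j) with hπ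
  set t : (Fin m → K) → K := fun P' => ∏ j, P' j ^ (n (l.succAbove j) * b l -
        b (l.succAbove j) * n l) with ht
  -- the basic identity
  have hid : ∀ P ∈ S, f P ^ b l = c2 ^ n l * t (π P) := by
    intro P hP
    obtain ⟨hP0, hPc⟩ := hS P hP
    have e1 : f P = P l ^ n l * ∏ j : Fin m, P (l.succAbove j) ^ n (l.succAbove j) := by
      rw [hf]; exact Fin.prod_univ_succAbove (fun j => P j ^ n j) l
    have e2 : c2 = P l ^ b l * ∏ j : Fin m, P (l.succAbove j) ^ b (l.succAbove j) := by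
      rw [← hPc]; exact Fin.prod_univ_succAbove (fun j => P j ^ b j) l
    rw [e1, e2, mul_zpow, mul_zpow, ← Finset.prod_zpow, ← Finset.prod_zpow, ht, mul_assoc,
      ← Finset.prod_mul_distrib]
    congr 1
    · rw [← zpow_mul, ← zpow_mul, mul_comm]
    · refine Finset.prod_congr rfl fun j _ => ?_
      show (P (l.succAbove j) ^ n (l.succAbove j)) ^ b l =
        (P (l.succAbove j) ^ b (l.succAbove j)) ^ n l *
          P (l.succAbove j) ^ (n (l.succAbove j) * b l - b (l.succAbove j) * n l)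
      rw [← zpow_mul, ← zpow_mul, ← zpow_add₀ (hP0 _)]
      congr 1
      ring
  have hf0 : ∀ P ∈ S, f P ≠ 0 := by
    intro P hP
    exact Finset.prod_ne_zero_iff.2 fun j _ => zpow_ne_zero _ ((hS P hP).1 j)
  have hc20 : ∀ P ∈ S, c2 ≠ 0 := by
    intro P hP
    rw [← (hS P hP).2]
    exact Finset.prod_ne_zero_iff.2 fun j _ => zpow_ne_zero _ ((hS P hP).1 j)
  have htid : ∀ P ∈ S, t (π P) = f P ^ b l * c2 ^ (-n l) := by
    intro P hP
    rw [hid P hP, zpow_neg]
    have := zpow_ne_zero (n l) (hc20 P hP)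
    field_simp
  -- the congruence
  have hcong : ∀ P' ∈ S.image π, ∀ v ∈ Q, FinitePlace.mk v (t P' - c ^ b l * c2 ^ (-n l)) ≤
      Real.exp (-ln v) ^ J := by
    intro P' hP' v hv
    obtain ⟨P, hP, rfl⟩ := Finset.mem_image.1 hP'
    obtain ⟨hu, hcg⟩ := hQ P hP v hv
    have hfu : FinitePlace.mk v (f P) = 1 := by
      rw [hf]
      simp only [map_prod, map_zpow₀, hu, one_zpow, Finset.prod_const_one]
    have hc2u : FinitePlace.mk v c2 = 1 := by
      rw [← (hS P hP).2]
      simp only [map_prod, map_zpow₀, hu, one_zpow, Finset.prod_const_one]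
    have hlt : Real.exp (-ln v) ^ J < 1 := by
      have h1 : Real.exp (-ln v) < 1 := by
        rw [Real.exp_lt_one_iff]
        have := log_norm_pos v
        unfold ln
        linarith
      exact pow_lt_one₀ (Real.exp_nonneg _) h1 (by omega)
    have hcu : FinitePlace.mk v c = 1 := by
      have hlt' : FinitePlace.mk v (f P - c) < 1 := lt_of_le_of_lt hcg hlt
      apply le_antisymm
      · have h1 := tssCoset_sub_le (FinitePlace.mk v) (f P) (f P - c)
        rw [sub_sub_cancel, hfu] at h1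
        exact h1.trans (max_le le_rfl hlt'.le)
      · have h1 := FinitePlace.add_le (FinitePlace.mk v) (f P - c) c
        rw [sub_add_cancel, hfu] at h1
        rcases le_max_iff.1 h1 with h2 | h2
        · linarith
        · exact h2
    have e1 : t (π P) - c ^ b l * c2 ^ (-n l) = (f P ^ b l - c ^ b l) * c2 ^ (-n l) := by
      rw [htid P hP]; ring
    rw [e1, map_mul, map_zpow₀, hc2u, one_zpow, mul_one]
    exact (tssCoset_zpow _ hfu hcu _).trans hcg
  have hM := h (c ^ b l * c2 ^ (-n l)) (S.image π) (by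
    intro P' hP'
    obtain ⟨P, hP, rfl⟩ := Finset.mem_image.1 hP'
    exact ⟨P, hP, rfl⟩) hcong
  -- counting
  set X : Finset K := S.image f with hX
  have hXset : (f '' (S : Set (Fin (m + 1) → K))) = (X : Set K) := by
    rw [hX, Finset.coe_image]
  rw [hXset, Set.ncard_coe_finset]
  set g : K → K := fun x => x ^ b l * c2 ^ (-n l) with hg
  have hT : (t '' ((S.image π : Finset (Fin m → K)) : Set (Fin m → K))) = ((X.image g : Finset K) : Set K) := by
    ext y
    simp only [Set.mem_image, Finset.mem_coe, Finset.mem_image, hX]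
    constructor
    · rintro ⟨P', ⟨P, hP, rfl⟩, rfl⟩
      exact ⟨f P, ⟨P, hP, rfl⟩, (htid P hP).symm⟩
    · rintro ⟨_, ⟨P, hP, rfl⟩, rfl⟩
      exact ⟨π P, ⟨P, hP, rfl⟩, htid P hP⟩
  rw [hT, Set.ncard_coe_finset] at hM
  have hcard : X.card ≤ (b l).natAbs * (X.image g).card := by
    refine Finset.card_le_mul_card_image X _ fun a ha => ?_
    obtain ⟨x0, hx0, hx0a⟩ := Finset.mem_image.1 ha
    obtain ⟨P0, hP0, rfl⟩ := Finset.mem_image.1 hx0
    have hc2 := hc20 P0 hP0
    have hpos : 0 < (b l).natAbs := Int.natAbs_pos.2 hl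
    -- all elements of the fibre satisfy x ^ natAbs = w
    have hfib : ∀ x ∈ X.filter (fun x => g x = a), x ^ (b l).natAbs = (f P0) ^ (b l).natAbs := by
      intro x hx
      obtain ⟨hxX, hxa⟩ := Finset.mem_filter.1 hx
      have h1 : x ^ b l = f P0 ^ b l := by
        have h2 : x ^ b l * c2 ^ (-n l) = f P0 ^ b l * c2 ^ (-n l) := by
          rw [← hg] at *
          exact hxa.trans hx0a.symm
        exact mul_right_cancel₀ (zpow_ne_zero _ hc2) h2
      rcases Int.natAbs_eq (b l) with hb | hb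
      · rw [hb, zpow_natCast, zpow_natCast] at h1
        simpa using h1
      · rw [hb, zpow_neg, zpow_neg, zpow_natCast, zpow_natCast] at h1
        simpa using inv_injective h1
    have hsub : (X.filter (fun x => g x = a)) ⊆
        (Polynomial.nthRoots (b l).natAbs ((f P0) ^ (b l).natAbs)).toFinset := by
      intro x hx
      rw [Multiset.mem_toFinset, Polynomial.mem_nthRoots hpos]
      exact hfib x hx
    exact (Finset.card_le_card hsub).trans
      ((Multiset.toFinset_card_le _).trans (Polynomial.card_nthRoots _ _))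
  have hb : ((b l).natAbs : ℝ) = |(b l : ℝ)| := by
    rw [Nat.cast_natAbs, Int.cast_abs]
  calc ((X.card : ℕ) : ℝ) ≤ (((b l).natAbs * (X.image g).card : ℕ) : ℝ) := by exact_mod_cast hcard
    _ = |(b l : ℝ)| * (X.image g).card := by rw [Nat.cast_mul, hb]
    _ ≤ |(b l : ℝ)| * M := mul_le_mul_of_nonneg_left hM (abs_nonneg _)

end Pool.Agent.MVD
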