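import Pool.Agent.MVD.CellTSS
import Pool.Agent.MVD.Cells2
import Pool.Agent.MVD.Enum

/-!
# Module TssCount (size 4)

The count by the theorem on congruences.
-/

namespace Pool.Agent.MVD

open NumberField IsDedekindDomain Pool.Agent.H7.Abc Pool.Agent.AbcE Pool.Agent.AbcF

/-- The count by the theorem on congruences: property of the constants. -/
def TssProp (K : Type*) [Field K] [NumberField K] (m : ℕ) (C1 ε η δ : ℝ) (J : ℕ) : Prop :=
  ∀ (κ1 : ℝ) (E : ℕ), ∃ C : ℝ, 0 < C ∧ ∀ L : ℝ, 1 ≤ L →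
    ∀ (c : Fin 3) (A : Fin 3 → Set ℕ) (M : Set ℕ) (S : Fin 3 → Finset ℕ) (θ : ℝ),
      (∀ g, g ≠ c → (S g).card ≤ m ∧ ∀ n ∈ S g, n ≤ E ∧ n ∈ A g) → (∀ n ∈ M, J ≤ n) →
      (({x : K | x ≠ 0 ∧ x ≠ 1 ∧ hgt x ≤ κ1 * L ∧
        ∑ g, rd (grp x g) (if g = c then M else (A g)ᶜ) ≤ θ ∧
        (∀ g, g ≠ c → (∀ n ∈ S g, rd (grp x g) {n} ≤ C1 * L) ∧
          sz (grp x g) (A g \ (S g : Set ℕ)) ≤ C1 * L) ∧
        η * L ≤ rd (grp x c) M ∧ ∀ v : HeightOneSpectrum (𝓞 K), 0 < ord v (grp x c) →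
          (ord v (grp x c)).toNat ∈ M → ln v ≤ δ * L}.ncard : ℕ) : ℝ) ≤
        C * Real.exp (θ + ε * L)

private theorem tssc_ord {K : Type*} [Field K] [NumberField K] {x : K} (hx : x ≠ 0) (hx1 : x ≠ 1)
    (c : Fin 3) (v : HeightOneSpectrum (𝓞 K)) (h : 0 < ord v (role c x - 1)) :
    ord v (grp x c) = ord v (role c x - 1) := by
  have h1 := RolesAux.quot_facts hx hx1 v
  have h2 := RolesAux.one_sub_facts hx hx1 v
  have h3 := RolesAux.ord_sub_one v hx hx1
  fin_cases c
  · simp only [role, grp, Fin.zero_eta] at h ⊢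
    simpa using h2.2.2.symm
  · have e1 : role 1 x = x / (x - 1) := by simp [role]
    have e2 : grp x 1 = x⁻¹ := by simp [grp]
    simp only [Fin.mk_one] at h ⊢
    rw [e1, h1.2.2] at h
    rw [e1, e2, h1.2.2, RolesAux.ord_inv v hx, h3.2.1 (by omega)]
  · simp [role, grp]

theorem tss_count (K : Type*) [Field K] [NumberField K] (m : ℕ) (C1 ε η : ℝ) (hC1 : 0 ≤ C1)
    (hε : 0 < ε) (hη : 0 < η) : ∃ δ : ℝ, 0 < δ ∧ ∃ J : ℕ, 1 ≤ J ∧ TssProp K m C1 ε η δ J := by
  classical
  obtain ⟨δ, hδ, J, hJ, hcell⟩ := cell_tss K m C1 (ε / 2) η hC1 (by positivity) hη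
  refine ⟨δ, hδ, J, hJ, ?_⟩
  intro κ1 E
  obtain ⟨C', hC', hc'⟩ := hcell E
  set d : ℝ := (Module.finrank ℚ K : ℝ) with hd
  have hd0 : 0 ≤ d := by positivity
  have hk : 0 < |κ1| + 1 + d := by positivity
  obtain ⟨C'', hC'', hc''⟩ := cells_sum2 K (ε := ε / (2 * (|κ1| + 1 + d))) (by positivity)
  refine ⟨C'' * C', by positivity, ?_⟩
  intro L hL c A M S θ hS hM
  set X : Set K := {x : K | x ≠ 0 ∧ x ≠ 1 ∧ hgt x ≤ κ1 * L ∧
        ∑ g, rd (grp x g) (if g = c then M else (A g)ᶜ) ≤ θ ∧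
        (∀ g, g ≠ c → (∀ n ∈ S g, rd (grp x g) {n} ≤ C1 * L) ∧
          sz (grp x g) (A g \ (S g : Set ℕ)) ≤ C1 * L) ∧
        η * L ≤ rd (grp x c) M ∧ ∀ v : HeightOneSpectrum (𝓞 K), 0 < ord v (grp x c) →
          (ord v (grp x c)).toNat ∈ M → ln v ≤ δ * L} with hX
  by_cases hfin : X.Finite
  swap
  · rw [Set.Infinite.ncard hfin, Nat.cast_zero]
    positivity
  -- the tool
  let T : Tool :=
    { e := 1
      F0 := A (gz c)
      F1 := A (gp c)
      G := Mᶜ
      he := le_rfl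
      h0 := fun _ _ => one_dvd _
      h1 := fun _ _ => one_dvd _ }
  -- the lists of exponents
  obtain ⟨ex0, h01, h02, h03⟩ := exists_ex (m := m) (S (gz c)) (hS _ (gz_ne c)).1
  obtain ⟨ex1, h11, h12, h13⟩ := exists_ex (m := m) (S (gp c)) (hS _ (gp_ne c)).1
  let ex : Fin 3 → Fin m → ℕ := fun g => if g = 0 then ex0 else ex1
  have hex : ∀ g, g ≠ 2 → ExOK (Fs T g) (ex g) E := by
    intro g hg
    have hcase : g = 0 ∨ g = 1 := by
      revert hg
      fin_cases g <;> simp
    rcases hcase with rfl | rfl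
    · have e1 : ex 0 = ex0 := by simp [ex]
      have e2 : Fs T 0 = A (gz c) := by simp [Fs, T]
      rw [e1, e2]
      refine ⟨fun k => ?_, fun k hk => ((hS _ (gz_ne c)).2 _ (h02 k hk)).2, h03⟩
      by_cases hk : ex0 k = 0
      · omega
      · exact ((hS _ (gz_ne c)).2 _ (h02 k hk)).1
    · have e1 : ex 1 = ex1 := by simp [ex]
      have e2 : Fs T 1 = A (gp c) := by simp [Fs, T]
      rw [e1, e2]
      refine ⟨fun k => ?_, fun k hk => ((hS _ (gp_ne c)).2 _ (h12 k hk)).2, h13⟩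
      by_cases hk : ex1 k = 0
      · omega
      · exact ((hS _ (gp_ne c)).2 _ (h12 k hk)).1
  have hL0 : 0 < L := by linarith
  have hCL : 0 ≤ C1 * L := by positivity
  -- the image
  set Y : Finset K := hfin.toFinset.image (role c) with hY
  have hcard : X.ncard = Y.card := by
    rw [Set.ncard_eq_toFinset_card X hfin, hY, Finset.card_image_of_injOn]
    intro x hx y hy hxy
    have hx' : x ∈ X := (Set.Finite.mem_toFinset hfin).1 hx
    have hy' : y ∈ X := (Set.Finite.mem_toFinset hfin).1 hy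
    exact role_inj hx'.2.1 hy'.2.1 c hxy
  rw [hcard]
  set D : ℝ := (|κ1| + 1 + d) * L with hD
  have hD0 : 0 ≤ D := by positivity
  have key := hc'' T D θ (C' * Real.exp (ε / 2 * L)) hD0 (by positivity) Y ?_ ?_
  · refine key.trans (le_of_eq ?_)
    have e1 : ε / (2 * (|κ1| + 1 + d)) * D = ε / 2 * L := by
      rw [hD]
      field_simp
    rw [e1, mul_assoc, mul_assoc, ← Real.exp_add, mul_assoc]
    congr 3
    ring
  · -- the elements of the image
    intro y hy
    obtain ⟨x, hx, rfl⟩ := Finset.mem_image.1 hy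
    obtain ⟨hx0, hx1, hxh, hxs, -, -, -⟩ := (Set.Finite.mem_toFinset hfin).1 hx
    refine ⟨role_ne_zero hx0 hx1 c, role_ne_one hx0 hx1 c, ?_, ?_⟩
    · have h1 := (hgt_role_le hx0 hx1 c).1
      have h2 : Real.log 2 ≤ 1 := by
        have := Real.log_two_lt_d9
        linarith
      have h3 : (Module.finrank ℚ K : ℝ) * Real.log 2 ≤ d * L := by
        have h4 : d * Real.log 2 ≤ d * 1 := mul_le_mul_of_nonneg_left h2 hd0
        have h5 : d * 1 ≤ d * L := mul_le_mul_of_nonneg_left hL hd0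
        linarith
      have h6 : κ1 * L ≤ |κ1| * L := mul_le_mul_of_nonneg_right (le_abs_self _) hL0.le
      rw [hD]
      nlinarith
    · rw [sum_all c] at hxs
      unfold RK
      rw [(role_rd hx0 hx1 c _).1, (role_rd hx0 hx1 c _).2.1, (role_rd hx0 hx1 c _).2.2]
      simp only [gz_ne c, gp_ne c, if_false, if_true] at hxs
      simpa [T] using hxs
  · -- one cell
    intro P hP y0 hy0 hsame
    refine hc' L hL T ex hex ?_ P y0 hy0 hsame ?_
    · intro n hn
      refine hM n ?_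
      simpa [T] using hn
    · intro y hy
      obtain ⟨x, hx, rfl⟩ := Finset.mem_image.1 (hP hy)
      obtain ⟨hx0, hx1, hxh, hxs, hsz, hη', hord⟩ := (Set.Finite.mem_toFinset hfin).1 hx
      refine ⟨role_ne_zero hx0 hx1 c, role_ne_one hx0 hx1 c, ?_, ?_, ?_⟩
      · intro g hg
        have hcase : g = 0 ∨ g = 1 := by
          revert hg
          fin_cases g <;> simp
        rcases hcase with rfl | rfl
        · have e1 : ex 0 = ex0 := by simp [ex]
          have e2 : Fs T 0 = A (gz c) := by simp [Fs, T]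
          have e3 : grp (role c x) 0 = role c x := by simp [grp]
          rw [e1, e2, e3]
          refine szOK_of (role_ne_zero hx0 hx1 c) h01 h02 hCL ?_ ?_
          · intro n hn
            rw [(role_rd hx0 hx1 c _).1]
            exact (hsz _ (gz_ne c)).1 n hn
          · rw [(role_sz hx0 hx1 c _).1]
            exact (hsz _ (gz_ne c)).2
        · have e1 : ex 1 = ex1 := by simp [ex]
          have e2 : Fs T 1 = A (gp c) := by simp [Fs, T]
          have e3 : grp (role c x) 1 = (role c x)⁻¹ := by simp [grp]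
          rw [e1, e2, e3]
          refine szOK_of (inv_ne_zero (role_ne_zero hx0 hx1 c)) h11 h12 hCL ?_ ?_
          · intro n hn
            rw [(role_rd hx0 hx1 c _).2.1]
            exact (hsz _ (gp_ne c)).1 n hn
          · rw [(role_sz hx0 hx1 c _).2.1]
            exact (hsz _ (gp_ne c)).2
      · have e1 : T.Gᶜ = M := by simp [T]
        rw [e1, (role_rd hx0 hx1 c _).2.2]
        exact hη'
      · intro v hv hv2
        have e2 := tssc_ord hx0 hx1 c v hv
        refine hord v (by rw [e2]; exact hv) ?_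
        rw [e2]
        simpa [T] using hv2

end Pool.Agent.MVD
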