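import Pool.Agent.MVD.TssClass
import Pool.Agent.MVD.TssCoset
import Pool.Agent.MVD.ResCls
import Pool.Agent.MVD.SubQ

/-!
# Module TssStep (size 5)

Let `m' = m + 1`, `η1 = min (η/2) (ε/(8 m'))`. `J1, N` from `tss_class K m' C1 η1`; `δ', J'` from the hypothesis for `C1, ε/4, η`. `δ = min η1 δ'`, `J = max 1 (max J1 J')`. For `E`: `E' = 2 * N * E`,
`C'` from the hypothesis for `E'`. `L0 = 1 + 4 (d log (E+1)) / η`. For `L < L0`: the points have coordinates in the finite set `{x : hgt x ≤ C1 L0}` (Northcott: `NumberField.finite_setOfPred_logHeight₁_le`,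
`hgt_eq`), a constant number of points. Let `L ≥ L0`. If `n = 0` the only value is 1. Otherwise choose `k` with `n k ≠ 0`; `hgt (n k) ≤ d log E` (`hgt_natCast`, `hgt_neg'`). `good_mass` with `z = n k` gives
`Q' ⊆ Q`, `LN Q' ≥ η L - 2 d log E ≥ η L / 2 ≥ η1 L`; `sub_mass` with `t = η1 L`, `δ := δ L` gives `Q1 ⊆ Q'` with `η1 L ≤ LN Q1 ≤ 2 η1 L`. By `res_cls` for `Q1`: the number of values is at most
`exp (m' * 2 η1 L) * A ≤ exp (ε/4 L) * A`, where `A` bounds the values on one class `S'`. For a class: `tss_class` (with `Q1`; `exp (-ln v)^J ≤ exp (-ln v)^J1`) gives `b, Cs`; choose `l` with `b l ≠ 0`; for `c2 ∈ Cs`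
the set `S'' = {P ∈ S' : ∏ P^b = c2}`; `tss_coset` (with the full `Q` and `J`) and the hypothesis (`|n'_j| ≤ 2 N E`, `exp (-ln v)^J ≤ exp (-ln v)^J'`) give at most `N * C' exp (ε/4 L)` values
(`|b l| ≤ N`). So `A = N * (N * C' exp (ε/4 L))`. Total at most `N^2 C' exp (ε/2 L)`. `C` = the maximum of all constants (plus 1).
-/

namespace Pool.Agent.MVD

open NumberField IsDedekindDomain Pool.Agent.H7.Abc Pool.Agent.AbcE MvPolynomial

/-- The statement of the theorem on congruences for `m` variables. -/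
def TssN (K : Type*) [Field K] [NumberField K] (m : ℕ) : Prop :=
  ∀ C1 ε η : ℝ, 0 ≤ C1 → 0 < ε → 0 < η → ∃ δ : ℝ, 0 < δ ∧ ∃ J : ℕ, 1 ≤ J ∧ ∀ E : ℕ, ∃ C : ℝ,
    0 < C ∧ ∀ L : ℝ, 1 ≤ L → ∀ Q : Finset (HeightOneSpectrum (𝓞 K)), η * L ≤ AbcF.LN Q →
      (∀ v ∈ Q, ln v ≤ δ * L) → ∀ n : Fin m → ℤ, (∀ j, |n j| ≤ (E : ℤ)) →
      ∀ (c : K) (S : Finset (Fin m → K)),
      (∀ P ∈ S, (∀ j, P j ≠ 0 ∧ hgt (P j) ≤ C1 * L) ∧ ∀ v ∈ Q, (∀ j, FinitePlace.mk v (P j) = 1) ∧
        FinitePlace.mk v (∏ j, P j ^ n j - c) ≤ Real.exp (-ln v) ^ J) →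
      (((fun P : Fin m → K => ∏ j, P j ^ n j) '' (S : Set (Fin m → K))).ncard : ℝ) ≤
        C * Real.exp (ε * L)

open Classical in
private theorem TssStep_cover {α β γ : Type*} (S : Finset α) (f : α → β) (g : α → γ)
    (Cs : Finset γ) (h : ∀ P ∈ S, g P ∈ Cs) {A : ℝ}
    (hA : ∀ c ∈ Cs, ((f '' ((S.filter (fun P => g P = c) : Finset α) : Set α)).ncard : ℝ) ≤ A) :
    ((f '' (S : Set α)).ncard : ℝ) ≤ Cs.card * A := by
  have h1 : (f '' (S : Set α)).ncard = (S.image f).card := by
    rw [← Finset.coe_image, Set.ncard_coe_finset]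
  have h2 : S.image f ⊆ Cs.biUnion (fun c => (S.filter (fun P => g P = c)).image f) := by
    intro y hy
    rw [Finset.mem_image] at hy
    obtain ⟨P, hP, rfl⟩ := hy
    rw [Finset.mem_biUnion]
    exact ⟨g P, h P hP, Finset.mem_image.2 ⟨P, Finset.mem_filter.2 ⟨hP, rfl⟩, rfl⟩⟩
  rw [h1]
  calc ((S.image f).card : ℝ)
      ≤ ((Cs.biUnion (fun c => (S.filter (fun P => g P = c)).image f)).card : ℝ) := by
        exact_mod_cast Finset.card_le_card h2
    _ ≤ ((∑ c ∈ Cs, ((S.filter (fun P => g P = c)).image f).card : ℕ) : ℝ) := by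
        exact_mod_cast Finset.card_biUnion_le
    _ = ∑ c ∈ Cs, (((S.filter (fun P => g P = c)).image f).card : ℝ) := by push_cast; rfl
    _ ≤ ∑ c ∈ Cs, A := by
        refine Finset.sum_le_sum fun c hc => ?_
        have h3 := hA c hc
        rw [← Finset.coe_image, Set.ncard_coe_finset] at h3
        exact h3
    _ = Cs.card * A := by rw [Finset.sum_const, nsmul_eq_mul]

private theorem TssStep_pow {K : Type*} [Field K] [NumberField K] (v : HeightOneSpectrum (𝓞 K))
    {a b : ℕ} (h : a ≤ b) : Real.exp (-ln v) ^ b ≤ Real.exp (-ln v) ^ a := by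
  refine pow_le_pow_of_le_one (Real.exp_nonneg _) ?_ h
  rw [Real.exp_le_one_iff]
  have := tc_ln_pos v
  linarith

private theorem TssStep_hgt {K : Type*} [Field K] [NumberField K] {z : ℤ} (hz : z ≠ 0) {E : ℕ}
    (h : |z| ≤ (E : ℤ)) : hgt ((z : ℤ) : K) ≤ Module.finrank ℚ K * Real.log (E + 1) := by
  have h1 : hgt ((z : ℤ) : K) = hgt ((z.natAbs : ℕ) : K) := by
    rcases Int.natAbs_eq z with h2 | h2
    · conv_lhs => rw [h2]
      rw [Int.cast_natCast]
    · conv_lhs => rw [h2]
      rw [Int.cast_neg, Int.cast_natCast, hgt_neg']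
  have h3 : 1 ≤ z.natAbs := Int.natAbs_pos.2 hz
  have h4 : z.natAbs ≤ E := by
    have : (z.natAbs : ℤ) ≤ (E : ℤ) := by rwa [Int.natCast_natAbs]
    exact_mod_cast this
  rw [h1]
  refine (hgt_natCast _ h3).trans ?_
  refine mul_le_mul_of_nonneg_left ?_ (Nat.cast_nonneg _)
  refine Real.log_le_log (by exact_mod_cast h3) ?_
  have : (z.natAbs : ℝ) ≤ (E : ℝ) := by exact_mod_cast h4
  linarith

private theorem TssStep_fin (K : Type*) [Field K] [NumberField K] (D : ℝ) :
    {x : K | hgt x ≤ D}.Finite := by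
  refine (NumberField.finite_setOfPred_logHeight₁_le K D).subset ?_
  intro x hx
  have h1 : hgt x ≤ D := hx
  rw [hgt_eq] at h1
  exact h1

private theorem TssStep_bnd {a b c d N E : ℤ} (ha : |a| ≤ E) (hb : |b| ≤ N) (hc : |c| ≤ N)
    (hd : |d| ≤ E) : |a * b - c * d| ≤ 2 * N * E := by
  have hE : 0 ≤ E := (abs_nonneg _).trans ha
  have hN : 0 ≤ N := (abs_nonneg _).trans hb
  have h1 : |a * b| ≤ E * N := by
    rw [abs_mul]; exact mul_le_mul ha hb (abs_nonneg _) hE
  have h2 : |c * d| ≤ N * E := by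
    rw [abs_mul]; exact mul_le_mul hc hd (abs_nonneg _) hN
  have h3 := abs_sub (a * b) (c * d)
  nlinarith

theorem tss_step (K : Type*) [Field K] [NumberField K] (m : ℕ) (h : TssN K m) :
    TssN K (m + 1) := by
  classical
  intro C1 ε η hC1 hε hη
  obtain ⟨η1, hη1d⟩ : ∃ x : ℝ, x = min (η / 2) (ε / (8 * ((m : ℝ) + 1))) := ⟨_, rfl⟩
  have hm0 : (0 : ℝ) < (m : ℝ) + 1 := by positivity
  have hη1 : 0 < η1 := by rw [hη1d]; exact lt_min (by positivity) (by positivity)
  have hη1a : η1 ≤ η / 2 := by rw [hη1d]; exact min_le_left _ _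
  have hη1b : ((m : ℝ) + 1) * (2 * η1) ≤ ε / 4 := by
    have h1 : η1 ≤ ε / (8 * ((m : ℝ) + 1)) := by rw [hη1d]; exact min_le_right _ _
    rw [le_div_iff₀ (by positivity)] at h1
    linarith
  obtain ⟨J1, N, hcls⟩ := tss_class K (m + 1) (by omega) C1 η1 hC1 hη1
  obtain ⟨δ', hδ', J', hJ', hE⟩ := h C1 (ε / 4) η hC1 (by positivity) hη
  refine ⟨min η1 δ', lt_min hη1 hδ', max 1 (max J1 J'), le_max_left _ _, ?_⟩
  have hJ1 : J1 ≤ max 1 (max J1 J') := (le_max_left _ _).trans (le_max_right _ _)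
  have hJ2 : J' ≤ max 1 (max J1 J') := (le_max_right _ _).trans (le_max_right _ _)
  have hJ0 : 1 ≤ max 1 (max J1 J') := le_max_left _ _
  obtain ⟨J, hJd⟩ : ∃ x : ℕ, x = max 1 (max J1 J') := ⟨_, rfl⟩
  rw [← hJd] at hJ1 hJ2 hJ0 ⊢
  intro E
  obtain ⟨C', hC', hM⟩ := hE (2 * N * E)
  obtain ⟨L0, hL0d⟩ : ∃ x : ℝ, x = 1 + 4 * ((Module.finrank ℚ K : ℝ) * Real.log (E + 1)) / η :=
    ⟨_, rfl⟩
  obtain ⟨F, hF⟩ : ∃ F : Finset K, ∀ x : K, x ∈ F ↔ hgt x ≤ C1 * L0 :=
    ⟨(TssStep_fin K (C1 * L0)).toFinset, fun x => by simp⟩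
  refine ⟨1 + (Fintype.piFinset (fun _ : Fin (m + 1) => F)).card + N * (N * C'), by positivity, ?_⟩
  intro L hL Q hQ hQδ n hn c S hS
  have hexp : 1 ≤ Real.exp (ε * L) := by
    rw [Real.one_le_exp_iff]; positivity
  have hNC : (0 : ℝ) ≤ N * (N * C') := by positivity
  by_cases hL0 : L < L0
  · -- small `L`
    have h1 : S ⊆ Fintype.piFinset (fun _ : Fin (m + 1) => F) := by
      intro P hP
      rw [Fintype.mem_piFinset]
      intro j
      rw [hF]
      refine ((hS P hP).1 j).2.trans ?_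
      exact mul_le_mul_of_nonneg_left hL0.le hC1
    have h2 : (((fun P : Fin (m + 1) → K => ∏ j, P j ^ n j) ''
        (S : Set (Fin (m + 1) → K))).ncard : ℝ) ≤
        ((Fintype.piFinset (fun _ : Fin (m + 1) => F)).card : ℝ) := by
      have h3 := Set.ncard_image_le (s := (S : Set (Fin (m + 1) → K)))
        (f := fun P : Fin (m + 1) → K => ∏ j, P j ^ n j) S.finite_toSet
      rw [Set.ncard_coe_finset] at h3
      exact_mod_cast h3.trans (Finset.card_le_card h1)
    refine h2.trans ?_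
    have h4 : (0 : ℝ) ≤ ((Fintype.piFinset (fun _ : Fin (m + 1) => F)).card : ℝ) := by positivity
    nlinarith
  · rw [not_lt] at hL0
    by_cases hn0 : n = 0
    · -- only one value
      have h2 : (((fun P : Fin (m + 1) → K => ∏ j, P j ^ n j) ''
          (S : Set (Fin (m + 1) → K))).ncard : ℝ) ≤ 1 := by
        have h3 : ((fun P : Fin (m + 1) → K => ∏ j, P j ^ n j) ''
          (S : Set (Fin (m + 1) → K))) ⊆ {1} := by
          rintro _ ⟨P, _, rfl⟩
          rw [Set.mem_singleton_iff, hn0]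
          simp
        have h4 := Set.ncard_le_ncard h3 (Set.finite_singleton _)
        rw [Set.ncard_singleton] at h4
        exact_mod_cast h4
      refine h2.trans ?_
      have h4 : (0 : ℝ) ≤ ((Fintype.piFinset (fun _ : Fin (m + 1) => F)).card : ℝ) := by positivity
      nlinarith
    · -- main case
      obtain ⟨k, hk⟩ := Function.ne_iff.1 hn0
      have hk0 : n k ≠ 0 := hk
      have hz : ((n k : ℤ) : K) ≠ 0 := by exact_mod_cast hk0
      have hzh : hgt ((n k : ℤ) : K) ≤ Module.finrank ℚ K * Real.log (E + 1) :=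
        TssStep_hgt hk0 (hn k)
      obtain ⟨Q', hQ'Q, hQ'1, hQ'2⟩ := good_mass Q hz
      have hdE : 4 * ((Module.finrank ℚ K : ℝ) * Real.log (E + 1)) ≤ η * L := by
        have h1 : 4 * ((Module.finrank ℚ K : ℝ) * Real.log (E + 1)) / η ≤ L := by
          rw [hL0d] at hL0; linarith
        rw [div_le_iff₀ hη] at h1
        linarith
      have hQ'3 : η1 * L ≤ AbcF.LN Q' := by
        have h1 : η1 * L ≤ η / 2 * L := mul_le_mul_of_nonneg_right hη1a (by linarith)
        linarith
      obtain ⟨Q1, hQ1Q', hQ1a, hQ1b⟩ := sub_mass Q' (t := η1 * L) (δ := η1 * L)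
        (by positivity) (by positivity) hQ'3 (fun v hv => by
          refine (hQδ v (hQ'Q hv)).trans ?_
          exact mul_le_mul_of_nonneg_right (min_le_left _ _) (by linarith))
      have hQ1Q : Q1 ⊆ Q := hQ1Q'.trans hQ'Q
      have hA0 : (0 : ℝ) ≤ N * (N * (C' * Real.exp (ε / 4 * L))) := by positivity
      have hres := res_cls Q1 S (fun P hP v hv j => (((hS P hP).2 v (hQ1Q hv)).1 j).le)
        (fun P : Fin (m + 1) → K => ∏ j, P j ^ n j) hA0 ?_
      · refine hres.trans ?_
        have h1 : ((m + 1 : ℕ) : ℝ) * AbcF.LN Q1 ≤ ε / 4 * L := by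
          push_cast
          calc ((m : ℝ) + 1) * AbcF.LN Q1 ≤ ((m : ℝ) + 1) * (η1 * L + η1 * L) :=
                mul_le_mul_of_nonneg_left hQ1b hm0.le
            _ = ((m : ℝ) + 1) * (2 * η1) * L := by ring
            _ ≤ ε / 4 * L := mul_le_mul_of_nonneg_right hη1b (by linarith)
        calc Real.exp (((m + 1 : ℕ) : ℝ) * AbcF.LN Q1) * (N * (N * (C' * Real.exp (ε / 4 * L))))
            ≤ Real.exp (ε / 4 * L) * (N * (N * (C' * Real.exp (ε / 4 * L)))) :=
              mul_le_mul_of_nonneg_right (Real.exp_le_exp.2 h1) hA0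
          _ = N * (N * C') * (Real.exp (ε / 4 * L) * Real.exp (ε / 4 * L)) := by ring
          _ = N * (N * C') * Real.exp (ε / 4 * L + ε / 4 * L) := by rw [Real.exp_add]
          _ ≤ N * (N * C') * Real.exp (ε * L) := by
              refine mul_le_mul_of_nonneg_left (Real.exp_le_exp.2 ?_) hNC
              nlinarith [mul_pos hε (show (0 : ℝ) < L by linarith)]
          _ ≤ (1 + (Fintype.piFinset (fun _ : Fin (m + 1) => F)).card + N * (N * C')) *
                Real.exp (ε * L) := by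
              refine mul_le_mul_of_nonneg_right ?_ (Real.exp_nonneg _)
              have h4 : (0 : ℝ) ≤ ((Fintype.piFinset (fun _ : Fin (m + 1) => F)).card : ℝ) := by
                positivity
              linarith
      · -- one class
        intro S' hS' hcong
        obtain ⟨b, hb0, hbN, Cs, hCs, hbCs⟩ := hcls L hL Q1 hQ1a n k
          (fun v hv => hQ'1 v (hQ1Q' hv)) c S' (fun P hP => ⟨(hS P (hS' hP)).1, fun v hv =>
            ⟨((hS P (hS' hP)).2 v (hQ1Q hv)).1,
              (((hS P (hS' hP)).2 v (hQ1Q hv)).2).trans (TssStep_pow v hJ1)⟩⟩) hcong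
        obtain ⟨l, hl⟩ := Function.ne_iff.1 hb0
        have hl0 : b l ≠ 0 := hl
        have hblN : |(b l : ℝ)| ≤ N := by
          have := hbN l
          have h1 : ((|b l| : ℤ) : ℝ) ≤ ((N : ℤ) : ℝ) := by exact_mod_cast this
          rw [Int.cast_abs, Int.cast_natCast] at h1
          exact h1
        have hM0 : 0 ≤ C' * Real.exp (ε / 4 * L) := by positivity
        have hcos : ∀ c2 ∈ Cs, (((fun P : Fin (m + 1) → K => ∏ j, P j ^ n j) ''
            ((S'.filter (fun P => ∏ j, P j ^ b j = c2) : Finset (Fin (m + 1) → K)) :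
              Set (Fin (m + 1) → K))).ncard : ℝ) ≤ N * (C' * Real.exp (ε / 4 * L)) := by
          intro c2 _
          have h1 := tss_coset n b l hl0 c c2 (S'.filter (fun P => ∏ j, P j ^ b j = c2))
            (fun P hP => by
              rw [Finset.mem_filter] at hP
              exact ⟨fun j => ((hS P (hS' hP.1)).1 j).1, hP.2⟩) Q hJ0
            (fun P hP v hv => by
              rw [Finset.mem_filter] at hP
              exact (hS P (hS' hP.1)).2 v hv) (M := C' * Real.exp (ε / 4 * L))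
            (fun c' S2 hS2 hS2c => by
              refine hM L hL Q hQ (fun v hv => (hQδ v hv).trans
                (mul_le_mul_of_nonneg_right (min_le_right _ _) (by linarith))) _ (fun j => ?_)
                c' S2 (fun P' hP' => ?_)
              · have h2 := TssStep_bnd (hn (l.succAbove j)) (hbN l) (hbN (l.succAbove j)) (hn l)
                push_cast
                exact h2
              · obtain ⟨P, hP, rfl⟩ := hS2 P' hP'
                rw [Finset.mem_filter] at hP
                refine ⟨fun j => (hS P (hS' hP.1)).1 (l.succAbove j), fun v hv => ⟨fun j =>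
                  ((hS P (hS' hP.1)).2 v hv).1 (l.succAbove j), ?_⟩⟩
                exact (hS2c _ hP' v hv).trans (TssStep_pow v hJ2))
          exact h1.trans (mul_le_mul_of_nonneg_right hblN hM0)
        have h3 := TssStep_cover S' (fun P : Fin (m + 1) → K => ∏ j, P j ^ n j)
          (fun P : Fin (m + 1) → K => ∏ j, P j ^ b j) Cs hbCs hcos
        refine h3.trans ?_
        refine mul_le_mul_of_nonneg_right (by exact_mod_cast hCs) (by positivity)

end Pool.Agent.MVD
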