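import Mathlib

/-!
# Module ZgA (size 3)

`mem_minimalPrimes_of_dim`: by `Ideal.exists_minimalPrimes_le` there is `P' ∈ I.minimalPrimes` with `P' ≤ P`. If `P' ≠ P`, then the surjection
`R ⧸ P' →+* R ⧸ P` (`Ideal.Quotient.factor`) kills a nonzero element of the domain `R ⧸ P'`, so
`ringKrullDim (R ⧸ P) + 1 ≤ ringKrullDim (R ⧸ P')` (`ringKrullDim_succ_le_of_surjective`, Mathlib
`RingTheory/KrullDimension/NonZeroDivisors`) `≤ ringKrullDim (R ⧸ I)` (`ringKrullDim_le_of_surjective`), i.e. `r + 1 ≤ r`.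
`exists_prime_dim`: `ringKrullDim (R ⧸ I) = Order.krullDim (PrimeSpectrum.zeroLocus I)` (`ringKrullDim_quotient`); since it is `r` there is an
`LTSeries` of length `r` in the zero locus (`Order.krullDim_eq_iSup_length`, or `Order.le_krullDim_iff`); its head is a prime `Q ⊇ I`, and the
whole series lies in the zero locus of `Q`, so `ringKrullDim (R ⧸ Q) ≥ r`; it is `≤ r` because `R ⧸ I → R ⧸ Q` is surjective. So `Q` has
dimension `r`, and `Q ∈ I.minimalPrimes` by the first theorem.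
-/

namespace Pool.Agent.MVD


theorem mem_minimalPrimes_of_dim {R : Type*} [CommRing R] {I P : Ideal R} [P.IsPrime] {r : ℕ}
    (hIP : I ≤ P) (h1 : ringKrullDim (R ⧸ I) = r) (h2 : ringKrullDim (R ⧸ P) = r) :
    P ∈ I.minimalPrimes := by
  obtain ⟨P', hP', hle⟩ := Ideal.exists_minimalPrimes_le (J := P) hIP
  by_cases h : P' = P
  · rwa [← h]
  exfalso
  have hp' : P'.IsPrime := hP'.1.1
  have hIP' : I ≤ P' := hP'.1.2
  obtain ⟨x, hx, hx'⟩ := SetLike.exists_of_lt (lt_of_le_of_ne hle h)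
  have k1 : ringKrullDim (R ⧸ P) + 1 ≤ ringKrullDim (R ⧸ P') := by
    refine ringKrullDim_succ_le_of_surjective (Ideal.Quotient.factor hle)
      (Ideal.Quotient.factor_surjective hle) (r := Ideal.Quotient.mk P' x) ?_ ?_
    · rw [mem_nonZeroDivisors_iff_ne_zero]
      intro h0
      exact hx' (Ideal.Quotient.eq_zero_iff_mem.mp h0)
    · rw [Ideal.Quotient.factor_mk]
      exact Ideal.Quotient.eq_zero_iff_mem.mpr hx
  have k2 : ringKrullDim (R ⧸ P') ≤ ringKrullDim (R ⧸ I) :=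
    ringKrullDim_le_of_surjective (Ideal.Quotient.factor hIP')
      (Ideal.Quotient.factor_surjective hIP')
  have k3 := k1.trans k2
  rw [h1, h2] at k3
  have k4 : r + 1 ≤ r := by exact_mod_cast k3
  omega

theorem exists_prime_dim {R : Type*} [CommRing R] {I : Ideal R} {r : ℕ}
    (h1 : ringKrullDim (R ⧸ I) = r) :
    ∃ P ∈ I.minimalPrimes, ringKrullDim (R ⧸ P) = r := by
  have h2 : (r : WithBot ℕ∞) ≤ Order.krullDim (PrimeSpectrum.zeroLocus (R := R) I) := by
    rw [← ringKrullDim_quotient, h1]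
  obtain ⟨l, hl⟩ := Order.le_krullDim_iff.mp h2
  let Q : PrimeSpectrum R := l.head.1
  have hIQ : I ≤ Q.asIdeal := l.head.2
  have hmem : ∀ i, Q.asIdeal ≤ (l i).1.asIdeal := fun i => LTSeries.head_le l i
  have hQ : ringKrullDim (R ⧸ Q.asIdeal) = r := by
    apply le_antisymm
    · rw [← h1]
      exact ringKrullDim_le_of_surjective (Ideal.Quotient.factor hIQ)
        (Ideal.Quotient.factor_surjective hIQ)
    · rw [ringKrullDim_quotient]
      rw [Order.le_krullDim_iff]
      refine ⟨⟨l.length, fun i => ⟨(l i).1, hmem i⟩, fun i => l.step i⟩, hl⟩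
  exact ⟨Q.asIdeal, mem_minimalPrimes_of_dim hIQ h1 hQ, hQ⟩

end Pool.Agent.MVD
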