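import Mathlib

/-!
# Module ZgB (size 3)

`eval_scal`: `eval z (aeval (fun j => C (σ j) * X j) F)`; induction on `F` or `eval₂` lemmas. `coeff_scal`: induction on `F` (monomials), or
`scal σ (monomial a c) = monomial a (c * ∏ σ j ^ a j)` and linearity.
`min_supp`: choose `G ∈ P`, `G ≠ 0`, with `G.support.card` minimal (`Nat.find`/`WellFounded.min`). The support has at least two elements:
it is not empty, and if it is `{a}` then `G = monomial a c`, `c ≠ 0`, so (multiply by `C c⁻¹`) `∏ X j ^ a j ∈ P`, hence (`IsPrime`,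
`Ideal.IsPrime.prod_mem_iff`, `mem_of_pow_mem`) some `X j ∈ P`, or `a = 0` and `1 ∈ P`: contradiction. Let `a0 ≠ a1` be in the support,
`b j = a1 j - a0 j`. For `σ` as in the hypothesis `H = scal σ G - C (∏ σ j ^ a0 j) * G ∈ P` has coefficients
`(∏ σ^a - ∏ σ^a0) * coeff a G`, so its support is a proper subset of that of `G` (it misses `a0`), hence `H = 0`, so
`∏ σ j ^ a1 j = ∏ σ j ^ a0 j`, and `∏ σ j ^ (b j) = 1` (`zpow_sub₀`, `σ j ≠ 0`).
-/

namespace Pool.Agent.MVD

open MvPolynomial

variable {k : Type*} [Field k] {m : ℕ}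

/-- The scaling of the variables. -/
noncomputable def scal (σ : Fin m → k) : MvPolynomial (Fin m) k →ₐ[k] MvPolynomial (Fin m) k :=
  aeval fun j => C (σ j) * X j

theorem eval_scal (σ z : Fin m → k) (F : MvPolynomial (Fin m) k) :
    eval z (scal σ F) = eval (fun j => σ j * z j) F := by
  induction F using MvPolynomial.induction_on with
  | C a => simp [scal]
  | add p q hp hq => rw [map_add, map_add, map_add, hp, hq]
  | mul_X p i hp =>
    rw [map_mul, map_mul, map_mul, hp]
    simp [scal]

theorem coeff_scal (σ : Fin m → k) (F : MvPolynomial (Fin m) k) (a : Fin m →₀ ℕ) :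
    coeff a (scal σ F) = (∏ j, σ j ^ a j) * coeff a F := by
  have key : ∀ (b : Fin m →₀ ℕ) (c : k),
      scal σ (monomial b c) = monomial b (c * ∏ j, σ j ^ b j) := by
    intro b c
    unfold scal
    rw [aeval_monomial, Finsupp.prod_fintype _ _ (fun i => pow_zero _)]
    have h1 : ∏ i, (C (σ i) * X i : MvPolynomial (Fin m) k) ^ b i =
        C (∏ i, σ i ^ b i) * ∏ i, (X i : MvPolynomial (Fin m) k) ^ b i := by
      rw [map_prod, ← Finset.prod_mul_distrib]
      refine Finset.prod_congr rfl fun i _ => ?_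
      rw [mul_pow, map_pow]
    have h2 : (monomial b (c * ∏ j, σ j ^ b j) : MvPolynomial (Fin m) k) =
        C (c * ∏ j, σ j ^ b j) * ∏ i, (X i : MvPolynomial (Fin m) k) ^ b i := by
      rw [monomial_eq, Finsupp.prod_fintype _ _ (fun i => pow_zero _)]
    rw [h1, h2, algebraMap_eq, C_mul, mul_assoc]
  induction F using MvPolynomial.induction_on' with
  | monomial b c =>
    rw [key, coeff_monomial, coeff_monomial]
    split_ifs with h
    · subst h; ring
    · rw [mul_zero]
  | add p q hp hq =>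
    rw [map_add, coeff_add, coeff_add, hp, hq, mul_add]

theorem scal_scal (σ τ : Fin m → k) (F : MvPolynomial (Fin m) k) :
    scal σ (scal τ F) = scal (fun j => σ j * τ j) F := by
  apply MvPolynomial.ext
  intro a
  rw [coeff_scal, coeff_scal, coeff_scal, ← mul_assoc, ← Finset.prod_mul_distrib]
  congr 1
  refine Finset.prod_congr rfl fun j _ => ?_
  rw [mul_pow]

/-- A prime ideal which contains no variable is stable only under the scalings in a proper subgroup
of the torus. -/
theorem min_supp {P : Ideal (MvPolynomial (Fin m) k)} [P.IsPrime] (hP : P ≠ ⊥)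
    (hX : ∀ j, (X j : MvPolynomial (Fin m) k) ∉ P) :
    ∃ b : Fin m → ℤ, b ≠ 0 ∧ ∀ σ : Fin m → k, (∀ j, σ j ≠ 0) → (∀ G ∈ P, scal σ G ∈ P) →
      ∏ j, σ j ^ b j = 1 := by
  classical
  have hex : ∃ c : ℕ, ∃ G ∈ P, G ≠ 0 ∧ G.support.card = c := by
    obtain ⟨G, hG, hG0⟩ := Submodule.exists_mem_ne_zero_of_ne_bot hP
    exact ⟨_, G, hG, hG0, rfl⟩
  obtain ⟨G, hG, hG0, hGc⟩ := Nat.find_spec hex
  have hmin : ∀ H ∈ P, H.support.card < G.support.card → H = 0 := by
    intro H hH hlt
    by_contra h0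
    rw [hGc] at hlt
    exact Nat.find_min hex hlt ⟨H, hH, h0, rfl⟩
  have hne : G.support.Nonempty := by
    rw [Finset.nonempty_iff_ne_empty]
    intro h
    exact hG0 (MvPolynomial.support_eq_empty.mp h)
  have hmon : ∀ a : Fin m →₀ ℕ, (∏ j, (X j : MvPolynomial (Fin m) k) ^ a j) ∉ P := by
    intro a ha
    obtain ⟨j, -, hj⟩ := (Ideal.IsPrime.prod_mem_iff).mp ha
    exact hX j (Ideal.IsPrime.mem_of_pow_mem inferInstance _ hj)
  have htwo : ∃ a0 ∈ G.support, ∃ a1 ∈ G.support, a0 ≠ a1 := by
    by_contra hcon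
    push Not at hcon
    obtain ⟨a, ha⟩ := hne
    have hs : G.support = {a} := by
      ext b
      rw [Finset.mem_singleton]
      exact ⟨fun hb => (hcon a ha b hb).symm, fun hb => hb ▸ ha⟩
    have hGm : G = monomial a (coeff a G) := by
      apply MvPolynomial.ext
      intro b
      rw [coeff_monomial]
      split_ifs with h
      · rw [h]
      · by_contra hb
        have : b ∈ G.support := MvPolynomial.mem_support_iff.mpr hb
        rw [hs, Finset.mem_singleton] at this
        exact h this.symm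
    have hc : coeff a G ≠ 0 := MvPolynomial.mem_support_iff.mp ha
    apply hmon a
    have h1 : C (coeff a G)⁻¹ * G ∈ P := Ideal.mul_mem_left _ _ hG
    have h2 : C (coeff a G)⁻¹ * G = ∏ j, (X j : MvPolynomial (Fin m) k) ^ a j := by
      conv_lhs => rw [hGm]
      rw [C_mul_monomial, coeff_monomial, if_pos rfl, inv_mul_cancel₀ hc, monomial_eq, C_1,
        one_mul, Finsupp.prod_fintype _ _ (fun i => pow_zero _)]
    rwa [h2] at h1
  obtain ⟨a0, ha0, a1, ha1, hne01⟩ := htwo
  refine ⟨fun j => (a1 j : ℤ) - a0 j, ?_, ?_⟩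
  · intro h
    apply hne01
    ext j
    have := congrFun h j
    simp only [Pi.zero_apply] at this
    omega
  · intro σ hσ hst
    set H := scal σ G - C (∏ j, σ j ^ a0 j) * G with hH
    have hHP : H ∈ P := Ideal.sub_mem _ (hst G hG) (Ideal.mul_mem_left _ _ hG)
    have hco : ∀ a, coeff a H = (∏ j, σ j ^ a j - ∏ j, σ j ^ a0 j) * coeff a G := by
      intro a
      rw [hH, coeff_sub, coeff_scal, coeff_C_mul, sub_mul]
    have hsub : H.support ⊂ G.support := by
      rw [Finset.ssubset_iff_of_subset]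
      · refine ⟨a0, ha0, ?_⟩
        rw [MvPolynomial.notMem_support_iff, hco, sub_self, zero_mul]
      · intro a ha
        rw [MvPolynomial.mem_support_iff, hco] at ha
        exact MvPolynomial.mem_support_iff.mpr (right_ne_zero_of_mul ha)
    have hH0 : H = 0 := hmin H hHP (Finset.card_lt_card hsub)
    have h1 := hco a1
    rw [hH0, coeff_zero] at h1
    have h2 : ∏ j, σ j ^ a1 j - ∏ j, σ j ^ a0 j = 0 := by
      rcases mul_eq_zero.mp h1.symm with h3 | h3
      · exact h3
      · exact absurd h3 (MvPolynomial.mem_support_iff.mp ha1)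
    have h3 : ∏ j, σ j ^ a0 j ≠ 0 := Finset.prod_ne_zero_iff.mpr fun j _ => pow_ne_zero _ (hσ j)
    calc ∏ j, σ j ^ ((a1 j : ℤ) - a0 j) = (∏ j, σ j ^ a1 j) / ∏ j, σ j ^ a0 j := by
          rw [← Finset.prod_div_distrib]
          refine Finset.prod_congr rfl fun j _ => ?_
          rw [zpow_sub₀ (hσ j), zpow_natCast, zpow_natCast]
      _ = 1 := by rw [sub_eq_zero.mp h2, div_self h3]

end Pool.Agent.MVD
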