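import Pool.Agent.MVD.ZgA
import Pool.Agent.MVD.ZgB

/-!
# Module ZgC (size 5)

(Zero estimate on the torus.) Let `R = MvPolynomial (Fin m) k`, `Z_0 = {1}`, `Z_(i+1) = {z * w : z ∈ Z, w ∈ Z_i}`, so `Z_i ⊆ Z_(i+1)` as `1 ∈ Z`; all coordinates
of the points of `Z_i` are nonzero; every point of `Z_m` is `∏_{i < m} g i` with `g i ∈ Z`. Let `I_i = {G : ∀ w ∈ Z_i, eval w G = 0}` (an ideal);
`I_(i+1) ≤ I_i`; `F ∈ I_m`; `I_0 ≠ ⊤`, so all `I_i ≠ ⊤`. Let `δ_i = ringKrullDim (R ⧸ I_i)`. `0 ≤ δ_0 ≤ δ_1 ≤ … ≤ δ_m` (`ringKrullDim_le_of_surjective`), and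
`δ_m + 1 ≤ ringKrullDim R = m` (`ringKrullDim_succ_le_of_surjective` with `r = F ∈ nonZeroDivisors`, `MvPolynomial.ringKrullDim_of_isNoetherianRing`,
`ringKrullDim_eq_zero_of_field`). So the `δ_i` are natural numbers at most `m - 1` and there is `i < m` with `δ_i = δ_(i+1) = r` (in particular `m ≥ 1`).
Let `P` be a minimal prime of `I_i` with `ringKrullDim (R ⧸ P) = r` (`exists_prime_dim`). For `σ ∈ Z` let `P_σ = comap (scal σ) P`, a prime. If `G ∈ I_(i+1)` then
`scal σ G ∈ I_i ⊆ P` (`eval_scal`), so `I_(i+1) ≤ P_σ`; `R ⧸ P_σ ≃ R ⧸ P` (`scal σ` is bijective with inverse `scal σ⁻¹`, by `scal_scal`;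
`scal 1 = id`), so it has dimension `r` and `P_σ ∈ (I_(i+1)).minimalPrimes` (`mem_minimalPrimes_of_dim`), a finite set
(`Ideal.finite_minimalPrimes_of_isNoetherianRing`). `P ≠ ⊥` (it contains `F`). No `X j` is in `P`: elements of minimal primes of `I_i` are zero divisors
modulo `I_i` (`Ideal.disjoint_nonZeroDivisors_of_mem_minimalPrimes` for the zero ideal of `R ⧸ I_i`, or directly: the radical
ideal `I_i` is a finite intersection of its minimal primes, ...), while `X j * G ∈ I_i` implies `G ∈ I_i` as the coordinates of the points are nonzero. So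
`min_supp` gives `b`. If `P_σ = P_τ` (`σ, τ ∈ Z`) then `scal (σ/τ)` maps `P` to `P`: `G ∈ P`: `G = scal τ G'`, `G' = scal τ⁻¹ G ∈ P_τ = P_σ`, so
`scal σ G' = scal (σ/τ) G ∈ P`; hence `∏ (σ j / τ j) ^ b j = 1`. So `σ ↦ ∏ σ j ^ b j` factors through `σ ↦ P_σ`, which has finitely many values.
-/

namespace Pool.Agent.MVD

open MvPolynomial

private def zgcZ {k : Type*} [Field k] {m : ℕ} (Z : Set (Fin m → k)) : ℕ → Set (Fin m → k)
  | 0 => {fun _ => 1}
  | i + 1 => {w | ∃ z ∈ Z, ∃ w' ∈ zgcZ Z i, w = fun j => z j * w' j}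

private theorem zgc_mono {k : Type*} [Field k] {m : ℕ} {Z : Set (Fin m → k)}
    (h1 : (fun _ => 1) ∈ Z) (i : ℕ) : zgcZ Z i ⊆ zgcZ Z (i + 1) := fun w hw =>
  ⟨fun _ => 1, h1, w, hw, by funext j; simp⟩

private theorem zgc_ne {k : Type*} [Field k] {m : ℕ} {Z : Set (Fin m → k)}
    (h0 : ∀ z ∈ Z, ∀ j, z j ≠ 0) : ∀ (i : ℕ), ∀ w ∈ zgcZ Z i, ∀ j, w j ≠ 0
  | 0, w, hw, j => by rw [Set.mem_singleton_iff.1 hw]; exact one_ne_zero
  | i + 1, w, hw, j => by
      obtain ⟨z, hz, w', hw', rfl⟩ := hw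
      exact mul_ne_zero (h0 z hz j) (zgc_ne h0 i w' hw' j)

private theorem zgc_prod {k : Type*} [Field k] {m : ℕ} {Z : Set (Fin m → k)} :
    ∀ (i : ℕ), ∀ w ∈ zgcZ Z i, ∃ g : Fin i → (Fin m → k), (∀ t, g t ∈ Z) ∧
      w = fun j => ∏ t, g t j
  | 0, w, hw => ⟨Fin.elim0, fun t => t.elim0, by
      rw [Set.mem_singleton_iff.1 hw]; funext j; simp⟩
  | i + 1, w, hw => by
      obtain ⟨z, hz, w', hw', rfl⟩ := hw
      obtain ⟨g, hg, rfl⟩ := zgc_prod i w' hw'
      refine ⟨Fin.cons z g, fun t => ?_, ?_⟩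
      · refine Fin.cases ?_ (fun t => ?_) t
        · simpa using hz
        · simpa using hg t
      · funext j
        rw [Fin.prod_univ_succ]
        simp

private def zgcI {k : Type*} [Field k] {m : ℕ} (S : Set (Fin m → k)) :
    Ideal (MvPolynomial (Fin m) k) where
  carrier := {G | ∀ w ∈ S, eval w G = 0}
  add_mem' := fun {a b} ha hb w hw => by rw [map_add, ha w hw, hb w hw, add_zero]
  zero_mem' := fun w _ => map_zero _
  smul_mem' := fun c x hx w hw => by rw [smul_eq_mul, map_mul, hx w hw, mul_zero]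

private theorem zgc_memI {k : Type*} [Field k] {m : ℕ} {S : Set (Fin m → k)}
    {G : MvPolynomial (Fin m) k} : G ∈ zgcI S ↔ ∀ w ∈ S, eval w G = 0 := Iff.rfl

private theorem zgc_scal_one {k : Type*} [Field k] {m : ℕ} (F : MvPolynomial (Fin m) k) :
    scal (fun _ => 1) F = F := by
  ext a
  rw [coeff_scal]
  simp

private theorem zgc_scal_surj {k : Type*} [Field k] {m : ℕ} (σ : Fin m → k)
    (h : ∀ j, σ j ≠ 0) : Function.Surjective (scal σ) := fun F => by
  refine ⟨scal (fun j => (σ j)⁻¹) F, ?_⟩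
  rw [scal_scal]
  have e : (fun j => σ j * (σ j)⁻¹) = fun _ => (1 : k) := by
    funext j; exact mul_inv_cancel₀ (h j)
  rw [e, zgc_scal_one]

private theorem zgc_chain (m : ℕ) (δ : ℕ → WithBot ℕ∞) (h0 : 0 ≤ δ 0)
    (hmono : ∀ i, δ i ≤ δ (i + 1)) (hm : δ m + 1 ≤ m) :
    ∃ i < m, ∃ r : ℕ, δ i = r ∧ δ (i + 1) = r := by
  have hM : Monotone δ := monotone_nat_of_le_succ hmono
  have hd : ∀ i ≤ m, ∃ d : ℕ, δ i = d := by
    intro i hi
    have h1 : 0 ≤ δ i := h0.trans (hM (Nat.zero_le i))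
    have h2 : δ i + 1 ≤ m := (add_le_add_left (hM hi) 1).trans hm
    generalize δ i = x at h1 h2
    induction x using WithBot.recBotCoe with
    | bot => simp at h1
    | coe x =>
      induction x using ENat.recTopCoe with
      | top =>
        exfalso
        have h3 : (((⊤ : ℕ∞) + 1 : ℕ∞) : WithBot ℕ∞) ≤ ((m : ℕ∞) : WithBot ℕ∞) := by exact_mod_cast h2
        rw [WithBot.coe_le_coe] at h3
        simp at h3
      | coe n => exact ⟨n, rfl⟩
  choose! d hd using hd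
  by_contra hcon
  push Not at hcon
  have hlt : ∀ i < m, d i < d (i + 1) := by
    intro i hi
    have h1 : (d i : WithBot ℕ∞) ≤ d (i + 1) := by
      rw [← hd i hi.le, ← hd (i + 1) hi]; exact hmono i
    have h2 : d i ≤ d (i + 1) := by exact_mod_cast h1
    refine lt_of_le_of_ne h2 fun h => hcon i hi (d i) (hd i hi.le) ?_
    rw [hd (i + 1) hi, h]
  have hge : ∀ i ≤ m, i ≤ d i := by
    intro i
    induction i with
    | zero => intro _; exact Nat.zero_le _
    | succ i ih =>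
      intro hi
      have := ih (by omega)
      have := hlt i (by omega)
      omega
  have h3 := hge m le_rfl
  rw [hd m le_rfl] at hm
  have h4 : d m + 1 ≤ m := by exact_mod_cast hm
  omega

private theorem zgc_dim {R : Type*} [CommRing R] (f : R →+* R) (hf : Function.Surjective f)
    (P : Ideal R) : ringKrullDim (R ⧸ Ideal.comap f P) = ringKrullDim (R ⧸ P) :=
  ringKrullDim_eq_of_ringEquiv (RingEquiv.ofBijective
    (Ideal.quotientMap P f le_rfl)
    ⟨Ideal.quotientMap_injective, Ideal.quotientMap_surjective hf⟩)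

private theorem zgc_kill {R : Type*} [CommRing R] [IsDomain R] (I : Ideal R) {F : R} (hF : F ≠ 0)
    (hFI : F ∈ I) : ringKrullDim (R ⧸ I) + 1 ≤ ringKrullDim R :=
  ringKrullDim_succ_le_of_surjective (Ideal.Quotient.mk I)
    Ideal.Quotient.mk_surjective (mem_nonZeroDivisors_of_ne_zero hF)
    (Ideal.Quotient.eq_zero_iff_mem.2 hFI)

private theorem zgc_anti {R : Type*} [CommRing R] {I J : Ideal R} (h : I ≤ J) :
    ringKrullDim (R ⧸ J) ≤ ringKrullDim (R ⧸ I) :=
  ringKrullDim_le_of_surjective (Ideal.Quotient.factor h) (Ideal.Quotient.factor_surjective h)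

private theorem zgc_nonneg {R : Type*} [CommRing R] {I : Ideal R} (h : (1 : R) ∉ I) :
    0 ≤ ringKrullDim (R ⧸ I) := by
  have : Nontrivial (R ⧸ I) := by
    rw [Ideal.Quotient.nontrivial_iff, Ideal.ne_top_iff_one]
    exact h
  exact ringKrullDim_nonneg_of_nontrivial

private theorem zgc_dimR {k : Type*} [Field k] (m : ℕ) :
    ringKrullDim (MvPolynomial (Fin m) k) = m := by
  rw [MvPolynomial.ringKrullDim_of_isNoetherianRing, ringKrullDim_eq_zero_of_field]
  simp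

private theorem zgc_step {k : Type*} [Field k] {m : ℕ} (Z : Set (Fin m → k))
    (h1 : (fun _ => 1) ∈ Z) (F : MvPolynomial (Fin m) k) (hF : F ≠ 0)
    (hFm : F ∈ zgcI (zgcZ Z m)) : ∃ i < m, ∃ r : ℕ,
      ringKrullDim (MvPolynomial (Fin m) k ⧸ zgcI (zgcZ Z i)) = r ∧
      ringKrullDim (MvPolynomial (Fin m) k ⧸ zgcI (zgcZ Z (i + 1))) = r := by
  refine zgc_chain m (fun i => ringKrullDim (MvPolynomial (Fin m) k ⧸ zgcI (zgcZ Z i)))
    (zgc_nonneg ?_) (fun i => zgc_anti fun G hG w hw => hG w (zgc_mono h1 i hw)) ?_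
  · intro h
    have h3 := h (fun _ => 1) rfl
    rw [map_one] at h3
    exact one_ne_zero h3
  · have h3 := zgc_kill _ hF hFm
    rwa [zgc_dimR] at h3

private theorem zgc_fin {k : Type*} [Field k] {m : ℕ} (Z : Set (Fin m → k))
    (h0 : ∀ z ∈ Z, ∀ j, z j ≠ 0) (i r : ℕ)
    (hr2 : ringKrullDim (MvPolynomial (Fin m) k ⧸ zgcI (zgcZ Z (i + 1))) = r)
    (P : Ideal (MvPolynomial (Fin m) k)) (hPp : P.IsPrime) (hIP : zgcI (zgcZ Z i) ≤ P)
    (hPr : ringKrullDim (MvPolynomial (Fin m) k ⧸ P) = r) :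
    ((fun σ : Fin m → k => Ideal.comap (scal σ).toRingHom P) '' Z).Finite := by
  refine (Ideal.finite_minimalPrimes_of_isNoetherianRing (MvPolynomial (Fin m) k)
    (zgcI (zgcZ Z (i + 1)))).subset ?_
  rintro _ ⟨σ, hσ, rfl⟩
  have hle : zgcI (zgcZ Z (i + 1)) ≤ Ideal.comap (scal σ).toRingHom P := by
    intro G hG
    rw [Ideal.mem_comap]
    apply hIP
    intro w hw
    have h3 : eval w (scal σ G) = 0 := by
      rw [eval_scal]
      exact hG _ ⟨σ, hσ, w, hw, rfl⟩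
    exact h3
  have hprime : (Ideal.comap (scal σ).toRingHom P).IsPrime := Ideal.comap_isPrime _ _
  exact mem_minimalPrimes_of_dim hle hr2
    ((zgc_dim (scal σ).toRingHom (zgc_scal_surj σ (h0 σ hσ)) P).trans hPr)

/-- The zero estimate: if a nonzero polynomial vanishes on all products of `m` elements of `Z` then
some monomial takes finitely many values on `Z`. -/
theorem zero_geo {k : Type*} [Field k] {m : ℕ} (Z : Set (Fin m → k)) (h1 : (fun _ => 1) ∈ Z)
    (h0 : ∀ z ∈ Z, ∀ j, z j ≠ 0) (F : MvPolynomial (Fin m) k) (hF : F ≠ 0)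
    (hv : ∀ g : Fin m → (Fin m → k), (∀ i, g i ∈ Z) → eval (fun j => ∏ i, g i j) F = 0) :
    ∃ b : Fin m → ℤ, b ≠ 0 ∧ ((fun z : Fin m → k => ∏ j, z j ^ b j) '' Z).Finite := by
  classical
  have hFm : F ∈ zgcI (zgcZ Z m) := by
    intro w hw
    obtain ⟨g, hg, rfl⟩ := zgc_prod m w hw
    exact hv g hg
  have hIanti : ∀ i, zgcI (zgcZ Z (i + 1)) ≤ zgcI (zgcZ Z i) := fun i G hG w hw =>
    hG w (zgc_mono h1 i hw)
  have hIanti' : Antitone fun i => zgcI (zgcZ Z i) := antitone_nat_of_succ_le hIanti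
  obtain ⟨i, him, r, hr1, hr2⟩ := zgc_step Z h1 F hF hFm
  obtain ⟨P, hPmin, hPr⟩ := exists_prime_dim hr1
  have hPp : P.IsPrime := hPmin.1.1
  have hIP : zgcI (zgcZ Z i) ≤ P := hPmin.1.2
  have hPbot : P ≠ ⊥ := by
    intro h
    have h3 : F ∈ P := hIP (hIanti' him.le hFm)
    rw [h] at h3
    exact hF (Ideal.mem_bot.1 h3)
  have hX : ∀ j, (X j : MvPolynomial (Fin m) k) ∉ P := by
    intro j hj
    obtain ⟨y, hy, hxy⟩ := Ideal.exists_mul_mem_of_mem_minimalPrimes hPmin hj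
    apply hy
    intro w hw
    have h3 := hxy w hw
    rw [map_mul, eval_X] at h3
    exact (mul_eq_zero.1 h3).resolve_left (zgc_ne h0 i w hw j)
  obtain ⟨b, hb0, hb⟩ := min_supp hPbot hX
  refine ⟨b, hb0, ?_⟩
  have hfin := zgc_fin Z h0 i r hr2 P hPp hIP hPr
  have hmem : ∀ (σ : Fin m → k) (G : MvPolynomial (Fin m) k),
      G ∈ Ideal.comap (scal σ).toRingHom P ↔ scal σ G ∈ P := fun σ G => by
    rw [Ideal.mem_comap]; rfl
  have hkey : ∀ σ ∈ Z, ∀ τ ∈ Z,
      Ideal.comap (scal σ).toRingHom P = Ideal.comap (scal τ).toRingHom P →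
      ∏ j, σ j ^ b j = ∏ j, τ j ^ b j := by
    intro σ hσ τ hτ hστ
    have h3 := hb (fun j => σ j * (τ j)⁻¹)
      (fun j => mul_ne_zero (h0 σ hσ j) (inv_ne_zero (h0 τ hτ j))) (by
        intro G hG
        rw [← scal_scal]
        have h4 : scal (fun j => (τ j)⁻¹) G ∈ Ideal.comap (scal τ).toRingHom P := by
          rw [hmem, scal_scal]
          have e : (fun j => τ j * (τ j)⁻¹) = fun _ => (1 : k) := by
            funext j; exact mul_inv_cancel₀ (h0 τ hτ j)
          rw [e, zgc_scal_one]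
          exact hG
        rw [← hστ, hmem] at h4
        exact h4)
    have h5 : ∏ j, τ j ^ b j ≠ 0 := Finset.prod_ne_zero_iff.2 fun j _ => zpow_ne_zero _ (h0 τ hτ j)
    have h6 : (∏ j, σ j ^ b j) * (∏ j, τ j ^ b j)⁻¹ = 1 := by
      rw [← h3, ← Finset.prod_inv_distrib, ← Finset.prod_mul_distrib]
      refine Finset.prod_congr rfl fun j _ => ?_
      rw [mul_zpow, inv_zpow]
    rwa [mul_inv_eq_one₀ h5] at h6
  -- the map factors
  let f : Ideal (MvPolynomial (Fin m) k) → k := fun Q =>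
    if h : ∃ σ ∈ Z, Ideal.comap (scal σ).toRingHom P = Q then ∏ j, (h.choose j) ^ b j else 0
  refine (hfin.image f).subset ?_
  rintro _ ⟨σ, hσ, rfl⟩
  refine ⟨Ideal.comap (scal σ).toRingHom P, ⟨σ, hσ, rfl⟩, ?_⟩
  have hex : ∃ τ ∈ Z, Ideal.comap (scal τ).toRingHom P = Ideal.comap (scal σ).toRingHom P :=
    ⟨σ, hσ, rfl⟩
  simp only [f, dif_pos hex]
  exact hkey _ hex.choose_spec.1 σ hσ hex.choose_spec.2

end Pool.Agent.MVD
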